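import Pool.Agent.R207.QC1

set_option autoImplicit false

/-! # Radial test functions and their iterated Laplacians -/

namespace Pool.Agent.R207.HH

open MeasureTheory Real Set Filter Topology InnerProductSpace Laplacian
open scoped ContDiff
open Pool.Agent.R207.QC (E Pd qq co lap_eq lap_eq' Pd_smooth NL)

variable {n : ℕ}

/-- radial Laplacian in the variable `s = |x|^2` -/
noncomputable def L (n : ℕ) (f : ℝ → ℝ) : ℝ → ℝ :=
  fun s => 4 * s * deriv (deriv f) s + 2 * n * deriv f s

/-- dilation operator -/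
noncomputable def D (c : ℝ) (f : ℝ → ℝ) : ℝ → ℝ := fun s => -2 * s * deriv f s - c * f s

theorem deriv_smooth {f : ℝ → ℝ} (hf : ContDiff ℝ ∞ f) : ContDiff ℝ ∞ (deriv f) :=
  (contDiff_infty_iff_deriv.mp hf).2

theorem L_smooth {f : ℝ → ℝ} (hf : ContDiff ℝ ∞ f) : ContDiff ℝ ∞ (L n f) := by
  unfold L
  have h1 := deriv_smooth hf
  have h2 := deriv_smooth h1
  exact ((contDiff_const.mul contDiff_id).mul h2).add (contDiff_const.mul h1)

theorem D_smooth {c : ℝ} {f : ℝ → ℝ} (hf : ContDiff ℝ ∞ f) : ContDiff ℝ ∞ (D c f) := by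
  unfold D
  have h1 := deriv_smooth hf
  exact ((contDiff_const.mul contDiff_id).mul h1).sub (contDiff_const.mul hf)

theorem L_iter_smooth {f : ℝ → ℝ} (hf : ContDiff ℝ ∞ f) (j : ℕ) : ContDiff ℝ ∞ ((L n)^[j] f) := by
  induction j with
  | zero => exact hf
  | succ j ih => rw [Function.iterate_succ_apply']; exact L_smooth ih

theorem has_deriv {f : ℝ → ℝ} (hf : ContDiff ℝ ∞ f) (s : ℝ) : HasDerivAt f (deriv f s) s :=
  (hf.differentiable (by simp) s).hasDerivAt

theorem L_D {c : ℝ} {f : ℝ → ℝ} (hf : ContDiff ℝ ∞ f) : L n (D c f) = D (c + 2) (L n f) := by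
  have h1 := deriv_smooth hf
  have h2 := deriv_smooth h1
  have h3 := deriv_smooth h2
  have e1 : deriv (D c f) = fun s => -(2 + c) * deriv f s - 2 * s * deriv (deriv f) s := by
    ext s
    have h := (((hasDerivAt_id s).const_mul (-2)).mul (has_deriv h1 s)).sub
      ((has_deriv hf s).const_mul c)
    have h' : HasDerivAt (D c f) _ s := h
    rw [h'.deriv]
    simp only [id]
    ring
  have e2 : deriv (deriv (D c f)) = fun s => -(4 + c) * deriv (deriv f) s
      - 2 * s * deriv (deriv (deriv f)) s := by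
    rw [e1]
    ext s
    have h := ((has_deriv h1 s).const_mul (-(2 + c))).sub
      (((hasDerivAt_id s).const_mul 2).mul (has_deriv h2 s))
    have h' : HasDerivAt (fun s => -(2 + c) * deriv f s - 2 * s * deriv (deriv f) s) _ s := h
    rw [h'.deriv]
    simp only [id]
    ring
  have e3 : deriv (L n f) = fun s => (4 + 2 * n) * deriv (deriv f) s
      + 4 * s * deriv (deriv (deriv f)) s := by
    ext s
    have h := (((hasDerivAt_id s).const_mul 4).mul (has_deriv h2 s)).add
      ((has_deriv h1 s).const_mul (2 * (n : ℝ)))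
    have h' : HasDerivAt (L n f) _ s := h
    rw [h'.deriv]
    simp only [id]
    ring
  ext s
  change 4 * s * deriv (deriv (D c f)) s + 2 * n * deriv (D c f) s =
    -2 * s * deriv (L n f) s - (c + 2) * L n f s
  rw [e2, e1, e3]
  unfold L
  ring

theorem L_iter_D {c : ℝ} {f : ℝ → ℝ} (hf : ContDiff ℝ ∞ f) (j : ℕ) :
    (L n)^[j] (D c f) = D (c + 2 * j) ((L n)^[j] f) := by
  induction j with
  | zero =>
    simp
  | succ j ih =>
    rw [Function.iterate_succ_apply', Function.iterate_succ_apply', ih, L_D (L_iter_smooth hf j)]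
    congr 1
    push_cast
    ring

/-- base bump -/
noncomputable def chi (s : ℝ) : ℝ := Real.smoothTransition (2 - 2 * s)

theorem chi_smooth : ContDiff ℝ ∞ chi :=
  Real.smoothTransition.contDiff.comp (contDiff_const.sub (contDiff_const.mul contDiff_id))

theorem chi_one {s : ℝ} (hs : s ≤ 1 / 2) : chi s = 1 :=
  Real.smoothTransition.one_of_one_le (by linarith)

theorem chi_zero {s : ℝ} (hs : 1 ≤ s) : chi s = 0 :=
  Real.smoothTransition.zero_of_nonpos (by linarith)

theorem chi_nonneg (s : ℝ) : 0 ≤ chi s := Real.smoothTransition.nonneg _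

theorem chi_le_one (s : ℝ) : chi s ≤ 1 := Real.smoothTransition.le_one _

/-- iterated primitives -/
noncomputable def hj : ℕ → ℝ → ℝ
  | 0 => chi
  | j + 1 => fun s => (1 / 2) * ∫ t in s..1, hj j t

theorem hj_props (j : ℕ) : ContDiff ℝ ∞ (hj j) ∧ (∀ s, 0 ≤ hj j s) ∧ (∀ s, 1 ≤ s → hj j s = 0) := by
  induction j with
  | zero => exact ⟨chi_smooth, chi_nonneg, fun s hs => chi_zero hs⟩
  | succ j ih =>
    obtain ⟨h1, h2, h3⟩ := ih
    have hc : Continuous (hj j) := h1.continuous
    have hd : ∀ s, HasDerivAt (hj (j + 1)) (-(1 / 2) * hj j s) s := by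
      intro s
      have h : HasDerivAt (fun s => ∫ t in s..1, hj j t) (-(hj j s)) s :=
        intervalIntegral.integral_hasDerivAt_left (hc.intervalIntegrable _ _)
          (hc.stronglyMeasurableAtFilter _ _) hc.continuousAt
      have h' := h.const_mul (1 / 2)
      refine h'.congr_deriv ?_
      ring
    have hder : deriv (hj (j + 1)) = fun s => -(1 / 2) * hj j s := by
      ext s
      exact (hd s).deriv
    have hzero : ∀ s, 1 ≤ s → hj (j + 1) s = 0 := by
      intro s hs
      change (1 / 2) * ∫ t in s..1, hj j t = 0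
      rw [intervalIntegral.integral_symm]
      have : ∫ t in (1 : ℝ)..s, hj j t = ∫ t in (1 : ℝ)..s, (0 : ℝ) := by
        apply intervalIntegral.integral_congr
        intro t ht
        rw [uIcc_of_le hs] at ht
        exact h3 t ht.1
      rw [this]
      simp
    refine ⟨?_, ?_, hzero⟩
    · rw [contDiff_infty_iff_deriv]
      refine ⟨fun s => (hd s).differentiableAt, ?_⟩
      rw [hder]
      exact contDiff_const.mul h1
    · intro s
      rcases le_total s 1 with h | h
      · change 0 ≤ (1 / 2) * ∫ t in s..1, hj j t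
        have := intervalIntegral.integral_nonneg (μ := volume) h (f := hj j) (fun t _ => h2 t)
        positivity
      · rw [hzero s h]

theorem hj_deriv (j : ℕ) : deriv (hj (j + 1)) = fun s => -(1 / 2) * hj j s := by
  have hc : Continuous (hj j) := (hj_props j).1.continuous
  ext s
  have h : HasDerivAt (fun s => ∫ t in s..1, hj j t) (-(hj j s)) s :=
    intervalIntegral.integral_hasDerivAt_left (hc.intervalIntegrable _ _)
      (hc.stronglyMeasurableAtFilter _ _) hc.continuousAt
  have h' : HasDerivAt (hj (j + 1)) _ s := h.const_mul (1 / 2)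
  rw [h'.deriv]
  ring

theorem L_hj (j : ℕ) : L n (hj (j + 1)) = D n (hj j) := by
  ext s
  unfold L D
  rw [hj_deriv]
  have h : deriv (fun s => -(1 / 2) * hj j s) s = -(1 / 2) * deriv (hj j) s := by
    have := (has_deriv (hj_props j).1 s).const_mul (-(1 / 2) : ℝ)
    exact this.deriv
  rw [h]
  ring

/-- the functions `H_j` -/
noncomputable def Hj (n : ℕ) : ℕ → ℝ → ℝ
  | 0 => chi
  | j + 1 => D (n + 2 * j) (Hj n j)

theorem Hj_smooth (j : ℕ) : ContDiff ℝ ∞ (Hj n j) := by
  induction j with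
  | zero => exact chi_smooth
  | succ j ih => exact D_smooth ih

theorem L_iter_hj (j : ℕ) : (L n)^[j] (hj j) = Hj n j := by
  induction j with
  | zero => rfl
  | succ j ih =>
    rw [Function.iterate_succ_apply, L_hj, L_iter_D (hj_props j).1, ih]
    rfl

theorem Hj_zero (j : ℕ) {s : ℝ} (hs : 1 < s) : Hj n j s = 0 := by
  induction j generalizing s with
  | zero => exact chi_zero hs.le
  | succ j ih =>
    change -2 * s * deriv (Hj n j) s - (n + 2 * j) * Hj n j s = 0
    have h1 : Hj n j =ᶠ[𝓝 s] fun _ => 0 := by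
      filter_upwards [lt_mem_nhds hs] with t ht
      exact ih ht
    rw [h1.deriv_eq, ih hs]
    simp

theorem Hj_bound (j : ℕ) : ∃ C : ℝ, 0 ≤ C ∧ ∀ s, 0 ≤ s → |Hj n j s| ≤ C := by
  obtain ⟨C, hC⟩ := (isCompact_Icc (a := (0 : ℝ)) (b := 1)).exists_bound_of_continuousOn
    (Hj_smooth (n := n) j).continuous.continuousOn
  have hC0 : 0 ≤ C := (norm_nonneg _).trans (hC 0 (by simp))
  refine ⟨C, hC0, ?_⟩
  intro s hs
  rcases le_or_gt s 1 with h | h
  · exact hC s ⟨hs, h⟩
  · rw [Hj_zero j h, abs_zero]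
    exact hC0

/-! ## powers of the bump -/

theorem L_pow {k : ℕ} {g : ℝ → ℝ} (hg : ContDiff ℝ ∞ g) :
    ∃ g', ContDiff ℝ ∞ g' ∧ L n (fun s => chi s ^ (k + 2) * g s) = fun s => chi s ^ k * g' s := by
  have h0 := chi_smooth
  have h1 := deriv_smooth h0
  have hd : ∀ (k : ℕ) (g : ℝ → ℝ), ContDiff ℝ ∞ g → deriv (fun s => chi s ^ (k + 1) * g s) =
      fun s => chi s ^ k * (((k : ℝ) + 1) * deriv chi s * g s + chi s * deriv g s) := by
    intro k g hg
    ext s
    have h := ((has_deriv h0 s).pow (k + 1)).mul (has_deriv hg s)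
    have h' : HasDerivAt (fun s => chi s ^ (k + 1) * g s) _ s := h
    rw [h'.deriv]
    simp only [Nat.add_sub_cancel, Pi.pow_apply]
    push_cast
    ring
  have hs : ∀ (k : ℕ) (g : ℝ → ℝ), ContDiff ℝ ∞ g →
      ContDiff ℝ ∞ (fun s => ((k : ℝ) + 1) * deriv chi s * g s + chi s * deriv g s) := by
    intro k g hg
    exact ((contDiff_const.mul h1).mul hg).add (h0.mul (deriv_smooth hg))
  have e1 := hd (k + 1) g hg
  have s1 := hs (k + 1) g hg
  set g1 := fun s => (((k + 1 : ℕ) : ℝ) + 1) * deriv chi s * g s + chi s * deriv g s with hg1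
  have e2 := hd k g1 s1
  have s2 := hs k g1 s1
  set g2 := fun s => ((k : ℝ) + 1) * deriv chi s * g1 s + chi s * deriv g1 s with hg2
  refine ⟨fun s => 4 * s * g2 s + 2 * n * (chi s * g1 s), ?_, ?_⟩
  · exact ((contDiff_const.mul contDiff_id).mul s2).add (contDiff_const.mul (h0.mul s1))
  · ext s
    unfold L
    have e3 : deriv (fun s => chi s ^ (k + 2) * g s) = fun s => chi s ^ (k + 1) * g1 s := e1
    rw [e3, e2]
    ring

theorem L_iter_pow (m k : ℕ) {g : ℝ → ℝ} (hg : ContDiff ℝ ∞ g) :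
    ∃ g', ContDiff ℝ ∞ g' ∧
      (L n)^[m] (fun s => chi s ^ (k + 2 * m) * g s) = fun s => chi s ^ k * g' s := by
  induction m generalizing g with
  | zero => exact ⟨g, hg, rfl⟩
  | succ m ih =>
    obtain ⟨g1, h1, h2⟩ := L_pow (n := n) (k := k + 2 * m) hg
    obtain ⟨g2, h3, h4⟩ := ih h1
    refine ⟨g2, h3, ?_⟩
    rw [Function.iterate_succ_apply]
    have e : k + 2 * (m + 1) = k + 2 * m + 2 := by ring
    rw [e, h2, h4]

theorem L_iter_pow_bound (m k : ℕ) (hk : 1 ≤ k) :
    ∃ C : ℝ, 0 < C ∧ ∀ s, 0 ≤ s → |(L n)^[m] (fun s => chi s ^ (k + 2 * m)) s| ≤ C * chi s ^ k := by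
  obtain ⟨g, hg, h⟩ := L_iter_pow (n := n) m k (g := fun _ => 1) contDiff_const
  simp only [mul_one] at h
  obtain ⟨C, hC⟩ := (isCompact_Icc (a := (0 : ℝ)) (b := 1)).exists_bound_of_continuousOn
    hg.continuous.continuousOn
  have hC0 : 0 ≤ C := (norm_nonneg _).trans (hC 0 (by simp))
  refine ⟨C + 1, by linarith, ?_⟩
  intro s hs
  rw [h]
  simp only
  have h0 := pow_nonneg (chi_nonneg s) k
  rcases le_total s 1 with h1 | h1
  · rw [abs_mul, abs_of_nonneg h0, mul_comm]
    apply mul_le_mul_of_nonneg_right _ h0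
    have := hC s ⟨hs, h1⟩
    rw [Real.norm_eq_abs] at this
    linarith
  · rw [chi_zero h1, zero_pow (by omega)]
    simp

/-! ## lifts -/

theorem comp_smooth {G : ℝ → ℝ} (hG : ContDiff ℝ ∞ G) (c : ℝ) :
    ContDiff ℝ ∞ (fun x : E n => G (c * qq x)) :=
  hG.comp (contDiff_const.mul Pool.Agent.R207.QC.qq_smooth)

theorem Pd_comp {G : ℝ → ℝ} (hG : ContDiff ℝ ∞ G) (c : ℝ) (i : Fin n) :
    Pd i (fun x : E n => G (c * qq x)) = fun x => deriv G (c * qq x) * (2 * c * co i x) := by
  ext x
  have hq : HasFDerivAt (fun x : E n => c * qq x) (c • fderiv ℝ qq x) x :=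
    ((Pool.Agent.R207.QC.qq_smooth.differentiable (by simp) x).hasFDerivAt).const_mul c
  have h := (has_deriv hG (c * qq x)).comp_hasFDerivAt x hq
  have h3 : fderiv ℝ (fun x : E n => G (c * qq x)) x = _ := h.fderiv
  have h4 := congrFun (Pool.Agent.R207.QC.Pd_qq i) x
  unfold Pool.Agent.R207.QC.Pd at h4 ⊢
  rw [h3]
  simp only [smul_apply, smul_eq_mul, h4]
  ring

theorem lap_comp {G : ℝ → ℝ} (hG : ContDiff ℝ ∞ G) (c : ℝ) :
    Δ (fun x : E n => G (c * qq x)) = fun x => c * L n G (c * qq x) := by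
  rw [lap_eq' (comp_smooth hG c)]
  ext x
  have hG1 := deriv_smooth hG
  have h : ∀ i : Fin n, Pd i (Pd i (fun x : E n => G (c * qq x))) x =
      4 * c ^ 2 * deriv (deriv G) (c * qq x) * (co i x * co i x) + 2 * c * deriv G (c * qq x) := by
    intro i
    rw [Pd_comp hG]
    have h1 := congrFun (Pool.Agent.R207.QC.Pd_mul (comp_smooth (n := n) hG1 c)
      (contDiff_const.mul (Pool.Agent.R207.QC.co_smooth i) : ContDiff ℝ ∞ (fun x : E n => 2 * c * co i x))
      i) x
    rw [h1, Pd_comp hG1, Pool.Agent.R207.QC.Pd_const_mul (Pool.Agent.R207.QC.co_smooth i),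
      Pool.Agent.R207.QC.Pd_co]
    simp only [if_true]
    ring
  simp only [h]
  rw [Finset.sum_add_distrib, ← Finset.mul_sum, Pool.Agent.R207.QC.sum_co_sq]
  simp only [Finset.sum_const, Finset.card_univ, Fintype.card_fin, nsmul_eq_mul]
  unfold L
  ring

theorem NL_iter_comp {G : ℝ → ℝ} (hG : ContDiff ℝ ∞ G) (c : ℝ) (j : ℕ) :
    NL^[j] (fun x : E n => G (c * qq x)) = fun x => (-c) ^ j * (L n)^[j] G (c * qq x) := by
  induction j with
  | zero => ext x; simp
  | succ j ih =>
    rw [Function.iterate_succ_apply', ih, Function.iterate_succ_apply']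
    ext x
    have hs := L_iter_smooth (n := n) hG j
    have h1 := congrFun (Pool.Agent.R207.QC.lap_const_mul (comp_smooth (n := n) hs c) ((-c) ^ j)) x
    change -Δ (fun x : E n => (-c) ^ j * (L n)^[j] G (c * qq x)) x = _
    rw [h1, congrFun (lap_comp hs c) x]
    ring

end Pool.Agent.R207.HH
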