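import Pool.Agent.R207.QC2
import Pool.Agent.R207.HH1

set_option autoImplicit false

/-! # The space H^1_0 of a set and weak solutions of quadratic-gradient problems -/

namespace Pool.Agent.R207.AC

open MeasureTheory Real Set Filter Topology InnerProductSpace Laplacian
open scoped ContDiff
open Pool.Agent.R207.QC
open Pool.Agent.R207.HH (deriv_smooth has_deriv Pd_comp lap_comp comp_smooth L)

variable {n : ℕ}

/-- `u` is in `H^1_0(Ω)` with weak partial derivatives `G i` -/
def H10 (Ω : Set (E n)) (u : E n → ℝ) (G : Fin n → E n → ℝ) : Prop :=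
  MemLp u 2 (volume.restrict Ω) ∧ (∀ i, MemLp (G i) 2 (volume.restrict Ω)) ∧
  ∃ φ : ℕ → E n → ℝ,
    (∀ k, ContDiff ℝ ∞ (φ k) ∧ HasCompactSupport (φ k) ∧ tsupport (φ k) ⊆ Ω) ∧
    Tendsto (fun k => ∫ x in Ω, (φ k x - u x) ^ 2) atTop (𝓝 0) ∧
    ∀ i, Tendsto (fun k => ∫ x in Ω, (Pd i (φ k) x - G i x) ^ 2) atTop (𝓝 0)

/-- essential boundedness on `Ω` -/
def Bdd (Ω : Set (E n)) (u : E n → ℝ) : Prop :=
  ∃ M : ℝ, ∀ᵐ x ∂(volume.restrict Ω), |u x| ≤ M

/-- `u ∈ H^1_0(Ω) ∩ L^∞(Ω)` is a weak solution of `-Δ u = lam c u + μ |∇u|^2 + h` in `Ω` -/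
def IsSol (Ω : Set (E n)) (c μ h : E n → ℝ) (lam : ℝ) (u : E n → ℝ) : Prop :=
  ∃ G : Fin n → E n → ℝ, H10 Ω u G ∧ Bdd Ω u ∧
    ∀ (v : E n → ℝ) (W : Fin n → E n → ℝ), H10 Ω v W → Bdd Ω v →
      ∫ x in Ω, ∑ i, G i x * W i x =
        lam * (∫ x in Ω, c x * u x * v x) + (∫ x in Ω, μ x * (∑ i, G i x ^ 2) * v x) +
          ∫ x in Ω, h x * v x

/-- the first eigenvalue of `-Δ φ = γ c φ`, `φ ∈ H^1_0(Ω)`, as the infimum of the Rayleigh quotients -/
noncomputable def firstEigenvalue (Ω : Set (E n)) (c : E n → ℝ) : ℝ :=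
  sInf {R : ℝ | ∃ (v : E n → ℝ) (W : Fin n → E n → ℝ), H10 Ω v W ∧
    0 < ∫ x in Ω, c x * v x ^ 2 ∧ R = (∫ x in Ω, ∑ i, W i x ^ 2) / ∫ x in Ω, c x * v x ^ 2}

/-- `γ` is an eigenvalue of `-Δ φ = γ c φ`, `φ ∈ H^1_0(Ω)`, in the weak sense -/
def IsEigenvalue (Ω : Set (E n)) (c : E n → ℝ) (γ : ℝ) : Prop :=
  ∃ (φ : E n → ℝ) (G : Fin n → E n → ℝ), H10 Ω φ G ∧ ¬ (φ =ᵐ[volume.restrict Ω] fun _ => 0) ∧
    ∀ (v : E n → ℝ) (W : Fin n → E n → ℝ), H10 Ω v W →
      ∫ x in Ω, ∑ i, G i x * W i x = γ * ∫ x in Ω, c x * φ x * v x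

/-! ### L² limits -/

theorem sq_int {Ω : Set (E n)} {f : E n → ℝ} (hf : MemLp f 2 (volume.restrict Ω)) :
    Integrable (fun x => f x ^ 2) (volume.restrict Ω) := hf.integrable_sq

theorem mul_int {Ω : Set (E n)} {f g : E n → ℝ} (hf : MemLp f 2 (volume.restrict Ω))
    (hg : MemLp g 2 (volume.restrict Ω)) :
    Integrable (fun x => f x * g x) (volume.restrict Ω) := hf.integrable_mul hg

theorem lim_mul {Ω : Set (E n)} {g f : E n → ℝ} {F : ℕ → E n → ℝ}
    (hg : MemLp g 2 (volume.restrict Ω)) (hf : MemLp f 2 (volume.restrict Ω))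
    (hF : ∀ k, MemLp (F k) 2 (volume.restrict Ω))
    (h : Tendsto (fun k => ∫ x in Ω, (F k x - f x) ^ 2) atTop (𝓝 0)) :
    Tendsto (fun k => ∫ x in Ω, g x * F k x) atTop (𝓝 (∫ x in Ω, g x * f x)) := by
  rw [Metric.tendsto_atTop]
  intro ε hε
  set A := ∫ x in Ω, g x ^ 2 with hA
  have hA0 : 0 ≤ A := integral_nonneg fun x => sq_nonneg _
  set t : ℝ := ε / (2 * (A + 1)) with ht
  have ht0 : 0 < t := by positivity
  obtain ⟨N, hN⟩ := Metric.tendsto_atTop.mp h (t * ε / 2) (by positivity)
  refine ⟨N, fun k hk => ?_⟩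
  have h1 := hN k hk
  rw [Real.dist_eq, sub_zero] at h1
  have h2 := (le_abs_self _).trans_lt h1
  rw [Real.dist_eq, ← integral_sub (mul_int hg (hF k)) (mul_int hg hf)]
  have hd : MemLp (fun x => F k x - f x) 2 (volume.restrict Ω) := (hF k).sub hf
  have hi : Integrable (fun x => t * g x ^ 2 + t⁻¹ * (F k x - f x) ^ 2) (volume.restrict Ω) :=
    ((sq_int hg).const_mul t).add ((sq_int hd).const_mul _)
  calc |∫ x in Ω, (g x * F k x - g x * f x)| ≤ ∫ x in Ω, |g x * F k x - g x * f x| :=
        abs_integral_le_integral_abs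
    _ ≤ ∫ x in Ω, (t * g x ^ 2 + t⁻¹ * (F k x - f x) ^ 2) / 2 := by
        apply integral_mono_of_nonneg (Eventually.of_forall fun x => abs_nonneg _) (hi.div_const 2)
        refine Eventually.of_forall fun x => ?_
        show |g x * F k x - g x * f x| ≤ (t * g x ^ 2 + t⁻¹ * (F k x - f x) ^ 2) / 2
        rw [← mul_sub, abs_mul, le_div_iff₀ two_pos]
        have e : t * g x ^ 2 + t⁻¹ * (F k x - f x) ^ 2 - |g x| * |F k x - f x| * 2 =
            t⁻¹ * (t * |g x| - |F k x - f x|) ^ 2 := by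
          rw [← sq_abs (g x), ← sq_abs (F k x - f x)]
          field_simp
          ring
        have : 0 ≤ t⁻¹ * (t * |g x| - |F k x - f x|) ^ 2 := by positivity
        linarith
    _ = (t * A + t⁻¹ * ∫ x in Ω, (F k x - f x) ^ 2) / 2 := by
        rw [integral_div, integral_add ((sq_int hg).const_mul t) ((sq_int hd).const_mul _),
          integral_const_mul, integral_const_mul]
    _ < ε := by
        have h3 : t * A ≤ ε / 2 := by
          rw [ht, div_mul_eq_mul_div, div_le_div_iff₀ (by positivity) two_pos]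
          nlinarith
        have h4 : t⁻¹ * ∫ x in Ω, (F k x - f x) ^ 2 < ε := by
          rw [inv_mul_lt_iff₀ ht0]
          nlinarith [mul_pos ht0 hε]
        linarith

theorem lim_sq {Ω : Set (E n)} {f : E n → ℝ} {F : ℕ → E n → ℝ}
    (hf : MemLp f 2 (volume.restrict Ω)) (hF : ∀ k, MemLp (F k) 2 (volume.restrict Ω))
    (h : Tendsto (fun k => ∫ x in Ω, (F k x - f x) ^ 2) atTop (𝓝 0)) :
    Tendsto (fun k => ∫ x in Ω, F k x ^ 2) atTop (𝓝 (∫ x in Ω, f x ^ 2)) := by
  have e : ∀ k, ∫ x in Ω, F k x ^ 2 = (∫ x in Ω, (F k x - f x) ^ 2) +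
      (2 * (∫ x in Ω, f x * F k x) - ∫ x in Ω, f x ^ 2) := by
    intro k
    have hd : MemLp (fun x => F k x - f x) 2 (volume.restrict Ω) := (hF k).sub hf
    have hsub : Integrable (fun x => 2 * (f x * F k x) - f x ^ 2) (volume.restrict Ω) :=
      ((mul_int hf (hF k)).const_mul 2).sub (sq_int hf)
    rw [← integral_const_mul, ← integral_sub ((mul_int hf (hF k)).const_mul 2) (sq_int hf),
      ← integral_add (sq_int hd) hsub]
    apply integral_congr_ae
    refine Eventually.of_forall fun x => ?_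
    show F k x ^ 2 = _
    ring
  simp only [e]
  have h1 := h.add (((lim_mul hf hf hF h).const_mul 2).sub_const (∫ x in Ω, f x ^ 2))
  have e2 : (0 : ℝ) + (2 * (∫ x in Ω, f x * f x) - ∫ x in Ω, f x ^ 2) = ∫ x in Ω, f x ^ 2 := by
    have : ∫ x in Ω, f x * f x = ∫ x in Ω, f x ^ 2 := by
      congr 1
      ext x
      ring
    rw [this]
    ring
  rwa [e2] at h1

theorem memLp_cpt {Ω : Set (E n)} {f : E n → ℝ} (hf : Continuous f) (hc : HasCompactSupport f) :
    MemLp f 2 (volume.restrict Ω) :=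
  (hf.memLp_of_hasCompactSupport hc).restrict Ω

/-! ### The ball -/

/-- the open unit ball -/
abbrev B (n : ℕ) : Set (E n) := Metric.ball (0 : E n) 1

theorem mem_B {x : E n} : x ∈ B n ↔ qq x < 1 := by
  rw [mem_ball_zero_iff]
  unfold qq
  constructor
  · intro h
    nlinarith [norm_nonneg x]
  · intro h
    nlinarith [norm_nonneg x]

theorem qq_nonneg (x : E n) : 0 ≤ qq x := by
  unfold qq
  positivity

theorem bdd_cont {f : E n → ℝ} (hf : Continuous f) : ∃ M : ℝ, 0 ≤ M ∧ ∀ x ∈ B n, |f x| ≤ M := by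
  obtain ⟨M, hM⟩ := (isCompact_closedBall (0 : E n) 1).exists_bound_of_continuousOn hf.continuousOn
  refine ⟨|M|, abs_nonneg _, fun x hx => ?_⟩
  have := hM x (Metric.ball_subset_closedBall hx)
  rw [Real.norm_eq_abs] at this
  exact this.trans (le_abs_self M)

theorem ae_B {P : E n → Prop} (h : ∀ x ∈ B n, P x) : ∀ᵐ x ∂(volume.restrict (B n)), P x :=
  (ae_restrict_iff' Metric.isOpen_ball.measurableSet).mpr (Eventually.of_forall h)

theorem bdd_of_cont {f : E n → ℝ} (hf : Continuous f) : Bdd (B n) f := by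
  obtain ⟨M, -, hM⟩ := bdd_cont hf
  exact ⟨M, ae_B hM⟩

instance finB : IsFiniteMeasure (volume.restrict (B n)) :=
  ⟨by rw [Measure.restrict_apply_univ]; exact measure_ball_lt_top⟩

theorem memLp_B {f : E n → ℝ} (hf : Continuous f) (p : ENNReal) :
    MemLp f p (volume.restrict (B n)) := by
  obtain ⟨M, -, hM⟩ := bdd_cont hf
  exact MemLp.of_bound hf.aestronglyMeasurable M (ae_B hM)

theorem tsupport_B {f : E n → ℝ} {r : ℝ} (hr : r < 1) (h : ∀ x, r < qq x → f x = 0) :
    HasCompactSupport f ∧ tsupport f ⊆ B n := by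
  have hcl : IsClosed {x : E n | qq x ≤ r} := isClosed_le qq_smooth.continuous continuous_const
  have hsub : tsupport f ⊆ {x : E n | qq x ≤ r} := by
    apply closure_minimal _ hcl
    intro x hx
    by_contra h1
    exact hx (h x (not_le.mp h1))
  have h2 : {x : E n | qq x ≤ r} ⊆ B n := fun x hx => mem_B.mpr (lt_of_le_of_lt hx hr)
  refine ⟨?_, hsub.trans h2⟩
  apply HasCompactSupport.intro (isCompact_closedBall (0 : E n) 1)
  intro x hx
  by_contra h1
  exact hx (Metric.ball_subset_closedBall (h2 (hsub (subset_tsupport f h1))))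

/-- cut-off in the variable `s = |x|^2` -/
noncomputable def cut (k : ℕ) (s : ℝ) : ℝ := Real.smoothTransition ((k + 1) * (1 - s) - 1)

theorem cut_smooth (k : ℕ) : ContDiff ℝ ∞ (cut k) :=
  Real.smoothTransition.contDiff.comp
    ((contDiff_const.mul (contDiff_const.sub contDiff_id)).sub contDiff_const)

theorem cut_nonneg (k : ℕ) (s : ℝ) : 0 ≤ cut k s := Real.smoothTransition.nonneg _

theorem cut_le_one (k : ℕ) (s : ℝ) : cut k s ≤ 1 := Real.smoothTransition.le_one _

theorem cut_zero (k : ℕ) {s : ℝ} (hs : 1 - 1 / (k + 1 : ℝ) ≤ s) : cut k s = 0 := by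
  apply Real.smoothTransition.zero_of_nonpos
  have hk : (0 : ℝ) < k + 1 := by positivity
  have : (k + 1 : ℝ) * (1 - s) ≤ (k + 1) * (1 / (k + 1)) := by
    apply mul_le_mul_of_nonneg_left _ hk.le
    linarith
  rw [mul_one_div_cancel hk.ne'] at this
  linarith

theorem cut_one (k : ℕ) {s : ℝ} (hs : s ≤ 1 - 2 / (k + 1 : ℝ)) : cut k s = 1 := by
  apply Real.smoothTransition.one_of_one_le
  have hk : (0 : ℝ) < k + 1 := by positivity
  have : (k + 1 : ℝ) * (2 / (k + 1)) ≤ (k + 1) * (1 - s) := by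
    apply mul_le_mul_of_nonneg_left _ hk.le
    linarith
  rw [mul_div_cancel₀ _ hk.ne'] at this
  linarith

theorem st_deriv_bound : ∃ S : ℝ, 0 ≤ S ∧ ∀ y : ℝ, |deriv Real.smoothTransition y| ≤ S := by
  have hc : Continuous (deriv Real.smoothTransition) :=
    (Real.smoothTransition.contDiff (n := 2)).continuous_deriv (by norm_num)
  obtain ⟨S, hS⟩ := (isCompact_Icc (a := (0 : ℝ)) (b := 1)).exists_bound_of_continuousOn hc.continuousOn
  refine ⟨|S|, abs_nonneg _, fun y => ?_⟩
  by_cases hy : y ∈ Icc (0 : ℝ) 1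
  · have := hS y hy
    rw [Real.norm_eq_abs] at this
    exact this.trans (le_abs_self S)
  · have h0 : deriv Real.smoothTransition y = 0 := by
      rw [mem_Icc, not_and_or, not_le, not_le] at hy
      rcases hy with hy | hy
      · have : Real.smoothTransition =ᶠ[𝓝 y] fun _ => 0 := by
          filter_upwards [Iio_mem_nhds hy] with z hz
          exact Real.smoothTransition.zero_of_nonpos (le_of_lt hz)
        rw [this.deriv_eq, deriv_const]
      · have : Real.smoothTransition =ᶠ[𝓝 y] fun _ => 1 := by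
          filter_upwards [Ioi_mem_nhds hy] with z hz
          exact Real.smoothTransition.one_of_one_le (le_of_lt hz)
        rw [this.deriv_eq, deriv_const]
    rw [h0, abs_zero]
    exact abs_nonneg S

theorem cut_deriv (k : ℕ) (s : ℝ) :
    deriv (cut k) s = -(k + 1) * deriv Real.smoothTransition ((k + 1) * (1 - s) - 1) := by
  have h1 : HasDerivAt (fun s : ℝ => (k + 1 : ℝ) * (1 - s) - 1) (-(k + 1)) s := by
    have := (((hasDerivAt_id' s).const_sub 1).const_mul (k + 1 : ℝ)).sub_const 1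
    rw [mul_neg_one] at this
    exact this
  have h2 : HasDerivAt Real.smoothTransition (deriv Real.smoothTransition ((k + 1) * (1 - s) - 1))
      ((k + 1) * (1 - s) - 1) :=
    ((Real.smoothTransition.contDiff (n := 1)).differentiable (by norm_num) _).hasDerivAt
  have h3 := h2.comp s h1
  have h4 : HasDerivAt (cut k) _ s := h3
  rw [h4.deriv]
  ring

/-- a smooth radial function which vanishes on the unit sphere is in `H^1_0` of the unit ball -/
theorem H10_radial {f : ℝ → ℝ} (hf : ContDiff ℝ ∞ f) (h1 : f 1 = 0) :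
    H10 (B n) (fun x => f (qq x)) (fun i => Pd i (fun x => f (qq x))) := by
  have hu : ContDiff ℝ ∞ (fun x : E n => f (qq x)) := hf.comp qq_smooth
  have hPd : ∀ i (x : E n), Pd i (fun x => f (qq x)) x = deriv f (qq x) * (2 * co i x) := by
    intro i x
    have := congrFun (Pd_comp hf 1 i) x
    simpa only [one_mul, mul_one] using this
  obtain ⟨S, hS0, hS⟩ := st_deriv_bound
  have hf' := deriv_smooth hf
  -- bounds on [0,1]
  obtain ⟨M0, hM0⟩ := (isCompact_Icc (a := (0 : ℝ)) (b := 1)).exists_bound_of_continuousOn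
    hf.continuous.continuousOn
  obtain ⟨M1, hM1⟩ := (isCompact_Icc (a := (0 : ℝ)) (b := 1)).exists_bound_of_continuousOn
    hf'.continuous.continuousOn
  have hL : ∀ s ∈ Icc (0 : ℝ) 1, |f s| ≤ M1 * (1 - s) := by
    intro s hs
    have := (convex_Icc (0 : ℝ) 1).norm_image_sub_le_of_norm_deriv_le
      (fun x _ => hf.differentiable (by simp) x) hM1 (x := 1) (y := s) ⟨zero_le_one, le_rfl⟩ hs
    rw [h1, sub_zero, Real.norm_eq_abs, Real.norm_eq_abs, abs_sub_comm, abs_of_nonneg
      (by linarith [hs.2] : (0 : ℝ) ≤ 1 - s)] at this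
    exact this
  have hM1' : 0 ≤ M1 := (norm_nonneg _).trans (hM1 0 ⟨le_rfl, zero_le_one⟩)
  have hM0' : 0 ≤ M0 := (norm_nonneg _).trans (hM0 0 ⟨le_rfl, zero_le_one⟩)
  set F : ℕ → ℝ → ℝ := fun k s => cut k s * f s with hF
  have hFs : ∀ k, ContDiff ℝ ∞ (F k) := fun k => (cut_smooth k).mul hf
  have hFd : ∀ k s, deriv (F k) s = deriv (cut k) s * f s + cut k s * deriv f s := by
    intro k s
    have := (has_deriv (cut_smooth k) s).mul (has_deriv hf s)
    exact this.deriv
  have hPF : ∀ k i (x : E n), Pd i (fun x => F k (qq x)) x = deriv (F k) (qq x) * (2 * co i x) := by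
    intro k i x
    have := congrFun (Pd_comp (hFs k) 1 i) x
    simpa only [one_mul, mul_one] using this
  have hev : ∀ x ∈ B n, ∀ᶠ k : ℕ in atTop, qq x < 1 - 2 / (k + 1 : ℝ) := by
    intro x hx
    have hq := mem_B.mp hx
    have ht : Tendsto (fun k : ℕ => 1 - 2 / ((k : ℝ) + 1)) atTop (𝓝 (1 - 2 * 0)) := by
      have := (tendsto_one_div_add_atTop_nhds_zero_nat (𝕜 := ℝ)).const_mul 2
      have h3 := this.const_sub 1
      refine h3.congr fun k => ?_
      ring
    rw [mul_zero, sub_zero] at ht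
    exact ht.eventually_const_lt hq
  refine ⟨memLp_B hu.continuous 2, fun i => memLp_B (Pd_smooth hu i).continuous 2,
    fun k x => F k (qq x), fun k => ?_, ?_, fun i => ?_⟩
  · refine ⟨(hFs k).comp qq_smooth, tsupport_B (r := 1 - 1 / (k + 1 : ℝ)) ?_ fun x hx => ?_⟩
    · have : (0 : ℝ) < 1 / (k + 1 : ℝ) := by positivity
      linarith
    · show cut k (qq x) * f (qq x) = 0
      rw [cut_zero k hx.le, zero_mul]
  · have : (0 : ℝ) = ∫ x in B n, (0 : ℝ) := by simp
    rw [this]
    apply tendsto_integral_of_dominated_convergence (fun _ => M0 ^ 2)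
    · intro k
      exact ((((hFs k).comp qq_smooth).continuous.sub hu.continuous).pow 2).aestronglyMeasurable
    · exact integrable_const _
    · intro k
      refine ae_B fun x hx => ?_
      have hq := mem_B.mp hx
      have h5 := hM0 (qq x) ⟨qq_nonneg x, hq.le⟩
      rw [Real.norm_eq_abs] at h5 ⊢
      rw [abs_of_nonneg (sq_nonneg _)]
      show (cut k (qq x) * f (qq x) - f (qq x)) ^ 2 ≤ M0 ^ 2
      rw [← sq_abs]
      apply pow_le_pow_left₀ (abs_nonneg _)
      have : cut k (qq x) * f (qq x) - f (qq x) = -((1 - cut k (qq x)) * f (qq x)) := by ring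
      rw [this, abs_neg, abs_mul, abs_of_nonneg (by linarith [cut_le_one k (qq x)] :
        (0 : ℝ) ≤ 1 - cut k (qq x))]
      nlinarith [cut_nonneg k (qq x), abs_nonneg (f (qq x))]
    · refine ae_B fun x hx => ?_
      apply tendsto_const_nhds.congr'
      filter_upwards [hev x hx] with k hk
      show (0 : ℝ) = (cut k (qq x) * f (qq x) - f (qq x)) ^ 2
      rw [cut_one k hk.le]
      ring
  · have : (0 : ℝ) = ∫ x in B n, (0 : ℝ) := by simp
    rw [this]
    apply tendsto_integral_of_dominated_convergence (fun _ => (2 * (2 * (S * M1) + M1)) ^ 2)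
    · intro k
      exact (((Pd_smooth ((hFs k).comp qq_smooth) i).continuous.sub
        (Pd_smooth hu i).continuous).pow 2).aestronglyMeasurable
    · exact integrable_const _
    · intro k
      refine ae_B fun x hx => ?_
      have hq := mem_B.mp hx
      have hs : qq x ∈ Icc (0 : ℝ) 1 := ⟨qq_nonneg x, hq.le⟩
      have h5 := hM1 (qq x) hs
      rw [Real.norm_eq_abs] at h5 ⊢
      show |(Pd i (fun x => F k (qq x)) x - Pd i (fun x => f (qq x)) x) ^ 2| ≤ _
      rw [abs_of_nonneg (sq_nonneg _), hPF, hPd, hFd, ← sub_mul, ← sq_abs, abs_mul]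
      apply pow_le_pow_left₀ (by positivity)
      have hco : |2 * co i x| ≤ 2 := by
        rw [abs_mul, abs_two]
        have : |co i x| ≤ 1 := by
          have h6 : co i x ^ 2 ≤ qq x := by
            rw [← sum_co_sq x]
            have : co i x ^ 2 = co i x * co i x := by ring
            rw [this]
            exact Finset.single_le_sum (f := fun j => co j x * co j x)
              (fun j _ => mul_self_nonneg _) (Finset.mem_univ i)
          rw [← abs_one, ← sq_le_sq]
          linarith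
        linarith
      have hdc : |deriv (cut k) (qq x) * f (qq x)| ≤ 2 * (S * M1) := by
        rw [cut_deriv]
        have hk : (0 : ℝ) < k + 1 := by positivity
        by_cases h7 : (k + 1 : ℝ) * (1 - qq x) - 1 ≤ 1
        · rw [abs_mul, abs_mul, abs_neg, abs_of_pos hk]
          have h8 := hS ((k + 1) * (1 - qq x) - 1)
          have h9 := hL _ hs
          have h10 : 0 ≤ (k + 1 : ℝ) * (1 - qq x) := by
            apply mul_nonneg hk.le
            linarith
          calc (k + 1 : ℝ) * |deriv Real.smoothTransition ((k + 1) * (1 - qq x) - 1)| * |f (qq x)|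
              ≤ (k + 1 : ℝ) * S * (M1 * (1 - qq x)) := by
                apply mul_le_mul (mul_le_mul_of_nonneg_left h8 hk.le) h9 (abs_nonneg _) (by positivity)
            _ = (S * M1) * ((k + 1) * (1 - qq x)) := by ring
            _ ≤ (S * M1) * 2 := by
                apply mul_le_mul_of_nonneg_left _ (by positivity)
                linarith
            _ = 2 * (S * M1) := by ring
        · have : deriv Real.smoothTransition ((k + 1) * (1 - qq x) - 1) = 0 := by
            have h8 : Real.smoothTransition =ᶠ[𝓝 ((k + 1 : ℝ) * (1 - qq x) - 1)] fun _ => 1 := by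
              filter_upwards [Ioi_mem_nhds (not_le.mp h7)] with z hz
              exact Real.smoothTransition.one_of_one_le (le_of_lt hz)
            rw [h8.deriv_eq, deriv_const]
          rw [this, mul_zero, zero_mul, abs_zero]
          positivity
      have h11 : |deriv (cut k) (qq x) * f (qq x) + cut k (qq x) * deriv f (qq x) - deriv f (qq x)| ≤
          2 * (S * M1) + M1 := by
        have e : deriv (cut k) (qq x) * f (qq x) + cut k (qq x) * deriv f (qq x) - deriv f (qq x) =
            deriv (cut k) (qq x) * f (qq x) + -((1 - cut k (qq x)) * deriv f (qq x)) := by ring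
        rw [e]
        refine (abs_add_le _ _).trans (add_le_add hdc ?_)
        rw [abs_neg, abs_mul, abs_of_nonneg (by linarith [cut_le_one k (qq x)] :
          (0 : ℝ) ≤ 1 - cut k (qq x))]
        nlinarith [cut_nonneg k (qq x), abs_nonneg (deriv f (qq x))]
      calc _ ≤ (2 * (S * M1) + M1) * 2 := mul_le_mul h11 hco (abs_nonneg _) (by positivity)
        _ = 2 * (2 * (S * M1) + M1) := by ring
    · refine ae_B fun x hx => ?_
      apply tendsto_const_nhds.congr'
      filter_upwards [hev x hx] with k hk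
      show (0 : ℝ) = (Pd i (fun x => F k (qq x)) x - Pd i (fun x => f (qq x)) x) ^ 2
      rw [hPF, hPd]
      have : F k =ᶠ[𝓝 (qq x)] f := by
        filter_upwards [Iio_mem_nhds hk] with s hs
        show cut k s * f s = f s
        rw [cut_one k (le_of_lt hs), one_mul]
      rw [this.deriv_eq]
      ring

end Pool.Agent.R207.AC
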