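import Pool.Agent.R207.AC1

set_option autoImplicit false

/-! # Green identity, Poincare inequality, first eigenvalue on the unit ball -/

namespace Pool.Agent.R207.AC

open MeasureTheory Real Set Filter Topology InnerProductSpace Laplacian
open scoped ContDiff
open Pool.Agent.R207.QC
open Pool.Agent.R207.HH (deriv_smooth has_deriv Pd_comp lap_comp comp_smooth L)

variable {n : ℕ}

theorem set_eq_full {Ω : Set (E n)} {φ g : E n → ℝ} (h : tsupport φ ⊆ Ω)
    (hg : ∀ x, φ =ᶠ[𝓝 x] (fun _ => 0) → g x = 0) : ∫ x in Ω, g x = ∫ x, g x := by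
  apply setIntegral_eq_integral_of_forall_compl_eq_zero
  intro x hx
  apply hg
  exact notMem_tsupport_iff_eventuallyEq.mp fun h1 => hx (h h1)

theorem Pd_zero_of_ev {φ : E n → ℝ} {x : E n} (h : φ =ᶠ[𝓝 x] (fun _ => 0)) (i : Fin n) :
    Pd i φ x = 0 := by
  unfold Pd
  rw [h.fderiv_eq]
  simp

/-- Green identity against a test function -/
theorem green_test {Ω : Set (E n)} {u φ : E n → ℝ} (hu : ContDiff ℝ ∞ u) (hφ : ContDiff ℝ ∞ φ)
    (hc : HasCompactSupport φ) (hs : tsupport φ ⊆ Ω) (i : Fin n) :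
    ∫ x in Ω, Pd i u x * Pd i φ x = -∫ x in Ω, Pd i (Pd i u) x * φ x := by
  rw [set_eq_full hs, set_eq_full hs]
  · exact green_one (Pd_smooth hu i) hφ hc i
  · intro x hx
    rw [hx.eq_of_nhds, mul_zero]
  · intro x hx
    rw [Pd_zero_of_ev hx, mul_zero]

/-- Green identity against `H^1_0` functions on the ball -/
theorem green_H10 {u v : E n → ℝ} {W : Fin n → E n → ℝ} (hu : ContDiff ℝ ∞ u) (hv : H10 (B n) v W) :
    ∫ x in B n, ∑ i, Pd i u x * W i x = ∫ x in B n, (-Δ u x) * v x := by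
  obtain ⟨hv2, hW2, φ, hφ, h1, h2⟩ := hv
  have hPi : ∀ i, Continuous (Pd i u) := fun i => (Pd_smooth hu i).continuous
  have hPPi : ∀ i, Continuous (Pd i (Pd i u)) := fun i => (Pd_smooth (Pd_smooth hu i) i).continuous
  have hm1 : ∀ k, MemLp (φ k) 2 (volume.restrict (B n)) := fun k =>
    memLp_cpt (hφ k).1.continuous (hφ k).2.1
  have hm2 : ∀ k i, MemLp (Pd i (φ k)) 2 (volume.restrict (B n)) := fun k i =>
    memLp_cpt (Pd_smooth (hφ k).1 i).continuous (Pd_compact (hφ k).2.1 i)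
  have key : ∀ i, ∫ x in B n, Pd i u x * W i x = -∫ x in B n, Pd i (Pd i u) x * v x := by
    intro i
    have t1 := lim_mul (memLp_B (hPi i) 2) (hW2 i) (fun k => hm2 k i) (h2 i)
    have t2 := (lim_mul (memLp_B (hPPi i) 2) hv2 hm1 h1).neg
    apply tendsto_nhds_unique t1
    refine t2.congr fun k => ?_
    exact (green_test hu (hφ k).1 (hφ k).2.1 (hφ k).2.2 i).symm
  rw [integral_finsetSum _ fun i _ => mul_int (memLp_B (hPi i) 2) (hW2 i)]
  simp only [key]
  rw [Finset.sum_neg_distrib, ← integral_finsetSum _ fun i _ => mul_int (memLp_B (hPPi i) 2) hv2,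
    ← integral_neg]
  congr 1
  ext x
  rw [congrFun (lap_eq' hu) x, neg_mul, Finset.sum_mul]

/-- a classical radial solution which vanishes on the sphere is a weak solution -/
theorem sol_of_classical {c μ h : E n → ℝ} {lam : ℝ} {f : ℝ → ℝ} (hf : ContDiff ℝ ∞ f) (h1 : f 1 = 0)
    (hc : Continuous c) (hμ : Continuous μ) (hh : Continuous h)
    (heq : ∀ x ∈ B n, -Δ (fun x : E n => f (qq x)) x = lam * (c x * f (qq x)) +
      μ x * (∑ i, Pd i (fun x : E n => f (qq x)) x ^ 2) + h x) :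
    IsSol (B n) c μ h lam (fun x => f (qq x)) := by
  have hu : ContDiff ℝ ∞ (fun x : E n => f (qq x)) := hf.comp qq_smooth
  refine ⟨fun i => Pd i (fun x => f (qq x)), H10_radial hf h1, bdd_of_cont hu.continuous, ?_⟩
  intro v W hv _
  have hv2 := hv.1
  rw [green_H10 hu hv]
  have hP : Continuous (fun x : E n => ∑ i, Pd i (fun x : E n => f (qq x)) x ^ 2) :=
    continuous_finsetSum _ fun i _ => (Pd_smooth hu i).continuous.pow 2
  have i1 : Integrable (fun x => (c x * f (qq x)) * v x) (volume.restrict (B n)) :=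
    mul_int (memLp_B (hc.mul hu.continuous) 2) hv2
  have i2 : Integrable (fun x => (μ x * (∑ i, Pd i (fun x : E n => f (qq x)) x ^ 2)) * v x)
      (volume.restrict (B n)) := mul_int (memLp_B (hμ.mul hP) 2) hv2
  have i3 : Integrable (fun x => h x * v x) (volume.restrict (B n)) :=
    mul_int (memLp_B hh 2) hv2
  have i12 : Integrable (fun x => lam * ((c x * f (qq x)) * v x) +
      (μ x * (∑ i, Pd i (fun x : E n => f (qq x)) x ^ 2)) * v x) (volume.restrict (B n)) :=
    (i1.const_mul lam).add i2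
  rw [← integral_const_mul, ← integral_add (i1.const_mul lam) i2, ← integral_add i12 i3]
  apply setIntegral_congr_fun Metric.isOpen_ball.measurableSet
  intro x hx
  show -Δ (fun x : E n => f (qq x)) x * v x = _
  rw [heq x hx]
  ring

/-- Poincare inequality for test functions -/
theorem poincare_test {φ : E n → ℝ} (hφ : ContDiff ℝ ∞ φ)
    (hc : HasCompactSupport φ) (hs : tsupport φ ⊆ B n) :
    (n : ℝ) ^ 2 * ∫ x in B n, φ x ^ 2 ≤ 4 * ∫ x in B n, ∑ i, Pd i φ x ^ 2 := by
  have hm1 : MemLp φ 2 (volume.restrict (B n)) := memLp_cpt hφ.continuous hc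
  have hPi : ∀ i, Continuous (Pd i φ) := fun i => (Pd_smooth hφ i).continuous
  have e1 : ∀ i : Fin n, ∫ x in B n, co i x * (2 * φ x * Pd i φ x) = -∫ x in B n, φ x ^ 2 := by
    intro i
    have h := green_one (co_smooth i) (hφ.mul hφ) (hc.mul_left (f := φ)) i
    have h2 : Pd i (fun x => φ x * φ x) = fun x => 2 * φ x * Pd i φ x := by
      rw [Pd_mul hφ hφ]
      ext x
      ring
    change ∫ x, co i x * Pd i (fun x => φ x * φ x) x = -∫ x, Pd i (co i) x * (φ x * φ x) at h
    rw [h2] at h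
    rw [set_eq_full hs, set_eq_full hs, h]
    · congr 1
      apply integral_congr_ae
      refine Eventually.of_forall fun x => ?_
      show Pd i (co i) x * (φ x * φ x) = φ x ^ 2
      rw [Pd_co]
      simp only [if_true]
      ring
    · intro x hx
      rw [hx.eq_of_nhds]
      ring
    · intro x hx
      rw [hx.eq_of_nhds]
      ring
  have hcont : ∀ i : Fin n, Continuous fun x : E n => co i x * (2 * φ x * Pd i φ x) := fun i =>
    (co_smooth i).continuous.mul ((continuous_const.mul hφ.continuous).mul (hPi i))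
  have iI : ∀ i : Fin n, Integrable (fun x : E n => co i x * (2 * φ x * Pd i φ x))
      (volume.restrict (B n)) := fun i => (memLp_B (hcont i) 1).integrable le_rfl
  have e2 : (n : ℝ) * ∫ x in B n, φ x ^ 2 = ∫ x in B n, -∑ i, co i x * (2 * φ x * Pd i φ x) := by
    rw [integral_neg, integral_finsetSum _ fun i _ => iI i]
    simp only [e1]
    simp
  rcases Nat.eq_zero_or_pos n with hn | hn
  · subst hn
    simp only [Nat.cast_zero, ne_eq, OfNat.ofNat_ne_zero, not_false_eq_true, zero_pow, zero_mul]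
    apply mul_nonneg (by norm_num)
    exact integral_nonneg fun x => Finset.sum_nonneg fun i _ => sq_nonneg _
  have hn' : (0 : ℝ) < n := by exact_mod_cast hn
  have hsum : Continuous fun x : E n => ∑ i, Pd i φ x ^ 2 :=
    continuous_finsetSum _ fun i _ => (hPi i).pow 2
  have iS : Integrable (fun x : E n => ∑ i, Pd i φ x ^ 2) (volume.restrict (B n)) :=
    (memLp_B hsum 1).integrable le_rfl
  have e3 : ∫ x in B n, -∑ i, co i x * (2 * φ x * Pd i φ x) ≤
      ∫ x in B n, ((n : ℝ) / 2 * φ x ^ 2 + 2 / n * ∑ i, Pd i φ x ^ 2) := by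
    apply setIntegral_mono_on
    · exact (integrable_finsetSum _ fun i _ => iI i).neg
    · exact ((sq_int hm1).const_mul _).add (iS.const_mul _)
    · exact Metric.isOpen_ball.measurableSet
    · intro x hx
      have hq := mem_B.mp hx
      have hcs : (∑ i, co i x * Pd i φ x) ^ 2 ≤ qq x * ∑ i, Pd i φ x ^ 2 := by
        have := Finset.sum_mul_sq_le_sq_mul_sq Finset.univ (fun i => co i x) (fun i => Pd i φ x)
        refine this.trans (le_of_eq ?_)
        congr 1
        rw [← sum_co_sq x]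
        apply Finset.sum_congr rfl
        intro i _
        ring
      have hS0 : 0 ≤ ∑ i, Pd i φ x ^ 2 := Finset.sum_nonneg fun i _ => sq_nonneg _
      have hcs2 : (∑ i, co i x * Pd i φ x) ^ 2 ≤ ∑ i, Pd i φ x ^ 2 :=
        hcs.trans (mul_le_of_le_one_left hS0 hq.le)
      set T := ∑ i, co i x * Pd i φ x with hT
      have e4 : ∑ i, co i x * (2 * φ x * Pd i φ x) = 2 * φ x * T := by
        rw [hT, Finset.mul_sum]
        apply Finset.sum_congr rfl
        intro i _
        ring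
      rw [e4]
      have h6 : 0 ≤ (n : ℝ) / 2 * φ x ^ 2 + 2 / n * T ^ 2 + 2 * φ x * T := by
        have : (n : ℝ) / 2 * φ x ^ 2 + 2 / n * T ^ 2 + 2 * φ x * T =
            (n / 2) * (φ x + 2 / n * T) ^ 2 := by
          field_simp
          ring
        rw [this]
        positivity
      have h7 : 2 / (n : ℝ) * T ^ 2 ≤ 2 / n * ∑ i, Pd i φ x ^ 2 :=
        mul_le_mul_of_nonneg_left hcs2 (by positivity)
      linarith
  rw [integral_add ((sq_int hm1).const_mul _) (iS.const_mul _), integral_const_mul,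
    integral_const_mul, ← e2] at e3
  have e5 : (n : ℝ) / 2 * ∫ x in B n, φ x ^ 2 ≤ 2 / n * ∫ x in B n, ∑ i, Pd i φ x ^ 2 := by
    linarith
  have := mul_le_mul_of_nonneg_left e5 (by positivity : (0 : ℝ) ≤ 2 * n)
  calc (n : ℝ) ^ 2 * ∫ x in B n, φ x ^ 2 = 2 * n * (n / 2 * ∫ x in B n, φ x ^ 2) := by ring
    _ ≤ 2 * n * (2 / n * ∫ x in B n, ∑ i, Pd i φ x ^ 2) := this
    _ = 4 * ∫ x in B n, ∑ i, Pd i φ x ^ 2 := by field_simp; ring

/-- Poincare inequality on `H^1_0` of the unit ball -/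
theorem poincare {v : E n → ℝ} {W : Fin n → E n → ℝ} (hv : H10 (B n) v W) :
    (n : ℝ) ^ 2 * ∫ x in B n, v x ^ 2 ≤ 4 * ∫ x in B n, ∑ i, W i x ^ 2 := by
  obtain ⟨hv2, hW2, φ, hφ, h1, h2⟩ := hv
  have hm1 : ∀ k, MemLp (φ k) 2 (volume.restrict (B n)) := fun k =>
    memLp_cpt (hφ k).1.continuous (hφ k).2.1
  have hm2 : ∀ k i, MemLp (Pd i (φ k)) 2 (volume.restrict (B n)) := fun k i =>
    memLp_cpt (Pd_smooth (hφ k).1 i).continuous (Pd_compact (hφ k).2.1 i)
  have t1 := (lim_sq hv2 hm1 h1).const_mul ((n : ℝ) ^ 2)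
  have t2 : Tendsto (fun k => 4 * ∫ x in B n, ∑ i, Pd i (φ k) x ^ 2) atTop
      (𝓝 (4 * ∫ x in B n, ∑ i, W i x ^ 2)) := by
    apply Tendsto.const_mul
    rw [integral_finsetSum _ fun i _ => sq_int (hW2 i)]
    have : ∀ k, ∫ x in B n, ∑ i, Pd i (φ k) x ^ 2 = ∑ i, ∫ x in B n, Pd i (φ k) x ^ 2 := fun k =>
      integral_finsetSum _ fun i _ => sq_int (hm2 k i)
    simp only [this]
    exact tendsto_finsetSum _ fun i _ => lim_sq (hW2 i) (fun k => hm2 k i) (h2 i)
  exact le_of_tendsto_of_tendsto' t1 t2 fun k =>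
    poincare_test (hφ k).1 (hφ k).2.1 (hφ k).2.2

/-- lower bound for Rayleigh quotients -/
theorem rayleigh_ge {c : E n → ℝ} {c0 : ℝ} (hc0 : 0 < c0) (hc : Continuous c)
    (hle : ∀ x ∈ B n, c x ≤ c0) {v : E n → ℝ} {W : Fin n → E n → ℝ}
    (hv : H10 (B n) v W) (hpos : 0 < ∫ x in B n, c x * v x ^ 2) :
    (n : ℝ) ^ 2 / (4 * c0) ≤ (∫ x in B n, ∑ i, W i x ^ 2) / ∫ x in B n, c x * v x ^ 2 := by
  rw [div_le_div_iff₀ (by positivity) hpos]
  have h1 : ∫ x in B n, c x * v x ^ 2 ≤ c0 * ∫ x in B n, v x ^ 2 := by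
    rw [← integral_const_mul]
    apply setIntegral_mono_on
    · obtain ⟨M, hM0, hM⟩ := bdd_cont hc
      apply (sq_int hv.1).bdd_mul (c := M) hc.aestronglyMeasurable (ae_B hM)
    · exact (sq_int hv.1).const_mul c0
    · exact Metric.isOpen_ball.measurableSet
    · intro x hx
      exact mul_le_mul_of_nonneg_right (hle x hx) (sq_nonneg _)
  have h2 := poincare hv
  have h3 : (n : ℝ) ^ 2 * ∫ x in B n, c x * v x ^ 2 ≤ (n : ℝ) ^ 2 * (c0 * ∫ x in B n, v x ^ 2) :=
    mul_le_mul_of_nonneg_left h1 (by positivity)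
  nlinarith

/-- lower bound for the first eigenvalue -/
theorem firstEigenvalue_ge {c : E n → ℝ} {c0 : ℝ} (hc0 : 0 < c0) (hc : Continuous c)
    (h0 : ∀ x, 0 ≤ c x) (hle : ∀ x ∈ B n, c x ≤ c0) (hne : ∃ x ∈ B n, c x ≠ 0) :
    (n : ℝ) ^ 2 / (4 * c0) ≤ firstEigenvalue (B n) c := by
  unfold firstEigenvalue
  apply le_csInf
  · obtain ⟨x0, hx0, hcx⟩ := hne
    obtain ⟨f, hf1, hf2⟩ : ∃ f : E n → ℝ, H10 (B n) f (fun i => Pd i f) ∧
        (Continuous f ∧ ∀ x ∈ B n, f x ≠ 0) := by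
      have hs : ContDiff ℝ ∞ (fun s : ℝ => 1 - s) := contDiff_const.sub contDiff_id
      refine ⟨fun x => 1 - qq x, H10_radial hs (by norm_num), ?_, ?_⟩
      · exact continuous_const.sub qq_smooth.continuous
      · intro x hx
        have := mem_B.mp hx
        intro h
        linarith
    refine ⟨_, f, _, hf1, ?_, rfl⟩
    have hcont : Continuous fun x => c x * f x ^ 2 := hc.mul (hf2.1.pow 2)
    have hnn : 0 ≤ fun x => c x * f x ^ 2 := fun x => mul_nonneg (h0 x) (sq_nonneg _)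
    rw [setIntegral_pos_iff_support_of_nonneg_ae (Eventually.of_forall hnn)
      ((memLp_B hcont 1).integrable le_rfl)]
    have ho : IsOpen (Function.support (fun x => c x * f x ^ 2) ∩ B n) :=
      hcont.isOpen_support.inter Metric.isOpen_ball
    exact ho.measure_pos volume ⟨x0, mul_ne_zero hcx (pow_ne_zero 2 (hf2.2 x0 hx0)), hx0⟩
  · rintro R ⟨v, W, hv, hpos, rfl⟩
    exact rayleigh_ge hc0 hc hle hv hpos

/-- every weak eigenvalue is at least this big -/
theorem eigenvalue_ge {c : E n → ℝ} {c0 : ℝ} (hn : 1 ≤ n) (hc0 : 0 < c0) (hc : Continuous c)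
    (h0 : ∀ x, 0 ≤ c x) (hle : ∀ x ∈ B n, c x ≤ c0) {γ : ℝ} (hγ : IsEigenvalue (B n) c γ) :
    (n : ℝ) ^ 2 / (4 * c0) ≤ γ := by
  obtain ⟨φ, G, hφ, hne, heq⟩ := hγ
  have h1 := heq φ G hφ
  have e1 : ∫ x in B n, ∑ i, G i x * G i x = ∫ x in B n, ∑ i, G i x ^ 2 := by
    congr 1
    ext x
    apply Finset.sum_congr rfl
    intro i _
    ring
  have e2 : ∫ x in B n, c x * φ x * φ x = ∫ x in B n, c x * φ x ^ 2 := by
    congr 1
    ext x
    ring
  rw [e1, e2] at h1
  have hp := poincare hφ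
  have hI0 : 0 ≤ ∫ x in B n, c x * φ x ^ 2 :=
    integral_nonneg fun x => mul_nonneg (h0 x) (sq_nonneg _)
  have hn' : (0 : ℝ) < n := by exact_mod_cast hn
  have hφ0 : 0 < ∫ x in B n, φ x ^ 2 := by
    have hnn : 0 ≤ ∫ x in B n, φ x ^ 2 := integral_nonneg fun x => sq_nonneg (φ x)
    rcases hnn.lt_or_eq with h | h
    · exact h
    · exfalso
      apply hne
      have := (integral_eq_zero_iff_of_nonneg (μ := volume.restrict (B n)) (f := fun x => φ x ^ 2)
        (fun x => sq_nonneg (φ x)) (sq_int hφ.1)).mp h.symm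
      filter_upwards [this] with x hx
      exact pow_eq_zero_iff (two_ne_zero) |>.mp hx
  have hG0 : 0 < ∫ x in B n, ∑ i, G i x ^ 2 := by
    have : 0 < (n : ℝ) ^ 2 * ∫ x in B n, φ x ^ 2 := by positivity
    linarith
  have hI : 0 < ∫ x in B n, c x * φ x ^ 2 := by
    rcases hI0.lt_or_eq with h | h
    · exact h
    · rw [← h, mul_zero] at h1
      linarith
  have h2 := rayleigh_ge hc0 hc hle hφ hI
  rwa [h1, mul_div_assoc, div_self hI.ne', mul_one] at h2

end Pool.Agent.R207.AC
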