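import Pool.Agent.R207.AC2

set_option autoImplicit false

/-! # The radial construction -/

namespace Pool.Agent.R207.AC

open MeasureTheory Real Set Filter Topology InnerProductSpace Laplacian
open scoped ContDiff
open Pool.Agent.R207.QC
open Pool.Agent.R207.HH (deriv_smooth has_deriv Pd_comp lap_comp comp_smooth L chi chi_smooth chi_one
  chi_zero chi_nonneg chi_le_one)

variable {n : ℕ}

/-- bump in `(1/6, 1/3)` -/
noncomputable def bm (s : ℝ) : ℝ := expNegInvGlue (s - 1 / 6) * expNegInvGlue (1 / 3 - s)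

theorem bm_smooth : ContDiff ℝ ∞ bm :=
  (expNegInvGlue.contDiff.comp (contDiff_id.sub contDiff_const)).mul
    (expNegInvGlue.contDiff.comp (contDiff_const.sub contDiff_id))

theorem bm_nonneg (s : ℝ) : 0 ≤ bm s := mul_nonneg (expNegInvGlue.nonneg _) (expNegInvGlue.nonneg _)

theorem bm_left {s : ℝ} (hs : s ≤ 1 / 6) : bm s = 0 := by
  unfold bm
  rw [expNegInvGlue.zero_of_nonpos (by linarith), zero_mul]

theorem bm_right {s : ℝ} (hs : 1 / 3 ≤ s) : bm s = 0 := by
  unfold bm
  rw [expNegInvGlue.zero_of_nonpos (x := 1 / 3 - s) (by linarith), mul_zero]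

theorem bm_pos {s : ℝ} (h1 : 1 / 6 < s) (h2 : s < 1 / 3) : 0 < bm s :=
  mul_pos (expNegInvGlue.pos_of_pos (by linarith)) (expNegInvGlue.pos_of_pos (by linarith))

/-- primitive of a continuous function -/
theorem prim_deriv {f : ℝ → ℝ} (hf : Continuous f) (s : ℝ) :
    HasDerivAt (fun s => ∫ t in (0 : ℝ)..s, f t) (f s) s :=
  intervalIntegral.integral_hasDerivAt_right (hf.intervalIntegrable _ _)
    (hf.stronglyMeasurableAtFilter _ _) hf.continuousAt

theorem prim_smooth {f : ℝ → ℝ} (hf : ContDiff ℝ ∞ f) :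
    ContDiff ℝ ∞ (fun s => ∫ t in (0 : ℝ)..s, f t) := by
  rw [contDiff_infty_iff_deriv]
  refine ⟨fun s => (prim_deriv hf.continuous s).differentiableAt, ?_⟩
  have : deriv (fun s => ∫ t in (0 : ℝ)..s, f t) = f := by
    ext s
    exact (prim_deriv hf.continuous s).deriv
  rw [this]
  exact hf

/-- flux profile -/
noncomputable def mm (s : ℝ) : ℝ := ∫ t in (0 : ℝ)..s, bm t

theorem mm_deriv (s : ℝ) : HasDerivAt mm (bm s) s := prim_deriv bm_smooth.continuous s

theorem mm_smooth : ContDiff ℝ ∞ mm := prim_smooth bm_smooth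

theorem mm_left {s : ℝ} (hs : s ≤ 1 / 6) : mm s = 0 := by
  unfold mm
  rw [intervalIntegral.integral_congr (g := fun _ => 0)]
  · simp
  · intro t ht
    apply bm_left
    have := ht.2
    exact this.trans (max_le (by norm_num) hs)

theorem mm_mono : Monotone mm :=
  monotone_of_deriv_nonneg (fun s => (mm_deriv s).differentiableAt) fun s => by
    rw [(mm_deriv s).deriv]
    exact bm_nonneg s

theorem mm_nonneg (s : ℝ) : 0 ≤ mm s := by
  rcases le_total s 0 with h | h
  · rw [mm_left (by linarith)]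
  · have := mm_mono h
    rwa [mm_left (by norm_num : (0 : ℝ) ≤ 1 / 6)] at this

theorem mm_right {s : ℝ} (hs : 1 / 3 ≤ s) : mm s = mm (1 / 3) := by
  have hi := fun a b : ℝ => bm_smooth.continuous.intervalIntegrable (μ := volume) a b
  have h : mm s = mm (1 / 3) + ∫ t in (1 / 3 : ℝ)..s, bm t := by
    unfold mm
    rw [intervalIntegral.integral_add_adjacent_intervals (hi _ _) (hi _ _)]
  rw [h, intervalIntegral.integral_congr (g := fun _ => 0)]
  · simp
  · intro t ht
    apply bm_right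
    rw [uIcc_of_le hs] at ht
    exact ht.1

theorem mm_pos : 0 < mm (1 / 3) := by
  have hi := fun a b : ℝ => bm_smooth.continuous.intervalIntegrable (μ := volume) a b
  have h : mm (1 / 3) = mm (1 / 6) + ∫ t in (1 / 6 : ℝ)..(1 / 3), bm t := by
    unfold mm
    rw [intervalIntegral.integral_add_adjacent_intervals (hi _ _) (hi _ _)]
  rw [h, mm_left le_rfl, zero_add]
  apply intervalIntegral.intervalIntegral_pos_of_pos_on (hi _ _) _ (by norm_num)
  intro t ht
  exact bm_pos ht.1 ht.2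

/-- the profile `M(s) = s^{-n/2} m(s)` -/
noncomputable def MM (n : ℕ) (s : ℝ) : ℝ := s ^ (-((n : ℝ) / 2)) * mm s

/-- the weight `w(s) = s^{1 - n/2} b(s)` -/
noncomputable def ww (n : ℕ) (s : ℝ) : ℝ := s ^ (1 - (n : ℝ) / 2) * bm s

theorem MM_smooth : ContDiff ℝ ∞ (MM n) := by
  rw [contDiff_iff_contDiffAt]
  intro s
  rcases lt_or_ge s (1 / 6) with h | h
  · have : MM n =ᶠ[𝓝 s] fun _ => 0 := by
      filter_upwards [Iio_mem_nhds h] with t ht
      unfold MM
      rw [mm_left (le_of_lt ht), mul_zero]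
    exact contDiffAt_const.congr_of_eventuallyEq this
  · have hs : s ≠ 0 := by linarith [h] |> fun h : 0 < s => h.ne'
    exact (Real.contDiffAt_rpow_const_of_ne hs).mul mm_smooth.contDiffAt

theorem ww_smooth : ContDiff ℝ ∞ (ww n) := by
  rw [contDiff_iff_contDiffAt]
  intro s
  rcases lt_or_ge s (1 / 6) with h | h
  · have : ww n =ᶠ[𝓝 s] fun _ => 0 := by
      filter_upwards [Iio_mem_nhds h] with t ht
      unfold ww
      rw [bm_left (le_of_lt ht), mul_zero]
    exact contDiffAt_const.congr_of_eventuallyEq this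
  · have hs : s ≠ 0 := by linarith [h] |> fun h : 0 < s => h.ne'
    exact (Real.contDiffAt_rpow_const_of_ne hs).mul bm_smooth.contDiffAt

theorem ww_cont : Continuous (ww n) := ww_smooth.continuous

theorem MM_nonneg (s : ℝ) : 0 ≤ MM n s := by
  rcases le_total s 0 with h | h
  · unfold MM
    rw [mm_left (by linarith), mul_zero]
  · exact mul_nonneg (Real.rpow_nonneg h _) (mm_nonneg s)

theorem ww_nonneg (s : ℝ) : 0 ≤ ww n s := by
  rcases le_total s 0 with h | h
  · unfold ww
    rw [bm_left (by linarith), mul_zero]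
  · exact mul_nonneg (Real.rpow_nonneg h _) (bm_nonneg s)

theorem ww_right {s : ℝ} (hs : 1 / 3 ≤ s) : ww n s = 0 := by
  unfold ww
  rw [bm_right hs, mul_zero]

theorem MM_id (s : ℝ) : 4 * s * deriv (MM n) s + 2 * n * MM n s = 4 * ww n s := by
  rcases lt_or_ge s (1 / 6) with h | h
  · have : MM n =ᶠ[𝓝 s] fun _ => 0 := by
      filter_upwards [Iio_mem_nhds h] with t ht
      unfold MM
      rw [mm_left (le_of_lt ht), mul_zero]
    rw [this.deriv_eq, deriv_const, this.eq_of_nhds]
    unfold ww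
    rw [bm_left h.le]
    ring
  · have hs : 0 < s := by linarith
    have h1 : HasDerivAt (MM n) (-((n : ℝ) / 2) * s ^ (-((n : ℝ) / 2) - 1) * mm s +
        s ^ (-((n : ℝ) / 2)) * bm s) s :=
      (Real.hasDerivAt_rpow_const (Or.inl hs.ne')).mul (mm_deriv s)
    rw [h1.deriv]
    unfold MM ww
    have e1 : s * s ^ (-((n : ℝ) / 2) - 1) = s ^ (-((n : ℝ) / 2)) := by
      rw [Real.rpow_sub_one hs.ne']
      field_simp
    have e2 : s ^ (1 - (n : ℝ) / 2) = s * s ^ (-((n : ℝ) / 2)) := by
      rw [sub_eq_add_neg, Real.rpow_add hs, Real.rpow_one]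
    rw [e2]
    have e3 : 4 * s * (-((n : ℝ) / 2) * s ^ (-((n : ℝ) / 2) - 1) * mm s +
        s ^ (-((n : ℝ) / 2)) * bm s) = -(2 * n) * (s * s ^ (-((n : ℝ) / 2) - 1)) * mm s +
        4 * (s * s ^ (-((n : ℝ) / 2))) * bm s := by ring
    rw [e3, e1]
    ring

/-- plateau function: `1` on `s ≤ 1/3`, `0` on `s ≥ 2/3` -/
noncomputable def et (s : ℝ) : ℝ := chi (3 / 2 * s)

theorem et_smooth : ContDiff ℝ ∞ et := chi_smooth.comp (contDiff_const.mul contDiff_id)

theorem et_one {s : ℝ} (hs : s ≤ 1 / 3) : et s = 1 := chi_one (by linarith)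

theorem et_zero {s : ℝ} (hs : 2 / 3 ≤ s) : et s = 0 := chi_zero (by linarith)

theorem et_nonneg (s : ℝ) : 0 ≤ et s := chi_nonneg _

theorem et_le_one (s : ℝ) : et s ≤ 1 := chi_le_one _

/-- the density `P = M e^{-2 K η}` -/
noncomputable def PP (n : ℕ) (K s : ℝ) : ℝ := MM n s * Real.exp (-(2 * K * et s))

theorem PP_smooth (K : ℝ) : ContDiff ℝ ∞ (PP n K) :=
  MM_smooth.mul (Real.contDiff_exp.comp (contDiff_const.mul et_smooth).neg)

theorem PP_nonneg (K s : ℝ) : 0 ≤ PP n K s := mul_nonneg (MM_nonneg s) (Real.exp_pos _).le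

theorem PP_left (K : ℝ) {s : ℝ} (hs : s ≤ 1 / 6) : PP n K s = 0 := by
  unfold PP MM
  rw [mm_left hs]
  ring

/-- primitive of `P` -/
noncomputable def QQ (n : ℕ) (K s : ℝ) : ℝ := ∫ t in (0 : ℝ)..s, PP n K t

theorem QQ_deriv (K s : ℝ) : HasDerivAt (QQ n K) (PP n K s) s :=
  prim_deriv (PP_smooth K).continuous s

theorem QQ_smooth (K : ℝ) : ContDiff ℝ ∞ (QQ n K) := prim_smooth (PP_smooth K)

theorem QQ_mono (K : ℝ) : Monotone (QQ n K) :=
  monotone_of_deriv_nonneg (fun s => (QQ_deriv K s).differentiableAt) fun s => by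
    rw [(QQ_deriv K s).deriv]
    exact PP_nonneg K s

theorem QQ_left (K : ℝ) {s : ℝ} (hs : s ≤ 1 / 6) : QQ n K s = 0 := by
  unfold QQ
  rw [intervalIntegral.integral_congr (g := fun _ => 0)]
  · simp
  · intro t ht
    apply PP_left
    have := ht.2
    exact this.trans (max_le (by norm_num) hs)

theorem QQ_nonneg (K s : ℝ) : 0 ≤ QQ n K s := by
  rcases le_total s 0 with h | h
  · rw [QQ_left K (by linarith)]
  · have := QQ_mono (n := n) K h
    rwa [QQ_left K (by norm_num : (0 : ℝ) ≤ 1 / 6)] at this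

theorem QQ_one_ge (K : ℝ) : mm (1 / 3) / 3 ≤ QQ n K 1 := by
  have hi := fun a b : ℝ => (PP_smooth (n := n) K).continuous.intervalIntegrable (μ := volume) a b
  have h : QQ n K 1 = QQ n K (2 / 3) + ∫ t in (2 / 3 : ℝ)..1, PP n K t := by
    unfold QQ
    rw [intervalIntegral.integral_add_adjacent_intervals (hi _ _) (hi _ _)]
  have h2 : ∫ t in (2 / 3 : ℝ)..1, mm (1 / 3) ≤ ∫ t in (2 / 3 : ℝ)..1, PP n K t := by
    apply intervalIntegral.integral_mono_on (by norm_num) intervalIntegrable_const (hi _ _)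
    intro t ht
    unfold PP MM
    rw [et_zero ht.1, mm_right (s := t) (by linarith [ht.1]), mul_zero, neg_zero, Real.exp_zero, mul_one]
    have ht0 : 0 < t := by linarith [ht.1]
    have : 1 ≤ t ^ (-((n : ℝ) / 2)) :=
      Real.one_le_rpow_of_pos_of_le_one_of_nonpos ht0 ht.2 (by
        have : (0 : ℝ) ≤ n := Nat.cast_nonneg n
        linarith)
    nlinarith [mm_pos]
  rw [intervalIntegral.integral_const, smul_eq_mul] at h2
  have h3 := QQ_nonneg (n := n) K (2 / 3)
  linarith

/-- normalising constant -/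
noncomputable def kap (n : ℕ) (K : ℝ) : ℝ := (1 - Real.exp (-K - 1)) / QQ n K 1

theorem QQ_one_pos (K : ℝ) : 0 < QQ n K 1 :=
  lt_of_lt_of_le (by have := mm_pos; positivity) (QQ_one_ge K)

theorem kap_pos {K : ℝ} (hK : 0 ≤ K) : 0 < kap n K := by
  apply div_pos _ (QQ_one_pos K)
  rw [sub_pos, Real.exp_lt_one_iff]
  linarith

theorem kap_le {K : ℝ} : kap n K ≤ 3 / mm (1 / 3) := by
  unfold kap
  rw [div_le_div_iff₀ (QQ_one_pos K) mm_pos]
  have h1 := QQ_one_ge (n := n) K
  have h2 := Real.exp_pos (-K - 1)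
  have h3 := mm_pos
  nlinarith

/-- the quotient `q` -/
noncomputable def qf (n : ℕ) (K s : ℝ) : ℝ := Real.exp (-K - 1) + kap n K * QQ n K s

theorem qf_smooth (K : ℝ) : ContDiff ℝ ∞ (qf n K) := contDiff_const.add (contDiff_const.mul (QQ_smooth K))

theorem qf_ge {K : ℝ} (hK : 0 ≤ K) (s : ℝ) : Real.exp (-K - 1) ≤ qf n K s := by
  have := mul_nonneg (kap_pos (n := n) hK).le (QQ_nonneg (n := n) K s)
  unfold qf
  linarith

theorem qf_pos {K : ℝ} (hK : 0 ≤ K) (s : ℝ) : 0 < qf n K s :=
  lt_of_lt_of_le (Real.exp_pos _) (qf_ge hK s)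

theorem qf_one (K : ℝ) : qf n K 1 = 1 := by
  unfold qf kap
  rw [div_mul_cancel₀ _ (QQ_one_pos K).ne']
  ring

theorem qf_deriv (K s : ℝ) : deriv (qf n K) s = kap n K * PP n K s := by
  have : HasDerivAt (qf n K) (kap n K * PP n K s) s := ((QQ_deriv K s).const_mul _).const_add _
  exact this.deriv

/-- the solution of the problem with parameter zero, in the variable `s` -/
noncomputable def f0 (K s : ℝ) : ℝ := K * et s

theorem f0_smooth (K : ℝ) : ContDiff ℝ ∞ (f0 K) := contDiff_const.mul et_smooth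

/-- the negative solution, in the variable `s` -/
noncomputable def f1 (n : ℕ) (K s : ℝ) : ℝ := f0 K s + Real.log (qf n K s)

theorem f1_smooth {K : ℝ} (hK : 0 ≤ K) : ContDiff ℝ ∞ (f1 n K) :=
  (f0_smooth K).add ((qf_smooth K).log fun s => (qf_pos hK s).ne')

theorem f1_one {K : ℝ} : f1 n K 1 = 0 := by
  unfold f1 f0
  rw [qf_one, et_zero (by norm_num)]
  simp

theorem f1_zero (K : ℝ) : f1 n K 0 = -1 := by
  unfold f1 f0 qf
  rw [et_one (by norm_num), QQ_left K (by norm_num), mul_zero, add_zero, Real.log_exp]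
  ring

/-- the weight function in the variable `s` -/
noncomputable def Cf (n : ℕ) (K s : ℝ) : ℝ :=
  -(4 * kap n K * Real.exp (-(2 * K * et s)) * ww n s / (qf n K s * f1 n K s))

/-- the key identity -/
theorem key_id (K s : ℝ) : L n (qf n K) s + 8 * s * deriv (f0 K) s * deriv (qf n K) s =
    4 * kap n K * Real.exp (-(2 * K * et s)) * ww n s := by
  have e1 : deriv (qf n K) = fun s => kap n K * PP n K s := by
    ext t
    exact qf_deriv K t
  have hM : HasDerivAt (MM n) (deriv (MM n) s) s := has_deriv MM_smooth s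
  have he : HasDerivAt et (deriv et s) s := has_deriv et_smooth s
  have hexp : HasDerivAt (fun s => Real.exp (-(2 * K * et s)))
      (Real.exp (-(2 * K * et s)) * (-(2 * K * deriv et s))) s := (he.const_mul (2 * K)).neg.exp
  have e2 : deriv (deriv (qf n K)) s = kap n K * (deriv (MM n) s * Real.exp (-(2 * K * et s)) +
      MM n s * (Real.exp (-(2 * K * et s)) * (-(2 * K * deriv et s)))) := by
    rw [e1]
    exact ((hM.mul hexp).const_mul (kap n K)).deriv
  have e3 : deriv (f0 K) s = K * deriv et s := (he.const_mul K).deriv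
  unfold L
  rw [e2, e3, qf_deriv]
  unfold PP
  have h := MM_id (n := n) s
  linear_combination (kap n K * Real.exp (-(2 * K * et s))) * h

/-- the equation for `f1` in terms of the weight -/
theorem f1_eq {K : ℝ} (hK : 0 ≤ K) (s : ℝ) :
    -(L n (f1 n K) s) - 4 * s * deriv (f1 n K) s ^ 2 - (-(L n (f0 K) s) - 4 * s * deriv (f0 K) s ^ 2) =
      -(4 * kap n K * Real.exp (-(2 * K * et s)) * ww n s) / qf n K s := by
  have hq := fun s => (qf_pos (n := n) hK s).ne'
  have hqs := qf_smooth (n := n) K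
  have hqd := deriv_smooth hqs
  have h0s := f0_smooth K
  have h0d := deriv_smooth h0s
  have e1 : deriv (f1 n K) = fun s => deriv (f0 K) s + deriv (qf n K) s / qf n K s := by
    ext t
    exact ((has_deriv h0s t).add ((has_deriv hqs t).log (hq t))).deriv
  have e2 : deriv (deriv (f1 n K)) s = deriv (deriv (f0 K)) s +
      (deriv (deriv (qf n K)) s * qf n K s - deriv (qf n K) s * deriv (qf n K) s) / qf n K s ^ 2 := by
    rw [e1]
    exact ((has_deriv h0d s).add ((has_deriv hqd s).div (has_deriv hqs s) (hq s))).deriv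
  have h := key_id (n := n) K s
  rw [← h]
  unfold L
  rw [e2, e1]
  have hqq := hq s
  field_simp
  ring

end Pool.Agent.R207.AC
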