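import Pool.Agent.R207.AC3

set_option autoImplicit false

/-! # Negative solutions below the first eigenvalue -/

namespace Pool.Agent.R207.AC

open MeasureTheory Real Set Filter Topology InnerProductSpace Laplacian
open scoped ContDiff
open Pool.Agent.R207.QC
open Pool.Agent.R207.HH (deriv_smooth has_deriv Pd_comp lap_comp comp_smooth L chi chi_smooth chi_one
  chi_zero chi_nonneg chi_le_one)

variable {n : ℕ}

theorem QQ_core (K : ℝ) {s : ℝ} (hs : s ≤ 1 / 3) :
    QQ n K s ≤ Real.exp (-(2 * K)) * ∫ t in (0 : ℝ)..(1 / 3), MM n t := by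
  refine (QQ_mono K hs).trans (le_of_eq ?_)
  unfold QQ
  rw [← intervalIntegral.integral_const_mul]
  apply intervalIntegral.integral_congr
  intro t ht
  rw [uIcc_of_le (by norm_num : (0 : ℝ) ≤ 1 / 3)] at ht
  show PP n K t = Real.exp (-(2 * K)) * MM n t
  unfold PP
  rw [et_one ht.2, mul_one, mul_comm]

/-- for large `K` the solution is at most `-1/2` in the core -/
theorem core_ev (n : ℕ) : ∀ᶠ K : ℝ in atTop, 0 ≤ K ∧ ∀ s, s ≤ 1 / 3 → f1 n K s ≤ -(1 / 2) := by
  set D := ∫ t in (0 : ℝ)..(1 / 3), MM n t with hD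
  have hD0 : 0 ≤ D := intervalIntegral.integral_nonneg (by norm_num) fun t _ => MM_nonneg t
  have hδ : 0 < Real.exp (-(1 / 2)) - Real.exp (-1) := by
    rw [sub_pos, Real.exp_lt_exp]
    norm_num
  have ht : Tendsto (fun K : ℝ => 3 / mm (1 / 3) * D * Real.exp (-K)) atTop (𝓝 (3 / mm (1 / 3) * D * 0)) :=
    (Real.tendsto_exp_neg_atTop_nhds_zero).const_mul _
  rw [mul_zero] at ht
  filter_upwards [ht.eventually_lt_const hδ, eventually_ge_atTop 0] with K hK hK0
  refine ⟨hK0, fun s hs => ?_⟩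
  have h1 : qf n K s ≤ Real.exp (-K - 1 / 2) := by
    unfold qf
    have h2 : kap n K * QQ n K s ≤ 3 / mm (1 / 3) * (Real.exp (-(2 * K)) * D) :=
      mul_le_mul kap_le (QQ_core K hs) (QQ_nonneg K s) (by have := mm_pos; positivity)
    have e1 : Real.exp (-(2 * K)) = Real.exp (-K) * Real.exp (-K) := by
      rw [← Real.exp_add]
      congr 1
      ring
    have e2 : Real.exp (-K - 1) = Real.exp (-K) * Real.exp (-1) := by
      rw [← Real.exp_add]
      congr 1
    have e3 : Real.exp (-K - 1 / 2) = Real.exp (-K) * Real.exp (-(1 / 2)) := by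
      rw [← Real.exp_add]
      congr 1
    rw [e2, e3]
    have h3 : 3 / mm (1 / 3) * (Real.exp (-(2 * K)) * D) =
        Real.exp (-K) * (3 / mm (1 / 3) * D * Real.exp (-K)) := by
      rw [e1]
      ring
    have h4 := mul_le_mul_of_nonneg_left hK.le (Real.exp_pos (-K)).le
    rw [mul_sub] at h4
    linarith
  have h2 : Real.log (qf n K s) ≤ -K - 1 / 2 := by
    rw [Real.log_le_iff_le_exp (qf_pos hK0 s)]
    exact h1
  unfold f1 f0
  rw [et_one hs]
  linarith

theorem Cf_smooth {K : ℝ} (hK : 0 ≤ K) (h : ∀ s, s ≤ 1 / 3 → f1 n K s ≤ -(1 / 2)) :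
    ContDiff ℝ ∞ (Cf n K) := by
  rw [contDiff_iff_contDiffAt]
  intro s
  rcases le_or_gt s (1 / 3) with hs | hs
  · have h1 : qf n K s * f1 n K s ≠ 0 := by
      have h0 : f1 n K s < 0 := by linarith [h s hs]
      exact mul_ne_zero (qf_pos hK s).ne' h0.ne
    have hnum : ContDiff ℝ ∞ (fun s => 4 * kap n K * Real.exp (-(2 * K * et s)) * ww n s) :=
      (contDiff_const.mul (Real.contDiff_exp.comp (contDiff_const.mul et_smooth).neg)).mul ww_smooth
    exact (hnum.contDiffAt.div ((qf_smooth K).mul (f1_smooth hK)).contDiffAt h1).neg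
  · have : Cf n K =ᶠ[𝓝 s] fun _ => 0 := by
      filter_upwards [Ioi_mem_nhds hs] with t ht
      unfold Cf
      rw [ww_right (le_of_lt ht)]
      simp
    exact contDiffAt_const.congr_of_eventuallyEq this

theorem Cf_right {K s : ℝ} (hs : 1 / 3 ≤ s) : Cf n K s = 0 := by
  unfold Cf
  rw [ww_right hs]
  simp

theorem Cf_mul {K : ℝ} (hK : 0 ≤ K) (h : ∀ s, s ≤ 1 / 3 → f1 n K s ≤ -(1 / 2)) (s : ℝ) :
    Cf n K s * f1 n K s = -(4 * kap n K * Real.exp (-(2 * K * et s)) * ww n s) / qf n K s := by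
  rcases le_or_gt s (1 / 3) with hs | hs
  · have h1 : f1 n K s ≠ 0 := by
      linarith [h s hs] |> fun h : f1 n K s < 0 => h.ne
    have h2 := (qf_pos (n := n) hK s).ne'
    unfold Cf
    field_simp
  · rw [Cf_right hs.le, ww_right hs.le]
    simp

theorem Cf_nonneg {K : ℝ} (hK : 0 ≤ K) (h : ∀ s, s ≤ 1 / 3 → f1 n K s ≤ -(1 / 2)) (s : ℝ) :
    0 ≤ Cf n K s := by
  rcases le_or_gt s (1 / 3) with hs | hs
  · unfold Cf
    rw [← div_neg]
    apply div_nonneg
    · have := (kap_pos (n := n) hK).le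
      have := ww_nonneg (n := n) s
      positivity
    · have h1 := qf_pos (n := n) hK s
      have h2 := h s hs
      nlinarith
  · rw [Cf_right hs.le]

theorem Cf_pos {K : ℝ} (hK : 0 ≤ K) (h : ∀ s, s ≤ 1 / 3 → f1 n K s ≤ -(1 / 2)) :
    0 < Cf n K (1 / 4) := by
  unfold Cf
  rw [← div_neg]
  have hw : 0 < ww n (1 / 4) := by
    unfold ww
    exact mul_pos (Real.rpow_pos_of_pos (by norm_num) _) (bm_pos (by norm_num) (by norm_num))
  have hk := kap_pos (n := n) hK
  apply div_pos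
  · positivity
  · have h1 := qf_pos (n := n) hK (1 / 4)
    have h2 := h (1 / 4) (by norm_num)
    nlinarith

/-- the weight tends to zero uniformly -/
theorem Cf_small (n : ℕ) {δ : ℝ} (hδ : 0 < δ) : ∀ᶠ K : ℝ in atTop, ∀ s ∈ Icc (0 : ℝ) 1, Cf n K s ≤ δ := by
  obtain ⟨W, hW⟩ := (isCompact_Icc (a := (0 : ℝ)) (b := 1)).exists_bound_of_continuousOn
    (ww_cont (n := n)).continuousOn
  have hW0 : 0 ≤ W := (norm_nonneg _).trans (hW 0 ⟨le_rfl, zero_le_one⟩)
  have hm := mm_pos
  have ht : Tendsto (fun K : ℝ => 24 * Real.exp 1 * W / mm (1 / 3) * Real.exp (-K)) atTop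
      (𝓝 (24 * Real.exp 1 * W / mm (1 / 3) * 0)) :=
    (Real.tendsto_exp_neg_atTop_nhds_zero).const_mul _
  rw [mul_zero] at ht
  filter_upwards [ht.eventually_lt_const hδ, core_ev n] with K hK hcore
  obtain ⟨hK0, h⟩ := hcore
  intro s hs
  rcases le_or_gt s (1 / 3) with hs3 | hs3
  · refine le_trans ?_ hK.le
    have h1 := qf_ge (n := n) hK0 s
    have h2 := h s hs3
    have hq := qf_pos (n := n) hK0 s
    have h3 : 1 / 2 * Real.exp (-K - 1) ≤ -(qf n K s * f1 n K s) := by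
      nlinarith
    have h4 : ww n s ≤ W := (le_abs_self _).trans (hW s hs)
    have hk := kap_le (n := n) (K := K)
    have hk0 := (kap_pos (n := n) hK0).le
    have hw0 := ww_nonneg (n := n) s
    unfold Cf
    rw [← div_neg, et_one hs3, mul_one]
    have hp : 0 < 1 / 2 * Real.exp (-K - 1) := by positivity
    calc 4 * kap n K * Real.exp (-(2 * K)) * ww n s / -(qf n K s * f1 n K s)
        ≤ 4 * kap n K * Real.exp (-(2 * K)) * ww n s / (1 / 2 * Real.exp (-K - 1)) :=
          div_le_div_of_nonneg_left (by positivity) hp h3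
      _ ≤ 4 * (3 / mm (1 / 3)) * Real.exp (-(2 * K)) * W / (1 / 2 * Real.exp (-K - 1)) := by
          apply div_le_div_of_nonneg_right _ hp.le
          apply mul_le_mul _ h4 hw0 (by positivity)
          apply mul_le_mul_of_nonneg_right _ (Real.exp_pos _).le
          linarith
      _ = 24 * Real.exp 1 * W / mm (1 / 3) * Real.exp (-K) := by
          have e1 : Real.exp (-(2 * K)) = Real.exp (-K) * Real.exp (-K) := by
            rw [← Real.exp_add]
            congr 1
            ring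
          have e2 : Real.exp (-K - 1) = Real.exp (-K) * Real.exp (-1) := by
            rw [← Real.exp_add]
            congr 1
          have e3 : Real.exp 1 * Real.exp (-1) = 1 := by
            rw [← Real.exp_add]
            simp
          rw [e1, e2]
          have h5 := Real.exp_pos (-K)
          have h6 := Real.exp_pos (-1)
          field_simp
          linear_combination (-24 * W) * e3
  · rw [Cf_right hs3.le]
    exact hδ.le

theorem lap_rad {f : ℝ → ℝ} (hf : ContDiff ℝ ∞ f) (x : E n) :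
    Δ (fun x : E n => f (qq x)) x = L n f (qq x) := by
  have := congrFun (lap_comp (n := n) hf 1) x
  simpa only [one_mul] using this

theorem grad_rad {f : ℝ → ℝ} (hf : ContDiff ℝ ∞ f) (x : E n) :
    ∑ i, Pd i (fun x : E n => f (qq x)) x ^ 2 = 4 * qq x * deriv f (qq x) ^ 2 := by
  have hPd : ∀ i, Pd i (fun x : E n => f (qq x)) x = deriv f (qq x) * (2 * co i x) := by
    intro i
    have := congrFun (Pd_comp hf 1 i) x
    simpa only [one_mul, mul_one] using this
  simp only [hPd]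
  have : ∀ i, (deriv f (qq x) * (2 * co i x)) ^ 2 = 4 * deriv f (qq x) ^ 2 * (co i x * co i x) := by
    intro i
    ring
  simp only [this]
  rw [← Finset.mul_sum, sum_co_sq]
  ring

/-- Main theorem: a solution which is negative at the centre, arbitrarily far below the first
eigenvalue. -/
theorem main (hn : 1 ≤ n) {ε : ℝ} (hε : 0 < ε) :
    ∃ c h u₀ u : E n → ℝ,
      (ContDiff ℝ ∞ c ∧ HasCompactSupport c ∧ tsupport c ⊆ B n) ∧
      (ContDiff ℝ ∞ h ∧ HasCompactSupport h ∧ tsupport h ⊆ B n) ∧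
      (ContDiff ℝ ∞ u₀ ∧ HasCompactSupport u₀ ∧ tsupport u₀ ⊆ B n) ∧
      (ContDiff ℝ ∞ u ∧ ∀ x, ‖x‖ = 1 → u x = 0) ∧
      (∀ x, 0 ≤ c x) ∧ (∃ x ∈ B n, 0 < c x) ∧
      (∀ x, 0 ≤ u₀ x) ∧ (∃ x ∈ B n, 0 < c x * u₀ x) ∧
      IsSol (B n) c (fun _ => 1) h 0 u₀ ∧
      IsSol (B n) c (fun _ => 1) h 1 u ∧
      1 < ε * firstEigenvalue (B n) c ∧
      (∀ γ, IsEigenvalue (B n) c γ → 1 < ε * γ) ∧
      u 0 < 0 := by
  have hn' : (0 : ℝ) < n := by exact_mod_cast hn
  set c0 : ℝ := (n : ℝ) ^ 2 * ε / 8 with hc0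
  have hc0p : 0 < c0 := by positivity
  obtain ⟨K, ⟨hK0, hcore⟩, hsmall, hK1⟩ :=
    ((core_ev n).and ((Cf_small n hc0p).and (eventually_gt_atTop (0 : ℝ)))).exists
  have hf0 := f0_smooth K
  have hf1 := f1_smooth (n := n) hK0
  have hC := Cf_smooth hK0 hcore
  have hu0 : ContDiff ℝ ∞ (fun x : E n => f0 K (qq x)) := hf0.comp qq_smooth
  have hu1 : ContDiff ℝ ∞ (fun x : E n => f1 n K (qq x)) := hf1.comp qq_smooth
  have hc : ContDiff ℝ ∞ (fun x : E n => Cf n K (qq x)) := hC.comp qq_smooth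
  have hf01 : f0 K 1 = 0 := by
    unfold f0
    rw [et_zero (by norm_num), mul_zero]
  set h : E n → ℝ := fun x => -Δ (fun x : E n => f0 K (qq x)) x -
    ∑ i, Pd i (fun x : E n => f0 K (qq x)) x ^ 2 with hh
  have hhs : ContDiff ℝ ∞ h :=
    (lap_smooth hu0).neg.sub (ContDiff.sum fun i _ => (Pd_smooth hu0 i).pow 2)
  have hf0z : ∀ x : E n, 2 / 3 < qq x → (fun x : E n => f0 K (qq x)) =ᶠ[𝓝 x] fun _ => 0 := by
    intro x hx
    have ho : IsOpen {y : E n | 2 / 3 < qq y} := isOpen_lt continuous_const qq_smooth.continuous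
    filter_upwards [ho.mem_nhds hx] with y hy
    show K * et (qq y) = 0
    rw [et_zero (le_of_lt hy), mul_zero]
  have hcc := tsupport_B (f := fun x : E n => Cf n K (qq x)) (r := 1 / 3) (by norm_num)
    fun x hx => Cf_right hx.le
  have hhc := tsupport_B (f := h) (r := 2 / 3) (by norm_num) fun x hx => by
    have hz := hf0z x hx
    show -Δ (fun x : E n => f0 K (qq x)) x - ∑ i, Pd i (fun x : E n => f0 K (qq x)) x ^ 2 = 0
    rw [(laplacian_congr_nhds hz).eq_of_nhds, lap_const]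
    simp only [Pd_zero_of_ev hz]
    simp
  have huc := tsupport_B (f := fun x : E n => f0 K (qq x)) (r := 2 / 3) (by norm_num)
    fun x hx => (hf0z x hx).eq_of_nhds
  have hle : ∀ x ∈ B n, Cf n K (qq x) ≤ c0 := fun x hx =>
    hsmall (qq x) ⟨qq_nonneg x, (mem_B.mp hx).le⟩
  have hnn : ∀ x : E n, 0 ≤ Cf n K (qq x) := fun x => Cf_nonneg hK0 hcore _
  set x0 : E n := EuclideanSpace.single ⟨0, by omega⟩ (1 / 2 : ℝ) with hx0
  have hqx0 : qq x0 = 1 / 4 := by
    unfold qq
    rw [hx0, EuclideanSpace.norm_single]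
    norm_num
  have hx0B : x0 ∈ B n := mem_B.mpr (by rw [hqx0]; norm_num)
  have hcx0 : 0 < Cf n K (qq x0) := by
    rw [hqx0]
    exact Cf_pos hK0 hcore
  have hval : (n : ℝ) ^ 2 / (4 * c0) = 2 / ε := by
    rw [hc0]
    field_simp
    norm_num
  refine ⟨fun x => Cf n K (qq x), h, fun x => f0 K (qq x), fun x => f1 n K (qq x),
    ⟨hc, hcc.1, hcc.2⟩, ⟨hhs, hhc.1, hhc.2⟩, ⟨hu0, huc.1, huc.2⟩, ⟨hu1, ?_⟩, hnn, ⟨x0, hx0B, hcx0⟩,
    ?_, ⟨x0, hx0B, ?_⟩, ?_, ?_, ?_, ?_, ?_⟩
  · intro x hx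
    show f1 n K (qq x) = 0
    unfold qq
    rw [hx, one_pow, f1_one]
  · intro x
    exact mul_nonneg hK0 (et_nonneg _)
  · show 0 < Cf n K (qq x0) * f0 K (qq x0)
    apply mul_pos hcx0
    unfold f0
    rw [hqx0, et_one (by norm_num), mul_one]
    exact hK1
  · apply sol_of_classical hf0 hf01 hc.continuous continuous_const hhs.continuous
    intro x _
    show -Δ (fun x : E n => f0 K (qq x)) x = 0 * (Cf n K (qq x) * f0 K (qq x)) +
      1 * (∑ i, Pd i (fun x : E n => f0 K (qq x)) x ^ 2) +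
      (-Δ (fun x : E n => f0 K (qq x)) x - ∑ i, Pd i (fun x : E n => f0 K (qq x)) x ^ 2)
    ring
  · apply sol_of_classical hf1 f1_one hc.continuous continuous_const hhs.continuous
    intro x _
    show -Δ (fun x : E n => f1 n K (qq x)) x = 1 * (Cf n K (qq x) * f1 n K (qq x)) +
      1 * (∑ i, Pd i (fun x : E n => f1 n K (qq x)) x ^ 2) +
      (-Δ (fun x : E n => f0 K (qq x)) x - ∑ i, Pd i (fun x : E n => f0 K (qq x)) x ^ 2)
    rw [lap_rad hf1, lap_rad hf0, grad_rad hf1, grad_rad hf0, Cf_mul hK0 hcore, ← f1_eq hK0]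
    ring
  · have h1 := firstEigenvalue_ge hc0p hc.continuous hnn hle ⟨x0, hx0B, hcx0.ne'⟩
    rw [hval] at h1
    have h2 := mul_le_mul_of_nonneg_left h1 hε.le
    rw [mul_div_cancel₀ _ hε.ne'] at h2
    linarith
  · intro γ hγ
    have h1 := eigenvalue_ge hn hc0p hc.continuous hnn hle hγ
    rw [hval] at h1
    have h2 := mul_le_mul_of_nonneg_left h1 hε.le
    rw [mul_div_cancel₀ _ hε.ne'] at h2
    linarith
  · show f1 n K (qq 0) < 0
    have : qq (0 : E n) = 0 := by
      unfold qq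
      simp
    rw [this, f1_zero]
    norm_num

end Pool.Agent.R207.AC
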