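import Pool.Agent.R207.AC4

set_option autoImplicit false

/-! # A radial Green operator and monotone iteration -/

namespace Pool.Agent.R207.AD

open MeasureTheory Real Set Filter Topology
open scoped ContDiff
open Pool.Agent.R207.HH (L)

variable {n : ℕ}

/-- admissible right-hand sides -/
structure Adm (g : ℝ → ℝ) : Prop where
  meas : Measurable g
  bdd : ∃ M : ℝ, ∀ s, |g s| ≤ M
  left : ∀ s, s ≤ 1 / 6 → g s = 0

/-- flux -/
noncomputable def Ig (g : ℝ → ℝ) (σ : ℝ) : ℝ := ∫ t in (0 : ℝ)..σ, g t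

/-- minus the derivative of the potential -/
noncomputable def Kg (n : ℕ) (g : ℝ → ℝ) (σ : ℝ) : ℝ := σ ^ (-((n : ℝ) / 2)) * Ig g σ

/-- the potential -/
noncomputable def Gr (n : ℕ) (g : ℝ → ℝ) (s : ℝ) : ℝ := ∫ σ in s..1, Kg n g σ

theorem Adm.ii {g : ℝ → ℝ} (h : Adm g) (a b : ℝ) : IntervalIntegrable g volume a b := by
  obtain ⟨M, hM⟩ := h.bdd
  apply (intervalIntegrable_const (c := M)).mono_fun h.meas.aestronglyMeasurable
  refine Eventually.of_forall fun s => ?_
  show ‖g s‖ ≤ ‖M‖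
  rw [Real.norm_eq_abs, Real.norm_eq_abs]
  exact (hM s).trans (le_abs_self M)

theorem Adm.Ig_cont {g : ℝ → ℝ} (h : Adm g) : Continuous (Ig g) :=
  intervalIntegral.continuous_primitive (fun a b => h.ii a b) 0

theorem Adm.Ig_left {g : ℝ → ℝ} (h : Adm g) {σ : ℝ} (hσ : σ ≤ 1 / 6) : Ig g σ = 0 := by
  unfold Ig
  rw [intervalIntegral.integral_congr (g := fun _ => 0)]
  · simp
  · intro t ht
    apply h.left
    exact ht.2.trans (max_le (by norm_num) hσ)

theorem Adm.Kg_left {g : ℝ → ℝ} (h : Adm g) {σ : ℝ} (hσ : σ ≤ 1 / 6) : Kg n g σ = 0 := by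
  unfold Kg
  rw [h.Ig_left hσ, mul_zero]

theorem Adm.Kg_cont {g : ℝ → ℝ} (h : Adm g) : Continuous (Kg n g) := by
  rw [continuous_iff_continuousAt]
  intro s
  rcases lt_or_ge s (1 / 6) with hs | hs
  · have : Kg n g =ᶠ[𝓝 s] fun _ => 0 := by
      filter_upwards [Iio_mem_nhds hs] with t ht
      exact h.Kg_left (le_of_lt ht)
    exact continuousAt_const.congr this.symm
  · have h0 : (0 : ℝ) < s := by linarith
    exact (Real.continuousAt_rpow_const s _ (Or.inl h0.ne')).mul h.Ig_cont.continuousAt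

theorem Adm.Gr_deriv {g : ℝ → ℝ} (h : Adm g) (s : ℝ) : HasDerivAt (Gr n g) (-Kg n g s) s :=
  intervalIntegral.integral_hasDerivAt_left (h.Kg_cont.intervalIntegrable _ _)
    (h.Kg_cont.stronglyMeasurableAtFilter _ _) h.Kg_cont.continuousAt

theorem Gr_one (g : ℝ → ℝ) : Gr n g 1 = 0 := by
  unfold Gr
  exact intervalIntegral.integral_same

theorem Adm.Gr_cont {g : ℝ → ℝ} (h : Adm g) : Continuous (Gr n g) :=
  continuous_iff_continuousAt.mpr fun s => (h.Gr_deriv s).continuousAt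

theorem Ig_contDiff {g : ℝ → ℝ} {k : ℕ} (hg : ContDiff ℝ k g) : ContDiff ℝ k (Ig g) := by
  have hd : ∀ s, HasDerivAt (Ig g) (g s) s := fun s => Pool.Agent.R207.AC.prim_deriv hg.continuous s
  have h1 : ContDiff ℝ (k + 1) (Ig g) := by
    rw [contDiff_succ_iff_deriv]
    refine ⟨fun s => (hd s).differentiableAt, fun h => by simp at h, ?_⟩
    have : deriv (Ig g) = g := by
      ext s
      exact (hd s).deriv
    rw [this]
    exact hg
  exact h1.of_le (by exact_mod_cast Nat.le_succ k)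

theorem Adm.Kg_contDiff {g : ℝ → ℝ} (h : Adm g) {k : ℕ} (hg : ContDiff ℝ k g) :
    ContDiff ℝ k (Kg n g) := by
  rw [contDiff_iff_contDiffAt]
  intro s
  rcases lt_or_ge s (1 / 6) with hs | hs
  · have : Kg n g =ᶠ[𝓝 s] fun _ => 0 := by
      filter_upwards [Iio_mem_nhds hs] with t ht
      exact h.Kg_left (le_of_lt ht)
    exact contDiffAt_const.congr_of_eventuallyEq this
  · have h0 : (0 : ℝ) < s := by linarith
    exact (Real.contDiffAt_rpow_const_of_ne h0.ne').mul (Ig_contDiff hg).contDiffAt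

theorem Adm.Gr_contDiff {g : ℝ → ℝ} (h : Adm g) {k : ℕ} (hg : ContDiff ℝ k g) :
    ContDiff ℝ (k + 1) (Gr n g) := by
  rw [contDiff_succ_iff_deriv]
  refine ⟨fun s => (h.Gr_deriv s).differentiableAt, fun h => by simp at h, ?_⟩
  have : deriv (Gr n g) = fun s => -Kg n g s := by
    ext s
    exact (h.Gr_deriv s).deriv
  rw [this]
  exact (h.Kg_contDiff hg).neg

theorem Adm.Gr_smooth {g : ℝ → ℝ} (h : Adm g) (hg : ContDiff ℝ ∞ g) : ContDiff ℝ ∞ (Gr n g) := by
  rw [contDiff_infty]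
  intro k
  exact (h.Gr_contDiff (contDiff_infty.mp hg k)).of_le (by exact_mod_cast Nat.le_succ k)

/-- the equation for the potential -/
theorem Adm.L_Gr {g : ℝ → ℝ} (h : Adm g) (hg : Continuous g) (s : ℝ) :
    L n (Gr n g) s = -(4 * s ^ (1 - (n : ℝ) / 2) * g s) := by
  have e1 : deriv (Gr n g) = fun s => -Kg n g s := by
    ext s
    exact (h.Gr_deriv s).deriv
  unfold L
  rw [e1]
  rcases lt_or_ge s (1 / 6) with hs | hs
  · have : (fun s => -Kg n g s) =ᶠ[𝓝 s] fun _ => 0 := by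
      filter_upwards [Iio_mem_nhds hs] with t ht
      rw [h.Kg_left (le_of_lt ht), neg_zero]
    rw [this.deriv_eq, deriv_const, h.left s hs.le]
    simp only [h.Kg_left hs.le]
    ring
  · have h0 : (0 : ℝ) < s := by linarith
    have h1 : HasDerivAt (Kg n g) (-((n : ℝ) / 2) * s ^ (-((n : ℝ) / 2) - 1) * Ig g s +
        s ^ (-((n : ℝ) / 2)) * g s) s :=
      (Real.hasDerivAt_rpow_const (Or.inl h0.ne')).mul (Pool.Agent.R207.AC.prim_deriv hg s)
    have h2 : deriv (fun s => -Kg n g s) s = _ := h1.neg.deriv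
    rw [h2]
    unfold Kg
    have e2 : s * s ^ (-((n : ℝ) / 2) - 1) = s ^ (-((n : ℝ) / 2)) := by
      rw [Real.rpow_sub_one h0.ne']
      field_simp
    have e3 : s ^ (1 - (n : ℝ) / 2) = s * s ^ (-((n : ℝ) / 2)) := by
      rw [sub_eq_add_neg, Real.rpow_add h0, Real.rpow_one]
    rw [e3]
    linear_combination (2 * n * Ig g s) * e2

theorem Ig_mono {g g' : ℝ → ℝ} (h : Adm g) (h' : Adm g') (hle : ∀ s, g s ≤ g' s) {σ : ℝ}
    (hσ : 0 ≤ σ) : Ig g σ ≤ Ig g' σ :=
  intervalIntegral.integral_mono_on hσ (h.ii _ _) (h'.ii _ _) fun s _ => hle s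

theorem Gr_mono {g g' : ℝ → ℝ} (h : Adm g) (h' : Adm g') (hle : ∀ s, g s ≤ g' s) {s : ℝ}
    (h0 : 0 ≤ s) (h1 : s ≤ 1) : Gr n g s ≤ Gr n g' s := by
  unfold Gr
  apply intervalIntegral.integral_mono_on h1 (h.Kg_cont.intervalIntegrable _ _)
    (h'.Kg_cont.intervalIntegrable _ _)
  intro σ hσ
  unfold Kg
  exact mul_le_mul_of_nonneg_left (Ig_mono h h' hle (h0.trans hσ.1))
    (Real.rpow_nonneg (h0.trans hσ.1) _)

theorem Adm.zero : Adm (fun _ => (0 : ℝ)) :=
  ⟨measurable_const, ⟨0, fun _ => by simp⟩, fun _ _ => rfl⟩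

theorem Gr_zero (s : ℝ) : Gr n (fun _ => (0 : ℝ)) s = 0 := by
  unfold Gr Kg Ig
  simp

theorem Gr_nonneg {g : ℝ → ℝ} (h : Adm g) (h0 : ∀ s, 0 ≤ g s) {s : ℝ}
    (hs0 : 0 ≤ s) (h1 : s ≤ 1) : 0 ≤ Gr n g s := by
  have := Gr_mono (n := n) Adm.zero h h0 hs0 h1
  rwa [Gr_zero] at this

/-- dominated convergence for the Green operator -/
theorem Gr_lim {g : ℕ → ℝ → ℝ} {g' : ℝ → ℝ} {M : ℝ} (h : ∀ k, Adm (g k)) (hM : ∀ k s, |g k s| ≤ M)
    (hl : ∀ s, Tendsto (fun k => g k s) atTop (𝓝 (g' s))) :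
    Adm g' ∧ ∀ s, Tendsto (fun k => Gr n (g k) s) atTop (𝓝 (Gr n g' s)) := by
  have hA : Adm g' := by
    refine ⟨measurable_of_tendsto_metrizable (fun k => (h k).meas) (tendsto_pi_nhds.mpr hl),
      ⟨M, fun s => ?_⟩, fun s hs => ?_⟩
    · exact le_of_tendsto ((hl s).abs) (Eventually.of_forall fun k => hM k s)
    · have h1 := hl s
      have h2 : (fun k => g k s) = fun _ => (0 : ℝ) := by
        ext k
        exact (h k).left s hs
      rw [h2] at h1
      exact (tendsto_nhds_unique h1 tendsto_const_nhds)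
  refine ⟨hA, fun s => ?_⟩
  have hI : ∀ σ, Tendsto (fun k => Ig (g k) σ) atTop (𝓝 (Ig g' σ)) := by
    intro σ
    apply intervalIntegral.tendsto_integral_filter_of_dominated_convergence (fun _ => M)
    · exact Eventually.of_forall fun k => (h k).meas.aestronglyMeasurable
    · exact Eventually.of_forall fun k => Eventually.of_forall fun t _ => hM k t
    · exact intervalIntegrable_const
    · exact Eventually.of_forall fun t _ => hl t
  have hM0 : 0 ≤ M := (abs_nonneg _).trans (hM 0 0)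
  have hIb : ∀ k σ, |Ig (g k) σ| ≤ M * |σ| := by
    intro k σ
    have := intervalIntegral.norm_integral_le_of_norm_le_const (a := 0) (b := σ) (C := M)
      (f := g k) (fun t _ => hM k t)
    rwa [sub_zero, Real.norm_eq_abs] at this
  -- a continuous dominating function
  have hKb : ∀ k σ, |Kg n (g k) σ| ≤ (max σ (1 / 6)) ^ (-((n : ℝ) / 2)) * (M * |σ|) := by
    intro k σ
    rcases le_total σ (1 / 6) with hσ | hσ
    · rw [(h k).Kg_left hσ, abs_zero]
      positivity
    · unfold Kg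
      rw [abs_mul, max_eq_left hσ, abs_of_nonneg (Real.rpow_nonneg (by linarith) _)]
      exact mul_le_mul_of_nonneg_left (hIb k σ) (Real.rpow_nonneg (by linarith) _)
  have hcont : Continuous fun σ : ℝ => (max σ (1 / 6)) ^ (-((n : ℝ) / 2)) * (M * |σ|) := by
    apply Continuous.mul
    · apply Continuous.rpow_const (continuous_id.max continuous_const)
      intro σ
      left
      have : (1 / 6 : ℝ) ≤ max σ (1 / 6) := le_max_right _ _
      intro h0
      change max σ (1 / 6) = 0 at h0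
      rw [h0] at this
      norm_num at this
    · exact continuous_const.mul continuous_abs
  apply intervalIntegral.tendsto_integral_filter_of_dominated_convergence
    (fun σ : ℝ => (max σ (1 / 6)) ^ (-((n : ℝ) / 2)) * (M * |σ|))
  · exact Eventually.of_forall fun k => (h k).Kg_cont.aestronglyMeasurable
  · exact Eventually.of_forall fun k => Eventually.of_forall fun σ _ => hKb k σ
  · exact hcont.intervalIntegrable _ _
  · refine Eventually.of_forall fun σ _ => ?_
    exact (hI σ).const_mul _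

/-! ### The nonlinear problem -/

/-- the nonlinearity -/
noncomputable def NN (A H w : ℝ → ℝ) (s : ℝ) : ℝ := (A s * Real.log (w s) + H s) * w s

/-- admissible coefficients -/
structure Coef (A H : ℝ → ℝ) : Prop where
  sA : ContDiff ℝ ∞ A
  sH : ContDiff ℝ ∞ H
  nA : ∀ s, 0 ≤ A s
  nH : ∀ s, 0 ≤ H s
  lA : ∀ s, s ≤ 1 / 6 → A s = 0
  lH : ∀ s, s ≤ 1 / 6 → H s = 0
  rA : ∀ s, 1 ≤ s → A s = 0
  rH : ∀ s, 1 ≤ s → H s = 0

theorem Coef.mono {A H : ℝ → ℝ} (hc : Coef A H) {w w' : ℝ → ℝ}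
    (h1 : ∀ s ∈ Icc (0 : ℝ) 1, 1 ≤ w s) (hle : ∀ s ∈ Icc (0 : ℝ) 1, w s ≤ w' s) (s : ℝ) :
    NN A H w s ≤ NN A H w' s := by
  by_cases hs : s ∈ Icc (0 : ℝ) 1
  · unfold NN
    have a := h1 s hs
    have b := hle s hs
    have hl0 : 0 ≤ Real.log (w s) := Real.log_nonneg a
    have hl : Real.log (w s) ≤ Real.log (w' s) := Real.log_le_log (by linarith) b
    apply mul_le_mul _ b (by linarith)
    · have := mul_nonneg (hc.nA s) (hl0.trans hl)
      have := hc.nH s
      linarith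
    · have := mul_le_mul_of_nonneg_left hl (hc.nA s)
      linarith
  · have h0 : A s = 0 ∧ H s = 0 := by
      rw [mem_Icc, not_and_or, not_le, not_le] at hs
      rcases hs with hs | hs
      · exact ⟨hc.lA s (by linarith), hc.lH s (by linarith)⟩
      · exact ⟨hc.rA s hs.le, hc.rH s hs.le⟩
    unfold NN
    rw [h0.1, h0.2]
    simp

theorem Coef.NN_out {A H : ℝ → ℝ} (hc : Coef A H) (w : ℝ → ℝ) {s : ℝ} (hs : s ∉ Icc (0 : ℝ) 1) :
    NN A H w s = 0 := by
  have h0 : A s = 0 ∧ H s = 0 := by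
    rw [mem_Icc, not_and_or, not_le, not_le] at hs
    rcases hs with hs | hs
    · exact ⟨hc.lA s (by linarith), hc.lH s (by linarith)⟩
    · exact ⟨hc.rA s hs.le, hc.rH s hs.le⟩
  unfold NN
  rw [h0.1, h0.2]
  simp

theorem Coef.NN_nonneg {A H : ℝ → ℝ} (hc : Coef A H) {w : ℝ → ℝ}
    (h1 : ∀ s ∈ Icc (0 : ℝ) 1, 1 ≤ w s) (s : ℝ) : 0 ≤ NN A H w s := by
  by_cases hs : s ∈ Icc (0 : ℝ) 1
  · have a := h1 s hs
    unfold NN
    have h2 := mul_nonneg (hc.nA s) (Real.log_nonneg a)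
    have h3 := hc.nH s
    apply mul_nonneg <;> linarith
  · rw [hc.NN_out w hs]

theorem Coef.NN_left {A H : ℝ → ℝ} (hc : Coef A H) (w : ℝ → ℝ) {s : ℝ} (hs : s ≤ 1 / 6) :
    NN A H w s = 0 := by
  unfold NN
  rw [hc.lA s hs, hc.lH s hs]
  simp

/-- regularity of the nonlinearity -/
theorem Coef.NN_contDiff {A H : ℝ → ℝ} (hc : Coef A H) {w : ℝ → ℝ} {k : ℕ} (hw : ContDiff ℝ k w)
    (h1 : ∀ s ∈ Icc (0 : ℝ) 1, 1 ≤ w s) : ContDiff ℝ k (NN A H w) := by
  rw [contDiff_iff_contDiffAt]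
  intro s
  rcases lt_or_ge s (1 / 6) with hs | hs
  · have : NN A H w =ᶠ[𝓝 s] fun _ => 0 := by
      filter_upwards [Iio_mem_nhds hs] with t ht
      exact hc.NN_left w (le_of_lt ht)
    exact contDiffAt_const.congr_of_eventuallyEq this
  rcases le_or_gt s 1 with hs1 | hs1
  · have a := h1 s ⟨by linarith, hs1⟩
    have hA : ContDiff ℝ k A := contDiff_infty.mp hc.sA k
    have hH : ContDiff ℝ k H := contDiff_infty.mp hc.sH k
    exact ((hA.contDiffAt.mul (hw.contDiffAt.log (by linarith [a] |> fun h : 0 < w s => h.ne'))).add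
      hH.contDiffAt).mul hw.contDiffAt
  · have : NN A H w =ᶠ[𝓝 s] fun _ => 0 := by
      filter_upwards [Ioi_mem_nhds hs1] with t ht
      exact hc.NN_out w fun h => absurd h.2 (not_le.mpr ht)
    exact contDiffAt_const.congr_of_eventuallyEq this

theorem Coef.NN_adm {A H : ℝ → ℝ} (hc : Coef A H) {w : ℝ → ℝ} (hw : Continuous w)
    (h1 : ∀ s ∈ Icc (0 : ℝ) 1, 1 ≤ w s) : Adm (NN A H w) := by
  have hcont : Continuous (NN A H w) := by
    have := hc.NN_contDiff (k := 0) (by simpa using hw) h1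
    simpa using this
  refine ⟨hcont.measurable, ?_, fun s hs => hc.NN_left w hs⟩
  obtain ⟨M, hM⟩ := (isCompact_Icc (a := (0 : ℝ)) (b := 1)).exists_bound_of_continuousOn
    hcont.continuousOn
  refine ⟨M, fun s => ?_⟩
  by_cases hs : s ∈ Icc (0 : ℝ) 1
  · exact hM s hs
  · rw [hc.NN_out w hs, abs_zero]
    exact (norm_nonneg _).trans (hM 0 ⟨le_rfl, zero_le_one⟩)

/-- monotone iteration -/
noncomputable def it (n : ℕ) (A H : ℝ → ℝ) : ℕ → ℝ → ℝ
  | 0 => fun _ => 1
  | k + 1 => fun s => 1 + Gr n (NN A H (it n A H k)) s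

/-- existence of a smooth solution between `1` and a supersolution -/
theorem Coef.exists_fix {A H : ℝ → ℝ} (hc : Coef A H) {Q : ℝ → ℝ} (hQ : Continuous Q)
    (hQ1 : ∀ s ∈ Icc (0 : ℝ) 1, 1 ≤ Q s)
    (hsup : ∀ s ∈ Icc (0 : ℝ) 1, 1 + Gr n (NN A H Q) s ≤ Q s) :
    ∃ w : ℝ → ℝ, ContDiff ℝ ∞ w ∧ (∀ s ∈ Icc (0 : ℝ) 1, 1 ≤ w s) ∧
      (∀ s ∈ Icc (0 : ℝ) 1, w s ≤ Q s) ∧ (∀ s, w s = 1 + Gr n (NN A H w) s) := by
  have hAQ := hc.NN_adm hQ hQ1
  have hprop : ∀ k, Continuous (it n A H k) ∧ (∀ s ∈ Icc (0 : ℝ) 1, 1 ≤ it n A H k s) ∧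
      (∀ s ∈ Icc (0 : ℝ) 1, it n A H k s ≤ Q s) ∧
      (∀ s ∈ Icc (0 : ℝ) 1, it n A H k s ≤ it n A H (k + 1) s) := by
    intro k
    induction k with
    | zero =>
      refine ⟨continuous_const, fun s _ => le_rfl, hQ1, fun s hs => ?_⟩
      show (1 : ℝ) ≤ 1 + Gr n (NN A H (it n A H 0)) s
      have h1 : ∀ s ∈ Icc (0 : ℝ) 1, 1 ≤ it n A H 0 s := fun s _ => le_rfl
      have h0 : Continuous (it n A H 0) := continuous_const
      have := Gr_nonneg (n := n) (hc.NN_adm h0 h1) (hc.NN_nonneg h1) hs.1 hs.2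
      linarith
    | succ k ih =>
      obtain ⟨h1, h2, h3, h4⟩ := ih
      have hA := hc.NN_adm h1 h2
      have h1' : Continuous (it n A H (k + 1)) := continuous_const.add hA.Gr_cont
      have h2' : ∀ s ∈ Icc (0 : ℝ) 1, 1 ≤ it n A H (k + 1) s := fun s hs =>
        (h2 s hs).trans (h4 s hs)
      have hA' := hc.NN_adm h1' h2'
      refine ⟨h1', h2', fun s hs => ?_, fun s hs => ?_⟩
      · refine le_trans ?_ (hsup s hs)
        show 1 + Gr n (NN A H (it n A H k)) s ≤ _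
        have := Gr_mono (n := n) hA hAQ (hc.mono h2 h3) hs.1 hs.2
        linarith
      · show 1 + Gr n (NN A H (it n A H k)) s ≤ 1 + Gr n (NN A H (it n A H (k + 1))) s
        have := Gr_mono (n := n) hA hA' (hc.mono h2 h4) hs.1 hs.2
        linarith
  obtain ⟨M, hM⟩ := hAQ.bdd
  have hadm : ∀ k, Adm (NN A H (it n A H k)) := fun k => hc.NN_adm (hprop k).1 (hprop k).2.1
  have hMk : ∀ k s, |NN A H (it n A H k) s| ≤ M := by
    intro k s
    rw [abs_of_nonneg (hc.NN_nonneg (hprop k).2.1 s)]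
    exact (hc.mono (hprop k).2.1 (hprop k).2.2.1 s).trans ((le_abs_self _).trans (hM s))
  have hmono : ∀ s, Monotone fun k => NN A H (it n A H k) s := fun s =>
    monotone_nat_of_le_succ fun k => hc.mono (hprop k).2.1 (hprop k).2.2.2 s
  have hlim : ∀ s, Tendsto (fun k => NN A H (it n A H k) s) atTop
      (𝓝 (⨆ k, NN A H (it n A H k) s)) := fun s =>
    tendsto_atTop_ciSup (hmono s) ⟨M, by
      rintro _ ⟨k, rfl⟩
      exact (le_abs_self _).trans (hMk k s)⟩
  obtain ⟨hAg, hGl⟩ := Gr_lim (n := n) hadm hMk hlim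
  set g' : ℝ → ℝ := fun s => ⨆ k, NN A H (it n A H k) s with hg'
  set w : ℝ → ℝ := fun s => 1 + Gr n g' s with hw
  have hwl : ∀ s, Tendsto (fun k => it n A H (k + 1) s) atTop (𝓝 (w s)) := fun s =>
    (hGl s).const_add 1
  have hwc : Continuous w := continuous_const.add hAg.Gr_cont
  have hw1 : ∀ s ∈ Icc (0 : ℝ) 1, 1 ≤ w s := fun s hs =>
    ge_of_tendsto (hwl s) (Eventually.of_forall fun k => (hprop (k + 1)).2.1 s hs)
  have hwQ : ∀ s ∈ Icc (0 : ℝ) 1, w s ≤ Q s := fun s hs =>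
    le_of_tendsto (hwl s) (Eventually.of_forall fun k => (hprop (k + 1)).2.2.1 s hs)
  have hgN : g' = NN A H w := by
    ext s
    by_cases hs : s ∈ Icc (0 : ℝ) 1
    · have h1 : Tendsto (fun k => NN A H (it n A H (k + 1)) s) atTop (𝓝 (g' s)) :=
        (hlim s).comp (tendsto_add_atTop_nat 1)
      have h2 : Tendsto (fun k => NN A H (it n A H (k + 1)) s) atTop (𝓝 (NN A H w s)) := by
        have hne : w s ≠ 0 := by
          have := hw1 s hs
          intro h0
          rw [h0] at this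
          norm_num at this
        exact ((((hwl s).log hne).const_mul (A s)).add_const (H s)).mul (hwl s)
      exact tendsto_nhds_unique h1 h2
    · rw [hc.NN_out w hs, hg']
      have : ∀ k, NN A H (it n A H k) s = 0 := fun k => hc.NN_out _ hs
      simp [this]
  have hfix : ∀ s, w s = 1 + Gr n (NN A H w) s := by
    intro s
    rw [← hgN]
  have hAw : Adm (NN A H w) := by rw [← hgN]; exact hAg
  have hreg : ∀ k : ℕ, ContDiff ℝ k w := by
    intro k
    induction k with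
    | zero => simpa using hwc
    | succ k ih =>
      have h1 := hAw.Gr_contDiff (n := n) (hc.NN_contDiff ih hw1)
      have h2 : w = fun s => 1 + Gr n (NN A H w) s := funext hfix
      rw [h2]
      exact_mod_cast contDiff_const.add h1
  exact ⟨w, contDiff_infty.mpr hreg, hw1, hwQ, hfix⟩

/-- smooth positive modification of the identity -/
noncomputable def vs (y : ℝ) : ℝ :=
  y * Real.smoothTransition (4 * y - 1) + (1 - Real.smoothTransition (4 * y - 1))

theorem vs_smooth : ContDiff ℝ ∞ vs := by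
  have h : ContDiff ℝ ∞ (fun y : ℝ => Real.smoothTransition (4 * y - 1)) :=
    Real.smoothTransition.contDiff.comp ((contDiff_const.mul contDiff_id).sub contDiff_const)
  exact (contDiff_id.mul h).add (contDiff_const.sub h)

theorem vs_eq {y : ℝ} (hy : 1 / 2 ≤ y) : vs y = y := by
  unfold vs
  rw [Real.smoothTransition.one_of_one_le (by linarith)]
  ring

theorem vs_pos (y : ℝ) : 0 < vs y := by
  unfold vs
  rcases le_or_gt y (1 / 4) with hy | hy
  · rw [Real.smoothTransition.zero_of_nonpos (by linarith)]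
    norm_num
  · have h0 := Real.smoothTransition.nonneg (4 * y - 1)
    have h1 := Real.smoothTransition.le_one (4 * y - 1)
    nlinarith

/-- the logarithm of a profile -/
noncomputable def lw (w : ℝ → ℝ) (s : ℝ) : ℝ := Real.log (vs (w s))

theorem lw_smooth {w : ℝ → ℝ} (hw : ContDiff ℝ ∞ w) : ContDiff ℝ ∞ (lw w) :=
  (vs_smooth.comp hw).log fun s => (vs_pos (w s)).ne'

theorem lw_eq {w : ℝ → ℝ} {s : ℝ} (h : 1 ≤ w s) : lw w s = Real.log (w s) := by
  unfold lw
  rw [vs_eq (by linarith)]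

/-- the equation for the logarithm -/
theorem lw_eqn {A H w : ℝ → ℝ} (hc : Coef A H) (hw : ContDiff ℝ ∞ w)
    (h1 : ∀ s ∈ Icc (0 : ℝ) 1, 1 ≤ w s) (hfix : ∀ s, w s = 1 + Gr n (NN A H w) s) {s : ℝ}
    (h0s : 0 ≤ s) (hs1 : s < 1) :
    -(L n (lw w) s) = 4 * s ^ (1 - (n : ℝ) / 2) * A s * lw w s + 4 * s * deriv (lw w) s ^ 2 +
      4 * s ^ (1 - (n : ℝ) / 2) * H s := by
  have hA := hc.NN_adm hw.continuous h1
  have hws := h1 s ⟨h0s, hs1.le⟩
  have hwpos : 0 < w s := by linarith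
  have hev : ∀ᶠ t in 𝓝 s, 1 / 2 < w t :=
    hw.continuous.continuousAt.eventually_const_lt (by linarith)
  have e0 : lw w =ᶠ[𝓝 s] fun t => Real.log (w t) := by
    filter_upwards [hev] with t ht
    unfold lw
    rw [vs_eq ht.le]
  have hwd : ∀ t, HasDerivAt w (deriv w t) t := fun t => Pool.Agent.R207.HH.has_deriv hw t
  have hwdd : HasDerivAt (deriv w) (deriv (deriv w) s) s :=
    Pool.Agent.R207.HH.has_deriv (Pool.Agent.R207.HH.deriv_smooth hw) s
  have e1 : deriv (lw w) =ᶠ[𝓝 s] fun t => deriv w t / w t := by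
    filter_upwards [e0.eventually_nhds, hev] with t ht hpt
    rw [Filter.EventuallyEq.deriv_eq ht]
    exact ((hwd t).log (by linarith [hpt] |> fun h : 0 < w t => h.ne')).deriv
  have e2 : deriv (deriv (lw w)) s = (deriv (deriv w) s * w s - deriv w s * deriv w s) / w s ^ 2 := by
    rw [e1.deriv_eq]
    exact (hwdd.div (hwd s) hwpos.ne').deriv
  have hL : L n w s = -(4 * s ^ (1 - (n : ℝ) / 2) * NN A H w s) := by
    have hNc : Continuous (NN A H w) :=
      (hc.NN_contDiff (k := 0) (by simpa using hw.continuous) h1).continuous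
    rw [← hA.L_Gr hNc s]
    have h2 : deriv w = deriv (Gr n (NN A H w)) := by
      ext t
      have : w = fun s => 1 + Gr n (NN A H w) s := funext hfix
      conv_lhs => rw [this]
      rw [deriv_const_add]
    unfold L
    rw [h2]
  unfold L at hL ⊢
  rw [e2, e1.eq_of_nhds, lw_eq hws]
  unfold NN at hL
  have h3 : 4 * s * deriv (deriv w) s + 2 * n * deriv w s =
      -(4 * s ^ (1 - (n : ℝ) / 2) * (A s * Real.log (w s) + H s)) * w s := by
    rw [hL]
    ring
  have h4 : 4 * s * ((deriv (deriv w) s * w s - deriv w s * deriv w s) / w s ^ 2) +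
      2 * n * (deriv w s / w s) + 4 * s * (deriv w s / w s) ^ 2 =
      (4 * s * deriv (deriv w) s + 2 * n * deriv w s) / w s := by
    field_simp
    ring
  rw [h3, mul_div_cancel_right₀ _ hwpos.ne'] at h4
  linarith

end Pool.Agent.R207.AD
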