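import Pool.Agent.R207.AD1

set_option autoImplicit false

/-! # The two explicit solutions -/

namespace Pool.Agent.R207.AD

open MeasureTheory Real Set Filter Topology
open scoped ContDiff
open Pool.Agent.R207.HH (L)
open Pool.Agent.R207.AC (bm bm_smooth bm_nonneg bm_left bm_right bm_pos mm mm_deriv mm_smooth mm_left
  mm_mono mm_nonneg mm_right mm_pos)

variable {n : ℕ}

/-! ### Elementary inequalities -/

theorem key_ineq {z B : ℝ} (hB : 1 ≤ B) (hz : 12 * B ^ 2 ≤ z) :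
    2 * z * Real.log z < (2 * z - B) * Real.log (2 * z - B) := by
  have hz0 : 0 < z := by nlinarith
  have hBz : 12 * B ≤ z := by nlinarith
  set t := Real.sqrt z with ht
  have ht0 : 0 < t := Real.sqrt_pos.mpr hz0
  have htz : t * t = z := Real.mul_self_sqrt hz0.le
  have h1 : Real.log z ≤ 2 * t := by
    have h2 : Real.log z = 2 * Real.log t := by
      rw [← htz, Real.log_mul ht0.ne' ht0.ne']
      ring
    have h3 := Real.log_le_sub_one_of_pos ht0
    linarith
  have hBt : B ≤ t / 3 := by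
    by_contra h
    push Not at h
    have : t * t < 9 * B ^ 2 := by nlinarith
    nlinarith
  have h4 : B * Real.log z ≤ 2 / 3 * z := by
    have : B * Real.log z ≤ B * (2 * t) := mul_le_mul_of_nonneg_left h1 (by linarith)
    nlinarith
  have hy : 0 < 2 - B / z := by
    have : B / z ≤ 1 / 12 := by
      rw [div_le_div_iff₀ hz0 (by norm_num)]
      linarith
    linarith
  have h5 : Real.log (2 * z - B) = Real.log z + Real.log (2 - B / z) := by
    rw [← Real.log_mul hz0.ne' hy.ne']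
    congr 1
    field_simp
  have h6 : 11 / 23 ≤ Real.log (2 - B / z) := by
    have h7 := Real.one_sub_inv_le_log_of_pos hy
    have h8 : (2 - B / z)⁻¹ ≤ 12 / 23 := by
      rw [inv_le_comm₀ hy (by norm_num)]
      have : B / z ≤ 1 / 12 := by
        rw [div_le_div_iff₀ hz0 (by norm_num)]
        linarith
      norm_num
      linarith
    linarith
  rw [h5]
  have h9 : 23 / 12 * z ≤ 2 * z - B := by linarith
  have h10 : 23 / 12 * z * (11 / 23) ≤ (2 * z - B) * Real.log (2 - B / z) :=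
    mul_le_mul h9 h6 (by norm_num) (by linarith)
  nlinarith

/-- the coefficient of `u` for two prescribed solutions -/
noncomputable def ca (x y : ℝ) : ℝ := (2 * y - x) / (x * y * (Real.log x - Real.log y))

/-- the free coefficient for two prescribed solutions -/
noncomputable def cb (x y : ℝ) : ℝ :=
  (x * Real.log x - 2 * y * Real.log y) / (x * y * (Real.log x - Real.log y))

theorem cab_one {x y : ℝ} (hy : 0 < y) (hxy : y < x) : (ca x y * Real.log x + cb x y) * x = 2 := by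
  have hx : 0 < x := hy.trans hxy
  have h : 0 < Real.log x - Real.log y := sub_pos.mpr (Real.log_lt_log hy hxy)
  unfold ca cb
  have h' := h.ne'
  field_simp
  ring

theorem cab_two {x y : ℝ} (hy : 0 < y) (hxy : y < x) : (ca x y * Real.log y + cb x y) * y = 1 := by
  have hx : 0 < x := hy.trans hxy
  have h : 0 < Real.log x - Real.log y := sub_pos.mpr (Real.log_lt_log hy hxy)
  unfold ca cb
  have h' := h.ne'
  field_simp
  ring

/-- the situation in each of the two shells -/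
structure Good (x y : ℝ) : Prop where
  one : 1 ≤ y
  lt : y < x
  B1 : 1 ≤ 2 * y - x
  B2 : 12 * (2 * y - x) ^ 2 ≤ y

theorem Good.ca_pos {x y : ℝ} (h : Good x y) : 0 < ca x y := by
  have h1 := h.one
  have h2 := h.lt
  have h3 := h.B1
  have hl : 0 < Real.log x - Real.log y := sub_pos.mpr (Real.log_lt_log (by linarith) h2)
  unfold ca
  apply div_pos (by linarith)
  apply mul_pos (mul_pos _ _) hl <;> linarith

theorem Good.cb_pos {x y : ℝ} (h : Good x y) : 0 < cb x y := by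
  have h1 := h.one
  have h2 := h.lt
  have hl : 0 < Real.log x - Real.log y := sub_pos.mpr (Real.log_lt_log (by linarith) h2)
  unfold cb
  apply div_pos
  · have := key_ineq h.B1 h.B2
    have e : 2 * y - (2 * y - x) = x := by ring
    rw [e] at this
    linarith
  · apply mul_pos (mul_pos _ _) hl <;> linarith

/-! ### The potentials -/

theorem mm_le (s : ℝ) : mm s ≤ mm (1 / 3) := by
  rcases le_total s (1 / 3) with h | h
  · exact mm_mono h
  · rw [mm_right h]

theorem bm_adm : Adm bm := by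
  refine ⟨bm_smooth.continuous.measurable, ?_, fun s hs => bm_left hs⟩
  obtain ⟨M, hM⟩ := (isCompact_Icc (a := (0 : ℝ)) (b := 1)).exists_bound_of_continuousOn
    bm_smooth.continuous.continuousOn
  refine ⟨M, fun s => ?_⟩
  by_cases hs : s ∈ Icc (0 : ℝ) 1
  · exact hM s hs
  · have : bm s = 0 := by
      rw [mem_Icc, not_and_or, not_le, not_le] at hs
      rcases hs with hs | hs
      · exact bm_left (by linarith)
      · exact bm_right (by linarith)
    rw [this, abs_zero]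
    exact (norm_nonneg _).trans (hM 0 ⟨le_rfl, zero_le_one⟩)

/-- affine change of variable -/
noncomputable def el (δ s : ℝ) : ℝ := (s - 1 + 3 * δ) / (6 * δ)

/-- the outer bump -/
noncomputable def b2 (δ s : ℝ) : ℝ := 1 / (6 * δ) * bm (el δ s)

theorem el_deriv {δ : ℝ} (s : ℝ) : HasDerivAt (el δ) (1 / (6 * δ)) s := by
  unfold el
  exact (((hasDerivAt_id' s).sub_const 1).add_const (3 * δ)).div_const (6 * δ)

theorem el_smooth {δ : ℝ} : ContDiff ℝ ∞ (el δ) :=
  ((contDiff_id.sub contDiff_const).add contDiff_const).div_const _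

theorem b2_smooth {δ : ℝ} : ContDiff ℝ ∞ (b2 δ) := contDiff_const.mul (bm_smooth.comp el_smooth)

theorem b2_nonneg {δ : ℝ} (hδ : 0 < δ) (s : ℝ) : 0 ≤ b2 δ s :=
  mul_nonneg (by positivity) (bm_nonneg _)

theorem el_le {δ : ℝ} (hδ : 0 < δ) {s : ℝ} (hs : s ≤ 1 - 2 * δ) : el δ s ≤ 1 / 6 := by
  unfold el
  rw [div_le_div_iff₀ (by positivity) (by norm_num)]
  linarith

theorem el_ge {δ : ℝ} (hδ : 0 < δ) {s : ℝ} (hs : 1 - δ ≤ s) : 1 / 3 ≤ el δ s := by
  unfold el
  rw [div_le_div_iff₀ (by norm_num) (by positivity)]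
  linarith

theorem b2_left {δ : ℝ} (hδ : 0 < δ) {s : ℝ} (hs : s ≤ 1 - 2 * δ) : b2 δ s = 0 := by
  unfold b2
  rw [bm_left (el_le hδ hs), mul_zero]

theorem b2_right {δ : ℝ} (hδ : 0 < δ) {s : ℝ} (hs : 1 - δ ≤ s) : b2 δ s = 0 := by
  unfold b2
  rw [bm_right (el_ge hδ hs), mul_zero]

theorem b2_adm {δ : ℝ} (hδ : 0 < δ) (hδ1 : δ ≤ 1 / 4) : Adm (b2 δ) := by
  refine ⟨b2_smooth.continuous.measurable, ?_, fun s hs => b2_left hδ (by linarith)⟩
  obtain ⟨M, hM⟩ := bm_adm.bdd
  refine ⟨1 / (6 * δ) * M, fun s => ?_⟩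
  unfold b2
  rw [abs_mul, abs_of_nonneg (by positivity : (0 : ℝ) ≤ 1 / (6 * δ))]
  exact mul_le_mul_of_nonneg_left (hM _) (by positivity)

theorem Ig_b2 {δ : ℝ} (hδ : 0 < δ) (hδ1 : δ ≤ 1 / 4) (σ : ℝ) : Ig (b2 δ) σ = mm (el δ σ) := by
  have hd : ∀ s, HasDerivAt (fun s => mm (el δ s)) (b2 δ s) s := by
    intro s
    have := (mm_deriv (el δ s)).comp s (el_deriv (δ := δ) s)
    rw [mul_comm] at this
    exact this
  unfold Ig
  rw [intervalIntegral.integral_eq_sub_of_hasDerivAt (fun s _ => hd s)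
    (b2_smooth.continuous.intervalIntegrable _ _)]
  have : mm (el δ 0) = 0 := mm_left (el_le hδ (by linarith))
  rw [this, sub_zero]

/-- inner potential -/
noncomputable def P1 (n : ℕ) (s : ℝ) : ℝ := Gr n bm s

/-- outer potential -/
noncomputable def P2 (n : ℕ) (δ s : ℝ) : ℝ := Gr n (b2 δ) s

/-- the constant `2^(n/2)` -/
noncomputable def nu (n : ℕ) : ℝ := (2 : ℝ) ^ ((n : ℝ) / 2)

theorem nu_one : 1 ≤ nu n := Real.one_le_rpow (by norm_num) (by positivity)

theorem rpow_bounds {σ : ℝ} (h1 : 1 / 2 ≤ σ) (h2 : σ ≤ 1) :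
    1 ≤ σ ^ (-((n : ℝ) / 2)) ∧ σ ^ (-((n : ℝ) / 2)) ≤ nu n := by
  have h0 : 0 < σ := by linarith
  have hn : (0 : ℝ) ≤ n := Nat.cast_nonneg n
  constructor
  · exact Real.one_le_rpow_of_pos_of_le_one_of_nonpos h0 h2 (by linarith)
  · have h3 : σ ^ (-((n : ℝ) / 2)) ≤ (1 / 2 : ℝ) ^ (-((n : ℝ) / 2)) :=
      Real.rpow_le_rpow_of_nonpos (by norm_num) h1 (by linarith)
    refine h3.trans (le_of_eq ?_)
    unfold nu
    rw [one_div, Real.inv_rpow (by norm_num), Real.rpow_neg (by norm_num), inv_inv]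

theorem one_le_rpow' {σ : ℝ} (h1 : 0 < σ) (h2 : σ ≤ 1) : 1 ≤ σ ^ (-((n : ℝ) / 2)) := by
  have hn : (0 : ℝ) ≤ n := Nat.cast_nonneg n
  exact Real.one_le_rpow_of_pos_of_le_one_of_nonpos h1 h2 (by linarith)

theorem P1_nonneg {s : ℝ} (h0 : 0 ≤ s) (h1 : s ≤ 1) : 0 ≤ P1 n s :=
  Gr_nonneg bm_adm bm_nonneg h0 h1

theorem P2_nonneg {δ : ℝ} (hδ : 0 < δ) (hδ1 : δ ≤ 1 / 4) {s : ℝ} (h0 : 0 ≤ s) (h1 : s ≤ 1) :
    0 ≤ P2 n δ s :=
  Gr_nonneg (b2_adm hδ hδ1) (b2_nonneg hδ) h0 h1

/-- splitting of the potential -/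
theorem Gr_split {g : ℝ → ℝ} (h : Adm g) (s r : ℝ) :
    Gr n g s = (∫ σ in s..r, Kg n g σ) + Gr n g r := by
  unfold Gr
  rw [intervalIntegral.integral_add_adjacent_intervals (h.Kg_cont.intervalIntegrable _ _)
    (h.Kg_cont.intervalIntegrable _ _)]

/-- (a) the inner potential is big in the core -/
theorem P1_core {s : ℝ} (h0 : 0 ≤ s) (h1 : s ≤ 1 / 3) : 2 / 3 * mm (1 / 3) ≤ P1 n s := by
  unfold P1
  rw [Gr_split bm_adm s (1 / 3)]
  have h2 : 0 ≤ ∫ σ in s..(1 / 3), Kg n bm σ := by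
    apply intervalIntegral.integral_nonneg h1
    intro σ hσ
    unfold Kg
    exact mul_nonneg (Real.rpow_nonneg (h0.trans hσ.1) _) (mm_nonneg σ)
  have h3 : ∫ σ in (1 / 3 : ℝ)..1, mm (1 / 3) ≤ Gr n bm (1 / 3) := by
    unfold Gr
    apply intervalIntegral.integral_mono_on (by norm_num) intervalIntegrable_const
      (bm_adm.Kg_cont.intervalIntegrable _ _)
    intro σ hσ
    show mm (1 / 3) ≤ σ ^ (-((n : ℝ) / 2)) * mm σ
    rw [mm_right hσ.1]
    have := one_le_rpow' (n := n) (by linarith [hσ.1]) hσ.2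
    nlinarith [mm_pos]
  rw [intervalIntegral.integral_const, smul_eq_mul] at h3
  linarith

/-- (d) the inner potential is small near the boundary -/
theorem P1_bdry {δ : ℝ} (hδ1 : δ ≤ 1 / 4) {s : ℝ} (h0 : 1 - 2 * δ ≤ s) (h1 : s ≤ 1) :
    P1 n s ≤ 2 * δ * nu n * mm (1 / 3) := by
  have h3 : Gr n bm s ≤ ∫ σ in s..1, nu n * mm (1 / 3) := by
    unfold Gr
    apply intervalIntegral.integral_mono_on h1 (bm_adm.Kg_cont.intervalIntegrable _ _)
      intervalIntegrable_const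
    intro σ hσ
    have := rpow_bounds (n := n) (by linarith [hσ.1] : 1 / 2 ≤ σ) hσ.2
    exact mul_le_mul this.2 (mm_le σ) (mm_nonneg σ) (by linarith [nu_one (n := n)])
  rw [intervalIntegral.integral_const, smul_eq_mul] at h3
  have h4 : 0 ≤ nu n * mm (1 / 3) := mul_nonneg (by linarith [nu_one (n := n)]) mm_pos.le
  unfold P1
  nlinarith

/-- (b) the outer potential is bounded -/
theorem P2_le {δ : ℝ} (hδ : 0 < δ) (hδ1 : δ ≤ 1 / 4) {s : ℝ} (h1 : s ≤ 1) :
    P2 n δ s ≤ 2 * δ * nu n * mm (1 / 3) := by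
  have h4 : 0 ≤ nu n * mm (1 / 3) := mul_nonneg (by linarith [nu_one (n := n)]) mm_pos.le
  have hcase : ∀ s, 1 - 2 * δ ≤ s → s ≤ 1 → Gr n (b2 δ) s ≤ 2 * δ * nu n * mm (1 / 3) := by
    intro s h0 h1
    have h3 : Gr n (b2 δ) s ≤ ∫ σ in s..1, nu n * mm (1 / 3) := by
      unfold Gr
      apply intervalIntegral.integral_mono_on h1
        ((b2_adm hδ hδ1).Kg_cont.intervalIntegrable _ _) intervalIntegrable_const
      intro σ hσ
      have := rpow_bounds (n := n) (by linarith [hσ.1] : 1 / 2 ≤ σ) hσ.2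
      unfold Kg
      rw [Ig_b2 hδ hδ1]
      exact mul_le_mul this.2 (mm_le _) (mm_nonneg _) (by linarith [nu_one (n := n)])
    rw [intervalIntegral.integral_const, smul_eq_mul] at h3
    nlinarith
  unfold P2
  rcases le_total (1 - 2 * δ) s with h | h
  · exact hcase s h h1
  · rw [Gr_split (b2_adm hδ hδ1) s (1 - 2 * δ)]
    have : ∫ σ in s..(1 - 2 * δ), Kg n (b2 δ) σ = 0 := by
      rw [intervalIntegral.integral_congr (g := fun _ => 0)]
      · simp
      · intro σ hσ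
        rw [uIcc_of_le h] at hσ
        show σ ^ (-((n : ℝ) / 2)) * Ig (b2 δ) σ = 0
        rw [Ig_b2 hδ hδ1, mm_left (el_le hδ hσ.2), mul_zero]
    rw [this, zero_add]
    exact hcase _ le_rfl (by linarith)

/-- (c) the outer potential is bounded below in the outer shell -/
theorem P2_ge {δ : ℝ} (hδ : 0 < δ) (hδ1 : δ ≤ 1 / 4) {s : ℝ} (h0 : 0 ≤ s) (h1 : s ≤ 1 - δ) :
    δ * mm (1 / 3) ≤ P2 n δ s := by
  unfold P2
  have hA := b2_adm hδ hδ1
  rw [Gr_split hA s (1 - δ)]
  have h2 : 0 ≤ ∫ σ in s..(1 - δ), Kg n (b2 δ) σ := by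
    apply intervalIntegral.integral_nonneg h1
    intro σ hσ
    unfold Kg
    rw [Ig_b2 hδ hδ1]
    exact mul_nonneg (Real.rpow_nonneg (h0.trans hσ.1) _) (mm_nonneg _)
  have h3 : ∫ σ in (1 - δ)..1, mm (1 / 3) ≤ Gr n (b2 δ) (1 - δ) := by
    unfold Gr
    apply intervalIntegral.integral_mono_on (by linarith) intervalIntegrable_const
      (hA.Kg_cont.intervalIntegrable _ _)
    intro σ hσ
    show mm (1 / 3) ≤ σ ^ (-((n : ℝ) / 2)) * Ig (b2 δ) σ
    rw [Ig_b2 hδ hδ1, mm_right (el_ge hδ hσ.1)]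
    have := one_le_rpow' (n := n) (by linarith [hσ.1]) hσ.2
    nlinarith [mm_pos]
  rw [intervalIntegral.integral_const, smul_eq_mul] at h3
  linarith

end Pool.Agent.R207.AD
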