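import Pool.Agent.R207.AD2

set_option autoImplicit false

/-! # The coefficients -/

namespace Pool.Agent.R207.AD

open MeasureTheory Real Set Filter Topology
open scoped ContDiff
open Pool.Agent.R207.HH (L)
open Pool.Agent.R207.AC (bm bm_smooth bm_nonneg bm_left bm_right bm_pos mm mm_deriv mm_smooth mm_left
  mm_mono mm_nonneg mm_right mm_pos)

variable {n : ℕ}

/-- thickness parameter -/
noncomputable def dl (n : ℕ) (Z : ℝ) : ℝ := 1 / (36 * nu n * (1 + 6 * Z * nu n) ^ 2)

/-- strength of the inner shell -/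
noncomputable def al (n : ℕ) (Z : ℝ) : ℝ := 1 / (2 * dl n Z * nu n * mm (1 / 3))

/-- strength of the outer shell -/
noncomputable def be (n : ℕ) (Z : ℝ) : ℝ := Z / (dl n Z * mm (1 / 3))

variable {Z : ℝ}

theorem nu_pos : 0 < nu n := lt_of_lt_of_le one_pos nu_one

theorem dl_pos (hZ : 0 < Z) : 0 < dl n Z := by
  have := nu_pos (n := n)
  unfold dl
  positivity

theorem dl_le (hZ : 0 < Z) : dl n Z ≤ 1 / 36 := by
  have h := nu_one (n := n)
  have h0 := nu_pos (n := n)
  unfold dl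
  apply one_div_le_one_div_of_le (by norm_num)
  have h1 : 1 ≤ (1 + 6 * Z * nu n) ^ 2 := by
    have : 0 < 6 * Z * nu n := by positivity
    nlinarith
  nlinarith

theorem al_pos (hZ : 0 < Z) : 0 < al n Z := by
  have := nu_pos (n := n)
  have := dl_pos (n := n) hZ
  have := mm_pos
  unfold al
  positivity

theorem be_pos (hZ : 0 < Z) : 0 < be n Z := by
  have := dl_pos (n := n) hZ
  have := mm_pos
  unfold be
  positivity

/-- first explicit solution -/
noncomputable def q1 (n : ℕ) (Z s : ℝ) : ℝ := 1 + 2 * (al n Z * P1 n s) + be n Z * P2 n (dl n Z) s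

/-- second explicit solution -/
noncomputable def q2 (n : ℕ) (Z s : ℝ) : ℝ := 1 + al n Z * P1 n s + 2 * (be n Z * P2 n (dl n Z) s)

theorem X_nonneg (hZ : 0 < Z) {s : ℝ} (h0 : 0 ≤ s) (h1 : s ≤ 1) : 0 ≤ al n Z * P1 n s :=
  mul_nonneg (al_pos hZ).le (P1_nonneg h0 h1)

theorem Y_nonneg (hZ : 0 < Z) {s : ℝ} (h0 : 0 ≤ s) (h1 : s ≤ 1) : 0 ≤ be n Z * P2 n (dl n Z) s :=
  mul_nonneg (be_pos hZ).le (P2_nonneg (dl_pos hZ) (by linarith [dl_le (n := n) hZ]) h0 h1)

theorem Y_le (hZ : 0 < Z) {s : ℝ} (h1 : s ≤ 1) : be n Z * P2 n (dl n Z) s ≤ 2 * Z * nu n := by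
  have hd := dl_pos (n := n) hZ
  have hm := mm_pos
  have := mul_le_mul_of_nonneg_left
    (P2_le (n := n) hd (by linarith [dl_le (n := n) hZ]) h1) (be_pos (n := n) hZ).le
  refine this.trans (le_of_eq ?_)
  unfold be
  field_simp

theorem Y_ge (hZ : 0 < Z) {s : ℝ} (h0 : 0 ≤ s) (h1 : s ≤ 1 - dl n Z) :
    Z ≤ be n Z * P2 n (dl n Z) s := by
  have hd := dl_pos (n := n) hZ
  have hm := mm_pos
  have := mul_le_mul_of_nonneg_left
    (P2_ge (n := n) hd (by linarith [dl_le (n := n) hZ]) h0 h1) (be_pos (n := n) hZ).le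
  refine le_trans (le_of_eq ?_) this
  unfold be
  field_simp

theorem X_le (hZ : 0 < Z) {s : ℝ} (h0 : 1 - 2 * dl n Z ≤ s) (h1 : s ≤ 1) : al n Z * P1 n s ≤ 1 := by
  have hd := dl_pos (n := n) hZ
  have hm := mm_pos
  have hν := nu_pos (n := n)
  have := mul_le_mul_of_nonneg_left
    (P1_bdry (n := n) (by linarith [dl_le (n := n) hZ]) h0 h1) (al_pos (n := n) hZ).le
  refine this.trans (le_of_eq ?_)
  unfold al
  field_simp

theorem X_ge (hZ : 0 < Z) {s : ℝ} (h0 : 0 ≤ s) (h1 : s ≤ 1 / 3) :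
    12 * (1 + 6 * Z * nu n) ^ 2 ≤ al n Z * P1 n s := by
  have hd := dl_pos (n := n) hZ
  have hm := mm_pos
  have hν := nu_pos (n := n)
  have := mul_le_mul_of_nonneg_left (P1_core (n := n) h0 h1) (al_pos (n := n) hZ).le
  refine le_trans (le_of_eq ?_) this
  have e : al n Z * (2 / 3 * mm (1 / 3)) = 1 / (3 * dl n Z * nu n) := by
    unfold al
    field_simp
  rw [e]
  unfold dl
  field_simp
  norm_num

/-- the inner shell -/
theorem good_in (hZ : 192 ≤ Z) {s : ℝ} (h0 : 0 ≤ s) (h1 : s ≤ 1 / 3) :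
    Good (q1 n Z s) (q2 n Z s) ∧ Z ≤ q1 n Z s := by
  have hZ0 : 0 < Z := by linarith
  have hν := nu_one (n := n)
  have hX := X_ge (n := n) hZ0 h0 h1
  have hY := Y_le (n := n) hZ0 (by linarith : s ≤ 1)
  have hY0 := Y_nonneg (n := n) hZ0 h0 (by linarith : s ≤ 1)
  have hW : Z ≤ Z * nu n := by nlinarith
  unfold q1 q2
  set X := al n Z * P1 n s with hXd
  set Y := be n Z * P2 n (dl n Z) s with hYd
  set W := Z * nu n with hWd
  have hX' : 12 * (1 + 6 * W) ^ 2 ≤ X := by
    have : 6 * Z * nu n = 6 * W := by rw [hWd]; ring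
    rwa [this] at hX
  have hY' : Y ≤ 2 * W := by
    have : 2 * Z * nu n = 2 * W := by rw [hWd]; ring
    rwa [this] at hY
  have hXW : W ≤ X := by nlinarith
  refine ⟨⟨by nlinarith, by nlinarith, by linarith, ?_⟩, by nlinarith⟩
  have e : 2 * (1 + X + 2 * Y) - (1 + 2 * X + Y) = 1 + 3 * Y := by ring
  rw [e]
  have : (1 + 3 * Y) ^ 2 ≤ (1 + 6 * W) ^ 2 := by
    apply pow_le_pow_left₀ (by linarith)
    linarith
  nlinarith

/-- the outer shell -/
theorem good_out (hZ : 192 ≤ Z) {s : ℝ} (h0 : 1 - 2 * dl n Z ≤ s) (h1 : s ≤ 1 - dl n Z) :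
    Good (q2 n Z s) (q1 n Z s) ∧ Z ≤ q1 n Z s := by
  have hZ0 : 0 < Z := by linarith
  have hd := dl_le (n := n) hZ0
  have hd0 := dl_pos (n := n) hZ0
  have hs0 : 0 ≤ s := by linarith
  have hs1 : s ≤ 1 := by linarith
  have hX := X_le (n := n) hZ0 h0 hs1
  have hX0 := X_nonneg (n := n) hZ0 hs0 hs1
  have hY := Y_ge (n := n) hZ0 hs0 h1
  unfold q1 q2
  set X := al n Z * P1 n s with hXd
  set Y := be n Z * P2 n (dl n Z) s with hYd
  refine ⟨⟨by linarith, by linarith, by linarith, ?_⟩, by linarith⟩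
  have e : 2 * (1 + 2 * X + Y) - (1 + X + 2 * Y) = 1 + 3 * X := by ring
  rw [e]
  nlinarith

theorem q1_ge (hZ : 0 < Z) {s : ℝ} (hs : s ∈ Icc (0 : ℝ) 1) : 1 ≤ q1 n Z s := by
  have := X_nonneg (n := n) hZ hs.1 hs.2
  have := Y_nonneg (n := n) hZ hs.1 hs.2
  unfold q1
  linarith

theorem q2_ge (hZ : 0 < Z) {s : ℝ} (hs : s ∈ Icc (0 : ℝ) 1) : 1 ≤ q2 n Z s := by
  have := X_nonneg (n := n) hZ hs.1 hs.2
  have := Y_nonneg (n := n) hZ hs.1 hs.2
  unfold q2
  linarith

theorem P1_smooth : ContDiff ℝ ∞ (P1 n) := bm_adm.Gr_smooth bm_smooth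

theorem P2_smooth (hZ : 0 < Z) : ContDiff ℝ ∞ (P2 n (dl n Z)) :=
  (b2_adm (dl_pos hZ) (by linarith [dl_le (n := n) hZ])).Gr_smooth b2_smooth

theorem q1_smooth (hZ : 0 < Z) : ContDiff ℝ ∞ (q1 n Z) :=
  (contDiff_const.add (contDiff_const.mul (contDiff_const.mul P1_smooth))).add
    (contDiff_const.mul (P2_smooth hZ))

theorem q2_smooth (hZ : 0 < Z) : ContDiff ℝ ∞ (q2 n Z) :=
  (contDiff_const.add (contDiff_const.mul P1_smooth)).add
    (contDiff_const.mul (contDiff_const.mul (P2_smooth hZ)))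

/-- coefficient of `u` -/
noncomputable def AA (n : ℕ) (Z s : ℝ) : ℝ :=
  bm s * (al n Z * ca (q1 n Z s) (q2 n Z s)) +
    b2 (dl n Z) s * (be n Z * ca (q2 n Z s) (q1 n Z s))

/-- free coefficient -/
noncomputable def HF (n : ℕ) (Z s : ℝ) : ℝ :=
  bm s * (al n Z * cb (q1 n Z s) (q2 n Z s)) +
    b2 (dl n Z) s * (be n Z * cb (q2 n Z s) (q1 n Z s))

/-- product of a bump with a function smooth on its support -/
theorem smooth_mul {g F : ℝ → ℝ} {p r : ℝ} (hg : ContDiff ℝ ∞ g) (hl : ∀ s, s ≤ p → g s = 0)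
    (hr : ∀ s, r ≤ s → g s = 0) (hF : ∀ s ∈ Icc p r, ContDiffAt ℝ ∞ F s) :
    ContDiff ℝ ∞ (fun s => g s * F s) := by
  rw [contDiff_iff_contDiffAt]
  intro s
  rcases lt_or_ge s p with h | h
  · have : (fun s => g s * F s) =ᶠ[𝓝 s] fun _ => 0 := by
      filter_upwards [Iio_mem_nhds h] with t ht
      rw [hl t (le_of_lt ht), zero_mul]
    exact contDiffAt_const.congr_of_eventuallyEq this
  rcases le_or_gt s r with h' | h'
  · exact hg.contDiffAt.mul (hF s ⟨h, h'⟩)
  · have : (fun s => g s * F s) =ᶠ[𝓝 s] fun _ => 0 := by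
      filter_upwards [Ioi_mem_nhds h'] with t ht
      rw [hr t (le_of_lt ht), zero_mul]
    exact contDiffAt_const.congr_of_eventuallyEq this

theorem ca_smooth {x y : ℝ → ℝ} {s : ℝ} (hx : ContDiffAt ℝ ∞ x s) (hy : ContDiffAt ℝ ∞ y s)
    (hg : Good (x s) (y s)) : ContDiffAt ℝ ∞ (fun s => ca (x s) (y s)) s := by
  have h1 := hg.one
  have h2 := hg.lt
  have hx0 : x s ≠ 0 := by linarith [h1, h2] |> fun h : 0 < x s => h.ne'
  have hy0 : y s ≠ 0 := by linarith [h1] |> fun h : 0 < y s => h.ne'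
  have hl : 0 < Real.log (x s) - Real.log (y s) := sub_pos.mpr (Real.log_lt_log (by linarith) h2)
  unfold ca
  apply ContDiffAt.div
  · exact (contDiffAt_const.mul hy).sub hx
  · exact (hx.mul hy).mul ((hx.log hx0).sub (hy.log hy0))
  · exact mul_ne_zero (mul_ne_zero hx0 hy0) hl.ne'

theorem cb_smooth {x y : ℝ → ℝ} {s : ℝ} (hx : ContDiffAt ℝ ∞ x s) (hy : ContDiffAt ℝ ∞ y s)
    (hg : Good (x s) (y s)) : ContDiffAt ℝ ∞ (fun s => cb (x s) (y s)) s := by
  have h1 := hg.one
  have h2 := hg.lt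
  have hx0 : x s ≠ 0 := by linarith [h1, h2] |> fun h : 0 < x s => h.ne'
  have hy0 : y s ≠ 0 := by linarith [h1] |> fun h : 0 < y s => h.ne'
  have hl : 0 < Real.log (x s) - Real.log (y s) := sub_pos.mpr (Real.log_lt_log (by linarith) h2)
  unfold cb
  apply ContDiffAt.div
  · exact (hx.mul (hx.log hx0)).sub ((contDiffAt_const.mul hy).mul (hy.log hy0))
  · exact (hx.mul hy).mul ((hx.log hx0).sub (hy.log hy0))
  · exact mul_ne_zero (mul_ne_zero hx0 hy0) hl.ne'

theorem bm_cases (s : ℝ) : bm s = 0 ∨ (1 / 6 ≤ s ∧ s ≤ 1 / 3) := by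
  rcases le_total s (1 / 6) with h | h
  · exact Or.inl (bm_left h)
  rcases le_total s (1 / 3) with h' | h'
  · exact Or.inr ⟨h, h'⟩
  · exact Or.inl (bm_right h')

theorem b2_cases {δ : ℝ} (hδ : 0 < δ) (s : ℝ) : b2 δ s = 0 ∨ (1 - 2 * δ ≤ s ∧ s ≤ 1 - δ) := by
  rcases le_total s (1 - 2 * δ) with h | h
  · exact Or.inl (b2_left hδ h)
  rcases le_total s (1 - δ) with h' | h'
  · exact Or.inr ⟨h, h'⟩
  · exact Or.inl (b2_right hδ h')

theorem coef (hZ : 192 ≤ Z) : Coef (AA n Z) (HF n Z) := by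
  have hZ0 : 0 < Z := by linarith
  have hd0 := dl_pos (n := n) hZ0
  have hd1 := dl_le (n := n) hZ0
  have ha := al_pos (n := n) hZ0
  have hb := be_pos (n := n) hZ0
  have h1 := q1_smooth (n := n) hZ0
  have h2 := q2_smooth (n := n) hZ0
  constructor
  · apply ContDiff.add
    · apply smooth_mul (p := 1 / 6) (r := 1 / 3) bm_smooth (fun s => bm_left) (fun s => bm_right)
      intro s hs
      exact contDiffAt_const.mul (ca_smooth h1.contDiffAt h2.contDiffAt
        (good_in hZ (by linarith [hs.1]) hs.2).1)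
    · apply smooth_mul (p := 1 - 2 * dl n Z) (r := 1 - dl n Z) b2_smooth (fun s => b2_left hd0)
        (fun s => b2_right hd0)
      intro s hs
      exact contDiffAt_const.mul (ca_smooth h2.contDiffAt h1.contDiffAt (good_out hZ hs.1 hs.2).1)
  · apply ContDiff.add
    · apply smooth_mul (p := 1 / 6) (r := 1 / 3) bm_smooth (fun s => bm_left) (fun s => bm_right)
      intro s hs
      exact contDiffAt_const.mul (cb_smooth h1.contDiffAt h2.contDiffAt
        (good_in hZ (by linarith [hs.1]) hs.2).1)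
    · apply smooth_mul (p := 1 - 2 * dl n Z) (r := 1 - dl n Z) b2_smooth (fun s => b2_left hd0)
        (fun s => b2_right hd0)
      intro s hs
      exact contDiffAt_const.mul (cb_smooth h2.contDiffAt h1.contDiffAt (good_out hZ hs.1 hs.2).1)
  · intro s
    unfold AA
    apply add_nonneg
    · rcases bm_cases s with h | h
      · rw [h, zero_mul]
      · exact mul_nonneg (bm_nonneg s)
          (mul_nonneg ha.le (good_in (n := n) hZ (by linarith [h.1]) h.2).1.ca_pos.le)
    · rcases b2_cases hd0 s with h | h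
      · rw [h, zero_mul]
      · exact mul_nonneg (b2_nonneg hd0 s)
          (mul_nonneg hb.le (good_out (n := n) hZ h.1 h.2).1.ca_pos.le)
  · intro s
    unfold HF
    apply add_nonneg
    · rcases bm_cases s with h | h
      · rw [h, zero_mul]
      · exact mul_nonneg (bm_nonneg s)
          (mul_nonneg ha.le (good_in (n := n) hZ (by linarith [h.1]) h.2).1.cb_pos.le)
    · rcases b2_cases hd0 s with h | h
      · rw [h, zero_mul]
      · exact mul_nonneg (b2_nonneg hd0 s)
          (mul_nonneg hb.le (good_out (n := n) hZ h.1 h.2).1.cb_pos.le)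
  · intro s hs
    unfold AA
    rw [bm_left hs, b2_left hd0 (by linarith)]
    ring
  · intro s hs
    unfold HF
    rw [bm_left hs, b2_left hd0 (by linarith)]
    ring
  · intro s hs
    unfold AA
    rw [bm_right (by linarith), b2_right hd0 (by linarith)]
    ring
  · intro s hs
    unfold HF
    rw [bm_right (by linarith), b2_right hd0 (by linarith)]
    ring

/-- the shells are disjoint and the first explicit profile solves the nonlinear equation -/
theorem NN_q1 (hZ : 192 ≤ Z) (s : ℝ) : NN (AA n Z) (HF n Z) (q1 n Z) s =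
    2 * al n Z * bm s + be n Z * b2 (dl n Z) s := by
  have hZ0 : 0 < Z := by linarith
  have hd0 := dl_pos (n := n) hZ0
  have hd1 := dl_le (n := n) hZ0
  unfold NN AA HF
  rcases bm_cases s with h | h
  · rcases b2_cases hd0 s with h' | h'
    · rw [h, h']
      ring
    · have hg := (good_out (n := n) hZ h'.1 h'.2).1
      have h1 := hg.one
      have := cab_two (by linarith : 0 < q1 n Z s) hg.lt
      rw [h]
      linear_combination (b2 (dl n Z) s * be n Z) * this
  · have h' : b2 (dl n Z) s = 0 := b2_left hd0 (by linarith [h.2])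
    have hg := (good_in (n := n) hZ (by linarith [h.1]) h.2).1
    have h1 := hg.one
    have := cab_one (by linarith : 0 < q2 n Z s) hg.lt
    rw [h']
    linear_combination (bm s * al n Z) * this

theorem NN_q2 (hZ : 192 ≤ Z) (s : ℝ) : NN (AA n Z) (HF n Z) (q2 n Z) s =
    al n Z * bm s + 2 * be n Z * b2 (dl n Z) s := by
  have hZ0 : 0 < Z := by linarith
  have hd0 := dl_pos (n := n) hZ0
  have hd1 := dl_le (n := n) hZ0
  unfold NN AA HF
  rcases bm_cases s with h | h
  · rcases b2_cases hd0 s with h' | h'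
    · rw [h, h']
      ring
    · have hg := (good_out (n := n) hZ h'.1 h'.2).1
      have h1 := hg.one
      have := cab_one (by linarith : 0 < q1 n Z s) hg.lt
      rw [h]
      linear_combination (b2 (dl n Z) s * be n Z) * this
  · have h' : b2 (dl n Z) s = 0 := b2_left hd0 (by linarith [h.2])
    have hg := (good_in (n := n) hZ (by linarith [h.1]) h.2).1
    have h1 := hg.one
    have := cab_two (by linarith : 0 < q2 n Z s) hg.lt
    rw [h']
    linear_combination (bm s * al n Z) * this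

/-- linearity of the Green operator -/
theorem Gr_lin {g g' : ℝ → ℝ} (h : Adm g) (h' : Adm g') (a b s : ℝ) :
    Gr n (fun t => a * g t + b * g' t) s = a * Gr n g s + b * Gr n g' s := by
  have hI : ∀ σ, Ig (fun t => a * g t + b * g' t) σ = a * Ig g σ + b * Ig g' σ := by
    intro σ
    unfold Ig
    rw [intervalIntegral.integral_add ((h.ii _ _).const_mul a) ((h'.ii _ _).const_mul b),
      intervalIntegral.integral_const_mul, intervalIntegral.integral_const_mul]
  have hK : ∀ σ, Kg n (fun t => a * g t + b * g' t) σ = a * Kg n g σ + b * Kg n g' σ := by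
    intro σ
    unfold Kg
    rw [hI]
    ring
  unfold Gr
  simp only [hK]
  rw [intervalIntegral.integral_add ((h.Kg_cont.intervalIntegrable _ _).const_mul a)
    ((h'.Kg_cont.intervalIntegrable _ _).const_mul b),
    intervalIntegral.integral_const_mul, intervalIntegral.integral_const_mul]

theorem fix_q1 (hZ : 192 ≤ Z) (s : ℝ) :
    q1 n Z s = 1 + Gr n (NN (AA n Z) (HF n Z) (q1 n Z)) s := by
  have hZ0 : 0 < Z := by linarith
  have h : NN (AA n Z) (HF n Z) (q1 n Z) = fun t => 2 * al n Z * bm t + be n Z * b2 (dl n Z) t :=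
    funext fun t => NN_q1 hZ t
  rw [h, Gr_lin bm_adm (b2_adm (dl_pos hZ0) (by linarith [dl_le (n := n) hZ0]))]
  unfold q1 P1 P2
  ring

theorem fix_q2 (hZ : 192 ≤ Z) (s : ℝ) :
    q2 n Z s = 1 + Gr n (NN (AA n Z) (HF n Z) (q2 n Z)) s := by
  have hZ0 : 0 < Z := by linarith
  have h : NN (AA n Z) (HF n Z) (q2 n Z) = fun t => al n Z * bm t + 2 * be n Z * b2 (dl n Z) t :=
    funext fun t => NN_q2 hZ t
  rw [h, Gr_lin bm_adm (b2_adm (dl_pos hZ0) (by linarith [dl_le (n := n) hZ0]))]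
  unfold q2 P1 P2
  ring

end Pool.Agent.R207.AD
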