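import Pool.Agent.R207.AD3

set_option autoImplicit false

/-! # Barta inequality and the final theorem -/

namespace Pool.Agent.R207.AD

open MeasureTheory Real Set Filter Topology InnerProductSpace Laplacian
open scoped ContDiff
open Pool.Agent.R207.QC
open Pool.Agent.R207.HH (L)
open Pool.Agent.R207.AC

variable {n : ℕ}

/-- Barta inequality for test functions -/
theorem barta_test {Ω : Set (E n)} {ψ φ : E n → ℝ} (hψ : ContDiff ℝ ∞ ψ) (hpos : ∀ x, 0 < ψ x)
    (hφ : ContDiff ℝ ∞ φ) (hc : HasCompactSupport φ) (hs : tsupport φ ⊆ Ω) :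
    ∫ x in Ω, (-Δ ψ x / ψ x) * φ x ^ 2 ≤ ∫ x in Ω, ∑ i, Pd i φ x ^ 2 := by
  set θ : E n → ℝ := fun x => φ x / ψ x with hθ
  have hθs : ContDiff ℝ ∞ θ := hφ.div hψ fun x => (hpos x).ne'
  have hθφ : (fun x => θ x * ψ x) = φ := by
    ext x
    exact div_mul_cancel₀ _ (hpos x).ne'
  set ζ : E n → ℝ := fun x => θ x * φ x with hζ
  have hζs : ContDiff ℝ ∞ ζ := hθs.mul hφ
  have hζc : HasCompactSupport ζ := hc.mul_left
  have hζt : tsupport ζ ⊆ Ω := (closure_mono (Function.support_mul_subset_right θ φ)).trans hs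
  have hPφ : ∀ i x, Pd i φ x = θ x * Pd i ψ x + ψ x * Pd i θ x := by
    intro i x
    have h := congrFun (Pd_mul hθs hψ i) x
    rwa [hθφ] at h
  have hPζ : ∀ i x, Pd i ζ x = θ x * Pd i φ x + φ x * Pd i θ x := fun i x =>
    congrFun (Pd_mul hθs hφ i) x
  have hlap := lap_eq' hψ
  have hint : ∀ f : E n → ℝ, Continuous f → Integrable (fun x => f x * ζ x) (volume.restrict Ω) :=
    fun f hf => ((hf.mul hζs.continuous).integrable_of_hasCompactSupport hζc.mul_left).integrableOn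
  have hPψc : ∀ i, Continuous (Pd i ψ) := fun i => (Pd_smooth hψ i).continuous
  have hPζc : ∀ i, Continuous (Pd i ζ) := fun i => (Pd_smooth hζs i).continuous
  have hPφc : ∀ i, Continuous (Pd i φ) := fun i => (Pd_smooth hφ i).continuous
  have hI1 : ∀ i : Fin n, Integrable (fun x => Pd i ψ x * Pd i ζ x) (volume.restrict Ω) := fun i =>
    (((hPψc i).mul (hPζc i)).integrable_of_hasCompactSupport (Pd_compact hζc i).mul_left).integrableOn
  have hI2 : ∀ i : Fin n, Integrable (fun x => Pd i φ x ^ 2) (volume.restrict Ω) := fun i =>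
    sq_int (memLp_cpt (hPφc i) (Pd_compact hc i))
  have e1 : ∫ x in Ω, ∑ i, Pd i ψ x * Pd i ζ x = ∫ x in Ω, (-Δ ψ x / ψ x) * φ x ^ 2 := by
    rw [integral_finsetSum _ fun i _ => hI1 i]
    have : ∀ i : Fin n, ∫ x in Ω, Pd i ψ x * Pd i ζ x = -∫ x in Ω, Pd i (Pd i ψ) x * ζ x := fun i =>
      green_test hψ hζs hζc hζt i
    simp only [this]
    rw [Finset.sum_neg_distrib, ← integral_finsetSum _ fun i _ =>
      hint _ (Pd_smooth (Pd_smooth hψ i) i).continuous, ← integral_neg]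
    congr 1
    ext x
    rw [← Finset.sum_mul, ← congrFun hlap x]
    show -(Δ ψ x * (φ x / ψ x * φ x)) = -Δ ψ x / ψ x * φ x ^ 2
    ring
  rw [← e1]
  apply integral_mono
  · exact integrable_finsetSum _ fun i _ => hI1 i
  · exact integrable_finsetSum _ fun i _ => hI2 i
  · intro x
    apply Finset.sum_le_sum
    intro i _
    rw [hPζ]
    have h1 := hPφ i x
    have h2 : φ x = θ x * ψ x := (congrFun hθφ x).symm
    rw [h1, h2]
    have : (θ x * Pd i ψ x + ψ x * Pd i θ x) ^ 2 - Pd i ψ x * (θ x * (θ x * Pd i ψ x + ψ x * Pd i θ x) +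
        θ x * ψ x * Pd i θ x) = (ψ x * Pd i θ x) ^ 2 := by ring
    have h3 := sq_nonneg (ψ x * Pd i θ x)
    linarith

/-- weighted squares pass to the limit -/
theorem lim_wsq {f g : E n → ℝ} {F : ℕ → E n → ℝ} (hg : Continuous g)
    (hf : MemLp f 2 (volume.restrict (B n))) (hF : ∀ k, MemLp (F k) 2 (volume.restrict (B n)))
    (h : Tendsto (fun k => ∫ x in B n, (F k x - f x) ^ 2) atTop (𝓝 0)) :
    Tendsto (fun k => ∫ x in B n, g x * F k x ^ 2) atTop (𝓝 (∫ x in B n, g x * f x ^ 2)) := by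
  obtain ⟨M, hM0, hM⟩ := bdd_cont hg
  have hgi : ∀ u : E n → ℝ, Integrable u (volume.restrict (B n)) →
      Integrable (fun x => g x * u x) (volume.restrict (B n)) := fun u hu =>
    hu.bdd_mul (c := M) hg.aestronglyMeasurable (ae_B hM)
  have hgf : MemLp (fun x => g x * f x) 2 (volume.restrict (B n)) := by
    have := hf.mul (p := ⊤) (q := 2) (r := 2) (memLp_B hg ⊤)
    exact this
  have hd : ∀ k, MemLp (fun x => F k x - f x) 2 (volume.restrict (B n)) := fun k => (hF k).sub hf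
  have e : ∀ k, ∫ x in B n, g x * F k x ^ 2 = (∫ x in B n, g x * (F k x - f x) ^ 2) +
      (2 * (∫ x in B n, (g x * f x) * F k x) - ∫ x in B n, g x * f x ^ 2) := by
    intro k
    have hsub : Integrable (fun x => 2 * ((g x * f x) * F k x) - g x * f x ^ 2)
        (volume.restrict (B n)) := ((mul_int hgf (hF k)).const_mul 2).sub (hgi _ (sq_int hf))
    rw [← integral_const_mul, ← integral_sub ((mul_int hgf (hF k)).const_mul 2) (hgi _ (sq_int hf)),
      ← integral_add (hgi _ (sq_int (hd k))) hsub]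
    apply integral_congr_ae
    refine Eventually.of_forall fun x => ?_
    show g x * F k x ^ 2 = _
    ring
  simp only [e]
  have h0 : Tendsto (fun k => ∫ x in B n, g x * (F k x - f x) ^ 2) atTop (𝓝 0) := by
    apply squeeze_zero_norm (a := fun k => M * ∫ x in B n, (F k x - f x) ^ 2)
    · intro k
      rw [← integral_const_mul]
      apply norm_integral_le_of_norm_le ((sq_int (hd k)).const_mul M)
      refine ae_B fun x hx => ?_
      rw [norm_mul, Real.norm_eq_abs, Real.norm_eq_abs, abs_of_nonneg (sq_nonneg (F k x - f x))]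
      exact mul_le_mul_of_nonneg_right (hM x hx) (sq_nonneg _)
    · have := h.const_mul M
      rwa [mul_zero] at this
  have h1 := h0.add (((lim_mul hgf hf hF h).const_mul 2).sub_const (∫ x in B n, g x * f x ^ 2))
  have e2 : (0 : ℝ) + (2 * (∫ x in B n, (g x * f x) * f x) - ∫ x in B n, g x * f x ^ 2) =
      ∫ x in B n, g x * f x ^ 2 := by
    have : ∫ x in B n, (g x * f x) * f x = ∫ x in B n, g x * f x ^ 2 := by
      congr 1
      ext x
      ring
    rw [this]
    ring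
  rwa [e2] at h1

/-- Barta inequality on `H^1_0` of the ball -/
theorem barta {ψ κ : E n → ℝ} (hψ : ContDiff ℝ ∞ ψ) (hpos : ∀ x, 0 < ψ x) (hκ : Continuous κ)
    (hle : ∀ x ∈ B n, κ x * ψ x ≤ -Δ ψ x) {v : E n → ℝ} {W : Fin n → E n → ℝ}
    (hv : H10 (B n) v W) : ∫ x in B n, κ x * v x ^ 2 ≤ ∫ x in B n, ∑ i, W i x ^ 2 := by
  obtain ⟨hv2, hW2, φ, hφ, h1, h2⟩ := hv
  have hm1 : ∀ k, MemLp (φ k) 2 (volume.restrict (B n)) := fun k =>
    memLp_cpt (hφ k).1.continuous (hφ k).2.1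
  have hm2 : ∀ k i, MemLp (Pd i (φ k)) 2 (volume.restrict (B n)) := fun k i =>
    memLp_cpt (Pd_smooth (hφ k).1 i).continuous (Pd_compact (hφ k).2.1 i)
  have t1 := lim_wsq hκ hv2 hm1 h1
  have t2 : Tendsto (fun k => ∫ x in B n, ∑ i, Pd i (φ k) x ^ 2) atTop
      (𝓝 (∫ x in B n, ∑ i, W i x ^ 2)) := by
    rw [integral_finsetSum _ fun i _ => sq_int (hW2 i)]
    have : ∀ k, ∫ x in B n, ∑ i, Pd i (φ k) x ^ 2 = ∑ i, ∫ x in B n, Pd i (φ k) x ^ 2 := fun k =>
      integral_finsetSum _ fun i _ => sq_int (hm2 k i)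
    simp only [this]
    exact tendsto_finsetSum _ fun i _ => lim_sq (hW2 i) (fun k => hm2 k i) (h2 i)
  have hq : Continuous fun x => -Δ ψ x / ψ x :=
    (lap_smooth hψ).continuous.neg.div hψ.continuous fun x => (hpos x).ne'
  refine le_of_tendsto_of_tendsto' t1 t2 fun k => ?_
  refine le_trans ?_ (barta_test hψ hpos (hφ k).1 (hφ k).2.1 (hφ k).2.2)
  obtain ⟨M, -, hM⟩ := bdd_cont hκ
  obtain ⟨M', -, hM'⟩ := bdd_cont hq
  apply setIntegral_mono_on
  · exact (sq_int (hm1 k)).bdd_mul (c := M) hκ.aestronglyMeasurable (ae_B hM)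
  · exact (sq_int (hm1 k)).bdd_mul (c := M') hq.aestronglyMeasurable (ae_B hM')
  · exact Metric.isOpen_ball.measurableSet
  · intro x hx
    apply mul_le_mul_of_nonneg_right _ (sq_nonneg _)
    rw [le_div_iff₀ (hpos x)]
    exact hle x hx

/-- lower bound for the first eigenvalue from an integral inequality -/
theorem first_ge {c : E n → ℝ} {γ : ℝ} (hc : Continuous c) (h0 : ∀ x, 0 ≤ c x)
    (hne : ∃ x ∈ B n, c x ≠ 0)
    (H : ∀ (v : E n → ℝ) (W : Fin n → E n → ℝ), H10 (B n) v W →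
      γ * ∫ x in B n, c x * v x ^ 2 ≤ ∫ x in B n, ∑ i, W i x ^ 2) :
    γ ≤ firstEigenvalue (B n) c := by
  unfold firstEigenvalue
  apply le_csInf
  · obtain ⟨x0, hx0, hcx⟩ := hne
    obtain ⟨f, hf1, hf2⟩ : ∃ f : E n → ℝ, H10 (B n) f (fun i => Pd i f) ∧
        (Continuous f ∧ ∀ x ∈ B n, f x ≠ 0) := by
      have hs : ContDiff ℝ ∞ (fun s : ℝ => 1 - s) := contDiff_const.sub contDiff_id
      refine ⟨fun x => 1 - qq x, H10_radial hs (by norm_num), ?_, ?_⟩
      · exact continuous_const.sub qq_smooth.continuous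
      · intro x hx
        have := mem_B.mp hx
        intro h
        linarith
    refine ⟨_, f, _, hf1, ?_, rfl⟩
    have hcont : Continuous fun x => c x * f x ^ 2 := hc.mul (hf2.1.pow 2)
    have hnn : 0 ≤ fun x => c x * f x ^ 2 := fun x => mul_nonneg (h0 x) (sq_nonneg _)
    rw [setIntegral_pos_iff_support_of_nonneg_ae (Eventually.of_forall hnn)
      ((memLp_B hcont 1).integrable le_rfl)]
    have ho : IsOpen (Function.support (fun x => c x * f x ^ 2) ∩ B n) :=
      hcont.isOpen_support.inter Metric.isOpen_ball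
    exact ho.measure_pos volume ⟨x0, mul_ne_zero hcx (pow_ne_zero 2 (hf2.2 x0 hx0)), hx0⟩
  · rintro R ⟨v, W, hv, hpos, rfl⟩
    rw [le_div_iff₀ hpos]
    exact H v W hv

/-- lower bound for weak eigenvalues from an integral inequality -/
theorem eig_ge {c : E n → ℝ} {γ : ℝ} (hn : 1 ≤ n) (h0 : ∀ x, 0 ≤ c x)
    (H : ∀ (v : E n → ℝ) (W : Fin n → E n → ℝ), H10 (B n) v W →
      γ * ∫ x in B n, c x * v x ^ 2 ≤ ∫ x in B n, ∑ i, W i x ^ 2)
    {γ' : ℝ} (hγ : IsEigenvalue (B n) c γ') : γ ≤ γ' := by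
  obtain ⟨φ, G, hφ, hne, heq⟩ := hγ
  have h1 := heq φ G hφ
  have e1 : ∫ x in B n, ∑ i, G i x * G i x = ∫ x in B n, ∑ i, G i x ^ 2 := by
    congr 1
    ext x
    apply Finset.sum_congr rfl
    intro i _
    ring
  have e2 : ∫ x in B n, c x * φ x * φ x = ∫ x in B n, c x * φ x ^ 2 := by
    congr 1
    ext x
    ring
  rw [e1, e2] at h1
  have hp := poincare hφ
  have hI0 : 0 ≤ ∫ x in B n, c x * φ x ^ 2 :=
    integral_nonneg fun x => mul_nonneg (h0 x) (sq_nonneg _)
  have hn' : (0 : ℝ) < n := by exact_mod_cast hn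
  have hφ0 : 0 < ∫ x in B n, φ x ^ 2 := by
    have hnn : 0 ≤ ∫ x in B n, φ x ^ 2 := integral_nonneg fun x => sq_nonneg (φ x)
    rcases hnn.lt_or_eq with h | h
    · exact h
    · exfalso
      apply hne
      have := (integral_eq_zero_iff_of_nonneg (μ := volume.restrict (B n)) (f := fun x => φ x ^ 2)
        (fun x => sq_nonneg (φ x)) (sq_int hφ.1)).mp h.symm
      filter_upwards [this] with x hx
      exact pow_eq_zero_iff (two_ne_zero) |>.mp hx
  have hG0 : 0 < ∫ x in B n, ∑ i, G i x ^ 2 := by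
    have : 0 < (n : ℝ) ^ 2 * ∫ x in B n, φ x ^ 2 := by positivity
    linarith
  have hI : 0 < ∫ x in B n, c x * φ x ^ 2 := by
    rcases hI0.lt_or_eq with h | h
    · exact h
    · rw [← h, mul_zero] at h1
      linarith
  have h2 := H φ G hφ
  rw [h1] at h2
  exact le_of_mul_le_mul_right h2 hI

end Pool.Agent.R207.AD
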