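import Pool.Agent.R207.AD4

set_option autoImplicit false

/-! # Three solutions below the first eigenvalue -/

namespace Pool.Agent.R207.AD

open MeasureTheory Real Set Filter Topology InnerProductSpace Laplacian
open scoped ContDiff
open Pool.Agent.R207.QC
open Pool.Agent.R207.HH (L)
open Pool.Agent.R207.AC

variable {n : ℕ}

/-- weight function from a coefficient -/
noncomputable def wt (n : ℕ) (g : ℝ → ℝ) (s : ℝ) : ℝ := 4 * s ^ (1 - (n : ℝ) / 2) * g s

theorem wt_smooth {g : ℝ → ℝ} (hg : ContDiff ℝ ∞ g) (hl : ∀ s, s ≤ 1 / 6 → g s = 0) :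
    ContDiff ℝ ∞ (wt n g) := by
  rw [contDiff_iff_contDiffAt]
  intro s
  rcases lt_or_ge s (1 / 6) with h | h
  · have : wt n g =ᶠ[𝓝 s] fun _ => 0 := by
      filter_upwards [Iio_mem_nhds h] with t ht
      unfold wt
      rw [hl t (le_of_lt ht), mul_zero]
    exact contDiffAt_const.congr_of_eventuallyEq this
  · have h0 : (0 : ℝ) < s := by linarith
    exact (contDiffAt_const.mul (Real.contDiffAt_rpow_const_of_ne h0.ne')).mul hg.contDiffAt

/-- a profile gives a weak solution -/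
theorem sol_profile {A H C w : ℝ → ℝ} {lam : ℝ} (hc : Coef A H) (hCs : ContDiff ℝ ∞ C)
    (hCl : ∀ s, s ≤ 1 / 6 → C s = 0) (hAC : ∀ s, A s = lam * C s) (hw : ContDiff ℝ ∞ w)
    (h1 : ∀ s ∈ Icc (0 : ℝ) 1, 1 ≤ w s) (hfix : ∀ s, w s = 1 + Gr n (NN A H w) s) :
    IsSol (B n) (fun x => wt n C (qq x)) (fun _ => 1) (fun x => wt n H (qq x)) lam
      (fun x => lw w (qq x)) := by
  have hls := lw_smooth hw
  have hl1 : lw w 1 = 0 := by
    have : w 1 = 1 := by
      rw [hfix 1, Gr_one, add_zero]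
    unfold lw
    rw [this, vs_eq (by norm_num), Real.log_one]
  apply sol_of_classical hls hl1
  · exact (wt_smooth hCs hCl).continuous.comp qq_smooth.continuous
  · exact continuous_const
  · exact (wt_smooth hc.sH hc.lH).continuous.comp qq_smooth.continuous
  · intro x hx
    have h2 := lw_eqn hc hw h1 hfix (AC.qq_nonneg x) (mem_B.mp hx)
    rw [lap_rad hls, grad_rad hls, h2, hAC]
    unfold wt
    ring

theorem exists_point (hn : 1 ≤ n) {s : ℝ} (hs : 0 ≤ s) : ∃ x : E n, qq x = s := by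
  refine ⟨EuclideanSpace.single ⟨0, by omega⟩ (Real.sqrt s), ?_⟩
  unfold qq
  rw [PiLp.norm_single, Real.norm_eq_abs, sq_abs, Real.sq_sqrt hs]

/-- the solution at parameter zero is larger than one at `s = 1/4` -/
theorem strict {H w : ℝ → ℝ} (hc : Coef (fun _ => 0) H) (hw : ContDiff ℝ ∞ w)
    (h1 : ∀ s ∈ Icc (0 : ℝ) 1, 1 ≤ w s) (hfix : ∀ s, w s = 1 + Gr n (NN (fun _ => 0) H w) s)
    (hH : ∀ s, 1 / 6 < s → s < 1 / 4 → 0 < H s) : 1 < w (1 / 4) := by
  have hA := hc.NN_adm hw.continuous h1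
  have hnn := hc.NN_nonneg h1
  have h2 : 0 < Ig (NN (fun _ => 0) H w) (1 / 4) := by
    have h3 : Ig (NN (fun _ => 0) H w) (1 / 4) = Ig (NN (fun _ => 0) H w) (1 / 6) +
        ∫ t in (1 / 6 : ℝ)..(1 / 4), NN (fun _ => 0) H w t := by
      unfold Ig
      rw [intervalIntegral.integral_add_adjacent_intervals (hA.ii _ _) (hA.ii _ _)]
    rw [h3, hA.Ig_left le_rfl, zero_add]
    apply intervalIntegral.intervalIntegral_pos_of_pos_on (hA.ii _ _) _ (by norm_num)
    intro t ht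
    unfold NN
    have h4 := hH t ht.1 ht.2
    have h5 := h1 t ⟨by linarith [ht.1], by linarith [ht.2]⟩
    rw [zero_mul, zero_add]
    exact mul_pos h4 (by linarith)
  have h3 : ∀ σ, 1 / 4 ≤ σ → 0 < Ig (NN (fun _ => 0) H w) σ := by
    intro σ hσ
    refine lt_of_lt_of_le h2 ?_
    have h4 : Ig (NN (fun _ => 0) H w) σ = Ig (NN (fun _ => 0) H w) (1 / 4) +
        ∫ t in (1 / 4 : ℝ)..σ, NN (fun _ => 0) H w t := by
      unfold Ig
      rw [intervalIntegral.integral_add_adjacent_intervals (hA.ii _ _) (hA.ii _ _)]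
    have h5 : 0 ≤ ∫ t in (1 / 4 : ℝ)..σ, NN (fun _ => 0) H w t :=
      intervalIntegral.integral_nonneg hσ fun t _ => hnn t
    linarith
  rw [hfix (1 / 4)]
  have h4 : 0 < Gr n (NN (fun _ => 0) H w) (1 / 4) := by
    unfold Gr
    apply intervalIntegral.intervalIntegral_pos_of_pos_on (hA.Kg_cont.intervalIntegrable _ _) _
      (by norm_num)
    intro σ hσ
    exact mul_pos (Real.rpow_pos_of_pos (by linarith [hσ.1]) _) (h3 σ hσ.1.le)
  linarith

/-- Main theorem -/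
theorem main (hn : 1 ≤ n) {ε : ℝ} (hε : 0 < ε) :
    ∃ c h u₀ u₁ u₂ u₃ : E n → ℝ,
      (ContDiff ℝ ∞ c ∧ HasCompactSupport c ∧ tsupport c ⊆ B n) ∧
      (ContDiff ℝ ∞ h ∧ HasCompactSupport h ∧ tsupport h ⊆ B n) ∧
      (∀ x, 0 ≤ c x) ∧ (∀ x, 0 ≤ h x) ∧ (∃ x ∈ B n, 0 < h x) ∧
      (ContDiff ℝ ∞ u₀ ∧ ContDiff ℝ ∞ u₁ ∧ ContDiff ℝ ∞ u₂ ∧ ContDiff ℝ ∞ u₃) ∧
      IsSol (B n) c (fun _ => 1) h 0 u₀ ∧
      (∀ x ∈ B n, 0 ≤ u₀ x) ∧ (∃ x ∈ B n, 0 < c x * u₀ x) ∧
      IsSol (B n) c (fun _ => 1) h 1 u₁ ∧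
      IsSol (B n) c (fun _ => 1) h 1 u₂ ∧
      IsSol (B n) c (fun _ => 1) h 1 u₃ ∧
      (∃ x ∈ B n, u₂ x < u₁ x) ∧ (∃ x ∈ B n, u₁ x < u₂ x) ∧
      (∃ x ∈ B n, u₃ x < u₁ x) ∧ (∃ x ∈ B n, u₃ x < u₂ x) ∧
      1 < ε * firstEigenvalue (B n) c ∧
      (∀ γ, IsEigenvalue (B n) c γ → 1 < ε * γ) := by
  set Z : ℝ := max 192 (Real.exp (2 / ε)) with hZd
  have hZ : 192 ≤ Z := le_max_left _ _
  have hZ0 : 0 < Z := by linarith
  have hlogZ : 2 / ε ≤ Real.log Z := by
    rw [Real.le_log_iff_exp_le hZ0]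
    exact le_max_right _ _
  have hd0 := dl_pos (n := n) hZ0
  have hd1 := dl_le (n := n) hZ0
  have hcoef := coef (n := n) hZ
  have hq1s := q1_smooth (n := n) hZ0
  have hq2s := q2_smooth (n := n) hZ0
  have hq1 := fun s (hs : s ∈ Icc (0 : ℝ) 1) => q1_ge (n := n) hZ0 hs
  have hq2 := fun s (hs : s ∈ Icc (0 : ℝ) 1) => q2_ge (n := n) hZ0 hs
  have hf1 := fix_q1 (n := n) hZ
  have hf2 := fix_q2 (n := n) hZ
  have hcoef0 : Coef (fun _ => 0) (HF n Z) :=
    ⟨contDiff_const, hcoef.sH, fun _ => le_rfl, hcoef.nH, fun _ _ => rfl, hcoef.lH, fun _ _ => rfl,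
      hcoef.rH⟩
  -- the minimal solution
  set Q : ℝ → ℝ := fun s => min (q1 n Z s) (q2 n Z s) with hQ
  have hQc : Continuous Q := hq1s.continuous.min hq2s.continuous
  have hQ1 : ∀ s ∈ Icc (0 : ℝ) 1, 1 ≤ Q s := fun s hs => le_min (hq1 s hs) (hq2 s hs)
  have hQadm := hcoef.NN_adm hQc hQ1
  have hQsup : ∀ s ∈ Icc (0 : ℝ) 1, 1 + Gr n (NN (AA n Z) (HF n Z) Q) s ≤ Q s := by
    intro s hs
    apply le_min
    · rw [hf1 s]
      have := Gr_mono (n := n) hQadm (hcoef.NN_adm hq1s.continuous hq1)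
        (hcoef.mono hQ1 fun t _ => min_le_left _ _) hs.1 hs.2
      linarith
    · rw [hf2 s]
      have := Gr_mono (n := n) hQadm (hcoef.NN_adm hq2s.continuous hq2)
        (hcoef.mono hQ1 fun t _ => min_le_right _ _) hs.1 hs.2
      linarith
  obtain ⟨w, hws, hw1, hwQ, hwf⟩ := hcoef.exists_fix (n := n) hQc hQ1 hQsup
  -- the solution at parameter zero
  have h0sup : ∀ s ∈ Icc (0 : ℝ) 1, 1 + Gr n (NN (fun _ => 0) (HF n Z) (q1 n Z)) s ≤ q1 n Z s := by
    intro s hs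
    have h2 : Gr n (NN (fun _ => 0) (HF n Z) (q1 n Z)) s ≤
        Gr n (NN (AA n Z) (HF n Z) (q1 n Z)) s := by
      apply Gr_mono (hcoef0.NN_adm hq1s.continuous hq1) (hcoef.NN_adm hq1s.continuous hq1) _ hs.1 hs.2
      intro t
      by_cases ht : t ∈ Icc (0 : ℝ) 1
      · unfold NN
        have h3 := hq1 t ht
        have h4 := mul_nonneg (hcoef.nA t) (Real.log_nonneg h3)
        apply mul_le_mul_of_nonneg_right _ (by linarith)
        linarith
      · rw [hcoef0.NN_out _ ht, hcoef.NN_out _ ht]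
    have := hf1 s
    linarith
  obtain ⟨w0, hw0s, hw01, -, hw0f⟩ := hcoef0.exists_fix (n := n) hq1s.continuous hq1 h0sup
  -- points
  obtain ⟨x0, hx0⟩ := exists_point (n := n) hn (by norm_num : (0 : ℝ) ≤ 1 / 4)
  obtain ⟨x1, hx1⟩ := exists_point (n := n) hn (by linarith : (0 : ℝ) ≤ 1 - dl n Z)
  have hx0B : x0 ∈ B n := mem_B.mpr (by rw [hx0]; norm_num)
  have hx1B : x1 ∈ B n := mem_B.mpr (by rw [hx1]; linarith)
  have hs0 : (1 / 4 : ℝ) ∈ Icc (0 : ℝ) 1 := by constructor <;> norm_num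
  have hs1 : 1 - dl n Z ∈ Icc (0 : ℝ) 1 := by constructor <;> linarith
  have hg0 := (good_in (n := n) hZ (by norm_num : (0 : ℝ) ≤ 1 / 4) (by norm_num)).1
  have hg1 := (good_out (n := n) hZ (by linarith : 1 - 2 * dl n Z ≤ 1 - dl n Z) le_rfl).1
  have hHpos : ∀ s, 1 / 6 < s → s < 1 / 3 → 0 < HF n Z s := by
    intro s h6 h3
    unfold HF
    have h4 := (good_in (n := n) hZ (by linarith : 0 ≤ s) h3.le).1.cb_pos
    rw [b2_left hd0 (by linarith), zero_mul, add_zero]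
    exact mul_pos (bm_pos h6 h3) (mul_pos (al_pos hZ0) h4)
  have hApos : 0 < AA n Z (1 / 4) := by
    unfold AA
    rw [b2_left hd0 (by linarith), zero_mul, add_zero]
    exact mul_pos (bm_pos (by norm_num) (by norm_num)) (mul_pos (al_pos hZ0) hg0.ca_pos)
  have hrp : ∀ s : ℝ, 0 ≤ s → 0 ≤ s ^ (1 - (n : ℝ) / 2) := fun s hs => Real.rpow_nonneg hs _
  have hcs := wt_smooth (n := n) hcoef.sA hcoef.lA
  have hhs := wt_smooth (n := n) hcoef.sH hcoef.lH
  have hcc := tsupport_B (f := fun x : E n => wt n (AA n Z) (qq x)) (r := 1 - dl n Z) (by linarith)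
    fun x hx => by
      unfold wt AA
      rw [AC.bm_right (by linarith), b2_right hd0 hx.le]
      ring
  have hhc := tsupport_B (f := fun x : E n => wt n (HF n Z) (qq x)) (r := 1 - dl n Z) (by linarith)
    fun x hx => by
      unfold wt HF
      rw [AC.bm_right (by linarith), b2_right hd0 hx.le]
      ring
  have hc0 : ∀ x : E n, 0 ≤ wt n (AA n Z) (qq x) := fun x =>
    mul_nonneg (mul_nonneg (by norm_num) (hrp _ (AC.qq_nonneg x))) (hcoef.nA _)
  have hh0 : ∀ x : E n, 0 ≤ wt n (HF n Z) (qq x) := fun x =>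
    mul_nonneg (mul_nonneg (by norm_num) (hrp _ (AC.qq_nonneg x))) (hcoef.nH _)
  have hcx0 : 0 < wt n (AA n Z) (qq x0) := by
    rw [hx0]
    exact mul_pos (mul_pos (by norm_num) (Real.rpow_pos_of_pos (by norm_num) _)) hApos
  -- eigenvalue bound
  have hbarta : ∀ (v : E n → ℝ) (W : Fin n → E n → ℝ), H10 (B n) v W →
      Real.log Z * ∫ x in B n, wt n (AA n Z) (qq x) * v x ^ 2 ≤ ∫ x in B n, ∑ i, W i x ^ 2 := by
    intro v W hv
    rw [← integral_const_mul]
    have hψ : ContDiff ℝ ∞ (fun s => vs (q1 n Z s)) := vs_smooth.comp hq1s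
    have h := barta (ψ := fun x => vs (q1 n Z (qq x)))
      (κ := fun x => Real.log Z * wt n (AA n Z) (qq x)) (hψ.comp qq_smooth) (fun x => vs_pos _)
      (continuous_const.mul (hcs.continuous.comp qq_smooth.continuous)) ?_ hv
    · refine le_trans (le_of_eq ?_) h
      congr 1
      ext x
      ring
    · intro x hx
      have hqx := mem_B.mp hx
      have hq0 := AC.qq_nonneg x
      have hqI : qq x ∈ Icc (0 : ℝ) 1 := ⟨hq0, hqx.le⟩
      rw [lap_rad hψ]
      have hv1 : vs (q1 n Z (qq x)) = q1 n Z (qq x) := vs_eq (by linarith [hq1 _ hqI])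
      have hev : (fun s => vs (q1 n Z s)) =ᶠ[𝓝 (qq x)] q1 n Z := by
        have h1 : ∀ᶠ t in 𝓝 (qq x), 1 / 2 < q1 n Z t :=
          hq1s.continuous.continuousAt.eventually_const_lt (by linarith [hq1 _ hqI])
        filter_upwards [h1] with t ht
        exact vs_eq ht.le
      have hL1 : L n (fun s => vs (q1 n Z s)) (qq x) = L n (q1 n Z) (qq x) := by
        unfold L
        rw [hev.deriv_eq, hev.deriv.deriv_eq]
      have hNadm := hcoef.NN_adm hq1s.continuous hq1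
      have hNc : Continuous (NN (AA n Z) (HF n Z) (q1 n Z)) :=
        (hcoef.NN_contDiff (k := 0) (by simpa using hq1s.continuous) hq1).continuous
      have hL2 : L n (q1 n Z) (qq x) =
          -(4 * (qq x) ^ (1 - (n : ℝ) / 2) * NN (AA n Z) (HF n Z) (q1 n Z) (qq x)) := by
        rw [← hNadm.L_Gr hNc (qq x)]
        have h2 : deriv (q1 n Z) = deriv (Gr n (NN (AA n Z) (HF n Z) (q1 n Z))) := by
          ext t
          have h3 : q1 n Z = fun s => 1 + Gr n (NN (AA n Z) (HF n Z) (q1 n Z)) s := funext hf1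
          conv_lhs => rw [h3]
          rw [deriv_const_add]
        unfold L
        rw [h2]
      rw [hL1, hL2, neg_neg, hv1]
      unfold wt NN
      have hr := hrp (qq x) hq0
      have hA := hcoef.nA (qq x)
      have hH := hcoef.nH (qq x)
      have hq := hq1 _ hqI
      -- on the support of the weight the profile is at least Z
      have hkey : AA n Z (qq x) * Real.log Z ≤ AA n Z (qq x) * Real.log (q1 n Z (qq x)) := by
        rcases bm_cases (qq x) with h1 | h1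
        · rcases b2_cases hd0 (qq x) with h2 | h2
          · have : AA n Z (qq x) = 0 := by
              unfold AA
              rw [h1, h2]
              ring
            rw [this]
            simp
          · apply mul_le_mul_of_nonneg_left _ hA
            exact Real.log_le_log hZ0 (good_out (n := n) hZ h2.1 h2.2).2
        · apply mul_le_mul_of_nonneg_left _ hA
          exact Real.log_le_log hZ0 (good_in (n := n) hZ (by linarith [h1.1]) h1.2).2
      have h5 : AA n Z (qq x) * Real.log Z ≤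
          AA n Z (qq x) * Real.log (q1 n Z (qq x)) + HF n Z (qq x) := by linarith
      have h6 := mul_le_mul_of_nonneg_right h5 (by linarith : 0 ≤ q1 n Z (qq x))
      have h7 := mul_le_mul_of_nonneg_left h6 (mul_nonneg (by norm_num : (0 : ℝ) ≤ 4) hr)
      refine le_trans (le_of_eq ?_) h7
      ring
  have hεγ : 1 < ε * Real.log Z := by
    have := mul_le_mul_of_nonneg_left hlogZ hε.le
    rw [mul_div_cancel₀ _ hε.ne'] at this
    linarith
  have hw0q : ∀ s ∈ Icc (0 : ℝ) 1, w s ≤ q1 n Z s ∧ w s ≤ q2 n Z s := fun s hs =>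
    ⟨(hwQ s hs).trans (min_le_left _ _), (hwQ s hs).trans (min_le_right _ _)⟩
  refine ⟨fun x => wt n (AA n Z) (qq x), fun x => wt n (HF n Z) (qq x), fun x => lw w0 (qq x),
    fun x => lw (q1 n Z) (qq x), fun x => lw (q2 n Z) (qq x), fun x => lw w (qq x),
    ⟨hcs.comp qq_smooth, hcc.1, hcc.2⟩, ⟨hhs.comp qq_smooth, hhc.1, hhc.2⟩, hc0, hh0,
    ⟨x0, hx0B, ?_⟩,
    ⟨(lw_smooth hw0s).comp qq_smooth, (lw_smooth hq1s).comp qq_smooth,
      (lw_smooth hq2s).comp qq_smooth, (lw_smooth hws).comp qq_smooth⟩,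
    sol_profile hcoef0 hcoef.sA hcoef.lA (fun s => (zero_mul _).symm) hw0s hw01 hw0f, ?_,
    ⟨x0, hx0B, ?_⟩,
    sol_profile hcoef hcoef.sA hcoef.lA (fun s => (one_mul _).symm) hq1s hq1 hf1,
    sol_profile hcoef hcoef.sA hcoef.lA (fun s => (one_mul _).symm) hq2s hq2 hf2,
    sol_profile hcoef hcoef.sA hcoef.lA (fun s => (one_mul _).symm) hws hw1 hwf,
    ⟨x0, hx0B, ?_⟩, ⟨x1, hx1B, ?_⟩, ⟨x0, hx0B, ?_⟩, ⟨x1, hx1B, ?_⟩, ?_, ?_⟩
  · show 0 < wt n (HF n Z) (qq x0)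
    rw [hx0]
    exact mul_pos (mul_pos (by norm_num) (Real.rpow_pos_of_pos (by norm_num) _))
      (hHpos _ (by norm_num) (by norm_num))
  · intro x hx
    have hqI : qq x ∈ Icc (0 : ℝ) 1 := ⟨AC.qq_nonneg x, (mem_B.mp hx).le⟩
    show 0 ≤ lw w0 (qq x)
    rw [lw_eq (hw01 _ hqI)]
    exact Real.log_nonneg (hw01 _ hqI)
  · show 0 < wt n (AA n Z) (qq x0) * lw w0 (qq x0)
    apply mul_pos hcx0
    rw [hx0, lw_eq (hw01 _ hs0)]
    exact Real.log_pos (strict hcoef0 hw0s hw01 hw0f fun s h6 h4 => hHpos s h6 (by linarith))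
  · show lw (q2 n Z) (qq x0) < lw (q1 n Z) (qq x0)
    rw [hx0, lw_eq (hq1 _ hs0), lw_eq (hq2 _ hs0)]
    exact Real.log_lt_log (by linarith [hq2 _ hs0]) hg0.lt
  · show lw (q1 n Z) (qq x1) < lw (q2 n Z) (qq x1)
    rw [hx1, lw_eq (hq1 _ hs1), lw_eq (hq2 _ hs1)]
    exact Real.log_lt_log (by linarith [hq1 _ hs1]) hg1.lt
  · show lw w (qq x0) < lw (q1 n Z) (qq x0)
    rw [hx0, lw_eq (hq1 _ hs0), lw_eq (hw1 _ hs0)]
    exact Real.log_lt_log (by linarith [hw1 _ hs0]) (lt_of_le_of_lt (hw0q _ hs0).2 hg0.lt)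
  · show lw w (qq x1) < lw (q2 n Z) (qq x1)
    rw [hx1, lw_eq (hq2 _ hs1), lw_eq (hw1 _ hs1)]
    exact Real.log_lt_log (by linarith [hw1 _ hs1]) (lt_of_le_of_lt (hw0q _ hs1).1 hg1.lt)
  · have h1 := first_ge (hcs.continuous.comp qq_smooth.continuous) hc0 ⟨x0, hx0B, hcx0.ne'⟩ hbarta
    have h2 := mul_le_mul_of_nonneg_left h1 hε.le
    exact lt_of_lt_of_le hεγ h2
  · intro γ hγ
    have h1 := eig_ge hn hc0 hbarta hγ
    have h2 := mul_le_mul_of_nonneg_left h1 hε.le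
    exact lt_of_lt_of_le hεγ h2

end Pool.Agent.R207.AD
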