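import Pool.Agent.R207.AD5

set_option autoImplicit false

/-! # Algebra and chain rule in `H^1_0`; the very weak identity for `e^u` -/

namespace Pool.Agent.R207.AF

open MeasureTheory Real Set Filter Topology InnerProductSpace Laplacian
open scoped ContDiff
open Pool.Agent.R207.QC
open Pool.Agent.R207.HH (L chi chi_smooth chi_one chi_zero)
open Pool.Agent.R207.AC

variable {n : ℕ}

theorem H10.congr {Ω : Set (E n)} {u u' : E n → ℝ} {G G' : Fin n → E n → ℝ} (h : H10 Ω u G)
    (hu : u =ᵐ[volume.restrict Ω] u') (hG : ∀ i, G i =ᵐ[volume.restrict Ω] G' i) : H10 Ω u' G' := by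
  obtain ⟨h1, h2, φ, hφ, h3, h4⟩ := h
  refine ⟨(memLp_congr_ae hu).mp h1, fun i => (memLp_congr_ae (hG i)).mp (h2 i), φ, hφ, ?_, fun i => ?_⟩
  · refine h3.congr fun k => integral_congr_ae ?_
    filter_upwards [hu] with x hx
    rw [hx]
  · refine (h4 i).congr fun k => integral_congr_ae ?_
    filter_upwards [hG i] with x hx
    rw [hx]

/-- a squeeze for squares -/
theorem sq_squeeze {Ω : Set (E n)} {a b : ℕ → E n → ℝ} {M : ℝ}
    (hb : ∀ k, Integrable (b k) (volume.restrict Ω))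
    (hle : ∀ k, ∀ᵐ x ∂(volume.restrict Ω), (a k x) ^ 2 ≤ M * b k x)
    (h : Tendsto (fun k => ∫ x in Ω, b k x) atTop (𝓝 0)) :
    Tendsto (fun k => ∫ x in Ω, (a k x) ^ 2) atTop (𝓝 0) := by
  have h1 : Tendsto (fun k => M * ∫ x in Ω, b k x) atTop (𝓝 0) := by
    have := h.const_mul M
    rwa [mul_zero] at this
  apply squeeze_zero (fun k => integral_nonneg fun x => sq_nonneg _) _ h1
  intro k
  rw [← integral_const_mul]
  apply integral_mono_of_nonneg (Eventually.of_forall fun x => sq_nonneg _) ((hb k).const_mul M)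
  exact hle k

theorem H10.add {Ω : Set (E n)} {u v : E n → ℝ} {G W : Fin n → E n → ℝ} (h : H10 Ω u G)
    (h' : H10 Ω v W) : H10 Ω (fun x => u x + v x) (fun i x => G i x + W i x) := by
  obtain ⟨hu, hG, φ, hφ, h1, h2⟩ := h
  obtain ⟨hv, hW, ψ, hψ, h3, h4⟩ := h'
  refine ⟨hu.add hv, fun i => (hG i).add (hW i), fun k x => φ k x + ψ k x, fun k => ?_, ?_, fun i => ?_⟩
  · refine ⟨(hφ k).1.add (hψ k).1, (hφ k).2.1.add (hψ k).2.1, ?_⟩
    exact (tsupport_add _ _).trans (union_subset (hφ k).2.2 (hψ k).2.2)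
  · have hi1 : ∀ k, Integrable (fun x => (φ k x - u x) ^ 2) (volume.restrict Ω) := fun k =>
      sq_int ((memLp_cpt (hφ k).1.continuous (hφ k).2.1).sub hu)
    have hi2 : ∀ k, Integrable (fun x => (ψ k x - v x) ^ 2) (volume.restrict Ω) := fun k =>
      sq_int ((memLp_cpt (hψ k).1.continuous (hψ k).2.1).sub hv)
    apply sq_squeeze (M := 2) (b := fun k x => (φ k x - u x) ^ 2 + (ψ k x - v x) ^ 2)
      (fun k => (hi1 k).add (hi2 k))
    · intro k
      refine Eventually.of_forall fun x => ?_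
      nlinarith [sq_nonneg ((φ k x - u x) - (ψ k x - v x))]
    · have := h1.add h3
      rw [add_zero] at this
      refine this.congr fun k => ?_
      rw [integral_add (hi1 k) (hi2 k)]
  · have hi1 : ∀ k, Integrable (fun x => (Pd i (φ k) x - G i x) ^ 2) (volume.restrict Ω) := fun k =>
      sq_int ((memLp_cpt (Pd_smooth (hφ k).1 i).continuous (Pd_compact (hφ k).2.1 i)).sub (hG i))
    have hi2 : ∀ k, Integrable (fun x => (Pd i (ψ k) x - W i x) ^ 2) (volume.restrict Ω) := fun k =>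
      sq_int ((memLp_cpt (Pd_smooth (hψ k).1 i).continuous (Pd_compact (hψ k).2.1 i)).sub (hW i))
    apply sq_squeeze (M := 2) (b := fun k x => (Pd i (φ k) x - G i x) ^ 2 + (Pd i (ψ k) x - W i x) ^ 2)
      (fun k => (hi1 k).add (hi2 k))
    · intro k
      refine Eventually.of_forall fun x => ?_
      show (Pd i (fun x => φ k x + ψ k x) x - (G i x + W i x)) ^ 2 ≤ _
      rw [Pd_add (hφ k).1 (hψ k).1]
      nlinarith [sq_nonneg ((Pd i (φ k) x - G i x) - (Pd i (ψ k) x - W i x))]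
    · have := (h2 i).add (h4 i)
      rw [add_zero] at this
      refine this.congr fun k => ?_
      rw [integral_add (hi1 k) (hi2 k)]

/-- multiplication by a smooth function on the ball -/
theorem H10.smul {v : E n → ℝ} {W : Fin n → E n → ℝ} (h : H10 (B n) v W) {ζ : E n → ℝ}
    (hζ : ContDiff ℝ ∞ ζ) :
    H10 (B n) (fun x => ζ x * v x) (fun i x => ζ x * W i x + v x * Pd i ζ x) := by
  obtain ⟨hv, hW, φ, hφ, h1, h2⟩ := h
  obtain ⟨M, hM0, hM⟩ := bdd_cont hζ.continuous
  have hmul : ∀ {g f : E n → ℝ}, Continuous g → MemLp f 2 (volume.restrict (B n)) →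
      MemLp (fun x => g x * f x) 2 (volume.restrict (B n)) := by
    intro g f hg hf
    exact hf.mul (p := ⊤) (q := 2) (r := 2) (memLp_B hg ⊤)
  have hmul' : ∀ {g f : E n → ℝ}, Continuous g → MemLp f 2 (volume.restrict (B n)) →
      MemLp (fun x => f x * g x) 2 (volume.restrict (B n)) := by
    intro g f hg hf
    have := hmul hg hf
    refine (memLp_congr_ae (Eventually.of_forall fun x => ?_)).mp this
    show g x * f x = f x * g x
    ring
  have hPc : ∀ i, Continuous (Pd i ζ) := fun i => (Pd_smooth hζ i).continuous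
  refine ⟨hmul hζ.continuous hv, fun i => (hmul hζ.continuous (hW i)).add (hmul' (hPc i) hv),
    fun k x => ζ x * φ k x, fun k => ?_, ?_, fun i => ?_⟩
  · refine ⟨hζ.mul (hφ k).1, (hφ k).2.1.mul_left, ?_⟩
    exact (closure_mono (Function.support_mul_subset_right ζ (φ k))).trans (hφ k).2.2
  · have hi1 : ∀ k, Integrable (fun x => (φ k x - v x) ^ 2) (volume.restrict (B n)) := fun k =>
      sq_int ((memLp_cpt (hφ k).1.continuous (hφ k).2.1).sub hv)
    apply sq_squeeze (M := M ^ 2) hi1 _ h1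
    intro k
    refine ae_B fun x hx => ?_
    have e : (ζ x * φ k x - ζ x * v x) ^ 2 = ζ x ^ 2 * (φ k x - v x) ^ 2 := by ring
    rw [e]
    apply mul_le_mul_of_nonneg_right _ (sq_nonneg _)
    rw [← sq_abs]
    exact pow_le_pow_left₀ (abs_nonneg _) (hM x hx) 2
  · obtain ⟨M', hM'0, hM'⟩ := bdd_cont (hPc i)
    have hi1 : ∀ k, Integrable (fun x => (φ k x - v x) ^ 2) (volume.restrict (B n)) := fun k =>
      sq_int ((memLp_cpt (hφ k).1.continuous (hφ k).2.1).sub hv)
    have hi2 : ∀ k, Integrable (fun x => (Pd i (φ k) x - W i x) ^ 2) (volume.restrict (B n)) :=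
      fun k => sq_int ((memLp_cpt (Pd_smooth (hφ k).1 i).continuous
        (Pd_compact (hφ k).2.1 i)).sub (hW i))
    apply sq_squeeze (M := 2 * (M ^ 2 + M' ^ 2))
      (b := fun k x => (φ k x - v x) ^ 2 + (Pd i (φ k) x - W i x) ^ 2) (fun k => (hi1 k).add (hi2 k))
    · intro k
      refine ae_B fun x hx => ?_
      show (Pd i (fun x => ζ x * φ k x) x - (ζ x * W i x + v x * Pd i ζ x)) ^ 2 ≤ _
      rw [Pd_mul hζ (hφ k).1]
      have a1 : ζ x ^ 2 ≤ M ^ 2 := by
        rw [← sq_abs]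
        exact pow_le_pow_left₀ (abs_nonneg _) (hM x hx) 2
      have a2 : Pd i ζ x ^ 2 ≤ M' ^ 2 := by
        rw [← sq_abs]
        exact pow_le_pow_left₀ (abs_nonneg _) (hM' x hx) 2
      set p := Pd i (φ k) x - W i x with hp
      set q := φ k x - v x with hq
      have e : ζ x * Pd i (φ k) x + φ k x * Pd i ζ x - (ζ x * W i x + v x * Pd i ζ x) =
          ζ x * p + q * Pd i ζ x := by
        rw [hp, hq]
        ring
      rw [e]
      have b1 : (ζ x * p + q * Pd i ζ x) ^ 2 ≤ 2 * (ζ x ^ 2 * p ^ 2) + 2 * (Pd i ζ x ^ 2 * q ^ 2) := by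
        nlinarith [sq_nonneg (ζ x * p - q * Pd i ζ x)]
      have b2 : ζ x ^ 2 * p ^ 2 ≤ M ^ 2 * p ^ 2 := mul_le_mul_of_nonneg_right a1 (sq_nonneg _)
      have b3 : Pd i ζ x ^ 2 * q ^ 2 ≤ M' ^ 2 * q ^ 2 := mul_le_mul_of_nonneg_right a2 (sq_nonneg _)
      have b4 : 0 ≤ M ^ 2 * q ^ 2 := by positivity
      have b5 : 0 ≤ M' ^ 2 * p ^ 2 := by positivity
      nlinarith
    · have := h1.add (h2 i)
      rw [add_zero] at this
      refine this.congr fun k => ?_
      rw [integral_add (hi1 k) (hi2 k)]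

/-- an almost everywhere convergent subsequence -/
theorem ae_subseq {Ω : Set (E n)} {u : E n → ℝ} {φ : ℕ → E n → ℝ}
    (hu : MemLp u 2 (volume.restrict Ω)) (hφ : ∀ k, MemLp (φ k) 2 (volume.restrict Ω))
    (h : Tendsto (fun k => ∫ x in Ω, (φ k x - u x) ^ 2) atTop (𝓝 0)) :
    ∃ ns : ℕ → ℕ, StrictMono ns ∧
      ∀ᵐ x ∂(volume.restrict Ω), Tendsto (fun k => φ (ns k) x) atTop (𝓝 (u x)) := by
  set f : ℕ → E n → ℝ := fun k x => (φ k x - u x) ^ 2 with hf
  have hfi : ∀ k, Integrable (f k) (volume.restrict Ω) := fun k => sq_int ((hφ k).sub hu)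
  have hm : TendstoInMeasure (volume.restrict Ω) f atTop (fun _ => (0 : ℝ)) := by
    apply tendstoInMeasure_of_tendsto_eLpNorm (p := 1) one_ne_zero
      (fun k => (hfi k).aestronglyMeasurable) aestronglyMeasurable_const
    have e : ∀ k, eLpNorm (f k - fun _ => (0 : ℝ)) 1 (volume.restrict Ω) =
        ENNReal.ofReal (∫ x in Ω, (φ k x - u x) ^ 2) := by
      intro k
      have e1 : (f k - fun _ => (0 : ℝ)) = f k := by
        ext x
        simp
      rw [e1, eLpNorm_one_eq_lintegral_enorm, ← ofReal_integral_norm_eq_lintegral_enorm (hfi k)]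
      congr 1
      apply integral_congr_ae
      refine Eventually.of_forall fun x => ?_
      show ‖(φ k x - u x) ^ 2‖ = _
      rw [Real.norm_eq_abs, abs_of_nonneg (sq_nonneg _)]
    simp only [e]
    have := ENNReal.tendsto_ofReal h
    rwa [ENNReal.ofReal_zero] at this
  obtain ⟨ns, hns, hae⟩ := hm.exists_seq_tendsto_ae
  refine ⟨ns, hns, ?_⟩
  filter_upwards [hae] with x hx
  have h1 : Tendsto (fun k => |φ (ns k) x - u x|) atTop (𝓝 0) := by
    have h2 := (Real.continuous_sqrt.tendsto 0).comp hx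
    rw [Real.sqrt_zero] at h2
    refine h2.congr fun k => ?_
    show Real.sqrt ((φ (ns k) x - u x) ^ 2) = _
    rw [Real.sqrt_sq_eq_abs]
  have h3 := (tendsto_zero_iff_abs_tendsto_zero _).mpr h1
  have h4 := h3.add_const (u x)
  rw [zero_add] at h4
  refine h4.congr fun k => ?_
  ring

end Pool.Agent.R207.AF
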