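import Pool.Agent.R207.AF1

set_option autoImplicit false

/-! # Chain rule in `H^1_0` and the very weak identity -/

namespace Pool.Agent.R207.AF

open MeasureTheory Real Set Filter Topology InnerProductSpace Laplacian
open scoped ContDiff
open Pool.Agent.R207.QC
open Pool.Agent.R207.HH (L chi chi_smooth chi_one chi_zero has_deriv deriv_smooth)
open Pool.Agent.R207.AC

variable {n : ℕ}

theorem Pd_chain {Θ : ℝ → ℝ} (hΘ : ContDiff ℝ ∞ Θ) {φ : E n → ℝ} (hφ : ContDiff ℝ ∞ φ) (i : Fin n)
    (x : E n) : Pd i (fun x => Θ (φ x)) x = deriv Θ (φ x) * Pd i φ x := by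
  have hq : HasFDerivAt φ (fderiv ℝ φ x) x := (hφ.differentiable (by simp) x).hasFDerivAt
  have h := (has_deriv hΘ (φ x)).comp_hasFDerivAt x hq
  have h3 : fderiv ℝ (fun x : E n => Θ (φ x)) x = _ := h.fderiv
  unfold Pd
  rw [h3]
  rfl

theorem H10.comp {Ω : Set (E n)} {u : E n → ℝ} {G : Fin n → E n → ℝ} (h : H10 Ω u G)
    {Θ : ℝ → ℝ} (hΘ : ContDiff ℝ ∞ Θ) (h0 : Θ 0 = 0) {K : ℝ} (hK : ∀ y, |deriv Θ y| ≤ K) :
    H10 Ω (fun x => Θ (u x)) (fun i x => deriv Θ (u x) * G i x) := by
  obtain ⟨hu, hG, φ', hφ', h1', h2'⟩ := h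
  have hm' : ∀ k, MemLp (φ' k) 2 (volume.restrict Ω) := fun k =>
    memLp_cpt (hφ' k).1.continuous (hφ' k).2.1
  obtain ⟨ns, hns, hae⟩ := ae_subseq hu hm' h1'
  set φ : ℕ → E n → ℝ := fun k => φ' (ns k) with hφd
  have hφ : ∀ k, ContDiff ℝ ∞ (φ k) ∧ HasCompactSupport (φ k) ∧ tsupport (φ k) ⊆ Ω := fun k => hφ' _
  have h1 : Tendsto (fun k => ∫ x in Ω, (φ k x - u x) ^ 2) atTop (𝓝 0) := h1'.comp hns.tendsto_atTop
  have h2 : ∀ i, Tendsto (fun k => ∫ x in Ω, (Pd i (φ k) x - G i x) ^ 2) atTop (𝓝 0) := fun i =>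
    (h2' i).comp hns.tendsto_atTop
  have hK0 : 0 ≤ K := (abs_nonneg _).trans (hK 0)
  have hΘ' := deriv_smooth hΘ
  have hlip : ∀ a b : ℝ, |Θ a - Θ b| ≤ K * |a - b| := by
    intro a b
    have := convex_univ.norm_image_sub_le_of_norm_deriv_le (f := Θ) (C := K)
      (fun x _ => hΘ.differentiable (by simp) x) (fun x _ => hK x) (mem_univ b) (mem_univ a)
    simpa only [Real.norm_eq_abs] using this
  have hlu : MemLp (fun x => Θ (u x)) 2 (volume.restrict Ω) := by
    apply MemLp.of_le_mul hu (hΘ.continuous.comp_aestronglyMeasurable hu.1) (c := K)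
    refine Eventually.of_forall fun x => ?_
    have := hlip (u x) 0
    rw [h0, sub_zero, sub_zero] at this
    exact this
  have hlG : ∀ i, MemLp (fun x => deriv Θ (u x) * G i x) 2 (volume.restrict Ω) := by
    intro i
    apply MemLp.of_le_mul (hG i)
      ((hΘ'.continuous.comp_aestronglyMeasurable hu.1).mul (hG i).1) (c := K)
    refine Eventually.of_forall fun x => ?_
    show ‖deriv Θ (u x) * G i x‖ ≤ K * ‖G i x‖
    rw [norm_mul]
    exact mul_le_mul_of_nonneg_right (hK _) (norm_nonneg _)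
  have hi1 : ∀ k, Integrable (fun x => (φ k x - u x) ^ 2) (volume.restrict Ω) := fun k =>
    sq_int ((memLp_cpt (hφ k).1.continuous (hφ k).2.1).sub hu)
  refine ⟨hlu, hlG, fun k x => Θ (φ k x), fun k => ?_, ?_, fun i => ?_⟩
  · refine ⟨hΘ.comp (hφ k).1, (hφ k).2.1.comp_left h0, ?_⟩
    exact (tsupport_comp_subset h0 (φ k)).trans (hφ k).2.2
  · apply sq_squeeze (M := K ^ 2) hi1 _ h1
    intro k
    refine Eventually.of_forall fun x => ?_
    have := hlip (φ k x) (u x)
    rw [← sq_abs (Θ (φ k x) - Θ (u x)), ← sq_abs (φ k x - u x), ← mul_pow]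
    exact pow_le_pow_left₀ (abs_nonneg _) this 2
  · have hi2 : ∀ k, Integrable (fun x => (Pd i (φ k) x - G i x) ^ 2) (volume.restrict Ω) := fun k =>
      sq_int ((memLp_cpt (Pd_smooth (hφ k).1 i).continuous (Pd_compact (hφ k).2.1 i)).sub (hG i))
    set D : ℕ → E n → ℝ := fun k x => (deriv Θ (φ k x) - deriv Θ (u x)) ^ 2 * G i x ^ 2 with hD
    have hDle : ∀ k x, D k x ≤ (2 * K) ^ 2 * G i x ^ 2 := by
      intro k x
      apply mul_le_mul_of_nonneg_right _ (sq_nonneg _)
      rw [← sq_abs]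
      apply pow_le_pow_left₀ (abs_nonneg _)
      have a := abs_sub (deriv Θ (φ k x)) (deriv Θ (u x))
      have b := hK (φ k x)
      have c := hK (u x)
      linarith
    have hD0 : ∀ k x, 0 ≤ D k x := fun k x => mul_nonneg (sq_nonneg _) (sq_nonneg _)
    have hDm : ∀ k, AEStronglyMeasurable (D k) (volume.restrict Ω) := fun k =>
      (((hΘ'.continuous.comp (hφ k).1.continuous).aestronglyMeasurable.sub
        (hΘ'.continuous.comp_aestronglyMeasurable hu.1)).pow 2).mul ((hG i).1.pow 2)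
    have hGi : Integrable (fun x => (2 * K) ^ 2 * G i x ^ 2) (volume.restrict Ω) :=
      (sq_int (hG i)).const_mul _
    have hDi : ∀ k, Integrable (D k) (volume.restrict Ω) := fun k =>
      hGi.mono' (hDm k) (Eventually.of_forall fun x => by
        rw [Real.norm_eq_abs, abs_of_nonneg (hD0 k x)]
        exact hDle k x)
    have hDl : Tendsto (fun k => ∫ x in Ω, D k x) atTop (𝓝 0) := by
      have e : (0 : ℝ) = ∫ x in Ω, (0 : ℝ) := by simp
      rw [e]
      apply tendsto_integral_of_dominated_convergence (fun x => (2 * K) ^ 2 * G i x ^ 2) hDm hGi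
      · intro k
        refine Eventually.of_forall fun x => ?_
        rw [Real.norm_eq_abs, abs_of_nonneg (hD0 k x)]
        exact hDle k x
      · filter_upwards [hae] with x hx
        have h3 : Tendsto (fun k => deriv Θ (φ k x)) atTop (𝓝 (deriv Θ (u x))) :=
          (hΘ'.continuous.tendsto _).comp hx
        have h4 := ((h3.sub_const (deriv Θ (u x))).pow 2).mul_const (G i x ^ 2)
        rw [sub_self, zero_pow two_ne_zero, zero_mul] at h4
        exact h4
    apply sq_squeeze (M := 2) (b := fun k x => K ^ 2 * (Pd i (φ k) x - G i x) ^ 2 + D k x)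
      (fun k => ((hi2 k).const_mul _).add (hDi k))
    · intro k
      refine Eventually.of_forall fun x => ?_
      show (Pd i (fun x => Θ (φ k x)) x - deriv Θ (u x) * G i x) ^ 2 ≤ _
      rw [Pd_chain hΘ (hφ k).1, hD]
      set p := Pd i (φ k) x - G i x with hp
      set q := deriv Θ (φ k x) - deriv Θ (u x) with hq
      have e : deriv Θ (φ k x) * Pd i (φ k) x - deriv Θ (u x) * G i x =
          deriv Θ (φ k x) * p + q * G i x := by
        rw [hp, hq]
        ring
      rw [e]
      have b1 : (deriv Θ (φ k x) * p + q * G i x) ^ 2 ≤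
          2 * (deriv Θ (φ k x) ^ 2 * p ^ 2) + 2 * (q ^ 2 * G i x ^ 2) := by
        nlinarith [sq_nonneg (deriv Θ (φ k x) * p - q * G i x)]
      have b2 : deriv Θ (φ k x) ^ 2 ≤ K ^ 2 := by
        rw [← sq_abs]
        exact pow_le_pow_left₀ (abs_nonneg _) (hK _) 2
      have b3 := mul_le_mul_of_nonneg_right b2 (sq_nonneg p)
      show _ ≤ 2 * (K ^ 2 * p ^ 2 + q ^ 2 * G i x ^ 2)
      linarith
    · have := ((h2 i).const_mul (K ^ 2)).add hDl
      rw [mul_zero, add_zero] at this
      refine this.congr fun k => ?_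
      rw [integral_add ((hi2 k).const_mul _) (hDi k), integral_const_mul]

/-- cut-off exponential: smooth, compactly supported, equal to `e^y - 1` for `|y| ≤ M` -/
noncomputable def ce (M y : ℝ) : ℝ := Real.exp (y * chi (y ^ 2 / (2 * (M ^ 2 + 1)))) - 1

theorem ce_smooth (M : ℝ) : ContDiff ℝ ∞ (ce M) := by
  have h1 : ContDiff ℝ ∞ (fun y : ℝ => chi (y ^ 2 / (2 * (M ^ 2 + 1)))) :=
    chi_smooth.comp ((contDiff_id.pow 2).div_const _)
  exact (Real.contDiff_exp.comp (contDiff_id.mul h1)).sub contDiff_const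

theorem ce_zero (M : ℝ) : ce M 0 = 0 := by
  unfold ce
  simp

theorem ce_eq_ev {M y : ℝ} (h : |y| ≤ M) : ce M =ᶠ[𝓝 y] fun y => Real.exp y - 1 := by
  have ho : IsOpen {z : ℝ | z ^ 2 < M ^ 2 + 1} := isOpen_lt (continuous_pow 2) continuous_const
  have hy : y ∈ {z : ℝ | z ^ 2 < M ^ 2 + 1} := by
    show y ^ 2 < M ^ 2 + 1
    have := pow_le_pow_left₀ (abs_nonneg y) h 2
    rw [sq_abs] at this
    linarith
  filter_upwards [ho.mem_nhds hy] with z hz
  unfold ce
  rw [chi_one, mul_one]
  have hz' : z ^ 2 < M ^ 2 + 1 := hz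
  rw [div_le_div_iff₀ (by positivity) (by norm_num)]
  linarith

theorem ce_eq {M y : ℝ} (h : |y| ≤ M) : ce M y = Real.exp y - 1 := (ce_eq_ev h).eq_of_nhds

theorem ce_deriv {M y : ℝ} (h : |y| ≤ M) : deriv (ce M) y = Real.exp y := by
  rw [(ce_eq_ev h).deriv_eq]
  exact ((Real.hasDerivAt_exp y).sub_const 1).deriv

theorem ce_bound (M : ℝ) : ∃ K : ℝ, ∀ y, |deriv (ce M) y| ≤ K := by
  have hc : HasCompactSupport (ce M) := by
    apply HasCompactSupport.intro (isCompact_Icc (a := -(2 * (M ^ 2 + 1))) (b := 2 * (M ^ 2 + 1)))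
    intro y hy
    have hy2 : 2 * (M ^ 2 + 1) ≤ y ^ 2 := by
      rw [mem_Icc, not_and_or, not_le, not_le] at hy
      have : 1 ≤ 2 * (M ^ 2 + 1) := by nlinarith [sq_nonneg M]
      rcases hy with hy | hy <;> nlinarith
    unfold ce
    rw [chi_zero, mul_zero, Real.exp_zero, sub_self]
    rw [le_div_iff₀ (by positivity)]
    linarith
  have hd : HasCompactSupport (deriv (ce M)) := hc.deriv
  obtain ⟨K, hK⟩ := hd.exists_bound_of_continuous (deriv_smooth (ce_smooth M)).continuous
  exact ⟨K, fun y => hK y⟩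

/-- `e^u - 1` belongs to `H^1_0` -/
theorem H10.exp {Ω : Set (E n)} {u : E n → ℝ} {G : Fin n → E n → ℝ} (h : H10 Ω u G)
    (hb : Bdd Ω u) :
    H10 Ω (fun x => Real.exp (u x) - 1) (fun i x => Real.exp (u x) * G i x) := by
  obtain ⟨M, hM⟩ := hb
  obtain ⟨K, hK⟩ := ce_bound M
  have h1 := H10.comp h (ce_smooth M) (ce_zero M) hK
  apply H10.congr h1
  · filter_upwards [hM] with x hx
    exact ce_eq hx
  · intro i
    filter_upwards [hM] with x hx
    rw [ce_deriv hx]

/-- the very weak identity for `e^u` -/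
theorem very_weak {c h : E n → ℝ} {lam : ℝ} {u : E n → ℝ} (hc : Continuous c) (hh : Continuous h)
    (hu : IsSol (B n) c (fun _ => 1) h lam u) {f : ℝ → ℝ} (hf : ContDiff ℝ ∞ f) (h1 : f 1 = 0) :
    ∫ x in B n, -Δ (fun x : E n => f (qq x)) x * (Real.exp (u x) - 1) =
      ∫ x in B n, (lam * (c x * u x) + h x) * (Real.exp (u x) * f (qq x)) := by
  obtain ⟨G, hG, hb, hw⟩ := hu
  have hφs : ContDiff ℝ ∞ (fun x : E n => f (qq x)) := hf.comp qq_smooth
  set φ : E n → ℝ := fun x => f (qq x) with hφd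
  have hφ : H10 (B n) φ (fun i => Pd i φ) := H10_radial hf h1
  have he := H10.exp hG hb
  have hprod := H10.smul he hφs
  have htest := H10.add hprod hφ
  obtain ⟨M, hM⟩ := hb
  obtain ⟨Mf, hMf0, hMf⟩ := bdd_cont hφs.continuous
  -- bounded measurable exponential
  have hem : AEStronglyMeasurable (fun x => Real.exp (u x)) (volume.restrict (B n)) :=
    Real.continuous_exp.comp_aestronglyMeasurable hG.1.1
  have heb : ∀ᵐ x ∂(volume.restrict (B n)), ‖Real.exp (u x)‖ ≤ Real.exp M := by
    filter_upwards [hM] with x hx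
    rw [Real.norm_eq_abs, abs_of_pos (Real.exp_pos _)]
    exact Real.exp_le_exp.mpr ((le_abs_self _).trans hx)
  have hem2 : MemLp (fun x => Real.exp (u x)) 2 (volume.restrict (B n)) :=
    MemLp.of_bound hem _ heb
  have hmemE : ∀ {g : E n → ℝ}, MemLp g 2 (volume.restrict (B n)) →
      MemLp (fun x => Real.exp (u x) * g x) 2 (volume.restrict (B n)) := by
    intro g hg
    apply MemLp.of_le_mul hg (hem.mul hg.1) (c := Real.exp M)
    filter_upwards [heb] with x hx
    show ‖Real.exp (u x) * g x‖ ≤ Real.exp M * ‖g x‖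
    rw [norm_mul]
    exact mul_le_mul_of_nonneg_right hx (norm_nonneg _)
  have hv : H10 (B n) (fun x => Real.exp (u x) * φ x)
      (fun i x => Real.exp (u x) * φ x * G i x + Real.exp (u x) * Pd i φ x) := by
    apply H10.congr htest
    · refine Eventually.of_forall fun x => ?_
      show φ x * (Real.exp (u x) - 1) + φ x = Real.exp (u x) * φ x
      ring
    · intro i
      refine Eventually.of_forall fun x => ?_
      show φ x * (Real.exp (u x) * G i x) + (Real.exp (u x) - 1) * Pd i φ x + Pd i φ x =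
        Real.exp (u x) * φ x * G i x + Real.exp (u x) * Pd i φ x
      ring
  have hvb : Bdd (B n) (fun x => Real.exp (u x) * φ x) := by
    refine ⟨Real.exp M * Mf, ?_⟩
    filter_upwards [heb, ae_B hMf] with x hx hx2
    rw [abs_mul]
    exact mul_le_mul hx hx2 (abs_nonneg _) (Real.exp_pos _).le
  have hid := hw _ _ hv hvb
  -- integrability
  have iG2 : Integrable (fun x => ∑ i, G i x ^ 2) (volume.restrict (B n)) :=
    integrable_finsetSum _ fun i _ => sq_int (hG.2.1 i)
  have iEG : Integrable (fun x => (1 : ℝ) * (∑ i, G i x ^ 2) * (Real.exp (u x) * φ x))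
      (volume.restrict (B n)) := by
    have := iG2.bdd_mul (c := Real.exp M * Mf) (hem.mul hφs.continuous.aestronglyMeasurable) (by
      filter_upwards [heb, ae_B hMf] with x hx hx2
      show ‖Real.exp (u x) * φ x‖ ≤ _
      rw [norm_mul]
      exact mul_le_mul hx hx2 (norm_nonneg _) (Real.exp_pos _).le)
    refine this.congr (Eventually.of_forall fun x => ?_)
    show (Real.exp (u x) * φ x) * (∑ i, G i x ^ 2) = 1 * (∑ i, G i x ^ 2) * (Real.exp (u x) * φ x)
    ring
  have iEP : Integrable (fun x => ∑ i, Pd i φ x * (Real.exp (u x) * G i x))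
      (volume.restrict (B n)) :=
    integrable_finsetSum _ fun i _ => mul_int (memLp_B (Pd_smooth hφs i).continuous 2)
      (hmemE (hG.2.1 i))
  have e1 : ∫ x in B n, ∑ i, G i x * (Real.exp (u x) * φ x * G i x + Real.exp (u x) * Pd i φ x) =
      (∫ x in B n, (1 : ℝ) * (∑ i, G i x ^ 2) * (Real.exp (u x) * φ x)) +
        ∫ x in B n, ∑ i, Pd i φ x * (Real.exp (u x) * G i x) := by
    rw [← integral_add iEG iEP]
    congr 1
    ext x
    rw [one_mul, Finset.sum_mul, ← Finset.sum_add_distrib]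
    apply Finset.sum_congr rfl
    intro i _
    ring
  rw [e1] at hid
  have e2 := green_H10 hφs he
  rw [e2] at hid
  have iC : Integrable (fun x => c x * u x * (Real.exp (u x) * φ x)) (volume.restrict (B n)) := by
    have hcu : MemLp (fun x => c x * u x) 2 (volume.restrict (B n)) :=
      hG.1.mul (p := ⊤) (q := 2) (r := 2) (memLp_B hc ⊤)
    exact mul_int hcu (hmemE (memLp_B hφs.continuous 2))
  have iH : Integrable (fun x => h x * (Real.exp (u x) * φ x)) (volume.restrict (B n)) :=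
    mul_int (memLp_B hh 2) (hmemE (memLp_B hφs.continuous 2))
  have e3 : ∫ x in B n, (lam * (c x * u x) + h x) * (Real.exp (u x) * φ x) =
      lam * (∫ x in B n, c x * u x * (Real.exp (u x) * φ x)) +
        ∫ x in B n, h x * (Real.exp (u x) * φ x) := by
    rw [← integral_const_mul, ← integral_add (iC.const_mul lam) iH]
    congr 1
    ext x
    ring
  rw [e3]
  linarith

end Pool.Agent.R207.AF
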