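import Pool.Agent.R207.AF2

set_option autoImplicit false

/-! # Nonexistence of non-positive solutions below a threshold -/

namespace Pool.Agent.R207.AF

open MeasureTheory Real Set Filter Topology InnerProductSpace Laplacian
open scoped ContDiff
open Pool.Agent.R207.QC
open Pool.Agent.R207.HH (L chi chi_smooth chi_one chi_zero has_deriv deriv_smooth)
open Pool.Agent.R207.AC

variable {n : ℕ}

theorem gap_nonneg (x : ℝ) : 0 ≤ (x - 1) * Real.exp x + 1 := by
  have h := Real.add_one_le_exp (-x)
  have h2 := mul_le_mul_of_nonneg_right h (Real.exp_pos x).le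
  rw [← Real.exp_add] at h2
  have : Real.exp (-x + x) = 1 := by simp
  rw [this] at h2
  linarith

theorem gap_pos {x : ℝ} (hx : x ≠ 0) : 0 < (x - 1) * Real.exp x + 1 := by
  have h := Real.add_one_lt_exp (neg_ne_zero.mpr hx)
  have h2 := mul_lt_mul_of_pos_right h (Real.exp_pos x)
  rw [← Real.exp_add] at h2
  have : Real.exp (-x + x) = 1 := by simp
  rw [this] at h2
  linarith

/-- no non-positive solution below the threshold -/
theorem nonexist {c h : E n → ℝ} (hc : Continuous c) (hh : Continuous h) (hc0 : ∀ x, 0 ≤ c x)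
    {Λ : ℝ} (hΛ : 0 < Λ) {f g : ℝ → ℝ} (hf : ContDiff ℝ ∞ f) (hf1 : f 1 = 0)
    (hfp : ∀ s, 0 ≤ s → s < 1 → 0 < f s) (hg : ContDiff ℝ ∞ g)
    (hgsol : IsSol (B n) c (fun _ => 1) h Λ (fun x => g (qq x)))
    {σ : E n → ℝ} (hσ0 : ∀ x ∈ B n, 0 ≤ σ x) (hσg : ∀ x ∈ B n, σ x ≠ 0 → g (qq x) = 0)
    (heq : ∀ x ∈ B n, -Δ (fun x : E n => f (qq x)) x =
      (Λ * c x * (1 + g (qq x)) + h x) * f (qq x) + σ x)
    (hne : ∃ x ∈ B n, 0 < c x ∧ g (qq x) < 0) {lam : ℝ} (hlam : lam < Λ) {u : E n → ℝ}
    (hu : IsSol (B n) c (fun _ => 1) h lam u)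
    (hneg : ∀ᵐ x ∂(volume.restrict (B n)), u x ≤ 0) : False := by
  have h1 := very_weak hc hh hu hf hf1
  have h2 := very_weak hc hh hgsol hf hf1
  have hφs : ContDiff ℝ ∞ (fun x : E n => f (qq x)) := hf.comp qq_smooth
  have hgs : ContDiff ℝ ∞ (fun x : E n => g (qq x)) := hg.comp qq_smooth
  have hΔ : Continuous (fun x : E n => -Δ (fun x : E n => f (qq x)) x) :=
    (lap_smooth hφs).continuous.neg
  -- integrability for a bounded function
  have hI : ∀ (l : ℝ) (w : E n → ℝ), MemLp w 2 (volume.restrict (B n)) → Bdd (B n) w →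
      Integrable (fun x => -Δ (fun x : E n => f (qq x)) x * (Real.exp (w x) - 1))
        (volume.restrict (B n)) ∧
      Integrable (fun x => (l * (c x * w x) + h x) * (Real.exp (w x) * f (qq x)))
        (volume.restrict (B n)) := by
    intro l w hw hb
    obtain ⟨M, hM⟩ := hb
    have hem : AEStronglyMeasurable (fun x => Real.exp (w x)) (volume.restrict (B n)) :=
      Real.continuous_exp.comp_aestronglyMeasurable hw.1
    have heb : ∀ᵐ x ∂(volume.restrict (B n)), ‖Real.exp (w x)‖ ≤ Real.exp M := by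
      filter_upwards [hM] with x hx
      rw [Real.norm_eq_abs, abs_of_pos (Real.exp_pos _)]
      exact Real.exp_le_exp.mpr ((le_abs_self _).trans hx)
    have he2 : MemLp (fun x => Real.exp (w x)) 2 (volume.restrict (B n)) :=
      MemLp.of_bound hem _ heb
    have hone : MemLp (fun _ : E n => (1 : ℝ)) 2 (volume.restrict (B n)) :=
      memLp_B continuous_const 2
    have hef : MemLp (fun x => Real.exp (w x) * f (qq x)) 2 (volume.restrict (B n)) := by
      apply MemLp.of_le_mul (memLp_B hφs.continuous 2)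
        (hem.mul hφs.continuous.aestronglyMeasurable) (c := Real.exp M)
      filter_upwards [heb] with x hx
      show ‖Real.exp (w x) * f (qq x)‖ ≤ _
      rw [norm_mul]
      exact mul_le_mul_of_nonneg_right hx (norm_nonneg _)
    have hcw : MemLp (fun x => l * (c x * w x) + h x) 2 (volume.restrict (B n)) := by
      have : MemLp (fun x => c x * w x) 2 (volume.restrict (B n)) :=
        hw.mul (p := ⊤) (q := 2) (r := 2) (memLp_B hc ⊤)
      exact (this.const_mul l).add (memLp_B hh 2)
    exact ⟨mul_int (memLp_B hΔ 2) (he2.sub hone), mul_int hcw hef⟩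
  obtain ⟨G, hG, hub, -⟩ := hu
  obtain ⟨i1, i2⟩ := hI lam u hG.1 hub
  obtain ⟨i3, i4⟩ := hI Λ (fun x => g (qq x)) (memLp_B hgs.continuous 2) (bdd_of_cont hgs.continuous)
  set J : E n → ℝ := fun x =>
    ((lam * (c x * u x) + h x) * (Real.exp (u x) * f (qq x)) -
      -Δ (fun x : E n => f (qq x)) x * (Real.exp (u x) - 1)) -
    ((Λ * (c x * g (qq x)) + h x) * (Real.exp (g (qq x)) * f (qq x)) -
      -Δ (fun x : E n => f (qq x)) x * (Real.exp (g (qq x)) - 1)) with hJ
  have hJi : Integrable J (volume.restrict (B n)) := (i2.sub i1).sub (i4.sub i3)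
  have hJint : ∫ x in B n, J x = 0 := by
    have e1 : ∫ x in B n, J x = (∫ x in B n, ((lam * (c x * u x) + h x) * (Real.exp (u x) * f (qq x)) -
        -Δ (fun x : E n => f (qq x)) x * (Real.exp (u x) - 1))) -
        ∫ x in B n, ((Λ * (c x * g (qq x)) + h x) * (Real.exp (g (qq x)) * f (qq x)) -
          -Δ (fun x : E n => f (qq x)) x * (Real.exp (g (qq x)) - 1)) :=
      integral_sub (i2.sub i1) (i4.sub i3)
    rw [e1, integral_sub i2 i1, integral_sub i4 i3, h1, h2]
    ring
  -- algebraic form of J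
  have hJform : ∀ x ∈ B n, J x = c x * f (qq x) * ((lam - Λ) * u x * Real.exp (u x) +
      Λ * Real.exp (g (qq x)) * ((u x - g (qq x) - 1) * Real.exp (u x - g (qq x)) + 1)) -
      σ x * (Real.exp (u x) - Real.exp (g (qq x))) := by
    intro x hx
    have e2 : Real.exp (u x) = Real.exp (g (qq x)) * Real.exp (u x - g (qq x)) := by
      rw [← Real.exp_add]
      congr 1
      ring
    rw [hJ]
    show ((lam * (c x * u x) + h x) * (Real.exp (u x) * f (qq x)) -
      -Δ (fun x : E n => f (qq x)) x * (Real.exp (u x) - 1)) -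
      ((Λ * (c x * g (qq x)) + h x) * (Real.exp (g (qq x)) * f (qq x)) -
      -Δ (fun x : E n => f (qq x)) x * (Real.exp (g (qq x)) - 1)) = _
    rw [heq x hx]
    have e3 : Λ * Real.exp (g (qq x)) * ((u x - g (qq x) - 1) * Real.exp (u x - g (qq x)) + 1) =
        Λ * ((u x - g (qq x) - 1) * Real.exp (u x) + Real.exp (g (qq x))) := by
      rw [e2]
      ring
    rw [e3]
    ring
  have hparts : ∀ᵐ x ∂(volume.restrict (B n)), 0 ≤ J x ∧
      (0 < c x → g (qq x) < 0 → 0 < J x) := by
    filter_upwards [hneg, ae_B (P := fun x => x ∈ B n) fun x hx => hx] with x hx hxB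
    rw [hJform x hxB]
    have hf0 := hfp (qq x) (AC.qq_nonneg x) (mem_B.mp hxB)
    have a1 : 0 ≤ (lam - Λ) * u x * Real.exp (u x) := by
      have : 0 ≤ (lam - Λ) * u x := by nlinarith
      exact mul_nonneg this (Real.exp_pos _).le
    have a2 : 0 ≤ Λ * Real.exp (g (qq x)) *
        ((u x - g (qq x) - 1) * Real.exp (u x - g (qq x)) + 1) :=
      mul_nonneg (by positivity) (gap_nonneg _)
    have a3 : σ x * (Real.exp (u x) - Real.exp (g (qq x))) ≤ 0 := by
      by_cases hσ : σ x = 0
      · rw [hσ, zero_mul]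
      · rw [hσg x hxB hσ, Real.exp_zero]
        apply mul_nonpos_of_nonneg_of_nonpos (hσ0 x hxB)
        have : Real.exp (u x) ≤ 1 := Real.exp_le_one_iff.mpr hx
        linarith
    refine ⟨?_, fun hcx hgx => ?_⟩
    · have := mul_nonneg (mul_nonneg (hc0 x) hf0.le) (add_nonneg a1 a2)
      linarith
    · have hstrict : 0 < (lam - Λ) * u x * Real.exp (u x) + Λ * Real.exp (g (qq x)) *
          ((u x - g (qq x) - 1) * Real.exp (u x - g (qq x)) + 1) := by
        rcases hx.lt_or_eq with hu0 | hu0
        · have : 0 < (lam - Λ) * u x := by nlinarith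
          have := mul_pos this (Real.exp_pos (u x))
          linarith
        · have : u x - g (qq x) ≠ 0 := by
            rw [hu0]
            intro h0
            linarith
          have := mul_pos (mul_pos hΛ (Real.exp_pos (g (qq x)))) (gap_pos this)
          linarith
      have := mul_pos (mul_pos hcx hf0) hstrict
      linarith
  have hJ0 : J =ᵐ[volume.restrict (B n)] 0 :=
    (integral_eq_zero_iff_of_nonneg_ae (hparts.mono fun x hx => hx.1) hJi).mp hJint
  -- the open set where J is positive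
  obtain ⟨x0, hx0, hcx0, hgx0⟩ := hne
  have ho : IsOpen ({x : E n | 0 < c x} ∩ {x : E n | g (qq x) < 0} ∩ B n) :=
    ((isOpen_lt continuous_const hc).inter (isOpen_lt hgs.continuous continuous_const)).inter
      Metric.isOpen_ball
  have hpos := ho.measure_pos volume ⟨x0, ⟨hcx0, hgx0⟩, hx0⟩
  have hnull : volume ({x : E n | 0 < c x} ∩ {x : E n | g (qq x) < 0} ∩ B n) = 0 := by
    have h5 : ∀ᵐ x ∂(volume.restrict (B n)), ¬ (0 < c x ∧ g (qq x) < 0) := by
      filter_upwards [hparts, hJ0] with x hx hx0 hcon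
      have := hx.2 hcon.1 hcon.2
      rw [hx0] at this
      exact lt_irrefl _ this
    rw [ae_restrict_iff' Metric.isOpen_ball.measurableSet] at h5
    refine measure_mono_null ?_ h5
    intro x hx
    exact fun hcon => (hcon hx.2) hx.1
  exact hpos.ne' hnull

end Pool.Agent.R207.AF
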