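import Pool.Agent.R207.AF3

set_option autoImplicit false

/-! # Monotone iteration between a sub- and a supersolution, general signs -/

namespace Pool.Agent.R207.AF

open MeasureTheory Real Set Filter Topology InnerProductSpace Laplacian
open scoped ContDiff
open Pool.Agent.R207.QC
open Pool.Agent.R207.HH (L chi chi_smooth chi_one chi_zero has_deriv deriv_smooth)
open Pool.Agent.R207.AC
open Pool.Agent.R207.AD (Adm Ig Kg Gr Gr_mono Gr_lim Gr_one NN vs vs_smooth vs_eq vs_pos lw lw_smooth wt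
  wt_smooth)

variable {n : ℕ}

/-- coefficients without sign condition -/
structure Cof (A H : ℝ → ℝ) : Prop where
  sA : ContDiff ℝ ∞ A
  sH : ContDiff ℝ ∞ H
  lA : ∀ s, s ≤ 1 / 6 → A s = 0
  lH : ∀ s, s ≤ 1 / 6 → H s = 0
  rA : ∀ s, 1 ≤ s → A s = 0
  rH : ∀ s, 1 ≤ s → H s = 0

theorem Cof.NN_out {A H : ℝ → ℝ} (hc : Cof A H) (w : ℝ → ℝ) {s : ℝ} (hs : s ∉ Icc (0 : ℝ) 1) :
    NN A H w s = 0 := by
  have h0 : A s = 0 ∧ H s = 0 := by
    rw [mem_Icc, not_and_or, not_le, not_le] at hs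
    rcases hs with hs | hs
    · exact ⟨hc.lA s (by linarith), hc.lH s (by linarith)⟩
    · exact ⟨hc.rA s hs.le, hc.rH s hs.le⟩
  unfold NN
  rw [h0.1, h0.2]
  simp

theorem Cof.NN_left {A H : ℝ → ℝ} (hc : Cof A H) (w : ℝ → ℝ) {s : ℝ} (hs : s ≤ 1 / 6) :
    NN A H w s = 0 := by
  unfold NN
  rw [hc.lA s hs, hc.lH s hs]
  simp

theorem Cof.NN_contDiff {A H : ℝ → ℝ} (hc : Cof A H) {w : ℝ → ℝ} {k : ℕ} (hw : ContDiff ℝ k w)
    (h1 : ∀ s ∈ Icc (0 : ℝ) 1, 0 < w s) : ContDiff ℝ k (NN A H w) := by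
  rw [contDiff_iff_contDiffAt]
  intro s
  rcases lt_or_ge s (1 / 6) with hs | hs
  · have : NN A H w =ᶠ[𝓝 s] fun _ => 0 := by
      filter_upwards [Iio_mem_nhds hs] with t ht
      exact hc.NN_left w (le_of_lt ht)
    exact contDiffAt_const.congr_of_eventuallyEq this
  rcases le_or_gt s 1 with hs1 | hs1
  · have a := h1 s ⟨by linarith, hs1⟩
    have hA : ContDiff ℝ k A := contDiff_infty.mp hc.sA k
    have hH : ContDiff ℝ k H := contDiff_infty.mp hc.sH k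
    exact ((hA.contDiffAt.mul (hw.contDiffAt.log a.ne')).add hH.contDiffAt).mul hw.contDiffAt
  · have : NN A H w =ᶠ[𝓝 s] fun _ => 0 := by
      filter_upwards [Ioi_mem_nhds hs1] with t ht
      exact hc.NN_out w fun h => absurd h.2 (not_le.mpr ht)
    exact contDiffAt_const.congr_of_eventuallyEq this

theorem Cof.NN_cont {A H : ℝ → ℝ} (hc : Cof A H) {w : ℝ → ℝ} (hw : Continuous w)
    (h1 : ∀ s ∈ Icc (0 : ℝ) 1, 0 < w s) : Continuous (NN A H w) := by
  have := hc.NN_contDiff (k := 0) (by simpa using hw) h1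
  simpa using this

theorem Cof.NN_adm {A H : ℝ → ℝ} (hc : Cof A H) {w : ℝ → ℝ} (hw : Continuous w)
    (h1 : ∀ s ∈ Icc (0 : ℝ) 1, 0 < w s) : Adm (NN A H w) := by
  have hcont := hc.NN_cont hw h1
  refine ⟨hcont.measurable, ?_, fun s hs => hc.NN_left w hs⟩
  obtain ⟨M, hM⟩ := (isCompact_Icc (a := (0 : ℝ)) (b := 1)).exists_bound_of_continuousOn
    hcont.continuousOn
  refine ⟨M, fun s => ?_⟩
  by_cases hs : s ∈ Icc (0 : ℝ) 1
  · exact hM s hs
  · rw [hc.NN_out w hs, abs_zero]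
    exact (norm_nonneg _).trans (hM 0 ⟨le_rfl, zero_le_one⟩)

/-- monotonicity of the right-hand side between two barriers -/
def Mon (A H lo hi : ℝ → ℝ) : Prop :=
  ∀ s ∈ Icc (0 : ℝ) 1, ∀ a b : ℝ, lo s ≤ a → a ≤ b → b ≤ hi s →
    (A s * Real.log a + H s) * a ≤ (A s * Real.log b + H s) * b

theorem Cof.NN_mono {A H lo hi : ℝ → ℝ} (hc : Cof A H) (hm : Mon A H lo hi) {w w' : ℝ → ℝ}
    (h1 : ∀ s ∈ Icc (0 : ℝ) 1, lo s ≤ w s) (h2 : ∀ s ∈ Icc (0 : ℝ) 1, w s ≤ w' s)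
    (h3 : ∀ s ∈ Icc (0 : ℝ) 1, w' s ≤ hi s) (s : ℝ) : NN A H w s ≤ NN A H w' s := by
  by_cases hs : s ∈ Icc (0 : ℝ) 1
  · exact hm s hs _ _ (h1 s hs) (h2 s hs) (h3 s hs)
  · rw [hc.NN_out w hs, hc.NN_out w' hs]

/-- monotone iteration from the lower barrier -/
noncomputable def jt (n : ℕ) (A H lo : ℝ → ℝ) : ℕ → ℝ → ℝ
  | 0 => lo
  | k + 1 => fun s => 1 + Gr n (NN A H (jt n A H lo k)) s

/-- regularity of fixed points -/
theorem Cof.fix_smooth {A H : ℝ → ℝ} (hc : Cof A H) {w : ℝ → ℝ} (hw : Continuous w)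
    (h1 : ∀ s ∈ Icc (0 : ℝ) 1, 0 < w s) (hfix : ∀ s, w s = 1 + Gr n (NN A H w) s) :
    ContDiff ℝ ∞ w := by
  have hAw : Adm (NN A H w) := hc.NN_adm hw h1
  have hreg : ∀ k : ℕ, ContDiff ℝ k w := by
    intro k
    induction k with
    | zero => simpa using hw
    | succ k ih =>
      have h1 := hAw.Gr_contDiff (n := n) (hc.NN_contDiff ih h1)
      have h2 : w = fun s => 1 + Gr n (NN A H w) s := funext hfix
      rw [h2]
      exact_mod_cast contDiff_const.add h1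
  exact contDiff_infty.mpr hreg

/-- existence between barriers -/
theorem Cof.exists_between {A H lo hi : ℝ → ℝ} (hc : Cof A H) (hlo : Continuous lo)
    (hhi : Continuous hi) (hpos : ∀ s ∈ Icc (0 : ℝ) 1, 0 < lo s)
    (hle : ∀ s ∈ Icc (0 : ℝ) 1, lo s ≤ hi s) (hm : Mon A H lo hi)
    (hsub : ∀ s ∈ Icc (0 : ℝ) 1, lo s ≤ 1 + Gr n (NN A H lo) s)
    (hsup : ∀ s ∈ Icc (0 : ℝ) 1, 1 + Gr n (NN A H hi) s ≤ hi s) :
    ∃ w : ℝ → ℝ, ContDiff ℝ ∞ w ∧ (∀ s ∈ Icc (0 : ℝ) 1, lo s ≤ w s) ∧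
      (∀ s ∈ Icc (0 : ℝ) 1, w s ≤ hi s) ∧ (∀ s, w s = 1 + Gr n (NN A H w) s) := by
  have hpos' : ∀ {w : ℝ → ℝ}, (∀ s ∈ Icc (0 : ℝ) 1, lo s ≤ w s) → ∀ s ∈ Icc (0 : ℝ) 1, 0 < w s :=
    fun h s hs => (hpos s hs).trans_le (h s hs)
  have hAhi := hc.NN_adm hhi (hpos' hle)
  have hprop : ∀ k, Continuous (jt n A H lo k) ∧ (∀ s ∈ Icc (0 : ℝ) 1, lo s ≤ jt n A H lo k s) ∧
      (∀ s ∈ Icc (0 : ℝ) 1, jt n A H lo k s ≤ hi s) ∧
      (∀ s ∈ Icc (0 : ℝ) 1, jt n A H lo k s ≤ jt n A H lo (k + 1) s) := by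
    intro k
    induction k with
    | zero => exact ⟨hlo, fun s _ => le_rfl, hle, hsub⟩
    | succ k ih =>
      obtain ⟨h1, h2, h3, h4⟩ := ih
      have hA := hc.NN_adm h1 (hpos' h2)
      have h1' : Continuous (jt n A H lo (k + 1)) := continuous_const.add hA.Gr_cont
      have h2' : ∀ s ∈ Icc (0 : ℝ) 1, lo s ≤ jt n A H lo (k + 1) s := fun s hs =>
        (h2 s hs).trans (h4 s hs)
      have hA' := hc.NN_adm h1' (hpos' h2')
      have h3' : ∀ s ∈ Icc (0 : ℝ) 1, jt n A H lo (k + 1) s ≤ hi s := by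
        intro s hs
        refine le_trans ?_ (hsup s hs)
        show 1 + Gr n (NN A H (jt n A H lo k)) s ≤ _
        have := Gr_mono (n := n) hA hAhi (hc.NN_mono hm h2 h3 fun s _ => le_rfl) hs.1 hs.2
        linarith
      refine ⟨h1', h2', h3', fun s hs => ?_⟩
      show 1 + Gr n (NN A H (jt n A H lo k)) s ≤ 1 + Gr n (NN A H (jt n A H lo (k + 1))) s
      have := Gr_mono (n := n) hA hA' (hc.NN_mono hm h2 h4 h3') hs.1 hs.2
      linarith
  have hlo' := hc.NN_adm hlo hpos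
  obtain ⟨M1, hM1⟩ := hAhi.bdd
  obtain ⟨M2, hM2⟩ := hlo'.bdd
  have hadm : ∀ k, Adm (NN A H (jt n A H lo k)) := fun k => hc.NN_adm (hprop k).1 (hpos' (hprop k).2.1)
  have hub : ∀ k s, NN A H (jt n A H lo k) s ≤ M1 := fun k s =>
    (hc.NN_mono hm (hprop k).2.1 (hprop k).2.2.1 (fun s _ => le_rfl) s).trans
      ((le_abs_self _).trans (hM1 s))
  have hlb : ∀ k s, -M2 ≤ NN A H (jt n A H lo k) s := fun k s =>
    (neg_le.mp ((neg_le_abs _).trans (hM2 s))).trans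
      (hc.NN_mono hm (fun s _ => le_rfl) (hprop k).2.1 (hprop k).2.2.1 s)
  have hMk : ∀ k s, |NN A H (jt n A H lo k) s| ≤ max M1 M2 := by
    intro k s
    rw [abs_le]
    exact ⟨by linarith [hlb k s, le_max_right M1 M2], (hub k s).trans (le_max_left _ _)⟩
  have hmono : ∀ s, Monotone fun k => NN A H (jt n A H lo k) s := fun s =>
    monotone_nat_of_le_succ fun k =>
      hc.NN_mono hm (hprop k).2.1 (hprop k).2.2.2 (hprop (k + 1)).2.2.1 s
  have hlim : ∀ s, Tendsto (fun k => NN A H (jt n A H lo k) s) atTop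
      (𝓝 (⨆ k, NN A H (jt n A H lo k) s)) := fun s =>
    tendsto_atTop_ciSup (hmono s) ⟨M1, by
      rintro _ ⟨k, rfl⟩
      exact hub k s⟩
  obtain ⟨hAg, hGl⟩ := Gr_lim (n := n) hadm hMk hlim
  set g' : ℝ → ℝ := fun s => ⨆ k, NN A H (jt n A H lo k) s with hg'
  set w : ℝ → ℝ := fun s => 1 + Gr n g' s with hw
  have hwl : ∀ s, Tendsto (fun k => jt n A H lo (k + 1) s) atTop (𝓝 (w s)) := fun s =>
    (hGl s).const_add 1
  have hwc : Continuous w := continuous_const.add hAg.Gr_cont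
  have hw1 : ∀ s ∈ Icc (0 : ℝ) 1, lo s ≤ w s := fun s hs =>
    ge_of_tendsto (hwl s) (Eventually.of_forall fun k => (hprop (k + 1)).2.1 s hs)
  have hwQ : ∀ s ∈ Icc (0 : ℝ) 1, w s ≤ hi s := fun s hs =>
    le_of_tendsto (hwl s) (Eventually.of_forall fun k => (hprop (k + 1)).2.2.1 s hs)
  have hgN : g' = NN A H w := by
    ext s
    by_cases hs : s ∈ Icc (0 : ℝ) 1
    · have h1 : Tendsto (fun k => NN A H (jt n A H lo (k + 1)) s) atTop (𝓝 (g' s)) :=
        (hlim s).comp (tendsto_add_atTop_nat 1)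
      have h2 : Tendsto (fun k => NN A H (jt n A H lo (k + 1)) s) atTop (𝓝 (NN A H w s)) := by
        have hne : w s ≠ 0 := (hpos' hw1 s hs).ne'
        exact ((((hwl s).log hne).const_mul (A s)).add_const (H s)).mul (hwl s)
      exact tendsto_nhds_unique h1 h2
    · rw [hc.NN_out w hs, hg']
      have : ∀ k, NN A H (jt n A H lo k) s = 0 := fun k => hc.NN_out _ hs
      simp [this]
  have hfix : ∀ s, w s = 1 + Gr n (NN A H w) s := by
    intro s
    rw [← hgN]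
  exact ⟨w, hc.fix_smooth hwc (hpos' hw1) hfix, hw1, hwQ, hfix⟩

/-- the equation for the logarithm, general signs -/
theorem lw_eqn' {A H w : ℝ → ℝ} (hc : Cof A H) (hw : ContDiff ℝ ∞ w)
    (h1 : ∀ s ∈ Icc (0 : ℝ) 1, 1 / 2 < w s) (hfix : ∀ s, w s = 1 + Gr n (NN A H w) s) {s : ℝ}
    (h0s : 0 ≤ s) (hs1 : s < 1) :
    -(L n (lw w) s) = 4 * s ^ (1 - (n : ℝ) / 2) * A s * lw w s + 4 * s * deriv (lw w) s ^ 2 +
      4 * s ^ (1 - (n : ℝ) / 2) * H s := by
  have h1' : ∀ s ∈ Icc (0 : ℝ) 1, 0 < w s := fun s hs => by linarith [h1 s hs]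
  have hA := hc.NN_adm hw.continuous h1'
  have hws := h1 s ⟨h0s, hs1.le⟩
  have hwpos : 0 < w s := by linarith
  have hev : ∀ᶠ t in 𝓝 s, 1 / 2 < w t :=
    hw.continuous.continuousAt.eventually_const_lt hws
  have e0 : lw w =ᶠ[𝓝 s] fun t => Real.log (w t) := by
    filter_upwards [hev] with t ht
    unfold lw
    rw [vs_eq ht.le]
  have hwd : ∀ t, HasDerivAt w (deriv w t) t := fun t => has_deriv hw t
  have hwdd : HasDerivAt (deriv w) (deriv (deriv w) s) s := has_deriv (deriv_smooth hw) s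
  have e1 : deriv (lw w) =ᶠ[𝓝 s] fun t => deriv w t / w t := by
    filter_upwards [e0.eventually_nhds, hev] with t ht hpt
    rw [Filter.EventuallyEq.deriv_eq ht]
    have hpt' : 0 < w t := by linarith
    exact ((hwd t).log hpt'.ne').deriv
  have e2 : deriv (deriv (lw w)) s = (deriv (deriv w) s * w s - deriv w s * deriv w s) / w s ^ 2 := by
    rw [e1.deriv_eq]
    exact (hwdd.div (hwd s) hwpos.ne').deriv
  have hL : L n w s = -(4 * s ^ (1 - (n : ℝ) / 2) * NN A H w s) := by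
    rw [← hA.L_Gr (hc.NN_cont hw.continuous h1') s]
    have h2 : deriv w = deriv (Gr n (NN A H w)) := by
      ext t
      have : w = fun s => 1 + Gr n (NN A H w) s := funext hfix
      conv_lhs => rw [this]
      rw [deriv_const_add]
    unfold L
    rw [h2]
  unfold L at hL ⊢
  rw [e2, e1.eq_of_nhds, e0.eq_of_nhds]
  unfold NN at hL
  have h3 : 4 * s * deriv (deriv w) s + 2 * n * deriv w s =
      -(4 * s ^ (1 - (n : ℝ) / 2) * (A s * Real.log (w s) + H s)) * w s := by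
    rw [hL]
    ring
  have h4 : 4 * s * ((deriv (deriv w) s * w s - deriv w s * deriv w s) / w s ^ 2) +
      2 * n * (deriv w s / w s) + 4 * s * (deriv w s / w s) ^ 2 =
      (4 * s * deriv (deriv w) s + 2 * n * deriv w s) / w s := by
    field_simp
    ring
  rw [h3, mul_div_cancel_right₀ _ hwpos.ne'] at h4
  linarith

/-- a profile gives a weak solution, general signs -/
theorem sol_profile' {A H C w : ℝ → ℝ} {lam : ℝ} (hc : Cof A H) (hCs : ContDiff ℝ ∞ C)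
    (hCl : ∀ s, s ≤ 1 / 6 → C s = 0) (hAC : ∀ s, A s = lam * C s) (hw : ContDiff ℝ ∞ w)
    (h1 : ∀ s ∈ Icc (0 : ℝ) 1, 1 / 2 < w s) (hfix : ∀ s, w s = 1 + Gr n (NN A H w) s) :
    IsSol (B n) (fun x => wt n C (qq x)) (fun _ => 1) (fun x => wt n H (qq x)) lam
      (fun x => lw w (qq x)) := by
  have hls := lw_smooth hw
  have hl1 : lw w 1 = 0 := by
    have : w 1 = 1 := by
      rw [hfix 1, Gr_one, add_zero]
    unfold lw
    rw [this, vs_eq (by norm_num), Real.log_one]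
  apply sol_of_classical hls hl1
  · exact (wt_smooth hCs hCl).continuous.comp qq_smooth.continuous
  · exact continuous_const
  · exact (wt_smooth hc.sH hc.lH).continuous.comp qq_smooth.continuous
  · intro x hx
    have h2 := lw_eqn' hc hw h1 hfix (AC.qq_nonneg x) (mem_B.mp hx)
    rw [lap_rad hls, grad_rad hls, h2, hAC]
    unfold wt
    ring

end Pool.Agent.R207.AF
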