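import Pool.Agent.R207.AF4

set_option autoImplicit false

/-! # Data for question 1 -/

namespace Pool.Agent.R207.AF

open MeasureTheory Real Set Filter Topology InnerProductSpace Laplacian
open scoped ContDiff
open Pool.Agent.R207.QC
open Pool.Agent.R207.HH (L chi chi_smooth chi_one chi_zero has_deriv deriv_smooth)
open Pool.Agent.R207.AC
open Pool.Agent.R207.AD (Adm Ig Kg Gr Gr_mono Gr_lim Gr_one NN vs vs_smooth vs_eq vs_pos lw lw_smooth wt
  wt_smooth el b2 b2_smooth b2_nonneg b2_left b2_right b2_adm Ig_b2 P2_ge P2_nonneg el_smooth el_le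
  el_ge el_deriv smooth_mul Gr_lin Gr_nonneg Gr_split b2_cases exists_point)

variable {n : ℕ}

/-- bump supported in `[1/4, 5/8]` -/
noncomputable def bt (s : ℝ) : ℝ := bm (el (3 / 8) s)

theorem bt_smooth : ContDiff ℝ ∞ bt := bm_smooth.comp el_smooth

theorem bt_nonneg (s : ℝ) : 0 ≤ bt s := bm_nonneg _

theorem bt_left {s : ℝ} (hs : s ≤ 1 / 4) : bt s = 0 := by
  unfold bt
  exact bm_left (el_le (by norm_num) (by linarith))

theorem bt_right {s : ℝ} (hs : 5 / 8 ≤ s) : bt s = 0 := by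
  unfold bt
  exact AC.bm_right (el_ge (by norm_num) (by linarith))

theorem bt_pos {s : ℝ} (h1 : 1 / 4 < s) (h2 : s < 5 / 8) : 0 < bt s := by
  unfold bt
  apply bm_pos
  · unfold el
    rw [div_lt_div_iff₀ (by norm_num) (by norm_num)]
    linarith
  · unfold el
    rw [div_lt_div_iff₀ (by norm_num) (by norm_num)]
    linarith

/-- its derivative -/
noncomputable def bd (s : ℝ) : ℝ := deriv bt s

theorem bd_smooth : ContDiff ℝ ∞ bd := deriv_smooth bt_smooth

theorem bd_zero {s : ℝ} (hs : s < 1 / 4 ∨ 5 / 8 < s) : bd s = 0 := by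
  unfold bd
  have : bt =ᶠ[𝓝 s] fun _ => 0 := by
    rcases hs with hs | hs
    · filter_upwards [Iio_mem_nhds hs] with t ht
      exact bt_left (le_of_lt ht)
    · filter_upwards [Ioi_mem_nhds hs] with t ht
      exact bt_right (le_of_lt ht)
  rw [this.deriv_eq, deriv_const]

theorem adm_of {g : ℝ → ℝ} (hg : Continuous g) (hl : ∀ s, s ≤ 1 / 6 → g s = 0)
    (hr : ∀ s, 1 ≤ s → g s = 0) : Adm g := by
  refine ⟨hg.measurable, ?_, hl⟩
  obtain ⟨M, hM⟩ := (isCompact_Icc (a := (0 : ℝ)) (b := 1)).exists_bound_of_continuousOn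
    hg.continuousOn
  refine ⟨M, fun s => ?_⟩
  by_cases hs : s ∈ Icc (0 : ℝ) 1
  · exact hM s hs
  · have : g s = 0 := by
      rw [mem_Icc, not_and_or, not_le, not_le] at hs
      rcases hs with hs | hs
      · exact hl s (by linarith)
      · exact hr s hs.le
    rw [this, abs_zero]
    exact (norm_nonneg _).trans (hM 0 ⟨le_rfl, zero_le_one⟩)

theorem bd_adm : Adm bd := adm_of bd_smooth.continuous
  (fun s hs => bd_zero (Or.inl (by linarith))) (fun s hs => bd_zero (Or.inr (by linarith)))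

theorem Ig_bd (σ : ℝ) : Ig bd σ = bt σ := by
  have h : ∫ t in (0 : ℝ)..σ, bd t = bt σ - bt 0 :=
    intervalIntegral.integral_eq_sub_of_hasDerivAt (fun s _ => has_deriv bt_smooth s)
      (bd_smooth.continuous.intervalIntegrable _ _)
  unfold Ig
  rw [h, bt_left (by norm_num : (0 : ℝ) ≤ 1 / 4), sub_zero]

/-- plateau function -/
noncomputable def ze (n : ℕ) (s : ℝ) : ℝ := Gr n bd s

theorem ze_smooth : ContDiff ℝ ∞ (ze n) := bd_adm.Gr_smooth bd_smooth

theorem ze_nonneg {s : ℝ} (h0 : 0 ≤ s) (h1 : s ≤ 1) : 0 ≤ ze n s := by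
  apply intervalIntegral.integral_nonneg h1
  intro σ hσ
  unfold Kg
  rw [Ig_bd]
  exact mul_nonneg (Real.rpow_nonneg (h0.trans hσ.1) _) (bt_nonneg _)

theorem ze_zero {s : ℝ} (h0 : 5 / 8 ≤ s) (h1 : s ≤ 1) : ze n s = 0 := by
  unfold ze Gr
  rw [intervalIntegral.integral_congr (g := fun _ => 0)]
  · simp
  · intro σ hσ
    rw [uIcc_of_le h1] at hσ
    show σ ^ (-((n : ℝ) / 2)) * Ig bd σ = 0
    rw [Ig_bd, bt_right (h0.trans hσ.1), mul_zero]

theorem ze_pos : 0 < ze n (1 / 2) := by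
  unfold ze
  rw [Gr_split bd_adm (1 / 2) (5 / 8)]
  have h1 : 0 ≤ Gr n bd (5 / 8) := ze_nonneg (n := n) (by norm_num) (by norm_num)
  have h2 : 0 < ∫ σ in (1 / 2 : ℝ)..(5 / 8), Kg n bd σ := by
    apply intervalIntegral.intervalIntegral_pos_of_pos_on (bd_adm.Kg_cont.intervalIntegrable _ _) _
      (by norm_num)
    intro σ hσ
    unfold Kg
    rw [Ig_bd]
    exact mul_pos (Real.rpow_pos_of_pos (by linarith [hσ.1]) _) (bt_pos (by linarith [hσ.1]) hσ.2)
  linarith

/-- cut-off equal to one on `[1/4, 5/8]` -/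
noncomputable def g1 (s : ℝ) : ℝ :=
  Real.smoothTransition (12 * (s - 1 / 6)) * Real.smoothTransition (8 * (3 / 4 - s))

theorem g1_smooth : ContDiff ℝ ∞ g1 :=
  (Real.smoothTransition.contDiff.comp (contDiff_const.mul (contDiff_id.sub contDiff_const))).mul
    (Real.smoothTransition.contDiff.comp (contDiff_const.mul (contDiff_const.sub contDiff_id)))

theorem g1_nonneg (s : ℝ) : 0 ≤ g1 s :=
  mul_nonneg (Real.smoothTransition.nonneg _) (Real.smoothTransition.nonneg _)

theorem g1_left {s : ℝ} (hs : s ≤ 1 / 6) : g1 s = 0 := by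
  unfold g1
  rw [Real.smoothTransition.zero_of_nonpos (by linarith), zero_mul]

theorem g1_right {s : ℝ} (hs : 3 / 4 ≤ s) : g1 s = 0 := by
  unfold g1
  rw [Real.smoothTransition.zero_of_nonpos (x := 8 * (3 / 4 - s)) (by linarith), mul_zero]

theorem g1_one {s : ℝ} (h1 : 1 / 4 ≤ s) (h2 : s ≤ 5 / 8) : g1 s = 1 := by
  unfold g1
  rw [Real.smoothTransition.one_of_one_le (by linarith),
    Real.smoothTransition.one_of_one_le (by linarith), mul_one]

theorem g1_adm : Adm g1 := adm_of g1_smooth.continuous (fun s hs => g1_left hs)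
  (fun s hs => g1_right (by linarith))

theorem b2_adm' : Adm (b2 (1 / 10)) := b2_adm (by norm_num) (by norm_num)

/-- the positive test profile -/
noncomputable def ph (n : ℕ) (s : ℝ) : ℝ := Gr n g1 s + Gr n (b2 (1 / 10)) s

theorem ph_smooth : ContDiff ℝ ∞ (ph n) := (g1_adm.Gr_smooth g1_smooth).add (b2_adm'.Gr_smooth b2_smooth)

theorem ph_one : ph n 1 = 0 := by
  unfold ph
  rw [Gr_one, Gr_one, add_zero]

theorem E1_nonneg {s : ℝ} (h0 : 0 ≤ s) (h1 : s ≤ 1) : 0 ≤ Gr n g1 s := Gr_nonneg g1_adm g1_nonneg h0 h1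

theorem E2_ge {s : ℝ} (h0 : 0 ≤ s) (h1 : s ≤ 9 / 10) : 1 / 10 * mm (1 / 3) ≤ Gr n (b2 (1 / 10)) s :=
  P2_ge (by norm_num) (by norm_num) h0 (by linarith)

theorem ph_pos {s : ℝ} (h0 : 0 ≤ s) (h1 : s < 1) : 0 < ph n s := by
  have hE1 := E1_nonneg (n := n) h0 h1.le
  have hm := mm_pos
  unfold ph
  rcases le_total s (9 / 10) with h | h
  · have := E2_ge (n := n) h0 h
    have : 0 < 1 / 10 * mm (1 / 3) := by positivity
    linarith
  · have : 0 < Gr n (b2 (1 / 10)) s := by
      unfold Gr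
      apply intervalIntegral.intervalIntegral_pos_of_pos_on (b2_adm'.Kg_cont.intervalIntegrable _ _) _ h1
      intro σ hσ
      unfold Kg
      rw [Ig_b2 (by norm_num) (by norm_num), mm_right (el_ge (by norm_num) (by linarith [hσ.1]))]
      exact mul_pos (Real.rpow_pos_of_pos (by linarith [hσ.1]) _) hm
    linarith

/-- the data for question 1: a small parameter `η` with its properties -/
structure Par (n : ℕ) (η : ℝ) : Prop where
  pos : 0 < η
  hze : ∀ s ∈ Icc (0 : ℝ) 1, η * ze n s ≤ 1 / 4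
  hbd : ∀ s ∈ Icc (0 : ℝ) 1, 20 * (η * |bd s|) * ph n s ≤ 1

theorem exists_par (n : ℕ) : ∃ η, Par n η := by
  have hb : ∀ {f : ℝ → ℝ}, Continuous f → ∃ M : ℝ, 0 ≤ M ∧ ∀ s ∈ Icc (0 : ℝ) 1, |f s| ≤ M := by
    intro f hf
    obtain ⟨M, hM⟩ := (isCompact_Icc (a := (0 : ℝ)) (b := 1)).exists_bound_of_continuousOn
      hf.continuousOn
    exact ⟨M, (norm_nonneg _).trans (hM 0 ⟨le_rfl, zero_le_one⟩), hM⟩
  obtain ⟨Zm, hZ0, hZ⟩ := hb (ze_smooth (n := n)).continuous
  obtain ⟨S, hS0, hS⟩ := hb bd_smooth.continuous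
  obtain ⟨P, hP0, hP⟩ := hb (ph_smooth (n := n)).continuous
  set N := 4 * Zm + 20 * (S * P) + 1 with hN
  have hSP : 0 ≤ S * P := mul_nonneg hS0 hP0
  have hN1 : 1 ≤ N := by linarith
  have hN0 : 0 < N := by linarith
  refine ⟨1 / N, by positivity, fun s hs => ?_, fun s hs => ?_⟩
  · rw [div_mul_eq_mul_div, one_mul, div_le_div_iff₀ hN0 (by norm_num)]
    have := (le_abs_self _).trans (hZ s hs)
    linarith
  · have h1 : |bd s| * ph n s ≤ S * P := by
      have a := hS s hs
      have b := (le_abs_self _).trans (hP s hs)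
      have c : 0 ≤ ph n s := by
        rcases hs.2.lt_or_eq with h | h
        · exact (ph_pos hs.1 h).le
        · rw [h, ph_one]
      exact mul_le_mul a b c hS0
    have e : 20 * (1 / N * |bd s|) * ph n s = 20 * (|bd s| * ph n s) / N := by ring
    rw [e, div_le_one hN0]
    linarith

/-- the threshold profile -/
noncomputable def vv (n : ℕ) (η s : ℝ) : ℝ := 1 - η * ze n s

theorem vv_smooth (η : ℝ) : ContDiff ℝ ∞ (vv n η) := contDiff_const.sub (contDiff_const.mul ze_smooth)

theorem Par.v_ge {η : ℝ} (h : Par n η) {s : ℝ} (hs : s ∈ Icc (0 : ℝ) 1) : 3 / 4 ≤ vv n η s := by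
  have := h.hze s hs
  unfold vv
  linarith

theorem Par.v_le {η : ℝ} (h : Par n η) {s : ℝ} (hs : s ∈ Icc (0 : ℝ) 1) : vv n η s ≤ 1 := by
  have := mul_nonneg h.pos.le (ze_nonneg (n := n) hs.1 hs.2)
  unfold vv
  linarith

/-- coefficient of `u` -/
noncomputable def Af (n : ℕ) (η s : ℝ) : ℝ := g1 s * (1 / ph n s) + bd s * (η / vv n η s)

/-- free coefficient -/
noncomputable def Hf (n : ℕ) (η s : ℝ) : ℝ := -(bd s * (η / vv n η s)) - Af n η s * Real.log (vv n η s)

theorem Af_out {η s : ℝ} (hs : s ≤ 1 / 6 ∨ 3 / 4 ≤ s) : Af n η s = 0 := by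
  unfold Af
  rcases hs with hs | hs
  · rw [g1_left hs, bd_zero (Or.inl (by linarith))]
    ring
  · rw [g1_right hs, bd_zero (Or.inr (by linarith))]
    ring

theorem Af_smooth {η : ℝ} (h : Par n η) : ContDiff ℝ ∞ (Af n η) := by
  apply ContDiff.add
  · apply smooth_mul (p := 1 / 6) (r := 3 / 4) g1_smooth (fun s => g1_left) (fun s => g1_right)
    intro s hs
    exact contDiffAt_const.div ph_smooth.contDiffAt
      (ph_pos (n := n) (by linarith [hs.1]) (by linarith [hs.2])).ne'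
  · apply smooth_mul (p := 1 / 6) (r := 3 / 4) bd_smooth
      (fun s hs => bd_zero (Or.inl (by linarith))) (fun s hs => bd_zero (Or.inr (by linarith)))
    intro s hs
    have := h.v_ge (s := s) ⟨by linarith [hs.1], by linarith [hs.2]⟩
    have h0 : 0 < vv n η s := by linarith
    exact contDiffAt_const.div (vv_smooth η).contDiffAt h0.ne'

theorem cof {η : ℝ} (h : Par n η) (l : ℝ) : Cof (fun s => l * Af n η s) (Hf n η) := by
  have hA := Af_smooth h
  refine ⟨contDiff_const.mul hA, ?_, fun s hs => ?_, fun s hs => ?_, fun s hs => ?_, fun s hs => ?_⟩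
  · apply ContDiff.sub
    · apply ContDiff.neg
      apply smooth_mul (p := 1 / 6) (r := 3 / 4) bd_smooth
        (fun s hs => bd_zero (Or.inl (by linarith))) (fun s hs => bd_zero (Or.inr (by linarith)))
      intro s hs
      have := h.v_ge (s := s) ⟨by linarith [hs.1], by linarith [hs.2]⟩
      have h0 : 0 < vv n η s := by linarith
      exact contDiffAt_const.div (vv_smooth η).contDiffAt h0.ne'
    · apply smooth_mul (p := 1 / 6) (r := 3 / 4) hA
        (fun s hs => Af_out (Or.inl hs)) (fun s hs => Af_out (Or.inr hs))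
      intro s hs
      have := h.v_ge (s := s) ⟨by linarith [hs.1], by linarith [hs.2]⟩
      have h0 : 0 < vv n η s := by linarith
      exact (vv_smooth η).contDiffAt.log h0.ne'
  · show l * Af n η s = 0
    rw [Af_out (Or.inl hs), mul_zero]
  · unfold Hf
    rw [Af_out (Or.inl hs), bd_zero (Or.inl (by linarith))]
    ring
  · show l * Af n η s = 0
    rw [Af_out (Or.inr (by linarith)), mul_zero]
  · unfold Hf
    rw [Af_out (Or.inr (by linarith)), bd_zero (Or.inr (by linarith))]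
    ring

/-- domination of the correction term -/
theorem Par.dom {η : ℝ} (h : Par n η) {s : ℝ} (h0 : 0 ≤ s) (h1 : s < 1) :
    |bd s * (η / vv n η s)| ≤ 1 / 15 * (g1 s * (1 / ph n s)) := by
  have hs : s ∈ Icc (0 : ℝ) 1 := ⟨h0, h1.le⟩
  have hv := h.v_ge hs
  have hp := ph_pos (n := n) h0 h1
  have hv0 : 0 < vv n η s := by linarith
  by_cases hb : bd s = 0
  · rw [hb, zero_mul, abs_zero]
    have := g1_nonneg s
    positivity
  · have hr : 1 / 4 ≤ s ∧ s ≤ 5 / 8 := by
      constructor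
      · by_contra hc
        exact hb (bd_zero (Or.inl (not_le.mp hc)))
      · by_contra hc
        exact hb (bd_zero (Or.inr (not_le.mp hc)))
    rw [g1_one hr.1 hr.2, one_mul]
    have hd := h.hbd s hs
    have hη := h.pos
    rw [abs_mul, abs_of_pos (div_pos hη hv0)]
    have e1 : |bd s| * (η / vv n η s) ≤ 4 / 3 * (η * |bd s|) := by
      rw [mul_div_assoc', div_le_iff₀ hv0]
      have : 0 ≤ η * |bd s| := by positivity
      nlinarith
    refine e1.trans ?_
    rw [mul_one_div, le_div_iff₀ hp]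
    nlinarith

theorem Par.Af_ge {η : ℝ} (h : Par n η) {s : ℝ} (h0 : 0 ≤ s) (h1 : s < 1) :
    14 / 15 * (g1 s * (1 / ph n s)) ≤ Af n η s := by
  have := neg_abs_le (bd s * (η / vv n η s))
  have h2 := h.dom h0 h1
  unfold Af
  linarith

theorem Par.Af_le {η : ℝ} (h : Par n η) {s : ℝ} (h0 : 0 ≤ s) (h1 : s < 1) :
    Af n η s ≤ 16 / 15 * (g1 s * (1 / ph n s)) := by
  have := le_abs_self (bd s * (η / vv n η s))
  have h2 := h.dom h0 h1
  unfold Af
  linarith

theorem gp_nonneg {s : ℝ} (h0 : 0 ≤ s) (h1 : s < 1) : 0 ≤ g1 s * (1 / ph n s) := by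
  have := ph_pos (n := n) h0 h1
  have := g1_nonneg s
  positivity

theorem Par.Af_nonneg {η : ℝ} (h : Par n η) (s : ℝ) : 0 ≤ Af n η s := by
  rcases le_or_gt s 0 with h0 | h0
  · rw [Af_out (Or.inl (by linarith))]
  rcases lt_or_ge s 1 with h1 | h1
  · have := h.Af_ge h0.le h1
    have := gp_nonneg (n := n) h0.le h1
    linarith
  · rw [Af_out (Or.inr (by linarith))]

/-- the threshold profile solves the equation with parameter one -/
theorem NN_vv {η : ℝ} (h : Par n η) (s : ℝ) :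
    NN (fun s => 1 * Af n η s) (Hf n η) (vv n η) s = -η * bd s := by
  by_cases hs : s ∈ Icc (0 : ℝ) 1
  · have hv := h.v_ge hs
    have hv0 : vv n η s ≠ 0 := by linarith [hv] |> fun h : 0 < vv n η s => h.ne'
    unfold NN Hf
    field_simp
    ring
  · rw [(cof h 1).NN_out _ hs]
    have : bd s = 0 := by
      rw [mem_Icc, not_and_or, not_le, not_le] at hs
      rcases hs with hs | hs
      · exact bd_zero (Or.inl (by linarith))
      · exact bd_zero (Or.inr (by linarith))
    rw [this, mul_zero]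

theorem Gr_smul {g : ℝ → ℝ} (a s : ℝ) : Gr n (fun t => a * g t) s = a * Gr n g s := by
  have hI : ∀ σ, Ig (fun t => a * g t) σ = a * Ig g σ := by
    intro σ
    unfold Ig
    rw [intervalIntegral.integral_const_mul]
  have hK : ∀ σ, Kg n (fun t => a * g t) σ = a * Kg n g σ := by
    intro σ
    unfold Kg
    rw [hI]
    ring
  unfold Gr
  simp only [hK]
  rw [intervalIntegral.integral_const_mul]

theorem fix_vv {η : ℝ} (h : Par n η) (s : ℝ) :
    vv n η s = 1 + Gr n (NN (fun s => 1 * Af n η s) (Hf n η) (vv n η)) s := by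
  have e : NN (fun s => 1 * Af n η s) (Hf n η) (vv n η) = fun t => -η * bd t :=
    funext fun t => NN_vv h t
  rw [e, Gr_smul]
  unfold vv ze
  ring

end Pool.Agent.R207.AF
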