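import Pool.Agent.R207.AF5

set_option autoImplicit false

/-! # Question 1 -/

namespace Pool.Agent.R207.AF

open MeasureTheory Real Set Filter Topology InnerProductSpace Laplacian
open scoped ContDiff
open Pool.Agent.R207.QC
open Pool.Agent.R207.HH (L chi chi_smooth chi_one chi_zero has_deriv deriv_smooth)
open Pool.Agent.R207.AC
open Pool.Agent.R207.AD (Adm Ig Kg Gr Gr_mono Gr_lim Gr_one NN vs vs_smooth vs_eq vs_pos lw lw_smooth wt
  wt_smooth el b2 b2_smooth b2_nonneg b2_left b2_right b2_adm Ig_b2 P2_ge P2_nonneg el_smooth el_le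
  el_ge el_deriv smooth_mul Gr_lin Gr_nonneg Gr_split b2_cases exists_point)

variable {n : ℕ}

theorem conv_log {a b : ℝ} (ha : 0 < a) (hab : a ≤ b) :
    (1 + Real.log a) * (b - a) ≤ b * Real.log b - a * Real.log a := by
  have hb : 0 < b := ha.trans_le hab
  have h := Real.log_le_sub_one_of_pos (div_pos ha hb)
  rw [Real.log_div ha.ne' hb.ne'] at h
  have h2 := mul_le_mul_of_nonneg_left h hb.le
  have e : b * (a / b - 1) = a - b := by
    field_simp
  rw [e] at h2
  nlinarith

theorem log_upper {V d : ℝ} (hV : 0 < V) (hd : 0 ≤ d) :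
    (V + d) * Real.log (V + d) ≤ V * Real.log V + (1 + Real.log V) * d + d ^ 2 / V := by
  have hVd : 0 < V + d := by linarith
  have h := Real.log_le_sub_one_of_pos (div_pos hVd hV)
  rw [Real.log_div hVd.ne' hV.ne'] at h
  have h2 := mul_le_mul_of_nonneg_left h hVd.le
  have e : (V + d) * ((V + d) / V - 1) = d + d ^ 2 / V := by
    field_simp
    ring
  rw [e] at h2
  nlinarith

theorem mul_log_ge {y : ℝ} (hy : 0 < y) : -1 ≤ y * Real.log y := by
  have h := Real.one_sub_inv_le_log_of_pos hy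
  have h2 := mul_le_mul_of_nonneg_left h hy.le
  rw [mul_sub, mul_inv_cancel₀ hy.ne'] at h2
  linarith

theorem Par.mon {η l : ℝ} (h : Par n η) (hl : 1 / 2 ≤ l) (hi : ℝ → ℝ) :
    Mon (fun s => l * Af n η s) (Hf n η) (vv n η) hi := by
  intro s hs a b hva hab _
  have hv := h.v_ge hs
  have hv1 := h.v_le hs
  have ha : 0 < a := by linarith
  have hb : 0 < b := ha.trans_le hab
  show (l * Af n η s * Real.log a + Hf n η s) * a ≤ (l * Af n η s * Real.log b + Hf n η s) * b
  rcases hs.2.lt_or_eq with hs1 | hs1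
  · have hA := h.Af_nonneg s
    have hA1 := h.Af_ge hs.1 hs1
    have hd := h.dom hs.1 hs1
    have hg := gp_nonneg (n := n) hs.1 hs1
    have hlogv : Real.log (vv n η s) ≤ 0 := Real.log_nonpos (by linarith) hv1
    have hH : -(1 / 15 * (g1 s * (1 / ph n s))) ≤ Hf n η s := by
      unfold Hf
      have h1 := le_abs_self (bd s * (η / vv n η s))
      have h2 : Af n η s * Real.log (vv n η s) ≤ 0 := mul_nonpos_of_nonneg_of_nonpos hA hlogv
      linarith
    have hla : -(1 / 3) ≤ Real.log a := by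
      have h1 := Real.one_sub_inv_le_log_of_pos ha
      have h2 : a⁻¹ ≤ 4 / 3 := by
        rw [inv_le_comm₀ ha (by norm_num)]
        norm_num
        linarith
      linarith
    have h3 : 1 / 3 * Af n η s ≤ l * Af n η s * (1 + Real.log a) := by
      have h4 : 1 / 3 ≤ l * (1 + Real.log a) := by nlinarith
      nlinarith
    have h5 := conv_log ha hab
    have hlA : 0 ≤ l * Af n η s := mul_nonneg (by linarith) hA
    have h6 := mul_le_mul_of_nonneg_left h5 hlA
    have h7 : 0 ≤ (l * Af n η s * (1 + Real.log a) + Hf n η s) * (b - a) := by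
      apply mul_nonneg _ (by linarith)
      linarith
    nlinarith
  · have e1 : Af n η s = 0 := Af_out (Or.inr (by linarith))
    have e2 : Hf n η s = 0 := (cof h l).rH s hs1.ge
    rw [e1, e2]
    simp

theorem Par.sub {η l : ℝ} (h : Par n η) (hl : l ≤ 1) {s : ℝ} (hs : s ∈ Icc (0 : ℝ) 1) :
    vv n η s ≤ 1 + Gr n (NN (fun s => l * Af n η s) (Hf n η) (vv n η)) s := by
  have hpos : ∀ s ∈ Icc (0 : ℝ) 1, 0 < vv n η s := fun s hs => by linarith [h.v_ge hs]
  have hle : ∀ t, NN (fun s => 1 * Af n η s) (Hf n η) (vv n η) t ≤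
      NN (fun s => l * Af n η s) (Hf n η) (vv n η) t := by
    intro t
    by_cases ht : t ∈ Icc (0 : ℝ) 1
    · unfold NN
      have hA := h.Af_nonneg t
      have hv := h.v_ge ht
      have hlogv : Real.log (vv n η t) ≤ 0 := Real.log_nonpos (by linarith) (h.v_le ht)
      apply mul_le_mul_of_nonneg_right _ (by linarith)
      have : 0 ≤ (l - 1) * (Af n η t * Real.log (vv n η t)) :=
        mul_nonneg_of_nonpos_of_nonpos (by linarith) (mul_nonpos_of_nonneg_of_nonpos hA hlogv)
      show 1 * Af n η t * Real.log (vv n η t) + Hf n η t ≤ l * Af n η t * Real.log (vv n η t) + Hf n η t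
      linarith
    · rw [(cof h 1).NN_out _ ht, (cof h l).NN_out _ ht]
  have := Gr_mono (n := n) ((cof h 1).NN_adm (vv_smooth η).continuous hpos)
    ((cof h l).NN_adm (vv_smooth η).continuous hpos) hle hs.1 hs.2
  have h2 := fix_vv (n := n) h s
  linarith

/-- the key algebraic identity at the threshold -/
theorem Par.key {η : ℝ} (h : Par n η) {s : ℝ} (h0 : 0 ≤ s) (h1 : s < 1) :
    Af n η s * (1 + Real.log (vv n η s)) + Hf n η s = g1 s * (1 / ph n s) := by
  unfold Hf
  have : Af n η s = g1 s * (1 / ph n s) + bd s * (η / vv n η s) := rfl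
  linear_combination this

/-- the pointwise inequality for the supersolution -/
theorem pw {A H V d g P E1 E2 t l e2 X : ℝ} (hv : 3 / 4 ≤ V) (hd0 : 0 ≤ d) (hd : d = t * E1)
    (hA : 0 ≤ A) (hAle : A ≤ 16 / 15 * (g * (1 / P))) (hg : 0 ≤ g) (hP0 : 0 < P)
    (hP : P = E1 + E2) (hE2 : e2 ≤ E2) (htp : 0 < t) (hl1 : l ≤ 1)
    (hkey : A * (1 + Real.log V) + H = g * (1 / P)) (hNN : (A * Real.log V + H) * V = X)
    (s6 : 2 * d ^ 2 + 2 * (1 - l) ≤ t * e2) :
    (l * A * Real.log (V + d) + H) * (V + d) ≤ X + t * g := by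
  have hv0 : 0 < V := by linarith
  have hlu := log_upper hv0 hd0
  have hml := mul_log_ge (by linarith : 0 < V + d)
  have hgP : 0 ≤ g * (1 / P) := by positivity
  have s1 : (l * A * Real.log (V + d) + H) * (V + d) =
      A * ((V + d) * Real.log (V + d)) + H * (V + d) -
        (1 - l) * (A * ((V + d) * Real.log (V + d))) := by ring
  have s2 : A * ((V + d) * Real.log (V + d)) ≤
      A * (V * Real.log V + (1 + Real.log V) * d + d ^ 2 / V) :=
    mul_le_mul_of_nonneg_left hlu hA
  have s3 : -((1 - l) * (A * ((V + d) * Real.log (V + d)))) ≤ (1 - l) * A := by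
    have : 0 ≤ (1 - l) * A * ((V + d) * Real.log (V + d) + 1) :=
      mul_nonneg (mul_nonneg (by linarith) hA) (by linarith)
    linarith
  have s4 : A * (V * Real.log V + (1 + Real.log V) * d + d ^ 2 / V) + H * (V + d) =
      X + g * (1 / P) * d + A * (d ^ 2 / V) := by
    rw [← hNN, ← hkey]
    ring
  have s5 : A * (d ^ 2 / V + (1 - l)) ≤ 16 / 15 * (g * (1 / P)) * (4 / 3 * d ^ 2 + (1 - l)) := by
    have h1 : d ^ 2 / V ≤ 4 / 3 * d ^ 2 := by
      rw [div_le_iff₀ hv0]
      nlinarith [sq_nonneg d]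
    have h2 : 0 ≤ d ^ 2 / V := by positivity
    exact mul_le_mul hAle (by linarith) (by linarith) (by positivity)
  have s7 : g * (1 / P) * d + 16 / 15 * (g * (1 / P)) * (4 / 3 * d ^ 2 + (1 - l)) ≤ t * g := by
    have h2 : d + 16 / 15 * (4 / 3 * d ^ 2 + (1 - l)) ≤ t * P := by
      have h5 : t * P = d + t * E2 := by
        rw [hP, hd]
        ring
      rw [h5]
      have h3 : t * e2 ≤ t * E2 := mul_le_mul_of_nonneg_left hE2 htp.le
      have h4 := sq_nonneg d
      linarith
    have h3 : g * (1 / P) * d + 16 / 15 * (g * (1 / P)) * (4 / 3 * d ^ 2 + (1 - l)) =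
        (g * (1 / P)) * (d + 16 / 15 * (4 / 3 * d ^ 2 + (1 - l))) := by ring
    rw [h3]
    refine (mul_le_mul_of_nonneg_left h2 hgP).trans (le_of_eq ?_)
    field_simp
  rw [s1]
  have s8 : A * (d ^ 2 / V + (1 - l)) = A * (d ^ 2 / V) + (1 - l) * A := by ring
  linarith

theorem Par.sup {η : ℝ} (h : Par n η) : ∃ t δ : ℝ, 0 < t ∧ 0 < δ ∧ δ ≤ 1 / 2 ∧
    ∀ l : ℝ, 1 - δ ≤ l → l ≤ 1 → ∀ s ∈ Icc (0 : ℝ) 1,
      1 + Gr n (NN (fun s => l * Af n η s) (Hf n η) (fun s => vv n η s + t * Gr n g1 s)) s ≤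
        vv n η s + t * Gr n g1 s := by
  have hE1c : Continuous (Gr n g1) := g1_adm.Gr_cont
  obtain ⟨Em, hEm⟩ := (isCompact_Icc (a := (0 : ℝ)) (b := 1)).exists_bound_of_continuousOn
    hE1c.continuousOn
  have hm := mm_pos
  set e2 : ℝ := 1 / 10 * mm (1 / 3) with he2
  have he2p : 0 < e2 := by positivity
  set t : ℝ := e2 / (4 * (Em ^ 2 + 1)) with ht
  have htp : 0 < t := by positivity
  have htE : 2 * t * Em ^ 2 ≤ e2 / 2 := by
    rw [ht, mul_div_assoc', div_mul_eq_mul_div, div_le_div_iff₀ (by positivity) (by norm_num)]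
    nlinarith
  refine ⟨t, min (1 / 2) (t * e2 / 4), htp, by positivity, min_le_left _ _, ?_⟩
  intro l hl hl1 s hs
  have hlδ : 1 - l ≤ t * e2 / 4 := by
    have := min_le_right (1 / 2) (t * e2 / 4)
    linarith
  have hl0 : 1 / 2 ≤ l := by
    have := min_le_left (1 / 2) (t * e2 / 4)
    linarith
  set hi : ℝ → ℝ := fun s => vv n η s + t * Gr n g1 s with hhi
  have hhic : Continuous hi := (vv_smooth η).continuous.add (continuous_const.mul hE1c)
  have hpos : ∀ s ∈ Icc (0 : ℝ) 1, 0 < hi s := fun s hs => by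
    have a := h.v_ge hs
    have b := mul_nonneg htp.le (E1_nonneg (n := n) hs.1 hs.2)
    show 0 < vv n η s + t * Gr n g1 s
    linarith
  have hrhs : Adm (fun s => -η * bd s + t * g1 s) := by
    apply adm_of ((continuous_const.mul bd_smooth.continuous).add
      (continuous_const.mul g1_smooth.continuous))
    · intro s hs
      show -η * bd s + t * g1 s = 0
      rw [bd_zero (Or.inl (by linarith)), g1_left hs]
      ring
    · intro s hs
      show -η * bd s + t * g1 s = 0
      rw [bd_zero (Or.inr (by linarith)), g1_right (by linarith)]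
      ring
  have hle : ∀ s, NN (fun s => l * Af n η s) (Hf n η) hi s ≤ -η * bd s + t * g1 s := by
    intro s
    by_cases hs : s ∈ Icc (0 : ℝ) 1
    · rcases lt_or_ge s (3 / 4) with hs1 | hs1
      · have hs1' : s < 1 := by linarith
        have hv := h.v_ge hs
        have hv0 : 0 < vv n η s := by linarith
        have hA := h.Af_nonneg s
        have hAle := h.Af_le hs.1 hs1'
        have hkey := h.key hs.1 hs1'
        have hNN := NN_vv (n := n) h s
        have hph := ph_pos (n := n) hs.1 hs1'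
        have hE1 := E1_nonneg (n := n) hs.1 hs.2
        have hE1m : Gr n g1 s ≤ Em := (le_abs_self _).trans (hEm s hs)
        have hE2 := E2_ge (n := n) hs.1 (by linarith : s ≤ 9 / 10)
        have hg1 := g1_nonneg s
        set V := vv n η s with hV
        set d := t * Gr n g1 s with hd
        have hd0 : 0 ≤ d := mul_nonneg htp.le hE1
        set A := Af n η s with hAd
        have s6 : 2 * d ^ 2 + 2 * (1 - l) ≤ t * e2 := by
          have h1 : d ^ 2 ≤ t ^ 2 * Em ^ 2 := by
            rw [hd, mul_pow]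
            exact mul_le_mul_of_nonneg_left (pow_le_pow_left₀ hE1 hE1m 2) (by positivity)
          nlinarith
        have hNN' : (A * Real.log V + Hf n η s) * V = -η * bd s := by
          have : (1 * A * Real.log V + Hf n η s) * V = -η * bd s := hNN
          linarith
        exact pw hv hd0 hd hA hAle hg1 hph rfl hE2 htp hl1 hkey hNN' s6
      · have e1 : Af n η s = 0 := Af_out (Or.inr hs1)
        have e2 : bd s = 0 := bd_zero (Or.inr (by linarith))
        have e3 : Hf n η s = 0 := by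
          unfold Hf
          rw [e1, e2]
          ring
        show (l * Af n η s * Real.log (hi s) + Hf n η s) * hi s ≤ -η * bd s + t * g1 s
        rw [e1, e2, e3, g1_right hs1]
        simp
    · rw [(cof h l).NN_out _ hs]
      have e2 : bd s = 0 := by
        rw [mem_Icc, not_and_or, not_le, not_le] at hs
        rcases hs with hs | hs
        · exact bd_zero (Or.inl (by linarith))
        · exact bd_zero (Or.inr (by linarith))
      have := g1_nonneg s
      rw [e2]
      nlinarith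
  have h1 := Gr_mono (n := n) ((cof h l).NN_adm hhic hpos) hrhs hle hs.1 hs.2
  rw [Gr_lin bd_adm g1_adm] at h1
  have h2 : vv n η s = 1 - η * Gr n bd s := rfl
  show 1 + Gr n (NN (fun s => l * Af n η s) (Hf n η) hi) s ≤ vv n η s + t * Gr n g1 s
  rw [h2]
  linarith

/-- Question 1 in every dimension -/
theorem q1_main (hn : 1 ≤ n) :
    ∃ (c h ustar : E n → ℝ) (δ : ℝ),
      (ContDiff ℝ ∞ c ∧ HasCompactSupport c ∧ tsupport c ⊆ B n) ∧
      (ContDiff ℝ ∞ h ∧ HasCompactSupport h ∧ tsupport h ⊆ B n) ∧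
      (∀ x, 0 ≤ c x) ∧ (∃ x ∈ B n, 0 < c x) ∧
      ContDiff ℝ ∞ ustar ∧ (∀ x ∈ B n, ustar x ≤ 0) ∧
      IsSol (B n) c (fun _ => 1) h 1 ustar ∧
      (∀ lam : ℝ, lam < 1 → ∀ u : E n → ℝ, IsSol (B n) c (fun _ => 1) h lam u →
        ¬ ∀ᵐ x ∂(volume.restrict (B n)), u x ≤ 0) ∧
      0 < δ ∧ (∀ lam : ℝ, 1 - δ < lam → lam < 1 → ∃ u : E n → ℝ, ContDiff ℝ ∞ u ∧
        IsSol (B n) c (fun _ => 1) h lam u) := by
  obtain ⟨η, hη⟩ := exists_par n
  have hAs := Af_smooth (n := n) hη
  have hcof1 := cof (n := n) hη 1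
  have hHs := hcof1.sH
  have hAl : ∀ s, s ≤ 1 / 6 → Af n η s = 0 := fun s hs => Af_out (Or.inl hs)
  have hcs := wt_smooth (n := n) hAs hAl
  have hhs := wt_smooth (n := n) hHs hcof1.lH
  have hHr : ∀ s, 3 / 4 ≤ s → Hf n η s = 0 := by
    intro s hs
    unfold Hf
    rw [Af_out (Or.inr hs), bd_zero (Or.inr (by linarith))]
    ring
  have hcc := tsupport_B (f := fun x : E n => wt n (Af n η) (qq x)) (r := 3 / 4) (by norm_num)
    fun x hx => by
      unfold wt
      rw [Af_out (Or.inr hx.le), mul_zero]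
  have hhc := tsupport_B (f := fun x : E n => wt n (Hf n η) (qq x)) (r := 3 / 4) (by norm_num)
    fun x hx => by
      unfold wt
      rw [hHr _ hx.le, mul_zero]
  have hrp : ∀ s : ℝ, 0 ≤ s → 0 ≤ s ^ (1 - (n : ℝ) / 2) := fun s hs => Real.rpow_nonneg hs _
  have hc0 : ∀ x : E n, 0 ≤ wt n (Af n η) (qq x) := fun x =>
    mul_nonneg (mul_nonneg (by norm_num) (hrp _ (AC.qq_nonneg x))) (hη.Af_nonneg _)
  have hvge : ∀ s ∈ Icc (0 : ℝ) 1, 1 / 2 < vv n η s := fun s hs => by linarith [hη.v_ge hs]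
  have hsol1 := sol_profile' (n := n) (C := Af n η) (lam := 1) hcof1 hAs hAl (fun s => rfl)
    (vv_smooth η) hvge (fix_vv hη)
  have hlwv : ∀ s ∈ Icc (0 : ℝ) 1, lw (vv n η) s = Real.log (vv n η s) := by
    intro s hs
    unfold lw
    rw [vs_eq (hvge s hs).le]
  obtain ⟨x0, hx0⟩ := exists_point (n := n) hn (by norm_num : (0 : ℝ) ≤ 1 / 2)
  have hx0B : x0 ∈ B n := mem_B.mpr (by rw [hx0]; norm_num)
  have hcx0 : 0 < wt n (Af n η) (qq x0) := by
    rw [hx0]
    have h1 := hη.Af_ge (s := 1 / 2) (by norm_num) (by norm_num)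
    have h2 := ph_pos (n := n) (s := 1 / 2) (by norm_num) (by norm_num)
    rw [g1_one (by norm_num) (by norm_num)] at h1
    have h3 : 0 < 14 / 15 * (1 * (1 / ph n (1 / 2))) := by positivity
    exact mul_pos (mul_pos (by norm_num) (Real.rpow_pos_of_pos (by norm_num) _)) (by linarith)
  have hgx0 : lw (vv n η) (qq x0) < 0 := by
    rw [hx0, hlwv _ ⟨by norm_num, by norm_num⟩]
    apply Real.log_neg
    · linarith [hvge (1 / 2) ⟨by norm_num, by norm_num⟩]
    · have := mul_pos hη.pos (ze_pos (n := n))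
      unfold vv
      linarith
  obtain ⟨t, δ, ht, hδ, hδ2, hsup⟩ := hη.sup
  refine ⟨fun x => wt n (Af n η) (qq x), fun x => wt n (Hf n η) (qq x), fun x => lw (vv n η) (qq x), δ,
    ⟨hcs.comp qq_smooth, hcc.1, hcc.2⟩, ⟨hhs.comp qq_smooth, hhc.1, hhc.2⟩, hc0, ⟨x0, hx0B, hcx0⟩,
    (lw_smooth (vv_smooth η)).comp qq_smooth, ?_, hsol1, ?_, hδ, ?_⟩
  · intro x hx
    have hqI : qq x ∈ Icc (0 : ℝ) 1 := ⟨AC.qq_nonneg x, (mem_B.mp hx).le⟩
    show lw (vv n η) (qq x) ≤ 0
    rw [hlwv _ hqI]
    exact Real.log_nonpos (by linarith [hvge _ hqI]) (hη.v_le hqI)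
  · intro lam hlam u hu hneg
    refine nonexist (σ := fun x => wt n (b2 (1 / 10)) (qq x)) (f := ph n) (g := lw (vv n η))
      (hcs.continuous.comp qq_smooth.continuous) (hhs.continuous.comp qq_smooth.continuous) hc0
      one_pos ph_smooth ph_one (fun s h0 h1 => ph_pos h0 h1) (lw_smooth (vv_smooth η)) hsol1
      ?_ ?_ ?_ ⟨x0, hx0B, hcx0, hgx0⟩ hlam hu hneg
    · intro x hx
      exact mul_nonneg (mul_nonneg (by norm_num) (hrp _ (AC.qq_nonneg x))) (b2_nonneg (by norm_num) _)
    · intro x hx hσ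
      have hqI : qq x ∈ Icc (0 : ℝ) 1 := ⟨AC.qq_nonneg x, (mem_B.mp hx).le⟩
      rcases b2_cases (δ := 1 / 10) (by norm_num) (qq x) with h | h
      · exfalso
        apply hσ
        show wt n (b2 (1 / 10)) (qq x) = 0
        unfold wt
        rw [h, mul_zero]
      · rw [hlwv _ hqI]
        unfold vv
        rw [ze_zero (by linarith [h.1]) hqI.2]
        simp
    · intro x hx
      have h0 := AC.qq_nonneg x
      have h1 := mem_B.mp hx
      have hqI : qq x ∈ Icc (0 : ℝ) 1 := ⟨h0, h1.le⟩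
      rw [lap_rad ph_smooth, hlwv _ hqI]
      have hLp : L n (ph n) (qq x) = L n (Gr n g1) (qq x) + L n (Gr n (b2 (1 / 10))) (qq x) := by
        have hs1 := g1_adm.Gr_smooth (n := n) g1_smooth
        have hs2 := b2_adm'.Gr_smooth (n := n) b2_smooth
        have e1 : deriv (ph n) = fun s => deriv (Gr n g1) s + deriv (Gr n (b2 (1 / 10))) s := by
          ext s
          exact ((has_deriv hs1 s).add (has_deriv hs2 s)).deriv
        have e2 : deriv (deriv (ph n)) (qq x) = deriv (deriv (Gr n g1)) (qq x) +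
            deriv (deriv (Gr n (b2 (1 / 10)))) (qq x) := by
          rw [e1]
          exact ((has_deriv (deriv_smooth hs1) _).add (has_deriv (deriv_smooth hs2) _)).deriv
        unfold L
        rw [e2, e1]
        ring
      rw [hLp, g1_adm.L_Gr g1_smooth.continuous, b2_adm'.L_Gr b2_smooth.continuous]
      have hkey := hη.key h0 h1
      have hph := ph_pos (n := n) h0 h1
      show _ = (1 * wt n (Af n η) (qq x) * (1 + Real.log (vv n η (qq x))) + wt n (Hf n η) (qq x)) *
        ph n (qq x) + wt n (b2 (1 / 10)) (qq x)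
      unfold wt
      have e : (1 * (4 * qq x ^ (1 - (n : ℝ) / 2) * Af n η (qq x)) * (1 + Real.log (vv n η (qq x))) +
          4 * qq x ^ (1 - (n : ℝ) / 2) * Hf n η (qq x)) * ph n (qq x) =
          4 * qq x ^ (1 - (n : ℝ) / 2) * ((Af n η (qq x) * (1 + Real.log (vv n η (qq x))) +
            Hf n η (qq x)) * ph n (qq x)) := by ring
      rw [e, hkey]
      field_simp
      ring
  · intro lam hlam1 hlam2
    have hcofl := cof (n := n) hη lam
    have hle : ∀ s ∈ Icc (0 : ℝ) 1, vv n η s ≤ vv n η s + t * Gr n g1 s := by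
      intro s hs
      have := mul_nonneg ht.le (E1_nonneg (n := n) hs.1 hs.2)
      linarith
    obtain ⟨w, hws, hw1, -, hwf⟩ := hcofl.exists_between (n := n) (vv_smooth η).continuous
      ((vv_smooth η).continuous.add (continuous_const.mul g1_adm.Gr_cont))
      (fun s hs => by linarith [hη.v_ge hs]) hle (hη.mon (by linarith) _)
      (fun s hs => hη.sub hlam2.le hs) (hsup lam hlam1.le hlam2.le)
    exact ⟨_, (lw_smooth hws).comp qq_smooth, sol_profile' hcofl hAs hAl (fun s => rfl) hws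
      (fun s hs => by linarith [hη.v_ge hs, hw1 s hs]) hwf⟩

end Pool.Agent.R207.AF
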