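import Pool.Agent.R207.AF6

set_option autoImplicit false

/-! # Question 2 -/

namespace Pool.Agent.R207.AF

open MeasureTheory Real Set Filter Topology InnerProductSpace Laplacian
open scoped ContDiff
open Pool.Agent.R207.QC
open Pool.Agent.R207.HH (L chi chi_smooth chi_one chi_zero has_deriv deriv_smooth)
open Pool.Agent.R207.AC
open Pool.Agent.R207.AD (Adm Ig Kg Gr Gr_mono Gr_lim Gr_one NN vs vs_smooth vs_eq vs_pos lw lw_smooth wt
  wt_smooth smooth_mul Gr_lin Gr_nonneg Gr_split exists_point bm_adm bm_cases P1_core barta first_ge)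

variable {n : ℕ}

/-- Neumann iteration -/
noncomputable def nt (n : ℕ) (C : ℝ → ℝ) (t : ℝ) : ℕ → ℝ → ℝ
  | 0 => fun _ => 1
  | k + 1 => fun s => 1 - t * Gr n (fun s => C s * nt n C t k s) s

/-- solution of the linear problem `w = 1 - t Gr (C w)` -/
theorem exists_lin {C : ℝ → ℝ} (hC : ContDiff ℝ ∞ C) (hC0 : ∀ s, 0 ≤ C s)
    (hCl : ∀ s, s ≤ 1 / 6 → C s = 0) (hCr : ∀ s, 1 ≤ s → C s = 0) {t : ℝ} (ht : 0 < t)
    (hT : ∀ s ∈ Icc (0 : ℝ) 1, t * Gr n C s ≤ 1 / 4) :
    ∃ w : ℝ → ℝ, ContDiff ℝ ∞ w ∧ (∀ s ∈ Icc (0 : ℝ) 1, 2 / 3 ≤ w s) ∧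
      (∀ s ∈ Icc (0 : ℝ) 1, w s ≤ 1) ∧ (∀ s, w s = 1 - t * Gr n (fun s => C s * w s) s) := by
  have hAC : ∀ {w : ℝ → ℝ}, Continuous w → Adm (fun s => C s * w s) := fun hw =>
    adm_of (hC.continuous.mul hw) (fun s hs => by rw [hCl s hs, zero_mul])
      (fun s hs => by rw [hCr s hs, zero_mul])
  have hCA : Adm C := adm_of hC.continuous hCl hCr
  have hcont : ∀ k, Continuous (nt n C t k) := by
    intro k
    induction k with
    | zero => exact continuous_const
    | succ k ih => exact continuous_const.sub (continuous_const.mul (hAC ih).Gr_cont)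
  have hdiff : ∀ k, ∀ s ∈ Icc (0 : ℝ) 1,
      |nt n C t (k + 1) s - nt n C t k s| ≤ 1 / 4 * (1 / 4) ^ k := by
    intro k
    induction k with
    | zero =>
      intro s hs
      have e : nt n C t (0 + 1) s - nt n C t 0 s = -(t * Gr n C s) := by
        show (1 - t * Gr n (fun s => C s * 1) s) - 1 = _
        simp only [mul_one]
        ring
      rw [e, abs_neg, abs_of_nonneg (mul_nonneg ht.le (Gr_nonneg hCA hC0 hs.1 hs.2)), pow_zero, mul_one]
      exact hT s hs
    | succ k ih =>
      intro s hs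
      have hA1 := hAC (hcont (k + 1))
      have hA0 := hAC (hcont k)
      have e : nt n C t (k + 1 + 1) s - nt n C t (k + 1) s =
          -t * Gr n (fun s => 1 * (C s * nt n C t (k + 1) s) + (-1) * (C s * nt n C t k s)) s := by
        rw [Gr_lin hA1 hA0]
        show (1 - t * Gr n (fun s => C s * nt n C t (k + 1) s) s) -
          (1 - t * Gr n (fun s => C s * nt n C t k s) s) = _
        ring
      set r : ℝ := 1 / 4 * (1 / 4) ^ k with hr
      have hr0 : 0 ≤ r := by positivity
      have hA2 : Adm (fun s => 1 * (C s * nt n C t (k + 1) s) + (-1) * (C s * nt n C t k s)) :=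
        adm_of (((hC.continuous.mul (hcont (k + 1))).const_mul 1).add
          ((hC.continuous.mul (hcont k)).const_mul (-1)))
          (fun s hs => by rw [hCl s hs]; ring) (fun s hs => by rw [hCr s hs]; ring)
      have hAr : Adm (fun s => r * C s) :=
        adm_of (continuous_const.mul hC.continuous) (fun s hs => by rw [hCl s hs, mul_zero])
          (fun s hs => by rw [hCr s hs, mul_zero])
      have hArn : Adm (fun s => -r * C s) :=
        adm_of (continuous_const.mul hC.continuous) (fun s hs => by rw [hCl s hs, mul_zero])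
          (fun s hs => by rw [hCr s hs, mul_zero])
      have hb : ∀ s, |1 * (C s * nt n C t (k + 1) s) + (-1) * (C s * nt n C t k s)| ≤ r * C s := by
        intro s
        by_cases hs : s ∈ Icc (0 : ℝ) 1
        · have e2 : 1 * (C s * nt n C t (k + 1) s) + (-1) * (C s * nt n C t k s) =
              C s * (nt n C t (k + 1) s - nt n C t k s) := by ring
          rw [e2, abs_mul, abs_of_nonneg (hC0 s), mul_comm]
          exact mul_le_mul_of_nonneg_right (ih s hs) (hC0 s)
        · have h0 : C s = 0 := by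
            rw [mem_Icc, not_and_or, not_le, not_le] at hs
            rcases hs with hs | hs
            · exact hCl s (by linarith)
            · exact hCr s hs.le
          rw [h0]
          simp
      have u1 := Gr_mono (n := n) hA2 hAr (fun s => (le_abs_self _).trans (hb s)) hs.1 hs.2
      have u2 := Gr_mono (n := n) hArn hA2
        (fun s => by linarith [(neg_abs_le (1 * (C s * nt n C t (k + 1) s) +
          (-1) * (C s * nt n C t k s))), hb s]) hs.1 hs.2
      rw [Gr_smul] at u1 u2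
      have hG0 := Gr_nonneg (n := n) hCA hC0 hs.1 hs.2
      have hTs := hT s hs
      have habs : |Gr n (fun s => 1 * (C s * nt n C t (k + 1) s) + (-1) * (C s * nt n C t k s)) s| ≤
          r * Gr n C s := abs_le.mpr ⟨by linarith, u1⟩
      rw [e, abs_mul, abs_neg, abs_of_pos ht]
      calc t * |Gr n (fun s => 1 * (C s * nt n C t (k + 1) s) + (-1) * (C s * nt n C t k s)) s|
          ≤ t * (r * Gr n C s) := mul_le_mul_of_nonneg_left habs ht.le
        _ = r * (t * Gr n C s) := by ring
        _ ≤ r * (1 / 4) := mul_le_mul_of_nonneg_left hTs hr0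
        _ = 1 / 4 * (1 / 4) ^ (k + 1) := by rw [hr]; ring
  have hone : ∀ k, ∀ s ∈ Icc (0 : ℝ) 1, |nt n C t k s - 1| ≤ 1 / 3 * (1 - (1 / 4) ^ k) := by
    intro k
    induction k with
    | zero =>
      intro s hs
      show |(1 : ℝ) - 1| ≤ _
      simp
    | succ k ih =>
      intro s hs
      have h1 := hdiff k s hs
      have h2 := ih s hs
      have h3 := abs_add_le (nt n C t (k + 1) s - nt n C t k s) (nt n C t k s - 1)
      have e : nt n C t (k + 1) s - nt n C t k s + (nt n C t k s - 1) = nt n C t (k + 1) s - 1 := by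
        ring
      rw [e] at h3
      have h4 : (1 / 4 : ℝ) ^ (k + 1) = 1 / 4 * (1 / 4) ^ k := by ring
      rw [h4]
      linarith
  have hbd : ∀ k, ∀ s ∈ Icc (0 : ℝ) 1, 2 / 3 ≤ nt n C t k s ∧ nt n C t k s ≤ 4 / 3 := by
    intro k s hs
    have h1 := hone k s hs
    have h2 : (0 : ℝ) < (1 / 4) ^ k := by positivity
    have h3 := abs_le.mp h1
    constructor <;> linarith [h3.1, h3.2]
  -- pointwise limits
  have hlimI : ∀ s ∈ Icc (0 : ℝ) 1, ∃ l, Tendsto (fun k => nt n C t k s) atTop (𝓝 l) := by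
    intro s hs
    apply cauchySeq_tendsto_of_complete
    apply cauchySeq_of_le_geometric (1 / 4) (1 / 4) (by norm_num)
    intro k
    rw [dist_comm, Real.dist_eq]
    exact hdiff k s hs
  choose! l hl using hlimI
  set g' : ℝ → ℝ := fun s => if s ∈ Icc (0 : ℝ) 1 then C s * l s else 0 with hg'
  have hCout : ∀ s, s ∉ Icc (0 : ℝ) 1 → C s = 0 := by
    intro s hs
    rw [mem_Icc, not_and_or, not_le, not_le] at hs
    rcases hs with hs | hs
    · exact hCl s (by linarith)
    · exact hCr s hs.le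
  have hgl : ∀ s, Tendsto (fun k => C s * nt n C t k s) atTop (𝓝 (g' s)) := by
    intro s
    by_cases hs : s ∈ Icc (0 : ℝ) 1
    · have : g' s = C s * l s := if_pos hs
      rw [this]
      exact (hl s hs).const_mul (C s)
    · have : g' s = 0 := if_neg hs
      rw [this]
      have e : (fun k => C s * nt n C t k s) = fun _ => (0 : ℝ) := by
        ext k
        rw [hCout s hs, zero_mul]
      rw [e]
      exact tendsto_const_nhds
  obtain ⟨MC, hMC⟩ := hCA.bdd
  have hMk : ∀ k s, |C s * nt n C t k s| ≤ 4 / 3 * MC := by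
    intro k s
    by_cases hs : s ∈ Icc (0 : ℝ) 1
    · have h1 := hbd k s hs
      rw [abs_mul, mul_comm]
      have h2 : |nt n C t k s| ≤ 4 / 3 := abs_le.mpr ⟨by linarith [h1.1], h1.2⟩
      exact mul_le_mul h2 (hMC s) (abs_nonneg _) (by norm_num)
    · rw [hCout s hs, zero_mul, abs_zero]
      have := (abs_nonneg _).trans (hMC 0)
      positivity
  obtain ⟨hAg, hGl⟩ := Gr_lim (n := n) (fun k => hAC (hcont k)) hMk hgl
  set w : ℝ → ℝ := fun s => 1 - t * Gr n g' s with hw
  have hwl : ∀ s, Tendsto (fun k => nt n C t (k + 1) s) atTop (𝓝 (w s)) := fun s =>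
    ((hGl s).const_mul t).const_sub 1
  have hwc : Continuous w := continuous_const.sub (continuous_const.mul hAg.Gr_cont)
  have hw23 : ∀ s ∈ Icc (0 : ℝ) 1, 2 / 3 ≤ w s := fun s hs =>
    ge_of_tendsto (hwl s) (Eventually.of_forall fun k => (hbd (k + 1) s hs).1)
  have hgw : g' = fun s => C s * w s := by
    ext s
    by_cases hs : s ∈ Icc (0 : ℝ) 1
    · have h1 : Tendsto (fun k => C s * nt n C t (k + 1) s) atTop (𝓝 (g' s)) :=
        (hgl s).comp (tendsto_add_atTop_nat 1)
      exact tendsto_nhds_unique h1 ((hwl s).const_mul (C s))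
    · have : g' s = 0 := if_neg hs
      rw [this, hCout s hs, zero_mul]
  have hfix : ∀ s, w s = 1 - t * Gr n (fun s => C s * w s) s := by
    intro s
    rw [← hgw]
  have hw1 : ∀ s ∈ Icc (0 : ℝ) 1, w s ≤ 1 := by
    intro s hs
    rw [hfix s]
    have : 0 ≤ Gr n (fun s => C s * w s) s := by
      apply Gr_nonneg (hAC hwc) _ hs.1 hs.2
      intro s
      by_cases hs : s ∈ Icc (0 : ℝ) 1
      · exact mul_nonneg (hC0 s) (by linarith [hw23 s hs])
      · rw [hCout s hs, zero_mul]
    have := mul_nonneg ht.le this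
    linarith
  have hreg : ∀ k : ℕ, ContDiff ℝ k w := by
    intro k
    induction k with
    | zero => simpa using hwc
    | succ k ih =>
      have h1 := (hAC hwc).Gr_contDiff (n := n) ((contDiff_infty.mp hC k).mul ih)
      have h2 : w = fun s => 1 - t * Gr n (fun s => C s * w s) s := funext hfix
      rw [h2]
      exact_mod_cast contDiff_const.sub (contDiff_const.mul h1)
  exact ⟨w, contDiff_infty.mpr hreg, hw23, hw1, hfix⟩

/-- `φ` is a weak eigenfunction of `-Δ φ = γ c φ`, `φ ∈ H^1_0(Ω)` -/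
def IsEigenfunction (Ω : Set (E n)) (c : E n → ℝ) (γ : ℝ) (φ : E n → ℝ) : Prop :=
  ∃ G : Fin n → E n → ℝ, H10 Ω φ G ∧
    ∀ (v : E n → ℝ) (W : Fin n → E n → ℝ), H10 Ω v W →
      ∫ x in Ω, ∑ i, G i x * W i x = γ * ∫ x in Ω, c x * φ x * v x

/-- the potential of the bump -/
noncomputable def Pb (n : ℕ) (s : ℝ) : ℝ := Gr n bm s

theorem Pb_smooth : ContDiff ℝ ∞ (Pb n) := bm_adm.Gr_smooth bm_smooth

theorem Pb_nonneg {s : ℝ} (h0 : 0 ≤ s) (h1 : s ≤ 1) : 0 ≤ Pb n s := Gr_nonneg bm_adm bm_nonneg h0 h1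

theorem Pb_core {s : ℝ} (h0 : 0 ≤ s) (h1 : s ≤ 1 / 3) : 2 / 3 * mm (1 / 3) ≤ Pb n s := P1_core h0 h1

theorem Pb_pos {s : ℝ} (h0 : 0 ≤ s) (h1 : s < 1) : 0 < Pb n s := by
  have hm := mm_pos
  rcases le_total s (1 / 3) with h | h
  · have := Pb_core (n := n) h0 h
    have : 0 < 2 / 3 * mm (1 / 3) := by positivity
    linarith
  · unfold Pb Gr
    apply intervalIntegral.intervalIntegral_pos_of_pos_on (bm_adm.Kg_cont.intervalIntegrable _ _) _ h1
    intro σ hσ
    show 0 < σ ^ (-((n : ℝ) / 2)) * mm σ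
    rw [mm_right (s := σ) (by linarith [hσ.1])]
    exact mul_pos (Real.rpow_pos_of_pos (by linarith [hσ.1]) _) hm

/-- the weight of question 2 -/
noncomputable def Cb (n : ℕ) (s : ℝ) : ℝ := bm s * (1 / Pb n s)

theorem Cb_smooth : ContDiff ℝ ∞ (Cb n) := by
  apply smooth_mul (p := 1 / 6) (r := 1 / 3) bm_smooth (fun s => bm_left) (fun s => AC.bm_right)
  intro s hs
  exact contDiffAt_const.div Pb_smooth.contDiffAt
    (Pb_pos (n := n) (by linarith [hs.1]) (by linarith [hs.2])).ne'

theorem Cb_out {s : ℝ} (hs : s ≤ 1 / 6 ∨ 1 / 3 ≤ s) : Cb n s = 0 := by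
  unfold Cb
  rcases hs with hs | hs
  · rw [bm_left hs, zero_mul]
  · rw [AC.bm_right hs, zero_mul]

theorem Cb_nonneg (s : ℝ) : 0 ≤ Cb n s := by
  rcases bm_cases s with h | h
  · unfold Cb
    rw [h, zero_mul]
  · have := Pb_pos (n := n) (s := s) (by linarith [h.1]) (by linarith [h.2])
    have := bm_nonneg s
    unfold Cb
    positivity

theorem Cb_mul (s : ℝ) : Cb n s * Pb n s = bm s := by
  unfold Cb
  rcases bm_cases s with h | h
  · rw [h]
    ring
  · have := Pb_pos (n := n) (s := s) (by linarith [h.1]) (by linarith [h.2])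
    field_simp

theorem Cb_adm : Adm (Cb n) := adm_of Cb_smooth.continuous (fun s hs => Cb_out (Or.inl hs))
  (fun s hs => Cb_out (Or.inr (by linarith)))

/-- the eigenvalue equation for the potential -/
theorem lap_Pb (x : E n) : -Δ (fun x : E n => Pb n (qq x)) x = wt n (Cb n) (qq x) * Pb n (qq x) := by
  rw [lap_rad Pb_smooth]
  have h : L n (Pb n) (qq x) = -(4 * qq x ^ (1 - (n : ℝ) / 2) * bm (qq x)) :=
    bm_adm.L_Gr bm_smooth.continuous _
  rw [h, ← Cb_mul (n := n)]
  unfold wt
  ring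

theorem wt_Cb_cont : Continuous fun x : E n => wt n (Cb n) (qq x) :=
  (wt_smooth Cb_smooth fun s hs => Cb_out (Or.inl hs)).continuous.comp qq_smooth.continuous

theorem Pb_eigen : IsEigenfunction (B n) (fun x => wt n (Cb n) (qq x)) 1 (fun x => Pb n (qq x)) := by
  have hs : ContDiff ℝ ∞ (fun x : E n => Pb n (qq x)) := Pb_smooth.comp qq_smooth
  refine ⟨fun i => Pd i (fun x => Pb n (qq x)), H10_radial Pb_smooth (Gr_one _), ?_⟩
  intro v W hv
  rw [green_H10 hs hv, one_mul]
  congr 1
  ext x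
  rw [lap_Pb]

theorem first_Pb (hn : 1 ≤ n) : firstEigenvalue (B n) (fun x => wt n (Cb n) (qq x)) = 1 := by
  have hrp : ∀ s : ℝ, 0 ≤ s → 0 ≤ s ^ (1 - (n : ℝ) / 2) := fun s hs => Real.rpow_nonneg hs _
  have hc0 : ∀ x : E n, 0 ≤ wt n (Cb n) (qq x) := fun x =>
    mul_nonneg (mul_nonneg (by norm_num) (hrp _ (AC.qq_nonneg x))) (Cb_nonneg _)
  have hcc := wt_Cb_cont (n := n)
  have hPs : ContDiff ℝ ∞ (fun x : E n => Pb n (qq x)) := Pb_smooth.comp qq_smooth
  obtain ⟨x0, hx0⟩ := exists_point (n := n) hn (by norm_num : (0 : ℝ) ≤ 1 / 4)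
  have hx0B : x0 ∈ B n := mem_B.mpr (by rw [hx0]; norm_num)
  have hP0 : 0 < Pb n (1 / 4) := Pb_pos (by norm_num) (by norm_num)
  have hcx0 : 0 < wt n (Cb n) (qq x0) := by
    rw [hx0]
    have : 0 < Cb n (1 / 4) := by
      unfold Cb
      exact mul_pos (bm_pos (by norm_num) (by norm_num)) (by positivity)
    exact mul_pos (mul_pos (by norm_num) (Real.rpow_pos_of_pos (by norm_num) _)) this
  apply le_antisymm
  · -- the Rayleigh quotient of the eigenfunction
    have hI : ∫ x in B n, ∑ i, Pd i (fun x : E n => Pb n (qq x)) x ^ 2 =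
        ∫ x in B n, wt n (Cb n) (qq x) * Pb n (qq x) ^ 2 := by
      have hH := H10_radial (n := n) (Pb_smooth (n := n)) (Gr_one (n := n) bm)
      have h1 := green_H10 hPs hH
      have e1 : ∫ x in B n, ∑ i, Pd i (fun x : E n => Pb n (qq x)) x ^ 2 =
          ∫ x in B n, ∑ i, Pd i (fun x : E n => Pb n (qq x)) x *
            (fun i => Pd i (fun x : E n => Pb n (qq x))) i x := by
        congr 1
        ext x
        apply Finset.sum_congr rfl
        intro i _
        show _ = Pd i (fun x : E n => Pb n (qq x)) x * Pd i (fun x : E n => Pb n (qq x)) x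
        ring
      rw [e1, h1]
      congr 1
      ext x
      rw [lap_Pb]
      ring
    have hpos : 0 < ∫ x in B n, wt n (Cb n) (qq x) * Pb n (qq x) ^ 2 := by
      have hcont : Continuous fun x : E n => wt n (Cb n) (qq x) * Pb n (qq x) ^ 2 :=
        hcc.mul (hPs.continuous.pow 2)
      have hnn : 0 ≤ fun x : E n => wt n (Cb n) (qq x) * Pb n (qq x) ^ 2 := fun x =>
        mul_nonneg (hc0 x) (sq_nonneg _)
      rw [setIntegral_pos_iff_support_of_nonneg_ae (Eventually.of_forall hnn)
        ((memLp_B hcont 1).integrable le_rfl)]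
      have ho : IsOpen (Function.support (fun x : E n => wt n (Cb n) (qq x) * Pb n (qq x) ^ 2) ∩ B n) :=
        hcont.isOpen_support.inter Metric.isOpen_ball
      refine ho.measure_pos volume ⟨x0, ?_, hx0B⟩
      refine mul_ne_zero hcx0.ne' (pow_ne_zero 2 ?_)
      rw [hx0]
      exact hP0.ne'
    unfold firstEigenvalue
    apply csInf_le
    · refine ⟨0, ?_⟩
      rintro R ⟨v, W, hv, hp, rfl⟩
      exact div_nonneg (integral_nonneg fun x => Finset.sum_nonneg fun i _ => sq_nonneg _) hp.le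
    · refine ⟨_, _, H10_radial (n := n) (Pb_smooth (n := n)) (Gr_one (n := n) bm), hpos, ?_⟩
      rw [hI, div_self hpos.ne']
  · -- Barta
    apply le_of_forall_lt_imp_le_of_dense
    intro γ hγ
    rcases le_or_gt γ 0 with hγ0 | hγ0
    · refine hγ0.trans ?_
      unfold firstEigenvalue
      apply Real.sInf_nonneg
      rintro R ⟨v, W, hv, hp, rfl⟩
      exact div_nonneg (integral_nonneg fun x => Finset.sum_nonneg fun i _ => sq_nonneg _) hp.le
    · have hm := mm_pos
      set p0 : ℝ := 2 / 3 * mm (1 / 3) with hp0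
      have hp0p : 0 < p0 := by positivity
      set e : ℝ := (1 - γ) * p0 with he
      have he0 : 0 < e := mul_pos (by linarith) hp0p
      set ψ : ℝ → ℝ := fun s => e * vs ((Pb n s + e) / e) with hψ
      have hψs : ContDiff ℝ ∞ ψ :=
        contDiff_const.mul (vs_smooth.comp ((Pb_smooth.add contDiff_const).div_const _))
      have hψp : ∀ s, 0 < ψ s := fun s => mul_pos he0 (vs_pos _)
      have hψe : ∀ s, 0 ≤ s → s ≤ 1 → ψ s = Pb n s + e := by
        intro s h0 h1
        have hP := Pb_nonneg (n := n) h0 h1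
        show e * vs ((Pb n s + e) / e) = _
        rw [vs_eq (by rw [le_div_iff₀ he0]; linarith)]
        field_simp
      apply first_ge hcc hc0 ⟨x0, hx0B, hcx0.ne'⟩
      intro v W hv
      rw [← integral_const_mul]
      have h := barta (ψ := fun x => ψ (qq x)) (κ := fun x => γ * wt n (Cb n) (qq x))
        (hψs.comp qq_smooth) (fun x => hψp _) (continuous_const.mul hcc) ?_ hv
      · refine le_trans (le_of_eq ?_) h
        congr 1
        ext x
        ring
      · intro x hx
        have hq0 := AC.qq_nonneg x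
        have hq1 := mem_B.mp hx
        rw [lap_rad hψs]
        have hev : ψ =ᶠ[𝓝 (qq x)] fun s => Pb n s + e := by
          have hP := Pb_pos (n := n) hq0 hq1
          have h1 : ∀ᶠ s in 𝓝 (qq x), 0 < Pb n s :=
            Pb_smooth.continuous.continuousAt.eventually_const_lt hP
          filter_upwards [h1] with s hs
          show e * vs ((Pb n s + e) / e) = _
          rw [vs_eq (by rw [le_div_iff₀ he0]; linarith)]
          field_simp
        have hL : L n ψ (qq x) = L n (Pb n) (qq x) := by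
          have h1 : deriv ψ =ᶠ[𝓝 (qq x)] deriv (Pb n) := by
            filter_upwards [hev.eventually_nhds] with s hs
            rw [Filter.EventuallyEq.deriv_eq hs, deriv_add_const]
          unfold L
          rw [h1.eq_of_nhds, h1.deriv_eq]
        have h2 := lap_Pb (n := n) x
        rw [lap_rad Pb_smooth] at h2
        rw [hL, h2, hψe _ hq0 hq1.le]
        have hwt := hc0 x
        rcases le_or_gt (qq x) (1 / 3) with h3 | h3
        · have hP := Pb_core (n := n) hq0 h3
          have h4 : γ * (Pb n (qq x) + e) ≤ Pb n (qq x) := by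
            rw [he]
            nlinarith
          calc γ * wt n (Cb n) (qq x) * (Pb n (qq x) + e)
              = wt n (Cb n) (qq x) * (γ * (Pb n (qq x) + e)) := by ring
            _ ≤ wt n (Cb n) (qq x) * Pb n (qq x) := mul_le_mul_of_nonneg_left h4 hwt
        · have : wt n (Cb n) (qq x) = 0 := by
            unfold wt
            rw [Cb_out (Or.inr h3.le), mul_zero]
          rw [this]
          simp

/-- Question 2 in every dimension -/
theorem q2_main (hn : 1 ≤ n) :
    ∃ (c h ustar φ₁ : E n → ℝ) (Λ ε : ℝ),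
      (ContDiff ℝ ∞ c ∧ HasCompactSupport c ∧ tsupport c ⊆ B n) ∧
      (ContDiff ℝ ∞ h ∧ HasCompactSupport h ∧ tsupport h ⊆ B n) ∧
      (∀ x, 0 ≤ c x) ∧ (∃ x ∈ B n, 0 < c x) ∧ 0 < Λ ∧
      ContDiff ℝ ∞ ustar ∧ IsSol (B n) c (fun _ => 1) h Λ ustar ∧
      (∀ lam : ℝ, lam < Λ → ∀ u : E n → ℝ, IsSol (B n) c (fun _ => 1) h lam u →
        ¬ ∀ᵐ x ∂(volume.restrict (B n)), u x ≤ 0) ∧
      Continuous φ₁ ∧ (∀ x ∈ B n, 0 < φ₁ x) ∧
      IsEigenfunction (B n) c (firstEigenvalue (B n) c) φ₁ ∧
      0 < ε ∧ (∀ x ∈ Metric.closedBall (0 : E n) 1, ε * φ₁ x ≤ -ustar x) := by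
  have hCs := Cb_smooth (n := n)
  have hCA := Cb_adm (n := n)
  have hGc : Continuous (Gr n (Cb n)) := hCA.Gr_cont
  obtain ⟨T0, hT0⟩ := (isCompact_Icc (a := (0 : ℝ)) (b := 1)).exists_bound_of_continuousOn
    hGc.continuousOn
  have hT00 : 0 ≤ T0 := (norm_nonneg _).trans (hT0 0 ⟨le_rfl, zero_le_one⟩)
  set t : ℝ := 1 / (4 * (T0 + 1)) with ht
  have htp : 0 < t := by positivity
  have hT : ∀ s ∈ Icc (0 : ℝ) 1, t * Gr n (Cb n) s ≤ 1 / 4 := by
    intro s hs
    have h1 := (le_abs_self _).trans (hT0 s hs)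
    rw [ht, div_mul_eq_mul_div, one_mul, div_le_div_iff₀ (by positivity) (by norm_num)]
    linarith
  obtain ⟨w, hws, hw23, hw1, hwf⟩ := exists_lin (n := n) hCs Cb_nonneg
    (fun s hs => Cb_out (Or.inl hs)) (fun s hs => Cb_out (Or.inr (by linarith))) htp hT
  set Λ : ℝ := 1 + t with hΛ
  set H : ℝ → ℝ := fun s => Cb n s * (-(t + Λ * Real.log (w s))) with hH
  have hHs : ContDiff ℝ ∞ H := by
    apply smooth_mul (p := 1 / 6) (r := 1 / 3) hCs (fun s hs => Cb_out (Or.inl hs))
      (fun s hs => Cb_out (Or.inr hs))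
    intro s hs
    have h0 : 0 < w s := by linarith [hw23 s ⟨by linarith [hs.1], by linarith [hs.2]⟩]
    exact (contDiffAt_const.add (contDiffAt_const.mul (hws.contDiffAt.log h0.ne'))).neg
  have hHout : ∀ s, s ≤ 1 / 6 ∨ 1 / 3 ≤ s → H s = 0 := by
    intro s hs
    show Cb n s * (-(t + Λ * Real.log (w s))) = 0
    rw [Cb_out hs, zero_mul]
  have hcof : Cof (fun s => Λ * Cb n s) H := by
    refine ⟨contDiff_const.mul hCs, hHs, fun s hs => ?_, fun s hs => hHout s (Or.inl hs), fun s hs => ?_,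
      fun s hs => hHout s (Or.inr (by linarith))⟩
    · show Λ * Cb n s = 0
      rw [Cb_out (Or.inl hs), mul_zero]
    · show Λ * Cb n s = 0
      rw [Cb_out (Or.inr (by linarith)), mul_zero]
  have hNN : NN (fun s => Λ * Cb n s) H w = fun s => -t * (Cb n s * w s) := by
    ext s
    show (Λ * Cb n s * Real.log (w s) + Cb n s * (-(t + Λ * Real.log (w s)))) * w s = _
    ring
  have hfix : ∀ s, w s = 1 + Gr n (NN (fun s => Λ * Cb n s) H w) s := by
    intro s
    have h := hwf s
    rw [hNN, Gr_smul]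
    linarith
  have hCl : ∀ s, s ≤ 1 / 6 → Cb n s = 0 := fun s hs => Cb_out (Or.inl hs)
  have hcs := wt_smooth (n := n) hCs hCl
  have hhs := wt_smooth (n := n) hHs hcof.lH
  have hcc := tsupport_B (f := fun x : E n => wt n (Cb n) (qq x)) (r := 1 / 3) (by norm_num)
    fun x hx => by
      unfold wt
      rw [Cb_out (Or.inr hx.le), mul_zero]
  have hhc := tsupport_B (f := fun x : E n => wt n H (qq x)) (r := 1 / 3) (by norm_num)
    fun x hx => by
      unfold wt
      rw [hHout _ (Or.inr hx.le), mul_zero]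
  have hrp : ∀ s : ℝ, 0 ≤ s → 0 ≤ s ^ (1 - (n : ℝ) / 2) := fun s hs => Real.rpow_nonneg hs _
  have hc0 : ∀ x : E n, 0 ≤ wt n (Cb n) (qq x) := fun x =>
    mul_nonneg (mul_nonneg (by norm_num) (hrp _ (AC.qq_nonneg x))) (Cb_nonneg _)
  have hsol := sol_profile' (n := n) (C := Cb n) (lam := Λ) hcof hCs hCl (fun s => rfl)
    hws (fun s hs => by linarith [hw23 s hs]) hfix
  have hlw : ∀ s ∈ Icc (0 : ℝ) 1, lw w s = Real.log (w s) := by
    intro s hs
    unfold lw
    rw [vs_eq (by linarith [hw23 s hs])]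
  -- comparison with the eigenfunction
  obtain ⟨Pm, hPm⟩ := (isCompact_Icc (a := (0 : ℝ)) (b := 1)).exists_bound_of_continuousOn
    (Pb_smooth (n := n)).continuous.continuousOn
  have hP0 : 0 < Pb n (1 / 4) := Pb_pos (by norm_num) (by norm_num)
  have hPmp : 0 < Pm := by
    have := (le_abs_self _).trans (hPm (1 / 4) ⟨by norm_num, by norm_num⟩)
    linarith
  set ε : ℝ := 2 * t / (3 * Pm) with hε
  have hεp : 0 < ε := by positivity
  have hkey : ∀ s ∈ Icc (0 : ℝ) 1, ε * Pb n s ≤ -lw w s := by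
    intro s hs
    rw [hlw s hs]
    have hA1 : Adm (fun s => Cb n s * w s) :=
      adm_of (hCs.continuous.mul hws.continuous) (fun s hs => by rw [hCl s hs, zero_mul])
        (fun s hs => by rw [Cb_out (Or.inr (by linarith)), zero_mul])
    have hA2 : Adm (fun s => 2 / (3 * Pm) * bm s) :=
      adm_of (continuous_const.mul bm_smooth.continuous)
        (fun s hs => by rw [bm_left hs, mul_zero])
        (fun s hs => by rw [AC.bm_right (by linarith), mul_zero])
    have hle : ∀ s, 2 / (3 * Pm) * bm s ≤ Cb n s * w s := by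
      intro s
      rcases bm_cases s with h | h
      · have : Cb n s = 0 := by
          unfold Cb
          rw [h, zero_mul]
        rw [h, this]
        simp
      · have hsI : s ∈ Icc (0 : ℝ) 1 := ⟨by linarith [h.1], by linarith [h.2]⟩
        have hP := Pb_pos (n := n) (s := s) (by linarith [h.1]) (by linarith [h.2])
        have hPle := (le_abs_self _).trans (hPm s hsI)
        have hb := bm_nonneg s
        have hw := hw23 s hsI
        rw [← Cb_mul (n := n) s]
        have hC := Cb_nonneg (n := n) s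
        have h1 : 2 / (3 * Pm) * (Cb n s * Pb n s) ≤ 2 / 3 * Cb n s := by
          rw [div_mul_eq_mul_div, div_le_iff₀ (by positivity)]
          nlinarith
        nlinarith
    have h1 := Gr_mono (n := n) hA2 hA1 hle hs.1 hs.2
    rw [Gr_smul] at h1
    have h2 : Real.log (w s) ≤ w s - 1 := Real.log_le_sub_one_of_pos (by linarith [hw23 s hs])
    have h3 := hwf s
    have h4 := mul_le_mul_of_nonneg_left h1 htp.le
    have h5 : t * (2 / (3 * Pm) * Gr n bm s) = ε * Pb n s := by
      rw [hε]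
      unfold Pb
      ring
    linarith
  obtain ⟨x0, hx0⟩ := exists_point (n := n) hn (by norm_num : (0 : ℝ) ≤ 1 / 4)
  have hx0B : x0 ∈ B n := mem_B.mpr (by rw [hx0]; norm_num)
  have hcx0 : 0 < wt n (Cb n) (qq x0) := by
    rw [hx0]
    have : 0 < Cb n (1 / 4) := by
      unfold Cb
      exact mul_pos (bm_pos (by norm_num) (by norm_num)) (by positivity)
    exact mul_pos (mul_pos (by norm_num) (Real.rpow_pos_of_pos (by norm_num) _)) this
  refine ⟨fun x => wt n (Cb n) (qq x), fun x => wt n H (qq x), fun x => lw w (qq x),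
    fun x => Pb n (qq x), Λ, ε, ⟨hcs.comp qq_smooth, hcc.1, hcc.2⟩, ⟨hhs.comp qq_smooth, hhc.1, hhc.2⟩,
    hc0, ⟨x0, hx0B, hcx0⟩, by positivity, (lw_smooth hws).comp qq_smooth, hsol, ?_,
    Pb_smooth.continuous.comp qq_smooth.continuous, ?_, ?_, hεp, ?_⟩
  · intro lam hlam u hu hneg
    refine nonexist (σ := fun _ => 0) (f := Pb n) (g := lw w)
      (hcs.continuous.comp qq_smooth.continuous) (hhs.continuous.comp qq_smooth.continuous) hc0
      (by positivity) Pb_smooth (Gr_one _) (fun s h0 h1 => Pb_pos h0 h1) (lw_smooth hws) hsol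
      (fun x _ => le_rfl) (fun x _ h => absurd rfl h) ?_ ⟨x0, hx0B, hcx0, ?_⟩ hlam hu hneg
    · intro x hx
      have hqI : qq x ∈ Icc (0 : ℝ) 1 := ⟨AC.qq_nonneg x, (mem_B.mp hx).le⟩
      rw [lap_Pb, hlw _ hqI]
      show _ = (Λ * wt n (Cb n) (qq x) * (1 + Real.log (w (qq x))) + wt n H (qq x)) *
        Pb n (qq x) + 0
      unfold wt
      show _ = (Λ * (4 * qq x ^ (1 - (n : ℝ) / 2) * Cb n (qq x)) * (1 + Real.log (w (qq x))) +
        4 * qq x ^ (1 - (n : ℝ) / 2) * (Cb n (qq x) * (-(t + Λ * Real.log (w (qq x)))))) *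
        Pb n (qq x) + 0
      rw [hΛ]
      ring
    · rw [hx0]
      have := hkey (1 / 4) ⟨by norm_num, by norm_num⟩
      have := mul_pos hεp hP0
      linarith
  · intro x hx
    exact Pb_pos (AC.qq_nonneg x) (mem_B.mp hx)
  · rw [first_Pb hn]
    exact Pb_eigen
  · intro x hx
    have hn1 : ‖x‖ ≤ 1 := mem_closedBall_zero_iff.mp hx
    have hq1 : qq x ≤ 1 := by
      unfold qq
      nlinarith [norm_nonneg x]
    exact hkey _ ⟨AC.qq_nonneg x, hq1⟩

end Pool.Agent.R207.AF
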