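import Mathlib

/-!
# A Green operator on the half line

`YY m k r = (e^{-mr} ∫_0^r sinh(ms) k(s) ds + sinh(mr) ∫_r^∞ e^{-ms} k(s) ds) / m`
solves `m² Y - Y'' = k`, `Y(0) = 0`.
-/

open MeasureTheory Set Filter Topology

namespace Pool.Agent.R207.AG

/-- Measurable functions with linear growth. -/
structure Gd (C : ℝ) (k : ℝ → ℝ) : Prop where
  meas : Measurable k
  bd : ∀ s, |k s| ≤ C * (1 + |s|)

theorem Gd.C0 {C : ℝ} {k : ℝ → ℝ} (h : Gd C k) : 0 ≤ C := by
  have := h.bd 0
  have h2 := abs_nonneg (k 0)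
  simp at this
  linarith

theorem Gd.ii {C : ℝ} {k w : ℝ → ℝ} (h : Gd C k) (hw : Continuous w) (a b : ℝ) :
    IntervalIntegrable (fun s => w s * k s) volume a b := by
  refine IntervalIntegrable.mono_fun' (g := fun s => |w s| * (C * (1 + |s|))) ?_ ?_ ?_
  · apply Continuous.intervalIntegrable
    fun_prop
  · exact (hw.measurable.mul h.meas).aestronglyMeasurable
  · refine Filter.Eventually.of_forall fun s => ?_
    show ‖w s * k s‖ ≤ |w s| * (C * (1 + |s|))
    rw [Real.norm_eq_abs, abs_mul]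
    exact mul_le_mul_of_nonneg_left (h.bd s) (abs_nonneg _)

theorem one_add_le {s : ℝ} : 1 + s ≤ 2 * Real.exp (s / 2) := by
  have := Real.add_one_le_exp (s / 2)
  nlinarith [Real.exp_pos (s / 2)]

theorem dom_int : IntegrableOn (fun s : ℝ => 2 * Real.exp (-(1 / 2) * s)) (Ioi 0) :=
  (exp_neg_integrableOn_Ioi 0 (by norm_num)).const_mul 2

theorem dom_le {m C s x : ℝ} (hm : 1 ≤ m) (hs : 0 < s) (hx : |x| ≤ C * (1 + |s|)) (hC : 0 ≤ C) :
    |Real.exp (-(m * s)) * x| ≤ C * (2 * Real.exp (-(1 / 2) * s)) := by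
  rw [abs_mul, abs_of_pos (Real.exp_pos _)]
  rw [abs_of_pos hs] at hx
  have h1 : Real.exp (-(m * s)) ≤ Real.exp (-s) := Real.exp_le_exp.mpr (by nlinarith)
  have h2 : C * (1 + s) ≤ C * (2 * Real.exp (s / 2)) := mul_le_mul_of_nonneg_left one_add_le hC
  calc Real.exp (-(m * s)) * |x| ≤ Real.exp (-s) * (C * (2 * Real.exp (s / 2))) :=
        mul_le_mul h1 (hx.trans h2) (abs_nonneg _) (Real.exp_pos _).le
    _ = C * (2 * (Real.exp (-s) * Real.exp (s / 2))) := by ring
    _ = C * (2 * Real.exp (-(1 / 2) * s)) := by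
        rw [← Real.exp_add]; congr 3; ring

theorem Gd.ioi {C m : ℝ} {k : ℝ → ℝ} (hm : 1 ≤ m) (h : Gd C k) :
    IntegrableOn (fun s => Real.exp (-(m * s)) * k s) (Ioi 0) := by
  refine Integrable.mono' (dom_int.const_mul C) ?_ ?_
  · exact ((Continuous.measurable (by fun_prop)).mul h.meas).aestronglyMeasurable
  · refine (ae_restrict_iff' measurableSet_Ioi).mpr (Filter.Eventually.of_forall fun s hs => ?_)
    rw [Real.norm_eq_abs]
    exact dom_le hm hs (h.bd s) h.C0

noncomputable def AA (m : ℝ) (k : ℝ → ℝ) (r : ℝ) : ℝ := ∫ s in (0 : ℝ)..r, Real.sinh (m * s) * k s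

noncomputable def JJ (m : ℝ) (k : ℝ → ℝ) : ℝ := ∫ s in Ioi (0 : ℝ), Real.exp (-(m * s)) * k s

noncomputable def BB (m : ℝ) (k : ℝ → ℝ) (r : ℝ) : ℝ :=
  JJ m k - ∫ s in (0 : ℝ)..r, Real.exp (-(m * s)) * k s

noncomputable def YY (m : ℝ) (k : ℝ → ℝ) (r : ℝ) : ℝ :=
  (Real.exp (-(m * r)) * AA m k r + Real.sinh (m * r) * BB m k r) / m

noncomputable def YY1 (m : ℝ) (k : ℝ → ℝ) (r : ℝ) : ℝ :=
  -Real.exp (-(m * r)) * AA m k r + Real.cosh (m * r) * BB m k r

theorem cont_sinh (m : ℝ) : Continuous (fun s => Real.sinh (m * s)) :=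
  Real.continuous_sinh.comp (continuous_const.mul continuous_id)

theorem cont_cosh (m : ℝ) : Continuous (fun s => Real.cosh (m * s)) :=
  Real.continuous_cosh.comp (continuous_const.mul continuous_id)

theorem cont_exp (m : ℝ) : Continuous (fun s => Real.exp (-(m * s))) := by fun_prop

variable {C m : ℝ} {k l : ℝ → ℝ}

theorem Gd.AA_cont (h : Gd C k) : Continuous (AA m k) :=
  intervalIntegral.continuous_primitive (fun a b => h.ii (cont_sinh m) a b) 0

theorem Gd.BB_cont (h : Gd C k) : Continuous (BB m k) :=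
  continuous_const.sub (intervalIntegral.continuous_primitive (fun a b => h.ii (cont_exp m) a b) 0)

theorem Gd.YY_cont (h : Gd C k) : Continuous (YY m k) :=
  (((cont_exp m).mul h.AA_cont).add ((cont_sinh m).mul h.BB_cont)).div_const m

theorem Gd.YY1_cont (h : Gd C k) : Continuous (YY1 m k) :=
  (((cont_exp m).neg.mul h.AA_cont)).add ((cont_cosh m).mul h.BB_cont)

theorem YY_zero : YY m k 0 = 0 := by
  simp [YY, AA]

theorem Gd.BB_eq (hm : 1 ≤ m) (h : Gd C k) {r : ℝ} (hr : 0 ≤ r) :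
    BB m k r = ∫ s in Ioi r, Real.exp (-(m * s)) * k s := by
  have h1 := intervalIntegral.integral_interval_add_Ioi (h.ioi hm) ((h.ioi hm).mono_set (Ioi_subset_Ioi hr))
  rw [BB, JJ]
  linarith [h1]

theorem BB_zero : BB m k 0 = JJ m k := by simp [BB]

theorem Gd.AA_mono (hm : 1 ≤ m) (h : Gd C k) (hl : Gd C l) (hle : ∀ s, 0 < s → k s ≤ l s) {r : ℝ} (hr : 0 ≤ r) :
    AA m k r ≤ AA m l r := by
  refine intervalIntegral.integral_mono_on_of_le_Ioo hr (h.ii (cont_sinh m) 0 r) (hl.ii (cont_sinh m) 0 r) ?_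
  intro s hs
  exact mul_le_mul_of_nonneg_left (hle s hs.1)
    (Real.sinh_nonneg_iff.mpr (mul_nonneg (by linarith) hs.1.le))

theorem Gd.BB_mono (hm : 1 ≤ m) (h : Gd C k) (hl : Gd C l) (hle : ∀ s, 0 < s → k s ≤ l s) {r : ℝ} (hr : 0 ≤ r) :
    BB m k r ≤ BB m l r := by
  rw [h.BB_eq hm hr, hl.BB_eq hm hr]
  refine setIntegral_mono_on ((h.ioi hm).mono_set (Ioi_subset_Ioi hr))
    ((hl.ioi hm).mono_set (Ioi_subset_Ioi hr)) measurableSet_Ioi ?_
  intro s hs
  exact mul_le_mul_of_nonneg_left (hle s (lt_of_le_of_lt hr hs)) (Real.exp_pos _).le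

theorem Gd.YY_mono (hm : 1 ≤ m) (h : Gd C k) (hl : Gd C l) (hle : ∀ s, 0 < s → k s ≤ l s) {r : ℝ} (hr : 0 ≤ r) :
    YY m k r ≤ YY m l r := by
  refine div_le_div_of_nonneg_right ?_ (by linarith)
  refine add_le_add (mul_le_mul_of_nonneg_left (h.AA_mono hm hl hle hr) (Real.exp_pos _).le)
    (mul_le_mul_of_nonneg_left (h.BB_mono hm hl hle hr) ?_)
  exact Real.sinh_nonneg_iff.mpr (mul_nonneg (by linarith) hr)

theorem YY_neg (r : ℝ) : YY m (fun s => -k s) r = -YY m k r := by
  have h1 : AA m (fun s => -k s) r = -AA m k r := by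
    rw [AA, AA, ← intervalIntegral.integral_neg]
    congr 1; ext s; ring
  have h2 : BB m (fun s => -k s) r = -BB m k r := by
    have e1 : (fun s => Real.exp (-(m * s)) * -k s) = fun s => -(Real.exp (-(m * s)) * k s) := by
      ext s; ring
    rw [BB, BB, JJ, JJ, e1, integral_neg, intervalIntegral.integral_neg]
    ring
  rw [YY, YY, h1, h2]
  ring

theorem sinh_deriv (m r : ℝ) : HasDerivAt (fun r => Real.sinh (m * r)) (m * Real.cosh (m * r)) r := by
  have := (Real.hasDerivAt_sinh (m * r)).comp r ((hasDerivAt_id r).const_mul m)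
  exact this.congr_deriv (by ring)

theorem cosh_deriv (m r : ℝ) : HasDerivAt (fun r => Real.cosh (m * r)) (m * Real.sinh (m * r)) r := by
  have := (Real.hasDerivAt_cosh (m * r)).comp r ((hasDerivAt_id r).const_mul m)
  exact this.congr_deriv (by ring)

theorem exp_deriv (m r : ℝ) : HasDerivAt (fun r => Real.exp (-(m * r))) (-(m * Real.exp (-(m * r)))) r := by
  have := (((hasDerivAt_id r).const_mul m).neg).exp
  refine this.congr_deriv ?_
  simp only [Pi.neg_apply, id]
  ring

theorem Gd.AA_deriv (h : Gd C k) {r : ℝ} (hc : ContinuousAt k r) :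
    HasDerivAt (AA m k) (Real.sinh (m * r) * k r) r := by
  refine intervalIntegral.integral_hasDerivAt_right (h.ii (cont_sinh m) 0 r) ?_ ?_
  · exact ((cont_sinh m).measurable.mul h.meas).stronglyMeasurable.stronglyMeasurableAtFilter
  · exact (cont_sinh m).continuousAt.mul hc

theorem Gd.BB_deriv (h : Gd C k) {r : ℝ} (hc : ContinuousAt k r) :
    HasDerivAt (BB m k) (-(Real.exp (-(m * r)) * k r)) r := by
  have := (intervalIntegral.integral_hasDerivAt_right (h.ii (cont_exp m) 0 r)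
    (((cont_exp m).measurable.mul h.meas).stronglyMeasurable.stronglyMeasurableAtFilter)
    ((cont_exp m).continuousAt.mul hc)).const_sub (JJ m k)
  exact this

theorem Gd.YY_deriv (hm : 1 ≤ m) (h : Gd C k) {r : ℝ} (hc : ContinuousAt k r) :
    HasDerivAt (YY m k) (YY1 m k r) r := by
  have hm0 : m ≠ 0 := by positivity
  have := (((exp_deriv m r).mul (h.AA_deriv (m := m) hc)).add
    ((sinh_deriv m r).mul (h.BB_deriv (m := m) hc))).div_const m
  refine this.congr_deriv ?_
  rw [YY1]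
  field_simp
  ring

theorem Gd.YY1_deriv (hm : 1 ≤ m) (h : Gd C k) {r : ℝ} (hc : ContinuousAt k r) :
    HasDerivAt (YY1 m k) (m ^ 2 * YY m k r - k r) r := by
  have hm0 : m ≠ 0 := by positivity
  have := (((exp_deriv m r).neg.mul (h.AA_deriv (m := m) hc)).add
    ((cosh_deriv m r).mul (h.BB_deriv (m := m) hc)))
  refine this.congr_deriv ?_
  have e1 : Real.sinh (m * r) + Real.cosh (m * r) = Real.exp (m * r) := Real.sinh_add_cosh _
  have e2 : Real.exp (m * r) * Real.exp (-(m * r)) = 1 := by rw [← Real.exp_add]; simp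
  rw [YY]
  have e3 : k r = (Real.sinh (m * r) + Real.cosh (m * r)) * Real.exp (-(m * r)) * k r := by
    rw [e1, e2, one_mul]
  have e4 : m ^ 2 * ((Real.exp (-(m * r)) * AA m k r + Real.sinh (m * r) * BB m k r) / m) =
      m * (Real.exp (-(m * r)) * AA m k r + Real.sinh (m * r) * BB m k r) := by
    field_simp
  rw [e4]
  simp only [Pi.neg_apply]
  linear_combination (1 : ℝ) * e3

/-- Comparison with an explicit supersolution. -/
theorem Gd.YY_le {Z Z1 Z2 : ℝ → ℝ} (hm : 1 ≤ m) (h : Gd C k) (h1 : ∀ s, HasDerivAt Z (Z1 s) s)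
    (h2 : ∀ s, HasDerivAt Z1 (Z2 s) s) (hc : Continuous Z2) (h0 : Z 0 = 0)
    (hlim : Tendsto (fun s => Real.exp (-(m * s)) * (m * Z s + Z1 s)) atTop (𝓝 0))
    (hle : ∀ s, 0 < s → k s ≤ m ^ 2 * Z s - Z2 s) {r : ℝ} (hr : 0 ≤ r) : YY m k r ≤ Z r := by
  have hZc : Continuous Z := continuous_iff_continuousAt.mpr fun s => (h1 s).continuousAt
  have hZ1c : Continuous Z1 := continuous_iff_continuousAt.mpr fun s => (h2 s).continuousAt
  have hA : AA m k r ≤ m * Real.cosh (m * r) * Z r - Real.sinh (m * r) * Z1 r := by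
    have e : ∫ s in (0 : ℝ)..r, Real.sinh (m * s) * (m ^ 2 * Z s - Z2 s) =
        (m * Real.cosh (m * r) * Z r - Real.sinh (m * r) * Z1 r) -
        (m * Real.cosh (m * 0) * Z 0 - Real.sinh (m * 0) * Z1 0) := by
      refine intervalIntegral.integral_eq_sub_of_hasDerivAt
        (f := fun s => m * Real.cosh (m * s) * Z s - Real.sinh (m * s) * Z1 s) (fun s _ => ?_) ?_
      · have := (((cosh_deriv m s).const_mul m).mul (h1 s)).sub ((sinh_deriv m s).mul (h2 s))
        exact this.congr_deriv (by ring)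
      · apply Continuous.intervalIntegrable
        exact (cont_sinh m).mul ((continuous_const.mul hZc).sub hc)
    rw [h0] at e
    simp only [mul_zero, Real.sinh_zero, zero_mul, sub_zero] at e
    rw [← e]
    refine intervalIntegral.integral_mono_on_of_le_Ioo hr (h.ii (cont_sinh m) 0 r) ?_ ?_
    · apply Continuous.intervalIntegrable
      exact (cont_sinh m).mul ((continuous_const.mul hZc).sub hc)
    · intro s hs
      exact mul_le_mul_of_nonneg_left (hle s hs.1)
        (Real.sinh_nonneg_iff.mpr (mul_nonneg (by linarith) hs.1.le))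
  have hB : BB m k r ≤ Real.exp (-(m * r)) * (m * Z r + Z1 r) := by
    rw [h.BB_eq hm hr]
    have t1 := intervalIntegral_tendsto_integral_Ioi r
      ((h.ioi hm).mono_set (Ioi_subset_Ioi hr)) tendsto_id
    have t2 : Tendsto (fun R => Real.exp (-(m * r)) * (m * Z r + Z1 r) -
        Real.exp (-(m * R)) * (m * Z R + Z1 R)) atTop
        (𝓝 (Real.exp (-(m * r)) * (m * Z r + Z1 r) - 0)) := tendsto_const_nhds.sub hlim
    rw [sub_zero] at t2
    refine le_of_tendsto_of_tendsto t1 t2 ?_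
    filter_upwards [eventually_ge_atTop r] with R hR
    have e : ∫ s in r..R, Real.exp (-(m * s)) * (m ^ 2 * Z s - Z2 s) =
        (-(Real.exp (-(m * R)) * (m * Z R + Z1 R))) - (-(Real.exp (-(m * r)) * (m * Z r + Z1 r))) := by
      refine intervalIntegral.integral_eq_sub_of_hasDerivAt
        (f := fun s => -(Real.exp (-(m * s)) * (m * Z s + Z1 s))) (fun s _ => ?_) ?_
      · have := ((exp_deriv m s).mul (((h1 s).const_mul m).add (h2 s))).neg
        refine this.congr_deriv ?_
        simp only [Pi.add_apply]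
        ring
      · apply Continuous.intervalIntegrable
        exact (cont_exp m).mul ((continuous_const.mul hZc).sub hc)
    have e2 : ∫ s in r..R, Real.exp (-(m * s)) * k s ≤
        ∫ s in r..R, Real.exp (-(m * s)) * (m ^ 2 * Z s - Z2 s) := by
      refine intervalIntegral.integral_mono_on_of_le_Ioo hR (h.ii (cont_exp m) r R) ?_ ?_
      · apply Continuous.intervalIntegrable
        exact (cont_exp m).mul ((continuous_const.mul hZc).sub hc)
      · intro s hs
        exact mul_le_mul_of_nonneg_left (hle s (lt_of_le_of_lt hr hs.1)) (Real.exp_pos _).le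
    show ∫ s in r..(id R), Real.exp (-(m * s)) * k s ≤ _
    rw [id]
    linarith
  have hs0 : 0 ≤ Real.sinh (m * r) := Real.sinh_nonneg_iff.mpr (mul_nonneg (by linarith) hr)
  have hm0 : 0 < m := by linarith
  rw [YY, div_le_iff₀ hm0]
  have e1 : Real.sinh (m * r) + Real.cosh (m * r) = Real.exp (m * r) := Real.sinh_add_cosh _
  have e2 : Real.exp (m * r) * Real.exp (-(m * r)) = 1 := by rw [← Real.exp_add]; simp
  have e3 : (Real.sinh (m * r) + Real.cosh (m * r)) * Real.exp (-(m * r)) = 1 := by rw [e1, e2]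
  have i1 := mul_le_mul_of_nonneg_left hA (Real.exp_pos (-(m * r))).le
  have i2 := mul_le_mul_of_nonneg_left hB hs0
  have e4 : Real.exp (-(m * r)) * (m * Real.cosh (m * r) * Z r - Real.sinh (m * r) * Z1 r) +
      Real.sinh (m * r) * (Real.exp (-(m * r)) * (m * Z r + Z1 r)) = Z r * m := by
    linear_combination (m * Z r) * e3
  linarith

theorem Gd.neg (h : Gd C k) : Gd C (fun s => -k s) :=
  ⟨h.meas.neg, fun s => by rw [abs_neg]; exact h.bd s⟩

theorem Gd.le_YY {Z Z1 Z2 : ℝ → ℝ} (hm : 1 ≤ m) (h : Gd C k) (h1 : ∀ s, HasDerivAt Z (Z1 s) s)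
    (h2 : ∀ s, HasDerivAt Z1 (Z2 s) s) (hc : Continuous Z2) (h0 : Z 0 = 0)
    (hlim : Tendsto (fun s => Real.exp (-(m * s)) * (m * Z s + Z1 s)) atTop (𝓝 0))
    (hle : ∀ s, 0 < s → m ^ 2 * Z s - Z2 s ≤ k s) {r : ℝ} (hr : 0 ≤ r) : Z r ≤ YY m k r := by
  have := h.neg.YY_le (Z := fun s => -Z s) (Z1 := fun s => -Z1 s) (Z2 := fun s => -Z2 s) hm
    (fun s => (h1 s).neg) (fun s => (h2 s).neg) hc.neg (by rw [h0, neg_zero])
    (by
      have := hlim.neg
      rw [neg_zero] at this
      refine this.congr fun s => ?_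
      ring)
    (fun s hs => by linarith [hle s hs]) hr
  rw [YY_neg] at this
  linarith

/-- Dominated convergence for the Green operator. -/
theorem YY_lim {kn : ℕ → ℝ → ℝ} (hm : 1 ≤ m) (hn : ∀ n, Gd C (kn n))
    (ht : ∀ s, Tendsto (fun n => kn n s) atTop (𝓝 (k s))) {r : ℝ} :
    Tendsto (fun n => YY m (kn n) r) atTop (𝓝 (YY m k r)) := by
  have hC := (hn 0).C0
  have h1 : Tendsto (fun n => AA m (kn n) r) atTop (𝓝 (AA m k r)) := by
    refine intervalIntegral.tendsto_integral_filter_of_dominated_convergence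
      (fun s => |Real.sinh (m * s)| * (C * (1 + |s|))) ?_ ?_ ?_ ?_
    · exact Filter.Eventually.of_forall fun n =>
        ((cont_sinh m).measurable.mul (hn n).meas).aestronglyMeasurable
    · refine Filter.Eventually.of_forall fun n => Filter.Eventually.of_forall fun s _ => ?_
      rw [Real.norm_eq_abs, abs_mul]
      exact mul_le_mul_of_nonneg_left ((hn n).bd s) (abs_nonneg _)
    · apply Continuous.intervalIntegrable
      have := (cont_sinh m).abs
      fun_prop
    · exact Filter.Eventually.of_forall fun s _ => (ht s).const_mul _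
  have h2 : Tendsto (fun n => ∫ s in (0 : ℝ)..r, Real.exp (-(m * s)) * kn n s) atTop
      (𝓝 (∫ s in (0 : ℝ)..r, Real.exp (-(m * s)) * k s)) := by
    refine intervalIntegral.tendsto_integral_filter_of_dominated_convergence
      (fun s => |Real.exp (-(m * s))| * (C * (1 + |s|))) ?_ ?_ ?_ ?_
    · exact Filter.Eventually.of_forall fun n =>
        ((cont_exp m).measurable.mul (hn n).meas).aestronglyMeasurable
    · refine Filter.Eventually.of_forall fun n => Filter.Eventually.of_forall fun s _ => ?_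
      rw [Real.norm_eq_abs, abs_mul]
      exact mul_le_mul_of_nonneg_left ((hn n).bd s) (abs_nonneg _)
    · apply Continuous.intervalIntegrable
      fun_prop
    · exact Filter.Eventually.of_forall fun s _ => (ht s).const_mul _
  have h3 : Tendsto (fun n => JJ m (kn n)) atTop (𝓝 (JJ m k)) := by
    refine tendsto_integral_of_dominated_convergence (fun s => C * (2 * Real.exp (-(1 / 2) * s)))
      (fun n => ((cont_exp m).measurable.mul (hn n).meas).aestronglyMeasurable)
      (dom_int.const_mul C) (fun n => ?_) ?_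
    · refine (ae_restrict_iff' measurableSet_Ioi).mpr (Filter.Eventually.of_forall fun s hs => ?_)
      rw [Real.norm_eq_abs]
      exact dom_le hm hs ((hn n).bd s) hC
    · exact Filter.Eventually.of_forall fun s => (ht s).const_mul _
  exact ((h1.const_mul _).add ((h3.sub h2).const_mul _)).div_const m

theorem Gd.of_lim {kn : ℕ → ℝ → ℝ} (hn : ∀ n, Gd C (kn n))
    (ht : ∀ s, Tendsto (fun n => kn n s) atTop (𝓝 (k s))) : Gd C k := by
  refine ⟨measurable_of_tendsto_metrizable (fun n => (hn n).meas) (tendsto_pi_nhds.mpr ht), fun s => ?_⟩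
  exact le_of_tendsto (ht s).abs (Filter.Eventually.of_forall fun n => (hn n).bd s)

theorem AA_nonneg (hm : 1 ≤ m) (h0 : ∀ s, 0 ≤ s → 0 ≤ k s) {r : ℝ} (hr : 0 ≤ r) : 0 ≤ AA m k r := by
  refine intervalIntegral.integral_nonneg hr fun s hs => ?_
  exact mul_nonneg (Real.sinh_nonneg_iff.mpr (mul_nonneg (by linarith) hs.1)) (h0 s hs.1)

theorem Gd.BB_nonneg (hm : 1 ≤ m) (h : Gd C k) (h0 : ∀ s, 0 ≤ s → 0 ≤ k s) {r : ℝ} (hr : 0 ≤ r) :
    0 ≤ BB m k r := by
  rw [h.BB_eq hm hr]
  refine setIntegral_nonneg measurableSet_Ioi fun s hs => ?_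
  exact mul_nonneg (Real.exp_pos _).le (h0 s (le_trans hr (le_of_lt hs)))

theorem BB_le (h0 : ∀ s, 0 ≤ s → 0 ≤ k s) {r : ℝ} (hr : 0 ≤ r) :
    BB m k r ≤ JJ m k := by
  have : 0 ≤ ∫ s in (0 : ℝ)..r, Real.exp (-(m * s)) * k s := by
    refine intervalIntegral.integral_nonneg hr fun s hs => ?_
    exact mul_nonneg (Real.exp_pos _).le (h0 s hs.1)
  rw [BB]; linarith

theorem Gd.YY1_bound (hm : 1 ≤ m) (h : Gd C k) (h0 : ∀ s, 0 ≤ s → 0 ≤ k s) {r : ℝ} (hr : 0 ≤ r) :
    |YY1 m k r| ≤ m * YY m k r + JJ m k := by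
  have hm0 : 0 < m := by linarith
  have a1 := AA_nonneg hm h0 hr
  have b1 := h.BB_nonneg hm h0 hr
  have b2 := BB_le (m := m) h0 hr
  have e0 : m * YY m k r = Real.exp (-(m * r)) * AA m k r + Real.sinh (m * r) * BB m k r := by
    rw [YY]; field_simp
  have e1 : Real.cosh (m * r) = Real.sinh (m * r) + Real.exp (-(m * r)) := by
    have := Real.cosh_sub_sinh (m * r)
    linarith
  have hs0 : 0 ≤ Real.sinh (m * r) := Real.sinh_nonneg_iff.mpr (mul_nonneg (by linarith) hr)
  have hx : Real.exp (-(m * r)) ≤ 1 := Real.exp_le_one_iff.mpr (by nlinarith)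
  have hx0 := Real.exp_pos (-(m * r))
  have p1 : 0 ≤ Real.exp (-(m * r)) * AA m k r := mul_nonneg hx0.le a1
  have p2 : 0 ≤ Real.sinh (m * r) * BB m k r := mul_nonneg hs0 b1
  have p3 : Real.exp (-(m * r)) * BB m k r ≤ JJ m k := by nlinarith
  have p4 : 0 ≤ Real.exp (-(m * r)) * BB m k r := mul_nonneg hx0.le b1
  rw [e0, YY1, e1, abs_le]
  constructor <;> nlinarith

end Pool.Agent.R207.AG
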