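import Pool.Agent.R207.AG1

/-!
# Monotone iteration for `Y'' = ((Y/r)^α - 1/r) Y` between explicit barriers
-/

open MeasureTheory Set Filter Topology

namespace Pool.Agent.R207.AG

/-- Admissible parameters. -/
structure Par where
  α : ℝ
  K : ℝ
  ε : ℝ
  m : ℝ
  hα : 0 < α
  hK : 2 ≤ (K / 2) ^ α
  hK1 : 2 ≤ K
  hε : 0 < ε
  hε1 : ε ≤ 1
  hε2 : ε ^ α ≤ 1 / 4
  hm : 1 ≤ m
  hm2 : (α + 1) * K ^ α ≤ m ^ 2

theorem exists_par {α : ℝ} (hα : 0 < α) : ∃ P : Par, P.α = α := by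
  have h1 : (0 : ℝ) < 2 ^ (1 / α) := by positivity
  have h2 : (1 : ℝ) ≤ 2 ^ (1 / α) := Real.one_le_rpow (by norm_num) (by positivity)
  have h3 : ((2 : ℝ) ^ (1 / α)) ^ α = 2 := by
    rw [← Real.rpow_mul (by norm_num), one_div, inv_mul_cancel₀ hα.ne', Real.rpow_one]
  have h4 : ((1 / 4 : ℝ) ^ (1 / α)) ^ α = 1 / 4 := by
    rw [← Real.rpow_mul (by norm_num), one_div α, inv_mul_cancel₀ hα.ne', Real.rpow_one]
  have h5 : (1 / 4 : ℝ) ^ (1 / α) ≤ 1 := Real.rpow_le_one (by norm_num) (by norm_num) (by positivity)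
  have h6 : 0 ≤ (α + 1) * (2 * (2 : ℝ) ^ (1 / α)) ^ α := by positivity
  refine ⟨⟨α, 2 * 2 ^ (1 / α), (1 / 4) ^ (1 / α), 1 + (α + 1) * (2 * (2 : ℝ) ^ (1 / α)) ^ α, hα, ?_, ?_, ?_, ?_, ?_, ?_, ?_⟩,
    rfl⟩
  · rw [mul_div_cancel_left₀ _ (by norm_num : (2 : ℝ) ≠ 0), h3]
  · linarith
  · positivity
  · exact h5
  · rw [h4]
  · linarith
  · nlinarith

variable (P : Par)

namespace Par

noncomputable def g (t : ℝ) : ℝ := P.m ^ 2 * t - t ^ (P.α + 1)

noncomputable def up (s : ℝ) : ℝ := P.K * (1 + Real.exp (-s)) / 2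

noncomputable def lo (s : ℝ) : ℝ := P.ε * Real.exp (-(1 / 2) * s)

noncomputable def h (u : ℝ → ℝ) (s : ℝ) : ℝ := s * P.g (u s) + u s

theorem g_zero : P.g 0 = 0 := by
  have := P.hα
  rw [g, Real.zero_rpow (by linarith)]; simp

theorem g_cont : Continuous P.g := by
  have := P.hα
  exact (continuous_const.mul continuous_id).sub (Real.continuous_rpow_const (by linarith))

theorem g_mono {a b : ℝ} (ha : 0 ≤ a) (hab : a ≤ b) (hb : b ≤ P.K) : P.g a ≤ P.g b := by
  have hα := P.hα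
  have hmo : MonotoneOn P.g (Icc 0 P.K) := by
    refine monotoneOn_of_hasDerivWithinAt_nonneg (convex_Icc 0 P.K) P.g_cont.continuousOn
      (f' := fun t => P.m ^ 2 - (P.α + 1) * t ^ P.α) ?_ ?_
    · intro t ht
      rw [interior_Icc] at ht
      have e1 : HasDerivAt (fun t : ℝ => t ^ (P.α + 1)) ((P.α + 1) * t ^ (P.α + 1 - 1)) t :=
        Real.hasDerivAt_rpow_const (Or.inl ht.1.ne')
      have e2 := ((hasDerivAt_id t).const_mul (P.m ^ 2)).sub e1
      refine (e2.congr_deriv ?_).hasDerivWithinAt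
      rw [add_sub_cancel_right, mul_one]
    · intro t ht
      rw [interior_Icc] at ht
      have : t ^ P.α ≤ P.K ^ P.α := Real.rpow_le_rpow ht.1.le ht.2.le hα.le
      nlinarith [P.hm2]
  exact hmo ⟨ha, hab.trans hb⟩ ⟨ha.trans hab, hb⟩ hab

theorem up_le {s : ℝ} (hs : 0 ≤ s) : P.up s ≤ P.K := by
  have h1 : Real.exp (-s) ≤ 1 := Real.exp_le_one_iff.mpr (by linarith)
  have := P.hK1
  rw [up]
  nlinarith

theorem up_ge (s : ℝ) : P.K / 2 ≤ P.up s := by
  have h1 : 0 < Real.exp (-s) := Real.exp_pos _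
  have := P.hK1
  rw [up]
  nlinarith

theorem lo_pos (s : ℝ) : 0 < P.lo s := mul_pos P.hε (Real.exp_pos _)

theorem lo_le {s : ℝ} (hs : 0 ≤ s) : P.lo s ≤ P.ε := by
  have h1 : Real.exp (-(1 / 2) * s) ≤ 1 := Real.exp_le_one_iff.mpr (by linarith)
  have := P.hε
  rw [lo]
  nlinarith

theorem lo_le_up {s : ℝ} (hs : 0 ≤ s) : P.lo s ≤ P.up s := by
  have := P.lo_le hs
  have := P.up_ge s
  have := P.hε1
  have := P.hK1
  linarith

/-- The constant in the growth bound. -/
noncomputable def Cc : ℝ := (P.m ^ 2 + 1) * P.K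

/-- The class in which we iterate. -/
structure Cl (u : ℝ → ℝ) : Prop where
  meas : Measurable u
  zero : ∀ s, s ≤ 0 → u s = 0
  lo : ∀ s, 0 < s → P.lo s ≤ u s
  up : ∀ s, 0 < s → u s ≤ P.up s

variable {P}
variable {u v : ℝ → ℝ}

theorem Cl.nonneg (h : P.Cl u) (s : ℝ) : 0 ≤ u s := by
  rcases le_or_gt s 0 with hs | hs
  · rw [h.zero s hs]
  · exact (P.lo_pos s).le.trans (h.lo s hs)

theorem Cl.leK (h : P.Cl u) (s : ℝ) : u s ≤ P.K := by
  rcases le_or_gt s 0 with hs | hs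
  · rw [h.zero s hs]; linarith [P.hK1]
  · exact (h.up s hs).trans (P.up_le hs.le)

theorem g_nonneg {t : ℝ} (h0 : 0 ≤ t) (h1 : t ≤ P.K) : 0 ≤ P.g t := by
  have := P.g_mono le_rfl h0 h1
  rwa [P.g_zero] at this

theorem g_le {t : ℝ} (h0 : 0 ≤ t) : P.g t ≤ P.m ^ 2 * t := by
  have : 0 ≤ t ^ (P.α + 1) := Real.rpow_nonneg h0 _
  rw [g]; linarith

theorem Cl.h_zero (h : P.Cl u) {s : ℝ} (hs : s ≤ 0) : P.h u s = 0 := by
  rw [Par.h, h.zero s hs, P.g_zero]; simp

theorem Cl.h_nonneg (h : P.Cl u) (s : ℝ) : 0 ≤ P.h u s := by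
  rcases le_or_gt s 0 with hs | hs
  · rw [h.h_zero hs]
  · have := g_nonneg (h.nonneg s) (h.leK s)
    have := h.nonneg s
    rw [Par.h]; positivity

theorem Cl.gd (h : P.Cl u) : Gd P.Cc (P.h u) := by
  refine ⟨(measurable_id.mul (P.g_cont.measurable.comp h.meas)).add h.meas, fun s => ?_⟩
  have hK := P.hK1
  have hm := P.hm
  rcases le_or_gt s 0 with hs | hs
  · rw [h.h_zero hs, abs_zero]
    rw [Cc]; positivity
  · rw [abs_of_nonneg (h.h_nonneg s), abs_of_pos hs, Par.h, Cc]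
    have h1 := g_le (P := P) (h.nonneg s)
    have h2 := h.leK s
    have h3 := h.nonneg s
    have h4 : P.m ^ 2 * u s ≤ P.m ^ 2 * P.K := mul_le_mul_of_nonneg_left h2 (by positivity)
    have h5 : s * P.g (u s) ≤ s * (P.m ^ 2 * P.K) := mul_le_mul_of_nonneg_left (h1.trans h4) hs.le
    have h6 : 0 ≤ P.m ^ 2 * P.K := by positivity
    nlinarith

theorem Cl.h_mono (hu : P.Cl u) (hv : P.Cl v) (hle : ∀ s, u s ≤ v s) {s : ℝ} (hs : 0 < s) :
    P.h u s ≤ P.h v s := by
  have := P.g_mono (hu.nonneg s) (hle s) (hv.leK s)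
  have := mul_le_mul_of_nonneg_left this hs.le
  rw [Par.h, Par.h]
  linarith [hle s]

variable (P) in
/-- The iteration map. -/
noncomputable def F (u : ℝ → ℝ) (r : ℝ) : ℝ := (Ioi (0 : ℝ)).indicator (fun r => YY P.m (P.h u) r / r) r

theorem F_pos {r : ℝ} (hr : 0 < r) : P.F u r = YY P.m (P.h u) r / r := by
  rw [F, indicator_of_mem (show r ∈ Ioi (0 : ℝ) from hr)]

theorem F_nonpos {r : ℝ} (hr : r ≤ 0) : P.F u r = 0 := by
  rw [F, indicator_of_notMem]
  exact fun h => absurd h (not_lt.mpr hr)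

theorem upZ1 (s : ℝ) : HasDerivAt (fun s => s * P.up s)
    (P.K * (1 + Real.exp (-s) - s * Real.exp (-s)) / 2) s := by
  have e1 : HasDerivAt (fun s : ℝ => Real.exp (-s)) (-Real.exp (-s)) s := by
    have := (hasDerivAt_id s).neg.exp
    refine this.congr_deriv ?_
    simp only [Pi.neg_apply, id]; ring
  have := (hasDerivAt_id s).mul (((e1.const_add 1).const_mul P.K).div_const 2)
  refine this.congr_deriv ?_
  simp only [id]
  ring

theorem upZ2 (s : ℝ) : HasDerivAt (fun s => P.K * (1 + Real.exp (-s) - s * Real.exp (-s)) / 2)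
    (P.K * (-2 * Real.exp (-s) + s * Real.exp (-s)) / 2) s := by
  have e1 : HasDerivAt (fun s : ℝ => Real.exp (-s)) (-Real.exp (-s)) s := by
    have := (hasDerivAt_id s).neg.exp
    refine this.congr_deriv ?_
    simp only [Pi.neg_apply, id]; ring
  have := (((e1.const_add 1).sub ((hasDerivAt_id s).mul e1)).const_mul P.K).div_const 2
  refine this.congr_deriv ?_
  simp only [id]
  ring

theorem loZ1 (s : ℝ) : HasDerivAt (fun s => s * P.lo s)
    (P.ε * (Real.exp (-(1 / 2) * s) - s / 2 * Real.exp (-(1 / 2) * s))) s := by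
  have e1 : HasDerivAt (fun s : ℝ => Real.exp (-(1 / 2) * s)) (-(1 / 2) * Real.exp (-(1 / 2) * s)) s := by
    have := ((hasDerivAt_id s).const_mul (-(1 / 2) : ℝ)).exp
    refine this.congr_deriv ?_
    simp only [id]; ring
  have := (hasDerivAt_id s).mul (e1.const_mul P.ε)
  refine this.congr_deriv ?_
  simp only [id]
  ring

theorem loZ2 (s : ℝ) : HasDerivAt
    (fun s => P.ε * (Real.exp (-(1 / 2) * s) - s / 2 * Real.exp (-(1 / 2) * s)))
    (P.ε * (-Real.exp (-(1 / 2) * s) + s / 4 * Real.exp (-(1 / 2) * s))) s := by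
  have e1 : HasDerivAt (fun s : ℝ => Real.exp (-(1 / 2) * s)) (-(1 / 2) * Real.exp (-(1 / 2) * s)) s := by
    have := ((hasDerivAt_id s).const_mul (-(1 / 2) : ℝ)).exp
    refine this.congr_deriv ?_
    simp only [id]; ring
  have := (e1.sub (((hasDerivAt_id s).div_const 2).mul e1)).const_mul P.ε
  refine this.congr_deriv ?_
  simp only [id]
  ring

/-- If `|w| ≤ C (1+s)` for positive `s` then `e^{-ms} w → 0`. -/
theorem lim_exp {m C : ℝ} (hm : 1 ≤ m) {w : ℝ → ℝ} (h : ∀ s, 0 < s → |w s| ≤ C * (1 + |s|)) (hC : 0 ≤ C) :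
    Tendsto (fun s => Real.exp (-(m * s)) * w s) atTop (𝓝 0) := by
  have t0 : Tendsto (fun s : ℝ => C * (2 * Real.exp (-(1 / 2) * s))) atTop (𝓝 (C * (2 * 0))) := by
    refine ((Real.tendsto_exp_atBot.comp ?_).const_mul 2).const_mul C
    exact (tendsto_id.const_mul_atTop_of_neg (by norm_num : (-(1 / 2) : ℝ) < 0))
  rw [mul_zero, mul_zero] at t0
  refine squeeze_zero_norm' ?_ t0
  filter_upwards [eventually_gt_atTop 0] with s hs
  rw [Real.norm_eq_abs]
  exact dom_le hm hs (h s hs) hC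

theorem Cl.F_up (h : P.Cl u) {r : ℝ} (hr : 0 < r) : P.F u r ≤ P.up r := by
  rw [F_pos hr, div_le_iff₀ hr, mul_comm]
  have hK := P.hK1
  have hm := P.hm
  refine h.gd.YY_le (Z := fun s => s * P.up s) P.hm upZ1 upZ2 (by fun_prop) (by simp) ?_ ?_ hr.le
  · refine lim_exp (C := P.m * P.K + P.K) P.hm (fun s hs => ?_) (by positivity)
    rw [abs_of_pos hs]
    have h1 := P.up_le hs.le
    have h2 := P.up_ge s
    have h3 : 0 < Real.exp (-s) := Real.exp_pos _
    have h4 : Real.exp (-s) ≤ 1 := Real.exp_le_one_iff.mpr (by linarith)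
    have h5 : s * P.up s ≤ s * P.K := mul_le_mul_of_nonneg_left h1 hs.le
    have h5' : 0 ≤ s * P.up s := mul_nonneg hs.le (by linarith)
    have h6 : s * Real.exp (-s) ≤ s := by nlinarith
    have h6' : 0 ≤ s * Real.exp (-s) := by positivity
    have h7 : |P.K * (1 + Real.exp (-s) - s * Real.exp (-s)) / 2| ≤ P.K * (1 + s) := by
      rw [abs_le]; constructor <;> nlinarith
    have h8 : |P.m * (s * P.up s)| ≤ P.m * (P.K * (1 + s)) := by
      rw [abs_of_nonneg (by positivity)]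
      refine mul_le_mul_of_nonneg_left ?_ (by positivity)
      nlinarith
    refine (abs_add_le _ _).trans ?_
    nlinarith
  · intro s hs
    have h1 := g_mono P (h.nonneg s) (h.up s hs) (P.up_le hs.le)
    have h2 := mul_le_mul_of_nonneg_left h1 hs.le
    have h3 : P.h u s ≤ s * P.g (P.up s) + P.up s := by rw [Par.h]; linarith [h.up s hs]
    refine h3.trans ?_
    rw [g]
    have hup0 : 0 < P.up s := by linarith [P.up_ge s]
    have e1 : P.up s ^ (P.α + 1) = P.up s ^ P.α * P.up s := by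
      rw [Real.rpow_add hup0, Real.rpow_one]
    have e2 : 2 ≤ P.up s ^ P.α := P.hK.trans
      (Real.rpow_le_rpow (by linarith) (P.up_ge s) P.hα.le)
    have e3 : P.K ≤ P.up s ^ P.α * P.up s := by nlinarith [P.up_ge s]
    have h3 : 0 < Real.exp (-s) := Real.exp_pos _
    have h4 : Real.exp (-s) ≤ 1 := Real.exp_le_one_iff.mpr (by linarith)
    have h5 : 1 - s ≤ Real.exp (-s) := by linarith [Real.add_one_le_exp (-s)]
    have h6 : s * Real.exp (-s) ≤ s := by nlinarith
    rw [e1]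
    have e4 : s * P.K ≤ s * (P.up s ^ P.α * P.up s) := mul_le_mul_of_nonneg_left e3 hs.le
    have e5 : P.up s = P.K * (1 + Real.exp (-s)) / 2 := rfl
    have e6 : P.up s + P.K * (-2 * Real.exp (-s) + s * Real.exp (-s)) / 2 ≤ s * P.K := by
      rw [e5]; nlinarith
    nlinarith

theorem Cl.F_lo (h : P.Cl u) {r : ℝ} (hr : 0 < r) : P.lo r ≤ P.F u r := by
  rw [F_pos hr, le_div_iff₀ hr, mul_comm]
  have hK := P.hK1
  have hm := P.hm
  have hε := P.hε
  have hε1 := P.hε1
  refine h.gd.le_YY (Z := fun s => s * P.lo s) P.hm loZ1 loZ2 (by fun_prop) (by simp) ?_ ?_ hr.le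
  · refine lim_exp (C := P.m + 1) P.hm (fun s hs => ?_) (by positivity)
    rw [abs_of_pos hs]
    have h3 : 0 < Real.exp (-(1 / 2) * s) := Real.exp_pos _
    have h4 : Real.exp (-(1 / 2) * s) ≤ 1 := Real.exp_le_one_iff.mpr (by linarith)
    have h5 : s * P.lo s ≤ s := by
      have : P.lo s ≤ 1 := by rw [Par.lo]; nlinarith
      nlinarith
    have h5' : 0 ≤ s * P.lo s := mul_nonneg hs.le (P.lo_pos s).le
    have h6 : s * Real.exp (-(1 / 2) * s) ≤ s := by nlinarith
    have h6' : 0 ≤ s * Real.exp (-(1 / 2) * s) := by positivity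
    have h7 : |P.ε * (Real.exp (-(1 / 2) * s) - s / 2 * Real.exp (-(1 / 2) * s))| ≤ 1 + s := by
      rw [abs_mul, abs_of_pos hε]
      have : |Real.exp (-(1 / 2) * s) - s / 2 * Real.exp (-(1 / 2) * s)| ≤ 1 + s := by
        rw [abs_le]; constructor <;> nlinarith
      have h0 := abs_nonneg (Real.exp (-(1 / 2) * s) - s / 2 * Real.exp (-(1 / 2) * s))
      nlinarith
    have h8 : |P.m * (s * P.lo s)| ≤ P.m * (1 + s) := by
      rw [abs_of_nonneg (by positivity)]
      refine mul_le_mul_of_nonneg_left ?_ (by positivity)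
      nlinarith
    refine (abs_add_le _ _).trans ?_
    nlinarith
  · intro s hs
    have h1 := g_mono P (P.lo_pos s).le (h.lo s hs) (h.leK s)
    have h2 := mul_le_mul_of_nonneg_left h1 hs.le
    have h3 : s * P.g (P.lo s) + P.lo s ≤ P.h u s := by rw [Par.h]; linarith [h.lo s hs]
    refine le_trans ?_ h3
    rw [g]
    have e1 : P.lo s ^ (P.α + 1) = P.lo s ^ P.α * P.lo s := by
      rw [Real.rpow_add (P.lo_pos s), Real.rpow_one]
    have e2 : P.lo s ^ P.α ≤ 1 / 4 :=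
      (Real.rpow_le_rpow (P.lo_pos s).le (P.lo_le hs.le) P.hα.le).trans P.hε2
    rw [e1]
    have e3 : P.lo s ^ P.α * P.lo s ≤ 1 / 4 * P.lo s := mul_le_mul_of_nonneg_right e2 (P.lo_pos s).le
    have e4 := mul_le_mul_of_nonneg_left e3 hs.le
    have e5 : P.lo s = P.ε * Real.exp (-(1 / 2) * s) := rfl
    have e6 : P.ε * (-Real.exp (-(1 / 2) * s) + s / 4 * Real.exp (-(1 / 2) * s)) =
        -P.lo s + s / 4 * P.lo s := by rw [e5]; ring
    rw [e6]
    linarith

theorem Cl.F_cl (h : P.Cl u) : P.Cl (P.F u) := by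
  refine ⟨?_, fun s hs => F_nonpos hs, fun s hs => h.F_lo hs, fun s hs => h.F_up hs⟩
  exact ((h.gd.YY_cont).measurable.div measurable_id).indicator measurableSet_Ioi

theorem Cl.F_mono (hu : P.Cl u) (hv : P.Cl v) (hle : ∀ s, u s ≤ v s) (s : ℝ) : P.F u s ≤ P.F v s := by
  rcases le_or_gt s 0 with hs | hs
  · rw [F_nonpos hs, F_nonpos hs]
  · rw [F_pos hs, F_pos hs]
    exact div_le_div_of_nonneg_right
      (hu.gd.YY_mono P.hm hv.gd (fun t ht => hu.h_mono hv hle ht) hs.le) hs.le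

variable (P) in
noncomputable def it : ℕ → ℝ → ℝ
  | 0 => (Ioi (0 : ℝ)).indicator P.up
  | n + 1 => P.F (it n)

theorem it_cl (n : ℕ) : P.Cl (P.it n) := by
  induction n with
  | zero =>
    refine ⟨?_, fun s hs => ?_, fun s hs => ?_, fun s hs => ?_⟩
    · refine Measurable.indicator ?_ measurableSet_Ioi
      exact Continuous.measurable (by unfold up; fun_prop)
    · rw [it, indicator_of_notMem]
      exact fun h => absurd h (not_lt.mpr hs)
    · rw [it, indicator_of_mem (show s ∈ Ioi (0 : ℝ) from hs)]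
      exact P.lo_le_up hs.le
    · rw [it, indicator_of_mem (show s ∈ Ioi (0 : ℝ) from hs)]
  | succ n ih => exact ih.F_cl

theorem it_anti (n : ℕ) (s : ℝ) : P.it (n + 1) s ≤ P.it n s := by
  induction n generalizing s with
  | zero =>
    rcases le_or_gt s 0 with hs | hs
    · rw [(it_cl 1).zero s hs, (it_cl 0).zero s hs]
    · rw [it, it, indicator_of_mem (show s ∈ Ioi (0 : ℝ) from hs)]
      exact (it_cl 0).F_up hs
  | succ n ih => exact (it_cl (n + 1)).F_mono (it_cl n) ih s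

theorem exists_fix : ∃ u : ℝ → ℝ, P.Cl u ∧ P.F u = u := by
  have hanti : ∀ s, Antitone (fun n => P.it n s) := fun s => antitone_nat_of_succ_le fun n => it_anti n s
  have hbdd : ∀ s, BddBelow (range fun n => P.it n s) := fun s =>
    ⟨0, by rintro _ ⟨n, rfl⟩; exact (it_cl n).nonneg s⟩
  have ht : ∀ s, Tendsto (fun n => P.it n s) atTop (𝓝 (⨅ n, P.it n s)) := fun s =>
    tendsto_atTop_ciInf (hanti s) (hbdd s)
  set u : ℝ → ℝ := fun s => ⨅ n, P.it n s with hu
  have hcl : P.Cl u := by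
    refine ⟨measurable_of_tendsto_metrizable (fun n => (it_cl n).meas) (tendsto_pi_nhds.mpr ht), ?_, ?_, ?_⟩
    · intro s hs
      refine tendsto_nhds_unique (ht s) ?_
      refine tendsto_const_nhds.congr fun n => ?_
      rw [(it_cl n).zero s hs]
    · intro s hs
      exact ge_of_tendsto (ht s) (Filter.Eventually.of_forall fun n => (it_cl n).lo s hs)
    · intro s hs
      exact le_of_tendsto (ht s) (Filter.Eventually.of_forall fun n => (it_cl n).up s hs)
  refine ⟨u, hcl, ?_⟩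
  have hht : ∀ s, Tendsto (fun n => P.h (P.it n) s) atTop (𝓝 (P.h u s)) := fun s =>
    ((((P.g_cont.tendsto _).comp (ht s)).const_mul s).add (ht s))
  funext s
  rcases le_or_gt s 0 with hs | hs
  · rw [F_nonpos hs, hcl.zero s hs]
  · have h1 : Tendsto (fun n => P.F (P.it n) s) atTop (𝓝 (P.F u s)) := by
      simp only [F_pos hs]
      exact (YY_lim P.hm (fun n => (it_cl n).gd) hht).div_const s
    have h2 : Tendsto (fun n => P.it (n + 1) s) atTop (𝓝 (u s)) :=
      (ht s).comp (tendsto_add_atTop_nat 1)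
    exact tendsto_nhds_unique h1 h2

end Par

end Pool.Agent.R207.AG
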