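import Pool.Agent.R207.AG2

/-!
# The radial profile
-/

open MeasureTheory Set Filter Topology

namespace Pool.Agent.R207.AG

namespace Par

variable {P : Par} {u : ℝ → ℝ}

theorem fix_eq (hF : P.F u = u) {r : ℝ} (hr : 0 < r) : u r = YY P.m (P.h u) r / r := by
  rw [← F_pos (P := P) hr, hF]

theorem fix_cont (h : P.Cl u) (hF : P.F u = u) {r : ℝ} (hr : 0 < r) : ContinuousAt u r := by
  have h1 : ContinuousAt (fun r => YY P.m (P.h u) r / r) r :=
    h.gd.YY_cont.continuousAt.div continuousAt_id hr.ne'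
  refine h1.congr ?_
  filter_upwards [lt_mem_nhds hr] with s hs
  exact (fix_eq hF hs).symm

theorem fix_hcont (h : P.Cl u) (hF : P.F u = u) {r : ℝ} (hr : 0 < r) : ContinuousAt (P.h u) r :=
  (continuousAt_id.mul (P.g_cont.continuousAt.comp (fix_cont h hF hr))).add (fix_cont h hF hr)

variable (P u) in
noncomputable def W (r : ℝ) : ℝ := r * YY1 P.m (P.h u) r - YY P.m (P.h u) r

theorem fix_deriv (h : P.Cl u) (hF : P.F u = u) {r : ℝ} (hr : 0 < r) :
    HasDerivAt u (P.W u r / r ^ 2) r := by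
  have h1 := (h.gd.YY_deriv P.hm (fix_hcont h hF hr)).div (hasDerivAt_id r) hr.ne'
  have h2 : HasDerivAt (fun r => YY P.m (P.h u) r / r) (P.W u r / r ^ 2) r := by
    refine h1.congr_deriv ?_
    simp only [id, W]
    ring
  refine h2.congr_of_eventuallyEq ?_
  filter_upwards [lt_mem_nhds hr] with s hs
  exact fix_eq hF hs

theorem fix_W (h : P.Cl u) (hF : P.F u = u) {r : ℝ} (hr : 0 < r) :
    HasDerivAt (P.W u) (r ^ 2 * (((u r) ^ P.α - 1 / r) * u r)) r := by
  have hc := fix_hcont h hF hr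
  have h1 := ((hasDerivAt_id r).mul (h.gd.YY1_deriv P.hm hc)).sub (h.gd.YY_deriv P.hm hc)
  refine h1.congr_deriv ?_
  have e1 : YY P.m (P.h u) r = r * u r := by rw [fix_eq hF hr]; field_simp
  have hu0 : 0 < u r := (P.lo_pos r).trans_le (h.lo r hr)
  have e2 : (u r) ^ (P.α + 1) = (u r) ^ P.α * u r := by rw [Real.rpow_add hu0, Real.rpow_one]
  rw [e1]
  simp only [id, Par.h, g]
  rw [e2]
  field_simp
  ring

theorem fix_W_cont (h : P.Cl u) : Continuous (P.W u) :=
  (continuous_id.mul h.gd.YY1_cont).sub h.gd.YY_cont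

theorem fix_W_zero : P.W u 0 = 0 := by simp [W, YY_zero]

theorem fix_bound (h : P.Cl u) (hF : P.F u = u) : ∃ C : ℝ, 0 ≤ C ∧ ∀ r, 0 < r → |P.W u r / r ^ 2| ≤ C := by
  have hK := P.hK1
  have hm := P.hm
  have hα := P.hα
  have hKα : 0 ≤ P.K ^ P.α := Real.rpow_nonneg (by linarith) _
  have hJ : 0 ≤ JJ P.m (P.h u) := by
    rw [← BB_zero]
    exact h.gd.BB_nonneg P.hm (fun s _ => h.h_nonneg s) le_rfl
  refine ⟨(P.K ^ P.α + 1) * P.K + (P.m * P.K + JJ P.m (P.h u) + P.K), by positivity, fun r hr => ?_⟩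
  rcases le_or_gt r 1 with h1 | h1
  · obtain ⟨c, hc, hce⟩ := exists_hasDerivAt_eq_slope (P.W u)
      (fun r => r ^ 2 * (((u r) ^ P.α - 1 / r) * u r)) hr (fix_W_cont h).continuousOn
      (fun x hx => fix_W h hF hx.1)
    have e1 : P.W u r = r * (c ^ 2 * (((u c) ^ P.α - 1 / c) * u c)) := by
      have : c ^ 2 * (((u c) ^ P.α - 1 / c) * u c) = (P.W u r - P.W u 0) / (r - 0) := hce
      rw [this, fix_W_zero, sub_zero, sub_zero]
      field_simp
    have e2 : c ^ 2 * (((u c) ^ P.α - 1 / c) * u c) = c * ((c * (u c) ^ P.α - 1) * u c) := by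
      have := hc.1.ne'
      field_simp
    have h2 : |(c * (u c) ^ P.α - 1) * u c| ≤ (P.K ^ P.α + 1) * P.K := by
      rw [abs_mul, abs_of_nonneg (h.nonneg c)]
      have h3 : (u c) ^ P.α ≤ P.K ^ P.α := Real.rpow_le_rpow (h.nonneg c) (h.leK c) hα.le
      have h4 : 0 ≤ (u c) ^ P.α := Real.rpow_nonneg (h.nonneg c) _
      refine mul_le_mul ?_ (h.leK c) (h.nonneg c) (by positivity)
      have h5 : c * (u c) ^ P.α ≤ P.K ^ P.α := by
        have := hc.2
        have := hc.1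
        nlinarith
      have h6 : 0 ≤ c * (u c) ^ P.α := mul_nonneg hc.1.le h4
      rw [abs_le]
      constructor <;> linarith
    have h7 : P.W u r / r ^ 2 = (c / r) * ((c * (u c) ^ P.α - 1) * u c) := by
      rw [e1, e2]; field_simp
    rw [h7, abs_mul, abs_of_pos (div_pos hc.1 hr)]
    have h8 : c / r ≤ 1 := by rw [div_le_one hr]; exact hc.2.le
    have h9 : 0 ≤ c / r := (div_pos hc.1 hr).le
    have h10 := abs_nonneg ((c * (u c) ^ P.α - 1) * u c)
    have h11 : 0 ≤ P.m * P.K + JJ P.m (P.h u) + P.K := by positivity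
    nlinarith
  · have e1 : YY P.m (P.h u) r = r * u r := by rw [fix_eq hF hr]; field_simp
    have h2 := h.gd.YY1_bound P.hm (fun s _ => h.h_nonneg s) hr.le
    rw [e1] at h2
    have h3 := h.leK r
    have h4 := h.nonneg r
    have h5 : |P.W u r| ≤ r * (P.m * (r * P.K) + JJ P.m (P.h u)) + r * P.K := by
      rw [W, e1]
      refine (abs_sub _ _).trans ?_
      rw [abs_mul, abs_of_pos hr, abs_of_nonneg (mul_nonneg hr.le h4)]
      have h6 : P.m * (r * u r) ≤ P.m * (r * P.K) := by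
        refine mul_le_mul_of_nonneg_left ?_ (by positivity)
        exact mul_le_mul_of_nonneg_left h3 hr.le
      have h7 : r * |YY1 P.m (P.h u) r| ≤ r * (P.m * (r * P.K) + JJ P.m (P.h u)) :=
        mul_le_mul_of_nonneg_left (by linarith) hr.le
      have h8 : r * u r ≤ r * P.K := mul_le_mul_of_nonneg_left h3 hr.le
      linarith
    rw [abs_div, abs_of_pos (by positivity : (0 : ℝ) < r ^ 2), div_le_iff₀ (by positivity)]
    refine h5.trans ?_
    have h9 : r ≤ r ^ 2 := by nlinarith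
    have h10 : r * JJ P.m (P.h u) ≤ r ^ 2 * JJ P.m (P.h u) := mul_le_mul_of_nonneg_right h9 hJ
    have h11 : r * P.K ≤ r ^ 2 * P.K := mul_le_mul_of_nonneg_right h9 (by linarith)
    have h12 : 0 ≤ (P.K ^ P.α + 1) * P.K * r ^ 2 := by positivity
    nlinarith

end Par

open Par in
/-- The profile. -/
theorem profile {α : ℝ} (hα : 0 < α) : ∃ (f f1 : ℝ → ℝ) (C : NNReal) (K ε : ℝ), 0 < ε ∧
    LipschitzWith C f ∧ (∀ r, 0 < r → HasDerivAt f (f1 r) r) ∧ (∀ r, 0 < r → |f1 r| ≤ C) ∧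
    (∀ r, 0 < r → HasDerivAt (fun r => r ^ 2 * f1 r) (r ^ 2 * (((f r) ^ α - 1 / r) * f r)) r) ∧
    (∀ r, 0 ≤ r → ε * Real.exp (-(1 / 2) * r) ≤ f r ∧ f r ≤ K) := by
  obtain ⟨P, rfl⟩ := exists_par hα
  obtain ⟨u, hcl, hF⟩ := exists_fix (P := P)
  obtain ⟨C, hC0, hC⟩ := fix_bound hcl hF
  have hlip : LipschitzOnWith C.toNNReal u (Ioi 0) := by
    refine (convex_Ioi 0).lipschitzOnWith_of_nnnorm_hasDerivWithin_le (f' := fun r => P.W u r / r ^ 2)
      (fun x hx => (fix_deriv hcl hF hx).hasDerivWithinAt) (fun x hx => ?_)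
    rw [← NNReal.coe_le_coe, Real.coe_toNNReal _ hC0, coe_nnnorm, Real.norm_eq_abs]
    exact hC x hx
  obtain ⟨f, hf1, hf2⟩ := hlip.extend_real
  have hev : ∀ r, 0 < r → f =ᶠ[𝓝 r] u := fun r hr => by
    filter_upwards [lt_mem_nhds hr] with s hs
    exact (hf2 hs).symm
  refine ⟨f, fun r => P.W u r / r ^ 2, C.toNNReal, P.K, P.ε, P.hε, hf1, ?_, ?_, ?_, ?_⟩
  · intro r hr
    exact (fix_deriv hcl hF hr).congr_of_eventuallyEq (hev r hr)
  · intro r hr
    rw [Real.coe_toNNReal _ hC0]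
    exact hC r hr
  · intro r hr
    rw [show f r = u r from (hf2 hr).symm]
    refine (fix_W hcl hF hr).congr_of_eventuallyEq ?_
    filter_upwards [lt_mem_nhds hr] with s hs
    have : s ≠ 0 := ne_of_gt hs
    field_simp
  · have hc1 : IsClosed {r : ℝ | P.ε * Real.exp (-(1 / 2) * r) ≤ f r} :=
      isClosed_le (by fun_prop) hf1.continuous
    have hc2 : IsClosed {r : ℝ | f r ≤ P.K} := isClosed_le hf1.continuous continuous_const
    have s1 : Ioi (0 : ℝ) ⊆ {r : ℝ | P.ε * Real.exp (-(1 / 2) * r) ≤ f r} := fun r hr => by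
      show P.ε * Real.exp (-(1 / 2) * r) ≤ f r
      rw [← hf2 hr]; exact hcl.lo r hr
    have s2 : Ioi (0 : ℝ) ⊆ {r : ℝ | f r ≤ P.K} := fun r hr => by
      show f r ≤ P.K
      rw [← hf2 hr]; exact hcl.leK r
    have t1 := closure_minimal s1 hc1
    have t2 := closure_minimal s2 hc2
    rw [closure_Ioi] at t1 t2
    exact fun r hr => ⟨t1 hr, t2 hr⟩

end Pool.Agent.R207.AG
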