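import Pool.Agent.R207.AG3

/-!
# Radial functions on `ℝ³`: weak gradient and weak equation
-/

open MeasureTheory Set Filter Topology
open scoped RealInnerProductSpace ContDiff

namespace Pool.Agent.R207.AG

abbrev E3 := EuclideanSpace ℝ (Fin 3)

theorem finrank_E3 : Module.finrank ℝ E3 = 3 := by simp

/-- Polar coordinates: the integral of `H` over the space vanishes when all radial integrals do. -/
theorem polar_zero {H : E3 → ℝ} (hi : Integrable H)
    (h0 : ∀ w : E3, ‖w‖ = 1 → ∫ r in Ioi (0 : ℝ), r ^ 2 * H (r • w) = 0) : ∫ x, H x = 0 := by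
  have hmp := (volume : Measure E3).measurePreserving_homeomorphUnitSphereProd
  rw [finrank_E3] at hmp
  let G : Metric.sphere (0 : E3) 1 × Ioi (0 : ℝ) → ℝ := fun p => H ((p.2 : ℝ) • (p.1 : E3))
  have e2 : ∀ x : ({(0 : E3)}ᶜ : Set E3), G (homeomorphUnitSphereProd E3 x) = H x.1 := by
    intro x
    have h1 := homeomorphUnitSphereProd_symm_apply_coe E3 (homeomorphUnitSphereProd E3 x)
    rw [Homeomorph.symm_apply_apply] at h1
    show H _ = H _
    rw [← h1]
  have e1 : ∫ x, H x = ∫ x : ({(0 : E3)}ᶜ : Set E3), H x.1 ∂((volume : Measure E3).comap (↑)) := by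
    rw [integral_subtype_comap (measurableSet_singleton _).compl H, restrict_compl_singleton]
  have hGi : Integrable G ((volume : Measure E3).toSphere.prod (Measure.volumeIoiPow (3 - 1))) := by
    rw [← hmp.integrable_comp_emb (Homeomorph.measurableEmbedding _)]
    have : (G ∘ (homeomorphUnitSphereProd E3)) = fun x : ({(0 : E3)}ᶜ : Set E3) => H x.1 := by
      funext x; exact e2 x
    rw [this]
    have h2 : IntegrableOn H ({(0 : E3)}ᶜ) := hi.integrableOn
    rwa [integrableOn_iff_comap_subtypeVal (by measurability)] at h2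
  rw [e1]
  have e3 : ∫ x : ({(0 : E3)}ᶜ : Set E3), H x.1 ∂((volume : Measure E3).comap (↑)) =
      ∫ p, G p ∂((volume : Measure E3).toSphere.prod (Measure.volumeIoiPow (3 - 1))) := by
    rw [← hmp.integral_comp (Homeomorph.measurableEmbedding _)]
    exact integral_congr_ae (Filter.Eventually.of_forall fun x => (e2 x).symm)
  rw [e3, integral_prod _ hGi]
  have e4 : ∀ w : Metric.sphere (0 : E3) 1, ∫ r : Ioi (0 : ℝ), G (w, r) ∂(Measure.volumeIoiPow (3 - 1)) = 0 := by
    intro w
    have hw : ‖(w : E3)‖ = 1 := by simp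
    refine Eq.trans ?_ (h0 w hw)
    simp only [Measure.volumeIoiPow, ENNReal.ofReal]
    rw [integral_withDensity_eq_integral_smul,
      integral_subtype_comap measurableSet_Ioi fun a : ℝ => Real.toNNReal (a ^ (3 - 1)) • H (a • (w : E3)),
      setIntegral_congr_fun measurableSet_Ioi fun x hx => ?_]
    · show Real.toNNReal (x ^ (3 - 1)) • H (x • (w : E3)) = x ^ 2 * H (x • (w : E3))
      rw [NNReal.smul_def, Real.coe_toNNReal _ (pow_nonneg (le_of_lt hx) _)]
      rfl
    · exact (measurable_subtype_coe.pow_const _).real_toNNReal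
  simp only [e4, integral_zero]

/-- Derivative of the norm away from the origin. -/
theorem norm_fderiv {x : E3} (hx : x ≠ 0) : HasFDerivAt (fun x : E3 => ‖x‖) (‖x‖⁻¹ • innerSL ℝ x) x := by
  have hn : 0 < ‖x‖ := norm_pos_iff.mpr hx
  have h1 : HasFDerivAt (fun y : E3 => ‖y‖ ^ 2) (2 • innerSL ℝ x) x := (hasStrictFDerivAt_norm_sq x).hasFDerivAt
  have h2 := h1.sqrt (by positivity)
  have e : (fun y : E3 => √(‖y‖ ^ 2)) = fun y => ‖y‖ := by
    funext y; exact Real.sqrt_sq (norm_nonneg y)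
  rw [e] at h2
  refine h2.congr_fderiv ?_
  rw [Real.sqrt_sq hn.le]
  ext v
  simp
  field_simp

variable {f f1 : ℝ → ℝ} {C : NNReal}

/-- The gradient field. -/
noncomputable def VV (f1 : ℝ → ℝ) (x : E3) : E3 := (f1 ‖x‖ / ‖x‖) • x

theorem radial_fderiv (hf : ∀ r, 0 < r → HasDerivAt f (f1 r) r) {x : E3} (hx : x ≠ 0) :
    HasFDerivAt (fun x : E3 => f ‖x‖) ((f1 ‖x‖) • (‖x‖⁻¹ • innerSL ℝ x)) x :=
  (hf ‖x‖ (norm_pos_iff.mpr hx)).comp_hasFDerivAt x (norm_fderiv hx)

theorem ae_ne_zero : ∀ᵐ x : E3, x ≠ 0 := by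
  rw [ae_iff]
  simp

/-- Weak gradient of a Lipschitz radial function. -/
theorem weak_grad (hl : LipschitzWith C f) (hf : ∀ r, 0 < r → HasDerivAt f (f1 r) r)
    {η : E3 → ℝ} (hη : ContDiff ℝ ∞ η) (hc : HasCompactSupport η) (v : E3) :
    ∫ x, f ‖x‖ * fderiv ℝ η x v = -∫ x, η x * ⟪VV f1 x, v⟫ := by
  have hl2 : LipschitzWith (C * 1) (fun x : E3 => f ‖x‖) := hl.comp lipschitzWith_one_norm
  obtain ⟨D, hD⟩ := (hη.of_le (by norm_num : (1 : WithTop ℕ∞) ≤ ∞)).lipschitzWith_of_hasCompactSupport hc (by norm_num)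
  have h := hl2.integral_lineDeriv_mul_eq (μ := (volume : Measure E3)) hD hc v
  have e1 : ∫ x, lineDeriv ℝ (fun x : E3 => f ‖x‖) x v * η x = ∫ x, η x * ⟪VV f1 x, v⟫ := by
    refine integral_congr_ae ?_
    filter_upwards [ae_ne_zero] with x hx
    have := (radial_fderiv hf hx)
    rw [this.differentiableAt.lineDeriv_eq_fderiv, this.fderiv, VV, inner_smul_left]
    simp only [FunLike.coe_smul, Pi.smul_apply, smul_eq_mul, innerSL_apply_apply]
    simp only [conj_trivial]
    ring
  have e2 : ∫ x, lineDeriv ℝ η x (-v) * f ‖x‖ = -∫ x, f ‖x‖ * fderiv ℝ η x v := by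
    rw [← integral_neg]
    refine integral_congr_ae (Filter.Eventually.of_forall fun x => ?_)
    have hd : DifferentiableAt ℝ η x := (hη.differentiable (by simp)).differentiableAt
    simp only [hd.lineDeriv_eq_fderiv, map_neg]
    ring
  rw [e1, e2] at h
  linarith

theorem inv_norm_int (R : ℝ) : IntegrableOn (fun x : E3 => ‖x‖⁻¹) (Metric.ball 0 R) := by
  have := (integrableOn_fun_norm_addHaar (E := E3) (volume : Measure E3) (f := fun r : ℝ => r⁻¹) (r := R)).mpr ?_
  · exact this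
  · rw [finrank_E3]
    have : IntegrableOn (fun y : ℝ => y) (Ioo 0 R) :=
      (continuous_id.integrableOn_Icc (a := 0) (b := R)).mono_set Ioo_subset_Icc_self
    refine this.congr_fun (fun y hy => ?_) measurableSet_Ioo
    have : y ≠ 0 := ne_of_gt hy.1
    simp only [smul_eq_mul]
    field_simp

theorem f1_cont {q : ℝ → ℝ} (h : ∀ r, 0 < r → HasDerivAt (fun r => r ^ 2 * f1 r) (q r) r) {r : ℝ} (hr : 0 < r) :
    ContinuousAt f1 r := by
  have h1 : ContinuousAt (fun r => r ^ 2 * f1 r / r ^ 2) r :=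
    (h r hr).continuousAt.div (by fun_prop) (by positivity)
  refine h1.congr ?_
  filter_upwards [lt_mem_nhds hr] with s hs
  have : s ≠ 0 := ne_of_gt hs
  field_simp

theorem VV_cont {q : ℝ → ℝ} (h : ∀ r, 0 < r → HasDerivAt (fun r => r ^ 2 * f1 r) (q r) r) {x : E3} (hx : x ≠ 0) :
    ContinuousAt (VV f1) x := by
  have hn : 0 < ‖x‖ := norm_pos_iff.mpr hx
  have h1 : ContinuousAt (fun x : E3 => f1 ‖x‖) x :=
    ContinuousAt.comp (f := fun x : E3 => ‖x‖) (g := f1) (f1_cont h hn) continuous_norm.continuousAt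
  exact (h1.div continuous_norm.continuousAt hn.ne').smul continuousAt_id

theorem aesm_of_cont {Y : Type} [TopologicalSpace Y] [TopologicalSpace.PseudoMetrizableSpace Y]
    [MeasurableSpace Y] [BorelSpace Y] [SecondCountableTopology Y] {G : E3 → Y}
    (h : ∀ x, x ≠ 0 → ContinuousAt G x) : AEStronglyMeasurable G volume := by
  have h1 : ContinuousOn G ({(0 : E3)}ᶜ) := fun x hx => (h x hx).continuousWithinAt
  have h2 : AEStronglyMeasurable G ((volume : Measure E3).restrict ({(0 : E3)}ᶜ)) :=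
    h1.aestronglyMeasurable (measurableSet_singleton _).compl
  rwa [restrict_compl_singleton] at h2

theorem VV_norm (h : ∀ r, 0 < r → |f1 r| ≤ C) (x : E3) : ‖VV f1 x‖ ≤ C := by
  by_cases hx : x = 0
  · rw [hx, VV, smul_zero, norm_zero]; exact C.2
  · have hn : 0 < ‖x‖ := norm_pos_iff.mpr hx
    rw [VV, norm_smul, Real.norm_eq_abs, abs_div, abs_of_pos hn, div_mul_cancel₀ _ hn.ne']
    exact h _ hn

/-- The weak equation. -/
theorem weak_eq {φ : ℝ → ℝ} {K : ℝ} (hb : ∀ r, 0 < r → |f1 r| ≤ C)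
    (h : ∀ r, 0 < r → HasDerivAt (fun r => r ^ 2 * f1 r) (r ^ 2 * φ r) r)
    (hφc : ∀ r, 0 < r → ContinuousAt φ r) (hφ : ∀ r, 0 < r → |φ r| ≤ K * (1 + 1 / r))
    {η : E3 → ℝ} (hη : ContDiff ℝ ∞ η) (hc : HasCompactSupport η) :
    Integrable (fun x => fderiv ℝ η x (VV f1 x)) ∧ Integrable (fun x => η x * φ ‖x‖) ∧
    (∫ x, fderiv ℝ η x (VV f1 x)) + ∫ x, η x * φ ‖x‖ = 0 := by
  have hdc : Continuous (fderiv ℝ η) := hη.continuous_fderiv (by simp)
  have hdcs : HasCompactSupport (fderiv ℝ η) := hc.fderiv ℝ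
  obtain ⟨R, hR⟩ := (hc.isCompact.isBounded).subset_ball (0 : E3)
  have hη0 : ∀ x, x ∉ Metric.ball (0 : E3) R → η x = 0 := fun x hx =>
    image_eq_zero_of_notMem_tsupport fun hx2 => hx (hR hx2)
  have hdη0 : ∀ x, x ∉ Metric.ball (0 : E3) R → fderiv ℝ η x = 0 := fun x hx => by
    refine image_eq_zero_of_notMem_tsupport fun hx2 => hx (hR ?_)
    exact tsupport_fderiv_subset ℝ hx2
  obtain ⟨B1, hB1⟩ := hη.continuous.bounded_above_of_compact_support hc
  obtain ⟨B2, hB2⟩ := hdc.bounded_above_of_compact_support hdcs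
  have hB10 : 0 ≤ B1 := (norm_nonneg _).trans (hB1 0)
  have hB20 : 0 ≤ B2 := (norm_nonneg _).trans (hB2 0)
  have hi1 : Integrable (fun x => fderiv ℝ η x (VV f1 x)) := by
    have hn : Integrable (fun x => (C : ℝ) * ‖fderiv ℝ η x‖) :=
      ((hdc.norm).integrable_of_hasCompactSupport hdcs.norm).const_mul _
    refine hn.mono' ?_ (Filter.Eventually.of_forall fun x => ?_)
    · refine aesm_of_cont fun x hx => ?_
      exact hdc.continuousAt.clm_apply (VV_cont h hx)
    · refine ((fderiv ℝ η x).le_opNorm _).trans ?_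
      rw [mul_comm]
      exact mul_le_mul_of_nonneg_right (VV_norm hb x) (norm_nonneg _)
  have hφn : ∀ x : E3, x ≠ 0 → ContinuousAt (fun x : E3 => φ ‖x‖) x := fun x hx =>
    ContinuousAt.comp (f := fun x : E3 => ‖x‖) (g := φ) (hφc _ (norm_pos_iff.mpr hx)) continuous_norm.continuousAt
  have hi2 : Integrable (fun x => η x * φ ‖x‖) := by
    have hK : ∀ x : E3, x ≠ 0 → |φ ‖x‖| ≤ K * (1 + ‖x‖⁻¹) := fun x hx => by
      have := hφ ‖x‖ (norm_pos_iff.mpr hx)
      rwa [one_div] at this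
    have hK0 : 0 ≤ K := by
      have := (abs_nonneg _).trans (hφ 1 one_pos)
      linarith
    have hdom : Integrable ((Metric.ball (0 : E3) R).indicator (fun x => B1 * (K * (1 + ‖x‖⁻¹)))) := by
      rw [integrable_indicator_iff measurableSet_ball]
      refine Integrable.const_mul (Integrable.const_mul (Integrable.add ?_ (inv_norm_int R)) K) B1
      exact integrableOn_const (by exact measure_ball_lt_top.ne)
    refine hdom.mono' ?_ ?_
    · exact aesm_of_cont fun x hx => hη.continuous.continuousAt.mul (hφn x hx)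
    · filter_upwards [ae_ne_zero] with x hx
      by_cases hxR : x ∈ Metric.ball (0 : E3) R
      · rw [indicator_of_mem hxR, norm_mul]
        exact mul_le_mul (hB1 x) (hK x hx) (norm_nonneg _) hB10
      · rw [indicator_of_notMem hxR, hη0 x hxR, zero_mul, norm_zero]
  refine ⟨hi1, hi2, ?_⟩
  rw [← integral_add hi1 hi2]
  refine polar_zero (H := fun x => fderiv ℝ η x (VV f1 x) + η x * φ ‖x‖) (hi1.add hi2) fun w hw => ?_
  have hR' : ∀ r : ℝ, 0 < r → R ≤ r → r • w ∉ Metric.ball (0 : E3) R := fun r hr hRr hmem => by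
    rw [mem_ball_zero_iff, norm_smul, hw, mul_one, Real.norm_eq_abs, abs_of_pos hr] at hmem
    linarith
  -- the integrand
  have hnw : ∀ r : ℝ, 0 < r → ‖r • w‖ = r := fun r hr => by
    rw [norm_smul, hw, mul_one, Real.norm_eq_abs, abs_of_pos hr]
  have hint : ∀ r ∈ Ioi (0 : ℝ), r ^ 2 * (fderiv ℝ η (r • w) (VV f1 (r • w)) + η (r • w) * φ ‖r • w‖) =
      (r ^ 2 * φ r) * η (r • w) + (r ^ 2 * f1 r) * fderiv ℝ η (r • w) w := by
    intro r hr
    have hr0 : (0 : ℝ) < r := hr
    have e1 : VV f1 (r • w) = f1 r • w := by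
      rw [VV, hnw r hr0, smul_smul, div_mul_cancel₀ _ hr0.ne']
    rw [e1, hnw r hr0, map_smul, smul_eq_mul]
    ring
  rw [setIntegral_congr_fun measurableSet_Ioi hint]
  have hder : ∀ r ∈ Ioi (0 : ℝ), HasDerivAt (fun r : ℝ => (r ^ 2 * f1 r) * η (r • w))
      ((r ^ 2 * φ r) * η (r • w) + (r ^ 2 * f1 r) * fderiv ℝ η (r • w) w) r := by
    intro r hr
    have e2 : HasDerivAt (fun r : ℝ => r • w) w r := by
      have := (hasDerivAt_id r).smul_const w
      simpa using this
    have e3 : HasDerivAt (fun r : ℝ => η (r • w)) (fderiv ℝ η (r • w) w) r :=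
      ((hη.differentiable (by simp)).differentiableAt.hasFDerivAt).comp_hasDerivAt r e2
    exact (h r hr).mul e3
  have hcw : ContinuousWithinAt (fun r : ℝ => (r ^ 2 * f1 r) * η (r • w)) (Ici 0) 0 := by
    have t1 : Tendsto (fun r : ℝ => r ^ 2 * C * B1) (𝓝[Ici 0] 0) (𝓝 0) := by
      have : Tendsto (fun r : ℝ => r ^ 2 * C * B1) (𝓝 0) (𝓝 (0 ^ 2 * C * B1)) :=
        Continuous.tendsto (by fun_prop) 0
      rw [show ((0 : ℝ) ^ 2 * C * B1) = 0 by ring] at this
      exact this.mono_left nhdsWithin_le_nhds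
    show Tendsto _ _ (𝓝 (((0 : ℝ) ^ 2 * f1 0) * η ((0 : ℝ) • w)))
    rw [show (((0 : ℝ) ^ 2 * f1 0) * η ((0 : ℝ) • w)) = 0 by ring]
    refine squeeze_zero_norm' ?_ t1
    filter_upwards [self_mem_nhdsWithin] with r hr
    rcases eq_or_lt_of_le (show (0 : ℝ) ≤ r from hr) with h0 | h0
    · rw [← h0]; simp
    · rw [norm_mul, norm_mul, Real.norm_eq_abs, abs_of_nonneg (sq_nonneg r)]
      have := hb r h0
      refine mul_le_mul (mul_le_mul_of_nonneg_left this (sq_nonneg r)) (hB1 _) (norm_nonneg _) ?_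
      positivity
  have hlim : Tendsto (fun r : ℝ => (r ^ 2 * f1 r) * η (r • w)) atTop (𝓝 0) := by
    refine tendsto_const_nhds.congr' ?_
    filter_upwards [eventually_ge_atTop R, eventually_gt_atTop 0] with r hr hr0
    rw [hη0 _ (hR' r hr0 hr), mul_zero]
  have hK0 : 0 ≤ K := by
    have := (abs_nonneg _).trans (hφ 1 one_pos)
    linarith
  have hfi : IntegrableOn (fun r : ℝ => (r ^ 2 * φ r) * η (r • w) + (r ^ 2 * f1 r) * fderiv ℝ η (r • w) w) (Ioi 0) := by
    have hdom : IntegrableOn ((Icc (0 : ℝ) R).indicator (fun r => (K * (r ^ 2 + r)) * B1 + (r ^ 2 * C) * (B2 * ‖w‖))) (Ioi 0) := by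
      refine Integrable.integrableOn ?_
      rw [integrable_indicator_iff measurableSet_Icc]
      exact Continuous.integrableOn_Icc (by fun_prop)
    refine Integrable.mono' hdom ?_ ?_
    · refine ContinuousOn.aestronglyMeasurable (fun r hr => ContinuousAt.continuousWithinAt ?_) measurableSet_Ioi
      have hr0 : (0 : ℝ) < r := hr
      have e2 : Continuous (fun r : ℝ => r • w) := by fun_prop
      have c1 : ContinuousAt (fun r : ℝ => η (r • w)) r := (hη.continuous.comp e2).continuousAt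
      have c2 : ContinuousAt (fun r : ℝ => fderiv ℝ η (r • w) w) r :=
        ((hdc.comp e2).clm_apply continuous_const).continuousAt
      exact (((continuousAt_id.pow 2).mul (hφc r hr0)).mul c1).add (((continuousAt_id.pow 2).mul (f1_cont h hr0)).mul c2)
    · refine (ae_restrict_iff' measurableSet_Ioi).mpr (Filter.Eventually.of_forall fun r hr => ?_)
      have hr0 : (0 : ℝ) < r := hr
      rcases lt_or_ge r R with hrR | hrR
      · rw [indicator_of_mem (show r ∈ Icc 0 R from ⟨hr0.le, hrR.le⟩)]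
        refine (norm_add_le _ _).trans ?_
        refine add_le_add ?_ ?_
        · rw [norm_mul]
          refine mul_le_mul ?_ (hB1 _) (norm_nonneg _) (by positivity)
          rw [norm_mul, Real.norm_eq_abs, Real.norm_eq_abs, abs_of_nonneg (sq_nonneg r)]
          calc r ^ 2 * |φ r| ≤ r ^ 2 * (K * (1 + 1 / r)) := mul_le_mul_of_nonneg_left (hφ r hr0) (sq_nonneg r)
            _ = K * (r ^ 2 + r) := by field_simp
        · rw [norm_mul]
          refine mul_le_mul ?_ ?_ (norm_nonneg _) (by positivity)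
          · rw [norm_mul, Real.norm_eq_abs, Real.norm_eq_abs, abs_of_nonneg (sq_nonneg r)]
            exact mul_le_mul_of_nonneg_left (hb r hr0) (sq_nonneg r)
          · exact ((fderiv ℝ η (r • w)).le_opNorm w).trans (mul_le_mul_of_nonneg_right (hB2 _) (norm_nonneg _))
      · have e1 := hη0 _ (hR' r hr0 hrR)
        have e2 := hdη0 _ (hR' r hr0 hrR)
        rw [e1, e2]
        simp only [mul_zero, zero_apply, add_zero, norm_zero]
        refine indicator_nonneg (fun s hs => ?_) r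
        have : 0 ≤ s := hs.1
        positivity
  rw [integral_Ioi_of_hasDerivAt_of_tendsto hcw hder hfi hlim]
  ring

end Pool.Agent.R207.AG
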