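import Mathlib

set_option autoImplicit false

open Filter Topology

namespace Pool.Agent.R207.AH

variable {H : Type*} [NormedAddCommGroup H] [InnerProductSpace ℝ H]



theorem galerkin_fd {V : Type*} [AddCommGroup V] [Module ℝ V] [FiniteDimensional ℝ V]
    (J A : V →ₗ[ℝ] H) (hc : ∀ v, ‖J v‖ ^ 2 ≤ inner ℝ (J v) (A v)) (l : H) :
    ∃ v : V, ∀ w : V, inner ℝ (J v) (A w) = inner ℝ l (J w) := by
  let T : V →ₗ[ℝ] V →ₗ[ℝ] ℝ := (innerₗ H).compl₁₂ J A
  have hT : ∀ v w, T v w = inner ℝ (J v) (A w) := fun v w => rfl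
  let φ : Module.Dual ℝ V := (innerₗ H l).comp J
  have hφ : ∀ w, φ w = inner ℝ l (J w) := fun w => rfl
  let R : Subspace ℝ (Module.Dual ℝ V) := LinearMap.range T
  have h1 : φ ∈ R := by
    rw [← Subspace.dualCoannihilator_dualAnnihilator_eq (W := R)]
    rw [Submodule.mem_dualAnnihilator]
    intro w hw
    rw [Submodule.mem_dualCoannihilator] at hw
    have h2 : T w w = 0 := hw _ ⟨w, rfl⟩
    rw [hT] at h2
    have h3 := hc w
    rw [h2] at h3
    have h4 : J w = 0 := by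
      have : ‖J w‖ = 0 := by
        have := norm_nonneg (J w)
        nlinarith
      exact norm_eq_zero.1 this
    rw [hφ, h4, inner_zero_right]
  obtain ⟨v, hv⟩ := h1
  refine ⟨v, fun w => ?_⟩
  rw [← hT, ← hφ, hv]

theorem weak_lim [CompleteSpace H] {ι : Type*} (U : Ultrafilter ι) (x : ι → H) (C : ℝ)
    (hx : ∀ i, ‖x i‖ ≤ C) :
    ∃ u : H, ∀ h : H, Tendsto (fun i => inner ℝ (x i) h) U (𝓝 (inner ℝ u h)) := by
  have hK := WeakDual.isCompact_closedBall (𝕜 := ℝ) (0 : StrongDual ℝ H) C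
  let y : ι → WeakDual ℝ H := fun i =>
    StrongDual.toWeakDual (InnerProductSpace.toDual ℝ H (x i))
  have hy : ∀ i, y i ∈ (WeakDual.toStrongDual ⁻¹' Metric.closedBall (0 : StrongDual ℝ H) C) := by
    intro i
    simp only [Set.mem_preimage, mem_closedBall_zero_iff]
    have : WeakDual.toStrongDual (y i) = InnerProductSpace.toDual ℝ H (x i) := rfl
    rw [this, LinearIsometryEquiv.norm_map]
    exact hx i
  obtain ⟨z, -, hz2⟩ := hK.ultrafilter_le_nhds' (U.map y)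
    (Filter.mem_map.2 (Filter.univ_mem' hy))
  refine ⟨(InnerProductSpace.toDual ℝ H).symm (WeakDual.toStrongDual z), fun h => ?_⟩
  rw [InnerProductSpace.toDual_symm_apply]
  have h1 : Tendsto y U (𝓝 z) := hz2
  have h2 := (WeakDual.eval_continuous (𝕜 := ℝ) (E := H) h).continuousAt (x := z)
  exact (h2.tendsto.comp h1)

/-- Abstract Galerkin method. -/
theorem galerkin [CompleteSpace H] {W : Type*} [AddCommGroup W] [Module ℝ W] {ι : Type*}
    (f : Filter ι) [NeBot f] (F : ι → Submodule ℝ W) (hfin : ∀ i, FiniteDimensional ℝ (F i))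
    (J A : W →ₗ[ℝ] H) (hc : ∀ w, ‖J w‖ ^ 2 ≤ inner ℝ (J w) (A w)) (l : H) :
    ∃ (v : ι → W) (u : H) (U : Ultrafilter ι), (U : Filter ι) ≤ f ∧
      (∀ i, v i ∈ F i) ∧ (∀ i, ∀ w ∈ F i, inner ℝ (J (v i)) (A w) = inner ℝ l (J w)) ∧
      (∀ h : H, Tendsto (fun i => inner ℝ (J (v i)) h) U (𝓝 (inner ℝ u h))) := by
  have h1 : ∀ i, ∃ v : W, v ∈ F i ∧ ∀ w ∈ F i, inner ℝ (J v) (A w) = inner ℝ l (J w) := by
    intro i
    have := hfin i
    obtain ⟨v, hv⟩ := galerkin_fd (V := F i) (J.comp (F i).subtype) (A.comp (F i).subtype)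
      (fun v => hc v) l
    exact ⟨v, v.2, fun w hw => hv ⟨w, hw⟩⟩
  choose v hv1 hv2 using h1
  have hb : ∀ i, ‖J (v i)‖ ≤ ‖l‖ := by
    intro i
    have h2 := hc (v i)
    rw [hv2 i _ (hv1 i)] at h2
    have h3 := real_inner_le_norm l (J (v i))
    by_cases h0 : ‖J (v i)‖ = 0
    · rw [h0]; exact norm_nonneg _
    · have h4 : 0 < ‖J (v i)‖ := lt_of_le_of_ne (norm_nonneg _) (Ne.symm h0)
      nlinarith
  obtain ⟨u, hu⟩ := weak_lim (Ultrafilter.of f) (fun i => J (v i)) ‖l‖ hb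
  exact ⟨v, u, Ultrafilter.of f, Ultrafilter.of_le f, hv1, hv2, hu⟩

/-- weak lower semicontinuity in the form used below -/
theorem weak_energy {ι : Type*} (U : Ultrafilter ι) (x : ι → H) (u b g : H) (P : H →L[ℝ] H)
    (hP : ∀ y, inner ℝ (P y) (P u) = inner ℝ y (P u)) (hPg : ∀ y, inner ℝ (P y) g = inner ℝ y (P g))
    (c : ℝ) (hx : ∀ h : H, Tendsto (fun i => inner ℝ (x i) h) U (𝓝 (inner ℝ u h)))
    (h : ∀ᶠ i in (U : Filter ι), ‖P (x i)‖ ^ 2 + inner ℝ (x i) b - c ≤ inner ℝ (P (x i)) g) :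
    ‖P u‖ ^ 2 + inner ℝ u b - c ≤ inner ℝ (P u) g := by
  have h1 : ∀ᶠ i in (U : Filter ι),
      2 * inner ℝ (x i) (P u) - ‖P u‖ ^ 2 + inner ℝ (x i) b - c ≤ inner ℝ (x i) (P g) := by
    filter_upwards [h] with i hi
    have h2 : 0 ≤ ‖P (x i) - P u‖ ^ 2 := sq_nonneg _
    rw [norm_sub_sq_real, hP] at h2
    rw [hPg] at hi
    linarith
  have h3 : Tendsto (fun i => 2 * inner ℝ (x i) (P u) - ‖P u‖ ^ 2 + inner ℝ (x i) b - c) U
      (𝓝 (2 * inner ℝ u (P u) - ‖P u‖ ^ 2 + inner ℝ u b - c)) :=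
    ((((hx _).const_mul 2).sub_const _).add (hx b)).sub_const c
  have h4 := le_of_tendsto_of_tendsto h3 (hx (P g)) h1
  rw [← hP u, real_inner_self_eq_norm_sq, ← hPg] at h4
  linarith

end Pool.Agent.R207.AH
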