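import Pool.Agent.R207.AH1

set_option autoImplicit false

open Filter Topology MeasureTheory

namespace Pool.Agent.R207.AH

/-- Lebesgue measure on `(0,1]`. -/
noncomputable def I : Measure ℝ := volume.restrict (Set.Ioc 0 1)

instance : IsProbabilityMeasure I := by
  constructor
  simp [I]

/-- Lebesgue measure on the unit square. -/
noncomputable def Q : Measure (ℝ × ℝ) := I.prod I

instance : IsProbabilityMeasure Q := by
  unfold Q; infer_instance

theorem ae_I {p : ℝ → Prop} (h : ∀ x ∈ Set.Ioc (0 : ℝ) 1, p x) : ∀ᵐ x ∂I, p x := by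
  unfold I
  rw [ae_restrict_iff' measurableSet_Ioc]
  exact Eventually.of_forall h

theorem ae_Q {p : ℝ × ℝ → Prop}
    (h : ∀ x : ℝ × ℝ, x.1 ∈ Set.Ioc (0 : ℝ) 1 → x.2 ∈ Set.Ioc (0 : ℝ) 1 → p x) :
    ∀ᵐ x ∂Q, p x := by
  unfold Q I
  rw [Measure.prod_restrict, ae_restrict_iff' (measurableSet_Ioc.prod measurableSet_Ioc)]
  exact Eventually.of_forall (fun x hx => h x hx.1 hx.2)

/-- test functions -/
def E : Submodule ℝ (ℝ → ℝ) where
  carrier := {ψ | ContDiff ℝ 2 ψ ∧ ψ 1 = ψ 0 ∧ deriv ψ 1 = deriv ψ 0}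
  add_mem' := by
    rintro a b ⟨ha, ha1, ha2⟩ ⟨hb, hb1, hb2⟩
    have h1 : ∀ x, deriv (a + b) x = deriv a x + deriv b x := fun x =>
      deriv_add ((ha.differentiable (by norm_num)) x) ((hb.differentiable (by norm_num)) x)
    refine ⟨ha.add hb, by simp [ha1, hb1], ?_⟩
    rw [h1, h1, ha2, hb2]
  zero_mem' := by
    refine ⟨contDiff_const, rfl, ?_⟩
    simp
  smul_mem' := by
    rintro c a ⟨ha, ha1, ha2⟩
    have h1 : ∀ x, deriv (c • a) x = c * deriv a x := fun x =>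
      (deriv_const_smul c ((ha.differentiable (by norm_num)) x))
    refine ⟨contDiff_const.smul ha, by simp [ha1], ?_⟩
    rw [h1, h1, ha2]

theorem E_cd (ψ : E) : ContDiff ℝ 2 (ψ : ℝ → ℝ) := ψ.2.1

theorem E_cont (ψ : E) : Continuous (ψ : ℝ → ℝ) := ψ.2.1.continuous

theorem E_cd1 (ψ : E) : ContDiff ℝ 1 (deriv (ψ : ℝ → ℝ)) := by
  have h := ψ.2.1
  have h2 : ContDiff ℝ (1 + 1) (ψ : ℝ → ℝ) := by
    have : (1 : WithTop ℕ∞) + 1 = 2 := by norm_num
    rw [this]; exact h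
  exact (contDiff_succ_iff_deriv.1 h2).2.2

theorem E_hd (ψ : E) (x : ℝ) : HasDerivAt (ψ : ℝ → ℝ) (deriv (ψ : ℝ → ℝ) x) x :=
  ((ψ.2.1.differentiable (by norm_num)) x).hasDerivAt

theorem E_cont1 (ψ : E) : Continuous (deriv (ψ : ℝ → ℝ)) := (E_cd1 ψ).continuous

theorem E_hd1 (ψ : E) (x : ℝ) :
    HasDerivAt (deriv (ψ : ℝ → ℝ)) (deriv (deriv (ψ : ℝ → ℝ)) x) x :=
  (((E_cd1 ψ).differentiable (by norm_num)) x).hasDerivAt

theorem E_cont2 (ψ : E) : Continuous (deriv (deriv (ψ : ℝ → ℝ))) :=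
  (E_cd1 ψ).continuous_deriv (le_refl _)

theorem E_add1 (a b : E) (x : ℝ) :
    deriv ((a + b : E) : ℝ → ℝ) x = deriv (a : ℝ → ℝ) x + deriv (b : ℝ → ℝ) x :=
  ((E_hd a x).add (E_hd b x)).deriv

theorem E_add2 (a b : E) (x : ℝ) :
    deriv (deriv ((a + b : E) : ℝ → ℝ)) x
      = deriv (deriv (a : ℝ → ℝ)) x + deriv (deriv (b : ℝ → ℝ)) x := by
  have : deriv ((a + b : E) : ℝ → ℝ) = fun x => deriv (a : ℝ → ℝ) x + deriv (b : ℝ → ℝ) x := by
    funext x; exact E_add1 a b x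
  rw [this]
  exact ((E_hd1 a x).add (E_hd1 b x)).deriv

theorem E_smul1 (c : ℝ) (a : E) (x : ℝ) :
    deriv ((c • a : E) : ℝ → ℝ) x = c * deriv (a : ℝ → ℝ) x :=
  ((E_hd a x).const_mul c).deriv

theorem E_smul2 (c : ℝ) (a : E) (x : ℝ) :
    deriv (deriv ((c • a : E) : ℝ → ℝ)) x = c * deriv (deriv (a : ℝ → ℝ)) x := by
  have : deriv ((c • a : E) : ℝ → ℝ) = fun x => c * deriv (a : ℝ → ℝ) x := by
    funext x; exact E_smul1 c a x
  rw [this]
  exact ((E_hd1 a x).const_mul c).deriv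

theorem bdd01 {g : ℝ → ℝ} (hg : Continuous g) : ∃ C : ℝ, 0 ≤ C ∧ ∀ x ∈ Set.Icc (0 : ℝ) 1, |g x| ≤ C := by
  obtain ⟨C, hC⟩ := isCompact_Icc.exists_bound_of_continuousOn (s := Set.Icc (0 : ℝ) 1)
    hg.continuousOn
  refine ⟨max C 0, le_max_right _ _, fun x hx => (hC x hx).trans (le_max_left _ _)⟩

/-- the data of the problem -/
structure Dat (μ f : ℝ × ℝ → ℝ) : Prop where
  mm : Measurable μ
  m1 : ∀ p, 1 ≤ μ p
  mi : Integrable μ Q
  fm : Measurable f
  fi : Integrable (fun p => f p ^ 2 / μ p) Q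

variable {μ f : ℝ × ℝ → ℝ}

theorem Dat.pos (h : Dat μ f) (p : ℝ × ℝ) : 0 < μ p := lt_of_lt_of_le one_pos (h.m1 p)

theorem Dat.spos (h : Dat μ f) (p : ℝ × ℝ) : 0 < √(μ p) := Real.sqrt_pos.2 (h.pos p)

theorem Dat.s1 (h : Dat μ f) (p : ℝ × ℝ) : 1 ≤ √(μ p) := by
  rw [Real.one_le_sqrt]; exact h.m1 p

theorem Dat.sqs (h : Dat μ f) (p : ℝ × ℝ) : √(μ p) * √(μ p) = μ p :=
  Real.mul_self_sqrt (h.pos p).le

theorem Dat.sm (h : Dat μ f) : Measurable (fun p => √(μ p)) := h.mm.sqrt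

theorem Dat.sL (h : Dat μ f) : MemLp (fun p => √(μ p)) 2 Q := by
  rw [memLp_two_iff_integrable_sq h.sm.aestronglyMeasurable]
  refine h.mi.congr (Eventually.of_forall fun p => ?_)
  simp only [sq, h.sqs]

theorem Dat.fL (h : Dat μ f) : MemLp (fun p => f p / √(μ p)) 2 Q := by
  have hm : AEStronglyMeasurable (fun p => f p / √(μ p)) Q := (h.fm.div h.sm).aestronglyMeasurable
  rw [memLp_two_iff_integrable_sq hm]
  refine h.fi.congr (Eventually.of_forall fun p => ?_)
  simp only [div_pow, sq (√(μ p)), h.sqs]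

/-- cut-off in time -/
noncomputable def ind (t s : ℝ) : ℝ := if s ≤ t then 1 else 0

theorem ind_meas (t : ℝ) : Measurable (ind t) := by
  unfold ind
  exact Measurable.ite measurableSet_Iic measurable_const measurable_const

theorem ind_abs (t s : ℝ) : |ind t s| ≤ 1 := by
  unfold ind; split_ifs <;> simp

theorem ind_mul (t r s : ℝ) : ind t s * ind r s = ind (min t r) s := by
  unfold ind
  by_cases h1 : s ≤ t <;> by_cases h2 : s ≤ r <;> simp [h1, h2]

/-- function representing `J` -/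
noncomputable def jf (μ : ℝ × ℝ → ℝ) (t : ℝ) (ψ : ℝ → ℝ) (p : ℝ × ℝ) : ℝ :=
  ind t p.1 * ψ p.2 / √(μ p)

/-- function representing `A` -/
noncomputable def af (μ : ℝ × ℝ → ℝ) (t : ℝ) (ψ : ℝ → ℝ) (p : ℝ × ℝ) : ℝ :=
  ind t p.1 * ψ p.2 / √(μ p) - √(μ p) * (max (t - p.1) 0 * deriv (deriv ψ) p.2)

theorem jf_L (h : Dat μ f) (t : ℝ) (ψ : E) : MemLp (jf μ t ψ) 2 Q := by
  obtain ⟨C, hC0, hC⟩ := bdd01 (E_cont ψ)
  refine MemLp.of_bound ?_ C ?_
  · exact ((((ind_meas t).comp measurable_fst).mul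
      ((E_cont ψ).measurable.comp measurable_snd)).div h.sm).aestronglyMeasurable
  · refine ae_Q (fun p h1 h2 => ?_)
    have h3 := hC p.2 ⟨h2.1.le, h2.2⟩
    unfold jf
    rw [Real.norm_eq_abs, abs_div, abs_mul, abs_of_pos (h.spos p), div_le_iff₀ (h.spos p)]
    have h4 := ind_abs t p.1
    have h5 := h.s1 p
    have h6 := abs_nonneg ((ψ : ℝ → ℝ) p.2)
    have h7 := abs_nonneg (ind t p.1)
    nlinarith [mul_le_mul h4 h3 h6 zero_le_one]

theorem sqmul_L (h : Dat μ f) {g : ℝ × ℝ → ℝ} (hg : Measurable g) (C : ℝ)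
    (hC : ∀ᵐ p ∂Q, |g p| ≤ C) : MemLp (fun p => √(μ p) * g p) 2 Q := by
  refine MemLp.of_le_mul (c := C) h.sL (h.sm.mul hg).aestronglyMeasurable ?_
  filter_upwards [hC] with p hp
  rw [norm_mul, mul_comm]
  exact mul_le_mul_of_nonneg_right hp (norm_nonneg _)

theorem af_L (h : Dat μ f) {t : ℝ} (ht : t ∈ Set.Icc (0 : ℝ) 1) (ψ : E) :
    MemLp (af μ t ψ) 2 Q := by
  obtain ⟨C, hC0, hC⟩ := bdd01 (E_cont2 ψ)
  refine (jf_L h t ψ).sub ?_
  refine sqmul_L h ?_ C ?_
  · exact ((measurable_const.sub measurable_fst).max measurable_const).mul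
      ((E_cont2 ψ).measurable.comp measurable_snd)
  · refine ae_Q (fun p h1 h2 => ?_)
    have h3 := hC p.2 ⟨h2.1.le, h2.2⟩
    rw [abs_mul]
    have h4 : |max (t - p.1) 0| ≤ 1 := by
      rw [abs_of_nonneg (le_max_right _ _)]
      refine max_le ?_ zero_le_one
      linarith [h1.1, ht.2]
    have := mul_le_mul h4 h3 (abs_nonneg _) zero_le_one
    linarith

theorem inner_mk {F G : ℝ × ℝ → ℝ} (hF : MemLp F 2 Q) (hG : MemLp G 2 Q) :
    inner ℝ (hF.toLp F) (hG.toLp G) = ∫ p, F p * G p ∂Q := by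
  rw [MeasureTheory.L2.inner_def]
  refine integral_congr_ae ?_
  filter_upwards [hF.coeFn_toLp, hG.coeFn_toLp] with p h1 h2
  rw [h1, h2]
  simp [mul_comm]

/-- times -/
abbrev Tm := Set.Icc (0 : ℝ) 1

/-- `J_t` -/
noncomputable def Jt (h : Dat μ f) (t : Tm) : E →ₗ[ℝ] Lp ℝ 2 Q where
  toFun ψ := (jf_L h t ψ).toLp _
  map_add' a b := by
    rw [← MemLp.toLp_add]
    refine MemLp.toLp_congr _ _ (Eventually.of_forall fun p => ?_)
    simp only [jf, Pi.add_apply, Submodule.coe_add]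
    ring
  map_smul' c a := by
    rw [RingHom.id_apply, ← MemLp.toLp_const_smul]
    refine MemLp.toLp_congr _ _ (Eventually.of_forall fun p => ?_)
    simp only [jf, Pi.smul_apply, Submodule.coe_smul, smul_eq_mul]
    ring

/-- `A_t` -/
noncomputable def At (h : Dat μ f) (t : Tm) : E →ₗ[ℝ] Lp ℝ 2 Q where
  toFun ψ := (af_L h t.2 ψ).toLp _
  map_add' a b := by
    rw [← MemLp.toLp_add]
    refine MemLp.toLp_congr _ _ (Eventually.of_forall fun p => ?_)
    simp only [af, Pi.add_apply, E_add2]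
    rw [Submodule.coe_add, Pi.add_apply]
    ring
  map_smul' c a := by
    rw [RingHom.id_apply, ← MemLp.toLp_const_smul]
    refine MemLp.toLp_congr _ _ (Eventually.of_forall fun p => ?_)
    simp only [af, Pi.smul_apply, E_smul2, smul_eq_mul]
    rw [Submodule.coe_smul, Pi.smul_apply, smul_eq_mul]
    ring

/-- the kernel -/
noncomputable def kk (t r : ℝ) : ℝ := if t ≤ r then t * r - t ^ 2 / 2 else r ^ 2 / 2

theorem int_I (g : ℝ → ℝ) : ∫ x, g x ∂I = ∫ x in (0 : ℝ)..1, g x := by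
  rw [intervalIntegral.integral_of_le zero_le_one]; rfl

theorem int_kk {t r : ℝ} (ht : t ∈ Set.Icc (0 : ℝ) 1) (hr : r ∈ Set.Icc (0 : ℝ) 1) :
    ∫ s, ind t s * max (r - s) 0 ∂I = kk t r := by
  rw [int_I]
  have hm : min t r ∈ Set.Icc (0 : ℝ) 1 := ⟨le_min ht.1 hr.1, (min_le_left _ _).trans ht.2⟩
  have hle : ∀ a b : ℝ, IntervalIntegrable (fun s => ind t s * max (r - s) 0) volume a b := by
    intro a b
    have h1 : IntervalIntegrable (fun s => max (r - s) 0) volume a b :=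
      (Continuous.intervalIntegrable (by fun_prop) _ _)
    refine h1.mono_fun ((ind_meas t).mul
      ((measurable_const.sub measurable_id).max measurable_const)).aestronglyMeasurable ?_
    refine Eventually.of_forall fun s => ?_
    simp only [norm_mul]
    have := ind_abs t s
    rw [Real.norm_eq_abs, Real.norm_eq_abs]
    nlinarith [abs_nonneg (max (r - s) 0)]
  rw [← intervalIntegral.integral_add_adjacent_intervals (hle 0 (min t r)) (hle (min t r) 1)]
  have h1 : ∫ s in (0 : ℝ)..(min t r), ind t s * max (r - s) 0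
      = ∫ s in (0 : ℝ)..(min t r), (r - s) := by
    refine intervalIntegral.integral_congr_ae ?_
    refine Eventually.of_forall fun s hs => ?_
    rw [Set.uIoc_of_le hm.1] at hs
    have h2 : s ≤ t := hs.2.trans (min_le_left _ _)
    have h3 : s ≤ r := hs.2.trans (min_le_right _ _)
    simp only [ind, if_pos h2, one_mul]
    rw [max_eq_left (by linarith)]
  have h2 : ∫ s in (min t r)..(1 : ℝ), ind t s * max (r - s) 0 = 0 := by
    have : ∫ s in (min t r)..(1 : ℝ), ind t s * max (r - s) 0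
        = ∫ s in (min t r)..(1 : ℝ), (0 : ℝ) := by
      refine intervalIntegral.integral_congr_ae ?_
      refine Eventually.of_forall fun s hs => ?_
      rw [Set.uIoc_of_le hm.2] at hs
      by_cases h3 : s ≤ t
      · have h4 : r < s := by
          by_contra h5
          push Not at h5
          exact absurd hs.1 (not_lt.2 (le_min h3 h5))
        rw [max_eq_right (by linarith), mul_zero]
      · simp [ind, if_neg h3]
    rw [this]; simp
  rw [h1, h2, add_zero]
  rw [intervalIntegral.integral_sub (by simp) (by simp)]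
  simp only [intervalIntegral.integral_const, integral_id, smul_eq_mul]
  unfold kk
  split_ifs with h3
  · rw [min_eq_left h3]; ring
  · rw [min_eq_right (not_le.1 h3).le]; ring

theorem kk_symm (t r τ : ℝ) : kk t (min r τ) + kk r (min t τ) = min t τ * min r τ := by
  unfold kk
  rcases le_total t r with h1 | h1 <;> rcases le_total r τ with h2 | h2 <;>
    rcases le_total t τ with h3 | h3 <;>
    simp only [min_eq_left, min_eq_right, h1, h2, h3] <;>
    split_ifs <;> grind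

end Pool.Agent.R207.AH
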