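import Pool.Agent.R207.AH2

set_option autoImplicit false

open Filter Topology MeasureTheory

namespace Pool.Agent.R207.AH

variable {μ f : ℝ × ℝ → ℝ}

theorem intble_I {g : ℝ → ℝ} (hg : Continuous g) : Integrable g I := by
  have := (hg.intervalIntegrable (μ := volume) 0 1)
  rw [intervalIntegrable_iff_integrableOn_Ioc_of_le zero_le_one] at this
  exact this

theorem by_parts (ψ : E) {φ : ℝ → ℝ} (hφ : ContDiff ℝ 1 φ) (h01 : φ 1 = φ 0) :
    ∫ x, (ψ : ℝ → ℝ) x * deriv φ x ∂I = - ∫ x, deriv (ψ : ℝ → ℝ) x * φ x ∂I := by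
  rw [int_I, int_I]
  have hd : ∀ x, HasDerivAt φ (deriv φ x) x := fun x =>
    ((hφ.differentiable (by norm_num)) x).hasDerivAt
  rw [intervalIntegral.integral_mul_deriv_eq_deriv_mul (fun x _ => E_hd ψ x) (fun x _ => hd x)
    ((E_cont1 ψ).intervalIntegrable _ _) ((hφ.continuous_deriv le_rfl).intervalIntegrable _ _)]
  rw [h01, ψ.2.2.1]
  ring

theorem int_ind {a : ℝ} (ha : a ∈ Set.Icc (0 : ℝ) 1) : ∫ s, ind a s ∂I = a := by
  have h1 : (fun s => ind a s) = Set.indicator (Set.Iic a) (fun _ => (1 : ℝ)) := by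
    funext s
    simp only [ind, Set.indicator, Set.mem_Iic]
  rw [h1, integral_indicator measurableSet_Iic]
  simp only [integral_const, smul_eq_mul, mul_one, MeasurableSet.univ, measureReal_restrict_apply,
    Set.univ_inter]
  unfold I
  rw [measureReal_restrict_apply measurableSet_Iic]
  have : Set.Iic a ∩ Set.Ioc (0 : ℝ) 1 = Set.Ioc 0 a := by
    ext s
    simp only [Set.mem_inter_iff, Set.mem_Iic, Set.mem_Ioc]
    constructor
    · rintro ⟨h1, h2, h3⟩; exact ⟨h2, h1⟩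
    · rintro ⟨h1, h2⟩; exact ⟨h2, h1, h2.trans ha.2⟩
  rw [this]
  simp [Measure.real, ha.1]

noncomputable def mq (μ : ℝ × ℝ → ℝ) (a : ℝ) (ψ φ : ℝ → ℝ) : ℝ :=
  ∫ p, ind a p.1 * (ψ p.2 * φ p.2) / μ p ∂Q

noncomputable def DD (ψ φ : ℝ → ℝ) : ℝ := ∫ x, deriv ψ x * deriv φ x ∂I

theorem ind_int (t : ℝ) : Integrable (fun s => ind t s) I := by
  refine (integrable_const (1 : ℝ)).mono' (ind_meas t).aestronglyMeasurable ?_
  exact Eventually.of_forall fun s => ind_abs t s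

theorem alg1 {q m : ℝ} (hq : q * q = m) (h0 : 0 < q) (a b c d : ℝ) :
    a * b / q * (c * d / q) = a * c * (b * d) / m := by
  rw [← hq]; field_simp

theorem alg2 {q m : ℝ} (hq : q * q = m) (h0 : 0 < q) (a b c d e g : ℝ) :
    a * b / q * (c * d / q - q * (e * g)) = a * c * (b * d) / m - (a * e) * (b * g) := by
  rw [← hq]; field_simp

theorem inner_JJ (h : Dat μ f) (t r : Tm) (ψ φ : E) :
    inner ℝ (Jt h t ψ) (Jt h r φ) = mq μ (min t r : ℝ) ψ φ := by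
  change inner ℝ ((jf_L h t ψ).toLp _) ((jf_L h r φ).toLp _) = _
  rw [inner_mk]
  unfold mq
  refine integral_congr_ae (Eventually.of_forall fun p => ?_)
  simp only [jf, ← ind_mul]
  exact alg1 (h.sqs p) (h.spos p) _ _ _ _

theorem mq_int (h : Dat μ f) (t r : Tm) (ψ φ : E) :
    Integrable (fun p => ind (min t r : ℝ) p.1 * ((ψ : ℝ → ℝ) p.2 * (φ : ℝ → ℝ) p.2) / μ p) Q := by
  have := (jf_L h t ψ).integrable_mul (jf_L h r φ)
  refine this.congr (Eventually.of_forall fun p => ?_)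
  simp only [jf, ← ind_mul, Pi.mul_apply]
  exact alg1 (h.sqs p) (h.spos p) _ _ _ _

theorem inner_JA (h : Dat μ f) (t r : Tm) (ψ φ : E) :
    inner ℝ (Jt h t ψ) (At h r φ) = mq μ (min t r : ℝ) ψ φ + kk t r * DD ψ φ := by
  change inner ℝ ((jf_L h t ψ).toLp _) ((af_L h r.2 φ).toLp _) = _
  rw [inner_mk]
  have h1 : ∀ p, jf μ t ψ p * af μ r φ p
      = ind (min t r : ℝ) p.1 * ((ψ : ℝ → ℝ) p.2 * (φ : ℝ → ℝ) p.2) / μ p
        - (ind t p.1 * max ((r : ℝ) - p.1) 0) * ((ψ : ℝ → ℝ) p.2 * deriv (deriv (φ : ℝ → ℝ)) p.2) := by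
    intro p
    simp only [jf, af, ← ind_mul]
    exact alg2 (h.sqs p) (h.spos p) _ _ _ _ _ _
  have h2 : Integrable (fun p : ℝ × ℝ => (ind t p.1 * max ((r : ℝ) - p.1) 0)
      * ((ψ : ℝ → ℝ) p.2 * deriv (deriv (φ : ℝ → ℝ)) p.2)) Q := by
    unfold Q
    refine Integrable.mul_prod (f := fun s => ind t s * max ((r : ℝ) - s) 0)
      (g := fun x => (ψ : ℝ → ℝ) x * deriv (deriv (φ : ℝ → ℝ)) x) ?_ ?_
    · have h3 : Integrable (fun s : ℝ => max ((r : ℝ) - s) 0) I := intble_I (by fun_prop)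
      refine h3.mono ((ind_meas t).mul
        ((measurable_const.sub measurable_id).max measurable_const)).aestronglyMeasurable ?_
      refine Eventually.of_forall fun s => ?_
      rw [norm_mul]
      have := ind_abs t s
      rw [Real.norm_eq_abs]
      nlinarith [norm_nonneg (max ((r : ℝ) - s) 0)]
    · exact intble_I ((E_cont ψ).mul (E_cont2 φ))
  rw [integral_congr_ae (Eventually.of_forall h1), integral_sub (mq_int h t r ψ φ) h2]
  have h3 : ∫ p : ℝ × ℝ, (ind t p.1 * max ((r : ℝ) - p.1) 0)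
      * ((ψ : ℝ → ℝ) p.2 * deriv (deriv (φ : ℝ → ℝ)) p.2) ∂Q
      = (∫ s, ind t s * max ((r : ℝ) - s) 0 ∂I)
        * ∫ x, (ψ : ℝ → ℝ) x * deriv (deriv (φ : ℝ → ℝ)) x ∂I := by
    unfold Q
    exact integral_prod_mul (fun s => ind t s * max ((r : ℝ) - s) 0)
      (fun x => (ψ : ℝ → ℝ) x * deriv (deriv (φ : ℝ → ℝ)) x)
  rw [h3, int_kk t.2 r.2, by_parts ψ (E_cd1 φ) φ.2.2.2]
  unfold mq DD
  ring

/-- the functional representing the mean of `Z(τ)` against `φ'` -/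
noncomputable def bf (μ : ℝ × ℝ → ℝ) (τ : ℝ) (φ : ℝ → ℝ) (p : ℝ × ℝ) : ℝ :=
  √(μ p) * (- (ind τ p.1 * deriv φ p.2))

theorem bf_L (h : Dat μ f) (τ : ℝ) {φ : ℝ → ℝ} (hφ : ContDiff ℝ 1 φ) : MemLp (bf μ τ φ) 2 Q := by
  obtain ⟨C, hC0, hC⟩ := bdd01 (hφ.continuous_deriv le_rfl)
  refine sqmul_L h (((ind_meas τ).comp measurable_fst).mul
    ((hφ.continuous_deriv le_rfl).measurable.comp measurable_snd)).neg C ?_
  refine ae_Q (fun p h1 h2 => ?_)
  have h3 := hC p.2 ⟨h2.1.le, h2.2⟩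
  rw [abs_neg, abs_mul]
  have := mul_le_mul (ind_abs τ p.1) h3 (abs_nonneg _) zero_le_one
  linarith

theorem inner_Jb (h : Dat μ f) (t τ : Tm) (ψ : E) {φ : ℝ → ℝ} (hφ : ContDiff ℝ 1 φ)
    (h01 : φ 1 = φ 0) :
    inner ℝ (Jt h t ψ) ((bf_L h τ hφ).toLp _)
      = (min t τ : ℝ) * ∫ x, deriv (ψ : ℝ → ℝ) x * φ x ∂I := by
  change inner ℝ ((jf_L h t ψ).toLp _) ((bf_L h τ hφ).toLp _) = _
  rw [inner_mk]
  have h1 : ∀ p, jf μ t ψ p * bf μ τ φ p
      = - (ind (min t τ : ℝ) p.1 * ((ψ : ℝ → ℝ) p.2 * deriv φ p.2)) := by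
    intro p
    simp only [jf, bf, ← ind_mul]
    have h1 := h.spos p
    field_simp
  have h3 : ∫ p : ℝ × ℝ, ind (min t τ : ℝ) p.1 * ((ψ : ℝ → ℝ) p.2 * deriv φ p.2) ∂Q
      = (∫ s, ind (min t τ : ℝ) s ∂I) * ∫ x, (ψ : ℝ → ℝ) x * deriv φ x ∂I := by
    unfold Q
    exact integral_prod_mul (fun s => ind (min t τ : ℝ) s) (fun x => (ψ : ℝ → ℝ) x * deriv φ x)
  rw [integral_congr_ae (Eventually.of_forall h1), integral_neg, h3,
    int_ind ⟨le_min t.2.1 τ.2.1, (min_le_left _ _).trans t.2.2⟩, by_parts ψ hφ h01]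
  ring

theorem indmul_L {g : ℝ × ℝ → ℝ} (hg : MemLp g 2 Q) (τ : ℝ) :
    MemLp (fun p => ind τ p.1 * g p) 2 Q := by
  refine MemLp.of_le_mul (c := 1) hg
    (((ind_meas τ).comp measurable_fst).aestronglyMeasurable.mul hg.1) ?_
  refine Eventually.of_forall fun p => ?_
  rw [norm_mul]
  exact mul_le_mul_of_nonneg_right (ind_abs τ p.1) (norm_nonneg _)

theorem inner_Jcut (h : Dat μ f) (t τ : Tm) (ψ : E) {g : ℝ × ℝ → ℝ} (hg : MemLp g 2 Q) :
    inner ℝ (Jt h (min t τ) ψ) (hg.toLp _)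
      = inner ℝ (Jt h t ψ) ((indmul_L hg τ).toLp _) := by
  change inner ℝ ((jf_L h (min t τ : Tm) ψ).toLp _) (hg.toLp _)
    = inner ℝ ((jf_L h t ψ).toLp _) ((indmul_L hg τ).toLp _)
  rw [inner_mk, inner_mk]
  refine integral_congr_ae (Eventually.of_forall fun p => ?_)
  have h1 : ((min t τ : Tm) : ℝ) = min (t : ℝ) (τ : ℝ) := by
    rcases le_total t τ with h2 | h2
    · rw [min_eq_left h2, min_eq_left (Subtype.coe_le_coe.2 h2)]
    · rw [min_eq_right h2, min_eq_right (Subtype.coe_le_coe.2 h2)]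
  simp only [jf]
  rw [h1, ← ind_mul]
  ring

end Pool.Agent.R207.AH
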