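import Pool.Agent.R207.AH3

set_option autoImplicit false

open Filter Topology MeasureTheory

namespace Pool.Agent.R207.AH

variable {μ f : ℝ × ℝ → ℝ}

abbrev W2 := Tm →₀ E

noncomputable instance : AddCommGroup W2 := inferInstance

noncomputable instance : Module ℝ W2 := inferInstance

noncomputable def JJ (h : Dat μ f) : W2 →ₗ[ℝ] Lp ℝ 2 Q := Finsupp.lsum ℝ (Jt h)

noncomputable def AA (h : Dat μ f) : W2 →ₗ[ℝ] Lp ℝ 2 Q := Finsupp.lsum ℝ (At h)

noncomputable def SS (τ : Tm) : W2 →ₗ[ℝ] W2 :=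
  Finsupp.lmapDomain E ℝ (fun t => min t τ)

theorem JJ_eq (h : Dat μ f) (w : W2) : JJ h w = ∑ t ∈ w.support, Jt h t (w t) := rfl

theorem AA_eq (h : Dat μ f) (w : W2) : AA h w = ∑ t ∈ w.support, At h t (w t) := rfl

theorem JS_eq (h : Dat μ f) (τ : Tm) (w : W2) :
    JJ h (SS τ w) = ∑ t ∈ w.support, Jt h (min t τ) (w t) := by
  unfold JJ SS
  rw [Finsupp.lsum_apply, Finsupp.lmapDomain_apply,
    Finsupp.sum_mapDomain_index (fun _ => map_zero _) (fun _ _ _ => map_add _ _ _)]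
  rfl

theorem AS_eq (h : Dat μ f) (τ : Tm) (w : W2) :
    AA h (SS τ w) = ∑ t ∈ w.support, At h (min t τ) (w t) := by
  unfold AA SS
  rw [Finsupp.lsum_apply, Finsupp.lmapDomain_apply,
    Finsupp.sum_mapDomain_index (fun _ => map_zero _) (fun _ _ _ => map_add _ _ _)]
  rfl

theorem coe_min (t r : Tm) : ((min t r : Tm) : ℝ) = min (t : ℝ) (r : ℝ) := by
  rcases le_total t r with h2 | h2
  · rw [min_eq_left h2, min_eq_left (Subtype.coe_le_coe.2 h2)]
  · rw [min_eq_right h2, min_eq_right (Subtype.coe_le_coe.2 h2)]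

/-- the function `v` -/
noncomputable def vv (τ : Tm) (w : W2) (x : ℝ) : ℝ :=
  ∑ t ∈ w.support, (min t τ : ℝ) * deriv (w t : ℝ → ℝ) x

theorem vv_cont (τ : Tm) (w : W2) : Continuous (vv τ w) :=
  continuous_finsetSum _ (fun t _ => continuous_const.mul (E_cont1 (w t)))

theorem DD_symm (ψ φ : ℝ → ℝ) : DD ψ φ = DD φ ψ := by
  unfold DD
  refine integral_congr_ae (Eventually.of_forall fun x => ?_)
  simp only [mul_comm]

theorem energy_id (h : Dat μ f) (τ : Tm) (w : W2) :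
    inner ℝ (JJ h w) (AA h (SS τ w))
      = ‖JJ h (SS τ w)‖ ^ 2 + (1 / 2) * ∫ x, vv τ w x ^ 2 ∂I := by
  rw [← real_inner_self_eq_norm_sq, JS_eq, AS_eq, JJ_eq]
  simp only [sum_inner, inner_sum, inner_JJ, inner_JA, coe_min]
  have h1 : ∫ x, vv τ w x ^ 2 ∂I
      = ∑ t ∈ w.support, ∑ r ∈ w.support,
        (min (t : ℝ) τ * min (r : ℝ) τ) * DD (w t : ℝ → ℝ) (w r : ℝ → ℝ) := by
    have h2 : ∀ x, vv τ w x ^ 2 = ∑ t ∈ w.support, ∑ r ∈ w.support,
        (min (t : ℝ) τ * min (r : ℝ) τ) * (deriv (w t : ℝ → ℝ) x * deriv (w r : ℝ → ℝ) x) := by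
      intro x
      unfold vv
      rw [sq, Finset.sum_mul_sum]
      refine Finset.sum_congr rfl fun t _ => Finset.sum_congr rfl fun r _ => ?_
      ring
    rw [integral_congr_ae (Eventually.of_forall h2), integral_finsetSum _ (fun t _ => ?_)]
    · refine Finset.sum_congr rfl fun t _ => ?_
      rw [integral_finsetSum _ (fun r _ => ?_)]
      · refine Finset.sum_congr rfl fun r _ => ?_
        rw [integral_const_mul]
        rfl
      · exact (intble_I ((E_cont1 (w t)).mul (E_cont1 (w r)))).const_mul _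
    · refine integrable_finsetSum _ (fun r _ => ?_)
      exact (intble_I ((E_cont1 (w t)).mul (E_cont1 (w r)))).const_mul _
  have h3 : ∑ t ∈ w.support, ∑ r ∈ w.support, kk t (min (r : ℝ) τ) * DD (w t : ℝ → ℝ) (w r : ℝ → ℝ)
      = (1 / 2) * ∫ x, vv τ w x ^ 2 ∂I := by
    have h4 : ∑ t ∈ w.support, ∑ r ∈ w.support,
          kk t (min (r : ℝ) τ) * DD (w t : ℝ → ℝ) (w r : ℝ → ℝ)
        = ∑ t ∈ w.support, ∑ r ∈ w.support,
          kk r (min (t : ℝ) τ) * DD (w t : ℝ → ℝ) (w r : ℝ → ℝ) := by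
      rw [Finset.sum_comm]
      refine Finset.sum_congr rfl fun t _ => Finset.sum_congr rfl fun r _ => ?_
      rw [DD_symm]
    have h5 : ∑ t ∈ w.support, ∑ r ∈ w.support,
          kk t (min (r : ℝ) τ) * DD (w t : ℝ → ℝ) (w r : ℝ → ℝ)
        + ∑ t ∈ w.support, ∑ r ∈ w.support,
          kk r (min (t : ℝ) τ) * DD (w t : ℝ → ℝ) (w r : ℝ → ℝ) = ∫ x, vv τ w x ^ 2 ∂I := by
      rw [h1, ← Finset.sum_add_distrib]
      refine Finset.sum_congr rfl fun t _ => ?_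
      rw [← Finset.sum_add_distrib]
      refine Finset.sum_congr rfl fun r _ => ?_
      rw [← add_mul, kk_symm]
    rw [← h4] at h5
    linarith
  rw [Finset.sum_comm] at h3
  rw [← h3, ← Finset.sum_add_distrib]
  refine Finset.sum_congr rfl fun r _ => ?_
  rw [← Finset.sum_add_distrib]
  refine Finset.sum_congr rfl fun t _ => ?_
  have h6 : min (t : ℝ) (min (r : ℝ) τ) = min (min (t : ℝ) τ) (min (r : ℝ) τ) := by
    rcases le_total (t : ℝ) r with h1 | h1 <;> rcases le_total (r : ℝ) τ with h2 | h2 <;>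
      rcases le_total (t : ℝ) τ with h3 | h3 <;> simp [h1, h2, h3] <;> linarith
  rw [h6]

theorem SS_one (w : W2) : SS 1 w = w := by
  unfold SS
  rw [Finsupp.lmapDomain_apply]
  have : (fun t : Tm => min t 1) = id := by
    funext t
    exact min_eq_left t.2.2
  rw [this, Finsupp.mapDomain_id]

theorem coercive (h : Dat μ f) (w : W2) : ‖JJ h w‖ ^ 2 ≤ inner ℝ (JJ h w) (AA h w) := by
  have h1 := energy_id h 1 w
  rw [SS_one] at h1
  rw [h1]
  have : 0 ≤ ∫ x, vv 1 w x ^ 2 ∂I := integral_nonneg fun x => sq_nonneg _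
  linarith

theorem inner_JJb (h : Dat μ f) (τ : Tm) (w : W2) {φ : ℝ → ℝ} (hφ : ContDiff ℝ 1 φ)
    (h01 : φ 1 = φ 0) :
    inner ℝ (JJ h w) ((bf_L h τ hφ).toLp _) = ∫ x, vv τ w x * φ x ∂I := by
  rw [JJ_eq, sum_inner]
  simp only [inner_Jb h _ τ _ hφ h01]
  have h2 : ∀ x, vv τ w x * φ x = ∑ t ∈ w.support,
      (min (t : ℝ) τ) * (deriv (w t : ℝ → ℝ) x * φ x) := by
    intro x
    unfold vv
    rw [Finset.sum_mul]
    refine Finset.sum_congr rfl fun t _ => ?_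
    ring
  rw [integral_congr_ae (Eventually.of_forall h2), integral_finsetSum _ (fun t _ => ?_)]
  · refine Finset.sum_congr rfl fun t _ => ?_
    rw [integral_const_mul]
  · exact (intble_I ((E_cont1 (w t)).mul hφ.continuous)).const_mul _

theorem energy_ineq (h : Dat μ f) (τ : Tm) (w : W2) {φ : ℝ → ℝ} (hφ : ContDiff ℝ 1 φ)
    (h01 : φ 1 = φ 0) :
    ‖JJ h (SS τ w)‖ ^ 2 + inner ℝ (JJ h w) ((bf_L h τ hφ).toLp _) - (1 / 2) * ∫ x, φ x ^ 2 ∂I
      ≤ inner ℝ (JJ h w) (AA h (SS τ w)) := by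
  rw [energy_id, inner_JJb h τ w hφ h01]
  have h1 : 0 ≤ ∫ x, (vv τ w x - φ x) ^ 2 ∂I := integral_nonneg fun x => sq_nonneg _
  have h2 : ∀ x, (vv τ w x - φ x) ^ 2 = (vv τ w x ^ 2 - 2 * (vv τ w x * φ x)) + φ x ^ 2 := by
    intro x; ring
  have hv := vv_cont τ w
  have hc := hφ.continuous
  rw [integral_congr_ae (Eventually.of_forall h2), integral_add, integral_sub,
    integral_const_mul] at h1
  · linarith
  · exact intble_I (hv.pow 2)
  · exact (intble_I (hv.mul hc)).const_mul 2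
  · exact (intble_I (hv.pow 2)).sub ((intble_I (hv.mul hc)).const_mul 2)
  · exact intble_I (hc.pow 2)

theorem inner_JJcut (h : Dat μ f) (τ : Tm) (w : W2) {g : ℝ × ℝ → ℝ} (hg : MemLp g 2 Q) :
    inner ℝ (JJ h (SS τ w)) (hg.toLp _) = inner ℝ (JJ h w) ((indmul_L hg τ).toLp _) := by
  rw [JS_eq, JJ_eq, sum_inner, sum_inner]
  refine Finset.sum_congr rfl fun t _ => ?_
  exact inner_Jcut h t τ (w t) hg

/-- the finite dimensional spaces -/
noncomputable def FF (i : Finset Tm × Finset E) : Submodule ℝ W2 :=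
  Submodule.span ℝ (Set.image2 (fun t ψ => Finsupp.single t ψ) (i.1 : Set Tm) (i.2 : Set E))

theorem FF_fin (i : Finset Tm × Finset E) : FiniteDimensional ℝ (FF i) := by
  unfold FF
  exact FiniteDimensional.span_of_finite ℝ
    (Set.Finite.image2 _ (Finset.finite_toSet _) (Finset.finite_toSet _))

theorem FF_mem (w : W2) : ∀ᶠ i in (atTop : Filter (Finset Tm × Finset E)), w ∈ FF i := by
  classical
  filter_upwards [eventually_ge_atTop (w.support, w.support.image w)] with i hi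
  have h1 : w.sum Finsupp.single = w := Finsupp.sum_single w
  rw [← h1]
  refine Submodule.sum_mem _ (fun t ht => ?_)
  refine Submodule.subset_span ⟨t, hi.1 ht, w t, ?_, rfl⟩
  exact hi.2 (Finset.mem_image_of_mem _ ht)

theorem FF_SS (i : Finset Tm × Finset E) (τ : Tm) (hτ : τ ∈ i.1) (w : W2) (hw : w ∈ FF i) :
    SS τ w ∈ FF i := by
  have h1 : (FF i).map (SS τ) ≤ FF i := by
    unfold FF
    rw [Submodule.map_span_le]
    rintro _ ⟨t, ht, ψ, hψ, rfl⟩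
    have : SS τ (Finsupp.single t ψ) = Finsupp.single (min t τ) ψ := by
      unfold SS
      rw [Finsupp.lmapDomain_apply, Finsupp.mapDomain_single]
    rw [this]
    refine Submodule.subset_span ⟨min t τ, ?_, ψ, hψ, rfl⟩
    rcases le_total t τ with h2 | h2
    · rw [min_eq_left h2]; exact ht
    · rw [min_eq_right h2]; exact hτ
  exact h1 ⟨w, hw, rfl⟩

theorem weak_energy2 {H : Type*} [NormedAddCommGroup H] [InnerProductSpace ℝ H] {ι : Type*}
    (U : Ultrafilter ι) (x y : ι → H) (u pu g pg b : H)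
    (h1 : ∀ i, inner ℝ (y i) pu = inner ℝ (x i) pu) (h2 : ∀ i, inner ℝ (y i) g = inner ℝ (x i) pg)
    (h3 : inner ℝ u pu = ‖pu‖ ^ 2)
    (c : ℝ) (hx : ∀ h : H, Tendsto (fun i => inner ℝ (x i) h) U (𝓝 (inner ℝ u h)))
    (h : ∀ᶠ i in (U : Filter ι), ‖y i‖ ^ 2 + inner ℝ (x i) b - c ≤ inner ℝ (y i) g) :
    ‖pu‖ ^ 2 + inner ℝ u b - c ≤ inner ℝ u pg := by
  have h1 : ∀ᶠ i in (U : Filter ι),
      2 * inner ℝ (x i) pu - ‖pu‖ ^ 2 + inner ℝ (x i) b - c ≤ inner ℝ (x i) pg := by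
    filter_upwards [h] with i hi
    have h4 : 0 ≤ ‖y i - pu‖ ^ 2 := sq_nonneg _
    rw [norm_sub_sq_real, h1] at h4
    rw [h2] at hi
    linarith
  have h5 : Tendsto (fun i => 2 * inner ℝ (x i) pu - ‖pu‖ ^ 2 + inner ℝ (x i) b - c) U
      (𝓝 (2 * inner ℝ u pu - ‖pu‖ ^ 2 + inner ℝ u b - c)) :=
    ((((hx _).const_mul 2).sub_const _).add (hx b)).sub_const c
  have h6 := le_of_tendsto_of_tendsto h5 (hx pg) h1
  rw [h3] at h6
  linarith

theorem exists_u (h : Dat μ f) : ∃ u : ℝ × ℝ → ℝ, MemLp u 2 Q ∧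
    (∀ t ∈ Set.Icc (0 : ℝ) 1, ∀ ψ : E, ∫ p, u p * af μ t ψ p ∂Q
      = ∫ p, (f p / √(μ p)) * jf μ t ψ p ∂Q) ∧
    (∀ τ ∈ Set.Icc (0 : ℝ) 1, ∀ φ : ℝ → ℝ, ContDiff ℝ 1 φ → φ 1 = φ 0 →
      (∫ p, ind τ p.1 * u p ^ 2 ∂Q) + (∫ p, u p * bf μ τ φ p ∂Q) - (1 / 2) * ∫ x, φ x ^ 2 ∂I
        ≤ ∫ p, ind τ p.1 * (u p * (f p / √(μ p))) ∂Q) := by
  classical
  obtain ⟨v, u, U, hU, hv1, hv2, hv3⟩ := galerkin (atTop : Filter (Finset Tm × Finset E)) FF
    FF_fin (JJ h) (AA h) (coercive h) ((h.fL).toLp _)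
  have hu : MemLp (u : ℝ × ℝ → ℝ) 2 Q := Lp.memLp u
  have hu2 : hu.toLp _ = u := Lp.toLp_coeFn u hu
  refine ⟨u, hu, ?_, ?_⟩
  · intro t ht ψ
    have h1 := hv3 (AA h (Finsupp.single ⟨t, ht⟩ ψ))
    have h2 : ∀ᶠ i in (U : Filter _), inner ℝ (JJ h (v i)) (AA h (Finsupp.single ⟨t, ht⟩ ψ))
        = inner ℝ ((h.fL).toLp _) (JJ h (Finsupp.single ⟨t, ht⟩ ψ)) := by
      filter_upwards [hU (FF_mem (Finsupp.single ⟨t, ht⟩ ψ))] with i hi
      exact hv2 i _ hi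
    have h3 := tendsto_nhds_unique (h1.congr' h2) tendsto_const_nhds
    have h4 : AA h (Finsupp.single ⟨t, ht⟩ ψ) = (af_L h ht ψ).toLp _ := by
      unfold AA
      rw [Finsupp.lsum_single]
      rfl
    have h5 : JJ h (Finsupp.single ⟨t, ht⟩ ψ) = (jf_L h t ψ).toLp _ := by
      unfold JJ
      rw [Finsupp.lsum_single]
      rfl
    rw [h4, h5, ← hu2, inner_mk, inner_mk] at h3
    exact h3
  · intro τ hτ φ hφ h01
    have hpu := indmul_L hu τ
    have h3 : inner ℝ u (hpu.toLp _) = ‖hpu.toLp _‖ ^ 2 := by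
      rw [← real_inner_self_eq_norm_sq]
      nth_rewrite 1 [← hu2]
      rw [inner_mk, inner_mk]
      refine integral_congr_ae (Eventually.of_forall fun p => ?_)
      simp only
      have : ind τ p.1 * ind τ p.1 = ind τ p.1 := by rw [ind_mul, min_self]
      calc (u : ℝ × ℝ → ℝ) p * (ind τ p.1 * (u : ℝ × ℝ → ℝ) p)
          = (ind τ p.1) * ((u : ℝ × ℝ → ℝ) p * (u : ℝ × ℝ → ℝ) p) := by ring
        _ = (ind τ p.1 * ind τ p.1) * ((u : ℝ × ℝ → ℝ) p * (u : ℝ × ℝ → ℝ) p) := by rw [this]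
        _ = _ := by ring
    have h4 := weak_energy2 U (fun i => JJ h (v i)) (fun i => JJ h (SS ⟨τ, hτ⟩ (v i))) u
      (hpu.toLp _) ((h.fL).toLp _) ((indmul_L h.fL τ).toLp _) ((bf_L h τ hφ).toLp _)
      (fun i => by
        have h5 := inner_JJcut h ⟨τ, hτ⟩ (v i) hpu
        rw [h5]
        congr 1
        refine MemLp.toLp_congr _ _ (Eventually.of_forall fun p => ?_)
        simp only
        rw [← mul_assoc, ind_mul, min_self])
      (fun i => inner_JJcut h ⟨τ, hτ⟩ (v i) h.fL) h3 ((1 / 2) * ∫ x, φ x ^ 2 ∂I) hv3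
      (by
        filter_upwards [hU (eventually_ge_atTop ({⟨τ, hτ⟩}, ∅))] with i hi
        have h5 : (⟨τ, hτ⟩ : Tm) ∈ i.1 := hi.1 (Finset.mem_singleton_self _)
        have h6 := energy_ineq h ⟨τ, hτ⟩ (v i) hφ h01
        rw [hv2 i _ (FF_SS i ⟨τ, hτ⟩ h5 _ (hv1 i))] at h6
        rw [real_inner_comm ((h.fL).toLp _)]
        exact h6)
    rw [← real_inner_self_eq_norm_sq, inner_mk, ← hu2, inner_mk, inner_mk] at h4
    have e1 : ∫ p, ind τ p.1 * (u : ℝ × ℝ → ℝ) p * (ind τ p.1 * (u : ℝ × ℝ → ℝ) p) ∂Q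
        = ∫ p, ind τ p.1 * (u : ℝ × ℝ → ℝ) p ^ 2 ∂Q := by
      refine integral_congr_ae (Eventually.of_forall fun p => ?_)
      simp only
      have : ind τ p.1 * ind τ p.1 = ind τ p.1 := by rw [ind_mul, min_self]
      calc _ = (ind τ p.1 * ind τ p.1) * ((u : ℝ × ℝ → ℝ) p ^ 2) := by ring
        _ = _ := by rw [this]
    have e2 : ∫ p, (u : ℝ × ℝ → ℝ) p * (ind τ p.1 * (f p / √(μ p))) ∂Q
        = ∫ p, ind τ p.1 * ((u : ℝ × ℝ → ℝ) p * (f p / √(μ p))) ∂Q := by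
      refine integral_congr_ae (Eventually.of_forall fun p => ?_)
      simp only
      ring
    rw [hu2, e1, e2] at h4
    exact h4

end Pool.Agent.R207.AH
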