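import Pool.Agent.R207.AH4

set_option autoImplicit false

open Filter Topology MeasureTheory

namespace Pool.Agent.R207.AH

theorem memI {p : ℝ → Prop} (h : ∀ x ∈ Set.Icc (0 : ℝ) 1, p x) : ∀ᵐ x ∂I, p x :=
  ae_I (fun x hx => h x ⟨hx.1.le, hx.2⟩)

theorem fub_int (K : ℝ × ℝ → ℝ) (hK : Measurable K) (C : ℝ)
    (hC : ∀ s ∈ Set.Icc (0 : ℝ) 1, ∀ r ∈ Set.Icc (0 : ℝ) 1, |K (s, r)| ≤ C) {φ w : ℝ → ℝ}
    (hφ : Integrable φ I) (hw : Integrable w I) :
    Integrable (fun p : ℝ × ℝ => φ p.1 * (K p * w p.2)) (I.prod I) := by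
  have h1 : Integrable (fun p : ℝ × ℝ => φ p.1 * w p.2) (I.prod I) := hφ.mul_prod hw
  have h2 : AEStronglyMeasurable (fun p : ℝ × ℝ => φ p.1 * (K p * w p.2)) (I.prod I) := by
    have h3 : (fun p : ℝ × ℝ => φ p.1 * (K p * w p.2))
        = fun p : ℝ × ℝ => K p * (φ p.1 * w p.2) := by funext p; ring
    rw [h3]
    exact hK.aestronglyMeasurable.mul h1.1
  refine (h1.norm.const_mul C).mono' h2 ?_
  refine ae_Q (fun p h1 h2 => ?_)
  have h3 := hC p.1 ⟨h1.1.le, h1.2⟩ p.2 ⟨h2.1.le, h2.2⟩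
  have h4 : φ p.1 * (K p * w p.2) = K p * (φ p.1 * w p.2) := by ring
  rw [h4, norm_mul]
  exact mul_le_mul_of_nonneg_right h3 (norm_nonneg _)

theorem fub (K : ℝ × ℝ → ℝ) (hK : Measurable K) (C : ℝ)
    (hC : ∀ s ∈ Set.Icc (0 : ℝ) 1, ∀ r ∈ Set.Icc (0 : ℝ) 1, |K (s, r)| ≤ C) {φ w : ℝ → ℝ}
    (hφ : Integrable φ I) (hw : Integrable w I) :
    ∫ s, φ s * (∫ r, K (s, r) * w r ∂I) ∂I = ∫ r, w r * (∫ s, K (s, r) * φ s ∂I) ∂I := by
  have h1 := fub_int K hK C hC hφ hw
  calc ∫ s, φ s * (∫ r, K (s, r) * w r ∂I) ∂I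
      = ∫ s, (∫ r, φ s * (K (s, r) * w r) ∂I) ∂I := by
        refine integral_congr_ae (Eventually.of_forall fun s => ?_)
        simp only [integral_const_mul]
    _ = ∫ r, (∫ s, φ s * (K (s, r) * w r) ∂I) ∂I := integral_integral_swap h1
    _ = _ := by
        refine integral_congr_ae (Eventually.of_forall fun r => ?_)
        simp only
        rw [← integral_const_mul]
        refine integral_congr_ae (Eventually.of_forall fun s => ?_)
        simp only
        ring

theorem ind_mm : Measurable (fun p : ℝ × ℝ => ind p.1 p.2) := by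
  unfold ind
  exact Measurable.ite (measurableSet_le measurable_snd measurable_fst) measurable_const
    measurable_const

noncomputable def ZZ (W : ℝ × ℝ → ℝ) (p : ℝ × ℝ) : ℝ := ∫ r, ind p.1 r * W (r, p.2) ∂I

noncomputable def G0 (x y : ℝ) : ℝ := -(min x y * (1 - max x y))

noncomputable def G1 (x y : ℝ) : ℝ := (if y < x then 1 else 0) - (1 - y)

noncomputable def P0 (k : ℝ × ℝ → ℝ) (p : ℝ × ℝ) : ℝ := ∫ y, G0 p.2 y * k (p.1, y) ∂I

noncomputable def P1 (k : ℝ × ℝ → ℝ) (p : ℝ × ℝ) : ℝ := ∫ y, G1 p.2 y * k (p.1, y) ∂I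

theorem G0_cont : Continuous (fun p : ℝ × ℝ => G0 p.1 p.2) := by
  unfold G0; fun_prop

theorem G1_meas : Measurable (fun p : ℝ × ℝ => G1 p.1 p.2) := by
  unfold G1
  exact (Measurable.ite (measurableSet_lt measurable_snd measurable_fst) measurable_const
    measurable_const).sub (measurable_const.sub measurable_snd)

theorem G0_bd {x y : ℝ} (hx : x ∈ Set.Icc (0 : ℝ) 1) (hy : y ∈ Set.Icc (0 : ℝ) 1) :
    |G0 x y| ≤ 1 := by
  unfold G0
  have h1 : 0 ≤ min x y := le_min hx.1 hy.1
  have h2 : min x y ≤ 1 := (min_le_left _ _).trans hx.2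
  have h3 : 0 ≤ 1 - max x y := by linarith [max_le hx.2 hy.2]
  have h4 : 1 - max x y ≤ 1 := by linarith [le_max_left x y, hx.1]
  rw [abs_neg, abs_of_nonneg (mul_nonneg h1 h3)]
  nlinarith

theorem G1_bd {x y : ℝ} (hy : y ∈ Set.Icc (0 : ℝ) 1) : |G1 x y| ≤ 1 := by
  unfold G1
  split_ifs <;> rw [abs_le] <;> constructor <;> linarith [hy.1, hy.2]

/-- kernel identity 1 -/
theorem K1 {y : ℝ} (hy : y ∈ Set.Icc (0 : ℝ) 1) {φ : ℝ → ℝ} (hφ : ContDiff ℝ 1 φ) :
    ∫ x, G0 x y * deriv φ x ∂I = - ∫ x, G1 x y * φ x ∂I := by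
  have hd : ∀ x, HasDerivAt φ (deriv φ x) x := fun x =>
    ((hφ.differentiable (by norm_num)) x).hasDerivAt
  have hc := hφ.continuous
  have hc1 := hφ.continuous_deriv le_rfl
  have i1 : ∀ a b : ℝ, IntervalIntegrable (fun x => G0 x y * deriv φ x) volume a b := by
    intro a b
    refine Continuous.intervalIntegrable ?_ _ _
    unfold G0
    fun_prop
  have i2 : ∀ a b : ℝ, IntervalIntegrable (fun x => G1 x y * φ x) volume a b := by
    intro a b
    have h1 : IntervalIntegrable (fun x => (1 + |1 - y|) * φ x) volume a b :=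
      Continuous.intervalIntegrable (by fun_prop) _ _
    refine h1.mono_fun ?_ ?_
    · have : Measurable (fun x : ℝ => G1 x y) :=
        G1_meas.comp (measurable_id.prodMk measurable_const)
      exact (this.mul hc.measurable).aestronglyMeasurable
    · refine Eventually.of_forall fun x => ?_
      simp only [norm_mul]
      refine mul_le_mul_of_nonneg_right ?_ (norm_nonneg _)
      rw [Real.norm_eq_abs, Real.norm_eq_abs, abs_of_nonneg (by positivity : 0 ≤ 1 + |1 - y|)]
      unfold G1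
      split_ifs
      · refine (abs_sub _ _).trans ?_
        simp
      · refine (abs_sub _ _).trans ?_
        simp
  rw [int_I, int_I, ← intervalIntegral.integral_add_adjacent_intervals (i1 0 y) (i1 y 1),
    ← intervalIntegral.integral_add_adjacent_intervals (i2 0 y) (i2 y 1)]
  have a1 : ∫ x in (0 : ℝ)..y, G0 x y * deriv φ x
      = ∫ x in (0 : ℝ)..y, (-(x * (1 - y))) * deriv φ x := by
    refine intervalIntegral.integral_congr fun x hx => ?_
    rw [Set.uIcc_of_le hy.1] at hx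
    simp only [G0, min_eq_left hx.2, max_eq_right hx.2]
  have a2 : ∫ x in y..(1 : ℝ), G0 x y * deriv φ x
      = ∫ x in y..(1 : ℝ), (-(y * (1 - x))) * deriv φ x := by
    refine intervalIntegral.integral_congr fun x hx => ?_
    rw [Set.uIcc_of_le hy.2] at hx
    simp only [G0, min_eq_right hx.1, max_eq_left hx.1]
  have a3 : ∫ x in (0 : ℝ)..y, G1 x y * φ x = ∫ x in (0 : ℝ)..y, (-(1 - y)) * φ x := by
    refine intervalIntegral.integral_congr_ae (Eventually.of_forall fun x hx => ?_)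
    rw [Set.uIoc_of_le hy.1] at hx
    simp only [G1, if_neg (not_lt.2 hx.2)]
    ring
  have a4 : ∫ x in y..(1 : ℝ), G1 x y * φ x = ∫ x in y..(1 : ℝ), y * φ x := by
    refine intervalIntegral.integral_congr_ae (Eventually.of_forall fun x hx => ?_)
    rw [Set.uIoc_of_le hy.2] at hx
    simp only [G1, if_pos hx.1]
    ring
  rw [a1, a2, a3, a4]
  have b1 : ∫ x in (0 : ℝ)..y, (-(x * (1 - y))) * deriv φ x
      = (-(y * (1 - y))) * φ y - (-(0 * (1 - y))) * φ 0
        - ∫ x in (0 : ℝ)..y, (-(1 - y)) * φ x := by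
    refine intervalIntegral.integral_mul_deriv_eq_deriv_mul
      (u := fun x => (-(x * (1 - y)))) (u' := fun _ => (-(1 - y))) (fun x _ => ?_)
      (fun x _ => hd x) (by simp) (hc1.intervalIntegrable _ _)
    have := ((hasDerivAt_id x).mul_const (1 - y)).neg
    exact this.congr_deriv (by ring)
  have b2 : ∫ x in y..(1 : ℝ), (-(y * (1 - x))) * deriv φ x
      = (-(y * (1 - 1))) * φ 1 - (-(y * (1 - y))) * φ y - ∫ x in y..(1 : ℝ), y * φ x := by
    refine intervalIntegral.integral_mul_deriv_eq_deriv_mul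
      (u := fun x => (-(y * (1 - x)))) (u' := fun _ => y) (fun x _ => ?_)
      (fun x _ => hd x) (by simp) (hc1.intervalIntegrable _ _)
    have := (((hasDerivAt_id x).const_sub 1).const_mul y).neg
    exact this.congr_deriv (by ring)
  rw [b1, b2]
  ring

/-- kernel identity 2 -/
theorem K2 {y : ℝ} (hy : y ∈ Set.Icc (0 : ℝ) 1) {φ : ℝ → ℝ} (hφ : ContDiff ℝ 1 φ)
    (h01 : φ 1 = φ 0) :
    ∫ x, G1 x y * deriv φ x ∂I = φ 1 - φ y := by
  have hd : ∀ x, HasDerivAt φ (deriv φ x) x := fun x =>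
    ((hφ.differentiable (by norm_num)) x).hasDerivAt
  have hc1 := hφ.continuous_deriv le_rfl
  have i2 : ∀ a b : ℝ, IntervalIntegrable (fun x => G1 x y * deriv φ x) volume a b := by
    intro a b
    have h1 : IntervalIntegrable (fun x => (1 + |1 - y|) * deriv φ x) volume a b :=
      Continuous.intervalIntegrable (by fun_prop) _ _
    refine h1.mono_fun ?_ ?_
    · have : Measurable (fun x : ℝ => G1 x y) :=
        G1_meas.comp (measurable_id.prodMk measurable_const)
      exact (this.mul hc1.measurable).aestronglyMeasurable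
    · refine Eventually.of_forall fun x => ?_
      simp only [norm_mul]
      refine mul_le_mul_of_nonneg_right ?_ (norm_nonneg _)
      rw [Real.norm_eq_abs, Real.norm_eq_abs, abs_of_nonneg (by positivity : 0 ≤ 1 + |1 - y|)]
      unfold G1
      split_ifs
      · refine (abs_sub _ _).trans ?_
        simp
      · refine (abs_sub _ _).trans ?_
        simp
  rw [int_I, ← intervalIntegral.integral_add_adjacent_intervals (i2 0 y) (i2 y 1)]
  have a3 : ∫ x in (0 : ℝ)..y, G1 x y * deriv φ x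
      = ∫ x in (0 : ℝ)..y, (-(1 - y)) * deriv φ x := by
    refine intervalIntegral.integral_congr_ae (Eventually.of_forall fun x hx => ?_)
    rw [Set.uIoc_of_le hy.1] at hx
    simp only [G1, if_neg (not_lt.2 hx.2)]
    ring
  have a4 : ∫ x in y..(1 : ℝ), G1 x y * deriv φ x = ∫ x in y..(1 : ℝ), y * deriv φ x := by
    refine intervalIntegral.integral_congr_ae (Eventually.of_forall fun x hx => ?_)
    rw [Set.uIoc_of_le hy.2] at hx
    simp only [G1, if_pos hx.1]
    ring
  rw [a3, a4, intervalIntegral.integral_const_mul, intervalIntegral.integral_const_mul,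
    intervalIntegral.integral_eq_sub_of_hasDerivAt (fun x _ => hd x)
      (hc1.intervalIntegrable _ _),
    intervalIntegral.integral_eq_sub_of_hasDerivAt (fun x _ => hd x)
      (hc1.intervalIntegrable _ _), h01]
  ring

/-- solving `ψ'' = h` in `E` -/
theorem exists_E {h : ℝ → ℝ} (hh : Continuous h) (h0 : ∫ x, h x ∂I = 0) :
    ∃ ψ : E, ∀ x, deriv (deriv (ψ : ℝ → ℝ)) x = h x := by
  rw [int_I] at h0
  have d1 : ∀ x, HasDerivAt (fun x => ∫ y in (0 : ℝ)..x, h y) (h x) x := fun x =>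
    intervalIntegral.integral_hasDerivAt_right (hh.intervalIntegrable _ _)
      (hh.stronglyMeasurableAtFilter _ _) hh.continuousAt
  set H1 : ℝ → ℝ := fun x => ∫ y in (0 : ℝ)..x, h y with hH1
  have cH1 : Continuous H1 := continuous_iff_continuousAt.2 fun x => (d1 x).continuousAt
  have d2 : ∀ x, HasDerivAt (fun x => ∫ y in (0 : ℝ)..x, H1 y) (H1 x) x := fun x =>
    intervalIntegral.integral_hasDerivAt_right (cH1.intervalIntegrable _ _)
      (cH1.stronglyMeasurableAtFilter _ _) cH1.continuousAt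
  set c : ℝ := ∫ y in (0 : ℝ)..1, H1 y with hc
  let ψ : ℝ → ℝ := fun x => (∫ y in (0 : ℝ)..x, H1 y) - c * x
  have d3 : ∀ x, HasDerivAt ψ (H1 x - c) x := fun x => by
    have := (d2 x).sub ((hasDerivAt_id x).const_mul c)
    exact this.congr_deriv (by ring)
  have e1 : deriv ψ = fun x => H1 x - c := funext fun x => (d3 x).deriv
  have d4 : ∀ x, HasDerivAt (deriv ψ) (h x) x := fun x => by
    rw [e1]
    exact ((d1 x).sub_const c)
  have e2 : deriv (deriv ψ) = h := funext fun x => (d4 x).deriv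
  have c1 : ContDiff ℝ 1 (deriv ψ) := by
    rw [contDiff_one_iff_deriv]
    exact ⟨fun x => (d4 x).differentiableAt, by rw [e2]; exact hh⟩
  have c2 : ContDiff ℝ 2 ψ := by
    have : (2 : WithTop ℕ∞) = 1 + 1 := by norm_num
    rw [this, contDiff_succ_iff_deriv]
    refine ⟨fun x => (d3 x).differentiableAt, by simp, c1⟩
  refine ⟨⟨ψ, c2, ?_, ?_⟩, fun x => ?_⟩
  · simp only [ψ]
    rw [← hc]
    simp
  · rw [e1]
    simp only [hH1, h0]
    simp
  · exact congrFun e2 x

end Pool.Agent.R207.AH
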