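import Pool.Agent.R207.AH5

set_option autoImplicit false

open Filter Topology MeasureTheory

namespace Pool.Agent.R207.AH

variable {μ f : ℝ × ℝ → ℝ}

theorem ae_zero_1 {w : ℝ → ℝ} (hw : Integrable w I)
    (h : ∀ g : ℝ → ℝ, ContDiff ℝ (⊤ : ℕ∞) g → g 1 = 0 → ∫ x, w x * g x ∂I = 0) :
    ∀ᵐ x ∂I, w x = 0 := by
  have h1 : ∀ᵐ x ∂(volume : Measure ℝ), x ∈ Set.Ioo (0 : ℝ) 1 → w x = 0 := by
    refine IsOpen.ae_eq_zero_of_integral_contDiff_smul_eq_zero isOpen_Ioo ?_ ?_
    · have h2 : IntegrableOn w (Set.Ioc 0 1) volume := hw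
      exact (h2.mono_set Set.Ioo_subset_Ioc_self).locallyIntegrableOn
    · intro g hg hc hs
      have h3 : ∀ x, x ∉ Set.Ioo (0 : ℝ) 1 → g x = 0 := fun x hx =>
        image_eq_zero_of_notMem_tsupport (fun h => hx (hs h))
      have h4 := h g hg (h3 1 (by simp))
      have h5 : (∫ x in Set.Ioc (0 : ℝ) 1, g x • w x) = ∫ x, g x • w x := by
        refine setIntegral_eq_integral_of_forall_compl_eq_zero (fun x hx => ?_)
        rw [h3 x (fun h => hx ⟨h.1, h.2.le⟩), zero_smul]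
      have h6 : (fun x => g x • w x) = fun x => w x * g x := by
        funext x; rw [smul_eq_mul, mul_comm]
      rw [← h5, h6]
      exact h4
  unfold I
  rw [← restrict_Ioo_eq_restrict_Ioc, ae_restrict_iff' measurableSet_Ioo]
  exact h1

theorem int_ind_int {w : ℝ → ℝ} (t : ℝ) (ht : t ∈ Set.Icc (0 : ℝ) 1) :
    ∫ s, ind t s * w s ∂I = ∫ s in (0 : ℝ)..t, w s := by
  have h1 : (fun s => ind t s * w s) = Set.indicator (Set.Iic t) w := by
    funext s
    simp only [ind, Set.indicator, Set.mem_Iic]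
    split_ifs <;> simp
  rw [h1, integral_indicator measurableSet_Iic, intervalIntegral.integral_of_le ht.1]
  unfold I
  rw [Measure.restrict_restrict measurableSet_Iic]
  have : Set.Iic t ∩ Set.Ioc (0 : ℝ) 1 = Set.Ioc 0 t := by
    ext s
    simp only [Set.mem_inter_iff, Set.mem_Iic, Set.mem_Ioc]
    constructor
    · rintro ⟨h1, h2, h3⟩; exact ⟨h2, h1⟩
    · rintro ⟨h1, h2⟩; exact ⟨h2, h1, h2.trans ht.2⟩
  rw [this]

theorem prim_cont {w : ℝ → ℝ} (hw : Integrable w I) :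
    ContinuousOn (fun t => ∫ s, ind t s * w s ∂I) (Set.Icc 0 1) := by
  have h1 : ContinuousOn (fun t => ∫ s in (0 : ℝ)..t, w s) (Set.uIcc 0 1) := by
    refine intervalIntegral.continuousOn_primitive_interval ?_
    rw [Set.uIcc_of_le zero_le_one, integrableOn_Icc_iff_integrableOn_Ioc]
    exact hw
  rw [Set.uIcc_of_le zero_le_one] at h1
  exact h1.congr (fun t ht => int_ind_int t ht)

noncomputable def cl (q : ℝ) : ℝ := max 0 (min q 1)

theorem cl_mem (q : ℝ) : cl q ∈ Set.Icc (0 : ℝ) 1 :=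
  ⟨le_max_left _ _, max_le zero_le_one (min_le_right _ _)⟩

theorem cl_id {t : ℝ} (ht : t ∈ Set.Icc (0 : ℝ) 1) : cl t = t := by
  unfold cl; rw [min_eq_left ht.2, max_eq_right ht.1]

theorem dense_cl : Set.Icc (0 : ℝ) 1 ⊆ closure (Set.range (fun q : ℚ => cl q)) := by
  intro t ht
  have hc : Continuous cl := by unfold cl; fun_prop
  have h1 : t ∈ cl '' (closure (Set.range ((↑) : ℚ → ℝ))) := by
    refine ⟨t, ?_, cl_id ht⟩
    rw [Rat.denseRange_cast.closure_range]; trivial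
  have h2 := image_closure_subset_closure_image hc h1
  rwa [← Set.range_comp] at h2

theorem ae_zero_2 {w : ℝ → ℝ} (hw : Integrable w I)
    (h : ∀ q : ℚ, ∫ s, ind (cl q) s * w s ∂I = 0) : ∀ᵐ x ∂I, w x = 0 := by
  have h1 : ∀ t ∈ Set.Icc (0 : ℝ) 1, ∫ s, ind t s * w s ∂I = 0 := by
    have h2 := Set.EqOn.of_subset_closure (s := Set.range (fun q : ℚ => cl q))
      (t := Set.Icc (0 : ℝ) 1) (f := fun t => ∫ s, ind t s * w s ∂I) (g := fun _ => (0 : ℝ))
      (by rintro _ ⟨q, rfl⟩; exact h q) (prim_cont hw) continuousOn_const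
      (by rintro _ ⟨q, rfl⟩; exact cl_mem q) dense_cl
    exact h2
  refine ae_zero_1 hw (fun g hg hg1 => ?_)
  have hg' : ContDiff ℝ 1 g := hg.of_le (by exact_mod_cast le_top)
  have hc := hg'.continuous_deriv le_rfl
  have h3 : ∀ s ∈ Set.Icc (0 : ℝ) 1, g s = - ∫ t, ind t s * deriv g t ∂I := by
    intro s hs
    have h4 : ∫ t, ind t s * deriv g t ∂I = ∫ t in s..(1 : ℝ), deriv g t := by
      have h5 : (fun t => ind t s * deriv g t) = Set.indicator (Set.Ici s) (deriv g) := by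
        funext t
        simp only [ind, Set.indicator, Set.mem_Ici]
        split_ifs <;> simp
      rw [h5, integral_indicator measurableSet_Ici, intervalIntegral.integral_of_le hs.2]
      unfold I
      rw [Measure.restrict_restrict measurableSet_Ici]
      refine setIntegral_congr_set ?_
      have h6 : Set.Ioc s 1 ⊆ Set.Ici s ∩ Set.Ioc 0 1 := fun t ht =>
        ⟨ht.1.le, lt_of_le_of_lt hs.1 ht.1, ht.2⟩
      have h7 : Set.Ici s ∩ Set.Ioc 0 1 ⊆ Set.Icc s 1 := fun t ht => ⟨ht.1, ht.2.2⟩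
      have h8 : (Set.Ioc s 1 : Set ℝ) =ᵐ[volume] Set.Icc s 1 := Ioc_ae_eq_Icc
      exact (h7.eventuallyLE.trans h8.symm.le).antisymm h6.eventuallyLE
    rw [h4, intervalIntegral.integral_eq_sub_of_hasDerivAt (f := g)
      (fun x _ => ((hg'.differentiable (by norm_num)) x).hasDerivAt)
      (hc.intervalIntegrable _ _), hg1]
    ring
  have h9 : ∫ x, w x * g x ∂I = - ∫ s, w s * (∫ t, ind t s * deriv g t ∂I) ∂I := by
    rw [← integral_neg]
    refine integral_congr_ae ?_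
    refine memI (fun s hs => ?_)
    beta_reduce
    rw [h3 s hs]; ring
  have h10 := fub (fun p => ind p.2 p.1) (ind_mm.comp measurable_swap) 1
    (fun s _ r _ => ind_abs r s) (φ := w) (w := deriv g) hw (intble_I hc)
  simp only at h10
  rw [h9, h10]
  have h11 : ∫ r, deriv g r * (∫ s, ind r s * w s ∂I) ∂I = ∫ r, (0 : ℝ) ∂I := by
    refine integral_congr_ae ?_
    refine memI (fun r hr => ?_)
    beta_reduce
    rw [h1 r hr, mul_zero]
  rw [h11]; simp

theorem ae_zero_Q {D : ℝ × ℝ → ℝ} (hD : Integrable D Q)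
    (h : ∀ t ∈ Set.Icc (0 : ℝ) 1, ∀ g : ℝ → ℝ, Continuous g →
      ∫ p, ind t p.1 * (D p * g p.2) ∂Q = 0) : ∀ᵐ p ∂Q, D p = 0 := by
  have hD' : Integrable D (I.prod I) := hD
  have hsw : ∀ᵐ x ∂I, Integrable (fun s => D (s, x)) I := hD'.prod_left_ae
  have hiD : ∀ t : ℝ, Integrable (fun p : ℝ × ℝ => ind t p.1 * D p) Q := by
    intro t
    refine hD.norm.mono' ((((ind_meas t).comp measurable_fst).aestronglyMeasurable).mul hD.1) ?_
    refine Eventually.of_forall fun p => ?_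
    rw [norm_mul]
    have := ind_abs t p.1
    rw [← Real.norm_eq_abs] at this
    nlinarith [norm_nonneg (D p)]
  have h1 : ∀ t ∈ Set.Icc (0 : ℝ) 1, ∀ᵐ x ∂I, ∫ s, ind t s * D (s, x) ∂I = 0 := by
    intro t ht
    have hi : Integrable (fun x => ∫ s, ind t s * D (s, x) ∂I) I :=
      Integrable.integral_prod_right (f := fun p : ℝ × ℝ => ind t p.1 * D p) (hiD t)
    refine ae_zero_1 hi (fun g hg _ => ?_)
    have h2 := h t ht g hg.continuous
    have h3 : Integrable (fun p : ℝ × ℝ => ind t p.1 * (D p * g p.2)) (I.prod I) := by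
      obtain ⟨C, hC0, hC⟩ := bdd01 hg.continuous
      refine ((hiD t).norm.const_mul C).mono' ?_ ?_
      · exact (((ind_meas t).comp measurable_fst).aestronglyMeasurable).mul
          (hD.1.mul (hg.continuous.measurable.comp measurable_snd).aestronglyMeasurable)
      · refine ae_Q (fun p _ hp => ?_)
        have h4 := hC p.2 ⟨hp.1.le, hp.2⟩
        have h5 : ind t p.1 * (D p * g p.2) = g p.2 * (ind t p.1 * D p) := by ring
        rw [h5, norm_mul]
        exact mul_le_mul_of_nonneg_right h4 (norm_nonneg _)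
    unfold Q at h2
    rw [integral_prod_symm _ h3] at h2
    rw [← h2]
    refine integral_congr_ae (Eventually.of_forall fun x => ?_)
    simp only
    rw [← integral_mul_const]
    refine integral_congr_ae (Eventually.of_forall fun s => ?_)
    simp only
    ring
  have h2 : ∀ᵐ x ∂I, ∀ q : ℚ, ∫ s, ind (cl q) s * D (s, x) ∂I = 0 :=
    ae_all_iff.2 (fun q => h1 _ (cl_mem q))
  have h3 : ∀ᵐ x ∂I, ∀ᵐ s ∂I, D (s, x) = 0 := by
    filter_upwards [hsw, h2] with x hx1 hx2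
    exact ae_zero_2 hx1 hx2
  have h4 : ∫ p, ‖D p‖ ∂(I.prod I) = 0 := by
    rw [integral_prod_symm _ hD'.norm]
    have : ∫ y, ∫ x, ‖D (x, y)‖ ∂I ∂I = ∫ y, (0 : ℝ) ∂I := by
      refine integral_congr_ae ?_
      filter_upwards [h3] with x hx
      have : ∫ s, ‖D (s, x)‖ ∂I = ∫ s, (0 : ℝ) ∂I := by
        refine integral_congr_ae ?_
        filter_upwards [hx] with s hs
        rw [hs, norm_zero]
      rw [this]; simp
    rw [this]; simp
  rw [integral_eq_zero_iff_of_nonneg (fun p => norm_nonneg _) hD'.norm] at h4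
  filter_upwards [h4] with p hp
  exact norm_eq_zero.1 hp

/-- first form of the solution -/
structure Fst (μ f W k : ℝ × ℝ → ℝ) : Prop where
  Wm : Measurable W
  km : Measurable k
  Wi : Integrable W Q
  Wi2 : Integrable (fun p => W p ^ 2 / μ p) Q
  ki2 : Integrable (fun p => μ p * k p ^ 2) Q
  eq : ∀ p, W p = f p + μ p * k p
  e1 : ∀ t ∈ Set.Icc (0 : ℝ) 1, ∀ ψ : E,
    ∫ p, ind t p.1 * (k p * (ψ : ℝ → ℝ) p.2) ∂Q
      = ∫ p, W p * (max (t - p.1) 0 * deriv (deriv (ψ : ℝ → ℝ)) p.2) ∂Q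
  e2 : ∀ τ ∈ Set.Icc (0 : ℝ) 1, ∀ φ : ℝ → ℝ, ContDiff ℝ 1 φ → φ 1 = φ 0 →
      (∫ p, ind τ p.1 * (W p ^ 2 / μ p) ∂Q) - (∫ p, W p * (ind τ p.1 * deriv φ p.2) ∂Q)
        - (1 / 2) * ∫ x, φ x ^ 2 ∂I ≤ ∫ p, ind τ p.1 * (W p * f p / μ p) ∂Q

theorem exists_fst (h : Dat μ f) : ∃ W k : ℝ × ℝ → ℝ, Fst μ f W k := by
  obtain ⟨u0, hu0, hE0, hI0⟩ := exists_u h
  set u : ℝ × ℝ → ℝ := hu0.1.mk u0 with hudef
  have hum : Measurable u := hu0.1.measurable_mk
  have hae : u0 =ᵐ[Q] u := hu0.1.ae_eq_mk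
  have hu : MemLp u 2 Q := (memLp_congr_ae hae).1 hu0
  have hE : ∀ t ∈ Set.Icc (0 : ℝ) 1, ∀ ψ : E, ∫ p, u p * af μ t ψ p ∂Q
      = ∫ p, (f p / √(μ p)) * jf μ t ψ p ∂Q := by
    intro t ht ψ
    rw [← hE0 t ht ψ]
    refine integral_congr_ae ?_
    filter_upwards [hae] with p hp
    rw [hp]
  have hI : ∀ τ ∈ Set.Icc (0 : ℝ) 1, ∀ φ : ℝ → ℝ, ContDiff ℝ 1 φ → φ 1 = φ 0 →
      (∫ p, ind τ p.1 * u p ^ 2 ∂Q) + (∫ p, u p * bf μ τ φ p ∂Q) - (1 / 2) * ∫ x, φ x ^ 2 ∂I
        ≤ ∫ p, ind τ p.1 * (u p * (f p / √(μ p))) ∂Q := by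
    intro τ hτ φ h1 h2
    have h3 := hI0 τ hτ φ h1 h2
    have a1 : ∫ p, ind τ p.1 * u0 p ^ 2 ∂Q = ∫ p, ind τ p.1 * u p ^ 2 ∂Q := by
      refine integral_congr_ae ?_
      filter_upwards [hae] with p hp
      rw [hp]
    have a2 : ∫ p, u0 p * bf μ τ φ p ∂Q = ∫ p, u p * bf μ τ φ p ∂Q := by
      refine integral_congr_ae ?_
      filter_upwards [hae] with p hp
      rw [hp]
    have a3 : ∫ p, ind τ p.1 * (u0 p * (f p / √(μ p))) ∂Q
        = ∫ p, ind τ p.1 * (u p * (f p / √(μ p))) ∂Q := by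
      refine integral_congr_ae ?_
      filter_upwards [hae] with p hp
      rw [hp]
    rw [a1, a2, a3] at h3
    exact h3
  have hsq : Integrable (fun p => u p ^ 2) Q := hu.integrable_sq
  refine ⟨fun p => √(μ p) * u p, fun p => u p / √(μ p) - f p / μ p, ?_⟩
  have hne : ∀ p, √(μ p) ≠ 0 := fun p => (h.spos p).ne'
  have hmne : ∀ p, μ p ≠ 0 := fun p => (h.pos p).ne'
  refine ⟨h.sm.mul hum, (hum.div h.sm).sub (h.fm.div h.mm), ?_, ?_, ?_, ?_, ?_, ?_⟩
  · exact h.sL.integrable_mul hu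
  · refine hsq.congr (Eventually.of_forall fun p => ?_)
    have h1 := h.sqs p
    beta_reduce
    rw [mul_pow, sq (√(μ p)), h1]
    field_simp [hmne p]
  · have h2 : MemLp (fun p => u p - f p / √(μ p)) 2 Q := hu.sub h.fL
    refine h2.integrable_sq.congr (Eventually.of_forall fun p => ?_)
    have h1 := h.sqs p
    have h3 : f p / μ p = (f p / √(μ p)) / √(μ p) := by
      rw [div_div, h1]
    simp only
    rw [h3, ← sub_div, div_pow, sq (√(μ p)), h1]
    field_simp [hmne p]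
  · intro p
    have h1 := h.sqs p
    have h3 : μ p * (u p / √(μ p)) = √(μ p) * u p := by
      rw [← mul_div_assoc, div_eq_iff (hne p)]
      calc μ p * u p = (√(μ p) * √(μ p)) * u p := by rw [h1]
        _ = _ := by ring
    rw [mul_sub, h3, mul_div_cancel₀ _ (hmne p)]
    ring
  · intro t ht ψ
    have h1 := hE t ht ψ
    have i1 : Integrable (fun p => u p * jf μ t ψ p) Q := hu.integrable_mul (jf_L h t ψ)
    have i2 : Integrable (fun p => u p * (√(μ p) * (max (t - p.1) 0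
        * deriv (deriv (ψ : ℝ → ℝ)) p.2))) Q := by
      have := hu.integrable_mul (af_L h ht ψ)
      refine (i1.sub this).congr (Eventually.of_forall fun p => ?_)
      simp only [af, jf, Pi.sub_apply, Pi.mul_apply]
      ring
    have i3 : Integrable (fun p => (f p / √(μ p)) * jf μ t ψ p) Q :=
      h.fL.integrable_mul (jf_L h t ψ)
    have h2 : ∫ p, u p * af μ t ψ p ∂Q = (∫ p, u p * jf μ t ψ p ∂Q)
        - ∫ p, u p * (√(μ p) * (max (t - p.1) 0 * deriv (deriv (ψ : ℝ → ℝ)) p.2)) ∂Q := by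
      rw [← integral_sub i1 i2]
      refine integral_congr_ae (Eventually.of_forall fun p => ?_)
      simp only [af, jf]
      ring
    have h3 : ∫ p, ind t p.1 * ((u p / √(μ p) - f p / μ p) * (ψ : ℝ → ℝ) p.2) ∂Q
        = (∫ p, u p * jf μ t ψ p ∂Q) - ∫ p, (f p / √(μ p)) * jf μ t ψ p ∂Q := by
      rw [← integral_sub i1 i3]
      refine integral_congr_ae (Eventually.of_forall fun p => ?_)
      simp only [jf]
      have h4 : f p / μ p = (f p / √(μ p)) / √(μ p) := by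
        rw [div_div, h.sqs p]
      rw [h4]
      ring
    rw [h3, ← h1, h2]
    rw [sub_sub_cancel]
    refine integral_congr_ae (Eventually.of_forall fun p => ?_)
    simp only
    ring
  · intro τ hτ φ hφ h01
    have h1 := hI τ hτ φ hφ h01
    have a1 : ∫ p, ind τ p.1 * u p ^ 2 ∂Q = ∫ p, ind τ p.1 * ((√(μ p) * u p) ^ 2 / μ p) ∂Q := by
      refine integral_congr_ae (Eventually.of_forall fun p => ?_)
      simp only
      rw [mul_pow, sq (√(μ p)), h.sqs p]
      field_simp [hmne p]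
    have a2 : ∫ p, u p * bf μ τ φ p ∂Q
        = - ∫ p, √(μ p) * u p * (ind τ p.1 * deriv φ p.2) ∂Q := by
      rw [← integral_neg]
      refine integral_congr_ae (Eventually.of_forall fun p => ?_)
      simp only [bf]
      ring
    have a3 : ∫ p, ind τ p.1 * (u p * (f p / √(μ p))) ∂Q
        = ∫ p, ind τ p.1 * (√(μ p) * u p * f p / μ p) ∂Q := by
      refine integral_congr_ae (Eventually.of_forall fun p => ?_)
      simp only
      congr 1
      have h2 : √(μ p) * u p * f p / μ p = √(μ p) * (u p * f p) / (√(μ p) * √(μ p)) := by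
        rw [h.sqs p]; ring
      rw [h2, mul_div_mul_left _ _ (hne p)]
      ring
    rw [a1, a2, a3] at h1
    linarith

end Pool.Agent.R207.AH
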