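import Pool.Agent.R207.AH6

set_option autoImplicit false

open Filter Topology MeasureTheory

namespace Pool.Agent.R207.AH

variable {μ f W k : ℝ × ℝ → ℝ}

theorem bd_all {F : ℝ → ℝ} (hF : ContinuousOn F (Set.Icc 0 1)) (C : ℝ)
    (h : ∀ᵐ t ∂I, |F t| ≤ C) : ∀ t ∈ Set.Icc (0 : ℝ) 1, |F t| ≤ C := by
  intro t0 ht0
  by_contra hcon
  push Not at hcon
  have h1 : ∀ᶠ t in 𝓝[Set.Icc 0 1] t0, C < |F t| :=
    ((hF t0 ht0).abs).eventually (lt_mem_nhds hcon)
  rw [eventually_nhdsWithin_iff] at h1
  obtain ⟨U, hU1, hU2, hU3⟩ := mem_nhds_iff.1 h1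
  have h2 : (U ∩ Set.Ioo 0 1).Nonempty := by
    have h3 : t0 ∈ closure (Set.Ioo (0 : ℝ) 1) := by
      rw [closure_Ioo (by norm_num)]; exact ht0
    exact mem_closure_iff.1 h3 U hU2 hU3
  have h4 : 0 < volume (U ∩ Set.Ioo (0 : ℝ) 1) := (hU2.inter isOpen_Ioo).measure_pos _ h2
  have h5 : volume (U ∩ Set.Ioo (0 : ℝ) 1) = 0 := by
    unfold I at h
    rw [ae_restrict_iff' measurableSet_Ioc] at h
    refine measure_mono_null (fun t ht => ?_) h
    simp only [Set.mem_compl_iff]
    intro h6
    have h7 := h6 ⟨ht.2.1, ht.2.2.le⟩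
    have h8 := hU1 ht.1 ⟨ht.2.1.le, ht.2.2.le⟩
    linarith
  exact absurd h5 h4.ne'

theorem ZZ_meas (hW : Measurable W) : Measurable (ZZ W) := by
  have h1 : StronglyMeasurable (Function.uncurry fun (p : ℝ × ℝ) (r : ℝ) =>
      ind p.1 r * W (r, p.2)) := by
    refine Measurable.stronglyMeasurable ?_
    exact (ind_mm.comp ((measurable_fst.comp measurable_fst).prodMk measurable_snd)).mul
      (hW.comp (measurable_snd.prodMk (measurable_snd.comp measurable_fst)))
  exact (h1.integral_prod_right (ν := I)).measurable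

theorem P0_meas (hk : Measurable k) : Measurable (P0 k) := by
  have h1 : StronglyMeasurable (Function.uncurry fun (p : ℝ × ℝ) (y : ℝ) =>
      G0 p.2 y * k (p.1, y)) := by
    refine Measurable.stronglyMeasurable ?_
    exact (G0_cont.measurable.comp ((measurable_snd.comp measurable_fst).prodMk
      measurable_snd)).mul
      (hk.comp ((measurable_fst.comp measurable_fst).prodMk measurable_snd))
  exact (h1.integral_prod_right (ν := I)).measurable

theorem P1_meas (hk : Measurable k) : Measurable (P1 k) := by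
  have h1 : StronglyMeasurable (Function.uncurry fun (p : ℝ × ℝ) (y : ℝ) =>
      G1 p.2 y * k (p.1, y)) := by
    refine Measurable.stronglyMeasurable ?_
    exact (G1_meas.comp ((measurable_snd.comp measurable_fst).prodMk
      measurable_snd)).mul
      (hk.comp ((measurable_fst.comp measurable_fst).prodMk measurable_snd))
  exact (h1.integral_prod_right (ν := I)).measurable

theorem Fst.ksq (h : Dat μ f) (F : Fst μ f W k) : Integrable (fun p => k p ^ 2) Q := by
  refine F.ki2.mono' (F.km.pow_const 2).aestronglyMeasurable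
    (Eventually.of_forall fun p => ?_)
  rw [Real.norm_eq_abs, abs_of_nonneg (sq_nonneg _)]
  have := h.m1 p
  nlinarith [sq_nonneg (k p)]

theorem Fst.ki (h : Dat μ f) (F : Fst μ f W k) : Integrable k Q := by
  have h1 : MemLp k 2 Q := (memLp_two_iff_integrable_sq F.km.aestronglyMeasurable).2 (F.ksq h)
  exact h1.integrable (by norm_num)

theorem abs_int_le {w v : ℝ → ℝ} (hw : Integrable w I)
    (hv : ∀ᵐ x ∂I, |v x| ≤ 1) : |∫ x, v x * w x ∂I| ≤ ∫ x, |w x| ∂I := by
  refine (abs_integral_le_integral_abs).trans ?_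
  by_cases hi : Integrable (fun x => v x * w x) I
  · refine integral_mono_ae hi.abs hw.abs ?_
    filter_upwards [hv] with x hx
    rw [abs_mul]
    nlinarith [abs_nonneg (w x)]
  · have h2 : ¬ Integrable (fun x => |v x * w x|) I ∨ Integrable (fun x => |v x * w x|) I :=
      (em _).symm
    rcases h2 with h2 | h2
    · rw [integral_undef h2]
      exact integral_nonneg fun x => abs_nonneg _
    · refine integral_mono_ae h2 hw.abs ?_
      filter_upwards [hv] with x hx
      rw [abs_mul]
      nlinarith [abs_nonneg (w x)]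

theorem Wx_int (F : Fst μ f W k) : ∀ᵐ x ∂I, Integrable (fun s => W (s, x)) I :=
  Integrable.prod_left_ae (f := W) F.Wi

theorem ks_int (h : Dat μ f) (F : Fst μ f W k) : ∀ᵐ s ∂I, Integrable (fun x => k (s, x)) I :=
  Integrable.prod_right_ae (f := k) (F.ki h)

theorem om_int (F : Fst μ f W k) : Integrable (fun x => ∫ s, |W (s, x)| ∂I) I :=
  Integrable.integral_prod_right (f := fun p => |W p|) F.Wi.abs

theorem ka_int (h : Dat μ f) (F : Fst μ f W k) : Integrable (fun s => ∫ x, |k (s, x)| ∂I) I :=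
  Integrable.integral_prod_left (f := fun p => |k p|) (F.ki h).abs

theorem ZZ_le (F : Fst μ f W k) :
    ∀ᵐ x ∂I, ∀ s, |ZZ W (s, x)| ≤ ∫ r, |W (r, x)| ∂I := by
  filter_upwards [Wx_int F] with x hx s
  exact abs_int_le hx (Eventually.of_forall fun r => ind_abs s r)

theorem P0_le (h : Dat μ f) (F : Fst μ f W k) :
    ∀ᵐ s ∂I, ∀ x ∈ Set.Icc (0 : ℝ) 1, |P0 k (s, x)| ≤ ∫ y, |k (s, y)| ∂I := by
  filter_upwards [ks_int h F] with s hs x hx
  exact abs_int_le hs (memI (fun y hy => G0_bd hx hy))

theorem ae_snd {p : ℝ → Prop} (h : ∀ᵐ x ∂I, p x) : ∀ᵐ q : ℝ × ℝ ∂Q, p q.2 := by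
  have : Measure.QuasiMeasurePreserving (Prod.snd : ℝ × ℝ → ℝ) (I.prod I) I :=
    Measure.quasiMeasurePreserving_snd
  exact this.ae h

theorem ae_fst {p : ℝ → Prop} (h : ∀ᵐ x ∂I, p x) : ∀ᵐ q : ℝ × ℝ ∂Q, p q.1 := by
  have : Measure.QuasiMeasurePreserving (Prod.fst : ℝ × ℝ → ℝ) (I.prod I) I :=
    Measure.quasiMeasurePreserving_fst
  exact this.ae h

theorem ae_mem1 : ∀ᵐ q : ℝ × ℝ ∂Q, q.1 ∈ Set.Icc (0 : ℝ) 1 := ae_fst (memI fun _ hx => hx)

theorem ae_mem2 : ∀ᵐ q : ℝ × ℝ ∂Q, q.2 ∈ Set.Icc (0 : ℝ) 1 := ae_snd (memI fun _ hx => hx)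

theorem ZZ_int (F : Fst μ f W k) : Integrable (ZZ W) Q := by
  have h1 : Integrable (fun p : ℝ × ℝ => ∫ s, |W (s, p.2)| ∂I) (I.prod I) :=
    (om_int F).comp_snd I
  refine h1.mono' (ZZ_meas F.Wm).aestronglyMeasurable ?_
  filter_upwards [ae_snd (ZZ_le F)] with p hp
  exact hp p.1

theorem P0_int (h : Dat μ f) (F : Fst μ f W k) : Integrable (P0 k) Q := by
  have h1 : Integrable (fun p : ℝ × ℝ => ∫ s, |k (p.1, s)| ∂I) (I.prod I) :=
    (ka_int h F).comp_fst I
  refine h1.mono' (P0_meas F.km).aestronglyMeasurable ?_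
  filter_upwards [ae_fst (P0_le h F), ae_mem2] with p hp hp2
  exact hp p.2 hp2

/-- spatial mean of `Z - P` -/
noncomputable def cc (W k : ℝ × ℝ → ℝ) (s : ℝ) : ℝ := ∫ x, (ZZ W (s, x) - P0 k (s, x)) ∂I

theorem cc_int (h : Dat μ f) (F : Fst μ f W k) : Integrable (cc W k) I :=
  Integrable.integral_prod_left (f := fun p => ZZ W p - P0 k p) ((ZZ_int F).sub (P0_int h F))

theorem cc_meas (hW : Measurable W) (hk : Measurable k) : Measurable (cc W k) := by
  have h1 : StronglyMeasurable (Function.uncurry fun (s x : ℝ) =>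
      ZZ W (s, x) - P0 k (s, x)) := by
    refine Measurable.stronglyMeasurable ?_
    exact ((ZZ_meas hW).sub (P0_meas hk))
  exact (h1.integral_prod_right (ν := I)).measurable

/-- the constant function `1` in `E` -/
def oneE : E := ⟨fun _ => 1, contDiff_const, rfl, by simp⟩

theorem k_mean_t (F : Fst μ f W k) (t : ℝ) (ht : t ∈ Set.Icc (0 : ℝ) 1) :
    ∫ p, ind t p.1 * k p ∂Q = 0 := by
  have h1 := F.e1 t ht oneE
  have h2 : ∫ p, W p * (max (t - p.1) 0 * deriv (deriv (oneE : ℝ → ℝ)) p.2) ∂Q = 0 := by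
    have h3 : deriv (oneE : ℝ → ℝ) = fun _ => 0 := by
      funext x
      exact deriv_const x 1
    rw [h3]
    simp
  rw [h2] at h1
  rw [← h1]
  refine integral_congr_ae (Eventually.of_forall fun p => ?_)
  simp [oneE]

theorem indk_int (h : Dat μ f) (F : Fst μ f W k) (t : ℝ) :
    Integrable (fun p => ind t p.1 * k p) Q := by
  refine (F.ki h).norm.mono' (((ind_meas t).comp measurable_fst).mul
    F.km).aestronglyMeasurable (Eventually.of_forall fun p => ?_)
  rw [norm_mul]
  have := ind_abs t p.1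
  rw [← Real.norm_eq_abs] at this
  nlinarith [norm_nonneg (k p)]

theorem k_mean (h : Dat μ f) (F : Fst μ f W k) : ∀ᵐ s ∂I, ∫ x, k (s, x) ∂I = 0 := by
  refine ae_zero_2 (Integrable.integral_prod_left (f := k) (F.ki h)) (fun q => ?_)
  rw [← k_mean_t F _ (cl_mem q)]
  unfold Q
  rw [integral_prod _ (indk_int h F _)]
  refine integral_congr_ae (Eventually.of_forall fun s => ?_)
  simp only [integral_const_mul]

theorem bdd_int {D : ℝ × ℝ → ℝ} (hD : Integrable D Q) {b : ℝ × ℝ → ℝ} (hb : Measurable b)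
    (C : ℝ) (hC : ∀ᵐ p ∂Q, |b p| ≤ C) : Integrable (fun p => b p * D p) Q := by
  refine (hD.norm.const_mul C).mono' (hb.aestronglyMeasurable.mul hD.1) ?_
  filter_upwards [hC] with p hp
  rw [norm_mul]
  exact mul_le_mul_of_nonneg_right hp (norm_nonneg _)

theorem indg_int {D : ℝ × ℝ → ℝ} (hD : Integrable D Q) (t : ℝ) {g : ℝ → ℝ}
    (hg : Continuous g) : Integrable (fun p => ind t p.1 * (D p * g p.2)) Q := by
  obtain ⟨C, hC0, hC⟩ := bdd01 hg
  have := bdd_int hD (b := fun p => ind t p.1 * g p.2)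
    (((ind_meas t).comp measurable_fst).mul (hg.measurable.comp measurable_snd)) C
    (by
      filter_upwards [ae_mem2] with p hp
      rw [abs_mul]
      have h1 := ind_abs t p.1
      have h2 := hC p.2 hp
      have := mul_le_mul h1 h2 (abs_nonneg _) zero_le_one
      linarith)
  refine this.congr (Eventually.of_forall fun p => ?_)
  simp only
  ring

theorem indind {t r : ℝ} (ht : t ∈ Set.Icc (0 : ℝ) 1) (hr : r ∈ Set.Icc (0 : ℝ) 1) :
    ∫ s, ind s r * ind t s ∂I = max (t - r) 0 := by
  rw [show (∫ s, ind s r * ind t s ∂I) = ∫ s, ind t s * ind s r ∂I from by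
    simp only [mul_comm]]
  rw [int_ind_int t ht]
  rcases le_total r t with h1 | h1
  · rw [max_eq_left (by linarith)]
    have i1 : ∀ a b : ℝ, IntervalIntegrable (fun s => ind s r) volume a b := by
      intro a b
      refine (intervalIntegrable_const (c := (1 : ℝ))).mono_fun ?_ ?_
      · exact (ind_mm.comp (measurable_id.prodMk measurable_const)).aestronglyMeasurable
      · exact Eventually.of_forall fun s => by
          have := ind_abs s r
          simpa [Real.norm_eq_abs] using this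
    rw [← intervalIntegral.integral_add_adjacent_intervals (i1 0 r) (i1 r t)]
    have h2 : ∫ s in (0 : ℝ)..r, ind s r = ∫ s in (0 : ℝ)..r, (0 : ℝ) := by
      refine intervalIntegral.integral_congr_ae ?_
      have h3 : ∀ᵐ s ∂(volume : Measure ℝ), s ≠ r := by
        simp [ae_iff]
      filter_upwards [h3] with s hs hs2
      rw [Set.uIoc_of_le hr.1] at hs2
      have : ¬ r ≤ s := not_le.2 (lt_of_le_of_ne hs2.2 hs)
      simp [ind, this]
    have h3 : ∫ s in r..t, ind s r = ∫ s in r..t, (1 : ℝ) := by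
      refine intervalIntegral.integral_congr fun s hs => ?_
      rw [Set.uIcc_of_le h1] at hs
      simp [ind, hs.1]
    rw [h2, h3]
    simp
  · rw [max_eq_right (by linarith)]
    have h2 : ∫ s in (0 : ℝ)..t, ind s r = ∫ s in (0 : ℝ)..t, (0 : ℝ) := by
      refine intervalIntegral.integral_congr_ae ?_
      have h3 : ∀ᵐ s ∂(volume : Measure ℝ), s ≠ r := by
        simp [ae_iff]
      filter_upwards [h3] with s hs hs2
      rw [Set.uIoc_of_le ht.1] at hs2
      have : ¬ r ≤ s := not_le.2 (lt_of_le_of_ne (hs2.2.trans h1) hs)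
      simp [ind, this]
    rw [h2]
    simp

theorem Z1 (F : Fst μ f W k) {t : ℝ} (ht : t ∈ Set.Icc (0 : ℝ) 1) {g : ℝ → ℝ}
    (hg : Continuous g) : ∫ p, ind t p.1 * (ZZ W p * g p.2) ∂Q
      = ∫ p, W p * (max (t - p.1) 0 * g p.2) ∂Q := by
  obtain ⟨C, hC0, hC⟩ := bdd01 hg
  have i1 := indg_int (ZZ_int F) t hg
  have i2 : Integrable (fun p : ℝ × ℝ => W p * (max (t - p.1) 0 * g p.2)) Q := by
    have := bdd_int F.Wi (b := fun p => max (t - p.1) 0 * g p.2)
      (((measurable_const.sub measurable_fst).max measurable_const).mul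
        (hg.measurable.comp measurable_snd)) C
      (by
        filter_upwards [ae_mem1, ae_mem2] with p hp1 hp
        rw [abs_mul]
        have h4 : |max (t - p.1) 0| ≤ 1 := by
          rw [abs_of_nonneg (le_max_right _ _)]
          refine max_le ?_ zero_le_one
          linarith [hp1.1, ht.2]
        have h2 := hC p.2 hp
        have := mul_le_mul h4 h2 (abs_nonneg _) zero_le_one
        linarith)
    refine this.congr (Eventually.of_forall fun p => ?_)
    simp only
    ring
  unfold Q at i1 i2 ⊢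
  rw [integral_prod_symm _ i1, integral_prod_symm _ i2]
  refine integral_congr_ae ?_
  filter_upwards [Wx_int F] with x hx
  have h1 := fub (fun p => ind p.1 p.2) ind_mm 1 (fun s _ r _ => ind_abs s r) (φ := ind t)
    (w := fun r => W (r, x)) (ind_int t) hx
  simp only at h1
  calc ∫ s, ind t s * (ZZ W (s, x) * g x) ∂I
      = (∫ s, ind t s * (∫ r, ind s r * W (r, x) ∂I) ∂I) * g x := by
        rw [← integral_mul_const]
        refine integral_congr_ae (Eventually.of_forall fun s => ?_)
        simp only [ZZ]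
        ring
    _ = (∫ r, W (r, x) * (∫ s, ind s r * ind t s ∂I) ∂I) * g x := by rw [h1]
    _ = (∫ r, W (r, x) * max (t - r) 0 ∂I) * g x := by
        congr 1
        refine integral_congr_ae (memI fun r hr => ?_)
        beta_reduce
        rw [indind ht hr]
    _ = _ := by
        rw [← integral_mul_const]
        refine integral_congr_ae (Eventually.of_forall fun s => ?_)
        simp only
        ring

theorem P1int (h : Dat μ f) (F : Fst μ f W k) {t : ℝ} {g : ℝ → ℝ}
    (hg : Continuous g) : ∫ p, ind t p.1 * (P0 k p * g p.2) ∂Q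
      = ∫ p, ind t p.1 * (k p * (∫ x, G0 x p.2 * g x ∂I)) ∂Q := by
  have i1 := indg_int (P0_int h F) t hg
  have hm : Measurable (fun y : ℝ => ∫ x, G0 x y * g x ∂I) := by
    have h1 : StronglyMeasurable (Function.uncurry fun (y x : ℝ) => G0 x y * g x) := by
      refine Measurable.stronglyMeasurable ?_
      exact (G0_cont.measurable.comp measurable_swap).mul (hg.measurable.comp measurable_snd)
    exact (h1.integral_prod_right (ν := I)).measurable
  have i2 : Integrable (fun p : ℝ × ℝ => ind t p.1 * (k p * (∫ x, G0 x p.2 * g x ∂I))) Q := by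
    have := bdd_int (F.ki h) (b := fun p => ind t p.1 * (∫ x, G0 x p.2 * g x ∂I))
      (((ind_meas t).comp measurable_fst).mul (hm.comp measurable_snd)) (∫ x, |g x| ∂I)
      (by
        filter_upwards [ae_mem2] with p hp
        rw [abs_mul]
        have h2 : |∫ x, G0 x p.2 * g x ∂I| ≤ ∫ x, |g x| ∂I :=
          abs_int_le (intble_I hg) (memI fun x hx => G0_bd hx hp)
        have := mul_le_mul (ind_abs t p.1) h2 (abs_nonneg _) zero_le_one
        linarith)
    refine this.congr (Eventually.of_forall fun p => ?_)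
    simp only
    ring
  unfold Q at i1 i2 ⊢
  rw [integral_prod _ i1, integral_prod _ i2]
  refine integral_congr_ae ?_
  filter_upwards [ks_int h F] with s hs
  have h1 := fub (fun p => G0 p.1 p.2) G0_cont.measurable 1 (fun x hx y hy => G0_bd hx hy)
    (φ := g) (w := fun y => k (s, y)) (intble_I hg) hs
  simp only at h1
  calc ∫ x, ind t s * (P0 k (s, x) * g x) ∂I
      = ind t s * ∫ x, g x * (∫ y, G0 x y * k (s, y) ∂I) ∂I := by
        rw [← integral_const_mul]
        refine integral_congr_ae (Eventually.of_forall fun s => ?_)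
        simp only [P0]
        ring
    _ = ind t s * ∫ y, k (s, y) * (∫ x, G0 x y * g x ∂I) ∂I := by rw [h1]
    _ = _ := by
        rw [← integral_const_mul]

theorem K3 {y : ℝ} (hy : y ∈ Set.Icc (0 : ℝ) 1) (ψ : E) :
    ∫ x, G0 x y * deriv (deriv (ψ : ℝ → ℝ)) x ∂I = (ψ : ℝ → ℝ) y - (ψ : ℝ → ℝ) 1 := by
  have h2 : ContDiff ℝ 1 (ψ : ℝ → ℝ) := (E_cd ψ).of_le (by norm_num)
  rw [K1 hy (E_cd1 ψ), K2 hy h2 ψ.2.2.1]
  ring

/-- the representation of `Z` -/
theorem repr_Z (h : Dat μ f) (F : Fst μ f W k) :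
    ∀ᵐ p ∂Q, ZZ W p = P0 k p + cc W k p.1 := by
  have hcc : Integrable (fun p : ℝ × ℝ => cc W k p.1) Q := (cc_int h F).comp_fst I
  have hD : Integrable (fun p => ZZ W p - P0 k p - cc W k p.1) Q :=
    ((ZZ_int F).sub (P0_int h F)).sub hcc
  have h0 := ae_zero_Q hD (fun t ht g hg => ?_)
  · filter_upwards [h0] with p hp
    linarith
  · -- the key computation
    set gb : ℝ := ∫ x, g x ∂I with hgb
    have hh : Continuous (fun x => g x - gb) := hg.sub continuous_const
    have hh0 : ∫ x, (g x - gb) ∂I = 0 := by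
      rw [integral_sub (intble_I hg) (integrable_const _)]
      simp [hgb]
    obtain ⟨ψ, hψ⟩ := exists_E hh hh0
    have hψ' : deriv (deriv (ψ : ℝ → ℝ)) = fun x => g x - gb := funext hψ
    have a1 : ∫ p, ind t p.1 * (ZZ W p * (g p.2 - gb)) ∂Q
        = ∫ p, ind t p.1 * (k p * (ψ : ℝ → ℝ) p.2) ∂Q := by
      rw [Z1 F ht hh, F.e1 t ht ψ, hψ']
    have i3 := indg_int (F.ki h) t (E_cont ψ)
    have i4 := indk_int h F t
    have a2 : ∫ p, ind t p.1 * (P0 k p * (g p.2 - gb)) ∂Q
        = ∫ p, ind t p.1 * (k p * (ψ : ℝ → ℝ) p.2) ∂Q := by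
      rw [P1int h F hh]
      have : ∫ p, ind t p.1 * (k p * (∫ x, G0 x p.2 * (g x - gb) ∂I)) ∂Q
          = ∫ p, (ind t p.1 * (k p * (ψ : ℝ → ℝ) p.2)
            - (ψ : ℝ → ℝ) 1 * (ind t p.1 * k p)) ∂Q := by
        refine integral_congr_ae ?_
        filter_upwards [ae_mem2] with p hp
        have h5 := K3 hp ψ
        rw [hψ'] at h5
        rw [h5]
        ring
      rw [this, integral_sub i3 (i4.const_mul _), integral_const_mul, k_mean_t F t ht]
      ring
    have i5 := indg_int (ZZ_int F) t hh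
    have i6 := indg_int (P0_int h F) t hh
    have i7 := indg_int (ZZ_int F) t (continuous_const (y := gb))
    have i8 := indg_int (P0_int h F) t (continuous_const (y := gb))
    have i9 := indg_int hcc t hg
    have a3 : ∫ p, ind t p.1 * ((ZZ W p - P0 k p - cc W k p.1) * g p.2) ∂Q
        = (∫ p, ind t p.1 * (ZZ W p * (g p.2 - gb)) ∂Q)
          - (∫ p, ind t p.1 * (P0 k p * (g p.2 - gb)) ∂Q)
          + ((∫ p, ind t p.1 * ((ZZ W p - P0 k p) * gb) ∂Q)
          - ∫ p, ind t p.1 * (cc W k p.1 * g p.2) ∂Q) := by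
      have i10 : Integrable (fun p : ℝ × ℝ => ind t p.1 * ((ZZ W p - P0 k p) * gb)) Q :=
        indg_int ((ZZ_int F).sub (P0_int h F)) t (continuous_const (y := gb))
      have i11 : Integrable (fun p : ℝ × ℝ => ind t p.1 * (ZZ W p * (g p.2 - gb))
          - ind t p.1 * (P0 k p * (g p.2 - gb))) Q := i5.sub i6
      have i12 : Integrable (fun p : ℝ × ℝ => ind t p.1 * ((ZZ W p - P0 k p) * gb)
          - ind t p.1 * (cc W k p.1 * g p.2)) Q := i10.sub i9
      rw [← integral_sub i5 i6, ← integral_sub i10 i9, ← integral_add i11 i12]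
      refine integral_congr_ae (Eventually.of_forall fun p => ?_)
      simp only
      ring
    have a4 : ∫ p, ind t p.1 * ((ZZ W p - P0 k p) * gb) ∂Q
        = ∫ p, ind t p.1 * (cc W k p.1 * g p.2) ∂Q := by
      have i10 : Integrable (fun p : ℝ × ℝ => ind t p.1 * ((ZZ W p - P0 k p) * gb)) Q :=
        indg_int ((ZZ_int F).sub (P0_int h F)) t (continuous_const (y := gb))
      unfold Q at i9 i10 ⊢
      rw [integral_prod _ i9]
      have i11 : Integrable (fun p => ind t p.1 * ((ZZ W p - P0 k p) * gb)) (I.prod I) := i10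
      rw [integral_prod _ i11]
      refine integral_congr_ae (Eventually.of_forall fun s => ?_)
      simp only
      rw [integral_const_mul, integral_const_mul, integral_mul_const, integral_const_mul]
      rfl
    rw [a3, a1, a2, a4]
    ring

end Pool.Agent.R207.AH
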