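import Pool.Agent.R207.AH7

set_option autoImplicit false

open Filter Topology MeasureTheory

namespace Pool.Agent.R207.AH

variable {μ f W k : ℝ × ℝ → ℝ}

theorem w_P0 (h : Dat μ f) (F : Fst μ f W k) : ∀ᵐ s ∂I, ∀ φ : ℝ → ℝ, ContDiff ℝ 1 φ →
    ∫ x, P0 k (s, x) * deriv φ x ∂I = - ∫ x, P1 k (s, x) * φ x ∂I := by
  filter_upwards [ks_int h F] with s hs φ hφ
  have hc1 := hφ.continuous_deriv le_rfl
  have h1 := fub (fun p => G0 p.1 p.2) G0_cont.measurable 1 (fun x hx y hy => G0_bd hx hy)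
    (φ := deriv φ) (w := fun y => k (s, y)) (intble_I hc1) hs
  have h2 := fub (fun p => G1 p.1 p.2) G1_meas 1 (fun x hx y hy => G1_bd hy)
    (φ := φ) (w := fun y => k (s, y)) (intble_I hφ.continuous) hs
  simp only at h1 h2
  have a1 : ∫ x, P0 k (s, x) * deriv φ x ∂I
      = ∫ x, deriv φ x * (∫ y, G0 x y * k (s, y) ∂I) ∂I := by
    refine integral_congr_ae (Eventually.of_forall fun x => ?_)
    simp only [P0]
    ring
  have a2 : ∫ x, P1 k (s, x) * φ x ∂I
      = ∫ x, φ x * (∫ y, G1 x y * k (s, y) ∂I) ∂I := by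
    refine integral_congr_ae (Eventually.of_forall fun x => ?_)
    simp only [P1]
    ring
  rw [a1, a2, h1, h2, ← integral_neg]
  refine integral_congr_ae (memI fun y hy => ?_)
  beta_reduce
  rw [K1 hy hφ]
  ring

theorem w_P1 (h : Dat μ f) (F : Fst μ f W k) : ∀ᵐ s ∂I, ∀ φ : ℝ → ℝ, ContDiff ℝ 1 φ →
    φ 1 = φ 0 → ∫ x, P1 k (s, x) * deriv φ x ∂I = - ∫ x, k (s, x) * φ x ∂I := by
  filter_upwards [ks_int h F, k_mean h F] with s hs hs0 φ hφ h01
  have hc1 := hφ.continuous_deriv le_rfl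
  have h1 := fub (fun p => G1 p.1 p.2) G1_meas 1 (fun x hx y hy => G1_bd hy)
    (φ := deriv φ) (w := fun y => k (s, y)) (intble_I hc1) hs
  simp only at h1
  have a1 : ∫ x, P1 k (s, x) * deriv φ x ∂I
      = ∫ x, deriv φ x * (∫ y, G1 x y * k (s, y) ∂I) ∂I := by
    refine integral_congr_ae (Eventually.of_forall fun x => ?_)
    simp only [P1]
    ring
  have i1 : Integrable (fun y => k (s, y) * φ y) I := by
    obtain ⟨C, hC0, hC⟩ := bdd01 hφ.continuous
    refine (hs.norm.const_mul C).mono' (hs.1.mul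
      hφ.continuous.measurable.aestronglyMeasurable) (memI fun y hy => ?_)
    rw [norm_mul, mul_comm]
    exact mul_le_mul_of_nonneg_right (hC y hy) (norm_nonneg _)
  have a2 : ∫ y, k (s, y) * (∫ x, G1 x y * deriv φ x ∂I) ∂I
      = ∫ y, (k (s, y) * φ 1 - k (s, y) * φ y) ∂I := by
    refine integral_congr_ae (memI fun y hy => ?_)
    beta_reduce
    rw [K2 hy hφ h01]
    ring
  rw [a1, h1, a2, integral_sub (hs.mul_const _) i1, integral_mul_const, hs0]
  ring

theorem w_Z (h : Dat μ f) (F : Fst μ f W k) : ∀ᵐ s ∂I, ∀ φ : ℝ → ℝ, ContDiff ℝ 1 φ →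
    φ 1 = φ 0 → ∫ x, ZZ W (s, x) * deriv φ x ∂I = - ∫ x, P1 k (s, x) * φ x ∂I := by
  have h0 : ∀ᵐ s ∂I, ∀ᵐ x ∂I, ZZ W (s, x) = P0 k (s, x) + cc W k s :=
    Measure.ae_ae_of_ae_prod (repr_Z h F)
  have hPi : ∀ᵐ s ∂I, Integrable (fun x => P0 k (s, x)) I :=
    Integrable.prod_right_ae (f := P0 k) (P0_int h F)
  filter_upwards [h0, w_P0 h F, hPi] with s hs hs2 hs3 φ hφ h01
  have hc1 := hφ.continuous_deriv le_rfl
  rw [← hs2 φ hφ]
  have i1 : Integrable (fun y => P0 k (s, y) * deriv φ y) I := by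
    obtain ⟨C, hC0, hC⟩ := bdd01 hc1
    refine (hs3.norm.const_mul C).mono' (hs3.1.mul
      hc1.measurable.aestronglyMeasurable) (memI fun y hy => ?_)
    rw [norm_mul, mul_comm]
    exact mul_le_mul_of_nonneg_right (hC y hy) (norm_nonneg _)
  have a1 : ∫ x, ZZ W (s, x) * deriv φ x ∂I
      = ∫ x, (P0 k (s, x) * deriv φ x + cc W k s * deriv φ x) ∂I := by
    refine integral_congr_ae ?_
    filter_upwards [hs] with x hx
    rw [hx]; ring
  have a2 : ∫ x, deriv φ x ∂I = 0 := by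
    rw [int_I, intervalIntegral.integral_eq_sub_of_hasDerivAt (f := φ)
      (fun x _ => ((hφ.differentiable (by norm_num)) x).hasDerivAt)
      (hc1.intervalIntegrable _ _), h01, sub_self]
  rw [a1, integral_add i1 ((intble_I hc1).const_mul _), integral_const_mul, a2]
  ring

noncomputable def C0 (μ f W : ℝ × ℝ → ℝ) : ℝ := ∫ p, |W p * f p / μ p| ∂Q

theorem Wf_int (h : Dat μ f) (F : Fst μ f W k) : Integrable (fun p => W p * f p / μ p) Q := by
  refine (F.Wi2.add h.fi).mono' ((F.Wm.mul h.fm).div h.mm).aestronglyMeasurable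
    (Eventually.of_forall fun p => ?_)
  rw [Real.norm_eq_abs, abs_div, abs_of_pos (h.pos p), Pi.add_apply, ← add_div]
  refine div_le_div_of_nonneg_right ?_ (h.pos p).le
  rw [abs_mul]
  nlinarith [sq_abs (W p), sq_abs (f p), sq_nonneg (|W p| - |f p|), sq_nonneg (|W p|),
    sq_nonneg (|f p|)]

/-- the energy inequality -/
theorem energy_Z (h : Dat μ f) (F : Fst μ f W k) {τ : ℝ} (hτ : τ ∈ Set.Icc (0 : ℝ) 1)
    {φ : ℝ → ℝ} (hφ : ContDiff ℝ 1 φ) (h01 : φ 1 = φ 0) :
    (∫ p, ind τ p.1 * (W p ^ 2 / μ p) ∂Q) - (∫ x, ZZ W (τ, x) * deriv φ x ∂I)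
        - (1 / 2) * ∫ x, φ x ^ 2 ∂I ≤ ∫ p, ind τ p.1 * (W p * f p / μ p) ∂Q := by
  have h1 := F.e2 τ hτ φ hφ h01
  have hc1 := hφ.continuous_deriv le_rfl
  have i1 : Integrable (fun p : ℝ × ℝ => W p * (ind τ p.1 * deriv φ p.2)) (I.prod I) := by
    refine (indg_int F.Wi τ hc1).congr (Eventually.of_forall fun p => ?_)
    simp only
    ring
  have h2 : ∫ p, W p * (ind τ p.1 * deriv φ p.2) ∂Q = ∫ x, ZZ W (τ, x) * deriv φ x ∂I := by
    unfold Q
    rw [integral_prod_symm _ i1]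
    refine integral_congr_ae (Eventually.of_forall fun x => ?_)
    simp only [ZZ]
    rw [← integral_mul_const]
    refine integral_congr_ae (Eventually.of_forall fun r => ?_)
    simp only
    ring
  rw [h2] at h1
  exact h1

theorem indle (h : Dat μ f) (F : Fst μ f W k) (τ : ℝ) :
    ∫ p, ind τ p.1 * (W p * f p / μ p) ∂Q ≤ C0 μ f W := by
  refine integral_mono_ae ?_ (Wf_int h F).abs (Eventually.of_forall fun p => ?_)
  · exact bdd_int (Wf_int h F) ((ind_meas τ).comp measurable_fst) 1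
      (Eventually.of_forall fun q => ind_abs τ q.1)
  · refine (le_abs_self _).trans ?_
    rw [abs_mul]
    have := ind_abs τ p.1
    nlinarith [abs_nonneg (W p * f p / μ p)]

theorem C0_nonneg : 0 ≤ C0 μ f W := integral_nonneg fun p => abs_nonneg _

theorem P1_test (h : Dat μ f) (F : Fst μ f W k) : ∀ᵐ s ∂I, ∀ φ : ℝ → ℝ, ContDiff ℝ 1 φ →
    φ 1 = φ 0 → ∫ x, P1 k (s, x) * φ x ∂I ≤ (1 / 2) * (∫ x, φ x ^ 2 ∂I) + C0 μ f W := by
  have hm : ∀ᵐ s ∂I, s ∈ Set.Icc (0 : ℝ) 1 := memI fun _ hx => hx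
  filter_upwards [w_Z h F, hm] with s hs hs1 φ hφ h01
  have h1 := energy_Z h F hs1 hφ h01
  rw [hs φ hφ h01] at h1
  have h2 := indle h F s
  have h3 : 0 ≤ ∫ p, ind s p.1 * (W p ^ 2 / μ p) ∂Q := by
    refine integral_nonneg fun p => ?_
    refine mul_nonneg ?_ (div_nonneg (sq_nonneg _) (h.pos p).le)
    unfold ind; split_ifs <;> norm_num
  linarith

theorem P1_eq {w : ℝ → ℝ} (hw : Integrable w I) (x : ℝ) :
    ∫ y, G1 x y * w y ∂I = (∫ y, ind x y * w y ∂I) - ∫ y, (1 - y) * w y ∂I := by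
  have i1 : Integrable (fun y => ind x y * w y) I := by
    refine hw.norm.mono' ((ind_meas x).aestronglyMeasurable.mul hw.1)
      (Eventually.of_forall fun y => ?_)
    rw [norm_mul]
    have := ind_abs x y
    rw [← Real.norm_eq_abs] at this
    nlinarith [norm_nonneg (w y)]
  have i2 : Integrable (fun y => (1 - y) * w y) I := by
    refine hw.norm.mono' ((measurable_const.sub measurable_id).aestronglyMeasurable.mul hw.1)
      (memI fun y hy => ?_)
    rw [norm_mul, Real.norm_eq_abs, abs_of_nonneg (by linarith [hy.2])]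
    nlinarith [norm_nonneg (w y), hy.1]
  rw [← integral_sub i1 i2]
  refine integral_congr_ae ?_
  have h3 : ∀ᵐ y ∂I, y ≠ x := by
    unfold I
    refine ae_restrict_of_ae ?_
    simp [ae_iff]
  filter_upwards [h3] with y hy
  simp only [G1, ind]
  by_cases h4 : y < x
  · simp [h4, h4.le]; ring
  · have h5 : ¬ y ≤ x := fun h6 => h4 (lt_of_le_of_ne h6 hy)
    simp [h4, h5]; ring

theorem P1_L2 (h : Dat μ f) (F : Fst μ f W k) : ∀ᵐ s ∂I,
    MemLp (fun x => P1 k (s, x)) 2 I ∧ ∫ x, P1 k (s, x) ^ 2 ∂I ≤ 2 * C0 μ f W := by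
  filter_upwards [P1_test h F, ks_int h F, k_mean h F] with s hs hs1 hs2
  set H : ℝ → ℝ := fun x => P1 k (s, x) with hH
  have hHc : ContinuousOn H (Set.Icc 0 1) := by
    have h1 := (prim_cont hs1).sub (continuousOn_const (c := ∫ y, (1 - y) * k (s, y) ∂I))
    refine h1.congr (fun x _ => ?_)
    simp only [hH, P1]
    rw [P1_eq hs1]
    rfl
  have hH0 : H 1 = H 0 := by
    simp only [hH, P1]
    rw [P1_eq hs1, P1_eq hs1]
    have h2 : ∫ y, ind 1 y * k (s, y) ∂I = ∫ y, k (s, y) ∂I := by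
      refine integral_congr_ae (memI fun y hy => ?_)
      simp [ind, hy.2]
    have h3 : ∫ y, ind 0 y * k (s, y) ∂I = 0 := by
      rw [int_ind_int 0 ⟨le_rfl, zero_le_one⟩]
      simp
    rw [h2, h3, hs2]
  obtain ⟨B, hB⟩ := isCompact_Icc.exists_bound_of_continuousOn hHc
  have hHm : AEStronglyMeasurable H I := by
    have h1 : Measurable H := by
      have h2 : Measurable (fun y => k (s, y)) := F.km.comp (measurable_const.prodMk measurable_id)
      have h3 : StronglyMeasurable (Function.uncurry fun (x : ℝ) (y : ℝ) =>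
          G1 x y * k (s, y)) := by
        refine Measurable.stronglyMeasurable ?_
        exact G1_meas.mul (h2.comp measurable_snd)
      exact (h3.integral_prod_right (ν := I)).measurable
    exact h1.aestronglyMeasurable
  have hHb : ∀ᵐ x ∂I, ‖H x‖ ≤ B := memI fun x hx => hB x hx
  have hH2 : MemLp H 2 I := MemLp.of_bound hHm B hHb
  refine ⟨hH2, ?_⟩
  have hHi := hH2.integrable_sq
  have key : ∀ ε > 0, ε ≤ 1 → ∫ x, H x ^ 2 ∂I ≤ 2 * C0 μ f W + 9 * ε := by
    intro ε hε hε1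
    obtain ⟨p, hp⟩ := exists_polynomial_near_of_continuousOn 0 1 H hHc ε hε
    let φ : ℝ → ℝ := fun x => p.eval x - (p.eval 1 - p.eval 0) * x
    have hφ : ContDiff ℝ 1 φ := by
      refine ContDiff.sub ?_ ?_
      · exact Polynomial.contDiff_aeval (𝕜 := ℝ) p 1
      · exact contDiff_const.mul contDiff_id
    have h01 : φ 1 = φ 0 := by simp [φ]
    have hd : ∀ x ∈ Set.Icc (0 : ℝ) 1, |H x - φ x| ≤ 3 * ε := by
      intro x hx
      have a1 := hp x hx
      have a2 := hp 1 ⟨zero_le_one, le_rfl⟩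
      have a3 := hp 0 ⟨le_rfl, zero_le_one⟩
      rw [abs_lt] at a1 a2 a3
      rw [hH0] at a2
      have a4 : |(p.eval 1 - p.eval 0) * x| ≤ 2 * ε := by
        rw [abs_mul]
        have a5 : |p.eval 1 - p.eval 0| ≤ 2 * ε := by
          rw [abs_le]; constructor <;> linarith
        have a6 : |x| ≤ 1 := by rw [abs_of_nonneg hx.1]; exact hx.2
        nlinarith [abs_nonneg x, abs_nonneg (p.eval 1 - p.eval 0)]
      rw [abs_le] at a4
      simp only [φ]
      rw [abs_le]
      constructor <;> linarith [a4.1, a4.2, a1.1, a1.2]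
    have h1 := hs φ hφ h01
    have hφL : MemLp φ 2 I := by
      obtain ⟨C, _, hC⟩ := bdd01 hφ.continuous
      exact MemLp.of_bound hφ.continuous.measurable.aestronglyMeasurable C
        (memI fun x hx => hC x hx)
    have i1 : Integrable (fun x => H x * φ x) I := hH2.integrable_mul hφL
    have i2 := hφL.integrable_sq
    have h2 : ∫ x, (H x - φ x) ^ 2 ∂I ≤ 9 * ε := by
      have h3 : ∫ x, (H x - φ x) ^ 2 ∂I ≤ ∫ x, (9 * ε) ∂I := by
        refine integral_mono_ae (hH2.sub hφL).integrable_sq (integrable_const _)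
          (memI fun x hx => ?_)
        have := hd x hx
        beta_reduce
        rw [← sq_abs]
        have h4 := abs_nonneg (H x - φ x)
        nlinarith
      simpa using h3
    have h3 : ∫ x, (H x - φ x) ^ 2 ∂I
        = (∫ x, H x ^ 2 ∂I) - 2 * (∫ x, H x * φ x ∂I) + ∫ x, φ x ^ 2 ∂I := by
      have i3 : Integrable (fun x => 2 * (H x * φ x)) I := i1.const_mul 2
      have i4 : Integrable (fun x => H x ^ 2 - 2 * (H x * φ x)) I := hHi.sub i3
      rw [← integral_const_mul, ← integral_sub hHi i3, ← integral_add i4 i2]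
      refine integral_congr_ae (Eventually.of_forall fun x => ?_)
      simp only
      ring
    have h4 : ∫ x, H x * φ x ∂I ≤ (1 / 2) * (∫ x, φ x ^ 2 ∂I) + C0 μ f W := h1
    linarith
  refine le_of_forall_pos_le_add (fun δ hδ => ?_)
  have := key (min 1 (δ / 9)) (lt_min one_pos (by positivity)) (min_le_left _ _)
  have h5 : min 1 (δ / 9) ≤ δ / 9 := min_le_right _ _
  linarith

end Pool.Agent.R207.AH
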