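import Pool.Agent.R207.AH8

set_option autoImplicit false

open Filter Topology MeasureTheory

namespace Pool.Agent.R207.AH

variable {μ f W k : ℝ × ℝ → ℝ}

theorem ae_swap {p : ℝ → ℝ → Prop} (h : ∀ᵐ q : ℝ × ℝ ∂Q, p q.1 q.2) :
    ∀ᵐ x ∂I, ∀ᵐ s ∂I, p s x := by
  have h1 : ∀ᵐ q : ℝ × ℝ ∂(I.prod I), p q.2 q.1 :=
    ((Measure.measurePreserving_swap (μ := I) (ν := I)).quasiMeasurePreserving.ae h)
  exact Measure.ae_ae_of_ae_prod h1

theorem K4 {x y : ℝ} (hx : x ∈ Set.Icc (0 : ℝ) 1) (hy : y ∈ Set.Icc (0 : ℝ) 1) :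
    ∫ ξ, G1 ξ y * ind x ξ ∂I = G0 x y := by
  have h3 : ∀ᵐ ξ ∂I, ξ ≠ y := by
    unfold I
    refine ae_restrict_of_ae ?_
    simp [ae_iff]
  have h1 : ∫ ξ, G1 ξ y * ind x ξ ∂I = ∫ ξ, (ind ξ y * ind x ξ - (1 - y) * ind x ξ) ∂I := by
    refine integral_congr_ae ?_
    filter_upwards [h3] with ξ hξ
    simp only [G1, ind]
    by_cases h4 : y < ξ
    · simp [h4, h4.le]
      split_ifs <;> ring
    · have h5 : ¬ y ≤ ξ := fun h6 => h4 (lt_of_le_of_ne h6 (Ne.symm hξ))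
      simp [h4, h5]
      split_ifs <;> ring
  have i1 : Integrable (fun ξ => ind ξ y * ind x ξ) I := by
    refine (integrable_const (1 : ℝ)).mono' (((ind_mm.comp
      (measurable_id.prodMk measurable_const)).mul (ind_meas x)).aestronglyMeasurable)
      (Eventually.of_forall fun ξ => ?_)
    rw [Real.norm_eq_abs, abs_mul]
    nlinarith [ind_abs ξ y, ind_abs x ξ, abs_nonneg (ind ξ y), abs_nonneg (ind x ξ)]
  rw [h1, integral_sub i1 ((ind_int x).const_mul _), indind hx hy, integral_const_mul,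
    int_ind hx]
  unfold G0
  rcases le_total x y with h | h
  · rw [max_eq_right (by linarith), min_eq_left h, max_eq_right h]; ring
  · rw [max_eq_left (by linarith), min_eq_right h, max_eq_left h]; ring

theorem P0_bd (h : Dat μ f) (F : Fst μ f W k) : ∀ᵐ s ∂I, ∀ x ∈ Set.Icc (0 : ℝ) 1,
    |P0 k (s, x)| ≤ (1 / 2) * (1 + 2 * C0 μ f W) := by
  filter_upwards [P1_L2 h F, ks_int h F] with s hs hs1 x hx
  have h1 := fub (fun p => G1 p.1 p.2) G1_meas 1 (fun x hx y hy => G1_bd hy)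
    (φ := fun ξ => ind x ξ) (w := fun y => k (s, y)) (ind_int x) hs1
  simp only at h1
  have h2 : P0 k (s, x) = ∫ ξ, ind x ξ * P1 k (s, ξ) ∂I := by
    simp only [P0, P1]
    rw [h1]
    refine integral_congr_ae (memI fun y hy => ?_)
    beta_reduce
    rw [K4 hx hy]
    ring
  have h3 : Integrable (fun ξ => P1 k (s, ξ)) I := hs.1.integrable (by norm_num)
  rw [h2]
  refine (abs_int_le h3 (Eventually.of_forall fun ξ => ind_abs x ξ)).trans ?_
  have h4 : ∫ ξ, |P1 k (s, ξ)| ∂I ≤ ∫ ξ, (1 / 2) * (1 + P1 k (s, ξ) ^ 2) ∂I := by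
    refine integral_mono_ae h3.abs
      (((integrable_const _).add hs.1.integrable_sq).const_mul _)
      (Eventually.of_forall fun ξ => ?_)
    simp only
    nlinarith [sq_nonneg (|P1 k (s, ξ)| - 1), sq_abs (P1 k (s, ξ))]
  refine h4.trans ?_
  rw [integral_const_mul, integral_add (integrable_const _) hs.1.integrable_sq]
  simp only [integral_const, probReal_univ, smul_eq_mul, mul_one]
  linarith [hs.2]

theorem ZZ_bd (h : Dat μ f) (F : Fst μ f W k) : ∃ B : ℝ, ∀ᵐ x ∂I, ∀ s ∈ Set.Icc (0 : ℝ) 1,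
    |ZZ W (s, x)| ≤ B := by
  set c1 : ℝ := (1 / 2) * (1 + 2 * C0 μ f W) with hc1
  set c2 : ℝ := ∫ x, ∫ s, |W (s, x)| ∂I ∂I with hc2
  have hcc : ∀ᵐ s ∂I, |cc W k s| ≤ c2 + c1 := by
    have a1 : ∀ᵐ s ∂I, Integrable (fun x => ZZ W (s, x)) I :=
      Integrable.prod_right_ae (f := ZZ W) (ZZ_int F)
    have a2 : ∀ᵐ s ∂I, Integrable (fun x => P0 k (s, x)) I :=
      Integrable.prod_right_ae (f := P0 k) (P0_int h F)
    filter_upwards [a1, a2, P0_bd h F] with s h1 h2 h3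
    unfold cc
    refine (abs_integral_le_integral_abs).trans ?_
    have h4 : ∫ x, |ZZ W (s, x) - P0 k (s, x)| ∂I
        ≤ ∫ x, ((∫ r, |W (r, x)| ∂I) + c1) ∂I := by
      refine integral_mono_ae (h1.sub h2).abs ((om_int F).add (integrable_const _)) ?_
      have hm : ∀ᵐ x ∂I, x ∈ Set.Icc (0 : ℝ) 1 := memI fun _ hx => hx
      filter_upwards [ZZ_le F, hm] with x hx1 hx2
      refine (abs_sub _ _).trans ?_
      exact add_le_add (hx1 s) (h3 x hx2)
    refine h4.trans ?_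
    rw [integral_add (om_int F) (integrable_const _)]
    simp [hc2]
  have h1 : ∀ᵐ q : ℝ × ℝ ∂Q, |ZZ W (q.1, q.2)| ≤ c1 + (c2 + c1) := by
    filter_upwards [repr_Z h F, ae_fst (P0_bd h F), ae_fst hcc, ae_mem2] with q h1 h2 h3 h4
    rw [h1]
    exact (abs_add_le _ _).trans (add_le_add (h2 q.2 h4) h3)
  have h2 := ae_swap (p := fun s x => |ZZ W (s, x)| ≤ c1 + (c2 + c1)) h1
  refine ⟨c1 + (c2 + c1), ?_⟩
  filter_upwards [h2, Wx_int F] with x hx hx2
  exact bd_all (prim_cont hx2) _ hx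

/-- the function class of the problem, in one space dimension, with zero initial value -/
structure Cls (μ Φ Φx Φxx Φs : ℝ × ℝ → ℝ) : Prop where
  m0 : Measurable Φ
  m1 : Measurable Φx
  m2 : Measurable Φxx
  m3 : Measurable Φs
  bd : ∃ C : ℝ, ∀ᵐ x ∂I, ∀ s ∈ Set.Icc (0 : ℝ) 1, |Φ (s, x)| ≤ C
  si : Integrable Φs Q
  ti : ∀ᵐ x ∂I, ∀ s ∈ Set.Icc (0 : ℝ) 1, Φ (s, x) = ∫ r, ind s r * Φs (r, x) ∂I
  xb : ∃ C : ℝ, ∀ᵐ s ∂I, MemLp (fun x => Φx (s, x)) 2 I ∧ ∫ x, Φx (s, x) ^ 2 ∂I ≤ C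
  xi : Integrable (fun p => Φxx p ^ 2) Q
  w1 : ∀ᵐ s ∂I, ∀ φ : ℝ → ℝ, ContDiff ℝ 1 φ → φ 1 = φ 0 →
    ∫ x, Φ (s, x) * deriv φ x ∂I = - ∫ x, Φx (s, x) * φ x ∂I
  w2 : ∀ᵐ s ∂I, ∀ φ : ℝ → ℝ, ContDiff ℝ 1 φ → φ 1 = φ 0 →
    ∫ x, Φx (s, x) * deriv φ x ∂I = - ∫ x, Φxx (s, x) * φ x ∂I
  s2 : Integrable (fun p => Φs p ^ 2 / μ p) Q
  x2 : Integrable (fun p => μ p * Φxx p ^ 2) Q

theorem cls_Z (h : Dat μ f) (F : Fst μ f W k) : Cls μ (ZZ W) (P1 k) k W where
  m0 := ZZ_meas F.Wm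
  m1 := P1_meas F.km
  m2 := F.km
  m3 := F.Wm
  bd := ZZ_bd h F
  si := F.Wi
  ti := Eventually.of_forall fun _ _ _ => rfl
  xb := ⟨2 * C0 μ f W, P1_L2 h F⟩
  xi := F.ksq h
  w1 := w_Z h F
  w2 := w_P1 h F
  s2 := F.Wi2
  x2 := F.ki2

theorem sq_sub_int {a b c : ℝ × ℝ → ℝ} (hc : ∀ p, 0 ≤ c p) (ha : Measurable a)
    (hb : Measurable b) (hcm : Measurable c)
    (h1 : Integrable (fun p => c p * a p ^ 2) Q) (h2 : Integrable (fun p => c p * b p ^ 2) Q) :
    Integrable (fun p => c p * (a p - b p) ^ 2) Q := by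
  refine ((h1.add h2).const_mul 2).mono' (hcm.mul ((ha.sub hb).pow_const 2)).aestronglyMeasurable
    (Eventually.of_forall fun p => ?_)
  rw [Real.norm_eq_abs, abs_of_nonneg (mul_nonneg (hc p) (sq_nonneg _)), Pi.add_apply]
  have := mul_nonneg (hc p) (sq_nonneg (a p + b p))
  nlinarith

theorem Cls.sub {Φ Φx Φxx Φs Ψ Ψx Ψxx Ψs : ℝ × ℝ → ℝ} (hμ : ∀ p, 0 < μ p) (hμm : Measurable μ)
    (h1 : Cls μ Φ Φx Φxx Φs) (h2 : Cls μ Ψ Ψx Ψxx Ψs) :
    Cls μ (fun p => Φ p - Ψ p) (fun p => Φx p - Ψx p) (fun p => Φxx p - Ψxx p)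
      (fun p => Φs p - Ψs p) := by
  have li : ∀ {D : ℝ × ℝ → ℝ}, Integrable D Q → ∀ᵐ s ∂I, Integrable (fun x => D (s, x)) I :=
    fun {D} hD => Integrable.prod_right_ae (f := D) hD
  have lmul : ∀ {w g : ℝ → ℝ}, Integrable w I → Continuous g → Integrable (fun x => w x * g x) I := by
    intro w g hw hg
    obtain ⟨C, hC0, hC⟩ := bdd01 hg
    refine (hw.norm.const_mul C).mono' (hw.1.mul
      hg.measurable.aestronglyMeasurable) (memI fun y hy => ?_)
    rw [norm_mul, mul_comm]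
    exact mul_le_mul_of_nonneg_right (hC y hy) (norm_nonneg _)
  have hbi : ∀ {Φ Φx Φxx Φs : ℝ × ℝ → ℝ}, Cls μ Φ Φx Φxx Φs →
      ∀ s ∈ Set.Icc (0 : ℝ) 1, Integrable (fun x => Φ (s, x)) I := by
    intro Φ Φx Φxx Φs h s hs
    obtain ⟨C, hC⟩ := h.bd
    refine (integrable_const C).mono'
      (h.m0.comp (measurable_const.prodMk measurable_id)).aestronglyMeasurable ?_
    filter_upwards [hC] with x hx
    exact hx s hs
  have hxi : ∀ {Φ Φx Φxx Φs : ℝ × ℝ → ℝ}, Cls μ Φ Φx Φxx Φs → Integrable Φxx Q := by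
    intro Φ Φx Φxx Φs h
    exact ((memLp_two_iff_integrable_sq h.m2.aestronglyMeasurable).2 h.xi).integrable
      (by norm_num)
  have hm : ∀ᵐ x ∂I, x ∈ Set.Icc (0 : ℝ) 1 := memI fun _ hx => hx
  refine ⟨h1.m0.sub h2.m0, h1.m1.sub h2.m1, h1.m2.sub h2.m2, h1.m3.sub h2.m3, ?_,
    h1.si.sub h2.si, ?_, ?_, ?_, ?_, ?_, ?_, ?_⟩
  · obtain ⟨C, hC⟩ := h1.bd
    obtain ⟨C', hC'⟩ := h2.bd
    refine ⟨C + C', ?_⟩
    filter_upwards [hC, hC'] with x a b s hs
    exact (abs_sub _ _).trans (add_le_add (a s hs) (b s hs))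
  · have j1 : ∀ᵐ x ∂I, Integrable (fun s => Φs (s, x)) I :=
      Integrable.prod_left_ae (f := Φs) h1.si
    have j2 : ∀ᵐ x ∂I, Integrable (fun s => Ψs (s, x)) I :=
      Integrable.prod_left_ae (f := Ψs) h2.si
    filter_upwards [h1.ti, h2.ti, j1, j2] with x a b c d s hs
    have lind : ∀ {w : ℝ → ℝ}, Integrable w I → Integrable (fun r => ind s r * w r) I := by
      intro w hw
      refine hw.norm.mono' ((ind_meas s).aestronglyMeasurable.mul hw.1)
        (Eventually.of_forall fun y => ?_)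
      rw [norm_mul]
      have := ind_abs s y
      rw [← Real.norm_eq_abs] at this
      nlinarith [norm_nonneg (w y)]
    rw [a s hs, b s hs, ← integral_sub (lind c) (lind d)]
    refine integral_congr_ae (Eventually.of_forall fun r => ?_)
    simp only
    ring
  · obtain ⟨C, hC⟩ := h1.xb
    obtain ⟨C', hC'⟩ := h2.xb
    refine ⟨2 * (C + C'), ?_⟩
    filter_upwards [hC, hC'] with s a b
    refine ⟨a.1.sub b.1, ?_⟩
    have h3 : ∫ x, (Φx (s, x) - Ψx (s, x)) ^ 2 ∂I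
        ≤ ∫ x, 2 * (Φx (s, x) ^ 2 + Ψx (s, x) ^ 2) ∂I := by
      refine integral_mono_ae (a.1.sub b.1).integrable_sq
        ((a.1.integrable_sq.add b.1.integrable_sq).const_mul 2)
        (Eventually.of_forall fun x => ?_)
      simp only
      nlinarith [sq_nonneg (Φx (s, x) + Ψx (s, x))]
    refine h3.trans ?_
    rw [integral_const_mul, integral_add a.1.integrable_sq b.1.integrable_sq]
    linarith [a.2, b.2]
  · have := sq_sub_int (c := fun _ => 1) (fun _ => zero_le_one) h1.m2 h2.m2 measurable_const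
      (by simpa using h1.xi) (by simpa using h2.xi)
    simpa using this
  · filter_upwards [h1.w1, h2.w1, hm, h1.xb.choose_spec, h2.xb.choose_spec] with s a b hs c d φ hφ h01
    have hc1 := hφ.continuous_deriv le_rfl
    have i1 := lmul (hbi h1 s hs) hc1
    have i2 := lmul (hbi h2 s hs) hc1
    have i3 := lmul (c.1.integrable (by norm_num)) hφ.continuous
    have i4 := lmul (d.1.integrable (by norm_num)) hφ.continuous
    have e1 : ∫ x, (Φ (s, x) - Ψ (s, x)) * deriv φ x ∂I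
        = (∫ x, Φ (s, x) * deriv φ x ∂I) - ∫ x, Ψ (s, x) * deriv φ x ∂I := by
      rw [← integral_sub i1 i2]
      refine integral_congr_ae (Eventually.of_forall fun r => ?_)
      simp only
      ring
    have e2 : ∫ x, (Φx (s, x) - Ψx (s, x)) * φ x ∂I
        = (∫ x, Φx (s, x) * φ x ∂I) - ∫ x, Ψx (s, x) * φ x ∂I := by
      rw [← integral_sub i3 i4]
      refine integral_congr_ae (Eventually.of_forall fun r => ?_)
      simp only
      ring
    rw [e1, e2, a φ hφ h01, b φ hφ h01]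
    ring
  · filter_upwards [h1.w2, h2.w2, h1.xb.choose_spec, h2.xb.choose_spec, li (hxi h1),
      li (hxi h2)] with s a b c d e g φ hφ h01
    have hc1 := hφ.continuous_deriv le_rfl
    have i1 := lmul (c.1.integrable (by norm_num)) hc1
    have i2 := lmul (d.1.integrable (by norm_num)) hc1
    have i3 := lmul e hφ.continuous
    have i4 := lmul g hφ.continuous
    have e1 : ∫ x, (Φx (s, x) - Ψx (s, x)) * deriv φ x ∂I
        = (∫ x, Φx (s, x) * deriv φ x ∂I) - ∫ x, Ψx (s, x) * deriv φ x ∂I := by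
      rw [← integral_sub i1 i2]
      refine integral_congr_ae (Eventually.of_forall fun r => ?_)
      simp only
      ring
    have e2 : ∫ x, (Φxx (s, x) - Ψxx (s, x)) * φ x ∂I
        = (∫ x, Φxx (s, x) * φ x ∂I) - ∫ x, Ψxx (s, x) * φ x ∂I := by
      rw [← integral_sub i3 i4]
      refine integral_congr_ae (Eventually.of_forall fun r => ?_)
      simp only
      ring
    rw [e1, e2, a φ hφ h01, b φ hφ h01]
    ring
  · have := sq_sub_int (c := fun p => (μ p)⁻¹) (fun p => (inv_pos.2 (hμ p)).le) h1.m3 h2.m3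
      hμm.inv (h1.s2.congr (Eventually.of_forall fun p => by simp only; rw [div_eq_mul_inv, mul_comm]))
      (h2.s2.congr (Eventually.of_forall fun p => by simp only; rw [div_eq_mul_inv, mul_comm]))
    refine this.congr (Eventually.of_forall fun p => ?_)
    simp only
    rw [div_eq_mul_inv, mul_comm]
  · exact sq_sub_int (fun p => (hμ p).le) h1.m2 h2.m2 hμm h1.x2 h2.x2

/-- if a function of the class with an anomalous energy exists, uniqueness fails -/
theorem nonuniq {Φ Φx Φxx Φs : ℝ × ℝ → ℝ} (hμm : Measurable μ) (hμ1 : ∀ p, 1 ≤ μ p)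
    (hμi : Integrable μ Q) (hΦ : Cls μ Φ Φx Φxx Φs) (τ : ℝ) (hτ : τ ∈ Set.Icc (0 : ℝ) 1)
    (φ : ℝ → ℝ) (hφ : ContDiff ℝ 1 φ) (h01 : φ 1 = φ 0)
    (han : 0 < - (∫ x, Φ (τ, x) * deriv φ x ∂I) - (1 / 2) * (∫ x, φ x ^ 2 ∂I)
      + ∫ p, ind τ p.1 * (Φs p * Φxx p) ∂Q) :
    ∃ Ψ Ψx Ψxx Ψs : ℝ × ℝ → ℝ, Cls μ Ψ Ψx Ψxx Ψs ∧ (∀ p, Ψs p = μ p * Ψxx p) ∧
      ¬ (∀ᵐ p ∂Q, Ψ p = 0) := by
  have hpos : ∀ p, 0 < μ p := fun p => lt_of_lt_of_le one_pos (hμ1 p)
  let f : ℝ × ℝ → ℝ := fun p => Φs p - μ p * Φxx p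
  have hD : Dat μ f := by
    refine ⟨hμm, hμ1, hμi, hΦ.m3.sub (hμm.mul hΦ.m2), ?_⟩
    refine ((hΦ.s2.add hΦ.x2).const_mul 2).mono'
      (((hΦ.m3.sub (hμm.mul hΦ.m2)).pow_const 2).div hμm).aestronglyMeasurable
      (Eventually.of_forall fun p => ?_)
    have hp := hpos p
    rw [Real.norm_eq_abs, abs_of_nonneg (div_nonneg (sq_nonneg _) hp.le), Pi.add_apply,
      div_le_iff₀ hp]
    have e : 2 * (Φs p ^ 2 / μ p + μ p * Φxx p ^ 2) * μ p
        = 2 * (Φs p ^ 2 + (μ p * Φxx p) ^ 2) := by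
      field_simp
    rw [e]
    nlinarith [sq_nonneg (Φs p + μ p * Φxx p)]
  obtain ⟨W, k, F⟩ := exists_fst hD
  have hZ := cls_Z hD F
  refine ⟨_, _, _, _, Cls.sub hpos hμm hΦ hZ, fun p => ?_, fun hzero => ?_⟩
  · have := F.eq p
    simp only [f] at this
    rw [this]; ring
  · -- contradiction with the energy inequality
    have h1 : ∀ᵐ x ∂I, ∀ᵐ s ∂I, Φ (s, x) = ZZ W (s, x) := by
      have h2 : ∀ᵐ q : ℝ × ℝ ∂Q, Φ (q.1, q.2) = ZZ W (q.1, q.2) := by
        filter_upwards [hzero] with q hq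
        linarith
      exact ae_swap (p := fun s x => Φ (s, x) = ZZ W (s, x)) h2
    have jΦ : ∀ᵐ x ∂I, Integrable (fun s => Φs (s, x)) I :=
      Integrable.prod_left_ae (f := Φs) hΦ.si
    have h3 : ∀ᵐ x ∂I, (∀ s ∈ Set.Icc (0 : ℝ) 1, Φ (s, x) = ZZ W (s, x)) ∧
        ∀ᵐ s ∂I, Φs (s, x) - W (s, x) = 0 := by
      filter_upwards [h1, hΦ.ti, jΦ, Wx_int F] with x hx1 hx2 hx3 hx4
      have lind : ∀ (s : ℝ) {w : ℝ → ℝ}, Integrable w I →
          Integrable (fun r => ind s r * w r) I := by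
        intro s w hw
        refine hw.norm.mono' ((ind_meas s).aestronglyMeasurable.mul hw.1)
          (Eventually.of_forall fun y => ?_)
        rw [norm_mul]
        have := ind_abs s y
        rw [← Real.norm_eq_abs] at this
        nlinarith [norm_nonneg (w y)]
      have hd := hx3.sub hx4
      have h4 : ∀ s ∈ Set.Icc (0 : ℝ) 1,
          ∫ r, ind s r * (Φs (r, x) - W (r, x)) ∂I = Φ (s, x) - ZZ W (s, x) := by
        intro s hs
        rw [hx2 s hs]
        simp only [ZZ]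
        rw [← integral_sub (lind s hx3) (lind s hx4)]
        refine integral_congr_ae (Eventually.of_forall fun r => ?_)
        simp only
        ring
      have h5 : ∀ s ∈ Set.Icc (0 : ℝ) 1,
          |∫ r, ind s r * (Φs (r, x) - W (r, x)) ∂I| ≤ 0 := by
        refine bd_all (prim_cont (w := fun r => Φs (r, x) - W (r, x)) hd) 0 ?_
        have hm : ∀ᵐ x ∂I, x ∈ Set.Icc (0 : ℝ) 1 := memI fun _ hx => hx
        filter_upwards [hx1, hm] with s hs hs2
        rw [h4 s hs2, hs, sub_self, abs_zero]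
      have h6 : ∀ s ∈ Set.Icc (0 : ℝ) 1,
          ∫ r, ind s r * (Φs (r, x) - W (r, x)) ∂I = 0 := fun s hs =>
        abs_nonpos_iff.1 (h5 s hs)
      refine ⟨fun s hs => ?_, ?_⟩
      · have := h4 s hs
        rw [h6 s hs] at this
        linarith
      · exact ae_zero_2 hd (fun q => h6 _ (cl_mem q))
    have h7 : ∫ x, ZZ W (τ, x) * deriv φ x ∂I = ∫ x, Φ (τ, x) * deriv φ x ∂I := by
      refine integral_congr_ae ?_
      filter_upwards [h3] with x hx
      rw [hx.1 τ hτ]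
    have h8 : ∀ᵐ q ∂Q, Φs q = W q := by
      have hi : Integrable (fun q => Φs q - W q) (I.prod I) := hΦ.si.sub F.Wi
      have h9 : ∫ q, ‖Φs q - W q‖ ∂(I.prod I) = 0 := by
        rw [integral_prod_symm _ hi.norm]
        have : ∫ y, ∫ x, ‖Φs (x, y) - W (x, y)‖ ∂I ∂I = ∫ y, (0 : ℝ) ∂I := by
          refine integral_congr_ae ?_
          filter_upwards [h3] with x hx
          have : ∫ s, ‖Φs (s, x) - W (s, x)‖ ∂I = ∫ s, (0 : ℝ) ∂I := by
            refine integral_congr_ae ?_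
            filter_upwards [hx.2] with s hs
            rw [hs, norm_zero]
          rw [this]; simp
        rw [this]; simp
      rw [integral_eq_zero_iff_of_nonneg (fun p => norm_nonneg _) hi.norm] at h9
      filter_upwards [h9] with q hq
      have := norm_eq_zero.1 hq
      linarith
    have h10 := energy_Z hD F hτ hφ h01
    rw [h7] at h10
    have i1 : Integrable (fun p => ind τ p.1 * (W p ^ 2 / μ p)) Q :=
      bdd_int F.Wi2 ((ind_meas τ).comp measurable_fst) 1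
        (Eventually.of_forall fun q => ind_abs τ q.1)
    have i2 : Integrable (fun p => ind τ p.1 * (W p * f p / μ p)) Q :=
      bdd_int (Wf_int hD F) ((ind_meas τ).comp measurable_fst) 1
        (Eventually.of_forall fun q => ind_abs τ q.1)
    have h11 : ∫ p, ind τ p.1 * (Φs p * Φxx p) ∂Q
        = (∫ p, ind τ p.1 * (W p ^ 2 / μ p) ∂Q) - ∫ p, ind τ p.1 * (W p * f p / μ p) ∂Q := by
      rw [← integral_sub i1 i2]
      refine integral_congr_ae ?_
      filter_upwards [h8] with q hq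
      rw [← hq]
      simp only [f]
      have hq0 := (hpos q).ne'
      field_simp
      ring
    linarith

end Pool.Agent.R207.AH
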