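import Mathlib

set_option autoImplicit false

open Filter Topology MeasureTheory

namespace Pool.Agent.R207.AI

/-- approximations of the Cantor function -/
noncomputable def Fn : ℕ → ℝ → ℝ
  | 0 => Real.smoothTransition
  | n + 1 => fun s => (Fn n (8 * s) + Fn n (8 * s - 7)) / 2

theorem Fn_succ (n : ℕ) (s : ℝ) : Fn (n + 1) s = (Fn n (8 * s) + Fn n (8 * s - 7)) / 2 := rfl

theorem Fn_zero_of (n : ℕ) : ∀ s ≤ 0, Fn n s = 0 := by
  induction n with
  | zero => intro s hs; exact Real.smoothTransition.zero_of_nonpos hs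
  | succ n ih =>
    intro s hs
    rw [Fn_succ, ih _ (by linarith), ih _ (by linarith)]; norm_num

theorem Fn_one_of (n : ℕ) : ∀ s ≥ 1, Fn n s = 1 := by
  induction n with
  | zero => intro s hs; exact Real.smoothTransition.one_of_one_le hs
  | succ n ih =>
    intro s hs
    rw [Fn_succ, ih _ (by linarith), ih _ (by linarith)]; norm_num

theorem Fn_nonneg (n : ℕ) : ∀ s, 0 ≤ Fn n s := by
  induction n with
  | zero => intro s; exact Real.smoothTransition.nonneg s
  | succ n ih =>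
    intro s
    rw [Fn_succ]
    have := ih (8 * s); have := ih (8 * s - 7); linarith

theorem Fn_le_one (n : ℕ) : ∀ s, Fn n s ≤ 1 := by
  induction n with
  | zero => intro s; exact Real.smoothTransition.le_one s
  | succ n ih =>
    intro s
    rw [Fn_succ]
    have := ih (8 * s); have := ih (8 * s - 7); linarith

theorem Fn_cd (n : ℕ) : ContDiff ℝ 2 (Fn n) := by
  induction n with
  | zero => exact Real.smoothTransition.contDiff
  | succ n ih =>
    have h1 : ContDiff ℝ 2 (fun s : ℝ => Fn n (8 * s)) := ih.comp (by fun_prop)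
    have h2 : ContDiff ℝ 2 (fun s : ℝ => Fn n (8 * s - 7)) := ih.comp (by fun_prop)
    exact (h1.add h2).div_const 2

theorem Fn_mono (n : ℕ) : Monotone (Fn n) := by
  induction n with
  | zero => exact Real.smoothTransition.monotone
  | succ n ih =>
    intro s t hst
    rw [Fn_succ, Fn_succ]
    have h1 : Fn n (8 * s) ≤ Fn n (8 * t) := ih (by linarith)
    have h2 : Fn n (8 * s - 7) ≤ Fn n (8 * t - 7) := ih (by linarith)
    linarith

noncomputable def fn (n : ℕ) : ℝ → ℝ := deriv (Fn n)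

theorem fn_hd (n : ℕ) (s : ℝ) : HasDerivAt (Fn n) (fn n s) s :=
  (((Fn_cd n).differentiable (by norm_num)) s).hasDerivAt

theorem fn_cont (n : ℕ) : Continuous (fn n) := (Fn_cd n).continuous_deriv (by norm_num)

theorem fn_nonneg (n : ℕ) (s : ℝ) : 0 ≤ fn n s := (Fn_mono n).deriv_nonneg

theorem fn_zero_left (n : ℕ) {s : ℝ} (hs : s ≤ 0) : fn n s = 0 := by
  have h1 : IsLocalMin (Fn n) s := by
    refine Eventually.of_forall fun t => ?_
    rw [Fn_zero_of n s hs]; exact Fn_nonneg n t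
  exact h1.deriv_eq_zero

theorem fn_zero_right (n : ℕ) {s : ℝ} (hs : 1 ≤ s) : fn n s = 0 := by
  have h1 : IsLocalMax (Fn n) s := by
    refine Eventually.of_forall fun t => ?_
    rw [Fn_one_of n s hs]; exact Fn_le_one n t
  exact h1.deriv_eq_zero

theorem fn_succ (n : ℕ) (s : ℝ) : fn (n + 1) s = 4 * (fn n (8 * s) + fn n (8 * s - 7)) := by
  have h1 : HasDerivAt (fun s : ℝ => Fn n (8 * s)) (fn n (8 * s) * 8) s := by
    have h2 : HasDerivAt (fun s : ℝ => 8 * s) 8 s := by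
      simpa using (hasDerivAt_id s).const_mul 8
    exact (fn_hd n (8 * s)).comp s h2
  have h2 : HasDerivAt (fun s : ℝ => Fn n (8 * s - 7)) (fn n (8 * s - 7) * 8) s := by
    have h2 : HasDerivAt (fun s : ℝ => 8 * s - 7) 8 s := by
      simpa using ((hasDerivAt_id s).const_mul 8).sub_const 7
    exact (fn_hd n (8 * s - 7)).comp s h2
  have h3 : HasDerivAt (Fn (n + 1)) ((fn n (8 * s) * 8 + fn n (8 * s - 7) * 8) / 2) s :=
    (h1.add h2).div_const 2
  rw [fn, h3.deriv]; ring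

/-- increments -/
noncomputable def Dn (n : ℕ) (s : ℝ) : ℝ := Fn (n + 1) s - Fn n s

noncomputable def dn (n : ℕ) (s : ℝ) : ℝ := fn (n + 1) s - fn n s

theorem dn_hd (n : ℕ) (s : ℝ) : HasDerivAt (Dn n) (dn n s) s := (fn_hd (n + 1) s).sub (fn_hd n s)

theorem dn_cont (n : ℕ) : Continuous (dn n) := (fn_cont _).sub (fn_cont _)

theorem Dn_cont (n : ℕ) : Continuous (Dn n) :=
  (Fn_cd _).continuous.sub (Fn_cd _).continuous

theorem Dn_left (n : ℕ) {s : ℝ} (hs : s ≤ 0) : Dn n s = 0 := by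
  unfold Dn; rw [Fn_zero_of _ _ hs, Fn_zero_of _ _ hs, sub_zero]

theorem Dn_right (n : ℕ) {s : ℝ} (hs : 1 ≤ s) : Dn n s = 0 := by
  unfold Dn; rw [Fn_one_of _ _ hs, Fn_one_of _ _ hs, sub_self]

theorem Dn_succ (n : ℕ) (s : ℝ) : Dn (n + 1) s = (Dn n (8 * s) + Dn n (8 * s - 7)) / 2 := by
  unfold Dn; rw [Fn_succ (n + 1) s, Fn_succ n s]; ring

theorem Dn_bd (n : ℕ) : ∀ s, |Dn n s| ≤ (1 / 2) ^ n := by
  induction n with
  | zero =>
    intro s
    unfold Dn
    rw [abs_le, pow_zero]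
    constructor <;> linarith [Fn_nonneg 1 s, Fn_le_one 1 s, Fn_nonneg 0 s, Fn_le_one 0 s]
  | succ n ih =>
    intro s
    rw [Dn_succ, abs_div, abs_two, pow_succ]
    rcases le_total s (1 / 2) with h | h
    · rw [Dn_left n (s := 8 * s - 7) (by linarith), add_zero]
      have := ih (8 * s)
      linarith
    · rw [Dn_right n (s := 8 * s) (by linarith), zero_add]
      have := ih (8 * s - 7)
      linarith

theorem Fn_sum (n : ℕ) (s : ℝ) : Fn 0 s + ∑ m ∈ Finset.range n, Dn m s = Fn n s := by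
  unfold Dn
  rw [Finset.sum_range_sub (fun m => Fn m s)]; ring

theorem fn_sum (n : ℕ) (s : ℝ) : fn 0 s + ∑ m ∈ Finset.range n, dn m s = fn n s := by
  unfold dn
  rw [Finset.sum_range_sub (fun m => fn m s)]; ring

theorem fn_int (n : ℕ) (a b : ℝ) : ∫ s in a..b, fn n s = Fn n b - Fn n a :=
  intervalIntegral.integral_eq_sub_of_hasDerivAt (fun s _ => fn_hd n s)
    ((fn_cont n).intervalIntegrable _ _)

theorem Fn_half (n : ℕ) : Fn (n + 1) (1 / 2) = 1 / 2 := by
  rw [Fn_succ, Fn_one_of n _ (by norm_num), Fn_zero_of n _ (by norm_num)]; norm_num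

theorem Fn_sixteenth (n : ℕ) : Fn (n + 2) (1 / 16) = 1 / 4 := by
  rw [Fn_succ]
  have h1 : (8 : ℝ) * (1 / 16) = 1 / 2 := by norm_num
  rw [h1, Fn_half, Fn_zero_of _ _ (by norm_num)]; norm_num

/-! the distance-like function -/

noncomputable def hh (t : ℝ) : ℝ := t * √t

theorem hh_nonneg (t : ℝ) : 0 ≤ hh t := by
  unfold hh
  rcases le_total 0 t with h | h
  · exact mul_nonneg h (Real.sqrt_nonneg _)
  · rw [Real.sqrt_eq_zero_of_nonpos h, mul_zero]

theorem hh_zero {t : ℝ} (ht : t ≤ 0) : hh t = 0 := by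
  unfold hh; rw [Real.sqrt_eq_zero_of_nonpos ht, mul_zero]

theorem hh_hd (t : ℝ) : HasDerivAt hh (3 / 2 * √t) t := by
  rcases lt_trichotomy t 0 with h | h | h
  · have h1 : hh =ᶠ[𝓝 t] fun _ => 0 := by
      filter_upwards [gt_mem_nhds h] with s hs
      exact hh_zero (le_of_lt hs)
    rw [Real.sqrt_eq_zero_of_nonpos h.le, mul_zero]
    exact (hasDerivAt_const t (0 : ℝ)).congr_of_eventuallyEq h1
  · subst h
    rw [Real.sqrt_zero, mul_zero, hasDerivAt_iff_isLittleO_nhds_zero]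
    have h1 : Tendsto (fun h : ℝ => √h) (𝓝 0) (𝓝 0) := by
      have := Real.continuous_sqrt.tendsto 0
      rwa [Real.sqrt_zero] at this
    have h2 : (fun h : ℝ => h * √h) =o[𝓝 0] fun h : ℝ => h * 1 :=
      (Asymptotics.isBigO_refl _ _).mul_isLittleO ((Asymptotics.isLittleO_one_iff ℝ).2 h1)
    simpa [hh] using h2
  · have h1 := (hasDerivAt_id t).mul (Real.hasDerivAt_sqrt h.ne')
    refine h1.congr_deriv ?_
    have h2 : √t * √t = t := Real.mul_self_sqrt h.le
    have h3 : √t ≠ 0 := (Real.sqrt_pos.2 h).ne'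
    simp only [id]
    field_simp
    nlinarith

noncomputable def vv (s : ℝ) : ℝ := (s - 1 / 8) * (7 / 8 - s)

noncomputable def bb (s : ℝ) : ℝ := hh (vv s)

noncomputable def bd (s : ℝ) : ℝ := 3 / 2 * √(vv s) * (1 - 2 * s)

theorem vv_hd (s : ℝ) : HasDerivAt vv (1 - 2 * s) s := by
  have h1 := ((hasDerivAt_id s).sub_const (1 / 8)).mul ((hasDerivAt_id s).const_sub (7 / 8))
  exact h1.congr_deriv (by simp only [id]; ring)

theorem bb_hd (s : ℝ) : HasDerivAt bb (bd s) s := (hh_hd (vv s)).comp s (vv_hd s)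

theorem bd_cont : Continuous bd := by
  unfold bd vv
  fun_prop

theorem bb_nonneg (s : ℝ) : 0 ≤ bb s := hh_nonneg _

theorem vv_nonpos {s : ℝ} (hs : s ≤ 1 / 8 ∨ 7 / 8 ≤ s) : vv s ≤ 0 := by
  unfold vv
  rcases hs with h | h
  · exact mul_nonpos_of_nonpos_of_nonneg (by linarith) (by linarith)
  · exact mul_nonpos_of_nonneg_of_nonpos (by linarith) (by linarith)

theorem bb_zero {s : ℝ} (hs : s ≤ 1 / 8 ∨ 7 / 8 ≤ s) : bb s = 0 := hh_zero (vv_nonpos hs)

theorem bd_zero {s : ℝ} (hs : s ≤ 1 / 8 ∨ 7 / 8 ≤ s) : bd s = 0 := by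
  unfold bd; rw [Real.sqrt_eq_zero_of_nonpos (vv_nonpos hs)]; ring

theorem vv_le (s : ℝ) : vv s ≤ 1 / 4 := by
  unfold vv; nlinarith [sq_nonneg (s - 1 / 2)]

theorem sqrt_vv_le (s : ℝ) : √(vv s) ≤ 1 / 2 := by
  rw [Real.sqrt_le_left (by norm_num)]
  have := vv_le s
  norm_num
  linarith

theorem bb_le (s : ℝ) : bb s ≤ 1 := by
  rcases le_total (vv s) 0 with h | h
  · unfold bb; rw [hh_zero h]; norm_num
  · unfold bb hh
    have := vv_le s
    have := sqrt_vv_le s
    nlinarith [Real.sqrt_nonneg (vv s)]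

theorem bd_le (s : ℝ) : |bd s| ≤ 1 := by
  by_cases h : s ≤ 1 / 8 ∨ 7 / 8 ≤ s
  · rw [bd_zero h]; norm_num
  · push Not at h
    unfold bd
    rw [abs_mul, abs_of_nonneg (by positivity : (0 : ℝ) ≤ 3 / 2 * √(vv s))]
    have h1 := sqrt_vv_le s
    have h2 : |1 - 2 * s| ≤ 1 := by rw [abs_le]; constructor <;> linarith [h.1, h.2]
    nlinarith [Real.sqrt_nonneg (vv s), abs_nonneg (1 - 2 * s)]

noncomputable def Bn : ℕ → ℝ → ℝ
  | 0 => bb
  | n + 1 => fun s => Bn n (8 * s) + Bn n (8 * s - 7)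

noncomputable def Bd : ℕ → ℝ → ℝ
  | 0 => bd
  | n + 1 => fun s => 8 * (Bd n (8 * s) + Bd n (8 * s - 7))

theorem Bn_succ (n : ℕ) (s : ℝ) : Bn (n + 1) s = Bn n (8 * s) + Bn n (8 * s - 7) := rfl

theorem Bd_succ (n : ℕ) (s : ℝ) : Bd (n + 1) s = 8 * (Bd n (8 * s) + Bd n (8 * s - 7)) := rfl

theorem Bn_out (n : ℕ) : ∀ s, s ≤ 0 ∨ 1 ≤ s → Bn n s = 0 := by
  induction n with
  | zero =>
    intro s hs
    exact bb_zero (hs.imp (fun h => by linarith) (fun h => by linarith))
  | succ n ih =>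
    intro s hs
    rw [Bn_succ]
    rcases hs with h | h
    · rw [ih _ (Or.inl (by linarith)), ih _ (Or.inl (by linarith)), add_zero]
    · rw [ih _ (Or.inr (by linarith)), ih _ (Or.inr (by linarith)), add_zero]

theorem Bd_out (n : ℕ) : ∀ s, s ≤ 0 ∨ 1 ≤ s → Bd n s = 0 := by
  induction n with
  | zero =>
    intro s hs
    exact bd_zero (hs.imp (fun h => by linarith) (fun h => by linarith))
  | succ n ih =>
    intro s hs
    rw [Bd_succ]
    rcases hs with h | h
    · rw [ih _ (Or.inl (by linarith)), ih _ (Or.inl (by linarith))]; ring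
    · rw [ih _ (Or.inr (by linarith)), ih _ (Or.inr (by linarith))]; ring

theorem Bn_nonneg (n : ℕ) : ∀ s, 0 ≤ Bn n s := by
  induction n with
  | zero => exact bb_nonneg
  | succ n ih => intro s; rw [Bn_succ]; exact add_nonneg (ih _) (ih _)

theorem Bn_le (n : ℕ) : ∀ s, Bn n s ≤ 1 := by
  induction n with
  | zero => exact bb_le
  | succ n ih =>
    intro s
    rw [Bn_succ]
    rcases le_total s (1 / 2) with h | h
    · rw [Bn_out n (8 * s - 7) (Or.inl (by linarith)), add_zero]; exact ih _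
    · rw [Bn_out n (8 * s) (Or.inr (by linarith)), zero_add]; exact ih _

theorem Bd_le (n : ℕ) : ∀ s, |Bd n s| ≤ 8 ^ n := by
  induction n with
  | zero => intro s; rw [pow_zero]; exact bd_le s
  | succ n ih =>
    intro s
    rw [Bd_succ, pow_succ]
    rcases le_total s (1 / 2) with h | h
    · rw [Bd_out n (8 * s - 7) (Or.inl (by linarith)), add_zero, abs_mul]
      have := ih (8 * s)
      rw [abs_of_pos (by norm_num : (0 : ℝ) < 8)]
      linarith
    · rw [Bd_out n (8 * s) (Or.inr (by linarith)), zero_add, abs_mul]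
      have := ih (8 * s - 7)
      rw [abs_of_pos (by norm_num : (0 : ℝ) < 8)]
      linarith

theorem Bn_hd (n : ℕ) : ∀ s, HasDerivAt (Bn n) (Bd n s) s := by
  induction n with
  | zero => exact bb_hd
  | succ n ih =>
    intro s
    have h1 : HasDerivAt (fun s : ℝ => Bn n (8 * s)) (Bd n (8 * s) * 8) s := by
      have h2 : HasDerivAt (fun s : ℝ => 8 * s) 8 s := by
        simpa using (hasDerivAt_id s).const_mul 8
      exact (ih (8 * s)).comp s h2
    have h2 : HasDerivAt (fun s : ℝ => Bn n (8 * s - 7)) (Bd n (8 * s - 7) * 8) s := by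
      have h2 : HasDerivAt (fun s : ℝ => 8 * s - 7) 8 s := by
        simpa using ((hasDerivAt_id s).const_mul 8).sub_const 7
      exact (ih (8 * s - 7)).comp s h2
    have h3 := h1.add h2
    refine h3.congr_deriv ?_
    rw [Bd_succ]; ring

theorem Bd_cont (n : ℕ) : Continuous (Bd n) := by
  induction n with
  | zero => exact bd_cont
  | succ n ih =>
    have h1 : Continuous (fun s : ℝ => Bd n (8 * s)) := ih.comp (by fun_prop)
    have h2 : Continuous (fun s : ℝ => Bd n (8 * s - 7)) := ih.comp (by fun_prop)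
    exact (h1.add h2).const_smul (8 : ℝ)

noncomputable def sg (s : ℝ) : ℝ := ∑' n, (1 / 9 : ℝ) ^ n * Bn n s

noncomputable def sd (s : ℝ) : ℝ := ∑' n, (1 / 9 : ℝ) ^ n * Bd n s

theorem sg_summ (s : ℝ) : Summable (fun n => (1 / 9 : ℝ) ^ n * Bn n s) := by
  refine Summable.of_nonneg_of_le (fun n => mul_nonneg (by positivity) (Bn_nonneg n s))
    (fun n => ?_) (summable_geometric_of_lt_one (by norm_num : (0 : ℝ) ≤ 1 / 9) (by norm_num))
  have := Bn_le n s
  have h2 : (0 : ℝ) ≤ (1 / 9) ^ n := by positivity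
  nlinarith

theorem sd_bound (n : ℕ) (s : ℝ) : ‖(1 / 9 : ℝ) ^ n * Bd n s‖ ≤ (8 / 9 : ℝ) ^ n := by
  rw [norm_mul, Real.norm_eq_abs, Real.norm_eq_abs, abs_of_nonneg (by positivity)]
  have h1 := Bd_le n s
  have h2 : (8 / 9 : ℝ) ^ n = (1 / 9) ^ n * 8 ^ n := by rw [← mul_pow]; norm_num
  rw [h2]
  exact mul_le_mul_of_nonneg_left h1 (by positivity)

theorem summ89 : Summable (fun n : ℕ => (8 / 9 : ℝ) ^ n) :=
  summable_geometric_of_lt_one (by norm_num) (by norm_num)

theorem sg_hd (s : ℝ) : HasDerivAt sg (sd s) s :=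
  hasDerivAt_tsum summ89 (fun n y => (Bn_hd n y).const_mul _) sd_bound (sg_summ 0) s

theorem sd_cont : Continuous sd :=
  continuous_tsum (fun n => (Bd_cont n).const_smul ((1 / 9 : ℝ) ^ n)) summ89 sd_bound

theorem sg_cont : Continuous sg := continuous_iff_continuousAt.2 fun s => (sg_hd s).continuousAt

theorem sg_nonneg (s : ℝ) : 0 ≤ sg s :=
  tsum_nonneg fun n => mul_nonneg (by positivity) (Bn_nonneg n s)

theorem sg_le (s : ℝ) : sg s ≤ 9 := by
  have h1 : sg s ≤ ∑' n, (8 / 9 : ℝ) ^ n := by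
    refine (sg_summ s).tsum_le_tsum (fun n => ?_) summ89
    have h2 := Bn_le n s
    have h3 : (1 / 9 : ℝ) ^ n ≤ (8 / 9) ^ n := pow_le_pow_left₀ (by norm_num) (by norm_num) n
    have h4 : (0 : ℝ) ≤ (1 / 9) ^ n := by positivity
    nlinarith [Bn_nonneg n s]
  rw [tsum_geometric_of_lt_one (by norm_num) (by norm_num)] at h1
  norm_num at h1
  exact h1

theorem sd_le (s : ℝ) : |sd s| ≤ 9 := by
  have h1 := tsum_of_norm_bounded (summ89.hasSum) (fun n => sd_bound n s)
  rw [tsum_geometric_of_lt_one (by norm_num) (by norm_num)] at h1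
  norm_num at h1
  exact h1

theorem sg_out {s : ℝ} (hs : s ≤ 0 ∨ 1 ≤ s) : sg s = 0 := by
  unfold sg
  simp [Bn_out _ s hs]

theorem sg_eq (s : ℝ) : sg s = bb s + (1 / 9) * (sg (8 * s) + sg (8 * s - 7)) := by
  unfold sg
  rw [(sg_summ s).tsum_eq_zero_add, pow_zero, one_mul, ← (sg_summ _).tsum_add (sg_summ _),
    ← tsum_mul_left]
  congr 1
  refine tsum_congr fun n => ?_
  rw [Bn_succ, pow_succ]; ring

theorem sg_ge (s : ℝ) : bb s ≤ sg s := by
  rw [sg_eq]
  have := sg_nonneg (8 * s); have := sg_nonneg (8 * s - 7); linarith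

theorem sg_left {s : ℝ} (hs : s ≤ 1 / 8) : sg s = (1 / 9) * sg (8 * s) := by
  rw [sg_eq, bb_zero (Or.inl hs), sg_out (s := 8 * s - 7) (Or.inl (by linarith))]; ring

theorem sg_right {s : ℝ} (hs : 7 / 8 ≤ s) : sg s = (1 / 9) * sg (8 * s - 7) := by
  rw [sg_eq, bb_zero (Or.inr hs), sg_out (s := 8 * s) (Or.inr (by linarith))]; ring

theorem fn_supp (n : ℕ) : ∀ s, fn n s ≠ 0 → sg s ≤ (1 / 9) ^ n * 9 := by
  induction n with
  | zero => intro s _; rw [pow_zero, one_mul]; exact sg_le s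
  | succ n ih =>
    intro s hs
    rw [fn_succ] at hs
    by_cases h1 : fn n (8 * s) = 0
    · rw [h1, zero_add] at hs
      have h2 : fn n (8 * s - 7) ≠ 0 := fun h => hs (by rw [h, mul_zero])
      have h3 : 7 / 8 ≤ s := by
        by_contra h4
        exact h2 (fn_zero_left n (by linarith))
      rw [sg_right h3, pow_succ]
      have := ih _ h2
      linarith
    · have h3 : s ≤ 1 / 8 := by
        by_contra h4
        exact h1 (fn_zero_right n (by linarith))
      rw [sg_left h3, pow_succ]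
      have := ih _ h1
      linarith

end Pool.Agent.R207.AI
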