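import Pool.Agent.R207.AI1
import Pool.Agent.R207.AH9

set_option autoImplicit false

open Filter Topology MeasureTheory

namespace Pool.Agent.R207.AI

open AH (I Q)

theorem bb_rpow {s : ℝ} (hs : s ∈ Set.Ioo (1 / 8 : ℝ) (7 / 8)) :
    1 / √(bb s) ≤ 3 * ((s - 1 / 8) ^ (-(3 / 4) : ℝ) + (7 / 8 - s) ^ (-(3 / 4) : ℝ)) := by
  have ha : 0 < s - 1 / 8 := by linarith [hs.1]
  have hb : 0 < 7 / 8 - s := by linarith [hs.2]
  have hv : 0 < vv s := mul_pos ha hb
  have h1 : √(bb s) = (vv s) ^ (3 / 4 : ℝ) := by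
    unfold bb hh
    rw [Real.sqrt_eq_rpow, Real.sqrt_eq_rpow]
    nth_rewrite 1 [← Real.rpow_one (vv s)]
    rw [← Real.rpow_add hv, ← Real.rpow_mul hv.le]
    norm_num
  have h2 : 1 / √(bb s) = (s - 1 / 8) ^ (-(3 / 4) : ℝ) * (7 / 8 - s) ^ (-(3 / 4) : ℝ) := by
    have hvv : (s - 1 / 8) * (7 / 8 - s) = vv s := rfl
    rw [h1, ← Real.mul_rpow ha.le hb.le, hvv, Real.rpow_neg hv.le, one_div]
  have h3 : ∀ a : ℝ, 3 / 8 ≤ a → a ^ (-(3 / 4) : ℝ) ≤ 3 := by
    intro a h
    have h4 : a ^ (-(3 / 4) : ℝ) ≤ (3 / 8 : ℝ) ^ (-(3 / 4) : ℝ) :=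
      Real.rpow_le_rpow_of_nonpos (by norm_num) h (by norm_num)
    have h5 : (3 / 8 : ℝ) ^ (-(3 / 4) : ℝ) ≤ (3 / 8 : ℝ) ^ (-1 : ℝ) :=
      Real.rpow_le_rpow_of_exponent_ge (by norm_num) (by norm_num) (by norm_num)
    have h6 : (3 / 8 : ℝ) ^ (-1 : ℝ) ≤ 3 := by
      rw [Real.rpow_neg_one]; norm_num
    linarith
  have p1 : 0 ≤ (s - 1 / 8) ^ (-(3 / 4) : ℝ) := Real.rpow_nonneg ha.le _
  have p2 : 0 ≤ (7 / 8 - s) ^ (-(3 / 4) : ℝ) := Real.rpow_nonneg hb.le _
  rw [h2]
  rcases le_total (3 / 8) (s - 1 / 8) with h | h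
  · have := h3 _ h
    nlinarith
  · have := h3 (7 / 8 - s) (by linarith)
    nlinarith

noncomputable def qq (s : ℝ) : ℝ :=
  3 * ((s - 1 / 8) ^ (-(3 / 4) : ℝ) + (7 / 8 - s) ^ (-(3 / 4) : ℝ))

theorem qq_int : IntervalIntegrable qq volume (1 / 8) (7 / 8) := by
  unfold qq
  have h0 : IntervalIntegrable (fun x : ℝ => x ^ (-(3 / 4) : ℝ)) volume 0 (3 / 4) :=
    intervalIntegral.intervalIntegrable_rpow' (by norm_num)
  have h1 : IntervalIntegrable (fun s : ℝ => (s - 1 / 8) ^ (-(3 / 4) : ℝ)) volume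
      (1 / 8) (7 / 8) := by
    have := h0.comp_sub_right (1 / 8)
    convert this using 1 <;> norm_num
  have h2 : IntervalIntegrable (fun s : ℝ => (7 / 8 - s) ^ (-(3 / 4) : ℝ)) volume
      (1 / 8) (7 / 8) := by
    have := h0.comp_sub_left (7 / 8)
    have h3 := this.symm
    convert h3 using 1 <;> norm_num
  exact (h1.add h2).const_mul 3

noncomputable def C1 : ℝ := ∫ s in (1 / 8 : ℝ)..(7 / 8), qq s

noncomputable def JJ (δ : ℝ) : ℝ := ∫ s in (0 : ℝ)..1, 1 / √(sg s + δ)

theorem jj_cont {δ : ℝ} (hδ : 0 < δ) : Continuous (fun s => 1 / √(sg s + δ)) := by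
  refine continuous_const.div (Real.continuous_sqrt.comp (sg_cont.add continuous_const))
    (fun s => (Real.sqrt_pos.2 ?_).ne')
  have := sg_nonneg s
  show 0 < sg s + δ
  linarith

theorem third {a δ : ℝ} (ha : 0 ≤ a) (hδ : 0 < δ) :
    1 / √((1 / 9) * a + δ) ≤ 3 * (1 / √(a + δ)) := by
  have h1 : 0 < √(a + δ) := Real.sqrt_pos.2 (by linarith)
  have h2 : √(a + δ) / 3 ≤ √((1 / 9) * a + δ) := by
    refine Real.le_sqrt_of_sq_le ?_
    rw [div_pow, Real.sq_sqrt (by linarith)]
    linarith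
  have h3 : 0 < √(a + δ) / 3 := by positivity
  calc 1 / √((1 / 9) * a + δ) ≤ 1 / (√(a + δ) / 3) := one_div_le_one_div_of_le h3 h2
    _ = 3 * (1 / √(a + δ)) := by field_simp

theorem JJ_le {δ : ℝ} (hδ : 0 < δ) : JJ δ ≤ 4 * C1 := by
  have hc := jj_cont hδ
  have hi : ∀ a b : ℝ, IntervalIntegrable (fun s => 1 / √(sg s + δ)) volume a b :=
    fun a b => hc.intervalIntegrable a b
  have e : JJ δ = (∫ s in (0 : ℝ)..(1 / 8), 1 / √(sg s + δ))
      + (∫ s in (1 / 8 : ℝ)..(7 / 8), 1 / √(sg s + δ))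
      + ∫ s in (7 / 8 : ℝ)..1, 1 / √(sg s + δ) := by
    unfold JJ
    rw [intervalIntegral.integral_add_adjacent_intervals (hi _ _) (hi _ _),
      intervalIntegral.integral_add_adjacent_intervals (hi _ _) (hi _ _)]
  have a1 : ∫ s in (0 : ℝ)..(1 / 8), 1 / √(sg s + δ) ≤ 3 / 8 * JJ δ := by
    have h1 : ∫ s in (0 : ℝ)..(1 / 8), 1 / √(sg s + δ)
        ≤ ∫ s in (0 : ℝ)..(1 / 8), 3 * (1 / √(sg (8 * s) + δ)) := by
      refine intervalIntegral.integral_mono_on (by norm_num) (hi _ _)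
        (((hc.comp (continuous_const.mul continuous_id)).const_smul (3 : ℝ)).intervalIntegrable _ _)
        (fun s hs => ?_)
      rw [sg_left hs.2]
      exact third (sg_nonneg _) hδ
    refine h1.trans (le_of_eq ?_)
    rw [intervalIntegral.integral_const_mul,
      intervalIntegral.integral_comp_mul_left (fun s => 1 / √(sg s + δ)) (by norm_num : (8 : ℝ) ≠ 0)]
    unfold JJ
    norm_num
    ring
  have a2 : ∫ s in (7 / 8 : ℝ)..1, 1 / √(sg s + δ) ≤ 3 / 8 * JJ δ := by
    have h1 : ∫ s in (7 / 8 : ℝ)..1, 1 / √(sg s + δ)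
        ≤ ∫ s in (7 / 8 : ℝ)..1, 3 * (1 / √(sg (8 * s - 7) + δ)) := by
      refine intervalIntegral.integral_mono_on (by norm_num) (hi _ _)
        (((hc.comp ((continuous_const.mul continuous_id).sub continuous_const)).const_smul
          (3 : ℝ)).intervalIntegrable _ _)
        (fun s hs => ?_)
      rw [sg_right hs.1]
      exact third (sg_nonneg _) hδ
    refine h1.trans (le_of_eq ?_)
    rw [intervalIntegral.integral_const_mul,
      intervalIntegral.integral_comp_mul_sub (fun s => 1 / √(sg s + δ)) (by norm_num : (8 : ℝ) ≠ 0)]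
    unfold JJ
    norm_num
    ring
  have a3 : ∫ s in (1 / 8 : ℝ)..(7 / 8), 1 / √(sg s + δ) ≤ C1 := by
    unfold C1
    refine intervalIntegral.integral_mono_on_of_le_Ioo (by norm_num) (hi _ _) qq_int
      (fun s hs => ?_)
    refine le_trans ?_ (bb_rpow hs)
    have hv : 0 < vv s := mul_pos (by linarith [hs.1]) (by linarith [hs.2])
    have hb : 0 < bb s := mul_pos hv (Real.sqrt_pos.2 hv)
    refine one_div_le_one_div_of_le (Real.sqrt_pos.2 hb) (Real.sqrt_le_sqrt ?_)
    have := sg_ge s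
    linarith
  linarith

theorem lint_bd : ∫⁻ s, (ENNReal.ofReal (√(sg s)))⁻¹ ∂I ≤ ENNReal.ofReal (4 * C1) := by
  have h1 : ∀ s, Tendsto (fun m : ℕ => (ENNReal.ofReal (√(sg s + 1 / ((m : ℝ) + 1))))⁻¹) atTop
      (𝓝 (ENNReal.ofReal (√(sg s)))⁻¹) := by
    intro s
    have h2 : Tendsto (fun m : ℕ => sg s + 1 / ((m : ℝ) + 1)) atTop (𝓝 (sg s + 0)) :=
      tendsto_const_nhds.add tendsto_one_div_add_atTop_nhds_zero_nat
    rw [add_zero] at h2
    exact (continuous_inv.tendsto _).comp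
      ((ENNReal.continuous_ofReal.tendsto _).comp ((Real.continuous_sqrt.tendsto _).comp h2))
  have h2 : ∫⁻ s, (ENNReal.ofReal (√(sg s)))⁻¹ ∂I
      = ∫⁻ s, liminf (fun m : ℕ => (ENNReal.ofReal (√(sg s + 1 / ((m : ℝ) + 1))))⁻¹) atTop ∂I := by
    refine lintegral_congr fun s => ?_
    exact (h1 s).liminf_eq.symm
  rw [h2]
  refine (lintegral_liminf_le (fun m => ?_)).trans ?_
  · exact (ENNReal.measurable_ofReal.comp ((sg_cont.add continuous_const).sqrt.measurable)).inv
  · refine liminf_le_of_frequently_le' (Eventually.frequently (Eventually.of_forall fun m => ?_))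
    have hm : 0 < 1 / ((m : ℝ) + 1) := by positivity
    have h3 : ∫⁻ s, (ENNReal.ofReal (√(sg s + 1 / ((m : ℝ) + 1))))⁻¹ ∂I
        = ∫⁻ s, ENNReal.ofReal (1 / √(sg s + 1 / ((m : ℝ) + 1))) ∂I := by
      refine lintegral_congr fun s => ?_
      have : 0 < √(sg s + 1 / ((m : ℝ) + 1)) := Real.sqrt_pos.2 (by linarith [sg_nonneg s])
      rw [one_div (√(sg s + 1 / ((m : ℝ) + 1))), ENNReal.ofReal_inv_of_pos this]
    rw [h3, ← ofReal_integral_eq_lintegral_ofReal (AH.intble_I (jj_cont hm))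
      (Eventually.of_forall fun s => by positivity)]
    refine ENNReal.ofReal_le_ofReal ?_
    rw [AH.int_I]
    exact JJ_le hm

theorem sg_pos : ∀ᵐ s ∂I, 0 < sg s := by
  have h1 : Measurable (fun s => (ENNReal.ofReal (√(sg s)))⁻¹) :=
    (ENNReal.measurable_ofReal.comp (sg_cont.sqrt.measurable)).inv
  have h2 := ae_lt_top h1 (lt_of_le_of_lt lint_bd ENNReal.ofReal_lt_top).ne
  filter_upwards [h2] with s hs
  rw [ENNReal.inv_lt_top, ENNReal.ofReal_pos, Real.sqrt_pos] at hs
  exact hs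

theorem inv_sg_int : Integrable (fun s => 1 / √(sg s)) I := by
  refine ⟨(measurable_const.div sg_cont.sqrt.measurable).aestronglyMeasurable, ?_⟩
  rw [hasFiniteIntegral_iff_ofReal (Eventually.of_forall fun s => by positivity)]
  refine lt_of_le_of_lt ?_ (lt_of_le_of_lt lint_bd ENNReal.ofReal_lt_top)
  refine lintegral_mono fun s => ?_
  by_cases h : 0 < √(sg s)
  · rw [one_div, ENNReal.ofReal_inv_of_pos h]
  · have : √(sg s) = 0 := le_antisymm (not_lt.1 h) (Real.sqrt_nonneg _)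
    simp [this]

noncomputable def zz (x : ℝ) : ℝ := Real.sin (Real.pi * x) ^ 2

theorem zz_nonneg (x : ℝ) : 0 ≤ zz x := sq_nonneg _

theorem zz_le (x : ℝ) : zz x ≤ 1 := Real.sin_sq_le_one _

theorem zz_cont : Continuous zz := by unfold zz; fun_prop

theorem zz_refl (x : ℝ) : zz (1 - x) = zz x := by
  unfold zz
  have : Real.pi * (1 - x) = Real.pi - Real.pi * x := by ring
  rw [this, Real.sin_pi_sub]

theorem half_int {c : ℝ} (hc : 0 < c) :
    ∫ x in (0 : ℝ)..(1 / 2), 1 / (zz x + c) ≤ Real.pi / 4 * (1 / √c) := by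
  have hs : 0 < √c := Real.sqrt_pos.2 hc
  have h1 : ∫ x in (0 : ℝ)..(1 / 2), 1 / (zz x + c) ≤ ∫ x in (0 : ℝ)..(1 / 2), 1 / (4 * x ^ 2 + c) := by
    refine intervalIntegral.integral_mono_on (by norm_num) ?_ ?_ (fun x hx => ?_)
    · refine Continuous.intervalIntegrable ?_ _ _
      exact continuous_const.div (zz_cont.add continuous_const)
        (fun x => by have := zz_nonneg x; positivity)
    · refine Continuous.intervalIntegrable ?_ _ _
      exact continuous_const.div (by fun_prop) (fun x => by positivity)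
    · refine one_div_le_one_div_of_le (by positivity) ?_
      have h2 := Real.mul_le_sin (x := Real.pi * x) (by have := Real.pi_pos; nlinarith [hx.1])
        (by have := Real.pi_pos; nlinarith [hx.2])
      have h3 : 2 / Real.pi * (Real.pi * x) = 2 * x := by
        field_simp [Real.pi_pos.ne']
      rw [h3] at h2
      unfold zz
      nlinarith [hx.1]
  have h2 : ∀ x, HasDerivAt (fun x => Real.arctan (2 * x / √c) / (2 * √c))
      (1 / (4 * x ^ 2 + c)) x := by
    intro x
    have h3 : HasDerivAt (fun x : ℝ => 2 * x / √c) (2 / √c) x := by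
      simpa using ((hasDerivAt_id x).const_mul 2).div_const (√c)
    have h4 := (h3.arctan).div_const (2 * √c)
    refine h4.congr_deriv ?_
    have h5 : √c ^ 2 = c := Real.sq_sqrt hc.le
    have h6 : 4 * x ^ 2 + c ≠ 0 := by positivity
    have h7 : 1 + (2 * x / √c) ^ 2 = (4 * x ^ 2 + c) / c := by
      rw [div_pow, h5]; field_simp; ring
    rw [h7]
    field_simp
    rw [h5]
  rw [intervalIntegral.integral_eq_sub_of_hasDerivAt (fun x _ => h2 x)] at h1
  · refine h1.trans ?_
    simp only [mul_zero, zero_div, Real.arctan_zero, sub_zero]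
    have h3 := (Real.arctan_lt_pi_div_two (2 * (1 / 2) / √c)).le
    calc Real.arctan (2 * (1 / 2) / √c) / (2 * √c) ≤ (Real.pi / 2) / (2 * √c) :=
          div_le_div_of_nonneg_right h3 (by positivity)
      _ = Real.pi / 4 * (1 / √c) := by field_simp; ring
  · refine Continuous.intervalIntegrable ?_ _ _
    exact continuous_const.div (by fun_prop) (fun x => by positivity)

theorem full_int {c : ℝ} (hc : 0 < c) : ∫ x, 1 / (zz x + c) ∂I ≤ Real.pi / 2 * (1 / √c) := by
  have hcont : Continuous (fun x => 1 / (zz x + c)) :=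
    continuous_const.div (zz_cont.add continuous_const)
        (fun x => by have := zz_nonneg x; positivity)
  have hi : ∀ a b : ℝ, IntervalIntegrable (fun x => 1 / (zz x + c)) volume a b :=
    fun a b => hcont.intervalIntegrable a b
  rw [AH.int_I, ← intervalIntegral.integral_add_adjacent_intervals (hi 0 (1 / 2)) (hi (1 / 2) 1)]
  have h1 : ∫ x in (1 / 2 : ℝ)..1, 1 / (zz x + c) = ∫ x in (0 : ℝ)..(1 / 2), 1 / (zz x + c) := by
    have h2 := intervalIntegral.integral_comp_sub_left (a := 0) (b := 1 / 2)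
      (fun x => 1 / (zz x + c)) 1
    simp only [zz_refl] at h2
    rw [h2]
    norm_num
  rw [h1]
  have := half_int hc
  linarith

/-- the basic integrable majorant -/
theorem inv_int : Integrable (fun p : ℝ × ℝ => 1 / (zz p.2 + sg p.1)) Q := by
  have hm : Measurable (fun p : ℝ × ℝ => 1 / (zz p.2 + sg p.1)) :=
    measurable_const.div ((zz_cont.comp continuous_snd).add
      (sg_cont.comp continuous_fst)).measurable
  have hi : ∀ᵐ s ∂I, Integrable (fun x => 1 / (zz x + sg s)) I := by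
    filter_upwards [sg_pos] with s hs
    exact AH.intble_I (continuous_const.div (zz_cont.add continuous_const)
        (fun x => by have := zz_nonneg x; positivity))
  unfold Q
  rw [integrable_prod_iff hm.aestronglyMeasurable]
  refine ⟨hi, ?_⟩
  refine (inv_sg_int.const_mul (Real.pi / 2)).mono' ?_ ?_
  · exact (hm.norm.stronglyMeasurable.integral_prod_right (ν := I)).aestronglyMeasurable
  · filter_upwards [sg_pos] with s hs
    rw [Real.norm_eq_abs, abs_of_nonneg (integral_nonneg fun x => norm_nonneg _)]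
    have h1 : ∫ x, ‖1 / (zz x + sg s)‖ ∂I = ∫ x, 1 / (zz x + sg s) ∂I := by
      refine integral_congr_ae (Eventually.of_forall fun x => ?_)
      have h2 : 0 ≤ 1 / (zz x + sg s) := by have := zz_nonneg x; positivity
      simp only [Real.norm_eq_abs, abs_of_nonneg h2]
    rw [h1]
    exact full_int hs

end Pool.Agent.R207.AI
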