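import Pool.Agent.R207.AI2

set_option autoImplicit false

open Filter Topology MeasureTheory

namespace Pool.Agent.R207.AI

open AH (I Q)

noncomputable def et (y : ℝ) : ℝ := Real.smoothTransition (4 - 4 * y)

noncomputable def et1 : ℝ → ℝ := deriv et

noncomputable def et2 : ℝ → ℝ := deriv et1

theorem et_cd : ContDiff ℝ 3 et := by
  have : ContDiff ℝ 3 Real.smoothTransition := Real.smoothTransition.contDiff
  exact this.comp (by fun_prop)

theorem et1_cd : ContDiff ℝ 2 et1 := by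
  have h2 : ContDiff ℝ (2 + 1) et := by
    have : (2 : WithTop ℕ∞) + 1 = 3 := by norm_num
    rw [this]; exact et_cd
  exact (contDiff_succ_iff_deriv.1 h2).2.2

theorem et2_cd : ContDiff ℝ 1 et2 := by
  have h2 : ContDiff ℝ (1 + 1) et1 := by
    have : (1 : WithTop ℕ∞) + 1 = 2 := by norm_num
    rw [this]; exact et1_cd
  exact (contDiff_succ_iff_deriv.1 h2).2.2

theorem et_hd (y : ℝ) : HasDerivAt et (et1 y) y :=
  ((et_cd.differentiable (by norm_num)) y).hasDerivAt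

theorem et1_hd (y : ℝ) : HasDerivAt et1 (et2 y) y :=
  ((et1_cd.differentiable (by norm_num)) y).hasDerivAt

theorem et_cont : Continuous et := et_cd.continuous

theorem et1_cont : Continuous et1 := et1_cd.continuous

theorem et2_cont : Continuous et2 := et2_cd.continuous

theorem et_nonneg (y : ℝ) : 0 ≤ et y := Real.smoothTransition.nonneg _

theorem et_le (y : ℝ) : et y ≤ 1 := Real.smoothTransition.le_one _

theorem et_one {y : ℝ} (hy : y ≤ 3 / 4) : et y = 1 :=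
  Real.smoothTransition.one_of_one_le (by linarith)

theorem et_zero {y : ℝ} (hy : 1 ≤ y) : et y = 0 :=
  Real.smoothTransition.zero_of_nonpos (by linarith)

theorem et1_left {y : ℝ} (hy : y ≤ 3 / 4) : et1 y = 0 := by
  have h1 : IsLocalMax et y := by
    refine Eventually.of_forall fun t => ?_
    rw [et_one hy]; exact et_le t
  exact h1.deriv_eq_zero

theorem et1_right {y : ℝ} (hy : 1 ≤ y) : et1 y = 0 := by
  have h1 : IsLocalMin et y := by
    refine Eventually.of_forall fun t => ?_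
    rw [et_zero hy]; exact et_nonneg t
  exact h1.deriv_eq_zero

theorem et2_right {y : ℝ} (hy : 1 ≤ y) : et2 y = 0 := by
  have h1 : ∀ x ∈ Set.Ioi (1 : ℝ), et2 x = 0 := by
    intro x hx
    have h2 : et1 =ᶠ[𝓝 x] fun _ => 0 := by
      filter_upwards [lt_mem_nhds hx] with t ht
      exact et1_right (le_of_lt ht)
    unfold et2
    rw [h2.deriv_eq]; simp
  have h2 : Set.EqOn et2 (fun _ => 0) (closure (Set.Ioi (1 : ℝ))) :=
    Set.EqOn.closure h1 et2_cont continuous_const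
  rw [closure_Ioi] at h2
  exact h2 hy

theorem et2_left {y : ℝ} (hy : y ≤ 3 / 4) : et2 y = 0 := by
  have h1 : ∀ x ∈ Set.Iio (3 / 4 : ℝ), et2 x = 0 := by
    intro x hx
    have h2 : et1 =ᶠ[𝓝 x] fun _ => 0 := by
      filter_upwards [gt_mem_nhds hx] with t ht
      exact et1_left (le_of_lt ht)
    unfold et2
    rw [h2.deriv_eq]; simp
  have h2 : Set.EqOn et2 (fun _ => 0) (closure (Set.Iio (3 / 4 : ℝ))) :=
    Set.EqOn.closure h1 et2_cont continuous_const
  rw [closure_Iio] at h2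
  exact h2 hy

theorem exists_E1 : ∃ C : ℝ, 0 ≤ C ∧ ∀ y, |et1 y| ≤ C := by
  obtain ⟨C, hC0, hC⟩ := AH.bdd01 et1_cont
  refine ⟨C, hC0, fun y => ?_⟩
  by_cases h : y ∈ Set.Icc (0 : ℝ) 1
  · exact hC y h
  · rw [Set.mem_Icc, not_and_or, not_le, not_le] at h
    rcases h with h | h
    · rw [et1_left (by linarith), abs_zero]; exact hC0
    · rw [et1_right h.le, abs_zero]; exact hC0

theorem exists_E2 : ∃ C : ℝ, 0 ≤ C ∧ ∀ y, |et2 y| ≤ C := by
  obtain ⟨C, hC0, hC⟩ := AH.bdd01 et2_cont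
  refine ⟨C, hC0, fun y => ?_⟩
  by_cases h : y ∈ Set.Icc (0 : ℝ) 1
  · exact hC y h
  · rw [Set.mem_Icc, not_and_or, not_le, not_le] at h
    rcases h with h | h
    · rw [et2_left (by linarith), abs_zero]; exact hC0
    · rw [et2_right h.le, abs_zero]; exact hC0

noncomputable def E1 : ℝ := exists_E1.choose

theorem E1_nn : 0 ≤ E1 := exists_E1.choose_spec.1

theorem E1_le (y : ℝ) : |et1 y| ≤ E1 := exists_E1.choose_spec.2 y

noncomputable def E2 : ℝ := exists_E2.choose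

theorem E2_nn : 0 ≤ E2 := exists_E2.choose_spec.1

theorem E2_le (y : ℝ) : |et2 y| ≤ E2 := exists_E2.choose_spec.2 y

/-- scale -/
noncomputable def aa (n : ℕ) : ℝ := (4 / 3) ^ n

theorem aa_pos (n : ℕ) : 0 < aa n := by unfold aa; positivity

noncomputable def G (s z : ℝ) : ℝ := Fn 0 s + ∑' n, Dn n s * et (aa n * z)

noncomputable def Gz (s z : ℝ) : ℝ := ∑' n, Dn n s * (aa n * et1 (aa n * z))

noncomputable def Gzz (s z : ℝ) : ℝ := ∑' n, Dn n s * (aa n ^ 2 * et2 (aa n * z))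

noncomputable def Gs (s z : ℝ) : ℝ :=
  if 0 < z then fn 0 s + ∑' n, dn n s * et (aa n * z) else 0

noncomputable def SN (N : ℕ) (s z : ℝ) : ℝ := Fn 0 s + ∑ n ∈ Finset.range N, Dn n s * et (aa n * z)

noncomputable def SNz (N : ℕ) (s z : ℝ) : ℝ :=
  ∑ n ∈ Finset.range N, Dn n s * (aa n * et1 (aa n * z))

noncomputable def SNzz (N : ℕ) (s z : ℝ) : ℝ :=
  ∑ n ∈ Finset.range N, Dn n s * (aa n ^ 2 * et2 (aa n * z))

noncomputable def SNs (N : ℕ) (s z : ℝ) : ℝ := fn 0 s + ∑ n ∈ Finset.range N, dn n s * et (aa n * z)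

noncomputable def SNsz (N : ℕ) (s z : ℝ) : ℝ :=
  ∑ n ∈ Finset.range N, dn n s * (aa n * et1 (aa n * z))

theorem b0 (n : ℕ) (s z : ℝ) : ‖Dn n s * et (aa n * z)‖ ≤ (1 / 2 : ℝ) ^ n := by
  rw [norm_mul, Real.norm_eq_abs, Real.norm_eq_abs, abs_of_nonneg (et_nonneg _)]
  have h1 := Dn_bd n s
  have h2 := et_le (aa n * z)
  have h3 := et_nonneg (aa n * z)
  nlinarith [abs_nonneg (Dn n s)]

theorem b1 (n : ℕ) (s z : ℝ) : ‖Dn n s * (aa n * et1 (aa n * z))‖ ≤ E1 * (2 / 3 : ℝ) ^ n := by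
  rw [norm_mul, norm_mul, Real.norm_eq_abs, Real.norm_eq_abs, Real.norm_eq_abs,
    abs_of_pos (aa_pos n)]
  have h1 := Dn_bd n s
  have h2 := E1_le (aa n * z)
  have h3 : (2 / 3 : ℝ) ^ n = (1 / 2) ^ n * aa n := by
    unfold aa; rw [← mul_pow]; norm_num
  calc |Dn n s| * (aa n * |et1 (aa n * z)|) ≤ (1 / 2) ^ n * (aa n * E1) := by
        refine mul_le_mul h1 ?_ (mul_nonneg (aa_pos n).le (abs_nonneg _)) (by positivity)
        exact mul_le_mul_of_nonneg_left h2 (aa_pos n).le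
    _ = E1 * (2 / 3 : ℝ) ^ n := by rw [h3]; ring

theorem b2 (n : ℕ) (s z : ℝ) : ‖Dn n s * (aa n ^ 2 * et2 (aa n * z))‖ ≤ E2 * (8 / 9 : ℝ) ^ n := by
  rw [norm_mul, norm_mul, Real.norm_eq_abs, Real.norm_eq_abs, Real.norm_eq_abs,
    abs_of_nonneg (sq_nonneg (aa n))]
  have h1 := Dn_bd n s
  have h2 := E2_le (aa n * z)
  have h3 : (8 / 9 : ℝ) ^ n = (1 / 2) ^ n * aa n ^ 2 := by
    unfold aa; rw [← pow_mul, mul_comm n 2, pow_mul, ← mul_pow]; norm_num
  calc |Dn n s| * (aa n ^ 2 * |et2 (aa n * z)|) ≤ (1 / 2) ^ n * (aa n ^ 2 * E2) := by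
        refine mul_le_mul h1 ?_ (mul_nonneg (sq_nonneg _) (abs_nonneg _)) (by positivity)
        exact mul_le_mul_of_nonneg_left h2 (sq_nonneg _)
    _ = E2 * (8 / 9 : ℝ) ^ n := by rw [h3]; ring

theorem u0 : Summable (fun n : ℕ => (1 / 2 : ℝ) ^ n) :=
  summable_geometric_of_lt_one (by norm_num) (by norm_num)

theorem u1 : Summable (fun n : ℕ => E1 * (2 / 3 : ℝ) ^ n) :=
  (summable_geometric_of_lt_one (by norm_num) (by norm_num)).mul_left _

theorem u2 : Summable (fun n : ℕ => E2 * (8 / 9 : ℝ) ^ n) := summ89.mul_left _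

theorem aa_lin (n : ℕ) (z : ℝ) : HasDerivAt (fun z : ℝ => aa n * z) (aa n) z := by
  simpa using (hasDerivAt_id z).const_mul (aa n)

theorem G_hd (s z : ℝ) : HasDerivAt (fun z => G s z) (Gz s z) z := by
  have h1 : HasDerivAt (fun z => ∑' n, Dn n s * et (aa n * z))
      (∑' n, Dn n s * (aa n * et1 (aa n * z))) z := by
    refine hasDerivAt_tsum u1 (fun n y => ?_) (fun n y => b1 n s y)
      (Summable.of_norm_bounded u0 (fun n => b0 n s 0)) z
    have := ((et_hd (aa n * y)).comp y (aa_lin n y)).const_mul (Dn n s)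
    exact this.congr_deriv (by ring)
  exact h1.const_add _

theorem Gz_hd (s z : ℝ) : HasDerivAt (fun z => Gz s z) (Gzz s z) z := by
  refine hasDerivAt_tsum u2 (fun n y => ?_) (fun n y => b2 n s y)
      (Summable.of_norm_bounded u1 (fun n => b1 n s 0)) z
  have := (((et1_hd (aa n * y)).comp y (aa_lin n y)).const_mul (aa n)).const_mul (Dn n s)
  exact this.congr_deriv (by ring)

theorem G_cont : Continuous (fun p : ℝ × ℝ => G p.1 p.2) := by
  refine ((Fn_cd 0).continuous.comp continuous_fst).add ?_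
  refine continuous_tsum (fun n => ?_) u0 (fun n p => b0 n p.1 p.2)
  exact ((Dn_cont n).comp continuous_fst).mul (et_cont.comp (by fun_prop))

theorem Gz_cont : Continuous (fun p : ℝ × ℝ => Gz p.1 p.2) := by
  refine continuous_tsum (fun n => ?_) u1 (fun n p => b1 n p.1 p.2)
  exact ((Dn_cont n).comp continuous_fst).mul (continuous_const.mul (et1_cont.comp (by fun_prop)))

theorem Gzz_cont : Continuous (fun p : ℝ × ℝ => Gzz p.1 p.2) := by
  refine continuous_tsum (fun n => ?_) u2 (fun n p => b2 n p.1 p.2)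
  exact ((Dn_cont n).comp continuous_fst).mul (continuous_const.mul (et2_cont.comp (by fun_prop)))

theorem G_bd (s z : ℝ) : |G s z| ≤ 3 := by
  have h1 := tsum_of_norm_bounded (u0.hasSum) (fun n => b0 n s z)
  rw [tsum_geometric_of_lt_one (by norm_num) (by norm_num), Real.norm_eq_abs] at h1
  norm_num at h1
  unfold G
  have h2 := Fn_nonneg 0 s
  have h3 := Fn_le_one 0 s
  rw [abs_le] at h1 ⊢
  constructor <;> linarith [h1.1, h1.2]

theorem Gz_bd : ∃ C : ℝ, 0 ≤ C ∧ ∀ s z, |Gz s z| ≤ C := by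
  refine ⟨∑' n : ℕ, E1 * (2 / 3 : ℝ) ^ n, tsum_nonneg (fun n => ?_), fun s z => ?_⟩
  · exact mul_nonneg E1_nn (by positivity)
  · exact tsum_of_norm_bounded (u1.hasSum) (fun n => b1 n s z)

theorem Gzz_bd : ∃ C : ℝ, 0 ≤ C ∧ ∀ s z, |Gzz s z| ≤ C := by
  refine ⟨∑' n : ℕ, E2 * (8 / 9 : ℝ) ^ n, tsum_nonneg (fun n => ?_), fun s z => ?_⟩
  · exact mul_nonneg E2_nn (by positivity)
  · exact tsum_of_norm_bounded (u2.hasSum) (fun n => b2 n s z)

/-- beyond level `N` all terms vanish -/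
theorem big {N n : ℕ} (hn : N ≤ n) {z : ℝ} (hz : 1 ≤ aa N * z) : 1 ≤ aa n * z := by
  have h1 : aa N ≤ aa n := pow_le_pow_right₀ (by norm_num) hn
  have h2 : 0 < z := by
    by_contra h
    push Not at h
    have := mul_nonpos_of_nonneg_of_nonpos (aa_pos N).le h
    linarith
  nlinarith

theorem small {N n : ℕ} (hn : n < N) {z : ℝ} (hz : aa N * z ≤ 1) : aa n * z ≤ 3 / 4 := by
  obtain ⟨k, rfl⟩ : ∃ k, N = n + 1 + k := ⟨N - (n + 1), by omega⟩
  rcases le_total z 0 with h | h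
  · have := mul_nonpos_of_nonneg_of_nonpos (aa_pos n).le h
    linarith
  · have h1 : aa (n + 1 + k) = aa n * (4 / 3) * (4 / 3) ^ k := by
      unfold aa; rw [pow_add, pow_succ]
    have h2 : (1 : ℝ) ≤ (4 / 3) ^ k := one_le_pow₀ (by norm_num)
    rw [h1] at hz
    have h3 : 0 ≤ aa n * z := mul_nonneg (aa_pos n).le h
    have h4 : aa n * z * (4 / 3) ≤ aa n * z * (4 / 3) * (4 / 3) ^ k :=
      le_mul_of_one_le_right (by positivity) h2
    nlinarith

theorem G_eq {N : ℕ} {z : ℝ} (hz : 1 ≤ aa N * z) (s : ℝ) : G s z = SN N s z := by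
  unfold G SN
  congr 1
  refine tsum_eq_sum (fun n hn => ?_)
  rw [et_zero (big (not_lt.1 (fun h => hn (Finset.mem_range.2 h))) hz), mul_zero]

theorem Gz_eq {N : ℕ} {z : ℝ} (hz : 1 ≤ aa N * z) (s : ℝ) : Gz s z = SNz N s z := by
  unfold Gz SNz
  refine tsum_eq_sum (fun n hn => ?_)
  rw [et1_right (big (not_lt.1 (fun h => hn (Finset.mem_range.2 h))) hz), mul_zero, mul_zero]

theorem Gzz_eq {N : ℕ} {z : ℝ} (hz : 1 ≤ aa N * z) (s : ℝ) : Gzz s z = SNzz N s z := by
  unfold Gzz SNzz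
  refine tsum_eq_sum (fun n hn => ?_)
  rw [et2_right (big (not_lt.1 (fun h => hn (Finset.mem_range.2 h))) hz), mul_zero, mul_zero]

theorem pos_of_big {N : ℕ} {z : ℝ} (hz : 1 ≤ aa N * z) : 0 < z := by
  by_contra h
  push Not at h
  have := mul_nonpos_of_nonneg_of_nonpos (aa_pos N).le h
  linarith

theorem Gs_eq {N : ℕ} {z : ℝ} (hz : 1 ≤ aa N * z) (s : ℝ) : Gs s z = SNs N s z := by
  unfold Gs SNs
  rw [if_pos (pos_of_big hz)]
  congr 1
  refine tsum_eq_sum (fun n hn => ?_)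
  rw [et_zero (big (not_lt.1 (fun h => hn (Finset.mem_range.2 h))) hz), mul_zero]

theorem exists_big {z : ℝ} (hz : 0 < z) : ∃ N : ℕ, 1 ≤ aa N * z := by
  obtain ⟨N, hN⟩ := pow_unbounded_of_one_lt (1 / z) (by norm_num : (1 : ℝ) < 4 / 3)
  refine ⟨N, ?_⟩
  rw [div_lt_iff₀ hz] at hN
  exact hN.le

theorem exists_level {z : ℝ} (hz : 0 < z) (hz1 : z ≤ 1) :
    ∃ N : ℕ, aa N * z ≤ 1 ∧ 1 ≤ aa (N + 1) * z := by
  obtain ⟨N, h1, h2⟩ := exists_nat_pow_near_of_lt_one hz hz1 (by norm_num : (0 : ℝ) < 3 / 4)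
    (by norm_num)
  have key : ∀ n : ℕ, aa n * (3 / 4) ^ n = 1 := by
    intro n; unfold aa; rw [← mul_pow]; norm_num
  refine ⟨N, ?_, ?_⟩
  · rw [← key N]; exact mul_le_mul_of_nonneg_left h2 (aa_pos N).le
  · rw [← key (N + 1)]; exact mul_le_mul_of_nonneg_left h1.le (aa_pos _).le

theorem Gs_form {N : ℕ} {z : ℝ} (h1 : aa N * z ≤ 1) (h2 : 1 ≤ aa (N + 1) * z) (s : ℝ) :
    Gs s z = (1 - et (aa N * z)) * fn N s + et (aa N * z) * fn (N + 1) s := by
  rw [Gs_eq h2]
  unfold SNs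
  rw [Finset.sum_range_succ]
  have h3 : ∑ n ∈ Finset.range N, dn n s * et (aa n * z) = ∑ n ∈ Finset.range N, dn n s := by
    refine Finset.sum_congr rfl fun n hn => ?_
    rw [et_one (small (Finset.mem_range.1 hn) h1), mul_one]
  rw [h3, ← add_assoc, fn_sum]
  unfold dn
  ring

theorem Gs_nonneg {z : ℝ} (hz : z ≤ 1) (s : ℝ) : 0 ≤ Gs s z := by
  by_cases h : 0 < z
  · obtain ⟨N, h1, h2⟩ := exists_level h hz
    rw [Gs_form h1 h2]
    have := et_nonneg (aa N * z)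
    have := et_le (aa N * z)
    exact add_nonneg (mul_nonneg (by linarith) (fn_nonneg _ _))
      (mul_nonneg (et_nonneg _) (fn_nonneg _ _))
  · unfold Gs; rw [if_neg h]

/-- on the support of `Gs` the second derivative of the rounded kink is bounded -/
theorem Gs_supp {z : ℝ} (hz : z ≤ 1) {s : ℝ} (hs : Gs s z ≠ 0) :
    0 < z ∧ sg s ^ 2 / (z + sg s) ^ 3 ≤ 192 := by
  have h : 0 < z := by
    by_contra h
    exact hs (by unfold Gs; rw [if_neg h])
  refine ⟨h, ?_⟩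
  obtain ⟨N, h1, h2⟩ := exists_level h hz
  rw [Gs_form h1 h2] at hs
  have h3 : sg s ≤ (1 / 9) ^ N * 9 := by
    by_cases h4 : fn N s = 0
    · have h5 : fn (N + 1) s ≠ 0 := fun h6 => hs (by rw [h4, h6]; ring)
      have := fn_supp (N + 1) s h5
      rw [pow_succ] at this
      have h6 : (0 : ℝ) ≤ (1 / 9) ^ N := by positivity
      nlinarith
    · exact fn_supp N s h4
  have h4 : (3 / 4 : ℝ) ^ (N + 1) ≤ z := by
    have key : aa (N + 1) * (3 / 4) ^ (N + 1) = 1 := by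
      unfold aa; rw [← mul_pow]; norm_num
    rw [← key] at h2
    exact le_of_mul_le_mul_left h2 (aa_pos _)
  have h5 := sg_nonneg s
  have h6 : 0 < (3 / 4 : ℝ) ^ (N + 1) := by positivity
  rw [div_le_iff₀ (by positivity)]
  have h7 : sg s ^ 2 ≤ ((1 / 9) ^ N * 9) ^ 2 := by gcongr
  have h8 : ((3 / 4 : ℝ) ^ (N + 1)) ^ 3 ≤ (z + sg s) ^ 3 := by
    gcongr; linarith
  have h9 : ((1 / 9 : ℝ) ^ N * 9) ^ 2 ≤ 192 * ((3 / 4 : ℝ) ^ (N + 1)) ^ 3 := by
    have e1 : ((1 / 9 : ℝ) ^ N * 9) ^ 2 = 81 * (1 / 81) ^ N := by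
      rw [mul_pow, ← pow_mul, mul_comm N 2, pow_mul]; norm_num; ring
    have e2 : 192 * ((3 / 4 : ℝ) ^ (N + 1)) ^ 3 = 81 * (27 / 64) ^ N := by
      have e3 : ((3 / 4 : ℝ) ^ (N + 1)) ^ 3 = (27 / 64) ^ N * (27 / 64) := by
        rw [← pow_mul, mul_comm (N + 1) 3, pow_mul, pow_succ]; norm_num
      rw [e3]; ring
    rw [e1, e2]
    have : (1 / 81 : ℝ) ^ N ≤ (27 / 64) ^ N := pow_le_pow_left₀ (by norm_num) (by norm_num) N
    linarith
  linarith

theorem SNs_cont (N : ℕ) : Continuous (fun p : ℝ × ℝ => SNs N p.1 p.2) := by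
  unfold SNs
  refine ((fn_cont 0).comp continuous_fst).add (continuous_finsetSum _ fun n _ => ?_)
  exact ((dn_cont n).comp continuous_fst).mul (et_cont.comp (by fun_prop))

theorem SNsz_cont (N : ℕ) : Continuous (fun p : ℝ × ℝ => SNsz N p.1 p.2) := by
  unfold SNsz
  refine (continuous_finsetSum _ fun n _ => ?_)
  exact ((dn_cont n).comp continuous_fst).mul (continuous_const.mul (et1_cont.comp (by fun_prop)))

theorem Gs_meas : Measurable (fun p : ℝ × ℝ => Gs p.1 p.2) := by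
  have h1 : ∀ N : ℕ, Measurable (fun p : ℝ × ℝ => if 0 < p.2 then SNs N p.1 p.2 else 0) :=
    fun N => Measurable.ite (measurableSet_lt measurable_const measurable_snd)
      (SNs_cont N).measurable measurable_const
  refine measurable_of_tendsto_metrizable h1 ?_
  rw [tendsto_pi_nhds]
  intro p
  by_cases h : 0 < p.2
  · obtain ⟨N, hN⟩ := exists_big h
    refine tendsto_const_nhds.congr' ?_
    filter_upwards [eventually_ge_atTop N] with n hn
    rw [if_pos h, Gs_eq (big hn hN)]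
  · simp only [if_neg h]
    unfold Gs
    rw [if_neg h]
    exact tendsto_const_nhds

theorem SN_hs (N : ℕ) (s z : ℝ) : HasDerivAt (fun s => SN N s z) (SNs N s z) s := by
  unfold SN SNs
  refine (fn_hd 0 s).add ?_
  exact HasDerivAt.fun_sum fun n _ => (dn_hd n s).mul_const _

theorem SNz_hs (N : ℕ) (s z : ℝ) : HasDerivAt (fun s => SNz N s z) (SNsz N s z) s := by
  unfold SNz SNsz
  exact HasDerivAt.fun_sum fun n _ => (dn_hd n s).mul_const _

theorem SNs_hz (N : ℕ) (s z : ℝ) : HasDerivAt (fun z => SNs N s z) (SNsz N s z) z := by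
  unfold SNs SNsz
  refine HasDerivAt.const_add _ (HasDerivAt.fun_sum fun n _ => ?_)
  have := ((et_hd (aa n * z)).comp z (aa_lin n z)).const_mul (dn n s)
  exact this.congr_deriv (by ring)

theorem G_hs {z : ℝ} (hz : 0 < z) (s : ℝ) : HasDerivAt (fun s => G s z) (Gs s z) s := by
  obtain ⟨N, hN⟩ := exists_big hz
  have h1 : (fun s => G s z) = fun s => SN N s z := funext fun s => G_eq hN s
  rw [h1, Gs_eq hN]
  exact SN_hs N s z

theorem Gs_cont {z : ℝ} (hz : 0 < z) : Continuous (fun s => Gs s z) := by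
  obtain ⟨N, hN⟩ := exists_big hz
  have h1 : (fun s => Gs s z) = fun s => SNs N s z := funext fun s => Gs_eq hN s
  rw [h1]
  exact (SNs_cont N).comp (continuous_id.prodMk continuous_const)

theorem G_zero (z : ℝ) : G 0 z = 0 := by
  unfold G
  rw [Fn_zero_of 0 0 le_rfl]
  simp [Dn_left]

theorem G_one (z : ℝ) : G 1 z = 1 := by
  unfold G
  rw [Fn_one_of 0 1 le_rfl]
  simp [Dn_right]

end Pool.Agent.R207.AI
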