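import Pool.Agent.R207.AI3

set_option autoImplicit false

open Filter Topology MeasureTheory

namespace Pool.Agent.R207.AI

open AH (I Q)

noncomputable def z1 (x : ℝ) : ℝ := Real.pi * Real.sin (2 * (Real.pi * x))

noncomputable def z2 (x : ℝ) : ℝ := 2 * Real.pi ^ 2 * Real.cos (2 * (Real.pi * x))

theorem zz_hd (x : ℝ) : HasDerivAt zz (z1 x) x := by
  have h1 : HasDerivAt (fun x : ℝ => Real.pi * x) Real.pi x := by
    simpa using (hasDerivAt_id x).const_mul Real.pi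
  have h2 := (h1.sin).pow 2
  refine h2.congr_deriv ?_
  unfold z1
  rw [Real.sin_two_mul]
  simp
  ring

theorem z1_hd (x : ℝ) : HasDerivAt z1 (z2 x) x := by
  have h1 : HasDerivAt (fun x : ℝ => 2 * (Real.pi * x)) (2 * Real.pi) x := by
    simpa using ((hasDerivAt_id x).const_mul Real.pi).const_mul 2
  have h2 := (h1.sin).const_mul Real.pi
  refine h2.congr_deriv ?_
  unfold z2
  ring

theorem z1_sq (x : ℝ) : z1 x ^ 2 = 4 * Real.pi ^ 2 * (zz x * (1 - zz x)) := by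
  unfold z1 zz
  rw [Real.sin_two_mul]
  have := Real.sin_sq_add_cos_sq (Real.pi * x)
  have h2 : 1 - Real.sin (Real.pi * x) ^ 2 = Real.cos (Real.pi * x) ^ 2 := by linarith
  rw [h2]; ring

theorem z2_eq (x : ℝ) : z2 x = 2 * Real.pi ^ 2 * (1 - 2 * zz x) := by
  unfold z2 zz
  rw [Real.cos_two_mul]
  have := Real.sin_sq_add_cos_sq (Real.pi * x)
  have h2 : Real.cos (Real.pi * x) ^ 2 = 1 - Real.sin (Real.pi * x) ^ 2 := by linarith
  rw [h2]; ring

theorem z1_cont : Continuous z1 := by unfold z1; fun_prop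

theorem z2_cont : Continuous z2 := by unfold z2; fun_prop

theorem pi2 : Real.pi ^ 2 ≤ 16 := by
  have h1 := Real.pi_pos; have h2 := Real.pi_le_four; nlinarith

theorem z1_bd (x : ℝ) : |z1 x| ≤ 4 := by
  unfold z1
  rw [abs_mul, abs_of_pos Real.pi_pos]
  have := Real.abs_sin_le_one (2 * (Real.pi * x))
  have h1 := Real.pi_pos; have h2 := Real.pi_le_four
  nlinarith [abs_nonneg (Real.sin (2 * (Real.pi * x)))]

theorem z2_bd (x : ℝ) : |z2 x| ≤ 32 := by
  unfold z2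
  rw [abs_mul, abs_of_nonneg (by positivity)]
  have := Real.abs_cos_le_one (2 * (Real.pi * x))
  have h1 := pi2
  nlinarith [abs_nonneg (Real.cos (2 * (Real.pi * x))), sq_nonneg Real.pi]

noncomputable def RR (p : ℝ × ℝ) : ℝ := √(zz p.2 + sg p.1)

noncomputable def Bt (p : ℝ × ℝ) : ℝ := z2 p.2 / (4 * RR p) - z1 p.2 ^ 2 / (8 * RR p ^ 3)

noncomputable def Ph (p : ℝ × ℝ) : ℝ := G p.1 (zz p.2) - p.1 / 2 * RR p

noncomputable def Phx (p : ℝ × ℝ) : ℝ := z1 p.2 * (Gz p.1 (zz p.2) - p.1 / (4 * RR p))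

noncomputable def Phxx (p : ℝ × ℝ) : ℝ :=
  (Gzz p.1 (zz p.2) * z1 p.2 ^ 2 + Gz p.1 (zz p.2) * z2 p.2) - p.1 * Bt p

noncomputable def Phs (p : ℝ × ℝ) : ℝ :=
  Gs p.1 (zz p.2) - RR p / 2 - p.1 * sd p.1 / (4 * RR p)

theorem csum_nn (p : ℝ × ℝ) : 0 ≤ zz p.2 + sg p.1 := add_nonneg (zz_nonneg _) (sg_nonneg _)

theorem RR_cont : Continuous RR := by
  unfold RR
  exact ((zz_cont.comp continuous_snd).add (sg_cont.comp continuous_fst)).sqrt

theorem RR_meas : Measurable RR := RR_cont.measurable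

theorem RR_nn (p : ℝ × ℝ) : 0 ≤ RR p := Real.sqrt_nonneg _

theorem RR_le (p : ℝ × ℝ) : RR p ≤ 4 := by
  unfold RR
  rw [Real.sqrt_le_left (by norm_num)]
  have := zz_le p.2; have := sg_le p.1; linarith

theorem RR_sq (p : ℝ × ℝ) : RR p ^ 2 = zz p.2 + sg p.1 := Real.sq_sqrt (csum_nn p)

theorem Bt_bd {p : ℝ × ℝ} (hc : 0 < zz p.2 + sg p.1) :
    Bt p ^ 2 ≤ 128 * (1 + sg p.1 ^ 2 / (zz p.2 + sg p.1) ^ 3) := by
  have hR : 0 < RR p := Real.sqrt_pos.2 hc
  have hR2 := RR_sq p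
  set z := zz p.2 with hz
  set σ := sg p.1 with hσ
  set R := RR p with hRdef
  have h1 : Bt p = Real.pi ^ 2 / 2 * (-z ^ 2 + σ * (1 - 2 * z)) / R ^ 3 := by
    unfold Bt
    rw [z1_sq, z2_eq, ← hz, ← hRdef]
    have h2 : 2 * Real.pi ^ 2 * (1 - 2 * z) / (4 * R)
        = Real.pi ^ 2 / 2 * ((1 - 2 * z) * R ^ 2) / R ^ 3 := by
      field_simp
      ring
    have h3 : 4 * Real.pi ^ 2 * (z * (1 - z)) / (8 * R ^ 3)
        = Real.pi ^ 2 / 2 * (z * (1 - z)) / R ^ 3 := by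
      field_simp
      ring
    rw [h2, h3, ← sub_div, ← mul_sub, hR2]
    congr 2
    ring
  have hzn : 0 ≤ z := zz_nonneg _
  have hz1 : z ≤ 1 := zz_le _
  have hσn : 0 ≤ σ := sg_nonneg _
  have h6 : R ^ 3 * R ^ 3 = (z + σ) ^ 3 := by
    rw [← hR2]; ring
  have h7 : 0 < (z + σ) ^ 3 := by positivity
  have h8 : Bt p ^ 2 = (Real.pi ^ 2) ^ 2 / 4 * (-z ^ 2 + σ * (1 - 2 * z)) ^ 2 / (z + σ) ^ 3 := by
    rw [h1, div_pow, ← h6, mul_pow, div_pow]
    ring
  rw [h8, div_le_iff₀ h7]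
  have h9 : 128 * (1 + σ ^ 2 / (z + σ) ^ 3) * (z + σ) ^ 3 = 128 * ((z + σ) ^ 3 + σ ^ 2) := by
    field_simp
  rw [h9]
  have h10 : (-z ^ 2 + σ * (1 - 2 * z)) ^ 2 ≤ 2 * ((z + σ) ^ 3 + σ ^ 2) := by
    have a1 : (-z ^ 2 + σ * (1 - 2 * z)) ^ 2 ≤ 2 * ((z ^ 2) ^ 2 + (σ * (1 - 2 * z)) ^ 2) := by
      nlinarith [sq_nonneg (-z ^ 2 - σ * (1 - 2 * z))]
    have a2 : (σ * (1 - 2 * z)) ^ 2 ≤ σ ^ 2 := by
      rw [mul_pow]
      have : (1 - 2 * z) ^ 2 ≤ 1 := by nlinarith
      nlinarith [sq_nonneg σ]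
    have a3 : (z ^ 2) ^ 2 ≤ z ^ 3 := by
      have : (z ^ 2) ^ 2 = z ^ 3 * z := by ring
      rw [this]
      nlinarith [pow_nonneg hzn 3]
    have a4 : z ^ 3 ≤ (z + σ) ^ 3 := by gcongr; linarith
    linarith
  have h11 : (Real.pi ^ 2) ^ 2 ≤ 256 := by
    have := pi2; nlinarith [sq_nonneg Real.pi]
  have h12 : 0 ≤ (-z ^ 2 + σ * (1 - 2 * z)) ^ 2 := sq_nonneg _
  have h13 : (Real.pi ^ 2) ^ 2 / 4 * (-z ^ 2 + σ * (1 - 2 * z)) ^ 2
      ≤ 64 * (-z ^ 2 + σ * (1 - 2 * z)) ^ 2 := by nlinarith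
  linarith

theorem frac_le {p : ℝ × ℝ} (hc : 0 < zz p.2 + sg p.1) :
    sg p.1 ^ 2 / (zz p.2 + sg p.1) ^ 3 ≤ 1 / (zz p.2 + sg p.1) := by
  rw [div_le_div_iff₀ (by positivity) hc, one_mul]
  have h1 : sg p.1 ^ 2 ≤ (zz p.2 + sg p.1) ^ 2 := by
    have := zz_nonneg p.2; have := sg_nonneg p.1
    gcongr; linarith
  have h2 : (zz p.2 + sg p.1) ^ 3 = (zz p.2 + sg p.1) ^ 2 * (zz p.2 + sg p.1) := by ring
  rw [h2]
  exact mul_le_mul_of_nonneg_right h1 hc.le

theorem z1_R (p : ℝ × ℝ) : |z1 p.2| ≤ 8 * RR p := by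
  refine abs_le_of_sq_le_sq ?_ (mul_nonneg (by norm_num) (RR_nn p))
  rw [z1_sq, mul_pow, RR_sq]
  have h1 := zz_nonneg p.2
  have h2 := zz_le p.2
  have h3 := sg_nonneg p.1
  have h4 := pi2
  have h5 : zz p.2 * (1 - zz p.2) ≤ zz p.2 := by nlinarith
  have h6 : 0 ≤ zz p.2 * (1 - zz p.2) := mul_nonneg h1 (by linarith)
  nlinarith [sq_nonneg Real.pi]

theorem zz_pos {x : ℝ} (hx : x ∈ Set.Ioo (0 : ℝ) 1) : 0 < zz x := by
  have h1 : 0 < Real.sin (Real.pi * x) :=
    Real.sin_pos_of_pos_of_lt_pi (mul_pos Real.pi_pos hx.1) (by nlinarith [Real.pi_pos, hx.2])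
  unfold zz; positivity

theorem ae_Ioo : ∀ᵐ x ∂I, x ∈ Set.Ioo (0 : ℝ) 1 := by
  unfold AH.I
  rw [← restrict_Ioo_eq_restrict_Ioc]
  exact ae_restrict_mem measurableSet_Ioo

theorem ae_zz : ∀ᵐ x ∂I, 0 < zz x := by
  filter_upwards [ae_Ioo] with x hx using zz_pos hx

theorem ae_c : ∀ᵐ p : ℝ × ℝ ∂Q, 0 < zz p.2 + sg p.1 := by
  filter_upwards [AH.ae_snd ae_zz] with p hp
  have := sg_nonneg p.1; linarith

noncomputable def gs (p : ℝ × ℝ) : ℝ := Gs p.1 (zz p.2)

theorem gs_meas : Measurable gs :=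
  Gs_meas.comp (measurable_fst.prodMk (zz_cont.measurable.comp measurable_snd))

theorem gs_nn (p : ℝ × ℝ) : 0 ≤ gs p := Gs_nonneg (zz_le _) _

theorem gs_int : Integrable gs Q := by
  unfold Q
  rw [integrable_prod_iff' gs_meas.aestronglyMeasurable]
  constructor
  · filter_upwards [ae_zz] with x hx
    exact AH.intble_I (Gs_cont hx)
  · refine (integrable_const (1 : ℝ)).congr ?_
    filter_upwards [ae_zz] with x hx
    have h1 : ∫ s, ‖gs (s, x)‖ ∂I = ∫ s, Gs s (zz x) ∂I := by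
      refine integral_congr_ae (Eventually.of_forall fun s => ?_)
      simp only
      rw [Real.norm_eq_abs, abs_of_nonneg (gs_nn _)]
      rfl
    rw [h1, AH.int_I, intervalIntegral.integral_eq_sub_of_hasDerivAt (fun s _ => G_hs hx s)
      ((Gs_cont hx).intervalIntegrable _ _), G_one, G_zero, sub_zero]

/-- the coefficient -/
noncomputable def mu (p : ℝ × ℝ) : ℝ := 1 + gs p

theorem mu_meas : Measurable mu := measurable_const.add gs_meas

theorem mu_one (p : ℝ × ℝ) : 1 ≤ mu p := by unfold mu; have := gs_nn p; linarith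

theorem mu_int : Integrable mu Q := (integrable_const _).add gs_int

noncomputable def TT (p : ℝ × ℝ) : ℝ := p.1 * sd p.1 / (4 * RR p)

theorem TT_meas : Measurable TT :=
  (measurable_fst.mul (sd_cont.measurable.comp measurable_fst)).div
    (measurable_const.mul RR_meas)

theorem TT_sq {p : ℝ × ℝ} (hp : p.1 ∈ Set.Icc (0 : ℝ) 1) (hc : 0 < zz p.2 + sg p.1) :
    TT p ^ 2 ≤ 6 * (1 / (zz p.2 + sg p.1)) := by
  unfold TT
  rw [div_pow, mul_pow 4, RR_sq, mul_one_div, div_le_div_iff₀ (by positivity) hc]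
  have h1 : (p.1 * sd p.1) ^ 2 ≤ 81 := by
    rw [mul_pow]
    have h2 := sd_le p.1
    have h3 : sd p.1 ^ 2 ≤ 81 := by
      rw [← sq_abs]; nlinarith [abs_nonneg (sd p.1)]
    have h4 : p.1 ^ 2 ≤ 1 := by nlinarith [hp.1, hp.2]
    nlinarith [sq_nonneg (sd p.1), sq_nonneg p.1]
  nlinarith

theorem TT_int2 : Integrable (fun p => TT p ^ 2) Q := by
  refine (inv_int.const_mul 6).mono' (TT_meas.pow_const 2).aestronglyMeasurable ?_
  filter_upwards [AH.ae_mem1, ae_c] with p hp hc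
  rw [Real.norm_eq_abs, abs_of_nonneg (sq_nonneg _)]
  exact TT_sq hp hc

theorem TT_L : MemLp TT 2 Q :=
  (memLp_two_iff_integrable_sq TT_meas.aestronglyMeasurable).2 TT_int2

theorem Ph_meas : Measurable Ph := by
  unfold Ph
  exact (G_cont.measurable.comp (measurable_fst.prodMk (zz_cont.measurable.comp
    measurable_snd))).sub ((measurable_fst.div_const 2).mul RR_meas)

theorem gz_meas : Measurable (fun p : ℝ × ℝ => Gz p.1 (zz p.2)) :=
  Gz_cont.measurable.comp (measurable_fst.prodMk (zz_cont.measurable.comp measurable_snd))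

theorem gzz_meas : Measurable (fun p : ℝ × ℝ => Gzz p.1 (zz p.2)) :=
  Gzz_cont.measurable.comp (measurable_fst.prodMk (zz_cont.measurable.comp measurable_snd))

theorem Phx_meas : Measurable Phx := by
  unfold Phx
  exact (z1_cont.measurable.comp measurable_snd).mul
    (gz_meas.sub (measurable_fst.div (measurable_const.mul RR_meas)))

theorem Bt_meas : Measurable Bt := by
  unfold Bt
  exact ((z2_cont.measurable.comp measurable_snd).div (measurable_const.mul RR_meas)).sub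
    (((z1_cont.measurable.comp measurable_snd).pow_const 2).div
      (measurable_const.mul (RR_meas.pow_const 3)))

theorem Phxx_meas : Measurable Phxx := by
  unfold Phxx
  exact ((gzz_meas.mul ((z1_cont.measurable.comp measurable_snd).pow_const 2)).add
    (gz_meas.mul (z2_cont.measurable.comp measurable_snd))).sub (measurable_fst.mul Bt_meas)

theorem Phs_meas : Measurable Phs := by
  unfold Phs
  exact (gs_meas.sub (RR_meas.div_const 2)).sub TT_meas

theorem RR_hx {s x : ℝ} (hc : 0 < zz x + sg s) :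
    HasDerivAt (fun x => RR (s, x)) (z1 x / (2 * RR (s, x))) x := by
  have h1 := ((zz_hd x).add_const (sg s)).sqrt hc.ne'
  exact h1

theorem Ph_hx {s x : ℝ} (hc : 0 < zz x + sg s) :
    HasDerivAt (fun x => Ph (s, x)) (Phx (s, x)) x := by
  have h1 : HasDerivAt (fun x => G s (zz x)) (Gz s (zz x) * z1 x) x :=
    (G_hd s (zz x)).comp x (zz_hd x)
  have h2 := h1.sub ((RR_hx hc).const_mul (s / 2))
  refine h2.congr_deriv ?_
  have hR : 0 < RR (s, x) := Real.sqrt_pos.2 hc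
  simp only [Phx]
  field_simp
  ring

theorem Phx_hx {s x : ℝ} (hc : 0 < zz x + sg s) :
    HasDerivAt (fun x => Phx (s, x)) (Phxx (s, x)) x := by
  have hR : 0 < RR (s, x) := Real.sqrt_pos.2 hc
  have h1 : HasDerivAt (fun x => Gz s (zz x)) (Gzz s (zz x) * z1 x) x :=
    (Gz_hd s (zz x)).comp x (zz_hd x)
  have h2 : HasDerivAt (fun x => s / (4 * RR (s, x)))
      (-(s * (4 * (z1 x / (2 * RR (s, x))))) / (4 * RR (s, x)) ^ 2) x := by
    have h3 := (hasDerivAt_const x s).div ((RR_hx hc).const_mul 4) (by positivity)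
    refine h3.congr_deriv ?_
    ring
  have h3 := (z1_hd x).mul (h1.sub h2)
  refine h3.congr_deriv ?_
  simp only [Phxx, Bt, Pi.sub_apply]
  field_simp
  ring

theorem Phxx_contx {s : ℝ} (hs : 0 < sg s) : Continuous (fun x => Phxx (s, x)) := by
  have hR : ∀ x, RR (s, x) ≠ 0 := fun x =>
    (Real.sqrt_pos.2 (by have := zz_nonneg x; positivity)).ne'
  have hRc : Continuous (fun x => RR (s, x)) := RR_cont.comp (by fun_prop)
  have h1 : Continuous (fun x => Gz s (zz x)) := Gz_cont.comp (continuous_const.prodMk zz_cont)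
  have h2 : Continuous (fun x => Gzz s (zz x)) := Gzz_cont.comp (continuous_const.prodMk zz_cont)
  unfold Phxx Bt
  refine ((h2.mul (z1_cont.pow 2)).add (h1.mul z2_cont)).sub (continuous_const.mul ?_)
  refine (z2_cont.div (continuous_const.mul hRc) (fun x => ?_)).sub
    ((z1_cont.pow 2).div (continuous_const.mul (hRc.pow 3)) (fun x => ?_))
  · exact mul_ne_zero (by norm_num) (hR x)
  · exact mul_ne_zero (by norm_num) (pow_ne_zero 3 (hR x))

theorem Ph_hs {s x : ℝ} (hx : 0 < zz x) : HasDerivAt (fun s => Ph (s, x)) (Phs (s, x)) s := by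
  have hc : 0 < zz x + sg s := by have := sg_nonneg s; linarith
  have hR : 0 < RR (s, x) := Real.sqrt_pos.2 hc
  have h1 : HasDerivAt (fun s => RR (s, x)) (sd s / (2 * RR (s, x))) s :=
    ((sg_hd s).const_add (zz x)).sqrt hc.ne'
  have h2 := (G_hs hx s).sub (((hasDerivAt_id s).div_const 2).mul h1)
  refine h2.congr_deriv ?_
  simp only [Phs, id]
  field_simp
  ring

theorem Phs_conts {x : ℝ} (hx : 0 < zz x) : Continuous (fun s => Phs (s, x)) := by
  have hR : ∀ s, RR (s, x) ≠ 0 := fun s =>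
    (Real.sqrt_pos.2 (by have := sg_nonneg s; positivity)).ne'
  have hRc : Continuous (fun s => RR (s, x)) := RR_cont.comp (by fun_prop)
  unfold Phs
  refine ((Gs_cont hx).sub (hRc.div_const 2)).sub ?_
  exact (continuous_id.mul sd_cont).div (continuous_const.mul hRc)
    (fun s => mul_ne_zero (by norm_num) (hR s))

theorem Ph_zero (x : ℝ) : Ph (0, x) = 0 := by
  unfold Ph; simp [G_zero]

theorem zz_per : zz 1 = zz 0 := by unfold zz; simp

theorem z1_zero : z1 0 = 0 := by unfold z1; simp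

theorem z1_one : z1 1 = 0 := by unfold z1; simp

theorem Phx_bd : ∃ B : ℝ, 0 ≤ B ∧ ∀ p : ℝ × ℝ, p.1 ∈ Set.Icc (0 : ℝ) 1 →
    0 < zz p.2 + sg p.1 → |Phx p| ≤ B := by
  obtain ⟨C, hC0, hC⟩ := Gz_bd
  refine ⟨4 * C + 2, by positivity, fun p hp hc => ?_⟩
  have hR : 0 < RR p := Real.sqrt_pos.2 hc
  unfold Phx
  rw [mul_sub]
  refine (abs_sub _ _).trans ?_
  have h1 : |z1 p.2 * Gz p.1 (zz p.2)| ≤ 4 * C := by
    rw [abs_mul]
    exact mul_le_mul (z1_bd _) (hC _ _) (abs_nonneg _) (by norm_num)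
  have h2 : |z1 p.2 * (p.1 / (4 * RR p))| ≤ 2 := by
    rw [← mul_div_assoc, abs_div, abs_of_pos (by positivity : 0 < 4 * RR p),
      div_le_iff₀ (by positivity), abs_mul, abs_of_nonneg hp.1]
    have := z1_R p
    nlinarith [abs_nonneg (z1 p.2), hp.1, hp.2]
  linarith

theorem AA_bd : ∃ C : ℝ, 0 ≤ C ∧ ∀ s x : ℝ,
    (Gzz s (zz x) * z1 x ^ 2 + Gz s (zz x) * z2 x) ^ 2 ≤ C := by
  obtain ⟨C, hC0, hC⟩ := Gz_bd
  obtain ⟨D, hD0, hD⟩ := Gzz_bd
  refine ⟨(D * 16 + C * 32) ^ 2, by positivity, fun s x => ?_⟩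
  rw [← sq_abs]
  refine pow_le_pow_left₀ (abs_nonneg _) ?_ 2
  refine (abs_add_le _ _).trans ?_
  rw [abs_mul, abs_mul, abs_of_nonneg (sq_nonneg (z1 x))]
  have h1 := z1_bd x
  have h2 : z1 x ^ 2 ≤ 16 := by rw [← sq_abs]; nlinarith [abs_nonneg (z1 x)]
  exact add_le_add (mul_le_mul (hD _ _) h2 (sq_nonneg _) hD0)
    (mul_le_mul (hC _ _) (z2_bd _) (abs_nonneg _) hC0)

theorem muxx_int : Integrable (fun p => mu p * Phxx p ^ 2) Q := by
  obtain ⟨C, hC0, hC⟩ := AA_bd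
  have h1 : Integrable (fun p : ℝ × ℝ => (2 * C + 256) + 256 * (1 / (zz p.2 + sg p.1))
      + (2 * C + 256 * 193) * gs p) Q :=
    ((integrable_const _).add (inv_int.const_mul 256)).add (gs_int.const_mul _)
  refine h1.mono' (mu_meas.mul (Phxx_meas.pow_const 2)).aestronglyMeasurable ?_
  filter_upwards [AH.ae_mem1, ae_c] with p hp hc
  have hmu := mu_one p
  rw [Real.norm_eq_abs, abs_of_nonneg (mul_nonneg (by linarith) (sq_nonneg _))]
  have hb := Bt_bd hc
  set fr := sg p.1 ^ 2 / (zz p.2 + sg p.1) ^ 3 with hfr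
  have hfr0 : 0 ≤ fr := by positivity
  have h2 : Phxx p ^ 2 ≤ 2 * C + 256 * (1 + fr) := by
    have h3 : Phxx p ^ 2 ≤ 2 * (Gzz p.1 (zz p.2) * z1 p.2 ^ 2 + Gz p.1 (zz p.2) * z2 p.2) ^ 2
        + 2 * (p.1 * Bt p) ^ 2 := by
      unfold Phxx
      nlinarith [sq_nonneg ((Gzz p.1 (zz p.2) * z1 p.2 ^ 2 + Gz p.1 (zz p.2) * z2 p.2)
        + p.1 * Bt p)]
    have h4 : (p.1 * Bt p) ^ 2 ≤ Bt p ^ 2 := by
      rw [mul_pow]
      have : p.1 ^ 2 ≤ 1 := by nlinarith [hp.1, hp.2]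
      nlinarith [sq_nonneg (Bt p)]
    have h5 := hC p.1 p.2
    linarith
  have h3 := frac_le hc
  rw [← hfr] at h3
  unfold mu
  rw [add_mul, one_mul]
  by_cases hg : gs p = 0
  · rw [hg, zero_mul, mul_zero]
    linarith
  · have h4 := (Gs_supp (zz_le p.2) hg).2
    rw [← hfr] at h4
    have h5 : Phxx p ^ 2 ≤ 2 * C + 256 * 193 := by linarith
    have h6 := mul_le_mul_of_nonneg_left h5 (gs_nn p)
    linarith

theorem s2_int : Integrable (fun p => Phs p ^ 2 / mu p) Q := by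
  have h1 : Integrable (fun p : ℝ × ℝ => 3 * gs p + 12 + 3 * TT p ^ 2) Q :=
    ((gs_int.const_mul 3).add (integrable_const _)).add (TT_int2.const_mul 3)
  refine h1.mono' ((Phs_meas.pow_const 2).div mu_meas).aestronglyMeasurable
    (Eventually.of_forall fun p => ?_)
  have hmu : 0 < mu p := lt_of_lt_of_le one_pos (mu_one p)
  rw [Real.norm_eq_abs, abs_of_nonneg (div_nonneg (sq_nonneg _) hmu.le), div_le_iff₀ hmu]
  have h2 : Phs p ^ 2 ≤ 3 * (gs p ^ 2 + (RR p / 2) ^ 2 + TT p ^ 2) := by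
    have e : Phs p = gs p - RR p / 2 - TT p := rfl
    rw [e]
    nlinarith [sq_nonneg (gs p + RR p / 2), sq_nonneg (gs p + TT p), sq_nonneg (RR p / 2 - TT p)]
  have h3 : (RR p / 2) ^ 2 ≤ 4 := by nlinarith [RR_nn p, RR_le p]
  have h4 := gs_nn p
  have h5 := sq_nonneg (TT p)
  have h6 : (3 * gs p + 12 + 3 * TT p ^ 2) * mu p
      = 3 * gs p * mu p + 12 * mu p + 3 * TT p ^ 2 * mu p := by ring
  rw [h6]
  have h7 : gs p ^ 2 ≤ gs p * mu p := by unfold mu; nlinarith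
  have h8 : (12 : ℝ) ≤ 12 * mu p := by linarith [mu_one p]
  have h9 : 3 * TT p ^ 2 ≤ 3 * TT p ^ 2 * mu p :=
    le_mul_of_one_le_right (by positivity) (mu_one p)
  linarith

theorem cls_Ph : AH.Cls mu Ph Phx Phxx Phs where
  m0 := Ph_meas
  m1 := Phx_meas
  m2 := Phxx_meas
  m3 := Phs_meas
  bd := by
    refine ⟨5, Eventually.of_forall fun x s hs => ?_⟩
    unfold Ph
    refine (abs_sub _ _).trans ?_
    have h1 := G_bd s (zz x)
    have h2 : |s / 2 * RR (s, x)| ≤ 2 := by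
      rw [abs_of_nonneg (mul_nonneg (by linarith [hs.1]) (RR_nn _))]
      have := RR_nn (s, x); have := RR_le (s, x)
      nlinarith [hs.1, hs.2]
    linarith
  si := by
    have h1 : Integrable (fun p => RR p / 2) Q := by
      refine (integrable_const (2 : ℝ)).mono' (RR_meas.div_const 2).aestronglyMeasurable
        (Eventually.of_forall fun p => ?_)
      rw [Real.norm_eq_abs, abs_of_nonneg (by have := RR_nn p; positivity)]
      have := RR_le p
      linarith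
    exact (gs_int.sub h1).sub (TT_L.integrable (by norm_num))
  ti := by
    filter_upwards [ae_zz] with x hx s hs
    rw [AH.int_ind_int s hs,
      intervalIntegral.integral_eq_sub_of_hasDerivAt (fun r _ => Ph_hs hx)
        ((Phs_conts hx).intervalIntegrable _ _), Ph_zero, sub_zero]
  xb := by
    obtain ⟨B, hB0, hB⟩ := Phx_bd
    refine ⟨B ^ 2, ?_⟩
    have hm : ∀ᵐ x ∂I, x ∈ Set.Icc (0 : ℝ) 1 := AH.memI fun _ hx => hx
    filter_upwards [hm] with s hs
    have h1 : ∀ᵐ x ∂I, |Phx (s, x)| ≤ B := by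
      filter_upwards [ae_zz] with x hx
      exact hB (s, x) hs (by have := sg_nonneg s; simp only; linarith)
    have h2 : MemLp (fun x => Phx (s, x)) 2 I :=
      MemLp.of_bound (Phx_meas.comp (measurable_const.prodMk measurable_id)).aestronglyMeasurable
        B h1
    refine ⟨h2, ?_⟩
    have h3 : ∫ x, Phx (s, x) ^ 2 ∂I ≤ ∫ x, B ^ 2 ∂I := by
      refine integral_mono_ae h2.integrable_sq (integrable_const _) ?_
      filter_upwards [h1] with x hx
      rw [← sq_abs]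
      exact pow_le_pow_left₀ (abs_nonneg _) hx 2
    simpa using h3
  xi := by
    refine muxx_int.mono' (Phxx_meas.pow_const 2).aestronglyMeasurable
      (Eventually.of_forall fun p => ?_)
    rw [Real.norm_eq_abs, abs_of_nonneg (sq_nonneg _)]
    have := mu_one p
    nlinarith [sq_nonneg (Phxx p)]
  w1 := by
    filter_upwards [sg_pos] with s hs φ hφ h01
    have hc : ∀ x, 0 < zz x + sg s := fun x => by have := zz_nonneg x; linarith
    have hxc : Continuous (fun x => Phx (s, x)) :=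
      continuous_iff_continuousAt.2 fun x => (Phx_hx (hc x)).continuousAt
    rw [AH.int_I, AH.int_I, intervalIntegral.integral_mul_deriv_eq_deriv_mul
      (u := fun x => Ph (s, x)) (u' := fun x => Phx (s, x))
      (fun x _ => Ph_hx (hc x))
      (fun x _ => ((hφ.differentiable (by norm_num)) x).hasDerivAt)
      (hxc.intervalIntegrable _ _) ((hφ.continuous_deriv le_rfl).intervalIntegrable _ _)]
    have e : Ph (s, 1) = Ph (s, 0) := by simp [Ph, RR, zz_per]
    rw [e, h01]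
    ring
  w2 := by
    filter_upwards [sg_pos] with s hs φ hφ h01
    have hc : ∀ x, 0 < zz x + sg s := fun x => by have := zz_nonneg x; linarith
    rw [AH.int_I, AH.int_I, intervalIntegral.integral_mul_deriv_eq_deriv_mul
      (u := fun x => Phx (s, x)) (u' := fun x => Phxx (s, x))
      (fun x _ => Phx_hx (hc x))
      (fun x _ => ((hφ.differentiable (by norm_num)) x).hasDerivAt)
      ((Phxx_contx hs).intervalIntegrable _ _)
      ((hφ.continuous_deriv le_rfl).intervalIntegrable _ _)]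
    have e1 : Phx (s, 1) = 0 := by simp [Phx, z1_one]
    have e0 : Phx (s, 0) = 0 := by simp [Phx, z1_zero]
    rw [e1, e0]
    ring
  s2 := s2_int
  x2 := muxx_int

end Pool.Agent.R207.AI
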