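import Pool.Agent.R207.AI4

set_option autoImplicit false

open Filter Topology MeasureTheory

namespace Pool.Agent.R207.AI

open AH (I Q)

/-- energy identity on a rectangle -/
theorem anom {a b T1 : ℝ} (hab : a ≤ b) (hT : 0 ≤ T1) {A B C E : ℝ → ℝ → ℝ}
    (hA : ∀ x ∈ Set.Icc a b, ∀ s ∈ Set.Icc 0 T1, HasDerivAt (fun s => A s x) (C s x) s)
    (hB : ∀ s ∈ Set.Icc 0 T1, ∀ x ∈ Set.Icc a b, HasDerivAt (fun x => B s x) (C s x) x)
    (hE : ∀ s ∈ Set.Icc 0 T1, ∀ x ∈ Set.Icc a b, HasDerivAt (fun x => A s x) (E s x) x)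
    (cA : ContinuousOn (fun p : ℝ × ℝ => A p.1 p.2) (Set.Icc 0 T1 ×ˢ Set.Icc a b))
    (cB : ContinuousOn (fun p : ℝ × ℝ => B p.1 p.2) (Set.Icc 0 T1 ×ˢ Set.Icc a b))
    (cC : ContinuousOn (fun p : ℝ × ℝ => C p.1 p.2) (Set.Icc 0 T1 ×ˢ Set.Icc a b))
    (cE : ContinuousOn (fun p : ℝ × ℝ => E p.1 p.2) (Set.Icc 0 T1 ×ˢ Set.Icc a b)) :
    (1 / 2) * (∫ x in a..b, A T1 x ^ 2) - (1 / 2) * (∫ x in a..b, A 0 x ^ 2)
      + (∫ s in (0 : ℝ)..T1, ∫ x in a..b, B s x * E s x)
      = ∫ s in (0 : ℝ)..T1, (A s b * B s b - A s a * B s a) := by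
  have slx : ∀ {F : ℝ → ℝ → ℝ},
      ContinuousOn (fun p : ℝ × ℝ => F p.1 p.2) (Set.Icc 0 T1 ×ˢ Set.Icc a b) →
      ∀ s ∈ Set.Icc 0 T1, ContinuousOn (fun x => F s x) (Set.Icc a b) := by
    intro F hF s hs
    exact hF.comp (continuous_const.prodMk continuous_id).continuousOn
      (fun x hx => ⟨hs, hx⟩)
  have sls : ∀ {F : ℝ → ℝ → ℝ},
      ContinuousOn (fun p : ℝ × ℝ => F p.1 p.2) (Set.Icc 0 T1 ×ˢ Set.Icc a b) →
      ∀ x ∈ Set.Icc a b, ContinuousOn (fun s => F s x) (Set.Icc 0 T1) := by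
    intro F hF x hx
    exact hF.comp (continuous_id.prodMk continuous_const).continuousOn
      (fun s hs => ⟨hs, hx⟩)
  have ix : ∀ {g : ℝ → ℝ}, ContinuousOn g (Set.Icc a b) → IntervalIntegrable g volume a b := by
    intro g hg
    exact ContinuousOn.intervalIntegrable (by rwa [Set.uIcc_of_le hab])
  have is : ∀ {g : ℝ → ℝ}, ContinuousOn g (Set.Icc 0 T1) → IntervalIntegrable g volume 0 T1 := by
    intro g hg
    exact ContinuousOn.intervalIntegrable (by rwa [Set.uIcc_of_le hT])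
  have ha : a ∈ Set.Icc a b := ⟨le_rfl, hab⟩
  have hb : b ∈ Set.Icc a b := ⟨hab, le_rfl⟩
  have h0 : (0 : ℝ) ∈ Set.Icc 0 T1 := ⟨le_rfl, hT⟩
  have h1 : T1 ∈ Set.Icc 0 T1 := ⟨hT, le_rfl⟩
  have cAC : ContinuousOn (fun p : ℝ × ℝ => A p.1 p.2 * C p.1 p.2)
      (Set.Icc 0 T1 ×ˢ Set.Icc a b) := cA.mul cC
  have cBE : ContinuousOn (fun p : ℝ × ℝ => B p.1 p.2 * E p.1 p.2)
      (Set.Icc 0 T1 ×ˢ Set.Icc a b) := cB.mul cE
  have iAs : ∀ x ∈ Set.Icc a b, IntervalIntegrable (fun s => A s x * C s x) volume 0 T1 :=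
    fun x hx => is (sls (F := fun s x => A s x * C s x) cAC x hx)
  have iAx : ∀ s ∈ Set.Icc 0 T1, IntervalIntegrable (fun x => A s x * C s x) volume a b :=
    fun s hs => ix (slx (F := fun s x => A s x * C s x) cAC s hs)
  have iBx : ∀ s ∈ Set.Icc 0 T1, IntervalIntegrable (fun x => B s x * E s x) volume a b :=
    fun s hs => ix (slx (F := fun s x => B s x * E s x) cBE s hs)
  -- in x
  have e1 : (1 / 2) * (∫ x in a..b, A T1 x ^ 2) - (1 / 2) * (∫ x in a..b, A 0 x ^ 2)
      = ∫ x in a..b, ∫ s in (0 : ℝ)..T1, A s x * C s x := by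
    rw [← intervalIntegral.integral_const_mul, ← intervalIntegral.integral_const_mul,
      ← intervalIntegral.integral_sub]
    · refine intervalIntegral.integral_congr fun x hx => ?_
      rw [Set.uIcc_of_le hab] at hx
      rw [intervalIntegral.integral_eq_sub_of_hasDerivAt
        (f := fun s => (1 / 2) * A s x ^ 2) (fun s hs => ?_) (iAs x hx)]
      rw [Set.uIcc_of_le hT] at hs
      have := ((hA x hx s hs).pow 2).const_mul (1 / 2)
      exact this.congr_deriv (by ring)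
    · exact ix ((((slx cA T1 h1).pow 2)).const_smul (1 / 2 : ℝ))
    · exact ix ((((slx cA 0 h0).pow 2)).const_smul (1 / 2 : ℝ))
  have hint : Integrable (fun p : ℝ × ℝ => A p.1 p.2 * C p.1 p.2)
      ((volume.restrict (Set.Ioc 0 T1)).prod (volume.restrict (Set.Ioc a b))) := by
    rw [Measure.prod_restrict]
    have h2 : IntegrableOn (fun p : ℝ × ℝ => A p.1 p.2 * C p.1 p.2)
      (Set.Icc 0 T1 ×ˢ Set.Icc a b) (volume.prod volume) :=
      cAC.integrableOn_compact (isCompact_Icc.prod isCompact_Icc)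
    exact h2.mono_set (Set.prod_mono Set.Ioc_subset_Icc_self Set.Ioc_subset_Icc_self)
  have e2 : ∫ x in a..b, ∫ s in (0 : ℝ)..T1, A s x * C s x
      = ∫ s in (0 : ℝ)..T1, ∫ x in a..b, A s x * C s x := by
    simp only [intervalIntegral.integral_of_le hab, intervalIntegral.integral_of_le hT]
    exact (integral_integral_swap (f := fun s x => A s x * C s x) hint).symm
  have cint : ∀ {F : ℝ → ℝ → ℝ},
      ContinuousOn (fun p : ℝ × ℝ => F p.1 p.2) (Set.Icc 0 T1 ×ˢ Set.Icc a b) →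
      IntervalIntegrable (fun s => ∫ x in a..b, F s x) volume 0 T1 := by
    intro F hF
    have hi : Integrable (fun p : ℝ × ℝ => F p.1 p.2)
      ((volume.restrict (Set.Ioc 0 T1)).prod (volume.restrict (Set.Ioc a b))) := by
      rw [Measure.prod_restrict]
      have h2 : IntegrableOn (fun p : ℝ × ℝ => F p.1 p.2)
        (Set.Icc 0 T1 ×ˢ Set.Icc a b) (volume.prod volume) :=
        hF.integrableOn_compact (isCompact_Icc.prod isCompact_Icc)
      exact h2.mono_set (Set.prod_mono Set.Ioc_subset_Icc_self Set.Ioc_subset_Icc_self)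
    rw [intervalIntegrable_iff_integrableOn_Ioc_of_le hT]
    simp only [intervalIntegral.integral_of_le hab]
    exact hi.integral_prod_left
  rw [e1, e2, ← intervalIntegral.integral_add (cint (F := fun s x => A s x * C s x) cAC)
    (cint (F := fun s x => B s x * E s x) cBE)]
  refine intervalIntegral.integral_congr fun s hs => ?_
  rw [Set.uIcc_of_le hT] at hs
  rw [← intervalIntegral.integral_add (iAx s hs) (iBx s hs),
    intervalIntegral.integral_eq_sub_of_hasDerivAt (f := fun x => A s x * B s x)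
      (fun x hx => ?_) ((iAx s hs).add (iBx s hs))]
  rw [Set.uIcc_of_le hab] at hx
  have := (hE s hs x hx).mul (hB s hs x hx)
  exact this.congr_deriv (by ring)

noncomputable def CC (M : ℕ) (s x : ℝ) : ℝ :=
  z1 x * (SNsz M s (zz x) - (1 / (4 * RR (s, x)) - s * sd s / (8 * RR (s, x) ^ 3)))

theorem RR_hs' {s x : ℝ} (hc : 0 < zz x + sg s) :
    HasDerivAt (fun s => RR (s, x)) (sd s / (2 * RR (s, x))) s :=
  ((sg_hd s).const_add (zz x)).sqrt hc.ne'

theorem hA' {M : ℕ} {x : ℝ} (hx : 1 ≤ aa M * zz x) (s : ℝ) :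
    HasDerivAt (fun s => Phx (s, x)) (CC M s x) s := by
  have hz := pos_of_big hx
  have hc : 0 < zz x + sg s := by have := sg_nonneg s; linarith
  have hR : 0 < RR (s, x) := Real.sqrt_pos.2 hc
  have h0 : (fun s => Phx (s, x)) = fun s => z1 x * (SNz M s (zz x) - s / (4 * RR (s, x))) := by
    funext s; simp only [Phx]; rw [Gz_eq hx]
  rw [h0]
  have h1 := (hasDerivAt_id s).div ((RR_hs' hc).const_mul 4) (by positivity)
  have h2 := ((SNz_hs M s (zz x)).sub h1).const_mul (z1 x)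
  refine h2.congr_deriv ?_
  unfold CC
  congr 2
  simp only [id]
  field_simp
  ring

theorem hB' {M : ℕ} {x : ℝ} (hx : 1 < aa M * zz x) (s : ℝ) :
    HasDerivAt (fun x => Phs (s, x)) (CC M s x) x := by
  have hz := pos_of_big hx.le
  have hc : 0 < zz x + sg s := by have := sg_nonneg s; linarith
  have hR : 0 < RR (s, x) := Real.sqrt_pos.2 hc
  have h0 : (fun x => Phs (s, x)) =ᶠ[𝓝 x]
      fun x => SNs M s (zz x) - RR (s, x) / 2 - s * sd s / (4 * RR (s, x)) := by
    have : ∀ᶠ y in 𝓝 x, 1 < aa M * zz y :=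
      (continuous_const.mul zz_cont).continuousAt.eventually (lt_mem_nhds hx)
    filter_upwards [this] with y hy
    simp only [Phs]
    rw [Gs_eq hy.le]
  have h1 : HasDerivAt (fun x => SNs M s (zz x)) (SNsz M s (zz x) * z1 x) x :=
    (SNs_hz M s (zz x)).comp x (zz_hd x)
  have h3 := (hasDerivAt_const x (s * sd s)).div ((RR_hx hc).const_mul 4) (by positivity)
  have h2 := (h1.sub ((RR_hx hc).div_const 2)).sub h3
  refine (h2.congr_of_eventuallyEq h0).congr_deriv ?_
  unfold CC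
  field_simp
  ring

theorem zz_half : zz (1 / 2) = 1 := by
  unfold zz
  have : Real.pi * (1 / 2) = Real.pi / 2 := by ring
  rw [this, Real.sin_pi_div_two]; norm_num

theorem exists_eps (N : ℕ) : ∃ e ∈ Set.Icc (0 : ℝ) (1 / 2), zz e = (3 / 4) ^ N := by
  have h1 := intermediate_value_Icc (by norm_num : (0 : ℝ) ≤ 1 / 2) zz_cont.continuousOn
  have h0 : zz 0 = 0 := by simp [zz]
  rw [h0, zz_half] at h1
  obtain ⟨e, he, hh⟩ := h1 (show (3 / 4 : ℝ) ^ N ∈ Set.Icc (0 : ℝ) 1 from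
    ⟨by positivity, pow_le_one₀ (by norm_num) (by norm_num)⟩)
  exact ⟨e, he, hh⟩

noncomputable def ep (N : ℕ) : ℝ := (exists_eps N).choose

theorem ep_mem (N : ℕ) : ep N ∈ Set.Icc (0 : ℝ) (1 / 2) := (exists_eps N).choose_spec.1

theorem ep_zz (N : ℕ) : zz (ep N) = (3 / 4) ^ N := (exists_eps N).choose_spec.2

theorem sin_ge {x : ℝ} (hx : x ∈ Set.Icc (0 : ℝ) (1 / 2)) : 2 * x ≤ Real.sin (Real.pi * x) := by
  have h2 := Real.mul_le_sin (x := Real.pi * x) (by have := Real.pi_pos; nlinarith [hx.1])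
    (by have := Real.pi_pos; nlinarith [hx.2])
  have h3 : 2 / Real.pi * (Real.pi * x) = 2 * x := by
    field_simp [Real.pi_pos.ne']
  rwa [h3] at h2

theorem ep_le (N : ℕ) : ep N ^ 2 ≤ (3 / 4) ^ N := by
  rw [← ep_zz N]
  have := sin_ge (ep_mem N)
  have h0 := (ep_mem N).1
  unfold zz
  nlinarith

theorem ep_tendsto : Tendsto ep atTop (𝓝 0) := by
  have h1 : Tendsto (fun N => √((3 / 4 : ℝ) ^ N)) atTop (𝓝 0) := by
    have h2 := (tendsto_pow_atTop_nhds_zero_of_lt_one (by norm_num : (0 : ℝ) ≤ 3 / 4)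
      (by norm_num))
    have := (Real.continuous_sqrt.tendsto 0).comp h2
    rw [Real.sqrt_zero] at this
    exact this
  refine squeeze_zero (fun N => (ep_mem N).1) (fun N => ?_) h1
  exact Real.le_sqrt_of_sq_le (ep_le N)

theorem zz_mono {x y : ℝ} (hx : 0 ≤ x) (hxy : x ≤ y) (hy : y ≤ 1 / 2) : zz x ≤ zz y := by
  have h1 : Real.sin (Real.pi * x) ≤ Real.sin (Real.pi * y) := by
    refine Real.sin_le_sin_of_le_of_le_pi_div_two ?_ ?_ ?_
    · have := Real.pi_pos; nlinarith
    · have := Real.pi_pos; nlinarith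
    · have := Real.pi_pos; nlinarith
  have h2 : 0 ≤ Real.sin (Real.pi * x) := by
    have := sin_ge (x := x) ⟨hx, hxy.trans hy⟩; linarith
  unfold zz
  exact pow_le_pow_left₀ h2 h1 2

theorem zz_ge {N : ℕ} {x : ℝ} (hx : x ∈ Set.Icc (ep N) (1 - ep N)) : (3 / 4) ^ N ≤ zz x := by
  rw [← ep_zz N]
  rcases le_total x (1 / 2) with h | h
  · exact zz_mono (ep_mem N).1 hx.1 h
  · rw [← zz_refl x]
    exact zz_mono (ep_mem N).1 (by linarith [hx.2]) (by linarith)

theorem aa_ge {N : ℕ} {x : ℝ} (hx : x ∈ Set.Icc (ep N) (1 - ep N)) : 1 < aa (N + 1) * zz x := by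
  have h1 := zz_ge hx
  have h2 : aa (N + 1) * (3 / 4) ^ N = 4 / 3 := by
    unfold aa; rw [pow_succ, mul_assoc, mul_comm (4 / 3 : ℝ), ← mul_assoc, ← mul_pow]; norm_num
  have h3 := mul_le_mul_of_nonneg_left h1 (aa_pos (N + 1)).le
  linarith

theorem rect (N : ℕ) :
    (1 / 2) * (∫ x in (ep N)..(1 - ep N), Phx (1 / 2, x) ^ 2)
      + (∫ s in (0 : ℝ)..(1 / 2), ∫ x in (ep N)..(1 - ep N), Phs (s, x) * Phxx (s, x))
      = ∫ s in (0 : ℝ)..(1 / 2), (Phx (s, 1 - ep N) * Phs (s, 1 - ep N)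
        - Phx (s, ep N) * Phs (s, ep N)) := by
  have hle : ep N ≤ 1 - ep N := by linarith [(ep_mem N).2]
  set S : Set (ℝ × ℝ) := Set.Icc (0 : ℝ) (1 / 2) ×ˢ Set.Icc (ep N) (1 - ep N) with hS
  have hzS : ∀ p ∈ S, 0 < zz p.2 := fun p hp => pos_of_big (aa_ge hp.2).le
  have hcS : ∀ p ∈ S, 0 < zz p.2 + sg p.1 := fun p hp => by
    have := hzS p hp; have := sg_nonneg p.1; linarith
  have hRS : ∀ p ∈ S, RR p ≠ 0 := fun p hp => (Real.sqrt_pos.2 (hcS p hp)).ne'
  have c1 : ContinuousOn (fun p : ℝ × ℝ => Phx (p.1, p.2)) S := by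
    unfold Phx
    refine (z1_cont.comp continuous_snd).continuousOn.mul ?_
    refine (Gz_cont.comp (continuous_fst.prodMk (zz_cont.comp continuous_snd))).continuousOn.sub ?_
    refine continuous_fst.continuousOn.div (continuous_const.mul RR_cont).continuousOn
      (fun p hp => mul_ne_zero (by norm_num) (hRS p hp))
  have c2 : ContinuousOn (fun p : ℝ × ℝ => Phs (p.1, p.2)) S := by
    have h1 : ContinuousOn (fun p : ℝ × ℝ => SNs (N + 1) p.1 (zz p.2) - RR p / 2
        - p.1 * sd p.1 / (4 * RR p)) S := by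
      refine (((SNs_cont (N + 1)).comp (continuous_fst.prodMk
        (zz_cont.comp continuous_snd))).continuousOn.sub (RR_cont.div_const 2).continuousOn).sub ?_
      exact (continuous_fst.mul (sd_cont.comp continuous_fst)).continuousOn.div
        (continuous_const.mul RR_cont).continuousOn
        (fun p hp => mul_ne_zero (by norm_num) (hRS p hp))
    refine h1.congr (fun p hp => ?_)
    simp only [Phs]
    rw [Gs_eq (aa_ge hp.2).le]
  have c3 : ContinuousOn (fun p : ℝ × ℝ => CC (N + 1) p.1 p.2) S := by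
    unfold CC
    refine (z1_cont.comp continuous_snd).continuousOn.mul ?_
    refine ((SNsz_cont (N + 1)).comp (continuous_fst.prodMk
      (zz_cont.comp continuous_snd))).continuousOn.sub ?_
    refine ContinuousOn.sub ?_ ?_
    · exact continuousOn_const.div (continuous_const.mul RR_cont).continuousOn
        (fun p hp => mul_ne_zero (by norm_num) (hRS p hp))
    · exact (continuous_fst.mul (sd_cont.comp continuous_fst)).continuousOn.div
        (continuous_const.mul (RR_cont.pow 3)).continuousOn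
        (fun p hp => mul_ne_zero (by norm_num) (pow_ne_zero 3 (hRS p hp)))
  have c4 : ContinuousOn (fun p : ℝ × ℝ => Phxx (p.1, p.2)) S := by
    unfold Phxx Bt
    have g1 : Continuous (fun p : ℝ × ℝ => Gz p.1 (zz p.2)) :=
      Gz_cont.comp (continuous_fst.prodMk (zz_cont.comp continuous_snd))
    have g2 : Continuous (fun p : ℝ × ℝ => Gzz p.1 (zz p.2)) :=
      Gzz_cont.comp (continuous_fst.prodMk (zz_cont.comp continuous_snd))
    refine ((g2.mul ((z1_cont.comp continuous_snd).pow 2)).add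
      (g1.mul (z2_cont.comp continuous_snd))).continuousOn.sub (continuous_fst.continuousOn.mul ?_)
    refine ContinuousOn.sub ?_ ?_
    · exact (z2_cont.comp continuous_snd).continuousOn.div
        (continuous_const.mul RR_cont).continuousOn
        (fun p hp => mul_ne_zero (by norm_num) (hRS p hp))
    · exact ((z1_cont.comp continuous_snd).pow 2).continuousOn.div
        (continuous_const.mul (RR_cont.pow 3)).continuousOn
        (fun p hp => mul_ne_zero (by norm_num) (pow_ne_zero 3 (hRS p hp)))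
  have h := anom (A := fun s x => Phx (s, x)) (B := fun s x => Phs (s, x)) (C := CC (N + 1))
    (E := fun s x => Phxx (s, x)) hle (by norm_num : (0 : ℝ) ≤ 1 / 2)
    (fun x hx s _ => hA' (aa_ge hx).le s) (fun s _ x hx => hB' (aa_ge hx) s)
    (fun s hs x hx => Phx_hx (hcS (s, x) ⟨hs, hx⟩)) c1 c2 c3 c4
  have h0 : ∫ x in (ep N)..(1 - ep N), Phx (0, x) ^ 2 = 0 := by
    have : ∫ x in (ep N)..(1 - ep N), Phx (0, x) ^ 2 = ∫ x in (ep N)..(1 - ep N), (0 : ℝ) := by
      refine intervalIntegral.integral_congr fun x hx => ?_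
      simp only [Phx, Gz]
      simp [Dn_left]
    rw [this]; simp
  rw [h0] at h
  rw [← h]
  ring

end Pool.Agent.R207.AI
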