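import Pool.Agent.R207.AI5

set_option autoImplicit false

open Filter Topology MeasureTheory

namespace Pool.Agent.R207.AI

open AH (I Q ind)

theorem FF_int : Integrable (fun p => Phs p * Phxx p) Q := by
  refine (s2_int.add muxx_int).mono' (Phs_meas.mul Phxx_meas).aestronglyMeasurable
    (Eventually.of_forall fun p => ?_)
  have hmu : 0 < mu p := lt_of_lt_of_le one_pos (mu_one p)
  rw [Real.norm_eq_abs, Pi.add_apply]
  have e : Phs p ^ 2 / mu p + mu p * Phxx p ^ 2
      = ((|Phs p| - mu p * |Phxx p|) ^ 2 + 2 * (|Phs p| * |Phxx p|) * mu p) / mu p := by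
    field_simp
    rw [sub_sq, mul_pow, sq_abs, sq_abs]
    ring
  rw [e, le_div_iff₀ hmu, abs_mul]
  have h1 := sq_nonneg (|Phs p| - mu p * |Phxx p|)
  have h2 : 0 ≤ |Phs p| * |Phxx p| * mu p := by positivity
  linarith

theorem sg_half : 0 < sg (1 / 2) := by
  refine lt_of_lt_of_le ?_ (sg_ge _)
  have hv : 0 < vv (1 / 2) := by unfold vv; norm_num
  exact mul_pos hv (Real.sqrt_pos.2 hv)

theorem hcx (x : ℝ) : 0 < zz x + sg (1 / 2) := by
  have := zz_nonneg x; have := sg_half; linarith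

theorem Phx_half_cont : Continuous (fun x => Phx (1 / 2, x)) :=
  continuous_iff_continuousAt.2 fun x => (Phx_hx (hcx x)).continuousAt

theorem lim1 : Tendsto (fun N => ∫ x in (ep N)..(1 - ep N), Phx (1 / 2, x) ^ 2) atTop
    (𝓝 (∫ x, Phx (1 / 2, x) ^ 2 ∂I)) := by
  set g : ℝ → ℝ := fun x => Phx (1 / 2, x) ^ 2 with hg
  have hc : Continuous g := Phx_half_cont.pow 2
  have hP : Continuous (fun t => ∫ x in (0 : ℝ)..t, g x) :=
    intervalIntegral.continuous_primitive (fun a b => hc.intervalIntegrable a b) 0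
  have e : ∀ N, ∫ x in (ep N)..(1 - ep N), g x
      = (∫ x in (0 : ℝ)..(1 - ep N), g x) - ∫ x in (0 : ℝ)..(ep N), g x := by
    intro N
    rw [intervalIntegral.integral_interval_sub_left (hc.intervalIntegrable _ _)
      (hc.intervalIntegrable _ _)]
  simp only [e]
  have h1 : Tendsto (fun N => 1 - ep N) atTop (𝓝 (1 - 0)) := tendsto_const_nhds.sub ep_tendsto
  have h2 := ((hP.tendsto _).comp h1).sub ((hP.tendsto 0).comp ep_tendsto)
  rw [AH.int_I]
  have h3 : Tendsto (fun N => (∫ x in (0 : ℝ)..(1 - ep N), g x) - ∫ x in (0 : ℝ)..(ep N), g x)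
      atTop (𝓝 (∫ x in (0 : ℝ)..1, g x)) := by simpa using h2
  exact h3

noncomputable def chi (N : ℕ) (x : ℝ) : ℝ :=
  Set.indicator (Set.Ioc (ep N) (1 - ep N)) (fun _ => 1) x

theorem chi_meas (N : ℕ) : Measurable (chi N) := measurable_const.indicator measurableSet_Ioc

theorem chi_abs (N : ℕ) (x : ℝ) : |chi N x| ≤ 1 := by
  unfold chi Set.indicator; split_ifs <;> simp

theorem lim2 : Tendsto (fun N => ∫ s in (0 : ℝ)..(1 / 2), ∫ x in (ep N)..(1 - ep N),
      Phs (s, x) * Phxx (s, x)) atTop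
    (𝓝 (∫ p, ind (1 / 2) p.1 * (Phs p * Phxx p) ∂Q)) := by
  have e : ∀ N, ∫ s in (0 : ℝ)..(1 / 2), ∫ x in (ep N)..(1 - ep N), Phs (s, x) * Phxx (s, x)
      = ∫ p, (ind (1 / 2) p.1 * chi N p.2) * (Phs p * Phxx p) ∂Q := by
    intro N
    have hle : ep N ≤ 1 - ep N := by linarith [(ep_mem N).2]
    have hi : Integrable (fun p : ℝ × ℝ => (ind (1 / 2) p.1 * chi N p.2) * (Phs p * Phxx p))
        (I.prod I) := by
      refine AH.bdd_int FF_int (b := fun p => ind (1 / 2) p.1 * chi N p.2)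
        (((AH.ind_meas _).comp measurable_fst).mul ((chi_meas N).comp measurable_snd)) 1
        (Eventually.of_forall fun p => ?_)
      rw [abs_mul]
      nlinarith [AH.ind_abs (1 / 2) p.1, chi_abs N p.2, abs_nonneg (ind (1 / 2) p.1),
        abs_nonneg (chi N p.2)]
    unfold Q
    rw [integral_prod _ hi, ← AH.int_ind_int (1 / 2) (by norm_num)]
    refine integral_congr_ae (Eventually.of_forall fun s => ?_)
    simp only
    rw [intervalIntegral.integral_of_le hle]
    have h1 : ∀ x, ind (1 / 2) s * chi N x * (Phs (s, x) * Phxx (s, x))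
        = ind (1 / 2) s * Set.indicator (Set.Ioc (ep N) (1 - ep N))
          (fun x => Phs (s, x) * Phxx (s, x)) x := by
      intro x
      unfold chi Set.indicator
      split_ifs <;> ring
    simp only [h1]
    rw [integral_const_mul, integral_indicator measurableSet_Ioc]
    congr 1
    unfold AH.I
    rw [Measure.restrict_restrict measurableSet_Ioc]
    congr 2
    have hsub : Set.Ioc (ep N) (1 - ep N) ⊆ Set.Ioc 0 1 := fun x hx =>
      ⟨lt_of_le_of_lt (ep_mem N).1 hx.1, hx.2.trans (by linarith [(ep_mem N).1])⟩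
    rw [Set.inter_eq_left.2 hsub]
  simp only [e]
  refine tendsto_integral_of_dominated_convergence (fun p => ‖Phs p * Phxx p‖) (fun N => ?_)
    FF_int.norm (fun N => Eventually.of_forall fun p => ?_) ?_
  · exact ((((AH.ind_meas _).comp measurable_fst).mul
      ((chi_meas N).comp measurable_snd)).mul (Phs_meas.mul Phxx_meas)).aestronglyMeasurable
  · rw [norm_mul]
    have h1 : ‖ind (1 / 2) p.1 * chi N p.2‖ ≤ 1 := by
      rw [Real.norm_eq_abs, abs_mul]
      nlinarith [AH.ind_abs (1 / 2) p.1, chi_abs N p.2, abs_nonneg (ind (1 / 2) p.1),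
        abs_nonneg (chi N p.2)]
    nlinarith [norm_nonneg (Phs p * Phxx p)]
  · filter_upwards [AH.ae_snd ae_Ioo] with p hp
    refine tendsto_const_nhds.congr' ?_
    have h1 : ∀ᶠ N in atTop, ep N < p.2 := ep_tendsto.eventually (gt_mem_nhds hp.1)
    have h2 : ∀ᶠ N in atTop, ep N < 1 - p.2 :=
      ep_tendsto.eventually (gt_mem_nhds (by linarith [hp.2]))
    filter_upwards [h1, h2] with N a b
    have : chi N p.2 = 1 := by
      unfold chi
      rw [Set.indicator_of_mem]
      exact ⟨a, by linarith⟩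
    rw [this, mul_one]

noncomputable def wN (N : ℕ) : ℝ := z1 (ep N)

theorem wN_nn (N : ℕ) : 0 ≤ wN N := by
  unfold wN z1
  have h := ep_mem N
  refine mul_nonneg Real.pi_pos.le (Real.sin_nonneg_of_nonneg_of_le_pi ?_ ?_)
  · have := Real.pi_pos; nlinarith [h.1]
  · have := Real.pi_pos; nlinarith [h.2]

theorem wN_sq (N : ℕ) : wN N ^ 2 = 4 * Real.pi ^ 2 * ((3 / 4) ^ N * (1 - (3 / 4) ^ N)) := by
  unfold wN; rw [z1_sq, ep_zz]

theorem wN_le (N : ℕ) : wN N ≤ 8 * √((3 / 4) ^ N) := by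
  refine (abs_le_of_sq_le_sq' ?_ (by positivity)).2
  rw [wN_sq, mul_pow, Real.sq_sqrt (by positivity)]
  have h1 : 0 < (3 / 4 : ℝ) ^ N := by positivity
  have h2 : (3 / 4 : ℝ) ^ N ≤ 1 := pow_le_one₀ (by norm_num) (by norm_num)
  have h3 : (3 / 4 : ℝ) ^ N * (1 - (3 / 4) ^ N) ≤ (3 / 4) ^ N := by nlinarith
  have h4 : 0 ≤ (3 / 4 : ℝ) ^ N * (1 - (3 / 4) ^ N) := mul_nonneg h1.le (by linarith)
  have h5 := pi2
  nlinarith [sq_nonneg Real.pi]

theorem r3_tendsto : Tendsto (fun N => ∫ s, wN N / ((3 / 4) ^ N + sg s) ∂I) atTop (𝓝 0) := by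
  have h0 : ∫ s, (0 : ℝ) ∂I = 0 := by simp
  rw [← h0]
  have hz : Tendsto (fun N : ℕ => (3 / 4 : ℝ) ^ N) atTop (𝓝 0) :=
    tendsto_pow_atTop_nhds_zero_of_lt_one (by norm_num) (by norm_num)
  have hw : Tendsto wN atTop (𝓝 0) := by
    have h2 : Tendsto (fun N : ℕ => 8 * √((3 / 4 : ℝ) ^ N)) atTop (𝓝 0) := by
      have := ((Real.continuous_sqrt.tendsto 0).comp hz).const_mul 8
      rw [Real.sqrt_zero, mul_zero] at this
      exact this
    exact squeeze_zero wN_nn wN_le h2
  refine tendsto_integral_of_dominated_convergence (fun s => 4 * (1 / √(sg s))) (fun N => ?_)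
    (inv_sg_int.const_mul 4) (fun N => ?_) ?_
  · exact (measurable_const.div (measurable_const.add sg_cont.measurable)).aestronglyMeasurable
  · filter_upwards [sg_pos] with s hs
    have hzp : 0 < (3 / 4 : ℝ) ^ N := by positivity
    rw [Real.norm_eq_abs, abs_of_nonneg (div_nonneg (wN_nn N) (by linarith)),
      mul_one_div, div_le_div_iff₀ (by linarith) (Real.sqrt_pos.2 hs)]
    have h1 := wN_le N
    have h2 := Real.sqrt_pos.2 hs
    have h3 := Real.sqrt_pos.2 hzp
    have h4 : √((3 / 4 : ℝ) ^ N) ^ 2 = (3 / 4) ^ N := Real.sq_sqrt hzp.le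
    have h5 : √(sg s) ^ 2 = sg s := Real.sq_sqrt hs.le
    calc wN N * √(sg s) ≤ 8 * √((3 / 4) ^ N) * √(sg s) :=
          mul_le_mul_of_nonneg_right h1 h2.le
      _ ≤ 4 * ((3 / 4) ^ N + sg s) := by
          nlinarith [sq_nonneg (√((3 / 4 : ℝ) ^ N) - √(sg s))]
  · filter_upwards [sg_pos] with s hs
    have h1 : Tendsto (fun N : ℕ => (3 / 4 : ℝ) ^ N + sg s) atTop (𝓝 (0 + sg s)) :=
      hz.add_const _
    have h2 := hw.div h1 (by rw [zero_add]; exact hs.ne')
    rw [zero_div] at h2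
    exact h2

theorem zz_ep_big {N : ℕ} : 1 ≤ aa N * zz (ep N) := by
  rw [ep_zz]; unfold aa; rw [← mul_pow]; norm_num

theorem zz_ep_small {N : ℕ} : aa N * zz (ep N) ≤ 1 := by
  rw [ep_zz]; unfold aa; rw [← mul_pow]; norm_num

theorem Gz_ep (N : ℕ) (s : ℝ) : Gz s (zz (ep N)) = 0 := by
  rw [Gz_eq zz_ep_big]
  unfold SNz
  refine Finset.sum_eq_zero fun n hn => ?_
  rw [et1_left (small (Finset.mem_range.1 hn) zz_ep_small), mul_zero, mul_zero]

theorem Gs_ep (N : ℕ) (s : ℝ) : Gs s (zz (ep N)) = fn N s := by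
  rw [Gs_eq zz_ep_big]
  unfold SNs
  have h3 : ∑ n ∈ Finset.range N, dn n s * et (aa n * zz (ep N)) = ∑ n ∈ Finset.range N, dn n s := by
    refine Finset.sum_congr rfl fun n hn => ?_
    rw [et_one (small (Finset.mem_range.1 hn) zz_ep_small), mul_one]
  rw [h3, fn_sum]

theorem z1_refl (x : ℝ) : z1 (1 - x) = - z1 x := by
  unfold z1
  have : 2 * (Real.pi * (1 - x)) = -(2 * (Real.pi * x)) + 2 * Real.pi := by ring
  rw [this, Real.sin_add_two_pi, Real.sin_neg]; ring

theorem bdry_eq (N : ℕ) (s : ℝ) : Phx (s, 1 - ep N) * Phs (s, 1 - ep N)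
      - Phx (s, ep N) * Phs (s, ep N)
    = 2 * (wN N * (s / (4 * RR (s, ep N)))) * (fn N s - RR (s, ep N) / 2
      - s * sd s / (4 * RR (s, ep N))) := by
  have h1 : RR (s, 1 - ep N) = RR (s, ep N) := by unfold RR; simp only [zz_refl]
  simp only [Phx, Phs, zz_refl, z1_refl, h1, Gz_ep, Gs_ep]
  unfold wN
  ring

theorem bdry_ge {N : ℕ} (hN : 2 ≤ N) {s : ℝ} (hs : s ∈ Set.Icc (0 : ℝ) (1 / 2)) :
    s * fn N s - wN N / 8 - 9 / 32 * (wN N / ((3 / 4) ^ N + sg s))
      ≤ Phx (s, 1 - ep N) * Phs (s, 1 - ep N) - Phx (s, ep N) * Phs (s, ep N) := by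
  rw [bdry_eq]
  have hzp : 0 < (3 / 4 : ℝ) ^ N := by positivity
  have hR2 : RR (s, ep N) ^ 2 = (3 / 4) ^ N + sg s := by rw [RR_sq, ep_zz]
  have hsg := sg_nonneg s
  have hR : 0 < RR (s, ep N) := by
    have := RR_nn (s, ep N)
    rcases this.lt_or_eq with h | h
    · exact h
    · rw [← h] at hR2; nlinarith
  set R := RR (s, ep N) with hRd
  set w := wN N with hw
  have hwn : 0 ≤ w := wN_nn N
  have e : 2 * (w * (s / (4 * R))) * (fn N s - R / 2 - s * sd s / (4 * R))
      = w / (2 * R) * (s * fn N s) - s * w / 4 - s * s * sd s / 8 * (w / R ^ 2) := by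
    field_simp
    ring
  rw [e, hR2]
  have t1 : s * fn N s ≤ w / (2 * R) * (s * fn N s) := by
    by_cases h0 : fn N s = 0
    · rw [h0, mul_zero, mul_zero]
    · have h1 := fn_supp N s h0
      have h2 : 2 * R ≤ w := by
        refine abs_le_of_sq_le_sq' ?_ hwn |>.2
        rw [mul_pow, hR2, wN_sq]
        have hz2 : (3 / 4 : ℝ) ^ N ≤ 9 / 16 := by
          calc (3 / 4 : ℝ) ^ N ≤ (3 / 4) ^ 2 := pow_le_pow_of_le_one (by norm_num) (by norm_num) hN
            _ = 9 / 16 := by norm_num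
        have h3 : (1 / 9 : ℝ) ^ N * 9 ≤ (3 / 4) ^ N := by
          have h4 : (1 / 9 : ℝ) ^ N = (4 / 27) ^ N * (3 / 4) ^ N := by rw [← mul_pow]; norm_num
          have h5 : (4 / 27 : ℝ) ^ N ≤ 16 / 729 := by
            calc (4 / 27 : ℝ) ^ N ≤ (4 / 27) ^ 2 :=
                  pow_le_pow_of_le_one (by norm_num) (by norm_num) hN
              _ = 16 / 729 := by norm_num
          rw [h4]
          nlinarith
        have h6 : 9 ≤ Real.pi ^ 2 := by
          have := Real.pi_gt_three; nlinarith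
        have h7 : (3 / 4 : ℝ) ^ N * (1 - (3 / 4) ^ N) ≥ (3 / 4) ^ N * (7 / 16) := by nlinarith
        nlinarith
      have h8 : 1 ≤ w / (2 * R) := by rw [le_div_iff₀ (by positivity)]; linarith
      exact le_mul_of_one_le_left (mul_nonneg hs.1 (fn_nonneg _ _)) h8
  have t2 : s * w / 4 ≤ w / 8 := by nlinarith [hs.2]
  have t3 : s * s * sd s / 8 * (w / ((3 / 4) ^ N + sg s))
      ≤ 9 / 32 * (w / ((3 / 4) ^ N + sg s)) := by
    have h1 : 0 ≤ w / ((3 / 4) ^ N + sg s) := div_nonneg hwn (by linarith)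
    refine mul_le_mul_of_nonneg_right ?_ h1
    have h2 := abs_le.1 (sd_le s)
    have h3 : s * s ≤ 1 / 4 := by nlinarith [hs.1, hs.2]
    have h4 : 0 ≤ s * s := mul_self_nonneg s
    nlinarith [h2.1, h2.2]
  linarith

theorem fn_mass {N : ℕ} (hN : 2 ≤ N) : 1 / 64 ≤ ∫ s in (0 : ℝ)..(1 / 2), s * fn N s := by
  obtain ⟨n, rfl⟩ : ∃ n, N = n + 2 := ⟨N - 2, by omega⟩
  have hc : Continuous (fun s => s * fn (n + 2) s) := continuous_id.mul (fn_cont _)
  rw [← intervalIntegral.integral_add_adjacent_intervals (hc.intervalIntegrable 0 (1 / 16))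
    (hc.intervalIntegrable (1 / 16) (1 / 2))]
  have h1 : 0 ≤ ∫ s in (0 : ℝ)..(1 / 16), s * fn (n + 2) s :=
    intervalIntegral.integral_nonneg (by norm_num) (fun s hs => mul_nonneg hs.1 (fn_nonneg _ _))
  have h2 : ∫ s in (1 / 16 : ℝ)..(1 / 2), (1 / 16) * fn (n + 2) s
      ≤ ∫ s in (1 / 16 : ℝ)..(1 / 2), s * fn (n + 2) s := by
    refine intervalIntegral.integral_mono_on (by norm_num)
      (((fn_cont _).const_smul (1 / 16 : ℝ)).intervalIntegrable _ _)
      (hc.intervalIntegrable _ _) (fun s hs => ?_)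
    exact mul_le_mul_of_nonneg_right hs.1 (fn_nonneg _ _)
  rw [intervalIntegral.integral_const_mul, fn_int, Fn_half (n + 1), Fn_sixteenth] at h2
  norm_num at h2
  linarith

theorem main_pos : 0 < (1 / 2) * (∫ x, Phx (1 / 2, x) ^ 2 ∂I)
    + ∫ p, ind (1 / 2) p.1 * (Phs p * Phxx p) ∂Q := by
  have hL := (lim1.const_mul (1 / 2)).add lim2
  have hw : Tendsto wN atTop (𝓝 0) := by
    have h2 : Tendsto (fun N : ℕ => 8 * √((3 / 4 : ℝ) ^ N)) atTop (𝓝 0) := by
      have hz : Tendsto (fun N : ℕ => (3 / 4 : ℝ) ^ N) atTop (𝓝 0) :=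
        tendsto_pow_atTop_nhds_zero_of_lt_one (by norm_num) (by norm_num)
      have := ((Real.continuous_sqrt.tendsto 0).comp hz).const_mul 8
      rw [Real.sqrt_zero, mul_zero] at this
      exact this
    exact squeeze_zero wN_nn wN_le h2
  have hR : Tendsto (fun N => 1 / 64 - wN N / 16 - 9 / 32 *
      ∫ s, wN N / ((3 / 4) ^ N + sg s) ∂I) atTop (𝓝 (1 / 64 - 0 / 16 - 9 / 32 * 0)) :=
    (tendsto_const_nhds.sub (hw.div_const 16)).sub (r3_tendsto.const_mul _)
  have h1 := le_of_tendsto_of_tendsto hR hL (by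
    filter_upwards [eventually_ge_atTop 2] with N hN
    rw [rect N]
    have hzp : 0 < (3 / 4 : ℝ) ^ N := by positivity
    have cz : Continuous (fun s => wN N / ((3 / 4) ^ N + sg s)) :=
      continuous_const.div (continuous_const.add sg_cont)
        (fun s => by have := sg_nonneg s; positivity)
    have cf : Continuous (fun s => s * fn N s) := continuous_id.mul (fn_cont _)
    have hcb : Continuous (fun s => Phx (s, 1 - ep N) * Phs (s, 1 - ep N)
        - Phx (s, ep N) * Phs (s, ep N)) := by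
      simp only [bdry_eq]
      have hRn : ∀ s, RR (s, ep N) ≠ 0 := fun s => by
        have : 0 < zz (ep N) + sg s := by rw [ep_zz]; have := sg_nonneg s; positivity
        exact (Real.sqrt_pos.2 this).ne'
      have hRc : Continuous (fun s => RR (s, ep N)) := RR_cont.comp (by fun_prop)
      refine Continuous.mul (continuous_const.mul (continuous_const.mul
        (continuous_id.div (continuous_const.mul hRc) (fun s => mul_ne_zero (by norm_num) (hRn s))))) ?_
      exact ((fn_cont N).sub (hRc.div_const 2)).sub ((continuous_id.mul sd_cont).div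
        (continuous_const.mul hRc) (fun s => mul_ne_zero (by norm_num) (hRn s)))
    have h2 : ∫ s in (0 : ℝ)..(1 / 2), (s * fn N s - wN N / 8
        - 9 / 32 * (wN N / ((3 / 4) ^ N + sg s)))
        ≤ ∫ s in (0 : ℝ)..(1 / 2), (Phx (s, 1 - ep N) * Phs (s, 1 - ep N)
        - Phx (s, ep N) * Phs (s, ep N)) :=
      intervalIntegral.integral_mono_on (by norm_num)
        (((cf.sub continuous_const).sub (cz.const_smul (9 / 32 : ℝ))).intervalIntegrable _ _)
        (hcb.intervalIntegrable _ _) (fun s hs => bdry_ge hN hs)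
    refine le_trans ?_ h2
    have i1 : IntervalIntegrable (fun s => s * fn N s - wN N / 8) volume 0 (1 / 2) :=
      (cf.sub continuous_const).intervalIntegrable _ _
    have i2 : IntervalIntegrable (fun s => 9 / 32 * (wN N / ((3 / 4) ^ N + sg s))) volume
        0 (1 / 2) := (cz.const_smul (9 / 32 : ℝ)).intervalIntegrable _ _
    rw [intervalIntegral.integral_sub i1 i2,
      intervalIntegral.integral_sub (cf.intervalIntegrable _ _) (by simp),
      intervalIntegral.integral_const_mul, intervalIntegral.integral_const]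
    have h3 := fn_mass hN
    have h4 : ∫ s in (0 : ℝ)..(1 / 2), wN N / ((3 / 4) ^ N + sg s)
        ≤ ∫ s, wN N / ((3 / 4) ^ N + sg s) ∂I := by
      rw [AH.int_I, ← intervalIntegral.integral_add_adjacent_intervals
        (cz.intervalIntegrable 0 (1 / 2)) (cz.intervalIntegrable (1 / 2) 1)]
      have : 0 ≤ ∫ s in (1 / 2 : ℝ)..1, wN N / ((3 / 4) ^ N + sg s) :=
        intervalIntegral.integral_nonneg (by norm_num) (fun s _ =>
          div_nonneg (wN_nn N) (by have := sg_nonneg s; positivity))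
      linarith
    simp only [smul_eq_mul]
    linarith)
  norm_num at h1 ⊢
  linarith

theorem one_dim : ∃ Ψ Ψx Ψxx Ψs : ℝ × ℝ → ℝ, AH.Cls mu Ψ Ψx Ψxx Ψs ∧
    (∀ p, Ψs p = mu p * Ψxx p) ∧ ¬ (∀ᵐ p ∂Q, Ψ p = 0) := by
  have hd : ∀ x, HasDerivAt (fun x => Phx (1 / 2, x)) (Phxx (1 / 2, x)) x :=
    fun x => Phx_hx (hcx x)
  have hde : deriv (fun x => Phx (1 / 2, x)) = fun x => Phxx (1 / 2, x) :=
    funext fun x => (hd x).deriv
  have hφ : ContDiff ℝ 1 (fun x => Phx (1 / 2, x)) := by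
    rw [contDiff_one_iff_deriv]
    exact ⟨fun x => (hd x).differentiableAt, by rw [hde]; exact Phxx_contx sg_half⟩
  have e1 : Phx (1 / 2, 1) = 0 := by simp [Phx, z1_one]
  have e0 : Phx (1 / 2, 0) = 0 := by simp [Phx, z1_zero]
  refine AH.nonuniq mu_meas mu_one mu_int cls_Ph (1 / 2) (by norm_num)
    (fun x => Phx (1 / 2, x)) hφ (by rw [e1, e0]) ?_
  have h1 : ∫ x, Ph (1 / 2, x) * deriv (fun x => Phx (1 / 2, x)) x ∂I
      = - ∫ x, Phx (1 / 2, x) ^ 2 ∂I := by
    rw [AH.int_I, AH.int_I, intervalIntegral.integral_mul_deriv_eq_deriv_mul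
      (u := fun x => Ph (1 / 2, x)) (u' := fun x => Phx (1 / 2, x))
      (fun x _ => Ph_hx (hcx x)) (fun x _ => ((hφ.differentiable (by norm_num)) x).hasDerivAt)
      (Phx_half_cont.intervalIntegrable _ _) ((hφ.continuous_deriv le_rfl).intervalIntegrable _ _),
      e1, e0]
    simp [sq]
  rw [h1]
  have := main_pos
  linarith

end Pool.Agent.R207.AI
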