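import Pool.Agent.R207.AI6

set_option autoImplicit false

open Filter Topology MeasureTheory

namespace Pool.Agent.R207.AJ

open AH (I Q)

/-- Lebesgue measure on the unit cube `[0,1)^N` -/
noncomputable def tm (N : ℕ) : Measure (Fin N → ℝ) :=
  volume.restrict (Set.pi Set.univ fun _ => Set.Ico (0 : ℝ) 1)

theorem I_eq : (volume.restrict (Set.Ico (0 : ℝ) 1) : Measure ℝ) = I :=
  Measure.restrict_congr_set Ico_ae_eq_Ioc

theorem tm_eq (N : ℕ) : tm N = Measure.pi (fun _ : Fin N => I) := by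
  unfold tm
  rw [volume_pi, Measure.restrict_pi_pi]
  simp only [I_eq]

instance (N : ℕ) : IsProbabilityMeasure (tm N) := by
  rw [tm_eq]; infer_instance

theorem tm_ae {N : ℕ} : ∀ᵐ x ∂(tm N), ∀ i, x i ∈ Set.Icc (0 : ℝ) 1 := by
  unfold tm
  rw [ae_restrict_iff' (MeasurableSet.univ_pi fun _ => measurableSet_Ico)]
  exact Eventually.of_forall fun x hx i => ⟨(hx i trivial).1, (hx i trivial).2.le⟩

theorem fract_ae : (fun x : ℝ => Int.fract x) =ᵐ[I] id := by
  filter_upwards [AI.ae_Ioo] with x hx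
  exact Int.fract_eq_self.2 ⟨hx.1.le, hx.2⟩

theorem mp_fract {N : ℕ} (i0 : Fin N) :
    MeasurePreserving (fun x : Fin N → ℝ => Int.fract (x i0)) (tm N) I := by
  rw [tm_eq]
  have h1 : MeasurePreserving (Function.eval i0) (Measure.pi (fun _ : Fin N => I)) I :=
    measurePreserving_eval (fun _ : Fin N => I) i0
  have h2 : MeasurePreserving (fun x : ℝ => Int.fract x) I I := by
    refine ⟨measurable_fract, ?_⟩
    rw [Measure.map_congr fract_ae, Measure.map_id]
  exact h2.comp h1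

theorem split_mp {n : ℕ} (i : Fin (n + 1)) :
    MeasurePreserving (MeasurableEquiv.piFinSuccAbove (fun _ : Fin (n + 1) => ℝ) i)
      (tm (n + 1)) (I.prod (tm n)) := by
  rw [tm_eq, tm_eq]
  exact measurePreserving_piFinSuccAbove (fun _ : Fin (n + 1) => I) i

theorem split_int {n : ℕ} (i : Fin (n + 1)) (F : (Fin (n + 1) → ℝ) → ℝ) :
    ∫ x, F x ∂(tm (n + 1)) = ∫ p, F (i.insertNth p.1 p.2) ∂(I.prod (tm n)) := by
  have h1 := (split_mp i).symm
  have h2 := h1.integral_comp (MeasurableEquiv.measurableEmbedding _) F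
  rw [← h2]
  rfl

theorem split_intble {n : ℕ} (i : Fin (n + 1)) {F : (Fin (n + 1) → ℝ) → ℝ}
    (hF : Integrable F (tm (n + 1))) :
    Integrable (fun p : ℝ × (Fin n → ℝ) => F (i.insertNth p.1 p.2)) (I.prod (tm n)) := by
  have h1 := (split_mp i).symm
  exact (h1.integrable_comp_emb (MeasurableEquiv.measurableEmbedding _)).2 hF

theorem ins_hd {n : ℕ} (i : Fin (n + 1)) (x' : Fin n → ℝ) (y : ℝ) :
    HasDerivAt (fun y : ℝ => (i.insertNth y x' : Fin (n + 1) → ℝ)) (Pi.single i 1) y := by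
  have h1 : (fun y : ℝ => (i.insertNth y x' : Fin (n + 1) → ℝ))
      = fun y => Function.update (i.insertNth 0 x' : Fin (n + 1) → ℝ) i y := by
    funext y
    rw [Fin.update_insertNth]
  rw [h1]
  exact hasDerivAt_update _ i y

theorem ins_cd {n : ℕ} (i : Fin (n + 1)) (x' : Fin n → ℝ) :
    ContDiff ℝ 1 (fun y : ℝ => (i.insertNth y x' : Fin (n + 1) → ℝ)) := by
  rw [contDiff_one_iff_deriv]
  refine ⟨fun y => (ins_hd i x' y).differentiableAt, ?_⟩
  have : deriv (fun y : ℝ => (i.insertNth y x' : Fin (n + 1) → ℝ)) = fun _ => Pi.single i 1 :=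
    funext fun y => (ins_hd i x' y).deriv
  rw [this]; exact continuous_const

theorem bdd_cube {N : ℕ} {g : (Fin N → ℝ) → ℝ} (hg : Continuous g) :
    ∃ C : ℝ, 0 ≤ C ∧ ∀ᵐ x ∂(tm N), |g x| ≤ C := by
  have hK : IsCompact (Set.pi Set.univ fun _ : Fin N => Set.Icc (0 : ℝ) 1) :=
    isCompact_univ_pi fun _ => isCompact_Icc
  obtain ⟨C, hC⟩ := hK.exists_bound_of_continuousOn hg.continuousOn
  refine ⟨max C 0, le_max_right _ _, ?_⟩
  filter_upwards [tm_ae] with x hx
  exact (hC x (fun i _ => hx i)).trans (le_max_left _ _)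

theorem mul_intble {N : ℕ} {f g : (Fin N → ℝ) → ℝ} (hf : Integrable f (tm N))
    (hg : Continuous g) : Integrable (fun x => f x * g x) (tm N) := by
  obtain ⟨C, hC0, hC⟩ := bdd_cube hg
  refine (hf.norm.const_mul C).mono' (hf.1.mul hg.measurable.aestronglyMeasurable) ?_
  filter_upwards [hC] with x hx
  rw [norm_mul, mul_comm]
  exact mul_le_mul_of_nonneg_right hx (norm_nonneg _)

/-- lifting of one-dimensional weak derivatives -/
theorem lift_weak {n : ℕ} (i : Fin (n + 1)) {f g : (Fin (n + 1) → ℝ) → ℝ}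
    (hf : Integrable f (tm (n + 1))) (hg : Integrable g (tm (n + 1)))
    (h : ∀ᵐ x' ∂(tm n), ∀ φ : ℝ → ℝ, ContDiff ℝ 1 φ → φ 1 = φ 0 →
      ∫ y, f (i.insertNth y x') * deriv φ y ∂I = - ∫ y, g (i.insertNth y x') * φ y ∂I)
    {ψ : (Fin (n + 1) → ℝ) → ℝ} (hψ : ContDiff ℝ 1 ψ)
    (hper : ∀ (x : Fin (n + 1) → ℝ) (j : Fin (n + 1)), ψ (x + Pi.single j 1) = ψ x) :
    ∫ x, f x * fderiv ℝ ψ x (Pi.single i 1) ∂(tm (n + 1)) = - ∫ x, g x * ψ x ∂(tm (n + 1)) := by
  have hc1 : Continuous (fun x => fderiv ℝ ψ x (Pi.single i 1)) :=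
    (hψ.continuous_fderiv (by norm_num)).clm_apply continuous_const
  have i1 := split_intble i (mul_intble hf hc1)
  have i2 := split_intble i (mul_intble hg hψ.continuous)
  rw [split_int i, split_int i, integral_prod_symm _ i1, integral_prod_symm _ i2,
    ← integral_neg]
  refine integral_congr_ae ?_
  filter_upwards [h] with x' hx'
  have hφ : ContDiff ℝ 1 (fun y : ℝ => ψ (i.insertNth y x')) := hψ.comp (ins_cd i x')
  have hd : ∀ y, deriv (fun y : ℝ => ψ (i.insertNth y x')) y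
      = fderiv ℝ ψ (i.insertNth y x') (Pi.single i 1) := by
    intro y
    have h1 : HasFDerivAt ψ (fderiv ℝ ψ (i.insertNth y x')) (i.insertNth y x') :=
      ((hψ.differentiable (by norm_num)) _).hasFDerivAt
    exact (h1.comp_hasDerivAt y (ins_hd i x' y)).deriv
  have h01 : (fun y : ℝ => ψ (i.insertNth y x')) 1 = (fun y : ℝ => ψ (i.insertNth y x')) 0 := by
    have h2 : (i.insertNth (0 : ℝ) x' : Fin (n + 1) → ℝ) + Pi.single i 1 = i.insertNth 1 x' := by
      funext j
      rcases Fin.eq_self_or_eq_succAbove i j with rfl | ⟨k, rfl⟩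
      · simp
      · simp [Fin.succAbove_ne]
    simp only
    rw [← h2, hper]
  have h3 := hx' _ hφ h01
  simp only [hd] at h3
  exact h3

theorem mapT {T : ℝ} (hT : 0 < T) :
    (volume.restrict (Set.Ioo 0 T)).map (fun t : ℝ => 1 - t / T) = ENNReal.ofReal T • I := by
  have hT' : T ≠ 0 := hT.ne'
  have hm : Measurable (fun t : ℝ => 1 - t / T) := by fun_prop
  have hpre : (fun t : ℝ => 1 - t / T) ⁻¹' (Set.Ioo 0 1) = Set.Ioo 0 T := by
    ext t
    simp only [Set.mem_preimage, Set.mem_Ioo]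
    constructor
    · rintro ⟨h1, h2⟩
      have h3 : t / T < 1 := by linarith
      have h4 : 0 < t / T := by linarith
      rw [div_lt_one hT] at h3
      exact ⟨by rwa [div_pos_iff_of_pos_right hT] at h4, h3⟩
    · rintro ⟨h1, h2⟩
      have h3 : t / T < 1 := by rwa [div_lt_one hT]
      have h4 : 0 < t / T := by positivity
      exact ⟨by linarith, by linarith⟩
  rw [← hpre, ← Measure.restrict_map hm measurableSet_Ioo]
  have h1 : (volume : Measure ℝ).map (fun t : ℝ => 1 - t / T) = ENNReal.ofReal T • volume := by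
    have h2 : (fun t : ℝ => 1 - t / T) = (fun y => 1 + y) ∘ (fun t => (-T⁻¹) * t) := by
      funext t
      simp only [Function.comp]
      field_simp
      ring
    rw [h2, ← Measure.map_map (by fun_prop) (by fun_prop),
      Real.map_volume_mul_left (by simpa using hT'), Measure.map_smul,
      map_add_left_eq_self]
    congr 2
    rw [inv_neg, inv_inv, abs_neg, abs_of_pos hT]
  rw [h1, Measure.restrict_smul]
  congr 1
  unfold AH.I
  exact restrict_Ioo_eq_restrict_Ioc

/-- measure on `(0,T) × [0,1)^N` -/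
noncomputable def QT (N : ℕ) (T : ℝ) : Measure (ℝ × (Fin N → ℝ)) :=
  (volume.restrict (Set.Ioo 0 T)).prod (tm N)

noncomputable def th {N : ℕ} (i0 : Fin N) (T : ℝ) (p : ℝ × (Fin N → ℝ)) : ℝ × ℝ :=
  (1 - p.1 / T, Int.fract (p.2 i0))

theorem th_meas {N : ℕ} (i0 : Fin N) (T : ℝ) : Measurable (th i0 T) := by
  unfold th
  exact (measurable_const.sub (measurable_fst.div_const T)).prodMk
    (measurable_fract.comp ((measurable_pi_apply i0).comp measurable_snd))

theorem map_th {N : ℕ} (i0 : Fin N) {T : ℝ} (hT : 0 < T) :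
    (QT N T).map (th i0 T) = ENNReal.ofReal T • Q := by
  have h1 : th i0 T = Prod.map (fun t : ℝ => 1 - t / T) (fun x : Fin N → ℝ => Int.fract (x i0)) :=
    rfl
  unfold QT Q
  rw [h1, ← Measure.map_prod_map _ _ (by fun_prop) (mp_fract i0).measurable, mapT hT,
    (mp_fract i0).map_eq, Measure.prod_smul_left]

theorem th_intble {N : ℕ} (i0 : Fin N) {T : ℝ} (hT : 0 < T) {F : ℝ × ℝ → ℝ}
    (hF : Integrable F Q) : Integrable (fun p => F (th i0 T p)) (QT N T) := by
  have h1 : Integrable F ((QT N T).map (th i0 T)) := by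
    rw [map_th i0 hT]
    exact hF.smul_measure ENNReal.ofReal_ne_top
  exact h1.comp_measurable (th_meas i0 T)

theorem th_qmp {N : ℕ} (i0 : Fin N) {T : ℝ} (hT : 0 < T) :
    Measure.QuasiMeasurePreserving (th i0 T) (QT N T) Q := by
  refine ⟨th_meas i0 T, ?_⟩
  rw [map_th i0 hT]
  exact Measure.smul_absolutelyContinuous

theorem t_qmp {T : ℝ} (hT : 0 < T) :
    Measure.QuasiMeasurePreserving (fun t : ℝ => 1 - t / T) (volume.restrict (Set.Ioo 0 T)) I := by
  refine ⟨by fun_prop, ?_⟩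
  rw [mapT hT]
  exact Measure.smul_absolutelyContinuous

theorem th_back {N : ℕ} (i0 : Fin N) {T : ℝ} (hT : 0 < T) {F : ℝ × ℝ → ℝ} (hF : Measurable F)
    (h : ∀ᵐ p ∂(QT N T), F (th i0 T p) = 0) : ∀ᵐ q ∂Q, F q = 0 := by
  have h1 : ∀ᵐ q ∂((QT N T).map (th i0 T)), F q = 0 := by
    rw [ae_map_iff (th_meas i0 T).aemeasurable (measurableSet_eq_fun hF measurable_const)]
    exact h
  rw [map_th i0 hT] at h1
  have h2 : Q ≪ ENNReal.ofReal T • Q := by
    refine Measure.absolutelyContinuous_smul ?_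
    simpa using hT
  exact h2.ae_le h1

/-- change of variables in time -/
theorem t_int {T : ℝ} (hT : 0 < T) (K : ℝ → ℝ) (hK : AEStronglyMeasurable K I) :
    ∫ t in Set.Ioo 0 T, K (1 - t / T) = T * ∫ s, K s ∂I := by
  have h1 : ∫ s, K s ∂((volume.restrict (Set.Ioo 0 T)).map (fun t : ℝ => 1 - t / T))
      = ∫ t in Set.Ioo 0 T, K (1 - t / T) := by
    refine integral_map (by fun_prop) ?_
    rw [mapT hT]
    exact hK.smul_measure _
  rw [← h1, mapT hT, integral_smul_measure, ENNReal.toReal_ofReal hT.le, smul_eq_mul]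

/-- one-dimensional integration by parts in time -/
theorem by_parts_time {w : ℝ → ℝ} (hw : Integrable w I) {ζ : ℝ → ℝ} (hζ : ContDiff ℝ 1 ζ)
    (h1 : ζ 1 = 0) :
    ∫ s, (∫ r, AH.ind s r * w r ∂I) * deriv ζ s ∂I = - ∫ r, w r * ζ r ∂I := by
  have hc := hζ.continuous_deriv le_rfl
  have h3 : ∀ r ∈ Set.Icc (0 : ℝ) 1, ∫ s, AH.ind s r * deriv ζ s ∂I = - ζ r := by
    intro s hs
    have h4 : ∫ t, AH.ind t s * deriv ζ t ∂I = ∫ t in s..(1 : ℝ), deriv ζ t := by
      have h5 : (fun t => AH.ind t s * deriv ζ t) = Set.indicator (Set.Ici s) (deriv ζ) := by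
        funext t
        simp only [AH.ind, Set.indicator, Set.mem_Ici]
        split_ifs <;> simp
      rw [h5, integral_indicator measurableSet_Ici, intervalIntegral.integral_of_le hs.2]
      unfold AH.I
      rw [Measure.restrict_restrict measurableSet_Ici]
      refine setIntegral_congr_set ?_
      have h6 : Set.Ioc s 1 ⊆ Set.Ici s ∩ Set.Ioc 0 1 := fun t ht =>
        ⟨ht.1.le, lt_of_le_of_lt hs.1 ht.1, ht.2⟩
      have h7 : Set.Ici s ∩ Set.Ioc 0 1 ⊆ Set.Icc s 1 := fun t ht => ⟨ht.1, ht.2.2⟩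
      have h8 : (Set.Ioc s 1 : Set ℝ) =ᵐ[volume] Set.Icc s 1 := Ioc_ae_eq_Icc
      exact (h7.eventuallyLE.trans h8.symm.le).antisymm h6.eventuallyLE
    rw [h4, intervalIntegral.integral_eq_sub_of_hasDerivAt (f := ζ)
      (fun x _ => ((hζ.differentiable (by norm_num)) x).hasDerivAt)
      (hc.intervalIntegrable _ _), h1]
    ring
  have h10 := AH.fub (fun p => AH.ind p.1 p.2) AH.ind_mm 1
    (fun s _ r _ => AH.ind_abs s r) (φ := deriv ζ) (w := w) (AH.intble_I hc) hw
  simp only at h10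
  have h11 : ∫ s, (∫ r, AH.ind s r * w r ∂I) * deriv ζ s ∂I
      = ∫ s, deriv ζ s * (∫ r, AH.ind s r * w r ∂I) ∂I := by
    refine integral_congr_ae (Eventually.of_forall fun s => ?_)
    simp only
    ring
  rw [h11, h10, ← integral_neg]
  refine integral_congr_ae (AH.memI fun r hr => ?_)
  beta_reduce
  rw [h3 r hr]
  ring

end Pool.Agent.R207.AJ
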