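import Mathlib

set_option autoImplicit false

/-! # One-troughed travelling waves of the piecewise linear beam equation are even -/

namespace Pool.Agent.R207.Beam

open Set Filter Topology

theorem const_of_deriv_zero {f : ℝ → ℝ} {a : ℝ} (h : ∀ t, a ≤ t → HasDerivAt f 0 t) :
    ∀ t, a ≤ t → f t = f a := by
  intro t ht
  rcases ht.eq_or_lt with h1 | h1
  · rw [h1]
  have := constant_of_derivWithin_zero (f := f) (a := a) (b := t)
    (fun x hx => (h x hx.1).differentiableAt.differentiableWithinAt)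
    (fun x hx => by
      rw [(h x hx.1).hasDerivWithinAt.derivWithin (uniqueDiffOn_Icc h1 x ⟨hx.1, hx.2.le⟩)])
  exact this t ⟨ht, le_rfl⟩

theorem grow {f f' : ℝ → ℝ} {a : ℝ} (h : ∀ t, a ≤ t → HasDerivAt f (f' t) t)
    (h1 : ∀ t, a ≤ t → 1 ≤ f' t) : Tendsto f atTop atTop := by
  have hm : MonotoneOn (fun t => f t - t) (Ici a) := by
    apply monotoneOn_of_deriv_nonneg (convex_Ici a)
    · exact fun t ht => ((h t ht).continuousAt.sub continuousAt_id).continuousWithinAt
    · intro t ht
      rw [interior_Ici] at ht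
      exact ((h t ht.le).sub (hasDerivAt_id t)).differentiableAt.differentiableWithinAt
    · intro t ht
      rw [interior_Ici] at ht
      have : HasDerivAt (fun t => f t - t) _ t := (h t ht.le).sub (hasDerivAt_id t)
      rw [this.deriv]
      linarith [h1 t ht.le]
  apply tendsto_atTop_mono' atTop (f₁ := fun t => (f a - a) + t)
  · filter_upwards [eventually_ge_atTop a] with t ht
    have := hm (mem_Ici.mpr le_rfl) (mem_Ici.mpr ht) ht
    simp only at this
    linarith
  · exact tendsto_atTop_add_const_left _ _ tendsto_id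

/-- The growing modes vanish. -/
theorem outer {z0 z1 z2 z3 : ℝ → ℝ} {c s τ : ℝ} (hs : 0 < s) (hs2 : s < 2)
    (hc : c ^ 2 = 2 - s ^ 2) (h0 : ∀ t, HasDerivAt z0 (z1 t) t)
    (h1 : ∀ t, HasDerivAt z1 (z2 t) t) (h2 : ∀ t, HasDerivAt z2 (z3 t) t)
    (h3 : ∀ t, τ ≤ t → HasDerivAt z3 (-(c ^ 2) * z2 t - z0 t) t)
    (hlim : Tendsto z1 atTop (𝓝 0)) :
    ∀ t, τ ≤ t → z2 t = -s * z1 t - z0 t ∧ z3 t = (s ^ 2 - 1) * z1 t + s * z0 t := by
  set y : ℝ → ℝ := fun t => z2 t + s * z1 t + z0 t with hy
  set y1 : ℝ → ℝ := fun t => z3 t + s * z2 t + z1 t with hy1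
  set q : ℝ → ℝ := fun t => z2 t - s * z1 t + z0 t with hq
  set q1 : ℝ → ℝ := fun t => z3 t - s * z2 t + z1 t with hq1
  have dy : ∀ t, HasDerivAt y (y1 t) t := fun t =>
    (((h2 t).add ((h1 t).const_mul s)).add (h0 t))
  have dq : ∀ t, HasDerivAt q (q1 t) t := fun t =>
    (((h2 t).sub ((h1 t).const_mul s)).add (h0 t))
  have dy1 : ∀ t, τ ≤ t → HasDerivAt y1 (s * y1 t - y t) t := by
    intro t ht
    have h : HasDerivAt y1 _ t := ((h3 t ht).add ((h2 t).const_mul s)).add (h1 t)
    refine h.congr_deriv ?_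
    simp only [hy, hy1]
    linear_combination (-z2 t) * hc
  have dq1 : ∀ t, τ ≤ t → HasDerivAt q1 (-s * q1 t - q t) t := by
    intro t ht
    have h : HasDerivAt q1 _ t := ((h3 t ht).sub ((h2 t).const_mul s)).add (h1 t)
    refine h.congr_deriv ?_
    simp only [hq, hq1]
    linear_combination (-z2 t) * hc
  set N : ℝ → ℝ := fun t => y1 t ^ 2 - s * (y t * y1 t) + y t ^ 2 with hN
  set M : ℝ → ℝ := fun t => q1 t ^ 2 + s * (q t * q1 t) + q t ^ 2 with hM
  have dN : ∀ t, τ ≤ t → HasDerivAt N (s * N t) t := by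
    intro t ht
    have h : HasDerivAt N _ t := (((dy1 t ht).pow 2).sub (((dy t).mul (dy1 t ht)).const_mul s)).add
      ((dy t).pow 2)
    refine h.congr_deriv ?_
    simp only [hN]
    push_cast
    ring
  have dM : ∀ t, τ ≤ t → HasDerivAt M (-s * M t) t := by
    intro t ht
    have h : HasDerivAt M _ t := (((dq1 t ht).pow 2).add (((dq t).mul (dq1 t ht)).const_mul s)).add
      ((dq t).pow 2)
    refine h.congr_deriv ?_
    simp only [hM]
    push_cast
    ring
  have eN : ∀ t, τ ≤ t → N t = N τ * Real.exp (s * (t - τ)) := by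
    have hconst := const_of_deriv_zero (f := fun t => N t * Real.exp (-s * (t - τ))) (a := τ)
      (fun t ht => by
        have he : HasDerivAt (fun t => Real.exp (-s * (t - τ))) (Real.exp (-s * (t - τ)) * (-s)) t := by
          have : HasDerivAt (fun t => -s * (t - τ)) (-s) t := by
            simpa using ((hasDerivAt_id t).sub_const τ).const_mul (-s)
          exact this.exp
        have h := (dN t ht).mul he
        refine h.congr_deriv ?_
        ring)
    intro t ht
    have := hconst t ht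
    simp only [sub_self, mul_zero, Real.exp_zero, mul_one] at this
    have e2 : Real.exp (-s * (t - τ)) * Real.exp (s * (t - τ)) = 1 := by
      rw [← Real.exp_add]; simp
    rw [← this, mul_assoc, e2, mul_one]
  have eM : ∀ t, τ ≤ t → M t = M τ * Real.exp (-(s * (t - τ))) := by
    have hconst := const_of_deriv_zero (f := fun t => M t * Real.exp (s * (t - τ))) (a := τ)
      (fun t ht => by
        have he : HasDerivAt (fun t => Real.exp (s * (t - τ))) (Real.exp (s * (t - τ)) * s) t := by
          have : HasDerivAt (fun t => s * (t - τ)) s t := by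
            simpa using ((hasDerivAt_id t).sub_const τ).const_mul s
          exact this.exp
        have h := (dM t ht).mul he
        refine h.congr_deriv ?_
        ring)
    intro t ht
    have := hconst t ht
    simp only [sub_self, mul_zero, Real.exp_zero, mul_one] at this
    have e2 : Real.exp (s * (t - τ)) * Real.exp (-(s * (t - τ))) = 1 := by
      rw [← Real.exp_add]; simp
    rw [← this, mul_assoc, e2, mul_one]
  have hs4 : 0 < 1 - s ^ 2 / 4 := by nlinarith
  have harg : Tendsto (fun t => s * (t - τ)) atTop atTop :=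
    (tendsto_atTop_add_const_right _ _ tendsto_id).const_mul_atTop hs
  -- q tends to 0
  have hq0 : Tendsto (fun t => q t ^ 2) atTop (𝓝 0) := by
    have h1 : Tendsto (fun t => M τ * Real.exp (-(s * (t - τ))) / (1 - s ^ 2 / 4)) atTop (𝓝 0) := by
      have := ((Real.tendsto_exp_neg_atTop_nhds_zero.comp harg).const_mul (M τ)).div_const
        (1 - s ^ 2 / 4)
      simpa using this
    refine squeeze_zero' (Eventually.of_forall fun t => sq_nonneg _) ?_ h1
    filter_upwards [eventually_ge_atTop τ] with t ht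
    rw [le_div_iff₀ hs4, ← eM t ht]
    simp only [hM]
    nlinarith [sq_nonneg (q1 t + s / 2 * q t)]
  have hq00 : Tendsto q atTop (𝓝 0) := by
    have := hq0.sqrt
    simp only [Real.sqrt_sq_eq_abs, Real.sqrt_zero] at this
    exact (tendsto_zero_iff_abs_tendsto_zero _).mpr this
  have hy00 : Tendsto y atTop (𝓝 0) := by
    have := hq00.add (hlim.const_mul (2 * s))
    simp only [mul_zero, add_zero] at this
    refine this.congr fun t => ?_
    simp only [hy, hq]; ring
  have hNn : ∀ t, (1 - s ^ 2 / 4) * y t ^ 2 ≤ N t := by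
    intro t
    simp only [hN]
    nlinarith [sq_nonneg (y1 t - s / 2 * y t)]
  have hNn1 : ∀ t, (1 - s ^ 2 / 4) * y1 t ^ 2 ≤ N t := by
    intro t
    simp only [hN]
    nlinarith [sq_nonneg (y t - s / 2 * y1 t)]
  -- N vanishes
  have hN0 : N τ = 0 := by
    by_contra hne
    have hpos : 0 < N τ := lt_of_le_of_ne
      ((mul_nonneg hs4.le (sq_nonneg _)).trans (hNn τ)) (Ne.symm hne)
    have hNinf : Tendsto N atTop atTop := by
      have h1 : Tendsto (fun t => N τ * Real.exp (s * (t - τ))) atTop atTop :=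
        (Real.tendsto_exp_atTop.comp harg).const_mul_atTop hpos
      refine h1.congr' ?_
      filter_upwards [eventually_ge_atTop τ] with t ht
      exact (eN t ht).symm
    set f : ℝ → ℝ := fun t => y t ^ 2 with hf
    have df : ∀ t, HasDerivAt f (2 * (y t * y1 t)) t := by
      intro t
      refine ((dy t).pow 2).congr_deriv ?_
      push_cast; ring
    have df0 : Tendsto f atTop (𝓝 0) := by
      have := hy00.pow 2
      simpa using this
    set g : ℝ → ℝ := fun t => 2 * (y t * y1 t) - 2 * s * f t with hg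
    have dg : ∀ t, τ ≤ t → HasDerivAt g (2 * N t - 4 * f t) t := by
      intro t ht
      have h : HasDerivAt g _ t := (((dy t).mul (dy1 t ht)).const_mul 2).sub ((df t).const_mul (2 * s))
      refine h.congr_deriv ?_
      simp only [hN, hf]
      ring
    obtain ⟨T, hT⟩ : ∃ T, ∀ t, T ≤ t → (τ ≤ t ∧ 3 ≤ N t ∧ f t < 1) :=
      eventually_atTop.mp ((eventually_ge_atTop τ).and ((hNinf.eventually_ge_atTop 3).and
        (df0.eventually (gt_mem_nhds one_pos))))
    have hginf : Tendsto g atTop atTop := grow (a := T) (fun t ht => dg t (hT t ht).1)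
      (fun t ht => by have := hT t ht; linarith)
    obtain ⟨T2, hT2⟩ : ∃ T2, ∀ t, T2 ≤ t → (1 ≤ g t) :=
      eventually_atTop.mp (hginf.eventually_ge_atTop 1)
    have hfinf : Tendsto f atTop atTop := grow (a := T2) (fun t _ => df t) (fun t ht => by
      have h5 := hT2 t ht
      have h6 : 0 ≤ f t := sq_nonneg _
      simp only [hg] at h5
      nlinarith)
    exact not_tendsto_nhds_of_tendsto_atTop hfinf 0 df0
  intro t ht
  have hNt : N t = 0 := by rw [eN t ht, hN0, zero_mul]
  have e1 : y t = 0 := by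
    have := hNn t
    rw [hNt] at this
    have h2 : y t ^ 2 ≤ 0 := by nlinarith
    have h3 : y t ^ 2 = 0 := le_antisymm h2 (sq_nonneg _)
    simpa using h3
  have e2 : y1 t = 0 := by
    have := hNn1 t
    rw [hNt] at this
    have h2 : y1 t ^ 2 ≤ 0 := by nlinarith
    have h3 : y1 t ^ 2 = 0 := le_antisymm h2 (sq_nonneg _)
    simpa using h3
  simp only [hy, hy1] at e1 e2
  constructor
  · linarith
  · linear_combination e2 - s * e1

/-- the piecewise linear function -/
noncomputable def FF (ξ a : ℝ) : ℝ := max (a + 1) 0 - ξ * max (-(a + 1)) 0 - 1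

theorem FF_ge {ξ a : ℝ} (h : -1 ≤ a) : FF ξ a = a := by
  unfold FF
  rw [max_eq_left (by linarith), max_eq_right (by linarith)]
  ring

theorem FF_le {ξ a : ℝ} (h : a ≤ -1) : FF ξ a = ξ * (a + 1) - 1 := by
  unfold FF
  rw [max_eq_right (by linarith), max_eq_left (by linarith)]
  ring

theorem FF_lip {ξ : ℝ} (h0 : 0 ≤ ξ) (h1 : ξ ≤ 1) (a b : ℝ) : |FF ξ a - FF ξ b| ≤ |a - b| := by
  rcases le_total (-1) a with ha | ha <;> rcases le_total (-1) b with hb | hb
  · rw [FF_ge ha, FF_ge hb]
  · rw [FF_ge ha, FF_le hb, abs_of_nonneg (by linarith : 0 ≤ a - b)]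
    rw [abs_of_nonneg (by nlinarith)]
    nlinarith
  · rw [FF_le ha, FF_ge hb, abs_of_nonpos (by linarith : a - b ≤ 0)]
    rw [abs_of_nonpos (by nlinarith)]
    nlinarith
  · rw [FF_le ha, FF_le hb]
    have : ξ * (a + 1) - 1 - (ξ * (b + 1) - 1) = ξ * (a - b) := by ring
    rw [this, abs_mul, abs_of_nonneg h0]
    exact mul_le_of_le_one_left (abs_nonneg _) h1

/-- A solution with all its derivatives. -/
structure Sol (c ξ : ℝ) (z0 z1 z2 z3 : ℝ → ℝ) : Prop where
  h0 : ∀ t, HasDerivAt z0 (z1 t) t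
  h1 : ∀ t, HasDerivAt z1 (z2 t) t
  h2 : ∀ t, HasDerivAt z2 (z3 t) t
  h3 : ∀ t, HasDerivAt z3 (-(c ^ 2) * z2 t - FF ξ (z0 t)) t

variable {c ξ : ℝ} {z0 z1 z2 z3 : ℝ → ℝ}

theorem Sol.reflect (P : Sol c ξ z0 z1 z2 z3) (a : ℝ) :
    Sol c ξ (fun t => z0 (a - t)) (fun t => -z1 (a - t)) (fun t => z2 (a - t))
      (fun t => -z3 (a - t)) where
  h0 t := by
    have h : HasDerivAt (fun t => a - t) (-1) t := by simpa using (hasDerivAt_id t).const_sub a
    refine ((P.h0 (a - t)).comp t h).congr_deriv ?_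
    ring
  h1 t := by
    have h : HasDerivAt (fun t => a - t) (-1) t := by simpa using (hasDerivAt_id t).const_sub a
    refine ((P.h1 (a - t)).comp t h).neg.congr_deriv ?_
    ring
  h2 t := by
    have h : HasDerivAt (fun t => a - t) (-1) t := by simpa using (hasDerivAt_id t).const_sub a
    refine ((P.h2 (a - t)).comp t h).congr_deriv ?_
    ring
  h3 t := by
    have h : HasDerivAt (fun t => a - t) (-1) t := by simpa using (hasDerivAt_id t).const_sub a
    refine ((P.h3 (a - t)).comp t h).neg.congr_deriv ?_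
    ring

/-- uniqueness for the initial value problem -/
theorem Sol.unique {w0 w1 w2 w3 : ℝ → ℝ} (P : Sol c ξ z0 z1 z2 z3) (R : Sol c ξ w0 w1 w2 w3)
    (hξ0 : 0 ≤ ξ) (hξ1 : ξ ≤ 1) (hc : c ^ 2 ≤ 2) {a : ℝ} (e0 : z0 a = w0 a) (e1 : z1 a = w1 a)
    (e2 : z2 a = w2 a) (e3 : z3 a = w3 a) : ∀ t, z0 t = w0 t := by
  set e : ℝ → ℝ := fun t => (z0 t - w0 t) ^ 2 + (z1 t - w1 t) ^ 2 + (z2 t - w2 t) ^ 2
    + (z3 t - w3 t) ^ 2 with he
  set e' : ℝ → ℝ := fun t => 2 * (z0 t - w0 t) * (z1 t - w1 t) + 2 * (z1 t - w1 t) * (z2 t - w2 t)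
    + 2 * (z2 t - w2 t) * (z3 t - w3 t) + 2 * (z3 t - w3 t) *
      (-(c ^ 2) * (z2 t - w2 t) - (FF ξ (z0 t) - FF ξ (w0 t))) with he'
  have de : ∀ t, HasDerivAt e (e' t) t := by
    intro t
    have h : HasDerivAt e _ t := (((((P.h0 t).sub (R.h0 t)).pow 2).add
      (((P.h1 t).sub (R.h1 t)).pow 2)).add (((P.h2 t).sub (R.h2 t)).pow 2)).add
      (((P.h3 t).sub (R.h3 t)).pow 2)
    refine h.congr_deriv ?_
    simp only [he', Pi.sub_apply]
    push_cast
    ring
  have hbd : ∀ t, |e' t| ≤ 6 * e t := by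
    intro t
    have hF := FF_lip hξ0 hξ1 (z0 t) (w0 t)
    simp only [he, he']
    set A := z0 t - w0 t
    set B := z1 t - w1 t
    set C := z2 t - w2 t
    set E := z3 t - w3 t
    set G := FF ξ (z0 t) - FF ξ (w0 t)
    have hG : G ^ 2 ≤ A ^ 2 := by
      rw [← sq_abs G, ← sq_abs A]
      exact pow_le_pow_left₀ (abs_nonneg _) hF 2
    have hc0 : 0 ≤ c ^ 2 := sq_nonneg c
    rw [abs_le]
    constructor
    · nlinarith [sq_nonneg (A + B), sq_nonneg (B + C), sq_nonneg (C + E), sq_nonneg (E + G),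
        sq_nonneg (E - G), sq_nonneg (E - C), mul_nonneg hc0 (sq_nonneg (E - C)),
        mul_nonneg hc0 (sq_nonneg (E + C)), mul_nonneg (sub_nonneg.mpr hc) (sq_nonneg C),
        mul_nonneg (sub_nonneg.mpr hc) (sq_nonneg E), sq_nonneg B]
    · nlinarith [sq_nonneg (A - B), sq_nonneg (B - C), sq_nonneg (C - E), sq_nonneg (E + G),
        sq_nonneg (E - G), sq_nonneg (E + C), mul_nonneg hc0 (sq_nonneg (E - C)),
        mul_nonneg hc0 (sq_nonneg (E + C)), mul_nonneg (sub_nonneg.mpr hc) (sq_nonneg C),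
        mul_nonneg (sub_nonneg.mpr hc) (sq_nonneg E), sq_nonneg B]
  have hea : e a = 0 := by simp [he, e0, e1, e2, e3]
  have hen : ∀ t, 0 ≤ e t := fun t => by simp only [he]; positivity
  have hanti : Antitone fun t => e t * Real.exp (-6 * t) := by
    have hd : ∀ t, HasDerivAt (fun t => e t * Real.exp (-6 * t))
        ((e' t - 6 * e t) * Real.exp (-6 * t)) t := by
      intro t
      have h6 : HasDerivAt (fun t : ℝ => -6 * t) (-6) t := by
        simpa using (hasDerivAt_id t).const_mul (-6)
      refine ((de t).mul h6.exp).congr_deriv ?_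
      ring
    apply antitone_of_deriv_nonpos (fun t => (hd t).differentiableAt)
    intro t
    rw [(hd t).deriv]
    have := (abs_le.mp (hbd t)).2
    exact mul_nonpos_of_nonpos_of_nonneg (by linarith) (Real.exp_pos _).le
  have hmono : Monotone fun t => e t * Real.exp (6 * t) := by
    have hd : ∀ t, HasDerivAt (fun t => e t * Real.exp (6 * t))
        ((e' t + 6 * e t) * Real.exp (6 * t)) t := by
      intro t
      have h6 : HasDerivAt (fun t : ℝ => 6 * t) 6 t := by
        simpa using (hasDerivAt_id t).const_mul 6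
      refine ((de t).mul h6.exp).congr_deriv ?_
      ring
    apply monotone_of_deriv_nonneg (fun t => (hd t).differentiableAt)
    intro t
    rw [(hd t).deriv]
    have := (abs_le.mp (hbd t)).1
    exact mul_nonneg (by linarith) (Real.exp_pos _).le
  have hzero : ∀ t, e t = 0 := by
    intro t
    rcases le_total a t with h | h
    · have h1 := hanti h
      simp only [hea, zero_mul] at h1
      have h2 := Real.exp_pos (-6 * t)
      have h3 := hen t
      by_contra hne
      have h4 : 0 < e t := lt_of_le_of_ne h3 (Ne.symm hne)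
      have := mul_pos h4 h2
      linarith
    · have h1 := hmono h
      simp only [hea, zero_mul] at h1
      have h2 := Real.exp_pos (6 * t)
      have h3 := hen t
      by_contra hne
      have h4 : 0 < e t := lt_of_le_of_ne h3 (Ne.symm hne)
      have := mul_pos h4 h2
      linarith
  intro t
  have h1 := hzero t
  simp only [he] at h1
  have h2 : (z0 t - w0 t) ^ 2 = 0 := by
    apply le_antisymm _ (sq_nonneg _)
    nlinarith [sq_nonneg (z1 t - w1 t), sq_nonneg (z2 t - w2 t), sq_nonneg (z3 t - w3 t)]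
  have h3 : z0 t - w0 t = 0 := by simpa using h2
  linarith

end Pool.Agent.R207.Beam
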