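import Pool.Agent.R207.Beam1

set_option autoImplicit false

/-! # One-troughed waves are even: conclusion -/

namespace Pool.Agent.R207.Beam

open Set Filter Topology

variable {c ξ : ℝ} {z0 z1 z2 z3 : ℝ → ℝ}

theorem Sol.cont (P : Sol c ξ z0 z1 z2 z3) : Continuous z0 :=
  continuous_iff_continuousAt.mpr fun t => (P.h0 t).continuousAt

/-- outer region, to the right of the last point with `z = -1` -/
theorem Sol.right (P : Sol c ξ z0 z1 z2 z3) {s : ℝ} (hs : 0 < s) (hs2 : s < 2)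
    (hc : c ^ 2 = 2 - s ^ 2) (hlim0 : Tendsto z0 atTop (𝓝 0)) (hlim1 : Tendsto z1 atTop (𝓝 0))
    {τ : ℝ} (hτ : z0 τ = -1) (hne : ∀ t, τ < t → z0 t ≠ -1) :
    z2 τ = 1 - s * z1 τ ∧ z3 τ = (s ^ 2 - 1) * z1 τ - s ∧ 0 ≤ z1 τ := by
  have hgt : ∀ t, τ < t → -1 < z0 t := by
    intro t ht
    by_contra hcon
    push Not at hcon
    obtain ⟨T, hT1, hT2⟩ : ∃ T, -1 < z0 T ∧ t < T :=
      ((hlim0.eventually (lt_mem_nhds (by norm_num : (-1 : ℝ) < 0))).and
        (eventually_gt_atTop t)).exists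
    obtain ⟨x, hx, hx1⟩ := intermediate_value_Icc hT2.le P.cont.continuousOn ⟨hcon, hT1.le⟩
    exact hne x (lt_of_lt_of_le ht hx.1) hx1
  have hge : ∀ t, τ ≤ t → -1 ≤ z0 t := by
    intro t ht
    rcases ht.eq_or_lt with h | h
    · rw [← h, hτ]
    · exact (hgt t h).le
  have hout := outer hs hs2 hc P.h0 P.h1 P.h2 (τ := τ) (fun t ht => by
    have := P.h3 t
    rwa [FF_ge (hge t ht)] at this) hlim1 τ le_rfl
  rw [hτ] at hout
  refine ⟨by linarith [hout.1], by linarith [hout.2], ?_⟩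
  have h1 := (P.h0 τ).tendsto_slope_zero_right
  apply ge_of_tendsto h1
  filter_upwards [self_mem_nhdsWithin] with t ht
  have ht' : (0 : ℝ) < t := ht
  rw [hτ, smul_eq_mul]
  have := hgt (τ + t) (by linarith)
  have h2 : 0 ≤ z0 (τ + t) - -1 := by linarith
  positivity

/-- the invariant of the inner region -/
noncomputable def KK (c ξ : ℝ) (z0 z1 z2 z3 : ℝ → ℝ) (t : ℝ) : ℝ :=
  z3 t ^ 2 + c ^ 2 * z2 t ^ 2 - ξ * z1 t ^ 2 + 2 * z2 t * (ξ * z0 t - 1 + ξ)

theorem Sol.KK_const (P : Sol c ξ z0 z1 z2 z3) {a b : ℝ} (hab : a < b)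
    (h : ∀ t ∈ Icc a b, z0 t ≤ -1) : KK c ξ z0 z1 z2 z3 b = KK c ξ z0 z1 z2 z3 a := by
  have hd : ∀ t ∈ Icc a b, HasDerivAt (KK c ξ z0 z1 z2 z3) 0 t := by
    intro t ht
    have h3 := P.h3 t
    rw [FF_le (h t ht)] at h3
    have hh : HasDerivAt (KK c ξ z0 z1 z2 z3) _ t :=
      ((((h3.pow 2).add (((P.h2 t).pow 2).const_mul (c ^ 2))).sub
        (((P.h1 t).pow 2).const_mul ξ)).add
        (((P.h2 t).const_mul 2).mul ((((P.h0 t).const_mul ξ).sub_const 1).add_const ξ)))
    refine hh.congr_deriv ?_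
    push_cast
    ring
  exact constant_of_derivWithin_zero
    (fun x hx => (hd x hx).differentiableAt.differentiableWithinAt)
    (fun x hx => by
      rw [(hd x ⟨hx.1, hx.2.le⟩).hasDerivWithinAt.derivWithin
        (uniqueDiffOn_Icc hab x ⟨hx.1, hx.2.le⟩)]) b ⟨hab.le, le_rfl⟩

theorem Sol.even (P : Sol c ξ z0 z1 z2 z3) (hc0 : 0 < c ^ 2) (hc2 : c ^ 2 < 2)
    (hξ0 : 0 ≤ ξ) (hξ1 : ξ < 1) (l0 : Tendsto z0 atTop (𝓝 0)) (l1 : Tendsto z1 atTop (𝓝 0))
    (m0 : Tendsto z0 atBot (𝓝 0)) (m1 : Tendsto z1 atBot (𝓝 0)) {t1 t2 : ℝ} (h12 : t1 < t2)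
    (hz : ∀ t, z0 t = -1 ↔ t = t1 ∨ t = t2) : ∀ t, z0 (t1 + t2 - t) = z0 t := by
  set s := √(2 - c ^ 2) with hs
  have hs0 : 0 < s := Real.sqrt_pos.mpr (by linarith)
  have hss : s ^ 2 = 2 - c ^ 2 := Real.sq_sqrt (by linarith)
  have hs2 : s < 2 := by nlinarith
  have hc : c ^ 2 = 2 - s ^ 2 := by linarith
  -- right end
  have hR := P.right hs0 hs2 hc l0 l1 (τ := t2) ((hz t2).mpr (Or.inr rfl)) (fun t ht h => by
    rcases (hz t).mp h with h1 | h1 <;> linarith)
  -- left end
  set Q := P.reflect (t1 + t2) with hQ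
  have hneg : Tendsto (fun t : ℝ => t1 + t2 - t) atTop atBot := by
    have : Tendsto (fun t : ℝ => -t) atTop atBot := tendsto_neg_atTop_atBot
    have h2 := tendsto_atBot_add_const_left atTop (t1 + t2) this
    refine h2.congr fun t => by ring
  have hL := Q.right hs0 hs2 hc (m0.comp hneg) (by
    have := (m1.comp hneg).neg
    rw [neg_zero] at this
    exact this) (τ := t2) (by
      rw [add_sub_cancel_right]; exact (hz t1).mpr (Or.inl rfl)) (fun t ht h => by
    rcases (hz _).mp h with h1 | h1 <;> linarith)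
  simp only [add_sub_cancel_right] at hL
  obtain ⟨r2, r3, rv⟩ := hR
  obtain ⟨q2, q3, qv⟩ := hL
  have e1 : z0 t1 = -1 := (hz t1).mpr (Or.inl rfl)
  have e2 : z0 t2 = -1 := (hz t2).mpr (Or.inr rfl)
  -- the trough
  have hne : ∀ t, t1 < t → t < t2 → z0 t ≠ -1 := by
    intro t ha hb h
    rcases (hz t).mp h with h1 | h1 <;> linarith
  set m := (t1 + t2) / 2 with hm
  have hm1 : t1 < m := by rw [hm]; linarith
  have hm2 : m < t2 := by rw [hm]; linarith
  rcases lt_or_gt_of_ne (hne m hm1 hm2) with hlt | hgt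
  · -- z < -1 in the middle
    have hmid : ∀ t ∈ Icc t1 t2, z0 t ≤ -1 := by
      intro t ht
      by_contra hcon
      push Not at hcon
      have htne1 : t ≠ t1 := by rintro rfl; linarith
      have htne2 : t ≠ t2 := by rintro rfl; linarith
      have ht1 : t1 < t := lt_of_le_of_ne ht.1 (Ne.symm htne1)
      have ht2 : t < t2 := lt_of_le_of_ne ht.2 htne2
      have := isPreconnected_Ioo.intermediate_value (s := Ioo t1 t2) ⟨hm1, hm2⟩ ⟨ht1, ht2⟩
        P.cont.continuousOn ⟨hlt.le, hcon.le⟩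
      obtain ⟨x, hx, hx1⟩ := this
      exact hne x hx.1 hx.2 hx1
    have hK := P.KK_const h12 hmid
    have hv : z1 t2 = -z1 t1 := by
      have h1 : KK c ξ z0 z1 z2 z3 t2 = (1 - ξ) * z1 t2 ^ 2 := by
        unfold KK; rw [r2, r3, e2, hc]; ring
      have h2 : KK c ξ z0 z1 z2 z3 t1 = (1 - ξ) * (-z1 t1) ^ 2 := by
        have q3' : z3 t1 = -((s ^ 2 - 1) * -z1 t1 - s) := by linarith
        unfold KK; rw [q2, q3', e1, hc]; ring
      rw [h1, h2] at hK
      have h3 : z1 t2 ^ 2 = (-z1 t1) ^ 2 := mul_left_cancel₀ (by linarith : (1 - ξ) ≠ 0) hK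
      exact (pow_left_inj₀ rv qv (by norm_num)).mp h3
    have := Q.unique P hξ0 hξ1.le hc2.le (a := t2)
      (by simp only [add_sub_cancel_right]; rw [e1, e2])
      (by simp only [add_sub_cancel_right]; exact hv.symm)
      (by simp only [add_sub_cancel_right]; rw [q2, r2, hv])
      (by simp only [add_sub_cancel_right]; rw [q3, r3, hv])
    exact this
  · -- z > -1 in the middle: impossible
    exfalso
    have hge : ∀ t, -1 ≤ z0 t := by
      intro t
      by_contra hcon
      push Not at hcon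
      rcases lt_trichotomy t t1 with h | h | h
      · obtain ⟨T, hT1, hT2⟩ : ∃ T, -1 < z0 T ∧ T < t :=
          ((m0.eventually (lt_mem_nhds (by norm_num : (-1 : ℝ) < 0))).and
            (eventually_lt_atBot t)).exists
        obtain ⟨x, hx, hx1⟩ := intermediate_value_Icc' hT2.le P.cont.continuousOn
          ⟨hcon.le, hT1.le⟩
        rcases (hz x).mp hx1 with h1 | h1 <;> linarith [hx.2]
      · rw [h] at hcon; linarith
      · rcases lt_trichotomy t t2 with h' | h' | h'
        · have := isPreconnected_Ioo.intermediate_value (s := Ioo t1 t2) ⟨h, h'⟩ ⟨hm1, hm2⟩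
            P.cont.continuousOn ⟨hcon.le, hgt.le⟩
          obtain ⟨x, hx, hx1⟩ := this
          exact hne x hx.1 hx.2 hx1
        · rw [h'] at hcon; linarith
        · obtain ⟨T, hT1, hT2⟩ : ∃ T, -1 < z0 T ∧ t < T :=
            ((l0.eventually (lt_mem_nhds (by norm_num : (-1 : ℝ) < 0))).and
              (eventually_gt_atTop t)).exists
          obtain ⟨x, hx, hx1⟩ := intermediate_value_Icc hT2.le P.cont.continuousOn
            ⟨hcon.le, hT1.le⟩
          rcases (hz x).mp hx1 with h1 | h1 <;> linarith [hx.1]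
    have hz1 : ∀ t, z1 t = 0 := by
      intro t
      have ha := outer hs0 hs2 hc P.h0 P.h1 P.h2 (τ := t) (fun t _ => by
        have := P.h3 t
        rwa [FF_ge (hge t)] at this) l1 t le_rfl
      have hb := outer hs0 hs2 hc Q.h0 Q.h1 Q.h2 (τ := t1 + t2 - t) (fun t _ => by
        have := Q.h3 t
        rwa [FF_ge (hge _)] at this) (by
          have := (m1.comp hneg).neg
          rw [neg_zero] at this
          exact this) (t1 + t2 - t) le_rfl
      simp only [sub_sub_cancel] at hb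
      have h1 := ha.1
      have h2 := hb.1
      have : 2 * s * z1 t = 0 := by linarith
      rcases mul_eq_zero.mp this with h | h
      · linarith
      · exact h
    have hconst : ∀ t, z0 t = z0 t1 := fun t =>
      is_const_of_deriv_eq_zero (fun t => (P.h0 t).differentiableAt)
        (fun t => by rw [(P.h0 t).deriv, hz1 t]) t t1
    have : z0 (t2 + 1) = -1 := by rw [hconst, e1]
    rcases (hz _).mp this with h | h <;> linarith

end Pool.Agent.R207.Beam
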