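import Pool.Agent.R207.HH1

set_option autoImplicit false

/-! # A priori bound for distributional solutions -/

namespace Pool.Agent.R207.HH

open MeasureTheory Real Set Filter Topology InnerProductSpace Laplacian
open scoped ContDiff
open Pool.Agent.R207.QC (E Pd qq co lap_eq lap_eq' Pd_smooth NL)

variable {n : ℕ}

/-- nonnegative distributional solutions -/
structure Sol (m : ℕ) (p σ : ℝ) (v : E n → ℝ) : Prop where
  nonneg : ∀ x, 0 ≤ v x
  li : LocallyIntegrable v
  lif : LocallyIntegrable (fun x => ‖x‖ ^ σ * v x ^ p)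
  eqn : ∀ φ : E n → ℝ, ContDiff ℝ ∞ φ → HasCompactSupport φ →
    ∫ x, v x * NL^[m] φ x = ∫ x, ‖x‖ ^ σ * v x ^ p * φ x

theorem young {p : ℝ} (hp : 1 < p) {C : ℝ} (hC : 0 < C) {k m : ℕ}
    (hk : 2 * (m : ℝ) ≤ k * (p - 1)) : ∃ C' : ℝ, 0 ≤ C' ∧ ∀ z t : ℝ, 0 ≤ z → 0 ≤ t → t ≤ 1 →
      C * z * t ^ k ≤ 1 / 2 * z ^ p * t ^ (k + 2 * m) + C' := by
  refine ⟨C * (2 * C) ^ (1 / (p - 1)), by positivity, ?_⟩
  intro z t hz ht ht1
  have hp1 : 0 < p - 1 := by linarith
  by_cases h : C * z * t ^ k ≤ 1 / 2 * z ^ p * t ^ (k + 2 * m)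
  · have : 0 ≤ C * (2 * C) ^ (1 / (p - 1)) := by positivity
    linarith
  · push Not at h
    have hR : 0 ≤ 1 / 2 * z ^ p * t ^ (k + 2 * m) := by positivity
    have hpos : 0 < C * z * t ^ k := lt_of_le_of_lt hR h
    have hz0 : 0 < z := by
      rcases hz.lt_or_eq with h1 | h1
      · exact h1
      · rw [← h1] at hpos; simp at hpos
    have htk : 0 < t ^ k := by
      have h1 : 0 ≤ t ^ k := by positivity
      rcases h1.lt_or_eq with h2 | h2
      · exact h2
      · rw [← h2] at hpos; simp at hpos
    have hzt : 0 < z * t ^ k := by positivity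
    have e1 : z ^ p = z ^ (p - 1) * z := by
      rw [← Real.rpow_add_one hz0.ne']
      congr 1; ring
    have h3 : z ^ (p - 1) * t ^ (2 * m) < 2 * C := by
      have h4 : (z * t ^ k) * (z ^ (p - 1) * t ^ (2 * m)) < (z * t ^ k) * (2 * C) := by
        rw [e1, pow_add] at h
        linarith
      exact lt_of_mul_lt_mul_left h4 hzt.le
    have h5 : (z * t ^ k) ^ (p - 1) ≤ 2 * C := by
      rw [Real.mul_rpow hz0.le htk.le]
      have h6 : (t ^ k) ^ (p - 1) ≤ t ^ (2 * m) := by
        rw [← Real.rpow_natCast t k, ← Real.rpow_mul ht, ← Real.rpow_natCast t (2 * m)]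
        rcases ht.lt_or_eq with h7 | h7
        · apply Real.rpow_le_rpow_of_exponent_ge h7 ht1
          push_cast
          exact hk
        · rw [← h7]
          rcases Nat.eq_zero_or_pos k with hk0 | hk0
          · have : m = 0 := by
              rw [hk0] at hk
              simp at hk
              have : (m : ℝ) ≤ 0 := by linarith
              exact_mod_cast le_antisymm (by exact_mod_cast this) (Nat.zero_le m)
            rw [hk0, this]
            simp
          · rw [← h7, zero_pow (by omega)] at htk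
            exact absurd htk (lt_irrefl 0)
      have h8 : 0 ≤ z ^ (p - 1) := by positivity
      have h9 := mul_le_mul_of_nonneg_left h6 h8
      linarith
    have h6 : z * t ^ k ≤ (2 * C) ^ (1 / (p - 1)) := by
      calc z * t ^ k = ((z * t ^ k) ^ (p - 1)) ^ (1 / (p - 1)) := by
            rw [← Real.rpow_mul hzt.le]
            rw [mul_one_div_cancel hp1.ne', Real.rpow_one]
        _ ≤ _ := Real.rpow_le_rpow (by positivity) h5 (by positivity)
    have h7 : C * z * t ^ k ≤ C * (2 * C) ^ (1 / (p - 1)) := by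
      rw [mul_assoc]
      exact mul_le_mul_of_nonneg_left h6 hC.le
    linarith

theorem compact_of {G : ℝ → ℝ} (hG : ∀ s, 1 < s → G s = 0) {R : ℝ} (hR : 0 < R) :
    HasCompactSupport (fun x : E n => G ((R ^ 2)⁻¹ * qq x)) := by
  apply HasCompactSupport.intro (isCompact_closedBall (0 : E n) R)
  intro x hx
  rw [mem_closedBall_zero_iff, not_le] at hx
  apply hG
  unfold Pool.Agent.R207.QC.qq
  rw [← div_eq_inv_mul, lt_div_iff₀ (by positivity), one_mul]
  exact pow_lt_pow_left₀ hx hR.le (by norm_num)

theorem outside {R : ℝ} (hR : 0 < R) {x : E n} (hx : R < ‖x‖) : 1 < (R ^ 2)⁻¹ * qq x := by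
  unfold Pool.Agent.R207.QC.qq
  rw [← div_eq_inv_mul, lt_div_iff₀ (by positivity), one_mul]
  exact pow_lt_pow_left₀ hx hR.le (by norm_num)

theorem qq_nonneg (x : E n) : 0 ≤ qq x := by
  unfold Pool.Agent.R207.QC.qq
  positivity

/-- a priori bound -/
theorem apriori {m : ℕ} {p σ θ : ℝ} (hn : 1 ≤ n) (hp : 1 < p) (hσ : σ < 0)
    (hθ : θ * (p - 1) = 2 * m + σ) :
    ∃ M : ℝ, 0 ≤ M ∧ ∀ v : E n → ℝ, Sol m p σ v → ∀ R : ℝ, 0 < R →
      ∫ x in Metric.closedBall (0 : E n) R, v x ≤ M * R ^ ((n : ℝ) - θ) := by
  have hp1 : 0 < p - 1 := by linarith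
  have hnt : Nontrivial (E n) := by
    have : Nonempty (Fin n) := ⟨⟨0, by omega⟩⟩
    infer_instance
  -- the exponent
  obtain ⟨k, hk1, hk⟩ : ∃ k : ℕ, 1 ≤ k ∧ 2 * (m : ℝ) ≤ k * (p - 1) := by
    obtain ⟨k, hk⟩ := exists_nat_ge (2 * (m : ℝ) / (p - 1))
    refine ⟨k + 1, by omega, ?_⟩
    rw [div_le_iff₀ hp1] at hk
    push_cast
    nlinarith
  obtain ⟨C, hC0, hC⟩ := L_iter_pow_bound (n := n) m k hk1
  obtain ⟨C', hC'0, hC'⟩ := young hp hC0 hk
  set vb : ℝ := volume.real (Metric.closedBall (0 : E n) 1) with hvb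
  have hvb0 : 0 ≤ vb := measureReal_nonneg
  set G : ℝ → ℝ := fun s => chi s ^ (k + 2 * m) with hG
  have hGs : ContDiff ℝ ∞ G := chi_smooth.pow _
  have hGz : ∀ s, 1 < s → G s = 0 := by
    intro s hs
    rw [hG]
    simp only
    rw [chi_zero hs.le, zero_pow (by omega)]
  -- main estimate
  have key : ∀ v : E n → ℝ, Sol m p σ v → ∀ R : ℝ, 0 < R →
      ∫ x, ‖x‖ ^ σ * v x ^ p * G ((R ^ 2)⁻¹ * qq x) ≤ 2 * C' * vb * R ^ (-2 * m - θ) * R ^ n := by
    intro v hv R hR
    set c : ℝ := (R ^ 2)⁻¹ with hc
    have hc0 : 0 < c := by positivity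
    have hφs : ContDiff ℝ ∞ (fun x : E n => G (c * qq x)) := comp_smooth hGs c
    have hφc : HasCompactSupport (fun x : E n => G (c * qq x)) := compact_of hGz hR
    have hX := hv.eqn _ hφs hφc
    set X := ∫ x, ‖x‖ ^ σ * v x ^ p * G (c * qq x) with hXdef
    have hXi : Integrable (fun x : E n => ‖x‖ ^ σ * v x ^ p * G (c * qq x)) := by
      have := hv.lif.integrable_smul_right_of_hasCompactSupport hφs.continuous hφc
      simpa [smul_eq_mul] using this
    -- the bound of the Laplacian
    have h1 : ∀ x : E n, v x * NL^[m] (fun x : E n => G (c * qq x)) x ≤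
        c ^ m * (C * v x * chi (c * qq x) ^ k) := by
      intro x
      rw [NL_iter_comp hGs]
      have h2 := hC (c * qq x) (mul_nonneg hc0.le (qq_nonneg x))
      have h3 : (-c) ^ m * (L n)^[m] G (c * qq x) ≤ c ^ m * (C * chi (c * qq x) ^ k) := by
        calc (-c) ^ m * (L n)^[m] G (c * qq x) ≤ |(-c) ^ m * (L n)^[m] G (c * qq x)| := le_abs_self _
          _ = c ^ m * |(L n)^[m] G (c * qq x)| := by
            rw [abs_mul, abs_pow, abs_neg, abs_of_pos hc0]
          _ ≤ _ := mul_le_mul_of_nonneg_left h2 (by positivity)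
      calc v x * ((-c) ^ m * (L n)^[m] G (c * qq x)) ≤ v x * (c ^ m * (C * chi (c * qq x) ^ k)) :=
            mul_le_mul_of_nonneg_left h3 (hv.nonneg x)
        _ = _ := by ring
    -- pointwise estimate
    have hRs : ∀ a b : ℝ, R ^ a * R ^ b = R ^ (a + b) := fun a b => (Real.rpow_add hR a b).symm
    have hcm : c ^ m = R ^ (-2 * (m : ℝ)) := by
      rw [hc, ← Real.rpow_natCast, ← Real.rpow_natCast, ← Real.rpow_neg hR.le,
        ← Real.rpow_mul hR.le]
      congr 1
    have h2 : ∀ x : E n, x ≠ 0 → c ^ m * (C * v x * chi (c * qq x) ^ k) ≤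
        1 / 2 * (‖x‖ ^ σ * v x ^ p * G (c * qq x)) +
          (Metric.closedBall (0 : E n) R).indicator (fun _ => C' * R ^ (-2 * m - θ)) x := by
      intro x hx
      by_cases hxR : ‖x‖ ≤ R
      · rw [Set.indicator_of_mem (by rwa [mem_closedBall_zero_iff])]
        have h3 := hC' (R ^ θ * v x) (chi (c * qq x)) (mul_nonneg (by positivity) (hv.nonneg x))
          (chi_nonneg _) (chi_le_one _)
        have h4 := mul_le_mul_of_nonneg_left h3 (Real.rpow_nonneg hR.le (-2 * m - θ))
        have hv0 := hv.nonneg x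
        rw [Real.mul_rpow (by positivity) hv0, ← Real.rpow_mul hR.le] at h4
        have e1 : R ^ (-2 * m - θ) * (C * (R ^ θ * v x) * chi (c * qq x) ^ k) =
            c ^ m * (C * v x * chi (c * qq x) ^ k) := by
          rw [hcm]
          have : R ^ (-2 * (m : ℝ)) = R ^ (-2 * (m : ℝ) - θ) * R ^ θ := by
            rw [hRs]; congr 1; ring
          rw [this]
          ring
        have e2 : R ^ (-2 * m - θ) * (1 / 2 * (R ^ (θ * p) * v x ^ p) *
            chi (c * qq x) ^ (k + 2 * m) + C') =
            1 / 2 * (R ^ σ * v x ^ p * G (c * qq x)) + C' * R ^ (-2 * m - θ) := by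
          have : R ^ σ = R ^ (-2 * (m : ℝ) - θ) * R ^ (θ * p) := by
            rw [hRs]; congr 1; linarith
          rw [this]
          ring
        rw [e1, e2] at h4
        have h5 : R ^ σ ≤ ‖x‖ ^ σ :=
          Real.rpow_le_rpow_of_nonpos (norm_pos_iff.mpr hx) hxR hσ.le
        have h6 : 0 ≤ v x ^ p * G (c * qq x) :=
          mul_nonneg (Real.rpow_nonneg hv0 p) (pow_nonneg (chi_nonneg _) _)
        have h7 := mul_le_mul_of_nonneg_right h5 h6
        linarith
      · push Not at hxR
        have h3 := outside hR hxR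
        rw [Set.indicator_of_notMem (by rw [mem_closedBall_zero_iff]; exact not_le.mpr hxR)]
        have h4 : chi (c * qq x) = 0 := chi_zero h3.le
        have h5 : G (c * qq x) = 0 := hGz _ h3
        rw [h4, h5, zero_pow (by omega)]
        simp
    have hI2 : Integrable (fun x : E n => c ^ m * (C * v x * chi (c * qq x) ^ k)) := by
      have hg : Continuous (fun x : E n => chi (c * qq x) ^ k) :=
        (comp_smooth (n := n) (chi_smooth.pow k) c).continuous
      have hgc : HasCompactSupport (fun x : E n => chi (c * qq x) ^ k) :=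
        compact_of (G := fun s => chi s ^ k) (fun s hs => by
          rw [chi_zero hs.le, zero_pow (by omega)]) hR
      have := (hv.li.integrable_smul_right_of_hasCompactSupport hg hgc).const_mul (c ^ m * C)
      refine this.congr (Eventually.of_forall fun x => ?_)
      simp only [smul_eq_mul]
      ring
    have hI3 : Integrable (fun x : E n => v x * NL^[m] (fun x : E n => G (c * qq x)) x) := by
      have hg := (Pool.Agent.R207.QC.NL_iter_smooth hφs m).continuous
      have hgc : HasCompactSupport (NL^[m] (fun x : E n => G (c * qq x))) := by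
        rw [NL_iter_comp hGs]
        apply compact_of (G := fun s => (-c) ^ m * (L n)^[m] G s) _ hR
        intro s hs
        have h3 := hC s (by linarith)
        rw [chi_zero hs.le, zero_pow (by omega), mul_zero] at h3
        have h4 := abs_nonpos_iff.mp h3
        rw [show (L n)^[m] G s = 0 from h4, mul_zero]
      have := hv.li.integrable_smul_right_of_hasCompactSupport hg hgc
      simpa [smul_eq_mul] using this
    have hind : Integrable ((Metric.closedBall (0 : E n) R).indicator
        (fun _ => C' * R ^ (-2 * m - θ))) := by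
      rw [integrable_indicator_iff measurableSet_closedBall]
      exact integrableOn_const (hs := measure_closedBall_lt_top.ne)
    have h3 : X ≤ 1 / 2 * X + C' * R ^ (-2 * m - θ) * (R ^ n * vb) := by
      calc X = ∫ x, v x * NL^[m] (fun x : E n => G (c * qq x)) x := hX.symm
        _ ≤ ∫ x, c ^ m * (C * v x * chi (c * qq x) ^ k) := integral_mono hI3 hI2 h1
        _ ≤ ∫ x, (1 / 2 * (‖x‖ ^ σ * v x ^ p * G (c * qq x)) +
          (Metric.closedBall (0 : E n) R).indicator (fun _ => C' * R ^ (-2 * m - θ)) x) := by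
            apply integral_mono_ae hI2 ((hXi.const_mul _).add hind)
            filter_upwards [Measure.ae_ne volume (0 : E n)] with x hx
            exact h2 x hx
        _ = 1 / 2 * X + C' * R ^ (-2 * m - θ) * (R ^ n * vb) := by
            rw [integral_add (hXi.const_mul _) hind, integral_const_mul,
              integral_indicator measurableSet_closedBall, setIntegral_const, smul_eq_mul,
              Measure.addHaar_real_closedBall' volume (0 : E n) hR.le, finrank_euclideanSpace_fin]
            ring
    linarith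
  -- conclusion at radius `R / 2`
  have key2 : ∀ v : E n → ℝ, Sol m p σ v → ∀ R : ℝ, 0 < R →
      ∫ x in Metric.closedBall (0 : E n) (R / 2), v x ≤ (2 * C' * vb + vb) * R ^ ((n : ℝ) - θ) := by
    intro v hv R hR
    have hk1 := key v hv R hR
    set c : ℝ := (R ^ 2)⁻¹ with hc
    have hc0 : 0 < c := by positivity
    have hφs : ContDiff ℝ ∞ (fun x : E n => G (c * qq x)) := comp_smooth hGs c
    have hφc : HasCompactSupport (fun x : E n => G (c * qq x)) := compact_of hGz hR
    have hXi : Integrable (fun x : E n => ‖x‖ ^ σ * v x ^ p * G (c * qq x)) := by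
      have := hv.lif.integrable_smul_right_of_hasCompactSupport hφs.continuous hφc
      simpa [smul_eq_mul] using this
    have hRs : ∀ a b : ℝ, R ^ a * R ^ b = R ^ (a + b) := fun a b => (Real.rpow_add hR a b).symm
    have hfn : ∀ x : E n, 0 ≤ ‖x‖ ^ σ * v x ^ p * G (c * qq x) := fun x =>
      mul_nonneg (mul_nonneg (Real.rpow_nonneg (norm_nonneg x) σ) (Real.rpow_nonneg (hv.nonneg x) p))
        (pow_nonneg (chi_nonneg _) _)
    have hind : Integrable ((Metric.closedBall (0 : E n) R).indicator (fun _ => R ^ (-θ))) := by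
      rw [integrable_indicator_iff measurableSet_closedBall]
      exact integrableOn_const (hs := measure_closedBall_lt_top.ne)
    have h1 : ∀ x : E n, x ≠ 0 → (Metric.closedBall (0 : E n) (R / 2)).indicator v x ≤
        R ^ (2 * (m : ℝ)) * (‖x‖ ^ σ * v x ^ p * G (c * qq x)) +
          (Metric.closedBall (0 : E n) R).indicator (fun _ => R ^ (-θ)) x := by
      intro x hx
      have hv0 := hv.nonneg x
      by_cases hxR : ‖x‖ ≤ R / 2
      · rw [Set.indicator_of_mem (by rwa [mem_closedBall_zero_iff]),
          Set.indicator_of_mem (by rw [mem_closedBall_zero_iff]; linarith)]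
        have hG1 : G (c * qq x) = 1 := by
          have : chi (c * qq x) = 1 := by
            apply chi_one
            rw [hc, ← div_eq_inv_mul, div_le_iff₀ (by positivity)]
            unfold Pool.Agent.R207.QC.qq
            have := pow_le_pow_left₀ (norm_nonneg x) hxR 2
            nlinarith
          rw [hG]
          simp only
          rw [this, one_pow]
        rw [hG1, mul_one]
        set z := R ^ θ * v x with hz
        have hz0 : 0 ≤ z := by positivity
        have hzp : z ≤ z ^ p + 1 := by
          rcases le_total z 1 with h | h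
          · have : 0 ≤ z ^ p := by positivity
            linarith
          · have : z ^ (1 : ℝ) ≤ z ^ p := Real.rpow_le_rpow_of_exponent_le h hp.le
            rw [Real.rpow_one] at this
            linarith
        have h4 := mul_le_mul_of_nonneg_left hzp (Real.rpow_nonneg hR.le (-θ))
        rw [hz, Real.mul_rpow (by positivity) hv0, ← Real.rpow_mul hR.le] at h4
        have e1 : R ^ (-θ) * (R ^ θ * v x) = v x := by
          rw [← mul_assoc, hRs, neg_add_cancel, Real.rpow_zero, one_mul]
        have e2 : R ^ (-θ) * (R ^ (θ * p) * v x ^ p + 1) =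
            R ^ (2 * (m : ℝ)) * (R ^ σ * v x ^ p) + R ^ (-θ) := by
          have : R ^ (-θ) * R ^ (θ * p) = R ^ (2 * (m : ℝ)) * R ^ σ := by
            rw [hRs, hRs]; congr 1; linarith
          calc _ = (R ^ (-θ) * R ^ (θ * p)) * v x ^ p + R ^ (-θ) := by ring
            _ = _ := by rw [this]; ring
        rw [e1, e2] at h4
        have h5 : R ^ σ ≤ ‖x‖ ^ σ :=
          Real.rpow_le_rpow_of_nonpos (norm_pos_iff.mpr hx) (by linarith) hσ.le
        have h6 : R ^ σ * v x ^ p ≤ ‖x‖ ^ σ * v x ^ p :=
          mul_le_mul_of_nonneg_right h5 (Real.rpow_nonneg hv0 p)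
        have h7 := mul_le_mul_of_nonneg_left h6 (Real.rpow_nonneg hR.le (2 * (m : ℝ)))
        linarith
      · rw [Set.indicator_of_notMem (by rw [mem_closedBall_zero_iff]; exact hxR)]
        have h2 : 0 ≤ (Metric.closedBall (0 : E n) R).indicator (fun _ => R ^ (-θ)) x :=
          Set.indicator_nonneg (fun _ _ => by positivity) x
        have h3 := mul_nonneg (Real.rpow_nonneg hR.le (2 * (m : ℝ))) (hfn x)
        linarith
    have hvi : Integrable ((Metric.closedBall (0 : E n) (R / 2)).indicator v) := by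
      rw [integrable_indicator_iff measurableSet_closedBall]
      exact hv.li.integrableOn_isCompact (isCompact_closedBall _ _)
    calc ∫ x in Metric.closedBall (0 : E n) (R / 2), v x
        = ∫ x, (Metric.closedBall (0 : E n) (R / 2)).indicator v x := by
          rw [integral_indicator measurableSet_closedBall]
      _ ≤ ∫ x, (R ^ (2 * (m : ℝ)) * (‖x‖ ^ σ * v x ^ p * G (c * qq x)) +
          (Metric.closedBall (0 : E n) R).indicator (fun _ => R ^ (-θ)) x) := by
          apply integral_mono_ae hvi ((hXi.const_mul _).add hind)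
          filter_upwards [Measure.ae_ne volume (0 : E n)] with x hx
          exact h1 x hx
      _ = R ^ (2 * (m : ℝ)) * (∫ x, ‖x‖ ^ σ * v x ^ p * G (c * qq x)) + R ^ (-θ) * (R ^ n * vb) := by
          rw [integral_add (hXi.const_mul _) hind, integral_const_mul,
            integral_indicator measurableSet_closedBall, setIntegral_const, smul_eq_mul,
            Measure.addHaar_real_closedBall' volume (0 : E n) hR.le, finrank_euclideanSpace_fin]
          ring
      _ ≤ R ^ (2 * (m : ℝ)) * (2 * C' * vb * R ^ (-2 * m - θ) * R ^ n) + R ^ (-θ) * (R ^ n * vb) := by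
          gcongr
      _ = (2 * C' * vb + vb) * R ^ ((n : ℝ) - θ) := by
          have e1 : R ^ ((n : ℝ) - θ) = R ^ (2 * (m : ℝ)) * R ^ (-2 * m - θ) * R ^ n := by
            rw [← Real.rpow_natCast R n, hRs, hRs]; congr 1; ring
          have e2 : R ^ ((n : ℝ) - θ) = R ^ (-θ) * R ^ n := by
            rw [← Real.rpow_natCast R n, hRs]; congr 1; ring
          calc _ = 2 * C' * vb * (R ^ (2 * (m : ℝ)) * R ^ (-2 * m - θ) * R ^ n) +
              vb * (R ^ (-θ) * R ^ n) := by ring
            _ = 2 * C' * vb * R ^ ((n : ℝ) - θ) + vb * R ^ ((n : ℝ) - θ) := by rw [← e1, ← e2]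
            _ = _ := by ring
  refine ⟨(2 * C' * vb + vb) * 2 ^ ((n : ℝ) - θ), by positivity, ?_⟩
  intro v hv R hR
  have h1 := key2 v hv (2 * R) (by linarith)
  have e1 : 2 * R / 2 = R := by ring
  rw [e1, Real.mul_rpow (by norm_num) hR.le] at h1
  linarith

end Pool.Agent.R207.HH
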