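import Pool.Agent.R207.HH2

set_option autoImplicit false

/-! # Nonexistence of distributional solutions -/

namespace Pool.Agent.R207.HH

open MeasureTheory Real Set Filter Topology InnerProductSpace Laplacian
open scoped ContDiff
open Pool.Agent.R207.QC (E Pd qq co lap_eq lap_eq' Pd_smooth NL)

variable {n : ℕ}

theorem anti_of_deriv' {h h' : ℝ → ℝ} (hd : ∀ r, 0 < r → HasDerivAt h (h' r) r)
    (hs : ∀ r, 0 < r → h' r ≤ 0) {r s : ℝ} (hr : 0 < r) (hrs : r ≤ s) : h s ≤ h r := by
  have h1 : AntitoneOn h (Ioi 0) := by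
    apply antitoneOn_of_deriv_nonpos (convex_Ioi 0)
    · intro x hx
      exact (hd x hx).continuousAt.continuousWithinAt
    · intro x hx
      rw [interior_Ioi] at hx
      exact (hd x hx).differentiableAt.differentiableWithinAt
    · intro x hx
      rw [interior_Ioi] at hx
      rw [(hd x hx).deriv]
      exact hs x hx
  exact h1 hr (lt_of_lt_of_le hr hrs) hrs

/-- the chain argument -/
theorem chain {m : ℕ} {γ : ℝ} {b : ℕ → ℝ → ℝ}
    (hd : ∀ j, j < m → ∀ R, 0 < R → HasDerivAt (b j) (R * b (j + 1) R) R)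
    (hb : ∀ j, ∃ C : ℝ, ∀ R, 0 < R → |b j R| ≤ C * R ^ (γ - 2 * j))
    (htop : ∀ R, 0 < R → 0 ≤ (-1) ^ m * b m R) {k : ℕ} (hk1 : 1 ≤ k) (hkm : k ≤ m)
    (hodd : Odd k) (hγ1 : 2 * ((k : ℝ) - 1) < γ) (hγ2 : k = m ∨ γ < 2 * k) :
    ∀ R, 0 < R → b 0 R ≤ 0 := by
  -- first phase
  have h1 : ∀ i, i ≤ m - k → ∀ R, 0 < R → 0 ≤ (-1) ^ (m - i) * b (m - i) R := by
    intro i
    induction i with
    | zero => intro _; simpa using htop
    | succ i ih =>
      intro hi R hR
      have ih' := ih (by omega)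
      obtain ⟨j, hj⟩ : ∃ j, m - i = j + 1 := ⟨m - i - 1, by omega⟩
      have hj' : m - (i + 1) = j := by omega
      rw [hj] at ih'
      rw [hj']
      have hkj : k ≤ j := by omega
      have hγ : γ < 2 * k := by
        rcases hγ2 with h | h
        · omega
        · exact h
      have hγj : γ - 2 * j < 0 := by
        have : (k : ℝ) ≤ j := by exact_mod_cast hkj
        linarith
      obtain ⟨C, hC⟩ := hb j
      have hanti : ∀ S, R ≤ S → (-1) ^ j * b j S ≤ (-1) ^ j * b j R := by
        intro S hS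
        refine anti_of_deriv' (h := fun R => (-1) ^ j * b j R)
          (h' := fun R => (-1) ^ j * (R * b (j + 1) R)) (fun r hr => ?_) (fun r hr => ?_) hR hS
        · exact (hd j (by omega) r hr).const_mul _
        · have h2 := ih' r hr
          have h3 : (-1 : ℝ) ^ (j + 1) = -(-1) ^ j := by rw [pow_succ]; ring
          rw [h3] at h2
          nlinarith
      have hlim : Tendsto (fun S : ℝ => (-1) ^ j * b j S) atTop (𝓝 0) := by
        have h4 : Tendsto (fun S : ℝ => C * S ^ (γ - 2 * j)) atTop (𝓝 (C * 0)) := by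
          apply Tendsto.const_mul
          have := tendsto_rpow_neg_atTop (y := -(γ - 2 * j)) (by linarith)
          simpa using this
        rw [mul_zero] at h4
        apply squeeze_zero_norm' _ h4
        filter_upwards [eventually_gt_atTop 0] with S hS
        rw [norm_mul, norm_pow, norm_neg, norm_one, one_pow, one_mul]
        exact hC S hS
      apply le_of_tendsto hlim
      filter_upwards [eventually_ge_atTop R] with S hS
      exact hanti S hS
  have hk : ∀ R, 0 < R → b k R ≤ 0 := by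
    intro R hR
    have h2 := h1 (m - k) le_rfl R hR
    have e : m - (m - k) = k := by omega
    rw [e, hodd.neg_one_pow] at h2
    linarith
  -- second phase
  have h2 : ∀ i, i ≤ k → ∀ R, 0 < R → b (k - i) R ≤ 0 := by
    intro i
    induction i with
    | zero => intro _; simpa using hk
    | succ i ih =>
      intro hi R hR
      have ih' := ih (by omega)
      obtain ⟨j, hj⟩ : ∃ j, k - i = j + 1 := ⟨k - i - 1, by omega⟩
      have hj' : k - (i + 1) = j := by omega
      rw [hj] at ih'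
      rw [hj']
      have hγj : 0 < γ - 2 * j := by
        have h3 : j + 1 ≤ k := by omega
        have : (j : ℝ) + 1 ≤ k := by exact_mod_cast h3
        linarith
      obtain ⟨C, hC⟩ := hb j
      have hanti : ∀ S, 0 < S → S ≤ R → b j R ≤ b j S := by
        intro S hS0 hS
        refine anti_of_deriv' (h := fun R => b j R)
          (h' := fun R => (R * b (j + 1) R)) (fun r hr => ?_) (fun r hr => ?_) hS0 hS
        · exact hd j (by omega) r hr
        · have h3 := ih' r hr
          nlinarith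
      have hlim : Tendsto (fun S : ℝ => b j S) (𝓝[>] 0) (𝓝 0) := by
        have h4 : Tendsto (fun S : ℝ => C * S ^ (γ - 2 * j)) (𝓝[>] 0) (𝓝 (C * 0)) := by
          apply Tendsto.const_mul
          have h5 : Tendsto (fun S : ℝ => S ^ (γ - 2 * j)) (𝓝 0) (𝓝 (0 ^ (γ - 2 * j))) :=
            (Real.continuousAt_rpow_const 0 _ (Or.inr hγj.le)).tendsto
          rw [Real.zero_rpow hγj.ne'] at h5
          exact h5.mono_left nhdsWithin_le_nhds
        rw [mul_zero] at h4
        apply squeeze_zero_norm' _ h4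
        filter_upwards [self_mem_nhdsWithin] with S hS
        exact hC S hS
      apply ge_of_tendsto hlim
      filter_upwards [Ioc_mem_nhdsGT hR] with S hS
      exact hanti S hS.1 hS.2
  intro R hR
  have := h2 k le_rfl R hR
  rwa [Nat.sub_self] at this

/-- means -/
noncomputable def bj (n : ℕ) (v : E n → ℝ) (j : ℕ) (R : ℝ) : ℝ :=
  (R ^ (n + 2 * j))⁻¹ * ∫ x, v x * Hj n j ((R ^ 2)⁻¹ * qq x)

theorem kernel_deriv (j : ℕ) (q : ℝ) {R : ℝ} (hR : 0 < R) :
    HasDerivAt (fun R : ℝ => (R ^ (n + 2 * j))⁻¹ * Hj n j ((R ^ 2)⁻¹ * q))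
      (R * ((R ^ (n + 2 * (j + 1)))⁻¹ * Hj n (j + 1) ((R ^ 2)⁻¹ * q))) R := by
  have h1 := (hasDerivAt_pow (n + 2 * j) R).inv (pow_ne_zero _ hR.ne')
  have h2 : HasDerivAt (fun R : ℝ => (R ^ 2)⁻¹ * q) _ R :=
    (((hasDerivAt_pow 2 R).inv (pow_ne_zero _ hR.ne')).mul_const q)
  have h3 := (has_deriv (Hj_smooth (n := n) j) ((R ^ 2)⁻¹ * q)).comp R h2
  have h4 := h1.mul h3
  refine h4.congr_deriv ?_
  have e1 : Hj n (j + 1) ((R ^ 2)⁻¹ * q) = -2 * ((R ^ 2)⁻¹ * q) * deriv (Hj n j) ((R ^ 2)⁻¹ * q)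
      - (n + 2 * j) * Hj n j ((R ^ 2)⁻¹ * q) := rfl
  rw [e1]
  set h := Hj n j ((R ^ 2)⁻¹ * q) with hh
  set h' := deriv (Hj n j) ((R ^ 2)⁻¹ * q) with hh'
  have e2 : R ^ (n + 2 * (j + 1)) = R ^ (n + 2 * j) * R ^ 2 := by ring
  rw [e2]
  simp only [Function.comp, Pi.inv_apply, ← hh]
  rcases Nat.eq_zero_or_pos (n + 2 * j) with h0 | h0
  · have hn0 : n = 0 := by omega
    have hj0 : j = 0 := by omega
    subst hn0
    subst hj0
    push_cast
    field_simp
    ring
  · obtain ⟨N, hN⟩ : ∃ N, n + 2 * j = N + 1 := ⟨n + 2 * j - 1, by omega⟩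
    have hNR : (n : ℝ) + 2 * j = N + 1 := by exact_mod_cast hN
    rw [hNR, hN]
    simp only [Nat.add_sub_cancel]
    push_cast
    field_simp
    ring

theorem kernel_int {v : E n → ℝ} (hv : LocallyIntegrable v) (j : ℕ) {R : ℝ} (hR : 0 < R) :
    Integrable (fun x : E n => v x * Hj n j ((R ^ 2)⁻¹ * qq x)) := by
  have hg := (comp_smooth (n := n) (Hj_smooth (n := n) j) (R ^ 2)⁻¹).continuous
  have hgc := compact_of (n := n) (G := Hj n j) (fun s hs => Hj_zero j hs) hR
  have := hv.integrable_smul_right_of_hasCompactSupport hg hgc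
  simpa [smul_eq_mul] using this

theorem bj_deriv {v : E n → ℝ} (hv : LocallyIntegrable v) (j : ℕ) {R : ℝ} (hR : 0 < R) :
    HasDerivAt (bj n v j) (R * bj n v (j + 1) R) R := by
  obtain ⟨C, hC0, hC⟩ := Hj_bound (n := n) (j + 1)
  let F : ℝ → E n → ℝ := fun R x => v x * ((R ^ (n + 2 * j))⁻¹ * Hj n j ((R ^ 2)⁻¹ * qq x))
  let F' : ℝ → E n → ℝ := fun R x =>
    v x * (R * ((R ^ (n + 2 * (j + 1)))⁻¹ * Hj n (j + 1) ((R ^ 2)⁻¹ * qq x)))
  have hFint : ∀ S, 0 < S → Integrable (F S) := by
    intro S hS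
    have := (kernel_int hv j hS).const_mul ((S ^ (n + 2 * j))⁻¹)
    refine this.congr (Eventually.of_forall fun x => ?_)
    simp only [F]
    ring
  have hF'int : ∀ S, 0 < S → Integrable (F' S) := by
    intro S hS
    have := (kernel_int hv (j + 1) hS).const_mul (S * (S ^ (n + 2 * (j + 1)))⁻¹)
    refine this.congr (Eventually.of_forall fun x => ?_)
    simp only [F']
    ring
  set B : ℝ := 2 * R * (((R / 2) ^ (n + 2 * (j + 1)))⁻¹ * C) with hB
  have hmain := hasDerivAt_integral_of_dominated_loc_of_deriv_le (μ := (volume : Measure (E n)))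
    (F := F) (F' := F') (x₀ := R) (s := Ioo (R / 2) (2 * R))
    (bound := (Metric.closedBall (0 : E n) (2 * R)).indicator (fun x => B * |v x|))
    (Ioo_mem_nhds (by linarith) (by linarith))
    (by
      filter_upwards [lt_mem_nhds hR] with S hS
      exact (hFint S hS).aestronglyMeasurable)
    (hFint R hR) (hF'int R hR).aestronglyMeasurable
    (by
      refine Eventually.of_forall fun x S hS => ?_
      have hS0 : 0 < S := by linarith [hS.1]
      by_cases hx : ‖x‖ ≤ 2 * R
      · rw [Set.indicator_of_mem (by rwa [mem_closedBall_zero_iff])]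
        have h1 := hC ((S ^ 2)⁻¹ * qq x) (mul_nonneg (by positivity) (qq_nonneg x))
        simp only [F']
        rw [Real.norm_eq_abs, abs_mul, abs_mul, abs_mul, abs_of_pos hS0,
          abs_of_pos (by positivity : 0 < (S ^ (n + 2 * (j + 1)))⁻¹), hB, mul_comm (|v x|)]
        apply mul_le_mul_of_nonneg_right _ (abs_nonneg _)
        have h2 : (S ^ (n + 2 * (j + 1)))⁻¹ ≤ ((R / 2) ^ (n + 2 * (j + 1)))⁻¹ := by
          apply inv_anti₀ (by positivity)
          exact pow_le_pow_left₀ (by positivity) hS.1.le _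
        have h3 : S ≤ 2 * R := hS.2.le
        gcongr
      · rw [Set.indicator_of_notMem (by rw [mem_closedBall_zero_iff]; exact hx)]
        have h1 : 1 < (S ^ 2)⁻¹ * qq x := outside hS0 (by
          push Not at hx
          linarith [hS.2])
        simp only [F']
        rw [Hj_zero _ h1]
        simp)
    (by
      rw [integrable_indicator_iff measurableSet_closedBall]
      exact ((hv.integrableOn_isCompact (isCompact_closedBall _ _)).abs).const_mul _)
    (by
      refine Eventually.of_forall fun x S hS => ?_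
      have hS0 : 0 < S := by linarith [hS.1]
      exact (kernel_deriv j (qq x) hS0).const_mul (v x))
  have e1 : bj n v j = fun R => ∫ x, F R x := by
    ext S
    unfold bj
    rw [← integral_const_mul]
    apply integral_congr_ae
    refine Eventually.of_forall fun x => ?_
    simp only [F]
    ring
  have e2 : R * bj n v (j + 1) R = ∫ x, F' R x := by
    unfold bj
    rw [← integral_const_mul, ← integral_const_mul]
    apply integral_congr_ae
    refine Eventually.of_forall fun x => ?_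
    simp only [F']
    ring
  rw [e1, e2]
  exact hmain.2

theorem Sol.bj_bound {m : ℕ} {p σ θ : ℝ} {v : E n → ℝ} (hv : Sol m p σ v) {M : ℝ}
    (hM : ∀ R : ℝ, 0 < R → ∫ x in Metric.closedBall (0 : E n) R, v x ≤ M * R ^ ((n : ℝ) - θ))
    (j : ℕ) : ∃ C : ℝ, ∀ R, 0 < R → |bj n v j R| ≤ C * R ^ (-θ - 2 * j) := by
  obtain ⟨C, hC0, hC⟩ := Hj_bound (n := n) j
  refine ⟨C * M, ?_⟩
  intro R hR
  have h1 : |∫ x, v x * Hj n j ((R ^ 2)⁻¹ * qq x)| ≤
      C * ∫ x in Metric.closedBall (0 : E n) R, v x := by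
    rw [← Real.norm_eq_abs]
    calc ‖∫ x, v x * Hj n j ((R ^ 2)⁻¹ * qq x)‖
        ≤ ∫ x, (Metric.closedBall (0 : E n) R).indicator (fun x => C * v x) x := by
          apply norm_integral_le_of_norm_le
          · rw [integrable_indicator_iff measurableSet_closedBall]
            exact (hv.li.integrableOn_isCompact (isCompact_closedBall _ _)).const_mul _
          · refine Eventually.of_forall fun x => ?_
            by_cases hx : ‖x‖ ≤ R
            · rw [Set.indicator_of_mem (by rwa [mem_closedBall_zero_iff]), norm_mul,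
                Real.norm_of_nonneg (hv.nonneg x), mul_comm]
              exact mul_le_mul_of_nonneg_right
                (hC _ (mul_nonneg (by positivity) (qq_nonneg x))) (hv.nonneg x)
            · rw [Set.indicator_of_notMem (by rw [mem_closedBall_zero_iff]; exact hx),
                Hj_zero j (outside hR (not_le.mp hx))]
              simp
      _ = C * ∫ x in Metric.closedBall (0 : E n) R, v x := by
          rw [integral_indicator measurableSet_closedBall, integral_const_mul]
  unfold bj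
  rw [abs_mul, abs_of_pos (by positivity : 0 < (R ^ (n + 2 * j))⁻¹)]
  calc (R ^ (n + 2 * j))⁻¹ * |∫ x, v x * Hj n j ((R ^ 2)⁻¹ * qq x)|
      ≤ (R ^ (n + 2 * j))⁻¹ * (C * (M * R ^ ((n : ℝ) - θ))) := by
        apply mul_le_mul_of_nonneg_left _ (by positivity)
        exact h1.trans (mul_le_mul_of_nonneg_left (hM R hR) hC0)
    _ = C * M * R ^ (-θ - 2 * j) := by
        have e : (R ^ (n + 2 * j))⁻¹ = R ^ (-((n : ℝ) + 2 * j)) := by
          rw [Real.rpow_neg hR.le, ← Real.rpow_natCast]
          push_cast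
          rfl
        have e2 : R ^ (-θ - 2 * j) = R ^ (-((n : ℝ) + 2 * j)) * R ^ ((n : ℝ) - θ) := by
          rw [← Real.rpow_add hR]
          congr 1
          ring
        rw [e, e2]
        ring

theorem Sol.top {m : ℕ} {p σ : ℝ} {v : E n → ℝ} (hv : Sol m p σ v) (R : ℝ) (hR : 0 < R) :
    0 ≤ (-1) ^ m * bj n v m R := by
  set c : ℝ := (R ^ 2)⁻¹ with hc
  have hc0 : 0 < c := by positivity
  obtain ⟨h1, h2, h3⟩ := hj_props m
  have hφc : HasCompactSupport (fun x : E n => hj m (c * qq x)) :=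
    compact_of (fun s hs => h3 s hs.le) hR
  have h4 := hv.eqn _ (comp_smooth h1 c) hφc
  have h5 : 0 ≤ ∫ x, ‖x‖ ^ σ * v x ^ p * hj m (c * qq x) := by
    apply integral_nonneg
    intro x
    exact mul_nonneg (mul_nonneg (Real.rpow_nonneg (norm_nonneg x) σ)
      (Real.rpow_nonneg (hv.nonneg x) p)) (h2 _)
  rw [← h4, NL_iter_comp h1, L_iter_hj] at h5
  have h6 : ∫ x, v x * ((-c) ^ m * Hj n m (c * qq x)) =
      c ^ m * ((-1) ^ m * ∫ x, v x * Hj n m (c * qq x)) := by
    rw [← integral_const_mul, ← integral_const_mul]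
    apply integral_congr_ae
    refine Eventually.of_forall fun x => ?_
    simp only
    have : (-c) ^ m = c ^ m * (-1) ^ m := by rw [← mul_pow]; congr 1; ring
    rw [this]
    ring
  rw [h6] at h5
  have h7 : 0 ≤ (-1) ^ m * ∫ x, v x * Hj n m (c * qq x) :=
    nonneg_of_mul_nonneg_right h5 (by positivity)
  unfold bj
  have h8 : 0 < (R ^ (n + 2 * m))⁻¹ := by positivity
  calc (0 : ℝ) ≤ (R ^ (n + 2 * m))⁻¹ * ((-1) ^ m * ∫ x, v x * Hj n m (c * qq x)) := by positivity
    _ = _ := by ring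

/-- Nonnegative distributional solutions vanish. -/
theorem Sol.eq_zero {m : ℕ} {p σ θ : ℝ} {v : E n → ℝ} (hn : 1 ≤ n) (hp : 1 < p) (hσ : σ < 0)
    (hθ : θ * (p - 1) = 2 * m + σ) (hv : Sol m p σ v) {k : ℕ} (hk1 : 1 ≤ k) (hkm : k ≤ m)
    (hodd : Odd k) (hγ1 : 2 * ((k : ℝ) - 1) < -θ) (hγ2 : k = m ∨ -θ < 2 * k) : v =ᵐ[volume] 0 := by
  obtain ⟨M, hM0, hM⟩ := apriori (n := n) (m := m) hn hp hσ hθ
  have h0 := chain (b := bj n v) (γ := -θ) (m := m) (fun j _ R hR => bj_deriv hv.li j hR)
    (fun j => hv.bj_bound (hM v hv) j) hv.top hk1 hkm hodd hγ1 hγ2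
  have h1 : ∀ N : ℕ, ∀ᵐ x : E n, v x * chi ((((N : ℝ) + 1) ^ 2)⁻¹ * qq x) = 0 := by
    intro N
    have hN : (0 : ℝ) < N + 1 := by positivity
    have h2 := h0 (N + 1) hN
    unfold bj at h2
    have hi := kernel_int hv.li 0 hN
    have hnn : 0 ≤ fun x : E n => v x * Hj n 0 ((((N : ℝ) + 1) ^ 2)⁻¹ * qq x) := by
      intro x
      exact mul_nonneg (hv.nonneg x) (chi_nonneg _)
    have h3 : ∫ x, v x * Hj n 0 ((((N : ℝ) + 1) ^ 2)⁻¹ * qq x) ≤ 0 := by
      by_contra hlt
      push Not at hlt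
      have : 0 < (((N : ℝ) + 1) ^ (n + 2 * 0))⁻¹ := by positivity
      have := mul_pos this hlt
      linarith
    have h4 : ∫ x, v x * Hj n 0 ((((N : ℝ) + 1) ^ 2)⁻¹ * qq x) = 0 :=
      le_antisymm h3 (integral_nonneg hnn)
    have h5 := (integral_eq_zero_iff_of_nonneg hnn hi).mp h4
    filter_upwards [h5] with x hx
    exact hx
  filter_upwards [ae_all_iff.mpr h1] with x hx
  obtain ⟨N, hN⟩ := exists_nat_ge (2 * ‖x‖)
  have h2 := hx N
  have h3 : chi ((((N : ℝ) + 1) ^ 2)⁻¹ * qq x) = 1 := by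
    apply chi_one
    rw [← div_eq_inv_mul, div_le_iff₀ (by positivity)]
    unfold Pool.Agent.R207.QC.qq
    have h4 : 2 * ‖x‖ ≤ N + 1 := by linarith
    have h5 := pow_le_pow_left₀ (by positivity) h4 2
    nlinarith [norm_nonneg x]
  rw [h3, mul_one] at h2
  exact h2

end Pool.Agent.R207.HH
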