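import Mathlib

set_option autoImplicit false

/-! # Odd periodic waves of `φ'' = -φ³/(1-φ²)`: construction -/

namespace Pool.Agent.R207.OddWave

open Real Set Filter Topology

/-- the slope of `log` from `ε` -/
noncomputable def S (ε D : ℝ) : ℝ := dslope (fun D => Real.log (ε + D)) 0 D

theorem S_mul (ε D : ℝ) : D * S ε D = Real.log (ε + D) - Real.log ε := by
  have := sub_smul_dslope (fun D => Real.log (ε + D)) 0 D
  simpa [S] using this

theorem S_diff {ε : ℝ} (hε : 0 < ε) {D : ℝ} (hD : 0 ≤ D) : DifferentiableAt ℝ (S ε) D := by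
  have hlog : ∀ D : ℝ, 0 ≤ D → DifferentiableAt ℝ (fun D => Real.log (ε + D)) D := by
    intro D hD
    have : ε + D ≠ 0 := by linarith
    fun_prop (disch := exact this)
  rcases hD.eq_or_lt with h | h
  · subst h
    have ha : AnalyticAt ℝ (fun D : ℝ => Real.log (ε + D)) 0 := by
      apply (analyticAt_log (x := ε + 0) (by linarith)).fun_comp
      fun_prop
    obtain ⟨p, hp⟩ := ha
    exact hp.has_fpower_series_dslope_fslope.analyticAt.differentiableAt
  · exact (differentiableAt_dslope_of_ne h.ne').mpr (hlog D hD)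

theorem S_deriv {ε : ℝ} (hε : 0 < ε) {D : ℝ} (hD : 0 ≤ D) :
    S ε D + D * deriv (S ε) D = 1 / (ε + D) := by
  have h1 : HasDerivAt (fun D => D * S ε D) (1 * S ε D + D * deriv (S ε) D) D :=
    (hasDerivAt_id D).mul (S_diff hε hD).hasDerivAt
  have h2 : HasDerivAt (fun D => D * S ε D) (1 / (ε + D)) D := by
    have e : (fun D => D * S ε D) = fun D => Real.log (ε + D) - Real.log ε := by
      funext D; exact S_mul ε D
    rw [e]
    have := ((hasDerivAt_id D).const_add ε).log (by simp; linarith)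
    simpa using this.sub_const (Real.log ε)
  have := h1.unique h2
  linarith

theorem S_zero {ε : ℝ} (hε : 0 < ε) : S ε 0 = 1 / ε := by
  have := S_deriv hε (le_refl (0 : ℝ))
  simpa using this

theorem S_le {ε : ℝ} (hε : 0 < ε) {D : ℝ} (hD : 0 ≤ D) : S ε D ≤ 1 / ε := by
  rcases hD.eq_or_lt with h | h
  · subst h; rw [S_zero hε]
  · have h1 := S_mul ε D
    have h2 : Real.log (ε + D) - Real.log ε = Real.log (1 + D / ε) := by
      rw [← Real.log_div (by linarith) hε.ne']
      congr 1; field_simp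
    have h3 : Real.log (1 + D / ε) ≤ D / ε := by
      have := Real.log_le_sub_one_of_pos (show 0 < 1 + D / ε by positivity)
      linarith
    rw [h2] at h1
    have h4 : D * S ε D ≤ D * (1 / ε) := by
      rw [h1]
      calc _ ≤ D / ε := h3
        _ = _ := by ring
    exact le_of_mul_le_mul_left h4 h

theorem S_ge {ε : ℝ} (hε : 0 < ε) (hε1 : ε < 1) {D : ℝ} (hD : 0 ≤ D) (hD1 : D ≤ 1 - ε) :
    -Real.log ε ≤ S ε D := by
  have hlog : Real.log ε < 0 := Real.log_neg hε hε1
  rcases hD.eq_or_lt with h | h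
  · subst h; rw [S_zero hε]
    have := Real.log_le_sub_one_of_pos (show 0 < 1 / ε by positivity)
    rw [one_div, Real.log_inv] at this
    rw [one_div]
    linarith
  · have hM : 0 < 1 - ε := by linarith
    have hc := strictConcaveOn_log_Ioi.concaveOn.2 (show ε ∈ Ioi (0 : ℝ) from hε)
      (Set.mem_Ioi.mpr one_pos : (1 : ℝ) ∈ Ioi (0 : ℝ))
      (show 0 ≤ 1 - D / (1 - ε) by rw [sub_nonneg, div_le_one hM]; exact hD1)
      (show 0 ≤ D / (1 - ε) by positivity) (by ring)
    have e : (1 - D / (1 - ε)) • ε + (D / (1 - ε)) • (1 : ℝ) = ε + D := by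
      simp only [smul_eq_mul]
      field_simp
      ring
    rw [e] at hc
    simp only [smul_eq_mul, Real.log_one, mul_zero, add_zero] at hc
    have h1 := S_mul ε D
    have h5 : D * (-Real.log ε) ≤ D * S ε D := by
      rw [h1]
      have : D ≤ D / (1 - ε) := by
        rw [le_div_iff₀ hM]; nlinarith
      nlinarith
    exact le_of_mul_le_mul_left h5 h

/-- the speed of the angle -/
noncomputable def K (ε σ : ℝ) : ℝ := √(S ε ((1 - ε) * cos σ ^ 2) - 1)

structure Small (ε : ℝ) : Prop where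
  pos : 0 < ε
  lt : ε < 1
  log : 2 ≤ -Real.log ε

variable {ε : ℝ}

theorem D_nonneg (h : Small ε) (σ : ℝ) : 0 ≤ (1 - ε) * cos σ ^ 2 :=
  mul_nonneg (by linarith [h.lt]) (sq_nonneg _)

theorem D_le (h : Small ε) (σ : ℝ) : (1 - ε) * cos σ ^ 2 ≤ 1 - ε := by
  have := h.lt
  have := Real.cos_sq_le_one σ
  nlinarith

theorem arg_ge (h : Small ε) (σ : ℝ) : -Real.log ε - 1 ≤ S ε ((1 - ε) * cos σ ^ 2) - 1 := by
  have := S_ge h.pos h.lt (D_nonneg h σ) (D_le h σ)
  linarith

theorem K_sq (h : Small ε) (σ : ℝ) : K ε σ ^ 2 = S ε ((1 - ε) * cos σ ^ 2) - 1 :=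
  Real.sq_sqrt (by linarith [arg_ge h σ, h.log])

theorem K_pos (h : Small ε) (σ : ℝ) : 0 < K ε σ :=
  Real.sqrt_pos.mpr (by linarith [arg_ge h σ, h.log])

theorem K_ge (h : Small ε) (σ : ℝ) : √(-Real.log ε - 1) ≤ K ε σ :=
  Real.sqrt_le_sqrt (arg_ge h σ)

theorem K_le (h : Small ε) (σ : ℝ) : K ε σ ≤ √(1 / ε) :=
  Real.sqrt_le_sqrt (by linarith [S_le h.pos (D_nonneg h σ)])

theorem K_hasDeriv (h : Small ε) (σ : ℝ) :
    HasDerivAt (K ε) (deriv (S ε) ((1 - ε) * cos σ ^ 2) * ((1 - ε) * (2 * cos σ * (-sin σ))) /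
      (2 * K ε σ)) σ := by
  have h1 : HasDerivAt (fun σ : ℝ => (1 - ε) * cos σ ^ 2) ((1 - ε) * (2 * cos σ * (-sin σ))) σ := by
    have := ((Real.hasDerivAt_cos σ).pow 2).const_mul (1 - ε)
    simpa using this
  have h2 := (S_diff h.pos (D_nonneg h σ)).hasDerivAt
  have h3 : HasDerivAt (fun σ => S ε ((1 - ε) * cos σ ^ 2) - 1)
      (deriv (S ε) ((1 - ε) * cos σ ^ 2) * ((1 - ε) * (2 * cos σ * (-sin σ)))) σ :=
    (h2.comp σ h1).sub_const 1
  have h4 := h3.sqrt (by linarith [arg_ge h σ, h.log])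
  exact h4

theorem K_cont (h : Small ε) : Continuous (K ε) :=
  continuous_iff_continuousAt.mpr fun σ => (K_hasDeriv h σ).continuousAt

theorem K_neg (σ : ℝ) : K ε (-σ) = K ε σ := by simp [K]

theorem K_add_pi (σ : ℝ) : K ε (σ + π) = K ε σ := by simp [K, Real.cos_add_pi]

/-- the time as a function of the angle -/
noncomputable def X (ε t : ℝ) : ℝ := ∫ σ in (0 : ℝ)..t, (K ε σ)⁻¹

theorem Kinv_cont (h : Small ε) : Continuous fun σ => (K ε σ)⁻¹ :=
  (K_cont h).inv₀ fun σ => (K_pos h σ).ne'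

theorem X_hasDeriv (h : Small ε) (t : ℝ) : HasDerivAt (X ε) (K ε t)⁻¹ t :=
  intervalIntegral.integral_hasDerivAt_right ((Kinv_cont h).intervalIntegrable _ _)
    ((Kinv_cont h).stronglyMeasurableAtFilter _ _) (Kinv_cont h).continuousAt

theorem X_cont (h : Small ε) : Continuous (X ε) :=
  continuous_iff_continuousAt.mpr fun σ => (X_hasDeriv h σ).continuousAt

theorem X_mono (h : Small ε) : StrictMono (X ε) :=
  strictMono_of_deriv_pos fun t => by
    rw [(X_hasDeriv h t).deriv]; exact inv_pos.mpr (K_pos h t)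

theorem X_zero : X ε 0 = 0 := by simp [X]

theorem X_neg (t : ℝ) : X ε (-t) = -X ε t := by
  unfold X
  have := intervalIntegral.integral_comp_neg (f := fun σ => (K ε σ)⁻¹) (a := 0) (b := t)
  simp only [K_neg, neg_zero] at this
  rw [this, intervalIntegral.integral_symm]

theorem X_add_pi (h : Small ε) (t : ℝ) : X ε (t + π) = X ε t + X ε π := by
  unfold X
  have hi := fun a b => (Kinv_cont h).intervalIntegrable (μ := MeasureTheory.volume) a b
  have h1 : ∫ σ in (0 : ℝ)..t, (K ε σ)⁻¹ = ∫ σ in π..(t + π), (K ε σ)⁻¹ := by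
    have := intervalIntegral.integral_comp_add_right (f := fun σ => (K ε σ)⁻¹) (a := 0) (b := t) π
    simp only [K_add_pi, zero_add] at this
    exact this
  have h2 := intervalIntegral.integral_add_adjacent_intervals (hi 0 π) (hi π (t + π))
  rw [h1]
  linarith

theorem X_pi (h : Small ε) : X ε π = 2 * X ε (π / 2) := by
  have h1 := X_add_pi h (-(π / 2))
  rw [X_neg, show -(π / 2) + π = π / 2 by ring] at h1
  linarith

/-- the quarter period -/
noncomputable def qp (ε : ℝ) : ℝ := X ε (π / 2)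

theorem qp_pos (h : Small ε) : 0 < qp ε := by
  rw [qp, ← X_zero (ε := ε)]
  exact X_mono h (by positivity)

theorem X_surj (h : Small ε) : Function.Surjective (X ε) := by
  have hadd : ∀ n : ℕ, X ε (n * π) = n * X ε π := by
    intro n
    induction n with
    | zero => simp [X_zero]
    | succ n ih =>
      push_cast
      rw [add_mul, one_mul, X_add_pi h, ih]
      ring
  have hpos : 0 < X ε π := by
    rw [← X_zero (ε := ε)]
    exact X_mono h Real.pi_pos
  intro y
  obtain ⟨n, hn⟩ := exists_nat_gt (|y| / X ε π)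
  rw [div_lt_iff₀ hpos] at hn
  have h1 : X ε (-(n * π)) ≤ y := by
    rw [X_neg, hadd]; linarith [neg_abs_le y]
  have h2 : y ≤ X ε (n * π) := by
    rw [hadd]; linarith [le_abs_self y]
  have h3 : -(n * π) ≤ n * π := by
    have : 0 ≤ n * π := by positivity
    linarith
  obtain ⟨t, _, ht⟩ := intermediate_value_Icc h3 (X_cont h).continuousOn ⟨h1, h2⟩
  exact ⟨t, ht⟩

/-- the angle as a function of the time -/
noncomputable def th (ε x : ℝ) : ℝ := Function.invFun (X ε) x

theorem X_th (h : Small ε) (x : ℝ) : X ε (th ε x) = x := Function.rightInverse_invFun (X_surj h) x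

theorem th_eq (h : Small ε) {x t : ℝ} (hx : X ε t = x) : th ε x = t :=
  (X_mono h).injective (by rw [X_th h, hx])

theorem th_cont (h : Small ε) : Continuous (th ε) := by
  let e := (X_mono h).orderIsoOfSurjective _ (X_surj h)
  have : th ε = e.symm := by
    funext x
    apply th_eq h
    exact e.apply_symm_apply x
  rw [this]
  exact e.symm.continuous

theorem th_hasDeriv (h : Small ε) (x : ℝ) : HasDerivAt (th ε) (K ε (th ε x)) x := by
  have := HasDerivAt.of_local_left_inverse (th_cont h).continuousAt (X_hasDeriv h (th ε x))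
    (inv_ne_zero (K_pos h _).ne') (Eventually.of_forall fun y => X_th h y)
  rwa [inv_inv] at this

theorem th_mono (h : Small ε) : StrictMono (th ε) :=
  strictMono_of_deriv_pos fun t => by
    rw [(th_hasDeriv h t).deriv]; exact K_pos h _

theorem th_zero (h : Small ε) : th ε 0 = 0 := th_eq h X_zero

theorem th_neg (h : Small ε) (x : ℝ) : th ε (-x) = -th ε x :=
  th_eq h (by rw [X_neg, X_th h])

theorem th_qp (h : Small ε) : th ε (qp ε) = π / 2 := th_eq h rfl

theorem th_add (h : Small ε) (x : ℝ) : th ε (x + 2 * qp ε) = th ε x + π :=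
  th_eq h (by rw [X_add_pi h, X_th h, X_pi h]; rfl)

/-- the wave -/
noncomputable def phi (ε x : ℝ) : ℝ := √(1 - ε) * sin (th ε x)

/-- its derivative -/
noncomputable def dphi (ε x : ℝ) : ℝ := √(1 - ε) * cos (th ε x) * K ε (th ε x)

theorem M_sq (h : Small ε) : √(1 - ε) ^ 2 = 1 - ε := Real.sq_sqrt (by linarith [h.lt])

theorem phi_sq (h : Small ε) (x : ℝ) : phi ε x ^ 2 = (1 - ε) - (1 - ε) * cos (th ε x) ^ 2 := by
  unfold phi
  rw [mul_pow, M_sq h, Real.sin_sq]
  ring

theorem phi_hasDeriv (h : Small ε) (x : ℝ) : HasDerivAt (phi ε) (dphi ε x) x := by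
  have := ((th_hasDeriv h x).sin).const_mul √(1 - ε)
  unfold dphi
  rw [mul_assoc]
  exact this

theorem one_sub_pos (h : Small ε) (x : ℝ) : ε ≤ 1 - phi ε x ^ 2 := by
  rw [phi_sq h]
  have := D_nonneg h (th ε x)
  linarith

theorem phi_abs (h : Small ε) (x : ℝ) : |phi ε x| < 1 := by
  have := one_sub_pos h x
  have h0 := h.pos
  rw [← sq_lt_one_iff_abs_lt_one]
  linarith

theorem dphi_hasDeriv (h : Small ε) (x : ℝ) :
    HasDerivAt (dphi ε) (-phi ε x ^ 3 / (1 - phi ε x ^ 2)) x := by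
  have h1 := (th_hasDeriv h x)
  have h2 := ((h1.cos).const_mul √(1 - ε)).mul ((K_hasDeriv h (th ε x)).comp x h1)
  have h3 : HasDerivAt (dphi ε) _ x := h2
  convert h3 using 1
  have hS := S_deriv h.pos (D_nonneg h (th ε x))
  have hK := K_sq h (th ε x)
  have hKp := (K_pos h (th ε x)).ne'
  have hp := phi_sq h x
  have hD : ε + (1 - ε) * cos (th ε x) ^ 2 = 1 - phi ε x ^ 2 := by rw [hp]; ring
  have hne : 1 - phi ε x ^ 2 ≠ 0 := by
    have := one_sub_pos h x
    have := h.pos
    linarith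
  rw [hD] at hS
  set d := deriv (S ε) ((1 - ε) * cos (th ε x) ^ 2)
  set s := S ε ((1 - ε) * cos (th ε x) ^ 2)
  set k := K ε (th ε x)
  simp only [Function.comp]
  have e1 : √(1 - ε) * (-sin (th ε x) * k) * k +
      √(1 - ε) * cos (th ε x) * (d * ((1 - ε) * (2 * cos (th ε x) * -sin (th ε x))) / (2 * k) * k) =
      -phi ε x * (k ^ 2 + (1 - ε) * cos (th ε x) ^ 2 * d) := by
    unfold phi
    field_simp
    ring
  have e2 : k ^ 2 + (1 - ε) * cos (th ε x) ^ 2 * d = 1 / (1 - phi ε x ^ 2) - 1 := by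
    rw [hK]; linarith
  have e3 : -phi ε x ^ 3 / (1 - phi ε x ^ 2) = -phi ε x * (1 / (1 - phi ε x ^ 2) - 1) := by
    field_simp
    ring
  rw [e3, ← e2, ← e1]

/-- the first integral -/
theorem energy (h : Small ε) (x : ℝ) :
    dphi ε x ^ 2 = Real.log (1 - phi ε x ^ 2) - Real.log ε - (1 - ε - phi ε x ^ 2) := by
  unfold dphi
  rw [mul_pow, mul_pow, M_sq h, K_sq h, mul_sub, S_mul, mul_one, phi_sq h,
    show ε + (1 - ε) * cos (th ε x) ^ 2 = 1 - (1 - ε - (1 - ε) * cos (th ε x) ^ 2) by ring]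
  ring

theorem phi_neg (h : Small ε) (x : ℝ) : phi ε (-x) = -phi ε x := by
  unfold phi
  rw [th_neg h, Real.sin_neg]; ring

theorem dphi_neg (h : Small ε) (x : ℝ) : dphi ε (-x) = dphi ε x := by
  unfold dphi
  rw [th_neg h, Real.cos_neg, K_neg]

theorem phi_add (h : Small ε) (x : ℝ) : phi ε (x + 2 * qp ε) = -phi ε x := by
  unfold phi
  rw [th_add h, Real.sin_add_pi]; ring

theorem dphi_add (h : Small ε) (x : ℝ) : dphi ε (x + 2 * qp ε) = -dphi ε x := by
  unfold dphi
  rw [th_add h, Real.cos_add_pi, K_add_pi]; ring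

theorem phi_per (h : Small ε) : Function.Periodic (phi ε) (4 * qp ε) := fun x => by
  rw [show x + 4 * qp ε = (x + 2 * qp ε) + 2 * qp ε by ring, phi_add h, phi_add h, neg_neg]

theorem dphi_per (h : Small ε) : Function.Periodic (dphi ε) (4 * qp ε) := fun x => by
  rw [show x + 4 * qp ε = (x + 2 * qp ε) + 2 * qp ε by ring, dphi_add h, dphi_add h, neg_neg]

theorem phi_qp (h : Small ε) : phi ε (qp ε) = √(1 - ε) := by
  unfold phi
  rw [th_qp h, Real.sin_pi_div_two, mul_one]

theorem phi_pos (h : Small ε) {x : ℝ} (h0 : 0 < x) (h1 : x < 2 * qp ε) : 0 < phi ε x := by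
  unfold phi
  have hM : 0 < √(1 - ε) := Real.sqrt_pos.mpr (by linarith [h.lt])
  have a1 : 0 < th ε x := by
    rw [← th_zero h]; exact th_mono h h0
  have a2 : th ε x < π := by
    have := th_mono h h1
    rw [show 2 * qp ε = 0 + 2 * qp ε by ring, th_add h, th_zero h, zero_add] at this
    exact this
  exact mul_pos hM (Real.sin_pos_of_pos_of_lt_pi a1 a2)

theorem phi_cont (h : Small ε) : Continuous (phi ε) :=
  continuous_iff_continuousAt.mpr fun x => (phi_hasDeriv h x).continuousAt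

theorem dphi_cont (h : Small ε) : Continuous (dphi ε) :=
  continuous_iff_continuousAt.mpr fun x => (dphi_hasDeriv h x).continuousAt

/-- bounds for the quarter period -/
theorem qp_le (h : Small ε) : qp ε ≤ π / 2 / √(-Real.log ε - 1) := by
  have hs : 0 < √(-Real.log ε - 1) := Real.sqrt_pos.mpr (by linarith [h.log])
  have : qp ε ≤ ∫ _ in (0 : ℝ)..(π / 2), (√(-Real.log ε - 1))⁻¹ := by
    unfold qp X
    apply intervalIntegral.integral_mono_on (by positivity)
      ((Kinv_cont h).intervalIntegrable _ _) (by simp)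
    intro σ _
    exact inv_anti₀ hs (K_ge h σ)
  rw [intervalIntegral.integral_const, smul_eq_mul, sub_zero, ← div_eq_mul_inv] at this
  exact this

end Pool.Agent.R207.OddWave
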