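import Mathlib
import Pool.Agent.R207.OddWave1

set_option autoImplicit false

/-! # Odd periodic waves: the second variation and descent along the constraint -/

namespace Pool.Agent.R207.OddWave

open Real Set Filter Topology MeasureTheory

/-- A two parameter descent lemma. -/
theorem exists_lower {h q : ℝ → ℝ → ℝ} {a b c A C δ0 : ℝ} (ha : a < 0) (hA : 0 < A) (hδ0 : 0 < δ0)
    (hC : 0 ≤ C)
    (hh : ∀ s τ, |s| ≤ δ0 → |τ| ≤ δ0 →
      h s τ - h 0 0 ≤ a * s ^ 2 + b * (s * τ) + c * τ ^ 2 + C * (|s| + |τ|) ^ 3)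
    (hq : ∀ s τ, |s| ≤ δ0 → |τ| ≤ δ0 → |q s τ - q 0 0 - A * τ| ≤ C * (|s| + |τ|) ^ 2)
    (hc : ∀ s, |s| ≤ δ0 → ContinuousOn (q s) (Icc (-δ0) δ0)) {δ : ℝ} (hδ : 0 < δ) :
    ∃ s τ, |s| < δ ∧ |τ| < δ ∧ |s| ≤ δ0 ∧ |τ| ≤ δ0 ∧ q s τ = q 0 0 ∧ h s τ < h 0 0 := by
  set k : ℝ := 4 * C / A + 1 with hk
  have hk1 : 1 ≤ k := by
    have : 0 ≤ 4 * C / A := by positivity
    linarith
  have hk0 : 0 < k := by linarith
  set E : ℝ := |b| * k + |c| * k ^ 2 + 8 * C + 1 with hE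
  have hE0 : 0 < E := by positivity
  set s : ℝ := min (min 1 (min δ0 (1 / k))) (min (δ / 2) (-a / (2 * E))) with hs
  have hs0 : 0 < s := by
    apply lt_min
    · exact lt_min one_pos (lt_min hδ0 (by positivity))
    · exact lt_min (by positivity) (div_pos (by linarith) (by positivity))
  have s1 : s ≤ 1 := (min_le_left _ _).trans (min_le_left _ _)
  have s2 : s ≤ δ0 := (min_le_left _ _).trans ((min_le_right _ _).trans (min_le_left _ _))
  have s3 : s ≤ 1 / k := (min_le_left _ _).trans ((min_le_right _ _).trans (min_le_right _ _))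
  have s4 : s ≤ δ / 2 := (min_le_right _ _).trans (min_le_left _ _)
  have s5 : s ≤ -a / (2 * E) := (min_le_right _ _).trans (min_le_right _ _)
  have hks : k * s ≤ 1 := by
    rw [le_div_iff₀ hk0] at s3
    linarith
  have hks2 : k * s ^ 2 ≤ s := by nlinarith
  have habs : |s| = s := abs_of_pos hs0
  have hbound : ∀ τ, |τ| ≤ s → |q s τ - q 0 0 - A * τ| ≤ 4 * C * s ^ 2 := by
    intro τ hτ
    have h1 := hq s τ (by rw [habs]; exact s2) (hτ.trans s2)
    rw [habs] at h1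
    refine h1.trans ?_
    have : (s + |τ|) ^ 2 ≤ (2 * s) ^ 2 := by
      have := abs_nonneg τ
      gcongr
      linarith
    nlinarith
  have hkA : A * k = 4 * C + A := by
    rw [hk]; field_simp
  have hτ1 : |k * s ^ 2| ≤ s := by
    rw [abs_of_nonneg (by positivity)]; exact hks2
  have hp := hbound (k * s ^ 2) hτ1
  have hn := hbound (-(k * s ^ 2)) (by rw [abs_neg]; exact hτ1)
  rw [abs_le] at hp hn
  have hcs : ContinuousOn (q s) (Icc (-(k * s ^ 2)) (k * s ^ 2)) :=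
    (hc s (by rw [habs]; exact s2)).mono (Icc_subset_Icc (by linarith) (by linarith))
  have hpos : 0 < A * s ^ 2 := by positivity
  have hmem : q 0 0 ∈ Icc (q s (-(k * s ^ 2))) (q s (k * s ^ 2)) := by
    constructor
    · nlinarith [hn.2]
    · nlinarith [hp.1]
  obtain ⟨τ, hτ, hqτ⟩ := intermediate_value_Icc (by have := hs0.le; nlinarith) hcs hmem
  have hτa : |τ| ≤ k * s ^ 2 := abs_le.mpr hτ
  have hτs : |τ| ≤ s := hτa.trans hks2
  refine ⟨s, τ, by rw [habs]; linarith, by linarith, by rw [habs]; exact s2, hτs.trans s2, hqτ, ?_⟩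
  have h1 := hh s τ (by rw [habs]; exact s2) (hτs.trans s2)
  rw [habs] at h1
  have e1 : b * (s * τ) ≤ |b| * k * s ^ 3 := by
    calc b * (s * τ) ≤ |b * (s * τ)| := le_abs_self _
      _ = |b| * (s * |τ|) := by rw [abs_mul, abs_mul, habs]
      _ ≤ |b| * (s * (k * s ^ 2)) := by gcongr
      _ = _ := by ring
  have e2 : c * τ ^ 2 ≤ |c| * k ^ 2 * s ^ 3 := by
    calc c * τ ^ 2 ≤ |c * τ ^ 2| := le_abs_self _
      _ = |c| * |τ| ^ 2 := by rw [abs_mul, abs_pow]
      _ ≤ |c| * (k * s ^ 2) ^ 2 := by gcongr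
      _ = |c| * k ^ 2 * s ^ 3 * s := by ring
      _ ≤ |c| * k ^ 2 * s ^ 3 * 1 := by gcongr
      _ = _ := by ring
  have e3 : C * (s + |τ|) ^ 3 ≤ 8 * C * s ^ 3 := by
    calc C * (s + |τ|) ^ 3 ≤ C * (s + s) ^ 3 := by gcongr
      _ = _ := by ring
  have e4 : s * (|b| * k + |c| * k ^ 2 + 8 * C) < -a := by
    rw [le_div_iff₀ (by positivity)] at s5
    have h6 : s * (|b| * k + |c| * k ^ 2 + 8 * C) ≤ s * E := by
      apply mul_le_mul_of_nonneg_left _ hs0.le
      rw [hE]; linarith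
    have h7 : s * (2 * E) = 2 * (s * E) := by ring
    rw [h7] at s5
    linarith
  have e5 : s ^ 2 * (a + s * (|b| * k + |c| * k ^ 2 + 8 * C)) < 0 :=
    mul_neg_of_pos_of_neg (by positivity) (by linarith)
  have e6 : s ^ 2 * (a + s * (|b| * k + |c| * k ^ 2 + 8 * C)) =
      a * s ^ 2 + |b| * k * s ^ 3 + |c| * k ^ 2 * s ^ 3 + 8 * C * s ^ 3 := by ring
  rw [e6] at e5
  linarith

/-- pointwise third order Taylor bound for `log (1 - u²)` -/
theorem log_taylor {f v e : ℝ} (he : 0 < e) (hf : e ≤ 1 - f ^ 2) (hv : |v| ≤ e / 4) :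
    |f + v| < 1 ∧
    |Real.log (1 - (f + v) ^ 2) - Real.log (1 - f ^ 2) + 2 * f * v / (1 - f ^ 2) +
      (1 + f ^ 2) / (1 - f ^ 2) ^ 2 * v ^ 2| ≤ 32 / e ^ 3 * |v| ^ 3 := by
  have hf1 : |f| < 1 := by
    rw [← sq_lt_one_iff_abs_lt_one]; linarith
  have hff := abs_lt.mp hf1
  have h1 : e / 2 ≤ 1 - f := by nlinarith
  have h2 : e / 2 ≤ 1 + f := by nlinarith
  have p1 : 0 < 1 - f := by linarith
  have p2 : 0 < 1 + f := by linarith
  have hvv := abs_le.mp hv
  have habs : |f + v| < 1 := by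
    rw [abs_lt]; constructor <;> linarith [hvv.1, hvv.2]
  refine ⟨habs, ?_⟩
  set x1 : ℝ := v / (1 - f) with hx1
  set x2 : ℝ := -v / (1 + f) with hx2
  have a1 : |x1| ≤ 2 / e * |v| := by
    rw [hx1, abs_div, abs_of_pos p1, div_le_iff₀ p1]
    calc |v| = 2 / e * |v| * (e / 2) := by field_simp
      _ ≤ 2 / e * |v| * (1 - f) := by gcongr
  have a2 : |x2| ≤ 2 / e * |v| := by
    rw [hx2, abs_div, abs_neg, abs_of_pos p2, div_le_iff₀ p2]
    calc |v| = 2 / e * |v| * (e / 2) := by field_simp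
      _ ≤ 2 / e * |v| * (1 + f) := by gcongr
  have a3 : 2 / e * |v| ≤ 1 / 2 := by
    calc 2 / e * |v| ≤ 2 / e * (e / 4) := by gcongr
      _ = 1 / 2 := by field_simp; norm_num
  have key : ∀ x : ℝ, |x| ≤ 2 / e * |v| →
      |x + x ^ 2 / 2 + Real.log (1 - x)| ≤ 2 * (2 / e * |v|) ^ 3 := by
    intro x hx
    have hx1 : |x| < 1 := by linarith
    have := Real.abs_log_sub_add_sum_range_le hx1 2
    rw [Finset.sum_range_succ, Finset.sum_range_one] at this
    norm_num at this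
    refine this.trans ?_
    have h5 : 1 / 2 ≤ 1 - |x| := by linarith
    calc |x| ^ 3 / (1 - |x|) ≤ |x| ^ 3 / (1 / 2) := by gcongr
      _ = 2 * |x| ^ 3 := by ring
      _ ≤ 2 * (2 / e * |v|) ^ 3 := by gcongr
  have k1 := key x1 a1
  have k2 := key x2 a2
  have b1 : |x1| < 1 := by linarith
  have b2 : |x2| < 1 := by linarith
  have c1 := (abs_lt.mp b1)
  have c2 := (abs_lt.mp b2)
  have e1 : 1 - (f + v) ^ 2 = (1 - f ^ 2) * ((1 - x1) * (1 - x2)) := by
    rw [hx1, hx2]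
    field_simp
    ring
  have e2 : Real.log (1 - (f + v) ^ 2) = Real.log (1 - f ^ 2) +
      (Real.log (1 - x1) + Real.log (1 - x2)) := by
    rw [e1, Real.log_mul (by linarith) (by
      have : 0 < (1 - x1) * (1 - x2) := mul_pos (by linarith) (by linarith)
      exact this.ne'), Real.log_mul (by linarith) (by linarith)]
  have e3 : 2 * f * v / (1 - f ^ 2) = x1 + x2 := by
    rw [hx1, hx2, show 1 - f ^ 2 = (1 - f) * (1 + f) by ring]
    field_simp
    ring
  have e4 : (1 + f ^ 2) / (1 - f ^ 2) ^ 2 * v ^ 2 = x1 ^ 2 / 2 + x2 ^ 2 / 2 := by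
    rw [hx1, hx2, show 1 - f ^ 2 = (1 - f) * (1 + f) by ring]
    field_simp
    ring
  rw [e2, e3, e4]
  have e5 : (2 : ℝ) * (2 / e * |v|) ^ 3 = 16 / e ^ 3 * |v| ^ 3 := by
    rw [mul_pow, div_pow]; ring
  rw [e5] at k1 k2
  have e6 : (32 : ℝ) / e ^ 3 * |v| ^ 3 = 16 / e ^ 3 * |v| ^ 3 + 16 / e ^ 3 * |v| ^ 3 := by ring
  rw [e6]
  rw [abs_le] at *
  constructor <;> linarith [k1.1, k1.2, k2.1, k2.2]

end Pool.Agent.R207.OddWave
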