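import Mathlib
import Pool.Agent.R207.OddWave2

set_option autoImplicit false

/-! # Odd periodic waves: descent along the constraint -/

namespace Pool.Agent.R207.OddWave

open Real Set Filter Topology MeasureTheory

structure Wave (ε L : ℝ) (f p : ℝ → ℝ) : Prop where
  pos : 0 < ε
  hL : 0 < L
  hf : ∀ x, HasDerivAt f (p x) x
  hp : ∀ x, HasDerivAt p (-f x ^ 3 / (1 - f x ^ 2)) x
  lt : ∀ x, ε ≤ 1 - f x ^ 2
  f0 : f 0 = 0
  fL : f L = 0

variable {ε L Z : ℝ} {f p z z' : ℝ → ℝ}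

theorem Wave.fc (W : Wave ε L f p) : Continuous f :=
  continuous_iff_continuousAt.mpr fun x => (W.hf x).continuousAt

theorem Wave.pc (W : Wave ε L f p) : Continuous p :=
  continuous_iff_continuousAt.mpr fun x => (W.hp x).continuousAt

theorem Wave.ne (W : Wave ε L f p) (x : ℝ) : 1 - f x ^ 2 ≠ 0 := by
  have := W.lt x
  have := W.pos
  linarith

theorem Wave.fabs (W : Wave ε L f p) (x : ℝ) : |f x| ≤ 1 := by
  have := W.lt x
  have := W.pos
  rw [← sq_le_one_iff_abs_le_one]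
  linarith

theorem sq_add_bound {s τ Z a b : ℝ} (hZ : 1 ≤ Z) (ha : |a| ≤ Z) (hb : |b| ≤ 1) :
    |s * a + τ * b| ≤ Z * (|s| + |τ|) := by
  calc |s * a + τ * b| ≤ |s| * |a| + |τ| * |b| := by
        rw [← abs_mul, ← abs_mul]; exact abs_add_le _ _
    _ ≤ |s| * Z + |τ| * Z := by
        have := abs_nonneg s
        have := abs_nonneg τ
        have h1 : |b| ≤ Z := hb.trans hZ
        gcongr
    _ = _ := by ring

theorem Wave.small (W : Wave ε L f p) (hZ1 : 1 ≤ Z) (hZ : ∀ x, |z x| ≤ Z) {s τ : ℝ}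
    (hs : |s| ≤ ε / (8 * Z)) (hτ : |τ| ≤ ε / (8 * Z)) (x : ℝ) :
    |s * z x + τ * f x| ≤ ε / 4 ∧ |s * z x + τ * f x| ≤ Z * (|s| + |τ|) := by
  have h1 := sq_add_bound (s := s) (τ := τ) hZ1 (hZ x) (W.fabs x)
  refine ⟨h1.trans ?_, h1⟩
  have hZ0 : 0 < Z := by linarith
  calc Z * (|s| + |τ|) ≤ Z * (ε / (8 * Z) + ε / (8 * Z)) := by gcongr
    _ = ε / 4 := by field_simp; ring

theorem Wave.logc (W : Wave ε L f p) (hzc : Continuous z) (hZ1 : 1 ≤ Z) (hZ : ∀ x, |z x| ≤ Z)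
    {s τ : ℝ} (hs : |s| ≤ ε / (8 * Z)) (hτ : |τ| ≤ ε / (8 * Z)) :
    Continuous fun x => Real.log (1 - (f x + (s * z x + τ * f x)) ^ 2) := by
  have := W.fc
  refine Continuous.log (by fun_prop) fun x => ?_
  have h1 := (log_taylor W.pos (W.lt x) (W.small hZ1 hZ hs hτ x).1).1
  have := (sq_lt_one_iff_abs_lt_one _).mpr h1
  linarith

theorem Wave.logc0 (W : Wave ε L f p) : Continuous fun x => Real.log (1 - f x ^ 2) := by
  have := W.fc
  exact Continuous.log (by fun_prop) fun x => W.ne x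

/-- weight of the second variation -/
noncomputable def Wt (f : ℝ → ℝ) (x : ℝ) : ℝ := (1 + f x ^ 2) / (1 - f x ^ 2) ^ 2

theorem Wave.Wc (W : Wave ε L f p) : Continuous (Wt f) := by
  have := W.fc
  unfold Wt
  exact Continuous.div (by fun_prop) (by fun_prop) fun x => pow_ne_zero 2 (W.ne x)

theorem Wave.Wle (W : Wave ε L f p) (x : ℝ) : Wt f x ≤ 2 / ε ^ 2 := by
  have h1 := W.lt x
  have h2 := W.pos
  unfold Wt
  have : f x ^ 2 ≤ 1 := by linarith
  have h3 : 0 ≤ f x ^ 2 := sq_nonneg _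
  gcongr
  linarith

theorem Wave.Wnn (_W : Wave ε L f p) (x : ℝ) : 0 ≤ Wt f x := by
  unfold Wt
  have h3 : 0 ≤ f x ^ 2 := sq_nonneg _
  positivity

theorem Wave.boundary (W : Wave ε L f p) (hz : ∀ x, HasDerivAt z (z' x) x) (hz'c : Continuous z')
    (z0 : z 0 = 0) (zL : z L = 0) :
    ∫ x in (0 : ℝ)..L, (2 * p x * z' x + 2 * (-f x ^ 3 / (1 - f x ^ 2)) * z x) = 0 := by
  have hfc := W.fc
  have hpc := W.pc
  have hzc : Continuous z := continuous_iff_continuousAt.mpr fun x => (hz x).continuousAt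
  have hd : ∀ x, HasDerivAt (fun x => 2 * p x * z x)
      (2 * p x * z' x + 2 * (-f x ^ 3 / (1 - f x ^ 2)) * z x) x := by
    intro x
    have h1 : HasDerivAt (fun x => 2 * p x * z x) _ x := ((W.hp x).const_mul 2).mul (hz x)
    refine h1.congr_deriv ?_
    ring
  have hc : Continuous fun x => 2 * p x * z' x + 2 * (-f x ^ 3 / (1 - f x ^ 2)) * z x := by
    have : Continuous fun x => -f x ^ 3 / (1 - f x ^ 2) :=
      Continuous.div (by fun_prop) (by fun_prop) W.ne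
    fun_prop
  rw [intervalIntegral.integral_eq_sub_of_hasDerivAt (fun x _ => hd x) (hc.intervalIntegrable _ _),
    z0, zL]
  ring

theorem split6 (g0 g1 g2 g3 g4 g5 : ℝ → ℝ) (h0 : Continuous g0) (h1 : Continuous g1)
    (h2 : Continuous g2) (h3 : Continuous g3) (h4 : Continuous g4) (h5 : Continuous g5)
    {s τ a1 a2 a3 k L : ℝ} :
    ∫ x in (0 : ℝ)..L, (g0 x + (s * g1 x + τ * g2 x) + (a1 * g3 x + a2 * g4 x + a3 * g5 x) + k) =
      (∫ x in (0 : ℝ)..L, g0 x) + (s * (∫ x in (0 : ℝ)..L, g1 x) + τ * (∫ x in (0 : ℝ)..L, g2 x)) +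
      (a1 * (∫ x in (0 : ℝ)..L, g3 x) + a2 * (∫ x in (0 : ℝ)..L, g4 x) +
        a3 * (∫ x in (0 : ℝ)..L, g5 x)) + L * k := by
  have i : ∀ g : ℝ → ℝ, Continuous g → IntervalIntegrable g volume 0 L :=
    fun g hg => hg.intervalIntegrable _ _
  rw [intervalIntegral.integral_add (i _ (by fun_prop)) (i _ (by fun_prop)),
    intervalIntegral.integral_add (i _ (by fun_prop)) (i _ (by fun_prop)),
    intervalIntegral.integral_add (i _ (by fun_prop)) (i _ (by fun_prop)),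
    intervalIntegral.integral_add (i _ (by fun_prop)) (i _ (by fun_prop)),
    intervalIntegral.integral_add (i _ (by fun_prop)) (i _ (by fun_prop)),
    intervalIntegral.integral_add (i _ (by fun_prop)) (i _ (by fun_prop)),
    intervalIntegral.integral_const_mul, intervalIntegral.integral_const_mul,
    intervalIntegral.integral_const_mul, intervalIntegral.integral_const_mul,
    intervalIntegral.integral_const_mul, intervalIntegral.integral_const]
  simp only [smul_eq_mul, sub_zero]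

/-- descent along the constraint -/
theorem Wave.descent (W : Wave ε L f p) (hZ1 : 1 ≤ Z) (hz : ∀ x, HasDerivAt z (z' x) x)
    (hz'c : Continuous z') (hZ : ∀ x, |z x| ≤ Z) (z0 : z 0 = 0) (zL : z L = 0)
    (horth : ∫ x in (0 : ℝ)..L, f x * z x / (1 - f x ^ 2) = 0)
    (hA : 0 < ∫ x in (0 : ℝ)..L, f x ^ 2 / (1 - f x ^ 2))
    (hB : ∫ x in (0 : ℝ)..L, (z' x ^ 2 + z x ^ 2 - Wt f x * z x ^ 2) < 0) {δ : ℝ} (hδ : 0 < δ) :
    ∃ s τ, |s| < δ ∧ |τ| < δ ∧ (∀ x, |f x + (s * z x + τ * f x)| < 1) ∧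
      ∫ x in (0 : ℝ)..L, Real.log (1 - (f x + (s * z x + τ * f x)) ^ 2) =
        ∫ x in (0 : ℝ)..L, Real.log (1 - f x ^ 2) ∧
      ∫ x in (0 : ℝ)..L, ((p x + (s * z' x + τ * p x)) ^ 2 + (f x + (s * z x + τ * f x)) ^ 2 +
          Real.log (1 - (f x + (s * z x + τ * f x)) ^ 2)) <
        ∫ x in (0 : ℝ)..L, (p x ^ 2 + f x ^ 2 + Real.log (1 - f x ^ 2)) := by
  have hfc := W.fc
  have hpc := W.pc
  have hzc : Continuous z := continuous_iff_continuousAt.mpr fun x => (hz x).continuousAt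
  have hWc := W.Wc
  have hlc0 := W.logc0
  have hZ0 : 0 < Z := by linarith
  have hε := W.pos
  have hL := W.hL
  set δ0 : ℝ := ε / (8 * Z) with hδ0
  have hδ0p : 0 < δ0 := by positivity
  have hdc1 : Continuous fun x => f x ^ 2 / (1 - f x ^ 2) :=
    Continuous.div (by fun_prop) (by fun_prop) W.ne
  have hdc2 : Continuous fun x => f x * z x / (1 - f x ^ 2) :=
    Continuous.div (by fun_prop) (by fun_prop) W.ne
  set A1 := ∫ x in (0 : ℝ)..L, f x ^ 2 / (1 - f x ^ 2) with hA1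
  set a := ∫ x in (0 : ℝ)..L, (z' x ^ 2 + z x ^ 2 - Wt f x * z x ^ 2) with ha
  set b := ∫ x in (0 : ℝ)..L, (2 * (z' x * p x + z x * f x - Wt f x * (z x * f x))) with hb
  set c := ∫ x in (0 : ℝ)..L, (p x ^ 2 + f x ^ 2 - Wt f x * f x ^ 2) with hc
  set C : ℝ := L * (32 / ε ^ 3 * Z ^ 3 + 10 / ε ^ 2 * Z ^ 2) with hC
  set h : ℝ → ℝ → ℝ := fun s τ =>
    ∫ x in (0 : ℝ)..L, ((p x + (s * z' x + τ * p x)) ^ 2 + (f x + (s * z x + τ * f x)) ^ 2 +
          Real.log (1 - (f x + (s * z x + τ * f x)) ^ 2)) with hh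
  set q : ℝ → ℝ → ℝ := fun s τ =>
    -∫ x in (0 : ℝ)..L, Real.log (1 - (f x + (s * z x + τ * f x)) ^ 2) with hq
  have h00 : h 0 0 = ∫ x in (0 : ℝ)..L, (p x ^ 2 + f x ^ 2 + Real.log (1 - f x ^ 2)) := by
    rw [hh]; simp
  have q00 : q 0 0 = -∫ x in (0 : ℝ)..L, Real.log (1 - f x ^ 2) := by
    rw [hq]; simp
  have hfint : ∫ x in (0 : ℝ)..L, (2 * p x * p x + 2 * (-f x ^ 3 / (1 - f x ^ 2)) * f x) = 0 :=
    W.boundary W.hf hpc W.f0 W.fL
  have hzint : ∫ x in (0 : ℝ)..L, (2 * p x * z' x + 2 * (-f x ^ 3 / (1 - f x ^ 2)) * z x) = 0 :=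
    W.boundary hz hz'c z0 zL
  have hdc3 : Continuous fun x => -f x ^ 3 / (1 - f x ^ 2) :=
    Continuous.div (by fun_prop) (by fun_prop) W.ne
  have H1 : ∀ s τ, |s| ≤ δ0 → |τ| ≤ δ0 →
      h s τ - h 0 0 ≤ a * s ^ 2 + b * (s * τ) + c * τ ^ 2 + C * (|s| + |τ|) ^ 3 := by
    intro s τ hs hτ
    have hlc := W.logc hzc hZ1 hZ hs hτ
    rw [h00, hh]
    beta_reduce
    have hσ : 0 ≤ |s| + |τ| := by positivity
    have hpt : ∀ x ∈ Icc 0 L, ((p x + (s * z' x + τ * p x)) ^ 2 + (f x + (s * z x + τ * f x)) ^ 2 +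
          Real.log (1 - (f x + (s * z x + τ * f x)) ^ 2)) ≤
        (p x ^ 2 + f x ^ 2 + Real.log (1 - f x ^ 2)) +
        (s * (2 * p x * z' x + 2 * (-f x ^ 3 / (1 - f x ^ 2)) * z x) +
         τ * (2 * p x * p x + 2 * (-f x ^ 3 / (1 - f x ^ 2)) * f x)) +
        (s ^ 2 * (z' x ^ 2 + z x ^ 2 - Wt f x * z x ^ 2) +
         (s * τ) * (2 * (z' x * p x + z x * f x - Wt f x * (z x * f x))) +
         τ ^ 2 * (p x ^ 2 + f x ^ 2 - Wt f x * f x ^ 2)) +
        32 / ε ^ 3 * Z ^ 3 * (|s| + |τ|) ^ 3 := by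
      intro x _
      have sm := W.small hZ1 hZ hs hτ x
      have lt := (log_taylor W.pos (W.lt x) sm.1).2
      have e1 := (abs_le.mp lt).2
      have e2 : 32 / ε ^ 3 * |s * z x + τ * f x| ^ 3 ≤ 32 / ε ^ 3 * Z ^ 3 * (|s| + |τ|) ^ 3 := by
        calc 32 / ε ^ 3 * |s * z x + τ * f x| ^ 3 ≤ 32 / ε ^ 3 * (Z * (|s| + |τ|)) ^ 3 := by
              gcongr; exact sm.2
          _ = _ := by ring
      have e3 : 2 * (-f x ^ 3 / (1 - f x ^ 2)) = 2 * f x - 2 * f x / (1 - f x ^ 2) := by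
        have := W.ne x
        field_simp
        ring
      have e4 : 2 * f x * (s * z x + τ * f x) / (1 - f x ^ 2) =
          (2 * f x / (1 - f x ^ 2)) * (s * z x + τ * f x) := by ring
      have e5 : (1 + f x ^ 2) / (1 - f x ^ 2) ^ 2 = Wt f x := rfl
      rw [e4, e5] at e1
      rw [e3]
      generalize 2 * f x / (1 - f x ^ 2) = G at *
      generalize Wt f x = w at *
      generalize 32 / ε ^ 3 * Z ^ 3 * (|s| + |τ|) ^ 3 = B1 at *
      generalize 32 / ε ^ 3 * |s * z x + τ * f x| ^ 3 = B2 at *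
      generalize Real.log (1 - (f x + (s * z x + τ * f x)) ^ 2) = l1 at *
      generalize Real.log (1 - f x ^ 2) = l0 at *
      have e9 : (p x ^ 2 + f x ^ 2 + l0) +
        (s * (2 * p x * z' x + (2 * f x - G) * z x) +
         τ * (2 * p x * p x + (2 * f x - G) * f x)) +
        (s ^ 2 * (z' x ^ 2 + z x ^ 2 - w * z x ^ 2) +
         (s * τ) * (2 * (z' x * p x + z x * f x - w * (z x * f x))) +
         τ ^ 2 * (p x ^ 2 + f x ^ 2 - w * f x ^ 2)) + B1 =
        ((p x + (s * z' x + τ * p x)) ^ 2 + (f x + (s * z x + τ * f x)) ^ 2 + l1) +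
          (B1 - (l1 - l0 + G * (s * z x + τ * f x) + w * (s * z x + τ * f x) ^ 2)) := by ring
      rw [e9]
      linarith
    have hint := intervalIntegral.integral_mono_on (μ := volume) hL.le
      (by apply Continuous.intervalIntegrable; fun_prop)
      (by apply Continuous.intervalIntegrable; fun_prop) hpt
    have hsplit : ∫ x in (0 : ℝ)..L, ((p x ^ 2 + f x ^ 2 + Real.log (1 - f x ^ 2)) +
        (s * (2 * p x * z' x + 2 * (-f x ^ 3 / (1 - f x ^ 2)) * z x) +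
         τ * (2 * p x * p x + 2 * (-f x ^ 3 / (1 - f x ^ 2)) * f x)) +
        (s ^ 2 * (z' x ^ 2 + z x ^ 2 - Wt f x * z x ^ 2) +
         (s * τ) * (2 * (z' x * p x + z x * f x - Wt f x * (z x * f x))) +
         τ ^ 2 * (p x ^ 2 + f x ^ 2 - Wt f x * f x ^ 2)) +
        32 / ε ^ 3 * Z ^ 3 * (|s| + |τ|) ^ 3) =
        (∫ x in (0 : ℝ)..L, (p x ^ 2 + f x ^ 2 + Real.log (1 - f x ^ 2))) +
        (s * 0 + τ * 0) + (s ^ 2 * a + (s * τ) * b + τ ^ 2 * c) +
        L * (32 / ε ^ 3 * Z ^ 3 * (|s| + |τ|) ^ 3) := by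
      rw [split6 _ _ _ _ _ _ (by fun_prop) (by fun_prop) (by fun_prop) (by fun_prop) (by fun_prop)
        (by fun_prop), hzint, hfint]
    rw [hsplit] at hint
    have hCge : L * (32 / ε ^ 3 * Z ^ 3 * (|s| + |τ|) ^ 3) ≤ C * (|s| + |τ|) ^ 3 := by
      rw [hC]
      have : 0 ≤ L * (10 / ε ^ 2 * Z ^ 2) * (|s| + |τ|) ^ 3 := by positivity
      nlinarith
    linarith
  have H2 : ∀ s τ, |s| ≤ δ0 → |τ| ≤ δ0 →
      |q s τ - q 0 0 - 2 * A1 * τ| ≤ C * (|s| + |τ|) ^ 2 := by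
    intro s τ hs hτ
    have hlc := W.logc hzc hZ1 hZ hs hτ
    rw [q00, hq]
    beta_reduce
    have hkey : (-∫ x in (0 : ℝ)..L, Real.log (1 - (f x + (s * z x + τ * f x)) ^ 2)) -
        (-∫ x in (0 : ℝ)..L, Real.log (1 - f x ^ 2)) - 2 * A1 * τ =
        -∫ x in (0 : ℝ)..L, (Real.log (1 - (f x + (s * z x + τ * f x)) ^ 2) -
          Real.log (1 - f x ^ 2) + ((2 * s) * (f x * z x / (1 - f x ^ 2)) +
          (2 * τ) * (f x ^ 2 / (1 - f x ^ 2)))) := by
      have i : ∀ g : ℝ → ℝ, Continuous g → IntervalIntegrable g volume 0 L :=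
        fun g hg => hg.intervalIntegrable _ _
      rw [intervalIntegral.integral_add (i _ (by fun_prop)) (i _ (by fun_prop)),
        intervalIntegral.integral_sub (i _ (by fun_prop)) (i _ (by fun_prop)),
        intervalIntegral.integral_add (i _ (by fun_prop)) (i _ (by fun_prop)),
        intervalIntegral.integral_const_mul, intervalIntegral.integral_const_mul, horth]
      ring
    rw [hkey, abs_neg]
    have hb1 : ∀ x ∈ Set.uIoc (0 : ℝ) L, ‖Real.log (1 - (f x + (s * z x + τ * f x)) ^ 2) -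
          Real.log (1 - f x ^ 2) + ((2 * s) * (f x * z x / (1 - f x ^ 2)) +
          (2 * τ) * (f x ^ 2 / (1 - f x ^ 2)))‖ ≤ 10 / ε ^ 2 * Z ^ 2 * (|s| + |τ|) ^ 2 := by
      intro x _
      have sm := W.small hZ1 hZ hs hτ x
      have lt := (log_taylor W.pos (W.lt x) sm.1).2
      have e5 : (1 + f x ^ 2) / (1 - f x ^ 2) ^ 2 = Wt f x := rfl
      rw [e5] at lt
      have e1 := abs_le.mp lt
      have w1 := W.Wle x
      have w2 := W.Wnn x
      set v := s * z x + τ * f x with hv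
      have e6 : 2 * s * (f x * z x / (1 - f x ^ 2)) + 2 * τ * (f x ^ 2 / (1 - f x ^ 2)) =
          2 * f x * v / (1 - f x ^ 2) := by rw [hv]; ring
      rw [e6, Real.norm_eq_abs]
      have e7 : Wt f x * v ^ 2 ≤ 2 / ε ^ 2 * |v| ^ 2 := by
        rw [sq_abs]; gcongr
      have e8 : 32 / ε ^ 3 * |v| ^ 3 ≤ 8 / ε ^ 2 * |v| ^ 2 := by
        calc 32 / ε ^ 3 * |v| ^ 3 = 32 / ε ^ 3 * |v| ^ 2 * |v| := by ring
          _ ≤ 32 / ε ^ 3 * |v| ^ 2 * (ε / 4) := by gcongr; exact sm.1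
          _ = 8 / ε ^ 2 * |v| ^ 2 := by field_simp; ring
      have e9 : 10 / ε ^ 2 * |v| ^ 2 ≤ 10 / ε ^ 2 * Z ^ 2 * (|s| + |τ|) ^ 2 := by
        calc 10 / ε ^ 2 * |v| ^ 2 ≤ 10 / ε ^ 2 * (Z * (|s| + |τ|)) ^ 2 := by gcongr; exact sm.2
          _ = _ := by ring
      have e10 : 0 ≤ Wt f x * v ^ 2 := by positivity
      have e11 : 10 / ε ^ 2 * |v| ^ 2 = 2 / ε ^ 2 * |v| ^ 2 + 8 / ε ^ 2 * |v| ^ 2 := by ring
      rw [abs_le]
      constructor <;> linarith [e1.1, e1.2]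
    have hn := intervalIntegral.norm_integral_le_of_norm_le_const hb1
    rw [Real.norm_eq_abs, sub_zero, abs_of_pos hL] at hn
    refine hn.trans ?_
    rw [hC]
    have : 0 ≤ L * (32 / ε ^ 3 * Z ^ 3) * (|s| + |τ|) ^ 2 := by positivity
    nlinarith
  have H3 : ∀ s, |s| ≤ δ0 → ContinuousOn (q s) (Icc (-δ0) δ0) := by
    intro s hs
    have hcl : Continuous fun τ : ℝ => -∫ x in (0 : ℝ)..L,
        Real.log (1 - (f x + (s * z x + (max (-δ0) (min τ δ0)) * f x)) ^ 2) := by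
      apply Continuous.neg
      apply intervalIntegral.continuous_parametric_intervalIntegral_of_continuous'
      refine Continuous.log (by fun_prop) fun y => ?_
      have hτ : |max (-δ0) (min y.1 δ0)| ≤ δ0 := by
        rw [abs_le]
        exact ⟨le_max_left _ _, max_le (by linarith) (min_le_right _ _)⟩
      have h1 := (log_taylor W.pos (W.lt y.2) (W.small hZ1 hZ hs hτ y.2).1).1
      have := (sq_lt_one_iff_abs_lt_one _).mpr h1
      linarith
    refine hcl.continuousOn.congr fun τ hτ => ?_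
    beta_reduce
    rw [min_eq_left hτ.2, max_eq_right hτ.1]
  obtain ⟨s, τ, r1, r2, r3, r4, r5, r6⟩ := exists_lower (a := a) (b := b) (c := c) (A := 2 * A1)
    (C := C) hB (by positivity) hδ0p (by positivity) H1 H2 H3 hδ
  refine ⟨s, τ, r1, r2, fun x => (log_taylor W.pos (W.lt x) (W.small hZ1 hZ r3 r4 x).1).1, ?_, ?_⟩
  · rw [q00, hq] at r5
    linarith
  · rw [h00] at r6
    exact r6

end Pool.Agent.R207.OddWave
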