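import Mathlib
import Pool.Agent.R207.OddWave3

set_option autoImplicit false

/-! # Odd periodic waves: a negative direction for waves of large amplitude -/

namespace Pool.Agent.R207.OddWave

open Real Set Filter Topology MeasureTheory

variable {ε : ℝ}

theorem wave_phi (h : Small ε) : Wave ε (4 * qp ε) (phi ε) (dphi ε) where
  pos := h.pos
  hL := by have := qp_pos h; linarith
  hf := phi_hasDeriv h
  hp := dphi_hasDeriv h
  lt := one_sub_pos h
  f0 := by unfold phi; rw [th_zero h]; simp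
  fL := by
    have := phi_per h 0
    rw [zero_add] at this
    rw [this]; unfold phi; rw [th_zero h]; simp

theorem dphi_sq_le (h : Small ε) (x : ℝ) : dphi ε x ^ 2 ≤ -Real.log ε := by
  rw [energy h]
  have h1 := one_sub_pos h x
  have h0 := h.pos
  have : Real.log (1 - phi ε x ^ 2) ≤ 0 := by
    apply Real.log_nonpos
    · linarith
    · linarith [sq_nonneg (phi ε x)]
  linarith

/-- the wave is above its chord on the first quarter -/
theorem phi_chord (h : Small ε) {x : ℝ} (hx0 : 0 ≤ x) (hx1 : x ≤ qp ε) :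
    √(1 - ε) * (x / qp ε) ≤ phi ε x := by
  have hq := qp_pos h
  have hconc : ConcaveOn ℝ (Icc 0 (qp ε)) (phi ε) := by
    apply concaveOn_of_deriv2_nonpos (convex_Icc _ _) (phi_cont h).continuousOn
    · exact fun y _ => (phi_hasDeriv h y).differentiableAt.differentiableWithinAt
    · have e : deriv (phi ε) = dphi ε := funext fun y => (phi_hasDeriv h y).deriv
      rw [e]
      exact fun y _ => (dphi_hasDeriv h y).differentiableAt.differentiableWithinAt
    · intro y hy
      rw [interior_Icc] at hy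
      have e : deriv (phi ε) = dphi ε := funext fun y => (phi_hasDeriv h y).deriv
      simp only [Function.iterate_succ, Function.iterate_zero, Function.comp, id]
      rw [e, (dphi_hasDeriv h y).deriv]
      have h1 := phi_pos h hy.1 (by linarith [hy.2])
      have h2 := one_sub_pos h y
      have h3 := h.pos
      apply div_nonpos_of_nonpos_of_nonneg
      · have : 0 < phi ε y ^ 3 := by positivity
        linarith
      · linarith
  have := hconc.2 (left_mem_Icc.mpr hq.le) (right_mem_Icc.mpr hq.le)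
    (show 0 ≤ 1 - x / qp ε by rw [sub_nonneg, div_le_one hq]; exact hx1)
    (show 0 ≤ x / qp ε by positivity) (by ring)
  simp only [smul_eq_mul, mul_zero, zero_add] at this
  rw [(wave_phi h).f0, phi_qp h, mul_zero, zero_add, div_mul_cancel₀ _ hq.ne'] at this
  linarith

/-- The assumptions on the amplitude. -/
structure Large (ε : ℝ) : Prop extends Small ε where
  big : 25 ≤ -Real.log ε

theorem Large.exp (h : Large ε) : ε = Real.exp (-(-Real.log ε)) := by
  rw [neg_neg, Real.exp_log h.pos]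

theorem exp_big {Λ : ℝ} (hΛ : 25 ≤ Λ) : 20000 * Λ * (Λ + 1) ^ 3 < Real.exp Λ := by
  have h1 : (2.7 : ℝ) ^ 25 < Real.exp 25 := by
    have : Real.exp 25 = Real.exp 1 ^ 25 := by
      rw [← Real.exp_nat_mul]; norm_num
    rw [this]
    have := Real.exp_one_gt_d9
    gcongr
    linarith
  set y : ℝ := Λ / 25 with hy
  have hy1 : 1 ≤ y := by rw [hy]; linarith
  have hΛy : Λ = 25 * y := by rw [hy]; ring
  have h2 : y ^ 4 ≤ Real.exp (25 * (y - 1)) := by
    have e : Real.exp (25 * (y - 1)) = Real.exp (25 * (y - 1) / 4) ^ 4 := by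
      rw [← Real.exp_nat_mul]; congr 1; ring
    rw [e]
    have := Real.add_one_le_exp (25 * (y - 1) / 4)
    gcongr
    linarith
  have h3 : Real.exp Λ = Real.exp 25 * Real.exp (25 * (y - 1)) := by
    rw [← Real.exp_add]; congr 1; rw [hΛy]; ring
  have h4 : 20000 * Λ * (Λ + 1) ^ 3 ≤ 8788000000 * y ^ 4 := by
    have : Λ + 1 ≤ 26 * y := by rw [hΛy]; linarith
    have h0 : 0 ≤ Λ + 1 := by linarith
    calc 20000 * Λ * (Λ + 1) ^ 3 ≤ 20000 * Λ * (26 * y) ^ 3 := by gcongr
      _ = 20000 * (25 * y) * (26 * y) ^ 3 := by rw [← hΛy]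
      _ = 8788000000 * y ^ 4 := by ring
  have h5 : (8788000000 : ℝ) < 2.7 ^ 25 := by norm_num
  calc 20000 * Λ * (Λ + 1) ^ 3 ≤ 8788000000 * y ^ 4 := h4
    _ < Real.exp 25 * y ^ 4 := by
        have : 0 < y ^ 4 := by positivity
        apply mul_lt_mul_of_pos_right _ this
        linarith
    _ ≤ Real.exp 25 * Real.exp (25 * (y - 1)) := by gcongr
    _ = Real.exp Λ := h3.symm

theorem Large.eps_lt (h : Large ε) :
    20000 * (-Real.log ε) * (-Real.log ε + 1) ^ 3 < 1 / ε := by
  have := exp_big h.big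
  rw [Real.exp_neg, Real.exp_log h.pos] at this
  rwa [one_div]

theorem Large.eps_small (h : Large ε) : ε < 1 / 1000000000 := by
  have h1 := h.eps_lt
  have hb := h.big
  have h2 : (8000000000 : ℝ) ≤ 20000 * (-Real.log ε) * (-Real.log ε + 1) ^ 3 := by
    have : (26 : ℝ) ^ 3 ≤ (-Real.log ε + 1) ^ 3 := by gcongr; linarith
    nlinarith
  have h3 : 1000000000 < 1 / ε := by linarith
  rw [lt_div_iff₀ h.pos] at h3
  linarith [h.pos]

theorem Large.qp_le_half (h : Large ε) : qp ε ≤ 1 / 2 := by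
  have h1 := qp_le h.toSmall
  have h2 : 4 ≤ √(-Real.log ε - 1) := by
    apply Real.le_sqrt_of_sq_le
    linarith [h.big]
  refine h1.trans ?_
  rw [div_le_iff₀ (by linarith)]
  linarith [Real.pi_le_four]

theorem Large.dphi_abs (h : Large ε) (x : ℝ) : |dphi ε x| ≤ -Real.log ε / 5 := by
  have h1 := dphi_sq_le h.toSmall x
  have h2 := h.big
  apply abs_le_of_sq_le_sq _ (by linarith)
  nlinarith

/-- mass integrals -/
noncomputable def NN (ε : ℝ) : ℝ := ∫ x in (0 : ℝ)..(4 * qp ε), phi ε x ^ 2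
noncomputable def AA (ε : ℝ) : ℝ := ∫ x in (0 : ℝ)..(4 * qp ε), phi ε x ^ 2 / (1 - phi ε x ^ 2)

theorem Acont (h : Small ε) : Continuous fun x => phi ε x ^ 2 / (1 - phi ε x ^ 2) := by
  have := phi_cont h
  exact Continuous.div (by fun_prop) (by fun_prop) (wave_phi h).ne

theorem NN_le_AA (h : Small ε) : NN ε ≤ AA ε := by
  have hq := qp_pos h
  have hc := phi_cont h
  apply intervalIntegral.integral_mono_on (by positivity)
    (Continuous.intervalIntegrable (by fun_prop) _ _) ((Acont h).intervalIntegrable _ _)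
  intro x _
  have h1 := one_sub_pos h x
  have h0 := h.pos
  rw [le_div_iff₀ (by linarith)]
  nlinarith [sq_nonneg (phi ε x), sq_nonneg (phi ε x ^ 2)]

theorem AA_eq (h : Small ε) : AA ε = NN ε + ∫ x in (0 : ℝ)..(4 * qp ε), dphi ε x ^ 2 := by
  have W := wave_phi h
  have hfc := W.fc
  have hpc := W.pc
  have hb := W.boundary W.hf hpc W.f0 W.fL
  have hac := Acont h
  have e : (fun x => 2 * dphi ε x * dphi ε x + 2 * (-phi ε x ^ 3 / (1 - phi ε x ^ 2)) * phi ε x) =
      fun x => 2 * dphi ε x ^ 2 - (2 * (phi ε x ^ 2 / (1 - phi ε x ^ 2)) - 2 * phi ε x ^ 2) := by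
    funext x
    have := W.ne x
    field_simp
    ring
  rw [e, intervalIntegral.integral_sub (Continuous.intervalIntegrable (by fun_prop) _ _)
    (Continuous.intervalIntegrable (by fun_prop) _ _),
    intervalIntegral.integral_sub (Continuous.intervalIntegrable (by fun_prop) _ _)
    (Continuous.intervalIntegrable (by fun_prop) _ _), intervalIntegral.integral_const_mul,
    intervalIntegral.integral_const_mul, intervalIntegral.integral_const_mul] at hb
  unfold AA NN
  linarith

theorem AA_le (h : Small ε) : AA ε ≤ 4 * qp ε * (-Real.log ε + 1) := by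
  have hq := qp_pos h
  have hfc := phi_cont h
  have hpc := dphi_cont h
  rw [AA_eq h]
  have h1 : NN ε ≤ ∫ _ in (0 : ℝ)..(4 * qp ε), (1 : ℝ) := by
    apply intervalIntegral.integral_mono_on (by positivity)
      (Continuous.intervalIntegrable (by fun_prop) _ _) (by simp)
    intro x _
    have := one_sub_pos h x
    have := h.pos
    linarith
  have h2 : ∫ x in (0 : ℝ)..(4 * qp ε), dphi ε x ^ 2 ≤
      ∫ _ in (0 : ℝ)..(4 * qp ε), (-Real.log ε) := by
    apply intervalIntegral.integral_mono_on (by positivity)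
      (Continuous.intervalIntegrable (by fun_prop) _ _) (by simp)
    intro x _
    exact dphi_sq_le h x
  rw [intervalIntegral.integral_const, smul_eq_mul, sub_zero] at h1 h2
  linarith

theorem NN_ge (h : Small ε) : (1 - ε) * qp ε / 3 ≤ NN ε := by
  have hq := qp_pos h
  have hfc := phi_cont h
  have h1 : ∫ x in (0 : ℝ)..(qp ε), phi ε x ^ 2 ≤ NN ε := by
    apply intervalIntegral.integral_mono_interval le_rfl hq.le (by linarith)
    · exact Eventually.of_forall fun x => sq_nonneg _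
    · exact Continuous.intervalIntegrable (by fun_prop) _ _
  have h2 : ∫ x in (0 : ℝ)..(qp ε), (1 - ε) / qp ε ^ 2 * x ^ 2 ≤
      ∫ x in (0 : ℝ)..(qp ε), phi ε x ^ 2 := by
    apply intervalIntegral.integral_mono_on hq.le
      (Continuous.intervalIntegrable (by fun_prop) _ _)
      (Continuous.intervalIntegrable (by fun_prop) _ _)
    intro x hx
    have h3 := phi_chord h hx.1 hx.2
    have h4 : 0 ≤ √(1 - ε) * (x / qp ε) := by
      have := hx.1
      positivity
    calc (1 - ε) / qp ε ^ 2 * x ^ 2 = (√(1 - ε) * (x / qp ε)) ^ 2 := by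
          rw [mul_pow, M_sq h]; ring
      _ ≤ phi ε x ^ 2 := by gcongr
  rw [intervalIntegral.integral_const_mul, integral_pow] at h2
  have e : (1 - ε) / qp ε ^ 2 * ((qp ε ^ (2 + 1) - 0 ^ (2 + 1)) / (((2 : ℕ) : ℝ) + 1)) =
      (1 - ε) * qp ε / 3 := by
    push_cast
    field_simp
    norm_num
  rw [e] at h2
  linarith

theorem AA_le_NN (h : Large ε) : AA ε ≤ 12.1 * (-Real.log ε + 1) * NN ε := by
  have h1 := AA_le h.toSmall
  have h2 := NN_ge h.toSmall
  have h3 := h.eps_small
  have hb := h.big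
  have hq := qp_pos h.toSmall
  have h4 : 4 * qp ε ≤ 12.1 * NN ε := by nlinarith
  calc AA ε ≤ 4 * qp ε * (-Real.log ε + 1) := h1
    _ ≤ 12.1 * NN ε * (-Real.log ε + 1) := by
        apply mul_le_mul_of_nonneg_right h4; linarith
    _ = _ := by ring

theorem NN_pos (h : Small ε) : 0 < NN ε := by
  have h2 := NN_ge h
  have := qp_pos h
  have := h.lt
  have : 0 < (1 - ε) * qp ε / 3 := by
    have : 0 < 1 - ε := by linarith
    positivity
  linarith

/-- the test function -/
noncomputable def tz (ε x : ℝ) : ℝ := phi ε x * (AA ε * (1 - phi ε x ^ 2) - NN ε)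
noncomputable def tz' (ε x : ℝ) : ℝ := dphi ε x * (AA ε * (1 - 3 * phi ε x ^ 2) - NN ε)

theorem tz_hasDeriv (h : Small ε) (x : ℝ) : HasDerivAt (tz ε) (tz' ε x) x := by
  have hf := phi_hasDeriv h x
  have h1 : HasDerivAt (tz ε) _ x :=
    hf.mul ((((hf.pow 2).const_sub 1).const_mul (AA ε)).sub_const (NN ε))
  refine h1.congr_deriv ?_
  unfold tz'
  push_cast
  ring

theorem tz'_cont (h : Small ε) : Continuous (tz' ε) := by
  have := phi_cont h
  have := dphi_cont h
  unfold tz'
  fun_prop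

theorem tz_cont (h : Small ε) : Continuous (tz ε) := by
  have := phi_cont h
  unfold tz
  fun_prop

theorem tz_abs (h : Small ε) (x : ℝ) : |tz ε x| ≤ AA ε := by
  have W := wave_phi h
  have h1 := W.fabs x
  have h2 := NN_le_AA h
  have h3 := NN_pos h
  have h4 := one_sub_pos h x
  have h5 := h.pos
  have h6 : |AA ε * (1 - phi ε x ^ 2) - NN ε| ≤ AA ε := by
    have : 0 ≤ phi ε x ^ 2 := sq_nonneg _
    rw [abs_le]
    constructor <;> nlinarith
  unfold tz
  rw [abs_mul]
  calc |phi ε x| * |AA ε * (1 - phi ε x ^ 2) - NN ε| ≤ 1 * AA ε := by gcongr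
    _ = _ := one_mul _

theorem tz'_sq (h : Small ε) (x : ℝ) : tz' ε x ^ 2 ≤ 9 * AA ε ^ 2 * (-Real.log ε) := by
  have h2 := NN_le_AA h
  have h3 := NN_pos h
  have h4 := one_sub_pos h x
  have h5 := h.pos
  have h6 : |AA ε * (1 - 3 * phi ε x ^ 2) - NN ε| ≤ 3 * AA ε := by
    have : 0 ≤ phi ε x ^ 2 := sq_nonneg _
    rw [abs_le]
    constructor <;> nlinarith
  have h7 := dphi_sq_le h x
  unfold tz'
  rw [mul_pow, ← sq_abs (AA ε * (1 - 3 * phi ε x ^ 2) - NN ε)]
  have hl := h.log
  calc dphi ε x ^ 2 * |AA ε * (1 - 3 * phi ε x ^ 2) - NN ε| ^ 2 ≤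
      (-Real.log ε) * (3 * AA ε) ^ 2 := by gcongr
    _ = _ := by ring

theorem tz_orth (h : Small ε) :
    ∫ x in (0 : ℝ)..(4 * qp ε), phi ε x * tz ε x / (1 - phi ε x ^ 2) = 0 := by
  have W := wave_phi h
  have hfc := W.fc
  have hac := Acont h
  have e : (fun x => phi ε x * tz ε x / (1 - phi ε x ^ 2)) =
      fun x => AA ε * phi ε x ^ 2 - NN ε * (phi ε x ^ 2 / (1 - phi ε x ^ 2)) := by
    funext x
    have := W.ne x
    unfold tz
    field_simp
  rw [e, intervalIntegral.integral_sub (Continuous.intervalIntegrable (by fun_prop) _ _)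
    (Continuous.intervalIntegrable (by fun_prop) _ _),
    intervalIntegral.integral_const_mul, intervalIntegral.integral_const_mul]
  change AA ε * NN ε - NN ε * AA ε = 0
  ring

theorem near_top (h : Large ε) {x : ℝ} (hx : |x - qp ε| ≤ 5 * ε / (2 * (-Real.log ε))) :
    1 - phi ε x ^ 2 ≤ 2 * ε := by
  have hb := h.big
  have h0 := h.pos
  have h1 : |phi ε x - phi ε (qp ε)| ≤ -Real.log ε / 5 * |x - qp ε| := by
    have := Convex.norm_image_sub_le_of_norm_hasDerivWithin_le (f := phi ε) (f' := dphi ε)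
      (s := univ) (x := qp ε) (y := x) (C := -Real.log ε / 5)
      (fun y _ => (phi_hasDeriv h.toSmall y).hasDerivWithinAt)
      (fun y _ => h.dphi_abs y) convex_univ (mem_univ _) (mem_univ _)
    simpa [Real.norm_eq_abs] using this
  have h2 : |phi ε x - phi ε (qp ε)| ≤ ε / 2 := by
    refine h1.trans ?_
    calc -Real.log ε / 5 * |x - qp ε| ≤ -Real.log ε / 5 * (5 * ε / (2 * (-Real.log ε))) := by
          gcongr
      _ = ε / 2 := by
          have : Real.log ε ≠ 0 := by linarith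
          field_simp
  rw [phi_qp h.toSmall] at h2
  have h3 := M_sq h.toSmall
  have h4 := (wave_phi h.toSmall).fabs x
  have h5 : √(1 - ε) ≤ 1 := Real.sqrt_le_one.mpr (by linarith)
  have h6 : 0 ≤ √(1 - ε) := Real.sqrt_nonneg _
  have h7 : (√(1 - ε) - phi ε x) * (√(1 - ε) + phi ε x) ≤ ε / 2 * 2 := by
    have a1 := abs_le.mp h2
    have a2 := abs_le.mp h4
    rcases le_or_gt 0 (√(1 - ε) + phi ε x) with hc | hc
    · apply mul_le_mul <;> linarith
    · nlinarith
  nlinarith

/-- the second variation is negative in the direction of the test function -/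
theorem tz_neg (h : Large ε) :
    ∫ x in (0 : ℝ)..(4 * qp ε), (tz' ε x ^ 2 + tz ε x ^ 2 - Wt (phi ε) x * tz ε x ^ 2) < 0 := by
  have hs := h.toSmall
  have W := wave_phi hs
  have hWc := W.Wc
  have hzc := tz_cont hs
  have hz'c := tz'_cont hs
  have hq := qp_pos hs
  have hq2 := h.qp_le_half
  have hb := h.big
  have h0 := h.pos
  have hN := NN_pos hs
  have hNA := NN_le_AA hs
  have hAN := AA_le_NN h
  have heps := h.eps_lt
  have hsm := h.eps_small
  set Λ := -Real.log ε with hΛ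
  have hΛ0 : 0 < Λ := by linarith
  set r : ℝ := 5 * ε / (2 * Λ) with hr
  have hr0 : 0 < r := by positivity
  rw [intervalIntegral.integral_sub (Continuous.intervalIntegrable (by fun_prop) _ _)
    (Continuous.intervalIntegrable (by fun_prop) _ _)]
  have h1 : ∫ x in (0 : ℝ)..(4 * qp ε), (tz' ε x ^ 2 + tz ε x ^ 2) ≤
      2636 * (Λ + 1) ^ 3 * NN ε ^ 2 := by
    have a1 : ∫ x in (0 : ℝ)..(4 * qp ε), (tz' ε x ^ 2 + tz ε x ^ 2) ≤
        ∫ _ in (0 : ℝ)..(4 * qp ε), (9 * AA ε ^ 2 * Λ + AA ε ^ 2) := by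
      apply intervalIntegral.integral_mono_on (by positivity)
        (Continuous.intervalIntegrable (by fun_prop) _ _) (by simp)
      intro x _
      have b1 := tz'_sq hs x
      have b2 := tz_abs hs x
      have b3 : tz ε x ^ 2 ≤ AA ε ^ 2 := by
        rw [← sq_abs]; gcongr
      linarith
    rw [intervalIntegral.integral_const, smul_eq_mul, sub_zero] at a1
    refine a1.trans ?_
    have hA0 : 0 ≤ AA ε := by linarith
    calc 4 * qp ε * (9 * AA ε ^ 2 * Λ + AA ε ^ 2) ≤ 4 * (1 / 2) * (9 * AA ε ^ 2 * Λ + AA ε ^ 2) := by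
          gcongr
      _ = 2 * (9 * Λ + 1) * AA ε ^ 2 := by ring
      _ ≤ 2 * (9 * Λ + 1) * (12.1 * (Λ + 1) * NN ε) ^ 2 := by gcongr
      _ ≤ 2 * (9 * (Λ + 1)) * (12.1 * (Λ + 1) * NN ε) ^ 2 := by gcongr; linarith
      _ = 2635.38 * ((Λ + 1) ^ 3 * NN ε ^ 2) := by ring
      _ ≤ 2636 * ((Λ + 1) ^ 3 * NN ε ^ 2) := by gcongr; norm_num
      _ = _ := by ring
  have h2 : 3125 * (Λ + 1) ^ 3 * NN ε ^ 2 ≤ ∫ x in (0 : ℝ)..(4 * qp ε), Wt (phi ε) x * tz ε x ^ 2 := by
    have hrq : r ≤ qp ε := by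
      have c1 := phi_qp hs
      have c2 : |phi ε (qp ε) - phi ε 0| ≤ Λ / 5 * |qp ε - 0| := by
        have := Convex.norm_image_sub_le_of_norm_hasDerivWithin_le (f := phi ε) (f' := dphi ε)
          (s := univ) (x := 0) (y := qp ε) (C := Λ / 5)
          (fun y _ => (phi_hasDeriv hs y).hasDerivWithinAt)
          (fun y _ => h.dphi_abs y) convex_univ (mem_univ _) (mem_univ _)
        simpa [Real.norm_eq_abs] using this
      rw [W.f0, c1, sub_zero, sub_zero, abs_of_nonneg (Real.sqrt_nonneg _), abs_of_pos hq] at c2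
      have c3 : 1 / 2 ≤ √(1 - ε) := Real.le_sqrt_of_sq_le (by linarith)
      have c4 : 5 * (1 / 2) / Λ ≤ qp ε := by
        rw [div_le_iff₀ hΛ0]; nlinarith
      refine le_trans ?_ c4
      rw [hr, div_le_div_iff₀ (by positivity) (by positivity)]
      nlinarith
    have a1 : ∫ x in (qp ε - r)..(qp ε + r), Wt (phi ε) x * tz ε x ^ 2 ≤
        ∫ x in (0 : ℝ)..(4 * qp ε), Wt (phi ε) x * tz ε x ^ 2 := by
      apply intervalIntegral.integral_mono_interval (by linarith) (by linarith) (by linarith)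
      · exact Eventually.of_forall fun x => mul_nonneg (W.Wnn x) (sq_nonneg _)
      · exact Continuous.intervalIntegrable (by fun_prop) _ _
    have a2 : ∫ _ in (qp ε - r)..(qp ε + r), (1 / (4 * ε ^ 2) * (NN ε ^ 2 / 8)) ≤
        ∫ x in (qp ε - r)..(qp ε + r), Wt (phi ε) x * tz ε x ^ 2 := by
      apply intervalIntegral.integral_mono_on (by linarith) (by simp)
        (Continuous.intervalIntegrable (by fun_prop) _ _)
      intro x hx
      have b1 := near_top h (x := x) (by rw [abs_le]; constructor <;> linarith [hx.1, hx.2])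
      have b2 := one_sub_pos hs x
      have b3 : 1 / 2 ≤ phi ε x ^ 2 := by linarith
      have b4 : 1 / (4 * ε ^ 2) ≤ Wt (phi ε) x := by
        unfold Wt
        have : (1 - phi ε x ^ 2) ^ 2 ≤ (2 * ε) ^ 2 := by gcongr; linarith
        have h5 : 0 < (1 - phi ε x ^ 2) ^ 2 := by
          have : 0 < 1 - phi ε x ^ 2 := by linarith
          positivity
        calc 1 / (4 * ε ^ 2) = 1 / (2 * ε) ^ 2 := by ring
          _ ≤ 1 / (1 - phi ε x ^ 2) ^ 2 := by gcongr
          _ ≤ (1 + phi ε x ^ 2) / (1 - phi ε x ^ 2) ^ 2 := by gcongr; linarith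
      have b5 : AA ε * (1 - phi ε x ^ 2) ≤ NN ε / 2 := by
        have c1 : AA ε * (1 - phi ε x ^ 2) ≤ (12.1 * (Λ + 1) * NN ε) * (2 * ε) := by
          apply mul_le_mul hAN b1 (by linarith) (by positivity)
        have c2 : 24.2 * (Λ + 1) * ε ≤ 1 / 2 := by
          have d1 : 24.2 * (Λ + 1) * 2 ≤ 20000 * Λ * (Λ + 1) ^ 3 := by
            have : 1 ≤ (Λ + 1) ^ 2 := by nlinarith
            have : Λ + 1 ≤ (Λ + 1) ^ 3 := by nlinarith
            nlinarith
          have d2 : 24.2 * (Λ + 1) * 2 < 1 / ε := by linarith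
          rw [lt_div_iff₀ h0] at d2
          linarith
        nlinarith
      have b6 : NN ε ^ 2 / 8 ≤ tz ε x ^ 2 := by
        have c1 : NN ε / 2 ≤ NN ε - AA ε * (1 - phi ε x ^ 2) := by linarith
        have c2 : (NN ε / 2) ^ 2 ≤ (NN ε - AA ε * (1 - phi ε x ^ 2)) ^ 2 := by gcongr
        unfold tz
        rw [mul_pow]
        have c3 : (AA ε * (1 - phi ε x ^ 2) - NN ε) ^ 2 = (NN ε - AA ε * (1 - phi ε x ^ 2)) ^ 2 := by
          ring
        rw [c3]
        calc NN ε ^ 2 / 8 = 1 / 2 * (NN ε / 2) ^ 2 := by ring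
          _ ≤ _ := by gcongr
      exact mul_le_mul b4 b6 (by positivity) (W.Wnn x)
    rw [intervalIntegral.integral_const, smul_eq_mul] at a2
    have a3 : 3125 * (Λ + 1) ^ 3 * NN ε ^ 2 ≤
        (qp ε + r - (qp ε - r)) * (1 / (4 * ε ^ 2) * (NN ε ^ 2 / 8)) := by
      have e : (qp ε + r - (qp ε - r)) * (1 / (4 * ε ^ 2) * (NN ε ^ 2 / 8)) =
          5 / (32 * Λ) * (1 / ε) * NN ε ^ 2 := by
        rw [hr]; field_simp; ring
      rw [e]
      have e2 : 3125 * (Λ + 1) ^ 3 = 5 / (32 * Λ) * (20000 * Λ * (Λ + 1) ^ 3) := by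
        field_simp; ring
      rw [e2]
      gcongr
    linarith
  have h3 : 2636 * (Λ + 1) ^ 3 * NN ε ^ 2 < 3125 * (Λ + 1) ^ 3 * NN ε ^ 2 := by
    have : 0 < (Λ + 1) ^ 3 * NN ε ^ 2 := by positivity
    nlinarith
  linarith

end Pool.Agent.R207.OddWave
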