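import Mathlib
import Pool.Agent.R207.OddWave4

set_option autoImplicit false

/-! # Odd periodic waves: all small periods occur -/

namespace Pool.Agent.R207.OddWave

open Real Set Filter Topology MeasureTheory

theorem small_exp {Λ : ℝ} (h : 2 ≤ Λ) : Small (Real.exp (-Λ)) where
  pos := Real.exp_pos _
  lt := by rw [Real.exp_lt_one_iff]; linarith
  log := by rw [Real.log_exp]; linarith

theorem large_exp {Λ : ℝ} (h : 25 ≤ Λ) : Large (Real.exp (-Λ)) where
  toSmall := small_exp (by linarith)
  big := by rw [Real.log_exp]; linarith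

/-- the quarter period depends continuously on the amplitude -/
theorem qp_cont {Λ : ℝ} (hΛ : 2 < Λ) : ContinuousAt (fun Λ => qp (Real.exp (-Λ))) Λ := by
  unfold qp X
  have hev : ∀ᶠ y in 𝓝 Λ, 2 < y := lt_mem_nhds hΛ
  apply intervalIntegral.continuousAt_of_dominated_interval (bound := fun _ => 1)
  · filter_upwards [hev] with y hy
    exact (Kinv_cont (small_exp hy.le)).aestronglyMeasurable
  · filter_upwards [hev] with y hy
    refine Eventually.of_forall fun t _ => ?_
    have hs := small_exp hy.le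
    have h1 := K_ge hs t
    have h2 : 1 ≤ √(-Real.log (Real.exp (-y)) - 1) := by
      rw [Real.log_exp]
      apply Real.le_sqrt_of_sq_le
      linarith
    rw [Real.norm_eq_abs, abs_of_pos (inv_pos.mpr (K_pos hs t))]
    exact inv_le_one_of_one_le₀ (h2.trans h1)
  · simp
  · have hne : ∀ᵐ t ∂(volume : Measure ℝ), t ≠ π / 2 := by
      simp [ae_iff]
    filter_upwards [hne] with t ht hmem
    rw [uIoc_of_le (by positivity)] at hmem
    have hcos : 0 < cos t := Real.cos_pos_of_mem_Ioo ⟨by linarith [hmem.1, Real.pi_pos],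
      lt_of_le_of_ne hmem.2 ht⟩
    have hs := small_exp hΛ.le
    refine ContinuousAt.inv₀ ?_ (K_pos hs t).ne'
    unfold K
    refine Real.continuous_sqrt.continuousAt.comp ?_
    refine ContinuousAt.sub ?_ continuousAt_const
    have hD : ∀ y : ℝ, 2 < y → 0 < (1 - Real.exp (-y)) * cos t ^ 2 := fun y hy => by
      have := (small_exp hy.le).lt
      have : 0 < 1 - Real.exp (-y) := by linarith
      positivity
    have he : (fun y => S (Real.exp (-y)) ((1 - Real.exp (-y)) * cos t ^ 2)) =ᶠ[𝓝 Λ]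
        fun y => (Real.log (Real.exp (-y) + (1 - Real.exp (-y)) * cos t ^ 2) -
          Real.log (Real.exp (-y))) / ((1 - Real.exp (-y)) * cos t ^ 2) := by
      filter_upwards [hev] with y hy
      rw [← S_mul, mul_div_cancel_left₀ _ (hD y hy).ne']
    refine ContinuousAt.congr ?_ he.symm
    have h1 : Real.exp (-Λ) + (1 - Real.exp (-Λ)) * cos t ^ 2 ≠ 0 := by
      have := hD Λ hΛ
      have := Real.exp_pos (-Λ)
      linarith
    have h2 : (1 - Real.exp (-Λ)) * cos t ^ 2 ≠ 0 := (hD Λ hΛ).ne'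
    have h3 := (Real.exp_pos (-Λ)).ne'
    exact ContinuousAt.div (ContinuousAt.sub (ContinuousAt.log (by fun_prop) h1)
      (ContinuousAt.log (by fun_prop) h3)) (by fun_prop) h2

/-- every small period is the period of a wave of large amplitude -/
theorem exists_period {L : ℝ} (hL0 : 0 < L) (hL1 : L ≤ 3 / 4) :
    ∃ ε, Large ε ∧ 4 * qp ε = L := by
  have hb : ∃ Λ1 : ℝ, 25 ≤ Λ1 ∧ qp (Real.exp (-Λ1)) ≤ L / 4 := by
    obtain ⟨Λ1, h1⟩ : ∃ Λ1 : ℝ, 25 + (8 / L) ^ 2 + 1 ≤ Λ1 := ⟨_, le_rfl⟩
    have h2 : 25 ≤ Λ1 := by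
      have : 0 ≤ (8 / L) ^ 2 := sq_nonneg _
      linarith
    refine ⟨Λ1, h2, (qp_le (small_exp (by linarith))).trans ?_⟩
    rw [Real.log_exp, neg_neg]
    have h3 : 8 / L ≤ √(Λ1 - 1) := by
      apply Real.le_sqrt_of_sq_le; linarith
    have h4 : 0 < 8 / L := by positivity
    rw [div_le_iff₀ (by linarith)]
    have h5 : L / 4 * (8 / L) ≤ L / 4 * √(Λ1 - 1) := by gcongr
    have h6 : L / 4 * (8 / L) = 2 := by field_simp; norm_num
    linarith [Real.pi_le_four]
  obtain ⟨Λ1, h1, h2⟩ := hb
  have h3 : L / 4 ≤ qp (Real.exp (-25)) := by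
    have hl := large_exp (le_refl (25 : ℝ))
    have hs := hl.toSmall
    have hq := qp_pos hs
    have c2 : |phi (Real.exp (-25)) (qp (Real.exp (-25))) - phi (Real.exp (-25)) 0| ≤
        5 * |qp (Real.exp (-25)) - 0| := by
      have := Convex.norm_image_sub_le_of_norm_hasDerivWithin_le (f := phi (Real.exp (-25)))
        (f' := dphi (Real.exp (-25)))
        (s := univ) (x := 0) (y := qp (Real.exp (-25))) (C := 5)
        (fun y _ => (phi_hasDeriv hs y).hasDerivWithinAt)
        (fun y _ => by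
          have := hl.dphi_abs y
          rw [Real.log_exp] at this
          rw [Real.norm_eq_abs]; linarith) convex_univ (mem_univ _) (mem_univ _)
      simpa [Real.norm_eq_abs] using this
    rw [(wave_phi hs).f0, phi_qp hs, sub_zero, sub_zero, abs_of_nonneg (Real.sqrt_nonneg _),
      abs_of_pos hq] at c2
    have c3 : 15 / 16 ≤ √(1 - Real.exp (-25)) := by
      apply Real.le_sqrt_of_sq_le
      have := hl.eps_small
      linarith
    linarith
  have hcont : ContinuousOn (fun Λ => qp (Real.exp (-Λ))) (Icc 25 Λ1) := fun y hy =>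
    (qp_cont (by linarith [hy.1])).continuousWithinAt
  obtain ⟨Λ, hΛ, hq⟩ := intermediate_value_Icc' h1 hcont ⟨h2, h3⟩
  refine ⟨Real.exp (-Λ), large_exp hΛ.1, ?_⟩
  beta_reduce at hq
  rw [hq]; ring

end Pool.Agent.R207.OddWave
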