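import Mathlib

set_option autoImplicit false

/-! # The radial inverse Laplacian -/

namespace Pool.Agent.R207.PH

open MeasureTheory Real Set Filter Topology

/-- weighted mean -/
noncomputable def avg (d : ℕ) (f : ℝ → ℝ) (r : ℝ) : ℝ := ∫ τ in (0 : ℝ)..1, τ ^ d * f (r * τ)

/-- radial inverse Laplacian in dimension `d+1` -/
noncomputable def T (d : ℕ) (f : ℝ → ℝ) (r : ℝ) : ℝ := ∫ s in (0 : ℝ)..|r|, s * avg d f s

variable {d : ℕ} {f g : ℝ → ℝ}

theorem avg_continuous (hf : Continuous f) : Continuous (avg d f) := by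
  unfold avg
  apply intervalIntegral.continuous_parametric_intervalIntegral_of_continuous'
  unfold Function.uncurry
  fun_prop

theorem savg_continuous (hf : Continuous f) : Continuous (fun s => s * avg d f s) :=
  continuous_id.mul (avg_continuous hf)

theorem T_continuous (hf : Continuous f) : Continuous (T d f) := by
  unfold T
  exact (intervalIntegral.continuous_primitive (fun a b => (savg_continuous hf).intervalIntegrable a b)
    0).comp continuous_abs

theorem T_of_nonneg {r : ℝ} (hr : 0 ≤ r) : T d f r = ∫ s in (0 : ℝ)..r, s * avg d f s := by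
  unfold T
  rw [abs_of_nonneg hr]

theorem T_abs (r : ℝ) : T d f |r| = T d f r := by
  unfold T
  rw [abs_abs]

theorem T_zero : T d f 0 = 0 := by
  unfold T
  simp

theorem T_hasDeriv (hf : Continuous f) {r : ℝ} (hr : 0 < r) :
    HasDerivAt (T d f) (r * avg d f r) r := by
  have h1 : HasDerivAt (fun r => ∫ s in (0 : ℝ)..r, s * avg d f s) (r * avg d f r) r :=
    intervalIntegral.integral_hasDerivAt_right ((savg_continuous hf).intervalIntegrable _ _)
      ((savg_continuous hf).stronglyMeasurableAtFilter _ _) (savg_continuous hf).continuousAt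
  apply h1.congr_of_eventuallyEq
  filter_upwards [lt_mem_nhds hr] with s hs
  exact T_of_nonneg hs.le

theorem mass_eq (f : ℝ → ℝ) (r : ℝ) : r ^ (d + 1) * avg d f r = ∫ t in (0 : ℝ)..r, t ^ d * f t := by
  have h := intervalIntegral.mul_integral_comp_mul_left (f := fun t => t ^ d * f t) r (a := 0) (b := 1)
  rw [mul_zero, mul_one] at h
  rw [← h]
  unfold avg
  rw [pow_succ', mul_assoc, ← intervalIntegral.integral_const_mul]
  congr 1
  apply intervalIntegral.integral_congr
  intro τ _
  simp only
  rw [mul_pow]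
  ring

theorem mass_hasDeriv (hf : Continuous f) (r : ℝ) :
    HasDerivAt (fun r => r ^ (d + 1) * avg d f r) (r ^ d * f r) r := by
  have hc : Continuous (fun t : ℝ => t ^ d * f t) := by fun_prop
  have h1 : HasDerivAt (fun r => ∫ t in (0 : ℝ)..r, t ^ d * f t) (r ^ d * f r) r :=
    intervalIntegral.integral_hasDerivAt_right (hc.intervalIntegrable _ _)
      (hc.stronglyMeasurableAtFilter _ _) hc.continuousAt
  have h2 : (fun r => r ^ (d + 1) * avg d f r) = fun r => ∫ t in (0 : ℝ)..r, t ^ d * f t := by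
    ext r
    exact mass_eq f r
  rw [h2]
  exact h1

theorem avg_mono (hf : Continuous f) (hg : Continuous g) (h : ∀ r, 0 ≤ r → f r ≤ g r) {r : ℝ}
    (hr : 0 ≤ r) : avg d f r ≤ avg d g r := by
  unfold avg
  apply intervalIntegral.integral_mono_on zero_le_one
  · exact (by fun_prop : Continuous fun τ : ℝ => τ ^ d * f (r * τ)).intervalIntegrable _ _
  · exact (by fun_prop : Continuous fun τ : ℝ => τ ^ d * g (r * τ)).intervalIntegrable _ _
  · intro τ hτ
    have := h (r * τ) (mul_nonneg hr hτ.1)
    have h0 : 0 ≤ τ ^ d := pow_nonneg hτ.1 d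
    exact mul_le_mul_of_nonneg_left this h0

theorem T_mono (hf : Continuous f) (hg : Continuous g) (h : ∀ r, 0 ≤ r → f r ≤ g r) (r : ℝ) :
    T d f r ≤ T d g r := by
  unfold T
  apply intervalIntegral.integral_mono_on (abs_nonneg r)
  · exact (savg_continuous hf).intervalIntegrable _ _
  · exact (savg_continuous hg).intervalIntegrable _ _
  · intro s hs
    exact mul_le_mul_of_nonneg_left (avg_mono hf hg h hs.1) hs.1

theorem avg_sub (hf : Continuous f) (hg : Continuous g) (r : ℝ) :
    avg d (fun s => f s - g s) r = avg d f r - avg d g r := by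
  unfold avg
  rw [← intervalIntegral.integral_sub]
  · apply intervalIntegral.integral_congr
    intro τ _
    simp only
    ring
  · exact (by fun_prop : Continuous fun τ : ℝ => τ ^ d * f (r * τ)).intervalIntegrable _ _
  · exact (by fun_prop : Continuous fun τ : ℝ => τ ^ d * g (r * τ)).intervalIntegrable _ _

theorem T_sub (hf : Continuous f) (hg : Continuous g) (r : ℝ) :
    T d (fun s => f s - g s) r = T d f r - T d g r := by
  unfold T
  rw [← intervalIntegral.integral_sub ((savg_continuous hf).intervalIntegrable _ _)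
    ((savg_continuous hg).intervalIntegrable _ _)]
  apply intervalIntegral.integral_congr
  intro s _
  simp only
  rw [avg_sub hf hg]
  ring

theorem avg_const_mul (c : ℝ) (f : ℝ → ℝ) (r : ℝ) :
    avg d (fun s => c * f s) r = c * avg d f r := by
  unfold avg
  rw [← intervalIntegral.integral_const_mul]
  apply intervalIntegral.integral_congr
  intro τ _
  simp only
  ring

theorem T_const_mul (c : ℝ) (f : ℝ → ℝ) (r : ℝ) : T d (fun s => c * f s) r = c * T d f r := by
  unfold T
  rw [← intervalIntegral.integral_const_mul]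
  apply intervalIntegral.integral_congr
  intro s _
  simp only
  rw [avg_const_mul]
  ring

theorem T_neg (f : ℝ → ℝ) (r : ℝ) : T d (fun s => -f s) r = -T d f r := by
  have := T_const_mul (d := d) (-1) f r
  simp only [neg_mul, one_mul] at this
  exact this

theorem T_fun_zero (r : ℝ) : T d (fun _ => 0) r = 0 := by
  have := T_const_mul (d := d) 0 (fun _ => 0) r
  simpa using this

theorem T_nonneg (hf : Continuous f) (h : ∀ r, 0 ≤ r → 0 ≤ f r) (r : ℝ) : 0 ≤ T d f r := by
  have := T_mono (d := d) continuous_const hf h r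
  rwa [T_fun_zero] at this

theorem avg_nonneg (hf : Continuous f) (h : ∀ r, 0 ≤ r → 0 ≤ f r) {r : ℝ} (hr : 0 ≤ r) :
    0 ≤ avg d f r := by
  have := avg_mono (d := d) continuous_const hf h hr
  have h0 := avg_const_mul (d := d) 0 (fun _ => 0) r
  simp only [zero_mul] at h0
  rwa [h0] at this

theorem abs_T_le (hf : Continuous f) (hg : Continuous g) (h : ∀ r, 0 ≤ r → |f r| ≤ g r) (r : ℝ) :
    |T d f r| ≤ T d g r := by
  rw [abs_le]
  constructor
  · have h1 : T d (fun s => -g s) r ≤ T d f r :=
      T_mono (d := d) hg.neg hf (fun s hs => (abs_le.mp (h s hs)).1) r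
    have h2 := T_neg (d := d) g r
    linarith
  · exact T_mono hf hg (fun s hs => (abs_le.mp (h s hs)).2) r

theorem savg_le (hf : Continuous f) (h : ∀ r, 0 ≤ r → 0 ≤ f r) {s : ℝ} (hs : 0 ≤ s) :
    s * avg d f s ≤ ∫ t in (0 : ℝ)..s, f t := by
  have h1 := intervalIntegral.mul_integral_comp_mul_left (f := f) s (a := 0) (b := 1)
  rw [mul_zero, mul_one] at h1
  rw [← h1]
  apply mul_le_mul_of_nonneg_left _ hs
  unfold avg
  apply intervalIntegral.integral_mono_on zero_le_one
  · exact (by fun_prop : Continuous fun τ : ℝ => τ ^ d * f (s * τ)).intervalIntegrable _ _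
  · exact (by fun_prop : Continuous fun τ : ℝ => f (s * τ)).intervalIntegrable _ _
  · intro τ hτ
    have h2 := h (s * τ) (mul_nonneg hs hτ.1)
    have h3 : τ ^ d ≤ 1 := pow_le_one₀ hτ.1 hτ.2
    nlinarith

/-- Main weight estimate: if `W' = 2 ℓ W`, `W (0) = 1`, `ℓ ≥ 1` then `T (ℓ W) ≤ W / 4`. -/
theorem T_weight {ℓ W : ℝ → ℝ} (hℓ : Continuous ℓ) (hW : Continuous W)
    (hℓ1 : ∀ r, 1 ≤ ℓ r) (hWpos : ∀ r, 0 < W r)
    (hd : ∀ r, 0 ≤ r → ∫ t in (0 : ℝ)..r, ℓ t * W t = (W r - 1) / 2) (hWe : ∀ r, W |r| = W r)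
    (r : ℝ) : T d (fun s => ℓ s * W s) r ≤ W r / 4 := by
  have hc : Continuous fun s => ℓ s * W s := hℓ.mul hW
  have h0 : ∀ r, 0 ≤ r → 0 ≤ ℓ r * W r := fun r _ =>
    mul_nonneg (by linarith [hℓ1 r]) (hWpos r).le
  rw [← T_abs, ← hWe]
  have hr := abs_nonneg r
  set ρ := |r|
  rw [T_of_nonneg hr]
  calc ∫ s in (0 : ℝ)..ρ, s * avg d (fun s => ℓ s * W s) s
      ≤ ∫ s in (0 : ℝ)..ρ, (1 / 2) * (ℓ s * W s) := by
        apply intervalIntegral.integral_mono_on hr
        · exact (savg_continuous hc).intervalIntegrable _ _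
        · exact (continuous_const.mul hc).intervalIntegrable _ _
        · intro s hs
          have h1 := savg_le (d := d) hc h0 hs.1
          rw [hd s hs.1] at h1
          have h2 := hℓ1 s
          have h3 := hWpos s
          nlinarith
    _ = (1 / 2) * ((W ρ - 1) / 2) := by
        rw [intervalIntegral.integral_const_mul, hd ρ hr]
    _ ≤ _ := by linarith

end Pool.Agent.R207.PH
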