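import Pool.Agent.R207.PH1

set_option autoImplicit false

/-! # Radial polyharmonic equations with an exponential nonlinearity: existence and stability -/

namespace Pool.Agent.R207.PH

open MeasureTheory Real Set Filter Topology
open scoped BoundedContinuousFunction NNReal

variable {d : ℕ} {f g : ℝ → ℝ}

/-- chain of radial functions -/
noncomputable def lev (d : ℕ) (b : ℕ → ℝ) (F : ℝ → ℝ) : ℕ → ℝ → ℝ
  | 0 => F
  | k + 1 => fun r => b k + T d (lev d b F k) r

theorem lev_succ (b : ℕ → ℝ) (F : ℝ → ℝ) (k : ℕ) (r : ℝ) :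
    lev d b F (k + 1) r = b k + T d (lev d b F k) r := rfl

theorem lev_continuous {b : ℕ → ℝ} {F : ℝ → ℝ} (hF : Continuous F) (k : ℕ) :
    Continuous (lev d b F k) := by
  induction k with
  | zero => exact hF
  | succ k ih => exact continuous_const.add (T_continuous ih)

theorem lev_abs {b : ℕ → ℝ} {F : ℝ → ℝ} (k : ℕ) (r : ℝ) :
    lev d b F (k + 1) |r| = lev d b F (k + 1) r := by
  rw [lev_succ, lev_succ, T_abs]

theorem lev_zero_fun (k : ℕ) (r : ℝ) : lev d (fun _ => 0) (fun _ => 0) k r = 0 := by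
  induction k generalizing r with
  | zero => rfl
  | succ k ih =>
    rw [lev_succ]
    have : lev d (fun _ => 0) (fun _ => 0) k = fun _ => 0 := by
      ext r; exact ih r
    rw [this, T_fun_zero, add_zero]

/-- a weight for `ℓ` -/
structure Wt (d : ℕ) (ℓ W : ℝ → ℝ) : Prop where
  cl : Continuous ℓ
  cW : Continuous W
  l1 : ∀ r, 1 ≤ ℓ r
  W1 : ∀ r, 1 ≤ W r
  TlW : ∀ r, T d (fun s => ℓ s * W s) r ≤ W r / 4

theorem Wt.W0 {ℓ W : ℝ → ℝ} (h : Wt d ℓ W) (r : ℝ) : 0 < W r := by linarith [h.W1 r]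

theorem Wt.TW {ℓ W : ℝ → ℝ} (h : Wt d ℓ W) (r : ℝ) : T d W r ≤ W r / 4 := by
  refine le_trans ?_ (h.TlW r)
  apply T_mono (g := fun s => ℓ s * W s) h.cW (h.cl.mul h.cW)
  intro s _
  have h1 := h.l1 s
  have h2 := h.W1 s
  nlinarith

/-- existence of a weight -/
theorem exists_weight {ℓ : ℝ → ℝ} (hℓ : Continuous ℓ) (h1 : ∀ r, 1 ≤ ℓ r) :
    ∃ W, Wt d ℓ W := by
  let P : ℝ → ℝ := fun r => ∫ s in (0 : ℝ)..r, ℓ s
  have hP : ∀ r, HasDerivAt P (ℓ r) r := fun r =>
    intervalIntegral.integral_hasDerivAt_right (hℓ.intervalIntegrable _ _)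
      (hℓ.stronglyMeasurableAtFilter _ _) hℓ.continuousAt
  have hPc : Continuous P := continuous_iff_continuousAt.mpr fun r => (hP r).continuousAt
  let V : ℝ → ℝ := fun r => Real.exp (2 * P r)
  have hVc : Continuous V := Real.continuous_exp.comp (continuous_const.mul hPc)
  have hV : ∀ r, HasDerivAt (fun r => V r / 2) (ℓ r * V r) r := by
    intro r
    have := (((hP r).const_mul 2).exp).div_const 2
    refine this.congr_deriv ?_
    ring
  have hP0 : ∀ r, 0 ≤ r → 0 ≤ P r := by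
    intro r hr
    apply intervalIntegral.integral_nonneg hr
    intro s _
    linarith [h1 s]
  have hW1 : ∀ r : ℝ, 1 ≤ V |r| := by
    intro r
    apply Real.one_le_exp
    linarith [hP0 |r| (abs_nonneg r)]
  have hVa : Continuous (fun r : ℝ => V |r|) := hVc.comp continuous_abs
  refine ⟨fun r => V |r|, hℓ, hVa, h1, hW1, ?_⟩
  apply T_weight (W := fun r : ℝ => V |r|) hℓ hVa h1 (fun r => by linarith [hW1 r])
  · intro r hr
    have e1 : ∫ t in (0 : ℝ)..r, ℓ t * V |t| = ∫ t in (0 : ℝ)..r, ℓ t * V t := by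
      apply intervalIntegral.integral_congr
      intro t ht
      rw [uIcc_of_le hr] at ht
      simp only
      rw [abs_of_nonneg ht.1]
    rw [e1, intervalIntegral.integral_eq_sub_of_hasDerivAt (f := fun r => V r / 2) (fun t _ => hV t)
      ((hℓ.mul hVc).intervalIntegrable _ _), abs_of_nonneg hr]
    have : V 0 = 1 := by simp [V, P]
    rw [this]
    ring
  · intro r
    rw [abs_abs]

theorem lev_diff {ℓ W : ℝ → ℝ} (h : Wt d ℓ W) {b c : ℕ → ℝ} {F G : ℝ → ℝ} (hF : Continuous F)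
    (hG : Continuous G) {ε δ : ℝ} (hε : 0 ≤ ε) (hδ : 0 ≤ δ)
    (hFG : ∀ r, 0 ≤ r → |F r - G r| ≤ ε * (ℓ r * W r)) {m : ℕ}
    (hbc : ∀ k, k < m → |b k - c k| ≤ δ) {k : ℕ} (hk1 : 1 ≤ k) (hkm : k ≤ m) (r : ℝ) :
    |lev d b F k r - lev d c G k r| ≤ (ε / 4 + 4 / 3 * δ) * W r := by
  have key : ∀ (k : ℕ) (r : ℝ), lev d b F (k + 1) r - lev d c G (k + 1) r =
      (b k - c k) + T d (fun s => lev d b F k s - lev d c G k s) r := by
    intro k r
    rw [lev_succ, lev_succ, T_sub (lev_continuous hF k) (lev_continuous hG k)]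
    ring
  induction k, hk1 using Nat.le_induction generalizing r with
  | base =>
    rw [key 0 r]
    have h1 : |T d (fun s => lev d b F 0 s - lev d c G 0 s) r| ≤ ε * (W r / 4) := by
      have h2 := abs_T_le (d := d) (f := fun s => F s - G s) (g := fun s => ε * (ℓ s * W s))
        (hF.sub hG) (continuous_const.mul (h.cl.mul h.cW)) hFG r
      rw [T_const_mul] at h2
      exact h2.trans (mul_le_mul_of_nonneg_left (h.TlW r) hε)
    have h3 := hbc 0 (by omega)
    have h4 := h.W1 r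
    calc _ ≤ |b 0 - c 0| + |T d (fun s => lev d b F 0 s - lev d c G 0 s) r| := abs_add_le _ _
      _ ≤ δ + ε * (W r / 4) := by linarith
      _ ≤ _ := by nlinarith
  | succ k hk ih =>
    rw [key k r]
    have hkm' : k ≤ m := by omega
    have h1 : |T d (fun s => lev d b F k s - lev d c G k s) r| ≤ (ε / 4 + 4 / 3 * δ) * (W r / 4) := by
      have h2 := abs_T_le (d := d) (f := fun s => lev d b F k s - lev d c G k s)
        (g := fun s => (ε / 4 + 4 / 3 * δ) * W s)
        ((lev_continuous hF k).sub (lev_continuous hG k)) (continuous_const.mul h.cW)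
        (fun s _ => ih hkm' s) r
      rw [T_const_mul] at h2
      exact h2.trans (mul_le_mul_of_nonneg_left (h.TW r) (by positivity))
    have h3 := hbc k (by omega)
    have h4 := h.W1 r
    calc _ ≤ |b k - c k| + |T d (fun s => lev d b F k s - lev d c G k s) r| := abs_add_le _ _
      _ ≤ δ + (ε / 4 + 4 / 3 * δ) * (W r / 4) := by linarith
      _ ≤ _ := by
        have : 0 ≤ ε * W r := by positivity
        have : 0 ≤ δ * W r := by positivity
        nlinarith

/-- truncated exponential -/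
noncomputable def tex (σ : ℝ) (q u : ℝ → ℝ) : ℝ → ℝ := fun r => σ * Real.exp (min (u r) (q r))

theorem tex_continuous {σ : ℝ} {q u : ℝ → ℝ} (hq : Continuous q) (hu : Continuous u) :
    Continuous (tex σ q u) := by
  unfold tex
  exact continuous_const.mul (Real.continuous_exp.comp (hu.min hq))

theorem exp_lip {x y Q : ℝ} (hx : x ≤ Q) (hy : y ≤ Q) :
    |Real.exp x - Real.exp y| ≤ Real.exp Q * |x - y| := by
  wlog h : y ≤ x generalizing x y
  · rw [abs_sub_comm, abs_sub_comm x y]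
    exact this hy hx (le_of_not_ge h)
  rw [abs_of_nonneg (by linarith [Real.exp_le_exp.mpr h]), abs_of_nonneg (by linarith)]
  have h1 : Real.exp y = Real.exp x * Real.exp (y - x) := by rw [← Real.exp_add]; ring_nf
  have h2 := Real.add_one_le_exp (y - x)
  have h3 := Real.exp_pos x
  have h4 := Real.exp_le_exp.mpr hx
  have h5 : Real.exp x * (x - y) ≤ Real.exp Q * (x - y) :=
    mul_le_mul_of_nonneg_right h4 (by linarith)
  rw [h1]
  nlinarith

theorem tex_lip {σ : ℝ} (hσ : |σ| ≤ 1) (q u v : ℝ → ℝ) (r : ℝ) :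
    |tex σ q u r - tex σ q v r| ≤ Real.exp (q r) * |u r - v r| := by
  unfold tex
  rw [← mul_sub, abs_mul]
  have h1 := exp_lip (x := min (u r) (q r)) (y := min (v r) (q r)) (Q := q r) (min_le_right _ _)
    (min_le_right _ _)
  have h2 : |min (u r) (q r) - min (v r) (q r)| ≤ |u r - v r| := by
    have := abs_min_sub_min_le_max (u r) (q r) (v r) (q r)
    simpa using this
  calc |σ| * |Real.exp (min (u r) (q r)) - Real.exp (min (v r) (q r))|
      ≤ 1 * |Real.exp (min (u r) (q r)) - Real.exp (min (v r) (q r))| := by gcongr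
    _ ≤ Real.exp (q r) * |min (u r) (q r) - min (v r) (q r)| := by rw [one_mul]; exact h1
    _ ≤ _ := by gcongr

theorem tex_bound {σ : ℝ} (hσ : |σ| ≤ 1) (q u : ℝ → ℝ) (r : ℝ) :
    |tex σ q u r| ≤ Real.exp (q r) := by
  unfold tex
  rw [abs_mul, abs_of_pos (Real.exp_pos _)]
  calc |σ| * Real.exp (min (u r) (q r)) ≤ 1 * Real.exp (min (u r) (q r)) := by gcongr
    _ ≤ Real.exp (q r) := by rw [one_mul]; exact Real.exp_le_exp.mpr (min_le_right _ _)

/-- solution of the truncated system -/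
structure Sys (d m : ℕ) (b : ℕ → ℝ) (σ : ℝ) (q u : ℝ → ℝ) : Prop where
  cont : Continuous u
  eq : ∀ r, u r = lev d b (tex σ q u) m r

/-- the Lipschitz weight -/
noncomputable def ellq (q : ℝ → ℝ) : ℝ → ℝ := fun r => 1 + Real.exp (q r)

theorem ellq_continuous {q : ℝ → ℝ} (hq : Continuous q) : Continuous (ellq q) :=
  continuous_const.add (Real.continuous_exp.comp hq)

theorem ellq_one (q : ℝ → ℝ) (r : ℝ) : 1 ≤ ellq q r := by
  unfold ellq
  linarith [Real.exp_pos (q r)]

theorem tex_bound_weight {σ : ℝ} (hσ : |σ| ≤ 1) {q W : ℝ → ℝ} (hw : Wt d (ellq q) W) (u : ℝ → ℝ)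
    (r : ℝ) : |tex σ q u r| ≤ 1 * (ellq q r * W r) := by
  have h1 := tex_bound hσ q u r
  have h2 := hw.W1 r
  have h3 := hw.l1 r
  have h4 : Real.exp (q r) ≤ ellq q r := by unfold ellq; linarith
  nlinarith

theorem lev_bound {σ : ℝ} (hσ : |σ| ≤ 1) {q W : ℝ → ℝ} (hq : Continuous q)
    (hw : Wt d (ellq q) W) {u : ℝ → ℝ} (hu : Continuous u) {b : ℕ → ℝ} {m : ℕ} (hm : 1 ≤ m) {B : ℝ}
    (hB : 0 ≤ B) (hb : ∀ k, k < m → |b k| ≤ B) (r : ℝ) :
    |lev d b (tex σ q u) m r| ≤ (1 / 4 + 4 / 3 * B) * W r := by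
  have h := lev_diff hw (b := b) (c := fun _ => 0) (F := tex σ q u) (G := fun _ => 0)
    (tex_continuous hq hu) continuous_const zero_le_one hB
    (fun r _ => by simpa using tex_bound_weight hσ hw u r)
    (m := m) (fun k hk => by simpa using hb k hk) hm le_rfl r
  rwa [lev_zero_fun, sub_zero] at h

theorem Sys.bound {σ : ℝ} (hσ : |σ| ≤ 1) {q W : ℝ → ℝ} (hq : Continuous q)
    (hw : Wt d (ellq q) W) {u : ℝ → ℝ} {b : ℕ → ℝ} {m : ℕ} (hm : 1 ≤ m) {B : ℝ}
    (hB : 0 ≤ B) (hb : ∀ k, k < m → |b k| ≤ B) (h : Sys d m b σ q u) (r : ℝ) :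
    |u r| ≤ (1 / 4 + 4 / 3 * B) * W r := by
  rw [h.eq r]
  exact lev_bound hσ hq hw h.cont hm hB hb r

/-- stability -/
theorem Sys.stab {σ : ℝ} (hσ : |σ| ≤ 1) {q W : ℝ → ℝ} (hq : Continuous q)
    (hw : Wt d (ellq q) W) {u v : ℝ → ℝ} {b c : ℕ → ℝ} {m : ℕ} (hm : 1 ≤ m) {δ : ℝ}
    (hδ : 0 ≤ δ) (hbc : ∀ k, k < m → |b k - c k| ≤ δ) (hu : Sys d m b σ q u)
    (hv : Sys d m c σ q v) (r : ℝ) : |u r - v r| ≤ 2 * δ * W r := by
  obtain ⟨B, hB0, hB⟩ : ∃ B : ℝ, 0 ≤ B ∧ ∀ k, k < m → |b k| ≤ B ∧ |c k| ≤ B := by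
    refine ⟨∑ k ∈ Finset.range m, (|b k| + |c k|), Finset.sum_nonneg fun k _ => by positivity, ?_⟩
    intro k hk
    have h1 := Finset.single_le_sum (f := fun k => |b k| + |c k|) (s := Finset.range m)
      (fun k _ => by positivity) (Finset.mem_range.mpr hk)
    exact ⟨by linarith [abs_nonneg (c k)], by linarith [abs_nonneg (b k)]⟩
  have h0 : ∀ r, |u r - v r| ≤ (2 * (1 / 4 + 4 / 3 * B)) * W r := by
    intro r
    have h1 := hu.bound hσ hq hw hm hB0 (fun k hk => (hB k hk).1) r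
    have h2 := hv.bound hσ hq hw hm hB0 (fun k hk => (hB k hk).2) r
    calc |u r - v r| ≤ |u r| + |v r| := abs_sub _ _
      _ ≤ _ := by linarith
  set M := 2 * (1 / 4 + 4 / 3 * B) with hM
  have hM0 : 0 ≤ M := by positivity
  have hn : ∀ (n : ℕ) (r : ℝ), |u r - v r| ≤ (M * (1 / 4) ^ n + 2 * δ) * W r := by
    intro n
    induction n with
    | zero =>
      intro r
      have := hw.W0 r
      have := h0 r
      have : 0 ≤ 2 * δ * W r := by positivity
      simp only [pow_zero, mul_one]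
      nlinarith
    | succ n ih =>
      intro r
      have hε : 0 ≤ M * (1 / 4) ^ n + 2 * δ := by positivity
      have h1 := lev_diff hw (b := b) (c := c) (F := tex σ q u) (G := tex σ q v)
        (tex_continuous hq hu.cont) (tex_continuous hq hv.cont) hε hδ
        (fun r _ => by
          have h2 := tex_lip hσ q u v r
          have h3 := ih r
          have h4 : Real.exp (q r) ≤ ellq q r := by unfold ellq; linarith
          calc _ ≤ Real.exp (q r) * |u r - v r| := h2
            _ ≤ ellq q r * ((M * (1 / 4) ^ n + 2 * δ) * W r) := by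
              apply mul_le_mul h4 h3 (abs_nonneg _)
              linarith [hw.l1 r]
            _ = _ := by ring) hbc hm le_rfl r
      rw [hu.eq r, hv.eq r]
      refine h1.trans ?_
      apply mul_le_mul_of_nonneg_right _ (hw.W0 r).le
      rw [pow_succ]
      nlinarith
  have hlim : Tendsto (fun n : ℕ => (M * (1 / 4) ^ n + 2 * δ) * W r) atTop
      (𝓝 ((M * 0 + 2 * δ) * W r)) :=
    ((((tendsto_pow_atTop_nhds_zero_of_lt_one (by norm_num : (0 : ℝ) ≤ 1 / 4)
      (by norm_num)).const_mul M).add_const _).mul_const _)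
  rw [mul_zero, zero_add] at hlim
  exact ge_of_tendsto' hlim fun n => hn n r

theorem Sys.stab_lev {σ : ℝ} (hσ : |σ| ≤ 1) {q W : ℝ → ℝ} (hq : Continuous q)
    (hw : Wt d (ellq q) W) {u v : ℝ → ℝ} {b c : ℕ → ℝ} {m : ℕ} (hm : 1 ≤ m) {δ : ℝ}
    (hδ : 0 ≤ δ) (hbc : ∀ k, k < m → |b k - c k| ≤ δ) (hu : Sys d m b σ q u)
    (hv : Sys d m c σ q v) {k : ℕ} (hk1 : 1 ≤ k) (hkm : k ≤ m) (r : ℝ) :
    |lev d b (tex σ q u) k r - lev d c (tex σ q v) k r| ≤ 2 * δ * W r := by
  have h1 := lev_diff hw (b := b) (c := c) (F := tex σ q u) (G := tex σ q v)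
    (tex_continuous hq hu.cont) (tex_continuous hq hv.cont) (by positivity : 0 ≤ 2 * δ) hδ
    (fun r _ => by
      have h2 := tex_lip hσ q u v r
      have h3 := hu.stab hσ hq hw hm hδ hbc hv r
      have h4 : Real.exp (q r) ≤ ellq q r := by unfold ellq; linarith
      calc _ ≤ Real.exp (q r) * |u r - v r| := h2
        _ ≤ ellq q r * (2 * δ * W r) := by
          apply mul_le_mul h4 h3 (abs_nonneg _)
          linarith [hw.l1 r]
        _ = _ := by ring) hbc hk1 hkm r
  refine h1.trans ?_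
  have := hw.W0 r
  nlinarith [mul_nonneg hδ this.le]

/-- existence -/
theorem exists_sys {σ : ℝ} (hσ : |σ| ≤ 1) {q : ℝ → ℝ} (hq : Continuous q) (b : ℕ → ℝ) {m : ℕ}
    (hm : 1 ≤ m) : ∃ u, Sys d m b σ q u := by
  obtain ⟨W, hw⟩ := exists_weight (d := d) (ellq_continuous hq) (ellq_one q)
  obtain ⟨B, hB0, hB⟩ : ∃ B : ℝ, 0 ≤ B ∧ ∀ k, k < m → |b k| ≤ B := by
    refine ⟨∑ k ∈ Finset.range m, |b k|, Finset.sum_nonneg fun k _ => by positivity, ?_⟩
    intro k hk
    exact Finset.single_le_sum (f := fun k => |b k|) (s := Finset.range m)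
      (fun k _ => by positivity) (Finset.mem_range.mpr hk)
  have hc : ∀ v : ℝ →ᵇ ℝ, Continuous (fun r => v r * W r) := fun v => v.continuous.mul hw.cW
  let Φ : (ℝ →ᵇ ℝ) → (ℝ →ᵇ ℝ) := fun v =>
    BoundedContinuousFunction.ofNormedAddCommGroup
      (fun r => lev d b (tex σ q (fun r => v r * W r)) m r / W r)
      ((lev_continuous (tex_continuous hq (hc v)) m).div hw.cW fun r => (hw.W0 r).ne')
      (1 / 4 + 4 / 3 * B) (fun r => by
        rw [Real.norm_eq_abs, abs_div, abs_of_pos (hw.W0 r), div_le_iff₀ (hw.W0 r)]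
        exact lev_bound hσ hq hw (hc v) hm hB0 hB r)
  have hΦ : ContractingWith (1 / 4 : ℝ≥0) Φ := by
    refine ⟨by rw [← NNReal.coe_lt_coe]; norm_num, ?_⟩
    apply LipschitzWith.of_dist_le_mul
    intro v w
    rw [BoundedContinuousFunction.dist_le (by positivity)]
    intro r
    have hdist : ∀ r, |v r - w r| ≤ dist v w := fun r => by
      rw [← Real.dist_eq]
      exact BoundedContinuousFunction.dist_coe_le_dist r
    have h1 := lev_diff hw (b := b) (c := b) (F := tex σ q (fun r => v r * W r))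
      (G := tex σ q (fun r => w r * W r))
      (tex_continuous hq (hc v)) (tex_continuous hq (hc w)) (dist_nonneg (x := v) (y := w)) le_rfl
      (fun r _ => by
        have h2 := tex_lip hσ q (fun r => v r * W r) (fun r => w r * W r) r
        have h4 : Real.exp (q r) ≤ ellq q r := by unfold ellq; linarith
        have h5 : |v r * W r - w r * W r| ≤ dist v w * W r := by
          rw [← sub_mul, abs_mul, abs_of_pos (hw.W0 r)]
          exact mul_le_mul_of_nonneg_right (hdist r) (hw.W0 r).le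
        calc _ ≤ Real.exp (q r) * |v r * W r - w r * W r| := h2
          _ ≤ ellq q r * (dist v w * W r) := by
            apply mul_le_mul h4 h5 (abs_nonneg _)
            linarith [hw.l1 r]
          _ = _ := by ring) (m := m) (fun k _ => by simp) hm le_rfl r
    change dist (lev d b (tex σ q (fun r => v r * W r)) m r / W r)
      (lev d b (tex σ q (fun r => w r * W r)) m r / W r) ≤ _
    rw [Real.dist_eq, ← sub_div, abs_div, abs_of_pos (hw.W0 r), div_le_iff₀ (hw.W0 r)]
    refine h1.trans ?_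
    have : ((1 / 4 : ℝ≥0) : ℝ) = 1 / 4 := by norm_num
    rw [this]
    apply le_of_eq
    ring
  let v := ContractingWith.fixedPoint Φ hΦ
  have hv : Φ v = v := ContractingWith.fixedPoint_isFixedPt hΦ
  refine ⟨fun r => v r * W r, hc v, ?_⟩
  intro r
  have h1 : (Φ v) r = v r := by rw [hv]
  change lev d b (tex σ q (fun r => v r * W r)) m r / W r = v r at h1
  rw [div_eq_iff (hw.W0 r).ne'] at h1
  exact h1.symm

theorem Sys.even {σ : ℝ} {q u : ℝ → ℝ} {b : ℕ → ℝ} {m : ℕ} (hm : 1 ≤ m) (h : Sys d m b σ q u)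
    (r : ℝ) : u |r| = u r := by
  obtain ⟨k, rfl⟩ : ∃ k, m = k + 1 := ⟨m - 1, by omega⟩
  rw [h.eq r, h.eq |r|, lev_abs]

end Pool.Agent.R207.PH
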