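import Mathlib

set_option autoImplicit false

/-! # Laplacian calculus on Euclidean space -/

namespace Pool.Agent.R207.QC

open MeasureTheory Real Set Filter Topology InnerProductSpace Laplacian
open scoped ContDiff

/-- Euclidean space -/
abbrev E (n : ℕ) := EuclideanSpace ℝ (Fin n)

variable {n : ℕ}

/-- partial derivative -/
noncomputable def Pd (i : Fin n) (f : E n → ℝ) : E n → ℝ :=
  fun x => fderiv ℝ f x (EuclideanSpace.single i 1)

theorem lap_eq {f : E n → ℝ} {x : E n} (hf : ContDiffAt ℝ 2 f x) :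
    Δ f x = ∑ i, Pd i (Pd i f) x := by
  rw [laplacian_eq_iteratedFDeriv_orthonormalBasis f (EuclideanSpace.basisFun (Fin n) ℝ)]
  apply Finset.sum_congr rfl
  intro i _
  rw [iteratedFDeriv_two_apply]
  simp only [EuclideanSpace.basisFun_apply, Matrix.cons_val_zero, Matrix.cons_val_one]
  unfold Pd
  have hd : DifferentiableAt ℝ (fderiv ℝ f) x :=
    (hf.fderiv_right (m := 1) (by norm_num)).differentiableAt (by norm_num)
  rw [fderiv_clm_apply hd (differentiableAt_const _)]
  simp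

theorem Pd_smooth {f : E n → ℝ} (hf : ContDiff ℝ ∞ f) (i : Fin n) : ContDiff ℝ ∞ (Pd i f) := by
  unfold Pd
  exact (hf.fderiv_right (m := ∞) (by simp)).clm_apply contDiff_const

theorem lap_smooth {f : E n → ℝ} (hf : ContDiff ℝ ∞ f) : ContDiff ℝ ∞ (Δ f) := by
  have h : Δ f = fun x => ∑ i, Pd i (Pd i f) x := by
    ext x
    exact lap_eq (contDiff_infty.mp hf 2).contDiffAt
  rw [h]
  exact ContDiff.sum fun i _ => Pd_smooth (Pd_smooth hf i) i

theorem Pd_add {f g : E n → ℝ} (hf : ContDiff ℝ ∞ f) (hg : ContDiff ℝ ∞ g) (i : Fin n) :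
    Pd i (fun x => f x + g x) = fun x => Pd i f x + Pd i g x := by
  ext x
  unfold Pd
  rw [fderiv_fun_add (hf.differentiable (by simp) x) (hg.differentiable (by simp) x)]
  rfl

theorem Pd_const_mul {f : E n → ℝ} (hf : ContDiff ℝ ∞ f) (c : ℝ) (i : Fin n) :
    Pd i (fun x => c * f x) = fun x => c * Pd i f x := by
  ext x
  unfold Pd
  rw [fderiv_const_mul (hf.differentiable (by simp) x)]
  rfl

theorem Pd_mul {f g : E n → ℝ} (hf : ContDiff ℝ ∞ f) (hg : ContDiff ℝ ∞ g) (i : Fin n) :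
    Pd i (fun x => f x * g x) = fun x => f x * Pd i g x + g x * Pd i f x := by
  ext x
  unfold Pd
  rw [fderiv_fun_mul (hf.differentiable (by simp) x) (hg.differentiable (by simp) x)]
  simp

theorem lap_eq' {f : E n → ℝ} (hf : ContDiff ℝ ∞ f) : Δ f = fun x => ∑ i, Pd i (Pd i f) x := by
  ext x
  exact lap_eq (contDiff_infty.mp hf 2).contDiffAt

theorem lap_add {f g : E n → ℝ} (hf : ContDiff ℝ ∞ f) (hg : ContDiff ℝ ∞ g) :
    Δ (fun x => f x + g x) = fun x => Δ f x + Δ g x := by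
  rw [lap_eq' (hf.add hg), lap_eq' hf, lap_eq' hg]
  ext x
  rw [← Finset.sum_add_distrib]
  apply Finset.sum_congr rfl
  intro i _
  rw [Pd_add hf hg, Pd_add (Pd_smooth hf i) (Pd_smooth hg i)]

theorem lap_const_mul {f : E n → ℝ} (hf : ContDiff ℝ ∞ f) (c : ℝ) :
    Δ (fun x => c * f x) = fun x => c * Δ f x := by
  rw [lap_eq' (contDiff_const.mul hf), lap_eq' hf]
  ext x
  rw [Finset.mul_sum]
  apply Finset.sum_congr rfl
  intro i _
  rw [Pd_const_mul hf, Pd_const_mul (Pd_smooth hf i)]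

theorem lap_mul {f g : E n → ℝ} (hf : ContDiff ℝ ∞ f) (hg : ContDiff ℝ ∞ g) :
    Δ (fun x => f x * g x) =
      fun x => f x * Δ g x + g x * Δ f x + 2 * ∑ i, Pd i f x * Pd i g x := by
  rw [lap_eq' (hf.mul hg), lap_eq' hf, lap_eq' hg]
  ext x
  rw [Finset.mul_sum, Finset.mul_sum, Finset.mul_sum, ← Finset.sum_add_distrib,
    ← Finset.sum_add_distrib]
  apply Finset.sum_congr rfl
  intro i _
  rw [Pd_mul hf hg]
  have h1 := Pd_add (hf.mul (Pd_smooth hg i)) (hg.mul (Pd_smooth hf i)) i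
  rw [h1]
  simp only
  rw [Pd_mul hf (Pd_smooth hg i), Pd_mul hg (Pd_smooth hf i)]
  ring

/-- coordinate -/
def co (j : Fin n) : E n → ℝ := fun x => x j

/-- squared norm -/
noncomputable def qq : E n → ℝ := fun x => ‖x‖ ^ 2

theorem co_smooth (j : Fin n) : ContDiff ℝ ∞ (co j) := by
  unfold co
  exact (EuclideanSpace.proj (𝕜 := ℝ) j).contDiff

theorem qq_smooth : ContDiff ℝ ∞ (qq (n := n)) := by
  unfold qq
  exact contDiff_norm_sq ℝ

theorem Pd_co (i j : Fin n) : Pd i (co j) = fun _ => if j = i then 1 else 0 := by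
  ext x
  unfold Pd co
  have h : HasFDerivAt (fun x : E n => x j) (EuclideanSpace.proj (𝕜 := ℝ) j : E n →L[ℝ] ℝ) x :=
    (EuclideanSpace.proj (𝕜 := ℝ) j : E n →L[ℝ] ℝ).hasFDerivAt
  rw [h.fderiv]
  simp

theorem Pd_qq (i : Fin n) : Pd i (qq (n := n)) = fun x => 2 * co i x := by
  ext x
  unfold Pd qq co
  have h : HasFDerivAt (fun x : E n => ‖x‖ ^ 2) (2 • (innerSL ℝ x)) x :=
    (hasStrictFDerivAt_norm_sq x).hasFDerivAt
  rw [h.fderiv]
  simp [EuclideanSpace.inner_single_right]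

theorem lap_qq : Δ (qq (n := n)) = fun _ => 2 * (n : ℝ) := by
  rw [lap_eq' qq_smooth]
  ext x
  have h : ∀ i : Fin n, Pd i (Pd i (qq (n := n))) x = 2 := by
    intro i
    rw [Pd_qq, Pd_const_mul (co_smooth i), Pd_co]
    simp
  simp only [h, Finset.sum_const, Finset.card_univ, Fintype.card_fin, nsmul_eq_mul]
  ring

theorem lap_co (j : Fin n) : Δ (co j) = fun _ => 0 := by
  rw [lap_eq' (co_smooth j)]
  ext x
  apply Finset.sum_eq_zero
  intro i _
  rw [Pd_co]
  unfold Pd
  simp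

theorem sum_co_sq (x : E n) : ∑ i, co i x * co i x = qq x := by
  unfold co qq
  rw [EuclideanSpace.norm_sq_eq]
  apply Finset.sum_congr rfl
  intro i _
  rw [Real.norm_eq_abs, sq_abs]; ring

theorem lap_const (c : ℝ) : Δ (fun _ : E n => c) = fun _ => 0 := by
  ext x
  simp

/-- radial functions -/
theorem lap_radial {G G1 G2 : ℝ → ℝ} (h1 : ∀ s, 0 < s → HasDerivAt G (G1 s) s)
    (h2 : ∀ s, 0 < s → HasDerivAt G1 (G2 s) s) (hG : ∀ s, 0 < s → ContDiffAt ℝ 2 G s) {x : E n}
    (hx : x ≠ 0) : Δ (fun y => G (qq y)) x = 4 * qq x * G2 (qq x) + 2 * n * G1 (qq x) := by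
  have hq : ∀ y : E n, y ≠ 0 → 0 < qq y := by
    intro y hy
    unfold qq
    have := norm_pos_iff.mpr hy
    positivity
  have hqd : ∀ y : E n, HasFDerivAt (qq (n := n)) (fderiv ℝ qq y) y := fun y =>
    (qq_smooth.differentiable (by simp) y).hasFDerivAt
  have hP1 : ∀ i : Fin n, ∀ y : E n, y ≠ 0 →
      Pd i (fun y => G (qq y)) y = G1 (qq y) * (2 * co i y) := by
    intro i y hy
    have h := (h1 (qq y) (hq y hy)).comp_hasFDerivAt y (hqd y)
    have h3 : fderiv ℝ (fun y => G (qq y)) y = G1 (qq y) • fderiv ℝ qq y := h.fderiv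
    unfold Pd
    rw [h3]
    have h4 := congrFun (Pd_qq i) y
    unfold Pd at h4
    simp only [smul_apply, smul_eq_mul, h4]
  have hP2 : ∀ i : Fin n, Pd i (Pd i (fun y => G (qq y))) x =
      4 * (co i x * co i x) * G2 (qq x) + 2 * G1 (qq x) := by
    intro i
    have he : Pd i (fun y => G (qq y)) =ᶠ[𝓝 x] fun y => G1 (qq y) * (2 * co i y) := by
      filter_upwards [isOpen_ne.mem_nhds hx] with y hy
      exact hP1 i y hy
    have e0 : Pd i (Pd i (fun y => G (qq y))) x = Pd i (fun y => G1 (qq y) * (2 * co i y)) x := by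
      unfold Pd at he ⊢
      rw [he.fderiv_eq]
    rw [e0]
    have ha : HasFDerivAt (fun y => G1 (qq y)) (G2 (qq x) • fderiv ℝ qq x) x :=
      (h2 (qq x) (hq x hx)).comp_hasFDerivAt x (hqd x)
    have hb : HasFDerivAt (fun y : E n => 2 * co i y) (fderiv ℝ (fun y : E n => 2 * co i y) x) x :=
      ((contDiff_const.mul (co_smooth i)).differentiable (by simp) x).hasFDerivAt
    have hc : HasFDerivAt (fun y => G1 (qq y) * (2 * co i y)) _ x := ha.mul hb
    unfold Pd
    rw [hc.fderiv]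
    have h4 := congrFun (Pd_qq i) x
    have h5 := congrFun (Pd_const_mul (co_smooth i) 2 i) x
    rw [Pd_co] at h5
    unfold Pd at h4 h5
    simp only [add_apply, smul_apply, smul_eq_mul, h4, h5]
    simp
    ring
  have hcd : ContDiffAt ℝ 2 (fun y => G (qq y)) x :=
    (hG (qq x) (hq x hx)).comp x (contDiff_infty.mp qq_smooth 2).contDiffAt
  rw [lap_eq hcd]
  simp only [hP2]
  rw [Finset.sum_add_distrib, ← Finset.sum_mul, ← Finset.mul_sum, sum_co_sq]
  simp only [Finset.sum_const, Finset.card_univ, Fintype.card_fin, nsmul_eq_mul]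
  ring

/-- minus the Laplacian -/
noncomputable def NL (f : E n → ℝ) : E n → ℝ := fun x => -Δ f x

theorem NL_smooth {f : E n → ℝ} (hf : ContDiff ℝ ∞ f) : ContDiff ℝ ∞ (NL f) := (lap_smooth hf).neg

theorem NL_iter_smooth {f : E n → ℝ} (hf : ContDiff ℝ ∞ f) (k : ℕ) : ContDiff ℝ ∞ (NL^[k] f) := by
  induction k with
  | zero => exact hf
  | succ k ih => rw [Function.iterate_succ_apply']; exact NL_smooth ih

theorem NL_iter_add {f g : E n → ℝ} (hf : ContDiff ℝ ∞ f) (hg : ContDiff ℝ ∞ g) (k : ℕ) :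
    NL^[k] (fun x => f x + g x) = fun x => NL^[k] f x + NL^[k] g x := by
  induction k with
  | zero => rfl
  | succ k ih =>
    rw [Function.iterate_succ_apply', ih, Function.iterate_succ_apply', Function.iterate_succ_apply']
    ext x
    have := congrFun (lap_add (NL_iter_smooth hf k) (NL_iter_smooth hg k)) x
    change -Δ (fun x => NL^[k] f x + NL^[k] g x) x = -Δ (NL^[k] f) x + -Δ (NL^[k] g) x
    rw [this]
    ring

theorem NL_iter_const_mul {f : E n → ℝ} (hf : ContDiff ℝ ∞ f) (c : ℝ) (k : ℕ) :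
    NL^[k] (fun x => c * f x) = fun x => c * NL^[k] f x := by
  induction k with
  | zero => rfl
  | succ k ih =>
    rw [Function.iterate_succ_apply', ih, Function.iterate_succ_apply']
    ext x
    have := congrFun (lap_const_mul (NL_iter_smooth hf k) c) x
    change -Δ (fun x => c * NL^[k] f x) x = c * -Δ (NL^[k] f) x
    rw [this]
    ring

end Pool.Agent.R207.QC
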