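import Pool.Agent.R207.PH2
import Pool.Agent.R207.QC1

set_option autoImplicit false

/-! # Lifting radial functions to Euclidean space -/

namespace Pool.Agent.R207.PH

open MeasureTheory Real Set Filter Topology InnerProductSpace Laplacian
open scoped ContDiff
open Pool.Agent.R207.QC (E Pd qq co lap_eq)

theorem param_smooth {X : Type} [NormedAddCommGroup X] [NormedSpace ℝ X] [FiniteDimensional ℝ X]
    (k : ℕ) : ∀ {G : Type} [NormedAddCommGroup G] [NormedSpace ℝ G] (F : X → G) (g : ℝ → ℝ),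
      Continuous g → ContDiff ℝ k F → ContDiff ℝ k (fun x => ∫ τ in (0 : ℝ)..1, g τ • F (τ • x)) := by
  induction k with
  | zero =>
    intro G _ _ F g hg hF
    have hFc : Continuous F := hF.continuous
    rw [Nat.cast_zero, contDiff_zero]
    apply intervalIntegral.continuous_parametric_intervalIntegral_of_continuous'
    unfold Function.uncurry
    fun_prop
  | succ k ih =>
    intro G _ _ F g hg hF
    have hFc : Continuous F := hF.continuous
    have hd : ∀ x, HasFDerivAt F (fderiv ℝ F x) x := fun x =>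
      (hF.differentiable (by simp) x).hasFDerivAt
    have hF' : ContDiff ℝ k (fderiv ℝ F) := hF.fderiv_right (by norm_cast)
    have hF'c : Continuous (fderiv ℝ F) := hF'.continuous
    have h1 := ih (fderiv ℝ F) (fun τ => g τ * τ) (hg.mul continuous_id) hF'
    have hcast : ((k + 1 : ℕ) : WithTop ℕ∞) = (k : WithTop ℕ∞) + 1 := by norm_cast
    rw [hcast, contDiff_succ_iff_hasFDerivAt]
    refine ⟨_, h1, ?_⟩
    intro x
    obtain ⟨C, hC⟩ : ∃ C : ℝ, ∀ y ∈ Metric.closedBall (0 : X) (‖x‖ + 1), ‖fderiv ℝ F y‖ ≤ C :=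
      (isCompact_closedBall (0 : X) (‖x‖ + 1)).exists_bound_of_continuousOn hF'c.continuousOn
    obtain ⟨D, hD⟩ : ∃ D : ℝ, ∀ τ ∈ Icc (0 : ℝ) 1, ‖g τ * τ‖ ≤ D :=
      isCompact_Icc.exists_bound_of_continuousOn (hg.mul continuous_id).continuousOn
    have hC0 : 0 ≤ C := (norm_nonneg _).trans (hC 0 (by simp; positivity))
    have hD0 : 0 ≤ D := (norm_nonneg _).trans (hD 0 (by simp))
    have : SecondCountableTopologyEither ℝ (X →L[ℝ] G) :=
      secondCountableTopologyEither_of_left ℝ (X →L[ℝ] G)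
    refine intervalIntegral.hasFDerivAt_integral_of_dominated_of_fderiv_le
      (F := fun x τ => g τ • F (τ • x)) (F' := fun x τ => (g τ * τ) • fderiv ℝ F (τ • x))
      (s := Metric.ball x 1) (bound := fun _ => D * C) (Metric.ball_mem_nhds x one_pos) ?_ ?_ ?_ ?_ ?_ ?_
    · refine Eventually.of_forall fun y => ?_
      apply Continuous.aestronglyMeasurable
      fun_prop
    · apply Continuous.intervalIntegrable
      fun_prop
    · apply Continuous.aestronglyMeasurable
      fun_prop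
    · refine Eventually.of_forall fun τ hτ y hy => ?_
      rw [uIoc_of_le zero_le_one] at hτ
      have hτ' : τ ∈ Icc (0 : ℝ) 1 := ⟨hτ.1.le, hτ.2⟩
      rw [norm_smul]
      apply mul_le_mul (hD τ hτ') _ (norm_nonneg _) hD0
      apply hC
      rw [mem_closedBall_zero_iff, norm_smul, Real.norm_of_nonneg hτ'.1]
      have h2 : ‖y‖ ≤ ‖x‖ + 1 := by
        have h3 : ‖y - x‖ < 1 := by
          rw [← dist_eq_norm]; exact hy
        calc ‖y‖ = ‖x + (y - x)‖ := by congr 1; abel
          _ ≤ ‖x‖ + ‖y - x‖ := norm_add_le _ _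
          _ ≤ _ := by linarith
      nlinarith [norm_nonneg y, hτ'.1, hτ'.2]
    · exact continuous_const.intervalIntegrable _ _
    · refine Eventually.of_forall fun τ _ y _ => ?_
      have h2 : HasFDerivAt (fun y : X => τ • y) (τ • ContinuousLinearMap.id ℝ X) y :=
        (hasFDerivAt_id y).const_smul τ
      have h3 := ((hd (τ • y)).comp y h2).const_smul (g τ)
      refine h3.congr_fderiv ?_
      ext v
      simp [mul_smul]

variable {n d : ℕ}

/-- the function `S` with `S (r^2) = T f r` -/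
noncomputable def SS (d : ℕ) (f : ℝ → ℝ) (s : ℝ) : ℝ :=
  ∫ t in (0 : ℝ)..s, (1 / 2) * avg d f (Real.sqrt |t|)

theorem SS_deriv {f : ℝ → ℝ} (hf : Continuous f) (s : ℝ) :
    HasDerivAt (SS d f) ((1 / 2) * avg d f (Real.sqrt |s|)) s := by
  have hc : Continuous (fun t : ℝ => (1 / 2) * avg d f (Real.sqrt |t|)) :=
    continuous_const.mul ((avg_continuous hf).comp (Real.continuous_sqrt.comp continuous_abs))
  exact intervalIntegral.integral_hasDerivAt_right (hc.intervalIntegrable _ _)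
    (hc.stronglyMeasurableAtFilter _ _) hc.continuousAt

theorem T_eq_SS {f : ℝ → ℝ} (hf : Continuous f) {r : ℝ} (hr : 0 ≤ r) :
    T d f r = SS d f (r ^ 2) := by
  rw [T_of_nonneg hr]
  have h1 : ∀ s ∈ uIcc 0 r, HasDerivAt (fun s => SS d f (s ^ 2)) (s * avg d f s) s := by
    intro s hs
    rw [uIcc_of_le hr] at hs
    have h2 := (SS_deriv (d := d) hf (s ^ 2)).comp s (hasDerivAt_pow 2 s)
    refine h2.congr_deriv ?_
    rw [abs_of_nonneg (sq_nonneg s), Real.sqrt_sq hs.1]
    push_cast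
    ring
  rw [intervalIntegral.integral_eq_sub_of_hasDerivAt h1 ((savg_continuous hf).intervalIntegrable _ _)]
  have : SS d f (0 ^ 2) = 0 := by
    unfold SS
    simp
  rw [this, sub_zero]

theorem lift_eq {f : ℝ → ℝ} (hf : Continuous f) (x : E n) : T d f ‖x‖ = SS d f (qq x) :=
  T_eq_SS hf (norm_nonneg x)

theorem lift_fderiv {f : ℝ → ℝ} (hf : Continuous f) (x : E n) :
    HasFDerivAt (fun x : E n => T d f ‖x‖) (avg d f ‖x‖ • (innerSL ℝ x)) x := by
  have h0 : (fun x : E n => T d f ‖x‖) = fun x => SS d f (qq x) := by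
    ext x
    exact lift_eq hf x
  rw [h0]
  have h : HasFDerivAt (fun x : E n => ‖x‖ ^ 2) (2 • (innerSL ℝ x)) x :=
    (hasStrictFDerivAt_norm_sq x).hasFDerivAt
  have h1 := (SS_deriv (d := d) hf (qq x)).comp_hasFDerivAt x h
  refine h1.congr_fderiv ?_
  have e1 : Real.sqrt |qq x| = ‖x‖ := by
    unfold Pool.Agent.R207.QC.qq
    rw [abs_of_nonneg (sq_nonneg _), Real.sqrt_sq (norm_nonneg _)]
  rw [e1]
  ext v
  simp
  ring

theorem lift_avg {f : ℝ → ℝ} (x : E n) :
    avg d f ‖x‖ = ∫ τ in (0 : ℝ)..1, τ ^ d • (fun x : E n => f ‖x‖) (τ • x) := by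
  unfold avg
  apply intervalIntegral.integral_congr
  intro τ hτ
  rw [uIcc_of_le zero_le_one] at hτ
  simp only [smul_eq_mul]
  rw [norm_smul, Real.norm_of_nonneg hτ.1, mul_comm ‖x‖ τ]

theorem lift_avg_smooth {f : ℝ → ℝ} {k : ℕ} (hf : ContDiff ℝ k (fun x : E n => f ‖x‖)) :
    ContDiff ℝ k (fun x : E n => avg d f ‖x‖) := by
  have h0 : (fun x : E n => avg d f ‖x‖) =
      fun x => ∫ τ in (0 : ℝ)..1, τ ^ d • (fun x : E n => f ‖x‖) (τ • x) := by
    ext x
    exact lift_avg x
  rw [h0]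
  exact param_smooth k _ _ (continuous_pow d) hf

theorem lift_T_smooth {f : ℝ → ℝ} (hfc : Continuous f) {k : ℕ}
    (hf : ContDiff ℝ k (fun x : E n => f ‖x‖)) :
    ContDiff ℝ (k + 1 : ℕ) (fun x : E n => T d f ‖x‖) := by
  have hcast : ((k + 1 : ℕ) : WithTop ℕ∞) = (k : WithTop ℕ∞) + 1 := by norm_cast
  rw [hcast, contDiff_succ_iff_hasFDerivAt]
  refine ⟨fun x => avg d f ‖x‖ • (innerSL ℝ x), ?_, fun x => lift_fderiv hfc x⟩
  exact (lift_avg_smooth hf).smul (innerSL ℝ).contDiff

/-- Laplacian of a function of `|x|^2` -/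
theorem lap_radial' {G G1 G2 : ℝ → ℝ} (h1 : ∀ s, 0 < s → HasDerivAt G (G1 s) s)
    (h2 : ∀ s, 0 < s → HasDerivAt G1 (G2 s) s) {x : E n} (hcd : ContDiffAt ℝ 2 (fun y => G (qq y)) x)
    (hx : x ≠ 0) : Δ (fun y => G (qq y)) x = 4 * qq x * G2 (qq x) + 2 * n * G1 (qq x) := by
  have hq : ∀ y : E n, y ≠ 0 → 0 < qq y := by
    intro y hy
    unfold Pool.Agent.R207.QC.qq
    have := norm_pos_iff.mpr hy
    positivity
  have hqd : ∀ y : E n, HasFDerivAt (qq (n := n)) (fderiv ℝ qq y) y := fun y =>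
    (Pool.Agent.R207.QC.qq_smooth.differentiable (by simp) y).hasFDerivAt
  have hP1 : ∀ i : Fin n, ∀ y : E n, y ≠ 0 →
      Pd i (fun y => G (qq y)) y = G1 (qq y) * (2 * co i y) := by
    intro i y hy
    have h := (h1 (qq y) (hq y hy)).comp_hasFDerivAt y (hqd y)
    have h3 : fderiv ℝ (fun y => G (qq y)) y = G1 (qq y) • fderiv ℝ qq y := h.fderiv
    unfold Pool.Agent.R207.QC.Pd
    rw [h3]
    have h4 := congrFun (Pool.Agent.R207.QC.Pd_qq i) y
    unfold Pool.Agent.R207.QC.Pd at h4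
    simp only [smul_apply, smul_eq_mul, h4]
  have hP2 : ∀ i : Fin n, Pd i (Pd i (fun y => G (qq y))) x =
      4 * (co i x * co i x) * G2 (qq x) + 2 * G1 (qq x) := by
    intro i
    have he : Pd i (fun y => G (qq y)) =ᶠ[𝓝 x] fun y => G1 (qq y) * (2 * co i y) := by
      filter_upwards [isOpen_ne.mem_nhds hx] with y hy
      exact hP1 i y hy
    have e0 : Pd i (Pd i (fun y => G (qq y))) x = Pd i (fun y => G1 (qq y) * (2 * co i y)) x := by
      unfold Pool.Agent.R207.QC.Pd at he ⊢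
      rw [he.fderiv_eq]
    rw [e0]
    have ha : HasFDerivAt (fun y => G1 (qq y)) (G2 (qq x) • fderiv ℝ qq x) x :=
      (h2 (qq x) (hq x hx)).comp_hasFDerivAt x (hqd x)
    have hb : HasFDerivAt (fun y : E n => 2 * co i y) (fderiv ℝ (fun y : E n => 2 * co i y) x) x :=
      ((contDiff_const.mul (Pool.Agent.R207.QC.co_smooth i)).differentiable (by simp) x).hasFDerivAt
    have hc : HasFDerivAt (fun y => G1 (qq y) * (2 * co i y)) _ x := ha.mul hb
    unfold Pool.Agent.R207.QC.Pd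
    rw [hc.fderiv]
    have h4 := congrFun (Pool.Agent.R207.QC.Pd_qq i) x
    have h5 := congrFun (Pool.Agent.R207.QC.Pd_const_mul (Pool.Agent.R207.QC.co_smooth i) 2 i) x
    rw [Pool.Agent.R207.QC.Pd_co] at h5
    unfold Pool.Agent.R207.QC.Pd at h4 h5
    simp only [add_apply, smul_apply, smul_eq_mul, h4, h5]
    simp
    ring
  rw [lap_eq hcd]
  simp only [hP2]
  rw [Finset.sum_add_distrib, ← Finset.sum_mul, ← Finset.mul_sum, Pool.Agent.R207.QC.sum_co_sq]
  simp only [Finset.sum_const, Finset.card_univ, Fintype.card_fin, nsmul_eq_mul]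
  ring

theorem lap_continuous {F : E n → ℝ} (hF : ContDiff ℝ 2 F) : Continuous (Δ F) := by
  have h : Δ F = fun x => ∑ i, iteratedFDeriv ℝ 2 F x
      ![(EuclideanSpace.basisFun (Fin n) ℝ) i, (EuclideanSpace.basisFun (Fin n) ℝ) i] := by
    rw [laplacian_eq_iteratedFDeriv_orthonormalBasis F (EuclideanSpace.basisFun (Fin n) ℝ)]
  rw [h]
  apply continuous_finsetSum
  intro i _
  have h2 : Continuous (iteratedFDeriv ℝ 2 F) := hF.continuous_iteratedFDeriv (by norm_num)
  exact (ContinuousMultilinearMap.apply ℝ (fun _ : Fin 2 => E n) ℝ _).continuous.comp h2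

theorem avg_deriv {f : ℝ → ℝ} (hf : Continuous f) {r : ℝ} (hr : 0 < r) :
    HasDerivAt (avg d f) ((f r - (d + 1) * avg d f r) / r) r := by
  have h1 := (mass_hasDeriv (d := d) hf r).div (hasDerivAt_pow (d + 1) r) (pow_ne_zero _ hr.ne')
  have h2 : avg d f =ᶠ[𝓝 r] fun r => r ^ (d + 1) * avg d f r / r ^ (d + 1) := by
    filter_upwards [lt_mem_nhds hr] with s hs
    rw [mul_div_assoc, mul_comm, div_mul_cancel₀]
    exact pow_ne_zero _ hs.ne'
  refine (h1.congr_of_eventuallyEq h2).congr_deriv ?_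
  have hr' := hr.ne'
  field_simp
  push_cast
  ring

theorem lap_lift {f : ℝ → ℝ} (hn : n = d + 1) (hfc : Continuous f)
    (hf : ContDiff ℝ 1 (fun x : E n => f ‖x‖)) :
    Δ (fun x : E n => T d f ‖x‖) = fun x => f ‖x‖ := by
  have hX : ContDiff ℝ 2 (fun x : E n => T d f ‖x‖) := by
    have := lift_T_smooth (d := d) hfc (k := 1) (by exact_mod_cast hf)
    exact_mod_cast this
  have hnt : Nontrivial (E n) := by
    subst hn
    infer_instance
  have hNR : (n : ℝ) = d + 1 := by rw [hn]; push_cast; ring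
  apply Continuous.ext_on (dense_compl_singleton (0 : E n)) (lap_continuous hX) hf.continuous
  intro x hx
  have hx0 : x ≠ 0 := hx
  have h0 : (fun x : E n => T d f ‖x‖) = fun x => SS d f (qq x) := by
    ext x
    exact lift_eq hfc x
  have hxn : 0 < ‖x‖ := norm_pos_iff.mpr hx0
  rw [h0] at hX ⊢
  have h1 := lap_radial' (n := n) (G := SS d f) (G1 := fun s => (1 / 2) * avg d f (Real.sqrt |s|))
    (G2 := fun s => (f (Real.sqrt s) - (d + 1) * avg d f (Real.sqrt s)) / (4 * s))
    (fun s _ => SS_deriv hfc s)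
    (fun s hs => by
      have a1 := (Real.hasDerivAt_sqrt hs.ne')
      have a2 := (avg_deriv (d := d) hfc (Real.sqrt_pos.mpr hs)).comp s a1
      have a3 : (fun s => (1 / 2) * avg d f (Real.sqrt |s|)) =ᶠ[𝓝 s]
          fun s => (1 / 2) * (avg d f ∘ Real.sqrt) s := by
        filter_upwards [lt_mem_nhds hs] with t ht
        simp only [Function.comp]
        rw [abs_of_pos ht]
      refine ((a2.const_mul (1 / 2)).congr_of_eventuallyEq a3).congr_deriv ?_
      have a4 : Real.sqrt s * Real.sqrt s = s := Real.mul_self_sqrt hs.le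
      have a5 : Real.sqrt s ≠ 0 := (Real.sqrt_pos.mpr hs).ne'
      have a6 : (4 : ℝ) * s = 4 * (Real.sqrt s * Real.sqrt s) := by rw [a4]
      rw [a6]
      field_simp
      ring) (hX.contDiffAt (x := x)) hx0
  rw [h1]
  have e1 : Real.sqrt (qq x) = ‖x‖ := by
    unfold Pool.Agent.R207.QC.qq
    rw [Real.sqrt_sq (norm_nonneg _)]
  have e2 : |qq x| = qq x := by
    unfold Pool.Agent.R207.QC.qq
    exact abs_of_nonneg (sq_nonneg _)
  simp only [e1, e2]
  rw [hNR]
  have e3 : qq x ≠ 0 := by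
    unfold Pool.Agent.R207.QC.qq
    positivity
  field_simp
  ring

end Pool.Agent.R207.PH
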