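import Pool.Agent.R207.PH3

set_option autoImplicit false

/-! # Radial solutions in Euclidean space versus the integral system -/

namespace Pool.Agent.R207.PH

open MeasureTheory Real Set Filter Topology InnerProductSpace Laplacian
open scoped ContDiff
open Pool.Agent.R207.QC (E Pd qq co lap_eq)

variable {n d : ℕ}

theorem lift_lev_smooth {b : ℕ → ℝ} {F : ℝ → ℝ} (hFc : Continuous F) {k : ℕ}
    (hF : ContDiff ℝ k (fun x : E n => F ‖x‖)) (j : ℕ) :
    ContDiff ℝ k (fun x : E n => lev d b F j ‖x‖) ∧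
      ContDiff ℝ (k + 1 : ℕ) (fun x : E n => lev d b F (j + 1) ‖x‖) := by
  have step : ∀ j, ContDiff ℝ k (fun x : E n => lev d b F j ‖x‖) →
      ContDiff ℝ (k + 1 : ℕ) (fun x : E n => lev d b F (j + 1) ‖x‖) := by
    intro j hj
    exact contDiff_const.add (lift_T_smooth (lev_continuous hFc j) hj)
  induction j with
  | zero => exact ⟨hF, step 0 hF⟩
  | succ j ih =>
    have h1 : ContDiff ℝ k (fun x : E n => lev d b F (j + 1) ‖x‖) :=
      ih.2.of_le (by norm_cast; omega)
    exact ⟨h1, step _ h1⟩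

theorem tex_lift {σ : ℝ} {q u : ℝ → ℝ} (hle : ∀ r, 0 ≤ r → u r ≤ q r) (x : E n) :
    tex σ q u ‖x‖ = σ * Real.exp (u ‖x‖) := by
  unfold tex
  rw [min_eq_left (hle _ (norm_nonneg x))]

theorem Sys.smooth_nat {σ : ℝ} {q u : ℝ → ℝ} {b : ℕ → ℝ} {m : ℕ} (hm : 1 ≤ m) (hq : Continuous q)
    (h : Sys d m b σ q u) (hle : ∀ r, 0 ≤ r → u r ≤ q r) (k : ℕ) :
    ContDiff ℝ k (fun x : E n => u ‖x‖) := by
  induction k with
  | zero =>
    rw [Nat.cast_zero, contDiff_zero]
    exact h.cont.comp continuous_norm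
  | succ k ih =>
    obtain ⟨j, rfl⟩ : ∃ j, m = j + 1 := ⟨m - 1, by omega⟩
    have h1 : ContDiff ℝ k (fun x : E n => tex σ q u ‖x‖) := by
      have : (fun x : E n => tex σ q u ‖x‖) = fun x => σ * Real.exp (u ‖x‖) := by
        ext x
        exact tex_lift hle x
      rw [this]
      exact contDiff_const.mul (Real.contDiff_exp.comp ih)
    have h2 := (lift_lev_smooth (d := d) (b := b) (tex_continuous hq h.cont) h1 j).2
    have h3 : (fun x : E n => u ‖x‖) = fun x => lev d b (tex σ q u) (j + 1) ‖x‖ := by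
      ext x
      exact h.eq _
    rw [h3]
    exact h2

theorem Sys.smooth {σ : ℝ} {q u : ℝ → ℝ} {b : ℕ → ℝ} {m : ℕ} (hm : 1 ≤ m) (hq : Continuous q)
    (h : Sys d m b σ q u) (hle : ∀ r, 0 ≤ r → u r ≤ q r) :
    ContDiff ℝ ∞ (fun x : E n => u ‖x‖) :=
  contDiff_infty.mpr fun k => h.smooth_nat hm hq hle k

theorem Sys.lev_smooth {σ : ℝ} {q u : ℝ → ℝ} {b : ℕ → ℝ} {m : ℕ} (hm : 1 ≤ m) (hq : Continuous q)
    (h : Sys d m b σ q u) (hle : ∀ r, 0 ≤ r → u r ≤ q r) (j : ℕ) :
    ContDiff ℝ ∞ (fun x : E n => lev d b (tex σ q u) j ‖x‖) := by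
  apply contDiff_infty.mpr
  intro k
  have h1 : ContDiff ℝ k (fun x : E n => tex σ q u ‖x‖) := by
    have : (fun x : E n => tex σ q u ‖x‖) = fun x => σ * Real.exp (u ‖x‖) := by
      ext x
      exact tex_lift hle x
    rw [this]
    exact contDiff_const.mul (Real.contDiff_exp.comp (h.smooth_nat hm hq hle k))
  exact (lift_lev_smooth (d := d) (b := b) (tex_continuous hq h.cont) h1 j).1

theorem Sys.lap_lev {σ : ℝ} {q u : ℝ → ℝ} {b : ℕ → ℝ} {m : ℕ} (hn : n = d + 1) (hm : 1 ≤ m)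
    (hq : Continuous q) (h : Sys d m b σ q u) (hle : ∀ r, 0 ≤ r → u r ≤ q r) (j : ℕ) :
    Δ (fun x : E n => lev d b (tex σ q u) (j + 1) ‖x‖) =
      fun x => lev d b (tex σ q u) j ‖x‖ := by
  have hj := h.lev_smooth (n := n) hm hq hle j
  have hc := lev_continuous (d := d) (b := b) (tex_continuous (σ := σ) hq h.cont) j
  have h1 := lap_lift (n := n) (d := d) hn hc (hj.of_le (by simp))
  have hT : ContDiff ℝ ∞ (fun x : E n => T d (lev d b (tex σ q u) j) ‖x‖) := by
    have h2 := h.lev_smooth (n := n) hm hq hle (j + 1)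
    have h3 : (fun x : E n => T d (lev d b (tex σ q u) j) ‖x‖) =
        fun x => lev d b (tex σ q u) (j + 1) ‖x‖ - b j := by
      ext x
      rw [lev_succ]
      ring
    rw [h3]
    exact h2.sub contDiff_const
  have h4 := Pool.Agent.R207.QC.lap_add (n := n) (f := fun _ => b j) contDiff_const hT
  have h5 : (fun x : E n => lev d b (tex σ q u) (j + 1) ‖x‖) =
      fun x => b j + T d (lev d b (tex σ q u) j) ‖x‖ := by
    ext x
    rw [lev_succ]
  rw [h5, h4]
  ext x
  rw [congrFun h1 x, Pool.Agent.R207.QC.lap_const]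
  ring

theorem Sys.lap_iter {σ : ℝ} {q u : ℝ → ℝ} {b : ℕ → ℝ} {m : ℕ} (hn : n = d + 1) (hm : 1 ≤ m)
    (hq : Continuous q) (h : Sys d m b σ q u) (hle : ∀ r, 0 ≤ r → u r ≤ q r) {j : ℕ} (hj : j ≤ m) :
    (fun f : E n → ℝ => Δ f)^[j] (fun x : E n => u ‖x‖) =
      fun x => lev d b (tex σ q u) (m - j) ‖x‖ := by
  induction j with
  | zero =>
    ext x
    exact h.eq _
  | succ j ih =>
    rw [Function.iterate_succ_apply', ih (by omega)]
    obtain ⟨k, hk⟩ : ∃ k, m - j = k + 1 := ⟨m - j - 1, by omega⟩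
    have hk' : m - (j + 1) = k := by omega
    rw [hk, hk']
    exact h.lap_lev hn hm hq hle k

/-! ## from Euclidean space to the system -/

theorem radial_lap {F : E n → ℝ} (hF : ContDiff ℝ 2 F) (hr : ∀ x y, ‖x‖ = ‖y‖ → F x = F y)
    (hn : n = d + 1) (hd : 1 ≤ d) {e : E n} (he : ‖e‖ = 1) :
    (∀ x y, ‖x‖ = ‖y‖ → Δ F x = Δ F y) ∧
      ∀ r : ℝ, F (r • e) = F 0 + T d (fun s => Δ F (s • e)) r := by
  have hNR : (n : ℝ) = d + 1 := by rw [hn]; push_cast; ring
  have hne : ∀ r : ℝ, ‖r • e‖ = |r| := fun r => by rw [norm_smul, he, mul_one, Real.norm_eq_abs]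
  let f : ℝ → ℝ := fun r => F (r • e)
  let f1 : ℝ → ℝ := fun r => fderiv ℝ F (r • e) e
  let f2 : ℝ → ℝ := fun r => fderiv ℝ (fderiv ℝ F) (r • e) e e
  have hline : ∀ r : ℝ, HasDerivAt (fun r : ℝ => r • e) e r := fun r => by
    simpa using (hasDerivAt_id r).smul_const e
  have hf1 : ∀ r, HasDerivAt f (f1 r) r := fun r =>
    ((hF.differentiable (by norm_num) (r • e)).hasFDerivAt).comp_hasDerivAt r (hline r)
  have hF' : ContDiff ℝ 1 (fderiv ℝ F) := hF.fderiv_right (by norm_num)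
  have hf2 : ∀ r, HasDerivAt f1 (f2 r) r := fun r => by
    have h1 := ((hF'.differentiable (by norm_num) (r • e)).hasFDerivAt).comp_hasDerivAt r (hline r)
    have h2 := h1.clm_apply (hasDerivAt_const r e)
    refine h2.congr_deriv ?_
    simp [f2]
  have hfabs : ∀ r, f |r| = f r := fun r => hr _ _ (by rw [hne, hne, abs_abs])
  have hFG : F = fun x => (fun s => f (Real.sqrt s)) (qq x) := by
    ext x
    simp only [f]
    apply hr
    rw [hne]
    unfold Pool.Agent.R207.QC.qq
    rw [Real.sqrt_sq (norm_nonneg _), abs_norm]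
  have hlap : ∀ x : E n, x ≠ 0 → Δ F x = 4 * qq x * ((f2 (Real.sqrt (qq x)) -
      f1 (Real.sqrt (qq x)) / Real.sqrt (qq x)) / (4 * qq x)) +
      2 * n * (f1 (Real.sqrt (qq x)) / (2 * Real.sqrt (qq x))) := by
    intro x hx
    have hcd : ContDiffAt ℝ 2 (fun x => (fun s => f (Real.sqrt s)) (qq x)) x := by
      rw [← hFG]
      exact hF.contDiffAt
    have h1 := lap_radial' (n := n) (G := fun s => f (Real.sqrt s))
      (G1 := fun s => f1 (Real.sqrt s) / (2 * Real.sqrt s))
      (G2 := fun s => (f2 (Real.sqrt s) - f1 (Real.sqrt s) / Real.sqrt s) / (4 * s))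
      (fun s hs => by
        have a1 := (hf1 (Real.sqrt s)).comp s (Real.hasDerivAt_sqrt hs.ne')
        refine a1.congr_deriv ?_
        ring)
      (fun s hs => by
        have a0 := Real.hasDerivAt_sqrt hs.ne'
        have a1 := (hf2 (Real.sqrt s)).comp s a0
        have a5 : Real.sqrt s ≠ 0 := (Real.sqrt_pos.mpr hs).ne'
        have a2 := a1.div (a0.const_mul 2) (by positivity)
        refine a2.congr_deriv ?_
        have a4 : Real.sqrt s * Real.sqrt s = s := Real.mul_self_sqrt hs.le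
        have a6 : (4 : ℝ) * s = 4 * (Real.sqrt s * Real.sqrt s) := by rw [a4]
        rw [a6]
        simp only [Function.comp]
        field_simp
        ring) hcd hx
    rw [← hFG] at h1
    exact h1
  have hrad : ∀ x y, ‖x‖ = ‖y‖ → Δ F x = Δ F y := by
    intro x y hxy
    rcases eq_or_ne x 0 with h | h
    · have : y = 0 := by
        rw [← norm_eq_zero, ← hxy, h, norm_zero]
      rw [h, this]
    · have h' : y ≠ 0 := by
        rw [← norm_ne_zero_iff, ← hxy]
        exact norm_ne_zero_iff.mpr h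
      rw [hlap x h, hlap y h']
      unfold Pool.Agent.R207.QC.qq
      rw [hxy]
  refine ⟨hrad, ?_⟩
  have hlapr : ∀ r : ℝ, 0 < r → Δ F (r • e) = f2 r + d * (f1 r / r) := by
    intro r hr0
    have h0 : r • e ≠ 0 := by
      rw [← norm_ne_zero_iff, hne]
      positivity
    rw [hlap _ h0]
    have e1 : Real.sqrt (qq (r • e)) = r := by
      unfold Pool.Agent.R207.QC.qq
      rw [hne, sq_abs, Real.sqrt_sq hr0.le]
    have e2 : qq (r • e) = r ^ 2 := by
      unfold Pool.Agent.R207.QC.qq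
      rw [hne, sq_abs]
    rw [e1, e2, hNR]
    field_simp
    ring
  set g : ℝ → ℝ := fun s => Δ F (s • e) with hg
  have hgc : Continuous g := by
    apply (lap_continuous hF).comp
    exact continuous_id.smul continuous_const
  have hf1c : Continuous f1 := continuous_iff_continuousAt.mpr fun r => (hf2 r).continuousAt
  have hfc : Continuous f := continuous_iff_continuousAt.mpr fun r => (hf1 r).continuousAt
  have hmass : ∀ r : ℝ, 0 ≤ r → r ^ d * f1 r = r ^ (d + 1) * avg d g r := by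
    intro r hr0
    rw [mass_eq]
    have h1 := intervalIntegral.integral_eq_sub_of_hasDerivAt_of_le (f := fun r => r ^ d * f1 r)
      (f' := fun t => t ^ d * g t) hr0 ((continuous_pow d).mul hf1c).continuousOn
      (fun t ht => by
        have a1 := (hasDerivAt_pow d t).mul (hf2 t)
        refine a1.congr_deriv ?_
        have ht0 : 0 < t := ht.1
        have ht1 := ht0.ne'
        rw [hg]
        simp only
        rw [hlapr t ht0]
        obtain ⟨j, rfl⟩ : ∃ j, d = j + 1 := ⟨d - 1, by omega⟩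
        have : j + 1 - 1 = j := by omega
        rw [this, pow_succ]
        field_simp
        ring) (((continuous_pow d).mul hgc).intervalIntegrable _ _)
    rw [h1]
    have : (0 : ℝ) ^ d = 0 := zero_pow (by omega)
    simp only [this]
    ring
  have hf1' : ∀ r : ℝ, 0 < r → f1 r = r * avg d g r := by
    intro r hr0
    have h1 := hmass r hr0.le
    have h2 : r ^ d ≠ 0 := pow_ne_zero _ hr0.ne'
    rw [pow_succ, mul_assoc] at h1
    exact mul_left_cancel₀ h2 h1
  have hmain : ∀ r : ℝ, 0 ≤ r → f r = F 0 + T d g r := by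
    intro r hr0
    rw [T_of_nonneg hr0]
    have h1 := intervalIntegral.integral_eq_sub_of_hasDerivAt_of_le (f := f)
      (f' := fun t => t * avg d g t) hr0 hfc.continuousOn
      (fun t ht => by
        have := hf1 t
        rwa [hf1' t ht.1] at this) ((savg_continuous hgc).intervalIntegrable _ _)
    rw [h1]
    have : f 0 = F 0 := by simp [f]
    rw [this]
    ring
  intro r
  have h1 := hmain |r| (abs_nonneg r)
  rw [hfabs, T_abs] at h1
  exact h1

theorem lap_contDiff {F : E n → ℝ} {k : ℕ} (hF : ContDiff ℝ (k + 2 : ℕ) F) :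
    ContDiff ℝ k (Δ F) := by
  have h2 : ContDiff ℝ 2 F := hF.of_le (by norm_cast; omega)
  have h : Δ F = fun x => ∑ i, Pd i (Pd i F) x := by
    ext x
    exact lap_eq h2.contDiffAt
  rw [h]
  apply ContDiff.sum
  intro i _
  have hP : ContDiff ℝ (k + 1 : ℕ) (Pd i F) := by
    unfold Pool.Agent.R207.QC.Pd
    exact (hF.fderiv_right (m := (k + 1 : ℕ)) (by norm_cast)).clm_apply contDiff_const
  unfold Pool.Agent.R207.QC.Pd at hP ⊢
  exact (hP.fderiv_right (m := (k : ℕ)) (by norm_cast)).clm_apply contDiff_const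

/-- iterated Laplacians of a radial function -/
theorem radial_iter {m : ℕ} {U : E n → ℝ} (hU : ContDiff ℝ (2 * m : ℕ) U)
    (hr : ∀ x y, ‖x‖ = ‖y‖ → U x = U y) (hn : n = d + 1) (hd : 1 ≤ d) {e : E n} (he : ‖e‖ = 1)
    {j : ℕ} (hj : j ≤ m) :
    ContDiff ℝ (2 * (m - j) : ℕ) ((fun f : E n → ℝ => Δ f)^[j] U) ∧
      ∀ x y, ‖x‖ = ‖y‖ → (fun f : E n → ℝ => Δ f)^[j] U x = (fun f : E n → ℝ => Δ f)^[j] U y := by
  induction j with
  | zero => exact ⟨by simpa using hU, hr⟩
  | succ j ih =>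
    obtain ⟨h1, h2⟩ := ih (by omega)
    rw [Function.iterate_succ_apply']
    have e1 : 2 * (m - j) = 2 * (m - (j + 1)) + 2 := by omega
    rw [e1] at h1
    have h3 : ContDiff ℝ 2 ((fun f : E n → ℝ => Δ f)^[j] U) := h1.of_le (by norm_cast; omega)
    exact ⟨lap_contDiff h1, (radial_lap h3 h2 hn hd he).1⟩

theorem radial_chain {m : ℕ} {U : E n → ℝ} (hU : ContDiff ℝ (2 * m : ℕ) U)
    (hr : ∀ x y, ‖x‖ = ‖y‖ → U x = U y) (hn : n = d + 1) (hd : 1 ≤ d) {e : E n} (he : ‖e‖ = 1)
    {b : ℕ → ℝ} (hb : ∀ j, j < m → (fun f : E n → ℝ => Δ f)^[j] U 0 = b (m - 1 - j))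
    {k : ℕ} (hk : k ≤ m) (r : ℝ) :
    (fun f : E n → ℝ => Δ f)^[m - k] U (r • e) =
      lev d b (fun s => (fun f : E n → ℝ => Δ f)^[m] U (s • e)) k r := by
  induction k generalizing r with
  | zero => rfl
  | succ k ih =>
    have hj : m - (k + 1) < m := by omega
    obtain ⟨h1, h2⟩ := radial_iter hU hr hn hd he hj.le
    have e1 : 2 * (m - (m - (k + 1))) = 2 * k + 2 := by omega
    rw [e1] at h1
    have h3 : ContDiff ℝ 2 ((fun f : E n → ℝ => Δ f)^[m - (k + 1)] U) :=
      h1.of_le (by norm_cast; omega)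
    have h4 := (radial_lap h3 h2 hn hd he).2 r
    rw [h4, lev_succ, hb _ hj]
    have e2 : m - 1 - (m - (k + 1)) = k := by omega
    rw [e2]
    have e3 : (fun s : ℝ => Δ ((fun f : E n → ℝ => Δ f)^[m - (k + 1)] U) (s • e)) =
        lev d b (fun s => (fun f : E n → ℝ => Δ f)^[m] U (s • e)) k := by
      ext s
      rw [← ih (by omega) s]
      have e4 : m - k = (m - (k + 1)) + 1 := by omega
      rw [e4, Function.iterate_succ_apply']
    rw [e3]

end Pool.Agent.R207.PH
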