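import Pool.Agent.R207.PH4

set_option autoImplicit false

/-! # Finiteness of the volume -/

namespace Pool.Agent.R207.PH

open MeasureTheory Real Set Filter Topology

variable {d : ℕ} {f g : ℝ → ℝ}

theorem anti_of_deriv {h h' : ℝ → ℝ} {R : ℝ} (hd : ∀ r, R ≤ r → HasDerivAt h (h' r) r)
    (hs : ∀ r, R ≤ r → h' r ≤ 0) {r s : ℝ} (hr : R ≤ r) (hrs : r ≤ s) : h s ≤ h r := by
  have h1 : AntitoneOn h (Ici R) := by
    apply antitoneOn_of_deriv_nonpos (convex_Ici R)
    · intro x hx
      exact (hd x hx).continuousAt.continuousWithinAt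
    · intro x hx
      rw [interior_Ici] at hx
      exact (hd x (le_of_lt hx)).differentiableAt.differentiableWithinAt
    · intro x hx
      rw [interior_Ici] at hx
      rw [(hd x (le_of_lt hx)).deriv]
      exact hs x (le_of_lt hx)
  exact h1 hr (hr.trans hrs) hrs

theorem T_congr (hf : Continuous f) (hg : Continuous g) (h : ∀ r, 0 ≤ r → f r = g r) (r : ℝ) :
    T d f r = T d g r :=
  le_antisymm (T_mono hf hg (fun s hs => (h s hs).le) r) (T_mono hg hf (fun s hs => (h s hs).ge) r)

theorem lev_congr {b : ℕ → ℝ} (hf : Continuous f) (hg : Continuous g)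
    (h : ∀ r, 0 ≤ r → f r = g r) (k : ℕ) (r : ℝ) (hr : 0 ≤ r) : lev d b f k r = lev d b g k r := by
  induction k generalizing r with
  | zero => exact h r hr
  | succ k ih =>
    rw [lev_succ, lev_succ, T_congr (lev_continuous hf k) (lev_continuous hg k) (fun s hs => ih s hs)]

theorem T_neg_ev (hf : Continuous f) {c : ℝ} (hc : 0 < c) (h : ∀ᶠ r in atTop, f r ≤ -c) :
    ∃ c' > 0, ∀ᶠ r in atTop, T d f r ≤ -c' * r ^ 2 := by
  obtain ⟨R0, hR0⟩ := eventually_atTop.mp h
  set R := max R0 1 with hR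
  have hR1 : 1 ≤ R := le_max_right _ _
  have hfR : ∀ r, R ≤ r → f r ≤ -c := fun r hr => hR0 r ((le_max_left _ _).trans hr)
  have hd1 : (0 : ℝ) < d + 1 := by positivity
  -- mass
  have h1 : ∀ r, R ≤ r → r ^ (d + 1) * avg d f r + c / (d + 1) * r ^ (d + 1) ≤
      R ^ (d + 1) * avg d f R + c / (d + 1) * R ^ (d + 1) := by
    intro r hr
    refine anti_of_deriv (R := R) (h := fun r => r ^ (d + 1) * avg d f r + c / (d + 1) * r ^ (d + 1))
      (h' := fun r => r ^ d * f r + c / (d + 1) * ((d + 1 : ℕ) * r ^ d)) (fun s _ => ?_)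
      (fun s hs => ?_) le_rfl hr
    · exact (mass_hasDeriv hf s).add ((hasDerivAt_pow (d + 1) s).const_mul _)
    · have hs0 : 0 < s := by linarith
      have h2 : c / (d + 1) * ((d + 1 : ℕ) * s ^ d) = c * s ^ d := by
        push_cast
        field_simp
      rw [h2]
      have h3 := hfR s hs
      have h4 : 0 < s ^ d := by positivity
      nlinarith
  set K := R ^ (d + 1) * avg d f R + c / (d + 1) * R ^ (d + 1) with hK
  have h2 : ∀ᶠ r : ℝ in atTop, K ≤ c / (2 * (d + 1)) * r ^ (d + 1) := by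
    have : Tendsto (fun r : ℝ => c / (2 * (d + 1)) * r ^ (d + 1)) atTop atTop :=
      (tendsto_pow_atTop (by omega)).const_mul_atTop (by positivity)
    exact this.eventually_ge_atTop K
  set c1 := c / (2 * (d + 1)) with hc1
  have hc1' : 0 < c1 := by positivity
  have hc2 : c / (d + 1) = 2 * c1 := by rw [hc1]; field_simp
  have h3 : ∀ᶠ r : ℝ in atTop, avg d f r ≤ -c1 := by
    filter_upwards [h2, eventually_ge_atTop R] with r h4 h5
    have h6 := h1 r h5
    have h7 : 0 < r ^ (d + 1) := by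
      have : 0 < r := by linarith
      positivity
    have h8 : r ^ (d + 1) * avg d f r ≤ r ^ (d + 1) * (-c1) := by
      rw [hc2] at h6
      linarith
    exact le_of_mul_le_mul_left h8 h7
  obtain ⟨R2, hR2⟩ := eventually_atTop.mp h3
  set Q := max R2 1 with hQ
  have hQ1 : 1 ≤ Q := le_max_right _ _
  have h4 : ∀ r, Q ≤ r → T d f r + c1 / 2 * r ^ 2 ≤ T d f Q + c1 / 2 * Q ^ 2 := by
    intro r hr
    refine anti_of_deriv (R := Q) (h := fun r => T d f r + c1 / 2 * r ^ 2)
      (h' := fun r => r * avg d f r + c1 / 2 * ((2 : ℕ) * r ^ 1)) (fun s hs => ?_)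
      (fun s hs => ?_) le_rfl hr
    · exact (T_hasDeriv hf (by linarith)).add ((hasDerivAt_pow 2 s).const_mul _)
    · have h5 := hR2 s ((le_max_left _ _).trans hs)
      have h6 : 0 < s := by linarith
      push_cast
      nlinarith
  refine ⟨c1 / 4, by positivity, ?_⟩
  have h5 : ∀ᶠ r : ℝ in atTop, T d f Q + c1 / 2 * Q ^ 2 ≤ c1 / 4 * r ^ 2 := by
    have : Tendsto (fun r : ℝ => c1 / 4 * r ^ 2) atTop atTop :=
      (tendsto_pow_atTop (by norm_num)).const_mul_atTop (by positivity)
    exact this.eventually_ge_atTop _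
  filter_upwards [h5, eventually_ge_atTop Q] with r h6 h7
  have := h4 r h7
  linarith

theorem lev_neg_ev {b : ℕ → ℝ} {F : ℝ → ℝ} (hF : Continuous F) {k : ℕ} {c : ℝ} (hc : 0 < c)
    (h : ∀ᶠ r in atTop, lev d b F k r ≤ -c) (j : ℕ) :
    ∃ c' > 0, ∀ᶠ r in atTop, lev d b F (k + 1 + j) r ≤ -c' * r ^ 2 := by
  have step : ∀ k : ℕ, ∀ c : ℝ, 0 < c → (∀ᶠ r in atTop, lev d b F k r ≤ -c) →
      ∃ c' > 0, ∀ᶠ r in atTop, lev d b F (k + 1) r ≤ -c' * r ^ 2 := by
    intro k c hc h
    obtain ⟨c1, hc1, h1⟩ := T_neg_ev (d := d) (lev_continuous hF k) hc h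
    refine ⟨c1 / 2, by positivity, ?_⟩
    have h5 : ∀ᶠ r : ℝ in atTop, b k ≤ c1 / 2 * r ^ 2 := by
      have : Tendsto (fun r : ℝ => c1 / 2 * r ^ 2) atTop atTop :=
        (tendsto_pow_atTop (by norm_num)).const_mul_atTop (by positivity)
      exact this.eventually_ge_atTop _
    filter_upwards [h1, h5] with r h6 h7
    rw [lev_succ]
    linarith
  induction j with
  | zero => exact step k c hc h
  | succ j ih =>
    obtain ⟨c1, hc1, h1⟩ := ih
    apply step (k + 1 + j) c1 hc1
    filter_upwards [h1, eventually_ge_atTop 1] with r h2 h3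
    have h4 : 1 ≤ r ^ 2 := one_le_pow₀ h3
    nlinarith

theorem lev_neg_fun (b : ℕ → ℝ) (F : ℝ → ℝ) (k : ℕ) (r : ℝ) :
    lev d (fun i => -b i) (fun s => -F s) k r = -lev d b F k r := by
  induction k generalizing r with
  | zero => rfl
  | succ k ih =>
    rw [lev_succ, lev_succ]
    have : lev d (fun i => -b i) (fun s => -F s) k = fun s => -lev d b F k s := by
      ext s
      exact ih s
    rw [this, T_neg]
    ring

theorem lev_pos_ev {b : ℕ → ℝ} {F : ℝ → ℝ} (hF : Continuous F) {k : ℕ} {c : ℝ} (hc : 0 < c)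
    (h : ∀ᶠ r in atTop, c ≤ lev d b F k r) (j : ℕ) :
    ∃ c' > 0, ∀ᶠ r in atTop, c' * r ^ 2 ≤ lev d b F (k + 1 + j) r := by
  have hF' : Continuous (fun s => -F s) := hF.neg
  obtain ⟨c', hc', h1⟩ := lev_neg_ev (d := d) (b := fun i => -b i) (F := fun s => -F s) hF'
    (k := k) hc (by
      filter_upwards [h] with r hr
      rw [lev_neg_fun]
      linarith) j
  refine ⟨c', hc', ?_⟩
  filter_upwards [h1] with r hr
  rw [lev_neg_fun] at hr
  linarith

/-- no eventually positive level -/
theorem no_pos {b : ℕ → ℝ} {u : ℝ → ℝ} {m : ℕ} (hu : Continuous u)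
    (he : ∀ r, 0 ≤ r → u r = lev d b (fun s => -Real.exp (u s)) m r) {k : ℕ} (hk1 : 1 ≤ k)
    (hkm : k < m) {c : ℝ} (hc : 0 < c)
    (h : ∀ᶠ r in atTop, c ≤ lev d b (fun s => -Real.exp (u s)) k r) : False := by
  have hF : Continuous (fun s => -Real.exp (u s)) := (Real.continuous_exp.comp hu).neg
  obtain ⟨c1, hc1, h1⟩ := lev_pos_ev (d := d) hF hc h (m - k - 1)
  have e1 : k + 1 + (m - k - 1) = m := by omega
  rw [e1] at h1
  have h2 : ∀ᶠ r in atTop, lev d b (fun s => -Real.exp (u s)) 0 r ≤ -1 := by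
    filter_upwards [h1, eventually_ge_atTop 0] with r h2 h3
    change -Real.exp (u r) ≤ -1
    rw [he r h3]
    have : (1 : ℝ) ≤ Real.exp (lev d b (fun s => -Real.exp (u s)) m r) := by
      apply Real.one_le_exp
      have : 0 ≤ c1 * r ^ 2 := by positivity
      linarith
    linarith
  obtain ⟨c2, hc2, h3⟩ := lev_neg_ev (d := d) hF one_pos h2 (k - 1)
  have e2 : 0 + 1 + (k - 1) = k := by omega
  rw [e2] at h3
  obtain ⟨r, h4, h5, h6⟩ := (h3.and (h.and (eventually_ge_atTop 0))).exists
  have : 0 ≤ c2 * r ^ 2 := by positivity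
  linarith

theorem integrable_of_quadratic {u : ℝ → ℝ} (hu : Continuous u) {c : ℝ} (hc : 0 < c)
    (h : ∀ᶠ r in atTop, u r ≤ -c * r ^ 2) :
    IntegrableOn (fun r => r ^ d * Real.exp (u r)) (Ioi 0) := by
  obtain ⟨R0, hR0⟩ := eventually_atTop.mp h
  set R := max R0 1 with hR
  have hR1 : 1 ≤ R := le_max_right _ _
  have hcont : Continuous (fun r : ℝ => r ^ d * Real.exp (u r)) :=
    (continuous_pow d).mul (Real.continuous_exp.comp hu)
  have e : Ioi (0 : ℝ) = Ioc 0 R ∪ Ioi R := by rw [Ioc_union_Ioi_eq_Ioi (by linarith)]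
  rw [e, integrableOn_union]
  constructor
  · exact (hcont.integrableOn_Icc (a := 0) (b := R)).mono_set Ioc_subset_Icc_self
  · have h1 : IntegrableOn (fun r : ℝ => r ^ (d : ℝ) * Real.exp (-c * r ^ 2)) (Ioi R) :=
      (integrableOn_rpow_mul_exp_neg_mul_sq hc (s := d) (by
        have : (0 : ℝ) ≤ d := by positivity
        linarith)).mono_set (Ioi_subset_Ioi (by linarith))
    apply h1.mono' hcont.aestronglyMeasurable
    rw [ae_restrict_iff' measurableSet_Ioi]
    refine Eventually.of_forall fun r hr => ?_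
    have hr' : R < r := hr
    have hr0 : 0 < r := by linarith
    rw [Real.norm_of_nonneg (by positivity), Real.rpow_natCast]
    apply mul_le_mul_of_nonneg_left _ (by positivity)
    apply Real.exp_le_exp.mpr
    exact hR0 r ((le_max_left _ _).trans hr'.le)

theorem integrable_of_log {u : ℝ → ℝ} (hu : Continuous u) {C : ℝ}
    (h : ∀ᶠ r in atTop, u r ≤ C - (d + 2) * Real.log r) :
    IntegrableOn (fun r => r ^ d * Real.exp (u r)) (Ioi 0) := by
  obtain ⟨R0, hR0⟩ := eventually_atTop.mp h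
  set R := max R0 1 with hR
  have hR1 : 1 ≤ R := le_max_right _ _
  have hcont : Continuous (fun r : ℝ => r ^ d * Real.exp (u r)) :=
    (continuous_pow d).mul (Real.continuous_exp.comp hu)
  have e : Ioi (0 : ℝ) = Ioc 0 R ∪ Ioi R := by rw [Ioc_union_Ioi_eq_Ioi (by linarith)]
  rw [e, integrableOn_union]
  constructor
  · exact (hcont.integrableOn_Icc (a := 0) (b := R)).mono_set Ioc_subset_Icc_self
  · have h1 : IntegrableOn (fun r : ℝ => Real.exp C * r ^ (-2 : ℝ)) (Ioi R) :=
      (integrableOn_Ioi_rpow_of_lt (by norm_num) (by linarith)).const_mul _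
    apply h1.mono' hcont.aestronglyMeasurable
    rw [ae_restrict_iff' measurableSet_Ioi]
    refine Eventually.of_forall fun r hr => ?_
    have hr' : R < r := hr
    have hr0 : 0 < r := by linarith
    rw [Real.norm_of_nonneg (by positivity)]
    have h2 := hR0 r ((le_max_left _ _).trans hr'.le)
    have h3 : Real.exp (u r) ≤ Real.exp C * r ^ (-((d : ℝ) + 2)) := by
      rw [Real.rpow_def_of_pos hr0, ← Real.exp_add]
      apply Real.exp_le_exp.mpr
      linarith
    calc r ^ d * Real.exp (u r) ≤ r ^ (d : ℝ) * (Real.exp C * r ^ (-((d : ℝ) + 2))) := by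
          rw [Real.rpow_natCast]
          exact mul_le_mul_of_nonneg_left h3 (by positivity)
      _ = Real.exp C * (r ^ (d : ℝ) * r ^ (-((d : ℝ) + 2))) := by ring
      _ = Real.exp C * r ^ (-2 : ℝ) := by
          rw [← Real.rpow_add hr0]
          congr 2
          ring

/-- no eventually negative level if the mass is infinite -/
theorem no_neg {b : ℕ → ℝ} {u : ℝ → ℝ} {m : ℕ} (hu : Continuous u)
    (he : ∀ r, 0 ≤ r → u r = lev d b (fun s => -Real.exp (u s)) m r)
    (hI : ¬ IntegrableOn (fun r => r ^ d * Real.exp (u r)) (Ioi 0)) {k : ℕ}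
    (hkm : k < m) {c : ℝ} (hc : 0 < c)
    (h : ∀ᶠ r in atTop, lev d b (fun s => -Real.exp (u s)) k r ≤ -c) : False := by
  have hF : Continuous (fun s => -Real.exp (u s)) := (Real.continuous_exp.comp hu).neg
  obtain ⟨c1, hc1, h1⟩ := lev_neg_ev (d := d) hF hc h (m - k - 1)
  have e1 : k + 1 + (m - k - 1) = m := by omega
  rw [e1] at h1
  apply hI
  apply integrable_of_quadratic hu hc1
  filter_upwards [h1, eventually_ge_atTop 0] with r h2 h3
  rw [he r h3]
  exact h2

theorem antitone_lim {h : ℝ → ℝ} (ha : ∀ r s, 0 ≤ r → r ≤ s → h s ≤ h r)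
    (h1 : ∀ c > 0, ¬ ∀ᶠ r in atTop, h r ≤ -c) (h2 : ∀ c > 0, ¬ ∀ᶠ r in atTop, c ≤ h r) :
    (∀ r, 0 ≤ r → 0 ≤ h r) ∧ Tendsto h atTop (𝓝 0) := by
  have hpos : ∀ r, 0 ≤ r → 0 ≤ h r := by
    intro r hr
    by_contra hneg
    push Not at hneg
    apply h1 (-(h r)) (by linarith)
    filter_upwards [eventually_ge_atTop r] with s hs
    have := ha r s hr hs
    linarith
  refine ⟨hpos, ?_⟩
  rw [tendsto_order]
  constructor
  · intro a ha'
    filter_upwards [eventually_ge_atTop 0] with r hr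
    have := hpos r hr
    linarith
  · intro a ha'
    have h3 := h2 a ha'
    rw [Filter.not_eventually] at h3
    obtain ⟨r, h4, h5⟩ := (h3.and_eventually (eventually_ge_atTop 0)).exists
    push Not at h4
    filter_upwards [eventually_ge_atTop r] with s hs
    have := ha r s h5 hs
    linarith

theorem mass_unbounded {u : ℝ → ℝ} (hu : Continuous u)
    (hI : ¬ IntegrableOn (fun r => r ^ d * Real.exp (u r)) (Ioi 0)) (A : ℝ) :
    ∀ᶠ r in atTop, A ≤ r ^ (d + 1) * avg d (fun s => Real.exp (u s)) r := by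
  have hcont : Continuous (fun r : ℝ => r ^ d * Real.exp (u r)) :=
    (continuous_pow d).mul (Real.continuous_exp.comp hu)
  have hmono : ∀ r s : ℝ, 0 ≤ r → r ≤ s → r ^ (d + 1) * avg d (fun s => Real.exp (u s)) r ≤
      s ^ (d + 1) * avg d (fun s => Real.exp (u s)) s := by
    intro r s hr hrs
    rw [mass_eq, mass_eq, ← intervalIntegral.integral_add_adjacent_intervals
      (hcont.intervalIntegrable 0 r) (hcont.intervalIntegrable r s)]
    have : 0 ≤ ∫ t in r..s, t ^ d * Real.exp (u t) := by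
      apply intervalIntegral.integral_nonneg hrs
      intro t ht
      have : 0 ≤ t := hr.trans ht.1
      positivity
    linarith
  by_contra hA
  apply hI
  apply integrableOn_Ioi_of_intervalIntegral_norm_bounded (I := A) (a := 0) (b := fun r : ℝ => r)
    (l := atTop)
  · intro r
    exact (hcont.integrableOn_Icc (a := 0) (b := r)).mono_set Ioc_subset_Icc_self
  · exact tendsto_id
  · filter_upwards [eventually_ge_atTop 0] with r hr
    have h1 : ∫ x in (0 : ℝ)..r, ‖x ^ d * Real.exp (u x)‖ =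
        r ^ (d + 1) * avg d (fun s => Real.exp (u s)) r := by
      rw [mass_eq]
      apply intervalIntegral.integral_congr
      intro t ht
      rw [uIcc_of_le hr] at ht
      have : 0 ≤ t := ht.1
      simp only
      rw [Real.norm_of_nonneg (by positivity)]
    rw [h1]
    by_contra hlt
    push Not at hlt
    apply hA
    filter_upwards [eventually_ge_atTop r] with s hs
    exact hlt.le.trans (hmono r s hr hs)

end Pool.Agent.R207.PH
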