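import Pool.Agent.R207.PH5

set_option autoImplicit false

/-! # Finiteness of the volume, conclusion -/

namespace Pool.Agent.R207.PH

open MeasureTheory Real Set Filter Topology

variable {d : ℕ} {f g : ℝ → ℝ}

/-- alternating chain -/
noncomputable def zz (d : ℕ) (b : ℕ → ℝ) (u : ℝ → ℝ) (k : ℕ) : ℝ → ℝ :=
  fun r => (-1) ^ (k + 1) * lev d b (fun s => -Real.exp (u s)) k r

theorem zz_zero (b : ℕ → ℝ) (u : ℝ → ℝ) (r : ℝ) : zz d b u 0 r = Real.exp (u r) := by
  change (-1) ^ (0 + 1) * -Real.exp (u r) = _
  ring

theorem zz_continuous {b : ℕ → ℝ} {u : ℝ → ℝ} (hu : Continuous u) (k : ℕ) :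
    Continuous (zz d b u k) :=
  continuous_const.mul (lev_continuous (Real.continuous_exp.comp hu).neg k)

theorem zz_succ (b : ℕ → ℝ) (u : ℝ → ℝ) (k : ℕ) (r : ℝ) :
    zz d b u (k + 1) r = (-1) ^ k * b k - T d (zz d b u k) r := by
  unfold zz
  rw [lev_succ]
  have h := T_const_mul (d := d) ((-1) ^ (k + 1)) (lev d b (fun s => -Real.exp (u s)) k) r
  rw [h]
  ring

theorem zz_anti {b : ℕ → ℝ} {u : ℝ → ℝ} (hu : Continuous u) {k : ℕ}
    (hk : ∀ r, 0 ≤ r → 0 ≤ zz d b u k r) (r s : ℝ) (hr : 0 ≤ r) (hrs : r ≤ s) :
    zz d b u (k + 1) s ≤ zz d b u (k + 1) r := by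
  rw [zz_succ, zz_succ, T_of_nonneg hr, T_of_nonneg (hr.trans hrs)]
  have hc := savg_continuous (d := d) (zz_continuous (d := d) (b := b) hu k)
  rw [← intervalIntegral.integral_add_adjacent_intervals
    (hc.intervalIntegrable 0 r) (hc.intervalIntegrable r s)]
  have : 0 ≤ ∫ t in r..s, t * avg d (zz d b u k) t := by
    apply intervalIntegral.integral_nonneg hrs
    intro t ht
    have h0 : 0 ≤ t := hr.trans ht.1
    exact mul_nonneg h0 (avg_nonneg (zz_continuous hu k) hk h0)
  linarith

theorem zz_hasDeriv {b : ℕ → ℝ} {u : ℝ → ℝ} (hu : Continuous u) (k : ℕ) {r : ℝ} (hr : 0 < r) :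
    HasDerivAt (zz d b u (k + 1)) (-(r * avg d (zz d b u k) r)) r := by
  have h : zz d b u (k + 1) = fun r => (-1) ^ k * b k - T d (zz d b u k) r := by
    ext r
    exact zz_succ b u k r
  rw [h]
  exact (T_hasDeriv (zz_continuous hu k) hr).const_sub _

/-- Main finiteness theorem. -/
theorem finite_mass {b : ℕ → ℝ} {u : ℝ → ℝ} {m : ℕ} (hm : 2 ≤ m) (hd : d + 1 = 2 * m)
    (hu : Continuous u)
    (he : ∀ r, 0 ≤ r → u r = lev d b (fun s => -Real.exp (u s)) m r) :
    IntegrableOn (fun r => r ^ d * Real.exp (u r)) (Ioi 0) := by
  by_contra hI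
  have hF : Continuous (fun s => -Real.exp (u s)) := (Real.continuous_exp.comp hu).neg
  -- no eventually negative, no eventually positive
  have hN : ∀ k, 1 ≤ k → k < m → ∀ c > 0, ¬ ∀ᶠ r in atTop, zz d b u k r ≤ -c := by
    intro k hk1 hkm c hc h
    unfold zz at h
    rcases neg_one_pow_eq_or ℝ (k + 1) with h1 | h1
    · rw [h1] at h
      exact no_neg hu he hI hkm hc (by simpa using h)
    · rw [h1] at h
      apply no_pos hu he hk1 hkm hc
      filter_upwards [h] with r hr
      linarith
  have hP : ∀ k, 1 ≤ k → k < m → ∀ c > 0, ¬ ∀ᶠ r in atTop, c ≤ zz d b u k r := by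
    intro k hk1 hkm c hc h
    unfold zz at h
    rcases neg_one_pow_eq_or ℝ (k + 1) with h1 | h1
    · rw [h1] at h
      exact no_pos hu he hk1 hkm hc (by simpa using h)
    · rw [h1] at h
      apply no_neg hu he hI hkm hc
      filter_upwards [h] with r hr
      linarith
  -- all levels are nonnegative and tend to zero
  have hz0 : ∀ r, 0 ≤ r → 0 ≤ zz d b u 0 r := by
    intro r _
    rw [zz_zero]
    exact (Real.exp_pos _).le
  have hz : ∀ k, k + 1 < m → (∀ r, 0 ≤ r → 0 ≤ zz d b u (k + 1) r) ∧
      Tendsto (zz d b u (k + 1)) atTop (𝓝 0) := by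
    intro k
    induction k with
    | zero =>
      intro h
      exact antitone_lim (zz_anti hu hz0) (hN 1 le_rfl h) (hP 1 le_rfl h)
    | succ k ih =>
      intro h
      have h1 := ih (by omega)
      exact antitone_lim (zz_anti hu h1.1) (hN _ (by omega) h) (hP _ (by omega) h)
  have hznn : ∀ k, k < m → ∀ r, 0 ≤ r → 0 ≤ zz d b u k r := by
    intro k hk
    rcases Nat.eq_zero_or_pos k with h | h
    · subst h; exact hz0
    · obtain ⟨j, rfl⟩ : ∃ j, k = j + 1 := ⟨k - 1, by omega⟩
      exact (hz j hk).1
  obtain ⟨j, hj⟩ : ∃ j, m = j + 1 := ⟨m - 1, by omega⟩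
  have hanti := zz_anti (d := d) (b := b) hu (k := j) (hznn j (by omega))
  have hzm : ∀ r, 0 ≤ r → zz d b u (j + 1) r = (-1) ^ (m + 1) * u r := by
    intro r hr
    unfold zz
    rw [he r hr, hj]
  rcases neg_one_pow_eq_or ℝ (m + 1) with hpar | hpar
  · -- m odd : `u` is decreasing
    -- growth of the masses
    have hR : ∀ k, k < m → ∀ A : ℝ, ∀ᶠ r in atTop,
        A * r ^ (2 * k) ≤ r ^ (d + 1) * avg d (zz d b u k) r := by
      intro k
      induction k with
      | zero =>
        intro _ A
        have h1 := mass_unbounded (d := d) hu hI A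
        filter_upwards [h1] with r hr
        have : zz d b u 0 = fun s => Real.exp (u s) := by
          ext s
          exact zz_zero b u s
        rw [this]
        simpa using hr
      | succ k ih =>
        intro hk A
        -- exponent
        obtain ⟨q, hq⟩ : ∃ q, d = q + 2 * k + 1 := ⟨d - 2 * k - 1, by omega⟩
        have hq2 : 2 ≤ q := by omega
        have hq0 : (0 : ℝ) < q := by
          have : (2 : ℝ) ≤ q := by exact_mod_cast hq2
          linarith
        have hk2 : (0 : ℝ) < 2 * k + 2 := by positivity
        set B := max A 1 with hB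
        have hB1 : 1 ≤ B := le_max_right _ _
        set A' := 2 * B * q * (2 * k + 2) with hA'
        have hA'0 : 0 < A' := by positivity
        have hzk := hz k (by omega)
        obtain ⟨R0, hR0⟩ := eventually_atTop.mp (ih (by omega) A')
        set R := max R0 1 with hRd
        have hR1 : 1 ≤ R := le_max_right _ _
        -- lower bound of the next level
        have hlow : ∀ r, R ≤ r → A' / q * (r ^ q)⁻¹ ≤ zz d b u (k + 1) r := by
          intro r hr
          have hanti2 : ∀ s, r ≤ s → zz d b u (k + 1) s - A' / q * (s ^ q)⁻¹ ≤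
              zz d b u (k + 1) r - A' / q * (r ^ q)⁻¹ := by
            intro s hs
            refine anti_of_deriv (R := R) (h := fun r => zz d b u (k + 1) r - A' / q * (r ^ q)⁻¹)
              (h' := fun r => -(r * avg d (zz d b u k) r) -
                A' / q * (-((q : ℕ) * r ^ (q - 1)) / (r ^ q) ^ 2)) (fun t ht => ?_)
              (fun t ht => ?_) hr hs
            · have ht0 : 0 < t := by linarith
              exact (zz_hasDeriv hu k ht0).sub
                (((hasDerivAt_pow q t).inv (pow_ne_zero _ ht0.ne')).const_mul _)
            · have ht0 : 0 < t := by linarith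
              have h1 := hR0 t ((le_max_left _ _).trans ht)
              have e1 : t ^ (d + 1) = t ^ (2 * k) * t ^ (q + 1) * t := by
                rw [hq]; ring
              have h2 : A' ≤ t ^ (q + 1) * (t * avg d (zz d b u k) t) := by
                have h3 : 0 < t ^ (2 * k) := by positivity
                have h4 : t ^ (2 * k) * A' ≤ t ^ (2 * k) *
                    (t ^ (q + 1) * (t * avg d (zz d b u k) t)) := by
                  rw [e1] at h1
                  linarith
                exact le_of_mul_le_mul_left h4 h3
              have e2 : A' / q * (-((q : ℕ) * t ^ (q - 1)) / (t ^ q) ^ 2) = -(A' / t ^ (q + 1)) := by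
                obtain ⟨p, rfl⟩ : ∃ p, q = p + 1 := ⟨q - 1, by omega⟩
                have : p + 1 - 1 = p := by omega
                rw [this]
                field_simp
                ring
              rw [e2]
              have h5 : A' / t ^ (q + 1) ≤ t * avg d (zz d b u k) t := by
                rw [div_le_iff₀ (by positivity)]
                linarith
              linarith
          have hlim : Tendsto (fun s : ℝ => zz d b u (k + 1) s - A' / q * (s ^ q)⁻¹) atTop
              (𝓝 (0 - A' / q * 0)) := by
            apply hzk.2.sub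
            apply Tendsto.const_mul
            exact (tendsto_pow_atTop (by omega)).inv_tendsto_atTop
          rw [mul_zero, sub_zero] at hlim
          have h6 : 0 ≤ zz d b u (k + 1) r - A' / q * (r ^ q)⁻¹ := by
            apply le_of_tendsto hlim
            filter_upwards [eventually_ge_atTop r] with s hs
            exact hanti2 s hs
          linarith
        -- lower bound of the mass
        have hmass : ∀ r, R ≤ r → 2 * B * (r ^ (2 * (k + 1)) - R ^ (2 * (k + 1))) ≤
            r ^ (d + 1) * avg d (zz d b u (k + 1)) r := by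
          intro r hr
          have h1 : -(r ^ (d + 1) * avg d (zz d b u (k + 1)) r) + 2 * B * r ^ (2 * (k + 1)) ≤
              -(R ^ (d + 1) * avg d (zz d b u (k + 1)) R) + 2 * B * R ^ (2 * (k + 1)) := by
            refine anti_of_deriv (R := R)
              (h := fun r => -(r ^ (d + 1) * avg d (zz d b u (k + 1)) r) + 2 * B * r ^ (2 * (k + 1)))
              (h' := fun r => -(r ^ d * zz d b u (k + 1) r) +
                2 * B * ((2 * (k + 1) : ℕ) * r ^ (2 * (k + 1) - 1)))
              (fun t ht => ?_) (fun t ht => ?_) le_rfl hr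
            · exact (mass_hasDeriv (zz_continuous hu (k + 1)) t).neg.add
                ((hasDerivAt_pow (2 * (k + 1)) t).const_mul _)
            · have ht0 : 0 < t := by linarith
              have h2 := hlow t ht
              have e1 : 2 * (k + 1) - 1 = 2 * k + 1 := by omega
              rw [e1]
              have h3 : t ^ d * (A' / q * (t ^ q)⁻¹) ≤ t ^ d * zz d b u (k + 1) t :=
                mul_le_mul_of_nonneg_left h2 (by positivity)
              have e2 : t ^ d * (A' / q * (t ^ q)⁻¹) =
                  2 * B * ((2 * (k + 1) : ℕ) * t ^ (2 * k + 1)) := by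
                rw [hA', hq]
                have : t ^ (q + 2 * k + 1) = t ^ q * t ^ (2 * k + 1) := by ring
                rw [this]
                push_cast
                field_simp
              linarith
          have h2 : 0 ≤ R ^ (d + 1) * avg d (zz d b u (k + 1)) R :=
            mul_nonneg (by positivity) (avg_nonneg (zz_continuous hu (k + 1)) hzk.1 (by linarith))
          linarith
        have hlarge : ∀ᶠ r : ℝ in atTop, 2 * B * R ^ (2 * (k + 1)) ≤ B * r ^ (2 * (k + 1)) := by
          have : Tendsto (fun r : ℝ => B * r ^ (2 * (k + 1))) atTop atTop :=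
            (tendsto_pow_atTop (by omega)).const_mul_atTop (by linarith)
          exact this.eventually_ge_atTop _
        filter_upwards [hlarge, eventually_ge_atTop R] with r h1 h2
        have h3 := hmass r h2
        have h4 : A * r ^ (2 * (k + 1)) ≤ B * r ^ (2 * (k + 1)) := by
          apply mul_le_mul_of_nonneg_right (le_max_left _ _)
          have : 0 ≤ r := by linarith
          positivity
        linarith
    -- conclusion
    obtain ⟨R0, hR0⟩ := eventually_atTop.mp (hR j (by omega) (d + 2))
    set R := max R0 1 with hRd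
    have hR1 : 1 ≤ R := le_max_right _ _
    have hlog : ∀ r, R ≤ r → zz d b u (j + 1) r + (d + 2) * Real.log r ≤
        zz d b u (j + 1) R + (d + 2) * Real.log R := by
      intro r hr
      refine anti_of_deriv (R := R) (h := fun r => zz d b u (j + 1) r + (d + 2) * Real.log r)
        (h' := fun r => -(r * avg d (zz d b u j) r) + (d + 2) * r⁻¹) (fun t ht => ?_)
        (fun t ht => ?_) le_rfl hr
      · have ht0 : 0 < t := by linarith
        exact (zz_hasDeriv hu j ht0).add ((Real.hasDerivAt_log ht0.ne').const_mul _)
      · have ht0 : 0 < t := by linarith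
        have h1 := hR0 t ((le_max_left _ _).trans ht)
        have e1 : t ^ (d + 1) = t ^ (2 * j) * (t * t) := by
          have : d + 1 = 2 * j + 2 := by omega
          rw [this]; ring
        have h2 : (d + 2 : ℝ) ≤ t * (t * avg d (zz d b u j) t) := by
          have h3 : 0 < t ^ (2 * j) := by positivity
          have h4 : t ^ (2 * j) * (d + 2 : ℝ) ≤ t ^ (2 * j) * (t * (t * avg d (zz d b u j) t)) := by
            rw [e1] at h1
            linarith
          exact le_of_mul_le_mul_left h4 h3
        have h5 : (d + 2 : ℝ) * t⁻¹ ≤ t * avg d (zz d b u j) t := by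
          rw [← div_eq_mul_inv, div_le_iff₀ ht0]
          linarith
        linarith
    apply hI
    apply integrable_of_log hu (C := zz d b u (j + 1) R + (d + 2) * Real.log R)
    filter_upwards [eventually_ge_atTop R] with r hr
    have h1 := hlog r hr
    have h2 := hzm r (by linarith)
    rw [hpar, one_mul] at h2
    rw [h2] at h1
    linarith
  · -- m even : `u` is increasing
    have h0 : ∀ᶠ r in atTop, lev d b (fun s => -Real.exp (u s)) 0 r ≤ -Real.exp (u 0) := by
      filter_upwards [eventually_ge_atTop 0] with r hr
      change -Real.exp (u r) ≤ _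
      have h1 := hanti 0 r le_rfl hr
      rw [hzm 0 le_rfl, hzm r hr, hpar] at h1
      have := Real.exp_le_exp.mpr (by linarith : u 0 ≤ u r)
      linarith
    exact no_neg hu he hI (by omega) (Real.exp_pos _) h0

end Pool.Agent.R207.PH
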