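import Pool.Agent.R207.PH6

set_option autoImplicit false

/-! # A jump of the volume -/

namespace Pool.Agent.R207.PH

open MeasureTheory Real Set Filter Topology

variable {d : ℕ} {f g : ℝ → ℝ}

theorem lev_mono {b c : ℕ → ℝ} (hf : Continuous f) (hg : Continuous g)
    (h : ∀ r, 0 ≤ r → f r ≤ g r) (k : ℕ) (hbc : ∀ i, i < k → b i ≤ c i) (r : ℝ) (hr : 0 ≤ r) :
    lev d b f k r ≤ lev d c g k r := by
  induction k generalizing r with
  | zero => exact h r hr
  | succ k ih =>
    rw [lev_succ, lev_succ]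
    have h1 := T_mono (d := d) (lev_continuous hf k) (lev_continuous hg k)
      (fun s hs => ih (fun i hi => hbc i (by omega)) s hs) r
    have h2 := hbc k (by omega)
    linarith

/-- the integral equation -/
structure IsInt (d m : ℕ) (b : ℕ → ℝ) (u : ℝ → ℝ) : Prop where
  cont : Continuous u
  eq : ∀ r, u r = lev d b (fun s => -Real.exp (u s)) m r

theorem lev_congr' {b : ℕ → ℝ} (hf : Continuous f) (hg : Continuous g)
    (h : ∀ r, 0 ≤ r → f r = g r) (k : ℕ) (r : ℝ) :
    lev d b f (k + 1) r = lev d b g (k + 1) r := by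
  rw [lev_succ, lev_succ]
  rw [T_congr (lev_continuous hf k) (lev_continuous hg k) (fun s hs => lev_congr hf hg h k s hs)]

theorem tex_nonpos (q u : ℝ → ℝ) (r : ℝ) : tex (-1) q u r ≤ 0 := by
  unfold tex
  have := Real.exp_pos (min (u r) (q r))
  linarith

theorem Sys.le_q {b c : ℕ → ℝ} {m : ℕ} {q u : ℝ → ℝ} (hq : Continuous q) (h : Sys d m b (-1) q u)
    (hbc : ∀ i, i < m → b i ≤ c i) (hqc : ∀ r, 0 ≤ r → lev d c (fun _ => 0) m r ≤ q r) (r : ℝ)
    (hr : 0 ≤ r) : u r ≤ q r := by
  rw [h.eq r]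
  exact (lev_mono (tex_continuous hq h.cont) continuous_const (fun s _ => tex_nonpos q u s) m hbc r
    hr).trans (hqc r hr)

theorem tex_eq {q u : ℝ → ℝ} (hle : ∀ r, 0 ≤ r → u r ≤ q r) (r : ℝ) (hr : 0 ≤ r) :
    tex (-1) q u r = -Real.exp (u r) := by
  unfold tex
  rw [min_eq_left (hle r hr)]
  ring

theorem Sys.toInt {b : ℕ → ℝ} {m : ℕ} (hm : 1 ≤ m) {q u : ℝ → ℝ} (hq : Continuous q)
    (h : Sys d m b (-1) q u) (hle : ∀ r, 0 ≤ r → u r ≤ q r) : IsInt d m b u := by
  refine ⟨h.cont, ?_⟩
  intro r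
  obtain ⟨j, rfl⟩ : ∃ j, m = j + 1 := ⟨m - 1, by omega⟩
  rw [h.eq r]
  exact lev_congr' (tex_continuous hq h.cont) (Real.continuous_exp.comp h.cont).neg
    (fun s hs => tex_eq hle s hs) j r

theorem IsInt.toSys {b : ℕ → ℝ} {m : ℕ} (hm : 1 ≤ m) {q u : ℝ → ℝ} (hq : Continuous q)
    (h : IsInt d m b u) (hle : ∀ r, 0 ≤ r → u r ≤ q r) : Sys d m b (-1) q u := by
  refine ⟨h.cont, ?_⟩
  intro r
  obtain ⟨j, rfl⟩ : ∃ j, m = j + 1 := ⟨m - 1, by omega⟩
  rw [h.eq r]
  exact (lev_congr' (tex_continuous hq h.cont) (Real.continuous_exp.comp h.cont).neg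
    (fun s hs => tex_eq hle s hs) j r).symm

theorem IsInt.le_poly {b c : ℕ → ℝ} {m : ℕ} {u : ℝ → ℝ} (h : IsInt d m b u)
    (hbc : ∀ i, i < m → b i ≤ c i) (r : ℝ) (hr : 0 ≤ r) :
    u r ≤ lev d c (fun _ => 0) m r := by
  rw [h.eq r]
  exact lev_mono (f := fun s => -Real.exp (u s)) (Real.continuous_exp.comp h.cont).neg
    continuous_const (fun s _ => by
      have := Real.exp_pos (u s)
      linarith) m hbc r hr

theorem exists_int (d : ℕ) {m : ℕ} (hm : 1 ≤ m) (b : ℕ → ℝ) : ∃ u, IsInt d m b u := by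
  have hq : Continuous (lev d b (fun _ => 0) m) := lev_continuous continuous_const m
  obtain ⟨u, hu⟩ := exists_sys (d := d) (σ := -1) (by simp) hq b hm
  exact ⟨u, hu.toInt hm hq (hu.le_q hq (fun _ _ => le_rfl) (fun _ _ => le_rfl))⟩

theorem int_unique {m : ℕ} (hm : 1 ≤ m) {b : ℕ → ℝ} {u v : ℝ → ℝ} (hu : IsInt d m b u)
    (hv : IsInt d m b v) : u = v := by
  have hq : Continuous (lev d b (fun _ => 0) m) := lev_continuous continuous_const m
  obtain ⟨W, hw⟩ := exists_weight (d := d) (ellq_continuous hq) (ellq_one _)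
  have h1 := hu.toSys hm hq (hu.le_poly (fun _ _ => le_rfl))
  have h2 := hv.toSys hm hq (hv.le_poly (fun _ _ => le_rfl))
  ext r
  have h3 := h1.stab (by simp) hq hw hm le_rfl (fun k _ => by simp) h2 r
  have h4 : |u r - v r| ≤ 0 := by linarith
  have := abs_nonpos_iff.mp h4
  linarith

theorem T_one (r : ℝ) (hr : 0 ≤ r) : T d (fun _ => (1 : ℝ)) r = r ^ 2 / (2 * (d + 1)) := by
  have h1 : ∀ s, avg d (fun _ => (1 : ℝ)) s = 1 / (d + 1) := by
    intro s
    unfold avg
    simp
  rw [T_of_nonneg hr]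
  simp only [h1]
  rw [intervalIntegral.integral_mul_const, integral_id]
  field_simp
  ring

/-- bound for `T` -/
theorem T_gain (hf : Continuous f) (hd4 : 4 ≤ d) {S D : ℝ} (hS : 0 ≤ S) (hD : 0 ≤ D)
    (h1 : ∀ r, 0 ≤ r → r ≤ 1 → f r ≤ S)
    (h2 : ∀ r, 1 ≤ r → r ^ (d + 1) * avg d f r ≤ D * r ^ 2) (r : ℝ) (hr : 0 ≤ r) :
    T d f r ≤ S + D := by
  have hsmall : ∀ r, 0 ≤ r → r ≤ 1 → T d f r ≤ S := by
    intro r hr0 hr1
    rw [T_of_nonneg hr0]
    calc ∫ s in (0 : ℝ)..r, s * avg d f s ≤ ∫ s in (0 : ℝ)..r, S := by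
          apply intervalIntegral.integral_mono_on hr0 ((savg_continuous hf).intervalIntegrable _ _)
            (continuous_const.intervalIntegrable _ _)
          intro s hs
          have h3 : avg d f s ≤ S := by
            unfold avg
            calc ∫ τ in (0 : ℝ)..1, τ ^ d * f (s * τ) ≤ ∫ τ in (0 : ℝ)..1, S := by
                  apply intervalIntegral.integral_mono_on zero_le_one
                    ((by fun_prop : Continuous fun τ : ℝ => τ ^ d * f (s * τ)).intervalIntegrable _ _)
                    (continuous_const.intervalIntegrable _ _)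
                  intro τ hτ
                  have h4 := h1 (s * τ) (mul_nonneg hs.1 hτ.1) (by
                    have := hs.2.trans hr1
                    nlinarith [hτ.1, hτ.2, hs.1])
                  have h5 : 0 ≤ τ ^ d := pow_nonneg hτ.1 d
                  have h6 : τ ^ d ≤ 1 := pow_le_one₀ hτ.1 hτ.2
                  calc τ ^ d * f (s * τ) ≤ τ ^ d * S := mul_le_mul_of_nonneg_left h4 h5
                    _ ≤ 1 * S := mul_le_mul_of_nonneg_right h6 hS
                    _ = S := one_mul S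
              _ = S := by simp
          have hs1 : s ≤ 1 := hs.2.trans hr1
          have hs0 := hs.1
          calc s * avg d f s ≤ s * S := mul_le_mul_of_nonneg_left h3 hs0
            _ ≤ 1 * S := mul_le_mul_of_nonneg_right hs1 hS
            _ = S := one_mul S
      _ = r * S := by simp
      _ ≤ S := by nlinarith
  rcases le_total r 1 with h | h
  · linarith [hsmall r hr h]
  · have h3 : T d f r + D * r⁻¹ ≤ T d f 1 + D * (1 : ℝ)⁻¹ := by
      refine anti_of_deriv (R := 1) (h := fun r => T d f r + D * r⁻¹)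
        (h' := fun r => r * avg d f r + D * (-(r ^ 2)⁻¹)) (fun t ht => ?_) (fun t ht => ?_) le_rfl h
      · have ht0 : 0 < t := by linarith
        exact (T_hasDeriv hf ht0).add ((hasDerivAt_inv ht0.ne').const_mul _)
      · have ht0 : 0 < t := by linarith
        obtain ⟨p, hp⟩ : ∃ p, d = p + 4 := ⟨d - 4, by omega⟩
        have h4 := h2 t ht
        have e1 : t ^ (d + 1) = t ^ 2 * (t ^ p * (t ^ 2 * t)) := by rw [hp]; ring
        have h5 : t ^ p * (t ^ 2 * (t * avg d f t)) ≤ D := by
          have h6 : 0 < t ^ 2 := by positivity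
          have h7 : t ^ 2 * (t ^ p * (t ^ 2 * (t * avg d f t))) ≤ t ^ 2 * D := by
            rw [e1] at h4
            linarith
          exact le_of_mul_le_mul_left h7 h6
        have h8 : t ^ 2 * (t * avg d f t) ≤ D := by
          by_contra hlt
          push Not at hlt
          have h9 : 1 ≤ t ^ p := one_le_pow₀ ht
          nlinarith
        have h10 : t * avg d f t ≤ D * (t ^ 2)⁻¹ := by
          rw [← div_eq_mul_inv, le_div_iff₀ (by positivity)]
          linarith
        linarith
    have h4 := hsmall 1 zero_le_one le_rfl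
    have h5 : 0 ≤ D * r⁻¹ := by positivity
    simp only [inv_one, mul_one] at h3
    linarith

/-- total mass -/
noncomputable def mass (d : ℕ) (u : ℝ → ℝ) : ℝ := ∫ r in Ioi (0 : ℝ), r ^ d * Real.exp (u r)

theorem mass_le {u : ℝ → ℝ} (hI : IntegrableOn (fun r => r ^ d * Real.exp (u r)) (Ioi 0)) (r : ℝ)
    (hr : 0 ≤ r) : r ^ (d + 1) * avg d (fun s => Real.exp (u s)) r ≤ mass d u := by
  rw [mass_eq, intervalIntegral.integral_of_le hr]
  unfold mass
  apply setIntegral_mono_set hI
  · rw [EventuallyLE, ae_restrict_iff' measurableSet_Ioi]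
    refine Eventually.of_forall fun s hs => ?_
    have : 0 < s := hs
    simp only [Pi.zero_apply]
    positivity
  · exact (Ioc_subset_Ioi_self).eventuallyLE

/-- the gain bound -/
theorem gain {b : ℕ → ℝ} {u : ℝ → ℝ} {m : ℕ} (hm : 2 ≤ m) (hd : d + 1 = 2 * m) (hd4 : 4 ≤ d)
    (hu : IsInt d m b u) (hb0 : 0 ≤ b 0) (r : ℝ) (hr : 0 ≤ r) :
    lev d b (fun s => -Real.exp (u s)) 2 r ≤ b 1 + (2 * b 0 + mass d u) := by
  set F : ℝ → ℝ := fun s => -Real.exp (u s) with hFdef
  have hF : Continuous F := (Real.continuous_exp.comp hu.cont).neg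
  have hexp : Continuous (fun s => Real.exp (u s)) := Real.continuous_exp.comp hu.cont
  have hI := finite_mass hm hd hu.cont (fun r _ => hu.eq r)
  have hV0 : 0 ≤ mass d u := by
    have := mass_le hI 0 le_rfl
    simpa using this
  have hy1 : ∀ r, lev d b F 1 r = b 0 - T d (fun s => Real.exp (u s)) r := by
    intro r
    rw [lev_succ]
    change b 0 + T d (fun s => -Real.exp (u s)) r = _
    rw [T_neg]
    ring
  have hy1le : ∀ r, lev d b F 1 r ≤ b 0 := by
    intro r
    rw [hy1]
    have := T_nonneg (d := d) hexp (fun s _ => (Real.exp_pos (u s)).le) r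
    linarith
  have hcont1 : Continuous (lev d b F 1) := lev_continuous hF 1
  obtain ⟨q, hq⟩ : ∃ q, d = q + 1 := ⟨d - 1, by omega⟩
  have hq0 : (0 : ℝ) < q := by
    have : 3 ≤ q := by omega
    have : (3 : ℝ) ≤ q := by exact_mod_cast this
    linarith
  have hq1 : (1 : ℝ) ≤ q := by
    have : 1 ≤ q := by omega
    exact_mod_cast this
  -- decay of the first level
  have hdecay : ∀ r, 1 ≤ r → lev d b F 1 r ≤ mass d u / q * (r ^ q)⁻¹ := by
    intro r hr1
    by_contra hlt
    push Not at hlt
    have hmono : ∀ s, r ≤ s → -(lev d b F 1 s) + mass d u / q * (s ^ q)⁻¹ ≤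
        -(lev d b F 1 r) + mass d u / q * (r ^ q)⁻¹ := by
      intro s hs
      refine anti_of_deriv (R := 1) (h := fun s => -(lev d b F 1 s) + mass d u / q * (s ^ q)⁻¹)
        (h' := fun s => -(-(s * avg d (fun s => Real.exp (u s)) s)) +
          mass d u / q * (-((q : ℕ) * s ^ (q - 1)) / (s ^ q) ^ 2)) (fun t ht => ?_)
        (fun t ht => ?_) hr1 hs
      · have ht0 : 0 < t := by linarith
        have h1 : HasDerivAt (lev d b F 1) (-(t * avg d (fun s => Real.exp (u s)) t)) t := by
          have : lev d b F 1 = fun r => b 0 - T d (fun s => Real.exp (u s)) r := by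
            ext r; exact hy1 r
          rw [this]
          exact (T_hasDeriv hexp ht0).const_sub _
        exact h1.neg.add (((hasDerivAt_pow q t).inv (pow_ne_zero _ ht0.ne')).const_mul _)
      · have ht0 : 0 < t := by linarith
        have e2 : mass d u / q * (-((q : ℕ) * t ^ (q - 1)) / (t ^ q) ^ 2) =
            -(mass d u / t ^ (q + 1)) := by
          obtain ⟨p, rfl⟩ : ∃ p, q = p + 1 := ⟨q - 1, by omega⟩
          have : p + 1 - 1 = p := by omega
          rw [this]
          field_simp
          ring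
        rw [e2]
        have h1 := mass_le hI t ht0.le
        have h5 : t * avg d (fun s => Real.exp (u s)) t ≤ mass d u / t ^ (q + 1) := by
          rw [le_div_iff₀ (by positivity)]
          have e1 : t ^ (d + 1) = t ^ (q + 1) * t := by rw [hq]; ring
          rw [e1] at h1
          linarith
        linarith
    apply no_pos (d := d) (b := b) hu.cont (fun r _ => hu.eq r) (k := 1) le_rfl (by omega)
      (c := lev d b F 1 r - mass d u / q * (r ^ q)⁻¹) (by linarith)
    filter_upwards [eventually_ge_atTop r] with s hs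
    have h1 := hmono s hs
    have h2 : 0 ≤ mass d u / q * (s ^ q)⁻¹ := by
      have : 0 < s := by linarith
      positivity
    change _ ≤ lev d b F 1 s
    linarith
  -- mass of the first level
  have hmass : ∀ r, 1 ≤ r → r ^ (d + 1) * avg d (lev d b F 1) r ≤ (b 0 + mass d u) * r ^ 2 := by
    intro r hr1
    have h1 : r ^ (d + 1) * avg d (lev d b F 1) r - mass d u * r ^ 2 ≤
        (1 : ℝ) ^ (d + 1) * avg d (lev d b F 1) 1 - mass d u * 1 ^ 2 := by
      refine anti_of_deriv (R := 1)
        (h := fun r => r ^ (d + 1) * avg d (lev d b F 1) r - mass d u * r ^ 2)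
        (h' := fun r => r ^ d * lev d b F 1 r - mass d u * ((2 : ℕ) * r ^ 1)) (fun t ht => ?_)
        (fun t ht => ?_) le_rfl hr1
      · exact (mass_hasDeriv hcont1 t).sub ((hasDerivAt_pow 2 t).const_mul _)
      · have ht0 : 0 < t := by linarith
        have h2 := hdecay t ht
        have h3 : t ^ d * lev d b F 1 t ≤ t ^ d * (mass d u / q * (t ^ q)⁻¹) :=
          mul_le_mul_of_nonneg_left h2 (by positivity)
        have h4 : t ^ d * (mass d u / q * (t ^ q)⁻¹) = mass d u / q * t := by
          rw [hq, pow_succ]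
          field_simp
        have h5 : mass d u / q ≤ mass d u := div_le_self hV0 hq1
        push_cast
        have h6 : mass d u / q * t ≤ mass d u * t := mul_le_mul_of_nonneg_right h5 ht0.le
        have h7 : 0 ≤ mass d u * t := by positivity
        nlinarith
    have h2 : avg d (lev d b F 1) 1 ≤ b 0 := by
      unfold avg
      calc ∫ τ in (0 : ℝ)..1, τ ^ d * lev d b F 1 (1 * τ) ≤ ∫ τ in (0 : ℝ)..1, b 0 := by
            apply intervalIntegral.integral_mono_on zero_le_one
              ((by fun_prop : Continuous fun τ : ℝ => τ ^ d * lev d b F 1 (1 * τ)).intervalIntegrable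
                _ _) (continuous_const.intervalIntegrable _ _)
            intro τ hτ
            have h5 : 0 ≤ τ ^ d := pow_nonneg hτ.1 d
            have h6 : τ ^ d ≤ 1 := pow_le_one₀ hτ.1 hτ.2
            calc τ ^ d * lev d b F 1 (1 * τ) ≤ τ ^ d * b 0 :=
                  mul_le_mul_of_nonneg_left (hy1le _) h5
              _ ≤ 1 * b 0 := mul_le_mul_of_nonneg_right h6 hb0
              _ = b 0 := one_mul _
        _ = b 0 := by simp
    have h3 : 1 ≤ r ^ 2 := one_le_pow₀ hr1
    simp only [one_pow, one_mul, mul_one] at h1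
    nlinarith
  have h1 := T_gain (d := d) hcont1 hd4 hb0 (by linarith : 0 ≤ b 0 + mass d u)
    (fun r _ _ => hy1le r) hmass r hr
  have h2 : lev d b F 2 r = b 1 + T d (lev d b F 1) r := lev_succ b F 1 r
  rw [h2]
  linarith

end Pool.Agent.R207.PH
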