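import Pool.Agent.R207.PH7

set_option autoImplicit false

/-! # The jump theorem -/

namespace Pool.Agent.R207.PH

open MeasureTheory Real Set Filter Topology

variable {d : ℕ}

/-- data -/
noncomputable def bK (m : ℕ) (K s : ℝ) (k : ℕ) : ℝ :=
  if k = 0 then s else if k = 1 then -K else if k = m - 1 then 0 else -1

theorem exp_level_continuous {u : ℝ → ℝ} (hu : Continuous u) :
    Continuous (fun s => -Real.exp (u s)) := (Real.continuous_exp.comp hu).neg

/-- under the threshold, the solution lies below a parabola -/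
theorem below {m : ℕ} (hm : 3 ≤ m) {K s : ℝ} {u : ℝ → ℝ} (hu : IsInt d m (bK m K s) u)
    (hP : ∀ r, 0 ≤ r → lev d (bK m K s) (fun s => -Real.exp (u s)) 2 r ≤ -1) (r : ℝ) (hr : 0 ≤ r) :
    u r ≤ -(r ^ 2 / (2 * (d + 1))) := by
  have hF := exp_level_continuous hu.cont
  have hTm : ∀ r : ℝ, 0 ≤ r → T d (fun _ => (-1 : ℝ)) r = -(r ^ 2 / (2 * (d + 1))) := by
    intro r hr
    have h1 := T_neg (d := d) (fun _ => (1 : ℝ)) r
    rw [h1, T_one r hr]
  have hlev : ∀ j, j + 3 ≤ m → ∀ r, 0 ≤ r →
      lev d (bK m K s) (fun s => -Real.exp (u s)) (j + 2) r ≤ -1 := by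
    intro j
    induction j with
    | zero => intro _; exact hP
    | succ j ih =>
      intro hj r hr
      have h1 := ih (by omega)
      have h2 := T_mono (d := d) (lev_continuous hF (j + 2)) continuous_const h1 r
      rw [hTm r hr] at h2
      have h3 : bK m K s (j + 2) = -1 := by
        unfold bK
        rw [if_neg (by omega), if_neg (by omega), if_neg (by omega)]
      have e : j + 1 + 2 = (j + 2) + 1 := by ring
      rw [e, lev_succ, h3]
      have h4 : 0 ≤ r ^ 2 / (2 * ((d : ℝ) + 1)) := by positivity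
      linarith
  obtain ⟨j, hj⟩ : ∃ j, m = j + 3 := ⟨m - 3, by omega⟩
  have h1 := hlev j (by omega)
  have h2 := T_mono (d := d) (lev_continuous hF (j + 2)) continuous_const h1 r
  rw [hTm r hr] at h2
  rw [hu.eq r]
  have e : m = (j + 2) + 1 := by omega
  have h3 : bK m K s (j + 2) = 0 := by
    unfold bK
    rw [if_neg (by omega), if_neg (by omega), if_pos (by omega)]
  have h4 : lev d (bK m K s) (fun s => -Real.exp (u s)) m r =
      lev d (bK m K s) (fun s => -Real.exp (u s)) ((j + 2) + 1) r :=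
    congrArg (fun i => lev d (bK m K s) (fun s => -Real.exp (u s)) i r) e
  rw [h4, lev_succ, h3]
  linarith

/-- the mass constant -/
noncomputable def C1 (d : ℕ) : ℝ := mass d (fun r => -(r ^ 2 / (2 * (d + 1))))

theorem gI (d : ℕ) :
    IntegrableOn (fun r : ℝ => r ^ d * Real.exp (-(r ^ 2 / (2 * ((d : ℝ) + 1))))) (Ioi 0) := by
  apply integrable_of_quadratic (c := 1 / (2 * ((d : ℝ) + 1))) (by fun_prop) (by positivity)
  refine Eventually.of_forall fun r => ?_
  apply le_of_eq
  ring

theorem C1_nonneg (d : ℕ) : 0 ≤ C1 d := by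
  have := mass_le (gI d) 0 le_rfl
  unfold C1
  simpa using this

theorem below_mass {u : ℝ → ℝ} (hu : Continuous u)
    (h : ∀ r, 0 ≤ r → u r ≤ -(r ^ 2 / (2 * ((d : ℝ) + 1)))) : mass d u ≤ C1 d := by
  have hle : ∀ r ∈ Ioi (0 : ℝ), r ^ d * Real.exp (u r) ≤
      r ^ d * Real.exp (-(r ^ 2 / (2 * ((d : ℝ) + 1)))) := by
    intro r hr
    have hr0 : 0 < r := hr
    exact mul_le_mul_of_nonneg_left (Real.exp_le_exp.mpr (h r hr0.le)) (by positivity)
  unfold C1 mass
  apply setIntegral_mono_on _ (gI d) measurableSet_Ioi hle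
  have hcont : Continuous (fun r : ℝ => r ^ d * Real.exp (u r)) :=
    (continuous_pow d).mul (Real.continuous_exp.comp hu)
  apply (gI d).mono' hcont.aestronglyMeasurable
  rw [ae_restrict_iff' measurableSet_Ioi]
  refine Eventually.of_forall fun r hr => ?_
  have hr0 : 0 < r := hr
  rw [Real.norm_of_nonneg (by positivity)]
  exact hle r hr

/-- bound of the parameter -/
theorem below_param {m : ℕ} (hm : 3 ≤ m) (hd4 : 4 ≤ d) {K s : ℝ} {u : ℝ → ℝ}
    (hu : IsInt d m (bK m K s) u)
    (hP : ∀ r, 0 ≤ r → lev d (bK m K s) (fun s => -Real.exp (u s)) 2 r ≤ -1) :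
    s ≤ 1 + C1 d := by
  by_contra hlt
  push Not at hlt
  have h0 := below hm hu hP
  have hgc : Continuous (fun r : ℝ => Real.exp (-(r ^ 2 / (2 * ((d : ℝ) + 1))))) := by fun_prop
  have hexp : Continuous (fun s => Real.exp (u s)) := Real.continuous_exp.comp hu.cont
  apply no_pos (d := d) hu.cont (fun r _ => hu.eq r) (k := 1) le_rfl (by omega)
    (c := s - (1 + C1 d)) (by linarith)
  filter_upwards [eventually_ge_atTop 0] with r hr
  have h1 : lev d (bK m K s) (fun s => -Real.exp (u s)) 1 r =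
      s - T d (fun s => Real.exp (u s)) r := by
    rw [lev_succ]
    change bK m K s 0 + T d (fun s => -Real.exp (u s)) r = _
    rw [T_neg]
    unfold bK
    rw [if_pos rfl]
    ring
  rw [h1]
  have h2 : T d (fun s => Real.exp (u s)) r ≤
      T d (fun r => Real.exp (-(r ^ 2 / (2 * ((d : ℝ) + 1))))) r :=
    T_mono hexp hgc (fun r hr => Real.exp_le_exp.mpr (h0 r hr)) r
  have h3 := T_gain (d := d) hgc hd4 zero_le_one (C1_nonneg d)
    (fun r _ _ => by
      apply Real.exp_le_one_iff.mpr
      have : 0 ≤ r ^ 2 / (2 * ((d : ℝ) + 1)) := by positivity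
      linarith)
    (fun r hr => by
      have h4 := mass_le (gI d) r (by linarith)
      have h5 : 1 ≤ r ^ 2 := one_le_pow₀ hr
      have h6 := C1_nonneg d
      have h7 : mass d (fun r => -(r ^ 2 / (2 * ((d : ℝ) + 1)))) = C1 d := rfl
      rw [h7] at h4
      nlinarith) r hr
  linarith

theorem jump {m : ℕ} (hm : 3 ≤ m) (hd : d + 1 = 2 * m) : ∃ K s1 : ℝ,
    ∀ v, IsInt d m (bK m K s1) v → ∀ s, s1 < s → s ≤ s1 + 1 →
      ∀ u, IsInt d m (bK m K s) u → mass d v + 1 ≤ mass d u := by
  have hd4 : 4 ≤ d := by omega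
  have hm1 : 1 ≤ m := by omega
  have hC1 := C1_nonneg d
  set K : ℝ := 2 * (2 * (2 + C1 d) + (C1 d + 2)) with hK
  have hK2 : K / 2 = 2 * (2 + C1 d) + (C1 d + 2) := by rw [hK]; ring
  let P : ℝ → Prop := fun s => ∀ u, IsInt d m (bK m K s) u → ∀ r, 0 ≤ r →
    lev d (bK m K s) (fun s => -Real.exp (u s)) 2 r ≤ -(K / 2)
  have hPbelow : ∀ s, P s → ∀ u, IsInt d m (bK m K s) u → ∀ r, 0 ≤ r →
      lev d (bK m K s) (fun s => -Real.exp (u s)) 2 r ≤ -1 := by
    intro s hs u hu r hr
    have := hs u hu r hr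
    linarith
  let S : Set ℝ := {s | 0 ≤ s ∧ P s}
  have hSbdd : ∀ s ∈ S, s ≤ 1 + C1 d := by
    intro s hs
    obtain ⟨u, hu⟩ := exists_int d hm1 (bK m K s)
    exact below_param hm hd4 hu (hPbelow s hs.2 u hu)
  have hS0 : (0 : ℝ) ∈ S := by
    refine ⟨le_rfl, ?_⟩
    intro u hu r hr
    have hF := exp_level_continuous hu.cont
    have h1 : ∀ r, 0 ≤ r → lev d (bK m K 0) (fun s => -Real.exp (u s)) 1 r ≤ 0 := by
      intro r _
      rw [lev_succ]
      change bK m K 0 0 + T d (fun s => -Real.exp (u s)) r ≤ 0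
      rw [T_neg]
      have := T_nonneg (d := d) (Real.continuous_exp.comp hu.cont)
        (fun s _ => (Real.exp_pos (u s)).le) r
      have e : bK m K 0 0 = 0 := by unfold bK; rw [if_pos rfl]
      rw [e]
      change 0 + -T d (Real.exp ∘ u) r ≤ 0
      linarith
    have h2 := T_mono (d := d) (lev_continuous hF 1) continuous_const h1 r
    rw [T_fun_zero] at h2
    have h3 : lev d (bK m K 0) (fun s => -Real.exp (u s)) 2 r =
        bK m K 0 1 + T d (lev d (bK m K 0) (fun s => -Real.exp (u s)) 1) r := lev_succ _ _ _ _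
    have e : bK m K 0 1 = -K := by
      unfold bK
      rw [if_neg (by omega), if_pos rfl]
    rw [h3, e]
    linarith
  have hSbdd' : BddAbove S := ⟨1 + C1 d, hSbdd⟩
  set s1 := sSup S with hs1
  have hs10 : 0 ≤ s1 := le_csSup hSbdd' hS0
  have hs1C : s1 ≤ 1 + C1 d := csSup_le ⟨0, hS0⟩ hSbdd
  -- closedness
  have hPs1 : P s1 := by
    intro v hv r hr
    by_contra hlt
    push Not at hlt
    set Smax : ℝ := 2 + C1 d with hSmax
    have hqc : Continuous (lev d (bK m K Smax) (fun _ => 0) m) := lev_continuous continuous_const m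
    have hbmono : ∀ s, s ≤ Smax → ∀ i, i < m → bK m K s i ≤ bK m K Smax i := by
      intro s hs i _
      unfold bK
      split_ifs <;> first | exact hs | exact le_rfl
    obtain ⟨W, hw⟩ := exists_weight (d := d) (ellq_continuous hqc) (ellq_one _)
    set y := lev d (bK m K s1) (fun s => -Real.exp (v s)) 2 r with hy
    have hε : 0 < (y + K / 2) / (2 * W r) := by
      have := hw.W0 r
      have : 0 < y + K / 2 := by linarith
      positivity
    obtain ⟨s, hsS, hs⟩ := exists_lt_of_lt_csSup ⟨0, hS0⟩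
      (show s1 - (y + K / 2) / (2 * W r) < sSup S by rw [← hs1]; linarith)
    have hss1 : s ≤ s1 := le_csSup hSbdd' hsS
    obtain ⟨u, hu⟩ := exists_int d hm1 (bK m K s)
    have h1 := hsS.2 u hu r hr
    have hvS := hv.toSys hm1 hqc (fun r hr => hv.le_poly (hbmono s1 (by linarith)) r hr)
    have huS := hu.toSys hm1 hqc (fun r hr => hu.le_poly (hbmono s (by linarith)) r hr)
    have h2 := hvS.stab_lev (σ := -1) (by simp) hqc hw hm1 (δ := s1 - s) (by linarith)
      (fun k _ => by
        unfold bK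
        split_ifs
        · rw [abs_of_nonneg (by linarith)]
        · simp; exact hss1
        · simp; exact hss1
        · simp; exact hss1) huS (k := 2) (by omega) (by omega) r
    have hle1 : ∀ r, 0 ≤ r → v r ≤ lev d (bK m K Smax) (fun _ => 0) m r :=
      fun r hr => hv.le_poly (hbmono s1 (by linarith)) r hr
    have hle2 : ∀ r, 0 ≤ r → u r ≤ lev d (bK m K Smax) (fun _ => 0) m r :=
      fun r hr => hu.le_poly (hbmono s (by linarith)) r hr
    have e1 := lev_congr' (d := d) (b := bK m K s1)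
      (tex_continuous (σ := -1) hqc hv.cont) (exp_level_continuous hv.cont)
      (fun s hs => tex_eq hle1 s hs) 1 r
    have e2 := lev_congr' (d := d) (b := bK m K s)
      (tex_continuous (σ := -1) hqc hu.cont) (exp_level_continuous hu.cont)
      (fun s hs => tex_eq hle2 s hs) 1 r
    rw [e1, e2] at h2
    have h3 := (abs_le.mp h2).2
    have h4 : s1 - s < (y + K / 2) / (2 * W r) := by linarith
    have h5 : 2 * (s1 - s) * W r < y + K / 2 := by
      rw [lt_div_iff₀ (by have := hw.W0 r; positivity)] at h4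
      linarith
    have h6 : lev d (bK m K s1) (fun s => -Real.exp (v s)) (1 + 1) r = y := rfl
    rw [h6] at h3
    have h7 : lev d (bK m K s) (fun s => -Real.exp (u s)) (1 + 1) r ≤ -(K / 2) := h1
    linarith
  refine ⟨K, s1, ?_⟩
  intro v hv s hs hs' u hu
  have h1 : mass d v ≤ C1 d := below_mass hv.cont (below hm hv (hPbelow s1 hPs1 v hv))
  have h2 : s ∉ S := by
    intro h
    have := le_csSup hSbdd' h
    linarith
  have h3 : ¬ P s := fun h => h2 ⟨by linarith, h⟩
  simp only [P] at h3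
  push Not at h3
  obtain ⟨u', hu', r, hr, h4⟩ := h3
  have huu : u' = u := int_unique hm1 hu' hu
  rw [huu] at h4
  have hb0 : bK m K s 0 = s := by unfold bK; rw [if_pos rfl]
  have hb1 : bK m K s 1 = -K := by
    unfold bK
    rw [if_neg (by omega), if_pos rfl]
  have h5 := gain (d := d) (by omega) hd hd4 hu (by rw [hb0]; linarith) r hr
  rw [hb0, hb1] at h5
  linarith

end Pool.Agent.R207.PH
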