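import Pool.Agent.R207.PH8

set_option autoImplicit false

/-! # Bridge between Euclidean solutions and the integral equation -/

namespace Pool.Agent.R207.PH

open MeasureTheory Real Set Filter Topology InnerProductSpace Laplacian
open scoped ContDiff
open Pool.Agent.R207.QC (E)

/-- reversed data -/
noncomputable def rev {m : ℕ} (a : Fin m → ℝ) (k : ℕ) : ℝ :=
  if h : k < m then a ⟨m - 1 - k, by omega⟩ else 0

theorem rev_apply {m : ℕ} (a : Fin m → ℝ) {j : ℕ} (hj : j < m) : rev a (m - 1 - j) = a ⟨j, hj⟩ := by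
  unfold rev
  rw [dif_pos (by omega)]
  congr 1
  apply Fin.ext
  simp only
  omega

variable {m : ℕ}

theorem toInt {a : Fin m → ℝ} {U : E (2 * m) → ℝ} (hm : 1 ≤ m)
    (hU : ContDiff ℝ (2 * m : ℕ) U) (hr : ∀ x y, ‖x‖ = ‖y‖ → U x = U y)
    (heq : ∀ x, (fun f : E (2 * m) → ℝ => Δ f)^[m] U x = -Real.exp (U x))
    (hdata : ∀ i : Fin m, (fun f : E (2 * m) → ℝ => Δ f)^[(i : ℕ)] U 0 = a i) :
    ∃ u, IsInt (2 * m - 1) m (rev a) u ∧ ∀ x, U x = u ‖x‖ := by
  have hpos : 0 < 2 * m := by omega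
  let e : E (2 * m) := EuclideanSpace.single ⟨0, hpos⟩ 1
  have he : ‖e‖ = 1 := by simp [e]
  have hn : 2 * m = (2 * m - 1) + 1 := by omega
  have hd : 1 ≤ 2 * m - 1 := by omega
  have hchain := fun r => radial_chain (d := 2 * m - 1) hU hr hn hd he (b := rev a)
    (fun j hj => by rw [rev_apply a hj]; exact hdata ⟨j, hj⟩) (k := m) le_rfl r
  refine ⟨fun r => U (r • e), ⟨?_, ?_⟩, ?_⟩
  · exact hU.continuous.comp (continuous_id.smul continuous_const)
  · intro r
    have h1 := hchain r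
    rw [Nat.sub_self] at h1
    have h2 : (fun s : ℝ => (fun f : E (2 * m) → ℝ => Δ f)^[m] U (s • e)) =
        fun s => -Real.exp (U (s • e)) := by
      ext s
      exact heq _
    rw [h2] at h1
    exact h1
  · intro x
    apply hr
    rw [norm_smul, he, mul_one, norm_norm]

theorem fromInt {a : Fin m → ℝ} {u : ℝ → ℝ} (hm : 1 ≤ m)
    (hu : IsInt (2 * m - 1) m (rev a) u) :
    ContDiff ℝ ∞ (fun x : E (2 * m) => u ‖x‖) ∧
    (∀ x, (fun f : E (2 * m) → ℝ => Δ f)^[m] (fun x : E (2 * m) => u ‖x‖) x =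
      -Real.exp (u ‖x‖)) ∧
    ∀ i : Fin m, (fun f : E (2 * m) → ℝ => Δ f)^[(i : ℕ)] (fun x : E (2 * m) => u ‖x‖) 0 = a i := by
  have hn : 2 * m = (2 * m - 1) + 1 := by omega
  have hq : Continuous (lev (2 * m - 1) (rev a) (fun _ => 0) m) := lev_continuous continuous_const m
  have hle : ∀ r, 0 ≤ r → u r ≤ lev (2 * m - 1) (rev a) (fun _ => 0) m r :=
    hu.le_poly (fun _ _ => le_rfl)
  have hS := hu.toSys hm hq hle
  refine ⟨hS.smooth hm hq hle, ?_, ?_⟩
  · intro x
    have h1 := congrFun (hS.lap_iter (n := 2 * m) hn hm hq hle (j := m) le_rfl) x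
    rw [h1, Nat.sub_self]
    exact tex_eq hle _ (norm_nonneg x)
  · intro i
    have h1 := congrFun (hS.lap_iter (n := 2 * m) hn hm hq hle (j := (i : ℕ)) i.2.le) 0
    rw [h1, norm_zero]
    obtain ⟨k, hk⟩ : ∃ k, m - (i : ℕ) = k + 1 := ⟨m - i - 1, by omega⟩
    rw [hk, lev_succ, T_zero, add_zero]
    have : k = m - 1 - (i : ℕ) := by omega
    rw [this, rev_apply a i.2]

theorem integrable_iff (hm : 1 ≤ m) (u : ℝ → ℝ) :
    Integrable (fun x : E (2 * m) => Real.exp (u ‖x‖)) ↔
      IntegrableOn (fun r => r ^ (2 * m - 1) * Real.exp (u r)) (Ioi 0) := by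
  have : Nontrivial (E (2 * m)) := by
    have : Nonempty (Fin (2 * m)) := ⟨⟨0, by omega⟩⟩
    infer_instance
  have h := integrable_fun_norm_addHaar (volume : Measure (E (2 * m))) (f := fun r => Real.exp (u r))
  rw [finrank_euclideanSpace_fin] at h
  exact h

/-- area of the unit sphere -/
noncomputable def area (m : ℕ) : ℝ := (2 * m : ℕ) * volume.real (Metric.ball (0 : E (2 * m)) 1)

theorem area_pos (hm : 1 ≤ m) : 0 < area m := by
  unfold area
  have h1 : (0 : ℝ) < (2 * m : ℕ) := by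
    have : 0 < 2 * m := by omega
    exact_mod_cast this
  have h2 : 0 < volume.real (Metric.ball (0 : E (2 * m)) 1) := by
    rw [Measure.real, ENNReal.toReal_pos_iff]
    exact ⟨Metric.measure_ball_pos volume _ one_pos, measure_ball_lt_top⟩
  positivity

theorem integral_eq (hm : 1 ≤ m) (u : ℝ → ℝ) :
    ∫ x : E (2 * m), Real.exp (u ‖x‖) = area m * mass (2 * m - 1) u := by
  have : Nontrivial (E (2 * m)) := by
    have : Nonempty (Fin (2 * m)) := ⟨⟨0, by omega⟩⟩
    infer_instance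
  have h := integral_fun_norm_addHaar (volume : Measure (E (2 * m))) (fun r => Real.exp (u r))
  rw [finrank_euclideanSpace_fin] at h
  rw [h]
  unfold area mass
  simp only [smul_eq_mul, nsmul_eq_mul]
  ring

end Pool.Agent.R207.PH
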