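import Mathlib

set_option autoImplicit false

/-! # Even zonal functions: existence, Laplace equation, an integral identity -/

namespace Pool.Agent.R207.Packet

open Real Set Filter Topology MeasureTheory

/-- coefficients of the even zonal polynomial of degree `n`, normalised to be `1` at `0` -/
noncomputable def coef (D ν : ℝ) : ℕ → ℝ
  | 0 => 1
  | k + 1 => coef D ν k * ((2 * k * (2 * k + D) - ν) / ((2 * k + 2) * (2 * k + 1)))

theorem coef_succ (D ν : ℝ) (k : ℕ) :
    (2 * k + 2) * (2 * k + 1) * coef D ν (k + 1) = (2 * k * (2 * k + D) - ν) * coef D ν k := by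
  rw [coef]
  have : ((2 : ℝ) * k + 2) * (2 * k + 1) ≠ 0 := by positivity
  field_simp

noncomputable def P0 (D ν : ℝ) (K : ℕ) (x : ℝ) : ℝ :=
  ∑ k ∈ Finset.range (K + 1), coef D ν k * x ^ (2 * k)
noncomputable def P1 (D ν : ℝ) (K : ℕ) (x : ℝ) : ℝ :=
  ∑ k ∈ Finset.range (K + 1), coef D ν k * ((2 * k) * x ^ (2 * k - 1))
noncomputable def P2 (D ν : ℝ) (K : ℕ) (x : ℝ) : ℝ :=
  ∑ k ∈ Finset.range (K + 1), coef D ν k * ((2 * k) * ((2 * k - 1) * x ^ (2 * k - 2)))

theorem P0_deriv (D ν : ℝ) (K : ℕ) (x : ℝ) : HasDerivAt (P0 D ν K) (P1 D ν K x) x := by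
  unfold P0 P1
  apply HasDerivAt.fun_sum
  intro k _
  have := (hasDerivAt_pow (2 * k) x).const_mul (coef D ν k)
  push_cast at this
  exact this

theorem P1_deriv (D ν : ℝ) (K : ℕ) (x : ℝ) : HasDerivAt (P1 D ν K) (P2 D ν K x) x := by
  unfold P1 P2
  apply HasDerivAt.fun_sum
  intro k _
  have := ((hasDerivAt_pow (2 * k - 1) x).const_mul (2 * (k : ℝ))).const_mul (coef D ν k)
  refine this.congr_deriv ?_
  rcases k with _ | k
  · simp
  · have e : 2 * (k + 1) - 1 = 2 * k + 1 := by omega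
    rw [e]
    push_cast
    have e2 : 2 * (k + 1) - 2 = 2 * k := by omega
    rw [e2]
    ring

theorem P_ode (D : ℝ) (K : ℕ) (x : ℝ) :
    (1 - x ^ 2) * P2 D ((2 * K) * (2 * K + D)) K x - (D + 1) * x * P1 D ((2 * K) * (2 * K + D)) K x +
      (2 * K) * (2 * K + D) * P0 D ((2 * K) * (2 * K + D)) K x = 0 := by
  set ν : ℝ := (2 * K) * (2 * K + D) with hν
  set T : ℕ → ℝ := fun k => coef D ν k * ((2 * k) * ((2 * k - 1) * x ^ (2 * k - 2))) with hT
  have h1 : ∀ k : ℕ, x * (x * T k) - (2 * k) * (2 * k - 1) * (coef D ν k * x ^ (2 * k)) = 0 := by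
    intro k
    rcases k with _ | k
    · simp [hT]
    · simp only [hT]
      have e2 : 2 * (k + 1) - 2 = 2 * k := by omega
      rw [e2]
      push_cast
      ring
  have h2 : ∀ k : ℕ, x * (coef D ν k * ((2 * k) * x ^ (2 * k - 1))) =
      2 * k * (coef D ν k * x ^ (2 * k)) := by
    intro k
    rcases k with _ | k
    · simp
    · have e2 : 2 * (k + 1) - 1 = 2 * k + 1 := by omega
      rw [e2]
      push_cast
      ring
  have h3 : ∀ k : ℕ, T (k + 1) = (2 * k * (2 * k + D) - ν) * (coef D ν k * x ^ (2 * k)) := by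
    intro k
    have e2 : 2 * (k + 1) - 2 = 2 * k := by omega
    have := coef_succ D ν k
    simp only [hT]
    rw [e2]
    push_cast
    linear_combination (x ^ (2 * k)) * this
  have h4 : (1 - x ^ 2) * P2 D ν K x - (D + 1) * x * P1 D ν K x + ν * P0 D ν K x =
      ∑ k ∈ Finset.range (K + 1), (T k - T (k + 1)) := by
    have e1 : P2 D ν K x = ∑ k ∈ Finset.range (K + 1), T k := rfl
    rw [e1, P1, P0, sub_mul, one_mul]
    have e2 : x ^ 2 * ∑ k ∈ Finset.range (K + 1), T k =
        ∑ k ∈ Finset.range (K + 1), (2 * k) * (2 * k - 1) * (coef D ν k * x ^ (2 * k)) := by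
      rw [Finset.mul_sum]
      apply Finset.sum_congr rfl
      intro k _
      linear_combination h1 k
    have e3 : (D + 1) * x * ∑ k ∈ Finset.range (K + 1), coef D ν k * ((2 * k) * x ^ (2 * k - 1)) =
        ∑ k ∈ Finset.range (K + 1), (D + 1) * (2 * k * (coef D ν k * x ^ (2 * k))) := by
      rw [mul_assoc, Finset.mul_sum, Finset.mul_sum]
      apply Finset.sum_congr rfl
      intro k _
      rw [h2 k]
    rw [e2, e3, Finset.mul_sum, ← Finset.sum_sub_distrib, ← Finset.sum_sub_distrib,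
      ← Finset.sum_add_distrib]
    apply Finset.sum_congr rfl
    intro k _
    rw [h3 k]
    ring
  rw [h4, Finset.sum_range_sub']
  have h5 : T 0 = 0 := by simp [hT]
  have h6 : T (K + 1) = 0 := by
    rw [h3 K, hν]; ring
  rw [h5, h6, sub_zero]

theorem P0_zero (D ν : ℝ) (K : ℕ) : P0 D ν K 0 = 1 := by
  unfold P0
  rw [Finset.sum_eq_single 0]
  · simp [coef]
  · intro k _ hk
    rw [zero_pow (by omega)]; ring
  · simp

theorem P1_zero (D ν : ℝ) (K : ℕ) : P1 D ν K 0 = 0 := by
  unfold P1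
  apply Finset.sum_eq_zero
  intro k _
  rcases k with _ | k
  · simp
  · rw [zero_pow (by omega)]; ring

theorem P0_neg (D ν : ℝ) (K : ℕ) (x : ℝ) : P0 D ν K (-x) = P0 D ν K x := by
  unfold P0
  apply Finset.sum_congr rfl
  intro k _
  rw [pow_mul, pow_mul, neg_sq]

theorem P0_smooth (D ν : ℝ) (K : ℕ) : ContDiff ℝ (⊤ : ℕ∞) (P0 D ν K) := by
  unfold P0
  fun_prop

/-- the zonal function of degree `2K` in the radial variable, its first and second derivative -/
noncomputable def F0 (D : ℕ) (K : ℕ) (r : ℝ) : ℝ := P0 D ((2 * K) * (2 * K + D)) K (cos r)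
noncomputable def F1 (D : ℕ) (K : ℕ) (r : ℝ) : ℝ :=
  -sin r * P1 D ((2 * K) * (2 * K + D)) K (cos r)
noncomputable def F2 (D : ℕ) (K : ℕ) (r : ℝ) : ℝ :=
  -cos r * P1 D ((2 * K) * (2 * K + D)) K (cos r) +
    sin r ^ 2 * P2 D ((2 * K) * (2 * K + D)) K (cos r)

theorem F0_deriv (D K : ℕ) (r : ℝ) : HasDerivAt (F0 D K) (F1 D K r) r := by
  have := (P0_deriv D ((2 * K) * (2 * K + D)) K (cos r)).comp r (Real.hasDerivAt_cos r)
  refine this.congr_deriv ?_
  unfold F1; ring

theorem F1_deriv (D K : ℕ) (r : ℝ) : HasDerivAt (F1 D K) (F2 D K r) r := by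
  have h1 := (P1_deriv D ((2 * K) * (2 * K + D)) K (cos r)).comp r (Real.hasDerivAt_cos r)
  have h2 : HasDerivAt (F1 D K) _ r := (Real.hasDerivAt_sin r).neg.mul h1
  refine h2.congr_deriv ?_
  unfold F2
  simp only [Pi.neg_apply]
  ring

theorem F_ode (D K : ℕ) (r : ℝ) :
    sin r * F2 D K r + D * cos r * F1 D K r + (2 * K) * (2 * K + D) * sin r * F0 D K r = 0 := by
  have := P_ode D K (cos r)
  unfold F0 F1 F2
  have hs : sin r ^ 2 = 1 - cos r ^ 2 := Real.sin_sq r
  rw [hs]
  linear_combination (sin r) * this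

theorem F0_half (D K : ℕ) : F0 D K (π / 2) = 1 := by
  unfold F0; rw [Real.cos_pi_div_two, P0_zero]

theorem F1_half (D K : ℕ) : F1 D K (π / 2) = 0 := by
  unfold F1; rw [Real.cos_pi_div_two, P1_zero, mul_zero]

theorem F0_smooth (D K : ℕ) : ContDiff ℝ (⊤ : ℕ∞) (F0 D K) :=
  (P0_smooth _ _ _).comp Real.contDiff_cos

theorem F0_cont (D K : ℕ) : Continuous (F0 D K) := (F0_smooth D K).continuous

theorem F1_cont (D K : ℕ) : Continuous (F1 D K) :=
  continuous_iff_continuousAt.mpr fun x => (F1_deriv D K x).continuousAt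

theorem F0_even (D K : ℕ) (r : ℝ) : F0 D K (-r) = F0 D K r := by
  unfold F0; rw [Real.cos_neg]

theorem F0_pi_sub (D K : ℕ) (r : ℝ) : F0 D K (π - r) = F0 D K r := by
  unfold F0; rw [Real.cos_pi_sub, P0_neg]

/-- the virial identity -/
theorem virial (D K : ℕ) (hD : 1 ≤ D) :
    (2 * ((2 * K) * (2 * K + D)) + ((D : ℝ) ^ 2 - 1) / 2) *
      ∫ r in (0 : ℝ)..(π / 2), cos r * (sin r ^ D * F0 D K r ^ 2) =
      (2 * K) * (2 * K + D) + ((D : ℝ) - 1) / 2 := by
  set ν : ℝ := (2 * K) * (2 * K + D) with hν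
  set B : ℝ → ℝ := fun r => sin r ^ D * (sin r * (F1 D K r ^ 2 + (ν + ((D : ℝ) - 1) / 2) *
    F0 D K r ^ 2) + ((D : ℝ) - 1) * cos r * (F0 D K r * F1 D K r)) with hB
  have hd : ∀ r, HasDerivAt B ((2 * ν + ((D : ℝ) ^ 2 - 1) / 2) *
      (cos r * (sin r ^ D * F0 D K r ^ 2))) r := by
    intro r
    have h0 := F0_deriv D K r
    have h1 := F1_deriv D K r
    have hs := Real.hasDerivAt_sin r
    have hc := Real.hasDerivAt_cos r
    have hh : HasDerivAt B _ r := (hs.pow D).mul ((hs.mul ((h1.pow 2).add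
      ((h0.pow 2).const_mul (ν + ((D : ℝ) - 1) / 2)))).add
      ((hc.const_mul ((D : ℝ) - 1)).mul (h0.mul h1)))
    refine hh.congr_deriv ?_
    have ode := F_ode D K r
    rw [← hν] at ode
    have hsc : sin r ^ 2 + cos r ^ 2 = 1 := Real.sin_sq_add_cos_sq r
    obtain ⟨E, rfl⟩ : ∃ E, D = E + 1 := ⟨D - 1, by omega⟩
    simp only [Pi.pow_apply, Pi.add_apply, Nat.add_sub_cancel]
    push_cast at *
    set f0 := F0 (E + 1) K r
    set f1 := F1 (E + 1) K r
    set f2 := F2 (E + 1) K r
    set s := sin r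
    set c := cos r
    have h3 : s * f2 = -((E + 1) * c * f1) - ν * s * f0 := by linarith
    linear_combination (2 * s ^ (E + 1) * f1 + s ^ E * E * c * f0) * h3
  have hc0 := F0_cont D K
  have hint := intervalIntegral.integral_eq_sub_of_hasDerivAt (a := 0) (b := π / 2)
    (fun x _ => hd x) (Continuous.intervalIntegrable (by fun_prop) _ _)
  rw [intervalIntegral.integral_const_mul] at hint
  rw [hint, hB]
  simp only [Real.sin_pi_div_two, Real.cos_pi_div_two, Real.sin_zero, F0_half, F1_half]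
  rw [zero_pow (show D ≠ 0 by omega)]
  ring

/-- the mass away from the pole-opposite region -/
theorem mass_cap (D K : ℕ) (hD : 1 ≤ D) :
    ∫ r in (0 : ℝ)..(π / 4), sin r ^ D * F0 D K r ^ 2 ≤ 1 := by
  have hD1 : (1 : ℝ) ≤ D := by exact_mod_cast hD
  have hv := virial D K hD
  have hc0 := F0_cont D K
  set ν : ℝ := (2 * K) * (2 * K + D) with hν
  have hν0 : 0 ≤ ν := by positivity
  set I := ∫ r in (0 : ℝ)..(π / 2), cos r * (sin r ^ D * F0 D K r ^ 2) with hI
  have hnn : ∀ r ∈ Icc 0 (π / 2), 0 ≤ cos r * (sin r ^ D * F0 D K r ^ 2) := by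
    intro r hr
    have h1 : 0 ≤ cos r := Real.cos_nonneg_of_mem_Icc ⟨by linarith [hr.1, Real.pi_pos], hr.2⟩
    have h2 : 0 ≤ sin r := Real.sin_nonneg_of_nonneg_of_le_pi hr.1 (by linarith [hr.2, Real.pi_pos])
    positivity
  have hI0 : 0 ≤ I := intervalIntegral.integral_nonneg (by positivity) hnn
  have hI1 : I ≤ 1 / 2 := by
    rcases eq_or_lt_of_le hD1 with h | h
    · rcases hν0.eq_or_lt with h0 | h0
      · -- degenerate case
        have hK : K = 0 := by
          by_contra hne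
          have : 0 < (K : ℝ) := by exact_mod_cast Nat.pos_of_ne_zero hne
          have : 0 < ν := by rw [hν]; positivity
          linarith
        have hD' : D = 1 := by exact_mod_cast h.symm
        subst hK hD'
        have e : ∀ r, F0 1 0 r = 1 := by
          intro r; simp [F0, P0, coef]
        rw [hI]
        simp only [e]
        have := intervalIntegral.integral_eq_sub_of_hasDerivAt (a := 0) (b := π / 2)
          (f := fun r => sin r ^ 2 / 2) (f' := fun r => cos r * (sin r ^ 1 * 1 ^ 2))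
          (fun x _ => by
            have := ((Real.hasDerivAt_sin x).pow 2).div_const 2
            refine this.congr_deriv ?_
            ring) (Continuous.intervalIntegrable (by fun_prop) _ _)
        rw [this]
        simp
      · rw [← h] at hv
        have : 0 < ν := h0
        nlinarith
    · have hp : 0 < 2 * ν + ((D : ℝ) ^ 2 - 1) / 2 := by nlinarith
      have : (2 * ν + ((D : ℝ) ^ 2 - 1) / 2) * I ≤ (2 * ν + ((D : ℝ) ^ 2 - 1) / 2) * (1 / 2) := by
        rw [hv]; nlinarith
      exact le_of_mul_le_mul_left this hp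
  have h1 : ∫ r in (0 : ℝ)..(π / 4), sin r ^ D * F0 D K r ^ 2 ≤
      ∫ r in (0 : ℝ)..(π / 4), 2 * (cos r * (sin r ^ D * F0 D K r ^ 2)) := by
    apply intervalIntegral.integral_mono_on (by positivity)
      (Continuous.intervalIntegrable (by fun_prop) _ _)
      (Continuous.intervalIntegrable (by fun_prop) _ _)
    intro r hr
    have h1 : 1 / 2 ≤ cos r := by
      rw [← Real.cos_pi_div_three]
      apply Real.cos_le_cos_of_nonneg_of_le_pi hr.1 (by linarith [Real.pi_pos])
      linarith [hr.2, Real.pi_pos]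
    have h2 : 0 ≤ sin r := Real.sin_nonneg_of_nonneg_of_le_pi hr.1 (by linarith [hr.2, Real.pi_pos])
    have h3 : 0 ≤ sin r ^ D * F0 D K r ^ 2 := by positivity
    nlinarith
  rw [intervalIntegral.integral_const_mul] at h1
  have h2 : ∫ r in (0 : ℝ)..(π / 4), cos r * (sin r ^ D * F0 D K r ^ 2) ≤ I := by
    apply intervalIntegral.integral_mono_interval le_rfl (by positivity) (by linarith [Real.pi_pos])
    · rw [Filter.EventuallyLE, ae_restrict_iff' measurableSet_Ioc]
      exact Eventually.of_forall fun r hr => hnn r ⟨hr.1.le, hr.2⟩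
    · exact Continuous.intervalIntegrable (by fun_prop) _ _
  linarith

end Pool.Agent.R207.Packet
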