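import Mathlib
import Pool.Agent.R207.Packet1

set_option autoImplicit false

/-! # Even zonal functions near the equator -/

namespace Pool.Agent.R207.Packet

open Real Set Filter Topology MeasureTheory

/-- weight `cos^ρ` -/
noncomputable def Cw (D : ℕ) (x : ℝ) : ℝ := cos x ^ ((D : ℝ) / 2)

/-- `Y(x) = cos(x)^ρ F(π/2 - x)` and its derivative -/
noncomputable def Y0 (D K : ℕ) (x : ℝ) : ℝ := Cw D x * F0 D K (π / 2 - x)
noncomputable def Y1 (D K : ℕ) (x : ℝ) : ℝ :=
  -((D : ℝ) / 2) * tan x * Cw D x * F0 D K (π / 2 - x) - Cw D x * F1 D K (π / 2 - x)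

/-- the frequency -/
noncomputable def fr (D K : ℕ) : ℝ := 2 * K + (D : ℝ) / 2

noncomputable def kap (D : ℕ) : ℝ := ((D : ℝ) / 2) ^ 2 - (D : ℝ) / 2

theorem Cw_deriv (D : ℕ) {x : ℝ} (hx : 0 < cos x) :
    HasDerivAt (Cw D) (-((D : ℝ) / 2) * tan x * Cw D x) x := by
  have h := (Real.hasDerivAt_cos x).rpow_const (p := (D : ℝ) / 2) (Or.inl hx.ne')
  refine h.congr_deriv ?_
  unfold Cw
  rw [Real.rpow_sub_one hx.ne', Real.tan_eq_sin_div_cos]
  field_simp

theorem Y0_deriv (D K : ℕ) {x : ℝ} (hx : 0 < cos x) : HasDerivAt (Y0 D K) (Y1 D K x) x := by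
  have h1 := (F0_deriv D K (π / 2 - x)).comp x ((hasDerivAt_id x).const_sub (π / 2))
  have h2 : HasDerivAt (Y0 D K) _ x := (Cw_deriv D hx).mul h1
  refine h2.congr_deriv ?_
  unfold Y1
  ring

theorem Y1_deriv (D K : ℕ) {x : ℝ} (hx : 0 < cos x) :
    HasDerivAt (Y1 D K) ((kap D / cos x ^ 2 - fr D K ^ 2) * Y0 D K x) x := by
  have h0 := (F0_deriv D K (π / 2 - x)).comp x ((hasDerivAt_id x).const_sub (π / 2))
  have h1 := (F1_deriv D K (π / 2 - x)).comp x ((hasDerivAt_id x).const_sub (π / 2))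
  have hC := Cw_deriv D hx
  have ht := Real.hasDerivAt_tan hx.ne'
  have h2 : HasDerivAt (Y1 D K) _ x :=
    (((ht.const_mul (-((D : ℝ) / 2))).mul hC).mul h0).sub (hC.mul h1)
  refine h2.congr_deriv ?_
  have ode := F_ode D K (π / 2 - x)
  rw [Real.sin_pi_div_two_sub, Real.cos_pi_div_two_sub] at ode
  unfold Y0 kap fr
  simp only [Function.comp_apply, Pi.mul_apply]
  have hsin : sin x = tan x * cos x := (Real.tan_mul_cos hx.ne').symm
  rw [hsin] at ode
  have ode' : F2 D K (π / 2 - x) = -(D * tan x * F1 D K (π / 2 - x)) -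
      (2 * K) * (2 * K + D) * F0 D K (π / 2 - x) := by
    have : cos x * (F2 D K (π / 2 - x) + (D * tan x * F1 D K (π / 2 - x)) +
      (2 * K) * (2 * K + D) * F0 D K (π / 2 - x)) = 0 := by linear_combination ode
    rcases mul_eq_zero.mp this with h | h
    · exact absurd h hx.ne'
    · linarith
  have hsec : 1 / cos x ^ 2 = 1 + tan x ^ 2 := by
    rw [Real.tan_eq_sin_div_cos]
    field_simp
    linarith [Real.sin_sq_add_cos_sq x]
  rw [ode', div_eq_mul_one_div (((D : ℝ) / 2) ^ 2 - (D : ℝ) / 2), hsec]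
  ring

theorem cos_pos_of_small {x : ℝ} (hx : x ∈ Icc 0 (π / 4)) : 0 < cos x :=
  Real.cos_pos_of_mem_Ioo ⟨by linarith [hx.1, Real.pi_pos], by linarith [hx.2, Real.pi_pos]⟩

theorem cos_sq_ge {x : ℝ} (hx : x ∈ Icc 0 (π / 4)) : 1 / 2 ≤ cos x ^ 2 := by
  have h : cos (π / 4) ≤ cos x := by
    apply Real.cos_le_cos_of_nonneg_of_le_pi hx.1 (by linarith [Real.pi_pos]) hx.2
  rw [Real.cos_pi_div_four] at h
  have h2 : (√2 / 2) ^ 2 = 1 / 2 := by
    rw [div_pow, Real.sq_sqrt (by norm_num)]; norm_num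
  rw [← h2]
  gcongr

/-- the rotated complex amplitude -/
noncomputable def WW (D K : ℕ) (x : ℝ) : ℂ :=
  Complex.exp (-(fr D K * x : ℝ) * Complex.I) * ((Y1 D K x : ℂ) + (fr D K * Y0 D K x : ℝ) * Complex.I)

theorem WW_deriv (D K : ℕ) {x : ℝ} (hx : 0 < cos x) :
    HasDerivAt (WW D K) (Complex.exp (-(fr D K * x : ℝ) * Complex.I) *
      ((kap D / cos x ^ 2 * Y0 D K x : ℝ) : ℂ)) x := by
  have h0 := (Y0_deriv D K hx).ofReal_comp
  have h1 := (Y1_deriv D K hx).ofReal_comp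
  have hl : HasDerivAt (fun x : ℝ => (-(fr D K * x : ℝ) * Complex.I : ℂ))
      (-(fr D K : ℂ) * Complex.I) x := by
    have := (((hasDerivAt_id x).const_mul (fr D K)).ofReal_comp.neg).mul_const Complex.I
    simpa using this
  have he := hl.cexp
  have hY : HasDerivAt (fun x : ℝ => ((Y1 D K x : ℂ) + (fr D K * Y0 D K x : ℝ) * Complex.I))
      (((kap D / cos x ^ 2 - fr D K ^ 2) * Y0 D K x : ℝ) + (fr D K * Y1 D K x : ℝ) * Complex.I) x := by
    have := h1.add ((((Y0_deriv D K hx).const_mul (fr D K)).ofReal_comp).mul_const Complex.I)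
    exact this
  have hh : HasDerivAt (WW D K) _ x := he.mul hY
  refine hh.congr_deriv ?_
  push_cast
  have hI : Complex.I ^ 2 = -1 := Complex.I_sq
  ring_nf
  rw [hI]
  ring

theorem norm_Y_le (D K : ℕ) (x : ℝ) : fr D K * |Y0 D K x| ≤ ‖WW D K x‖ := by
  unfold WW
  rw [norm_mul]
  have h1 : ‖Complex.exp (-(fr D K * x : ℝ) * Complex.I)‖ = 1 := by
    have := Complex.norm_exp_ofReal_mul_I (-(fr D K * x))
    push_cast at this ⊢
    exact this
  rw [h1, one_mul]
  have h2 := Complex.abs_im_le_norm ((Y1 D K x : ℂ) + (fr D K * Y0 D K x : ℝ) * Complex.I)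
  have h3 : ((Y1 D K x : ℂ) + (fr D K * Y0 D K x : ℝ) * Complex.I).im = fr D K * Y0 D K x := by
    simp
  rw [h3, abs_mul, abs_of_nonneg (show 0 ≤ fr D K by unfold fr; positivity)] at h2
  exact h2

theorem Y_zero (D K : ℕ) : Y0 D K 0 = 1 ∧ Y1 D K 0 = 0 := by
  unfold Y0 Y1 Cw
  simp [F0_half, F1_half]

/-- the amplitude stays bounded by a multiple of the frequency -/
theorem WW_bound (D K : ℕ) (hK : 1 ≤ K) {x : ℝ} (hx : x ∈ Icc 0 (π / 4)) :
    ‖WW D K x‖ ≤ fr D K * Real.exp (2 * |kap D|) ∧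
    ‖WW D K x - WW D K 0‖ ≤ 2 * |kap D| * Real.exp (2 * |kap D|) := by
  have hK1 : (1 : ℝ) ≤ K := by exact_mod_cast hK
  have hm : 1 ≤ fr D K := by
    unfold fr
    have : (0 : ℝ) ≤ (D : ℝ) / 2 := by positivity
    linarith
  have hm0 : 0 < fr D K := by linarith
  have hder : ∀ y ∈ Icc 0 (π / 4), HasDerivAt (WW D K) (Complex.exp (-(fr D K * y : ℝ) * Complex.I) *
      ((kap D / cos y ^ 2 * Y0 D K y : ℝ) : ℂ)) y := fun y hy => WW_deriv D K (cos_pos_of_small hy)
  have hnd : ∀ y ∈ Icc 0 (π / 4), ‖Complex.exp (-(fr D K * y : ℝ) * Complex.I) *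
      ((kap D / cos y ^ 2 * Y0 D K y : ℝ) : ℂ)‖ ≤ 2 * |kap D| * |Y0 D K y| := by
    intro y hy
    have h1 : ‖Complex.exp (-(fr D K * y : ℝ) * Complex.I)‖ = 1 := by
      have := Complex.norm_exp_ofReal_mul_I (-(fr D K * y))
      push_cast at this ⊢
      exact this
    rw [norm_mul, h1, one_mul, Complex.norm_real, Real.norm_eq_abs, abs_mul, abs_div]
    have h2 := cos_sq_ge hy
    rw [abs_of_nonneg (show 0 ≤ cos y ^ 2 by positivity)]
    have h3 : |kap D| / cos y ^ 2 ≤ 2 * |kap D| := by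
      rw [div_le_iff₀ (by linarith)]
      nlinarith [abs_nonneg (kap D)]
    gcongr
  have hW0 : ‖WW D K 0‖ = fr D K := by
    unfold WW
    rw [(Y_zero D K).1, (Y_zero D K).2]
    simp [abs_of_pos hm0]
  have hcont : ContinuousOn (WW D K) (Icc 0 (π / 4)) := fun y hy =>
    (hder y hy).continuousAt.continuousWithinAt
  have hgr := norm_le_gronwallBound_of_norm_deriv_right_le (δ := fr D K) (K := 2 * |kap D|) (ε := 0)
    hcont (fun y hy => (hder y ⟨hy.1, hy.2.le⟩).hasDerivWithinAt) hW0.le (fun y hy => by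
      refine (hnd y ⟨hy.1, hy.2.le⟩).trans ?_
      rw [add_zero]
      have h4 := norm_Y_le D K y
      have h5 : |Y0 D K y| ≤ ‖WW D K y‖ := by
        have := abs_nonneg (Y0 D K y)
        nlinarith
      gcongr)
  have hb : ∀ y ∈ Icc 0 (π / 4), ‖WW D K y‖ ≤ fr D K * Real.exp (2 * |kap D|) := by
    intro y hy
    refine (hgr y hy).trans ?_
    rw [gronwallBound_ε0]
    have : y ≤ 1 := by linarith [hy.2, Real.pi_le_four]
    have h0 := hy.1
    have h8 := abs_nonneg (kap D)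
    have h9 : 2 * |kap D| * (y - 0) ≤ 2 * |kap D| := by
      rw [sub_zero]; nlinarith
    exact mul_le_mul_of_nonneg_left (Real.exp_le_exp.mpr h9) hm0.le
  refine ⟨hb x hx, ?_⟩
  have hseg := norm_image_sub_le_of_norm_deriv_le_segment' (f := WW D K) (a := 0) (b := π / 4)
    (C := 2 * |kap D| * Real.exp (2 * |kap D|))
    (fun y hy => (hder y hy).hasDerivWithinAt) (fun y hy => by
      have hy' : y ∈ Icc 0 (π / 4) := ⟨hy.1, hy.2.le⟩
      refine (hnd y hy').trans ?_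
      have h4 := norm_Y_le D K y
      have h5 := hb y hy'
      have h6 : |Y0 D K y| ≤ Real.exp (2 * |kap D|) := by
        have : fr D K * |Y0 D K y| ≤ fr D K * Real.exp (2 * |kap D|) := h4.trans h5
        exact le_of_mul_le_mul_left this hm0
      gcongr) x hx
  refine hseg.trans ?_
  have : x ≤ 1 := by linarith [hx.2, Real.pi_le_four]
  rw [sub_zero]
  have h7 : 0 ≤ 2 * |kap D| * Real.exp (2 * |kap D|) := by positivity
  nlinarith

theorem Y_bound (D K : ℕ) (hK : 1 ≤ K) {x : ℝ} (hx : x ∈ Icc 0 (π / 4)) :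
    |Y0 D K x| ≤ Real.exp (2 * |kap D|) := by
  have hK1 : (1 : ℝ) ≤ K := by exact_mod_cast hK
  have hm0 : 0 < fr D K := by unfold fr; positivity
  exact le_of_mul_le_mul_left ((norm_Y_le D K x).trans (WW_bound D K hK hx).1) hm0

/-- the WKB approximation -/
theorem Y_approx (D K : ℕ) (hK : 1 ≤ K) {x : ℝ} (hx : x ∈ Icc 0 (π / 4)) :
    |Y0 D K x - cos (fr D K * x)| ≤ 2 * |kap D| * Real.exp (2 * |kap D|) / fr D K := by
  have hK1 : (1 : ℝ) ≤ K := by exact_mod_cast hK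
  have hm0 : 0 < fr D K := by unfold fr; positivity
  rw [le_div_iff₀ hm0]
  have h1 := (WW_bound D K hK hx).2
  have hexp : ‖Complex.exp ((fr D K * x : ℝ) * Complex.I)‖ = 1 :=
    Complex.norm_exp_ofReal_mul_I _
  have h2 : ‖Complex.exp ((fr D K * x : ℝ) * Complex.I) * (WW D K x - WW D K 0)‖ ≤
      2 * |kap D| * Real.exp (2 * |kap D|) := by
    rw [norm_mul, hexp, one_mul]; exact h1
  have h3 : Complex.exp ((fr D K * x : ℝ) * Complex.I) * (WW D K x - WW D K 0) =
      ((Y1 D K x : ℂ) + (fr D K * Y0 D K x : ℝ) * Complex.I) -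
        Complex.exp ((fr D K * x : ℝ) * Complex.I) * ((fr D K : ℝ) * Complex.I) := by
    unfold WW
    rw [(Y_zero D K).1, (Y_zero D K).2, mul_sub, ← mul_assoc, ← Complex.exp_add]
    simp
  have h4 := (Complex.abs_im_le_norm _).trans h2
  rw [h3, Complex.sub_im] at h4
  have h5 : ((Y1 D K x : ℂ) + (fr D K * Y0 D K x : ℝ) * Complex.I).im = fr D K * Y0 D K x := by simp
  have h6 : (Complex.exp ((fr D K * x : ℝ) * Complex.I) * ((fr D K : ℝ) * Complex.I)).im =
      fr D K * cos (fr D K * x) := by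
    rw [Complex.exp_mul_I]
    simp [← Complex.ofReal_cos, ← Complex.ofReal_sin, -Complex.ofReal_mul]
    ring
  rw [h5, h6, ← mul_sub, abs_mul, abs_of_pos hm0] at h4
  linarith

/-- uniform bound of the mass -/
theorem mass_le (D K : ℕ) (hD : 1 ≤ D) (hK : 1 ≤ K) :
    ∫ r in (0 : ℝ)..(π / 2), sin r ^ D * F0 D K r ^ 2 ≤ 1 + Real.exp (2 * |kap D|) ^ 2 := by
  have hc0 := F0_cont D K
  have hi : ∀ a b : ℝ, IntervalIntegrable (fun r => sin r ^ D * F0 D K r ^ 2) volume a b :=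
    fun a b => Continuous.intervalIntegrable (by fun_prop) _ _
  rw [← intervalIntegral.integral_add_adjacent_intervals (hi 0 (π / 4)) (hi (π / 4) (π / 2))]
  have h1 := mass_cap D K hD
  have h2 : ∫ r in (π / 4)..(π / 2), sin r ^ D * F0 D K r ^ 2 ≤
      ∫ _ in (π / 4)..(π / 2), Real.exp (2 * |kap D|) ^ 2 := by
    apply intervalIntegral.integral_mono_on (by linarith [Real.pi_pos]) (hi _ _) (by simp)
    intro r hr
    have hx : π / 2 - r ∈ Icc 0 (π / 4) := ⟨by linarith [hr.2], by linarith [hr.1]⟩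
    have h3 := Y_bound D K hK hx
    have h4 : sin r ^ D * F0 D K r ^ 2 = Y0 D K (π / 2 - r) ^ 2 := by
      unfold Y0 Cw
      have hc := cos_pos_of_small hx
      rw [sub_sub_cancel, mul_pow, ← Real.rpow_natCast (cos (π / 2 - r) ^ ((D : ℝ) / 2)) 2,
        ← Real.rpow_mul hc.le, Real.cos_pi_div_two_sub]
      push_cast
      rw [div_mul_cancel₀ _ (by norm_num : (2 : ℝ) ≠ 0), Real.rpow_natCast]
    rw [h4, ← sq_abs]
    gcongr
  rw [intervalIntegral.integral_const, smul_eq_mul] at h2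
  have h5 : (π / 2 - π / 4) * Real.exp (2 * |kap D|) ^ 2 ≤ 1 * Real.exp (2 * |kap D|) ^ 2 := by
    gcongr
    linarith [Real.pi_le_four]
  linarith

end Pool.Agent.R207.Packet
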