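import Mathlib
import Pool.Agent.R207.Packet2

set_option autoImplicit false

/-! # Exponential sums and the packet -/

namespace Pool.Agent.R207.Packet

open Real Set Filter Topology MeasureTheory

/-- `e^{ix}` -/
noncomputable def ex (x : ℝ) : ℂ := Complex.exp (Complex.I * x)

theorem ex_norm (x : ℝ) : ‖ex x‖ = 1 := by
  unfold ex; rw [mul_comm]; exact Complex.norm_exp_ofReal_mul_I x

theorem ex_add (x y : ℝ) : ex (x + y) = ex x * ex y := by
  unfold ex; rw [← Complex.exp_add]; push_cast; ring_nf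

theorem ex_zero : ex 0 = 1 := by simp [ex]

theorem ex_sub_one (x : ℝ) : ‖ex x - 1‖ ≤ |x| := Real.norm_exp_I_mul_ofReal_sub_one_le

theorem ex_sub (x y : ℝ) : ‖ex x - ex y‖ ≤ |x - y| := by
  have : ex x - ex y = ex y * (ex (x - y) - 1) := by
    rw [mul_sub, ← ex_add]; ring_nf
  rw [this, norm_mul, ex_norm, one_mul]
  exact ex_sub_one _

theorem cos_ex (x : ℝ) : ((cos x : ℝ) : ℂ) = (ex x + ex (-x)) / 2 := by
  unfold ex
  rw [Complex.ofReal_cos, Complex.cos]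
  push_cast
  ring_nf

theorem geom_bound (q : ℂ) (hq : ‖q‖ = 1) (h1 : 1 ≤ ‖q - 1‖) (J : ℕ) :
    ‖∑ j ∈ Finset.range J, q ^ j‖ ≤ 2 := by
  have hne : q ≠ 1 := by
    rintro rfl
    simp at h1
    linarith
  rw [geom_sum_eq hne, norm_div]
  have h2 : ‖q ^ J - 1‖ ≤ 2 := by
    calc ‖q ^ J - 1‖ ≤ ‖q ^ J‖ + ‖(1 : ℂ)‖ := norm_sub_le _ _
      _ = 2 := by rw [norm_pow, hq]; norm_num
  rw [div_le_iff₀ (by linarith)]
  linarith

theorem ratio_bound {x : ℝ} (h0 : π / 8 ≤ x) (h1 : x ≤ π / 4) : 1 ≤ ‖ex (-(4 * x)) - 1‖ := by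
  unfold ex
  rw [Complex.norm_exp_I_mul_ofReal_sub_one, Real.norm_eq_abs, abs_mul]
  have e : -(4 * x) / 2 = -(2 * x) := by ring
  rw [e, Real.sin_neg, abs_neg]
  have h2 : sin (π / 4) ≤ sin (2 * x) := by
    apply Real.sin_le_sin_of_le_of_le_pi_div_two <;> linarith [Real.pi_pos]
  rw [Real.sin_pi_div_four] at h2
  have h3 : 1 ≤ √2 := Real.one_le_sqrt.mpr (by norm_num)
  have h4 : (0 : ℝ) ≤ sin (2 * x) := by linarith
  rw [abs_of_nonneg h4]
  norm_num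
  linarith

/-- the model sum is large -/
theorem model_sum {M x t : ℝ} {J : ℕ} (hM : 0 < M) (h0 : π / 8 ≤ x) (h1 : x ≤ π / 4)
    (ht : t = x / (2 * M)) (hJ : 4 * t * (J : ℝ) ^ 2 ≤ 1 / 8) :
    3 * (J : ℝ) / 8 - 1 ≤
      ‖∑ j ∈ Finset.range J, ex (-(t * (M + 2 * j) ^ 2)) * ((cos ((M + 2 * j) * x) : ℝ) : ℂ)‖ := by
  have ht0 : 0 ≤ t := by
    rw [ht]
    have := Real.pi_pos
    have : 0 ≤ x := by linarith
    positivity
  have htM : t * M = x / 2 := by rw [ht]; field_simp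
  set a : ℕ → ℂ := fun j => ex (-(4 * t * (j : ℝ) ^ 2)) with ha
  set q : ℂ := ex (-(4 * x)) with hq
  have hqp : ∀ j : ℕ, q ^ j = ex (-(4 * x * j)) := by
    intro j
    induction j with
    | zero => simp [ex]
    | succ j ih => rw [pow_succ, ih, hq, ← ex_add]; congr 1; push_cast; ring
  have hterm : ∀ j : ℕ, ex (-(t * (M + 2 * j) ^ 2)) * ((cos ((M + 2 * j) * x) : ℝ) : ℂ) =
      (ex (-(t * M ^ 2) + M * x) * a j + ex (-(t * M ^ 2) - M * x) * (q ^ j * a j)) / 2 := by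
    intro j
    rw [cos_ex, hqp, ha]
    beta_reduce
    rw [mul_div_assoc', mul_add, ← ex_add, ← ex_add, ← ex_add, ← ex_add, ← ex_add]
    have e1 : -(t * (M + 2 * (j : ℝ)) ^ 2) + (M + 2 * j) * x =
        -(t * M ^ 2) + M * x + -(4 * t * (j : ℝ) ^ 2) := by
      linear_combination (-4 * (j : ℝ)) * htM
    have e2 : -(t * (M + 2 * (j : ℝ)) ^ 2) + -((M + 2 * j) * x) =
        -(t * M ^ 2) - M * x + (-(4 * x * j) + -(4 * t * (j : ℝ) ^ 2)) := by
      linear_combination (-4 * (j : ℝ)) * htM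
    rw [e1, e2]
  have hsum : ∑ j ∈ Finset.range J, ex (-(t * (M + 2 * j) ^ 2)) *
      ((cos ((M + 2 * j) * x) : ℝ) : ℂ) =
      (ex (-(t * M ^ 2) + M * x) * (∑ j ∈ Finset.range J, a j) +
        ex (-(t * M ^ 2) - M * x) * (∑ j ∈ Finset.range J, q ^ j * a j)) / 2 := by
    rw [Finset.sum_congr rfl fun j _ => hterm j, ← Finset.sum_div, Finset.sum_add_distrib,
      Finset.mul_sum, Finset.mul_sum]
  have ha1 : ∀ j ∈ Finset.range J, ‖a j - 1‖ ≤ 1 / 8 := by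
    intro j hj
    refine (ex_sub_one _).trans ?_
    rw [abs_neg, abs_of_nonneg (by positivity)]
    have : (j : ℝ) ≤ J := by exact_mod_cast (Finset.mem_range.mp hj).le
    calc 4 * t * (j : ℝ) ^ 2 ≤ 4 * t * (J : ℝ) ^ 2 := by gcongr
      _ ≤ 1 / 8 := hJ
  have hA : ‖(∑ j ∈ Finset.range J, a j) - J‖ ≤ J / 8 := by
    have e : (∑ j ∈ Finset.range J, a j) - J = ∑ j ∈ Finset.range J, (a j - 1) := by
      rw [Finset.sum_sub_distrib]; simp
    rw [e]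
    refine (norm_sum_le _ _).trans ?_
    refine (Finset.sum_le_sum ha1).trans ?_
    rw [Finset.sum_const, Finset.card_range, nsmul_eq_mul]
    linarith
  have hB : ‖(∑ j ∈ Finset.range J, q ^ j * a j) - ∑ j ∈ Finset.range J, q ^ j‖ ≤ J / 8 := by
    rw [← Finset.sum_sub_distrib]
    refine (norm_sum_le _ _).trans ?_
    have : ∀ j ∈ Finset.range J, ‖q ^ j * a j - q ^ j‖ ≤ 1 / 8 := by
      intro j hj
      have e : q ^ j * a j - q ^ j = q ^ j * (a j - 1) := by ring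
      rw [e, norm_mul, norm_pow, hq, ex_norm, one_pow, one_mul]
      exact ha1 j hj
    refine (Finset.sum_le_sum this).trans ?_
    rw [Finset.sum_const, Finset.card_range, nsmul_eq_mul]
    linarith
  have hG : ‖∑ j ∈ Finset.range J, q ^ j‖ ≤ 2 := geom_bound q (ex_norm _) (ratio_bound h0 h1) J
  rw [hsum, norm_div]
  have hn1 : (J : ℝ) - J / 8 ≤ ‖∑ j ∈ Finset.range J, a j‖ := by
    have h5 := norm_sub_norm_le ((J : ℂ)) ((J : ℂ) - ∑ j ∈ Finset.range J, a j)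
    rw [sub_sub_cancel, ← norm_neg ((J : ℂ) - _), neg_sub] at h5
    have : ‖(J : ℂ)‖ = J := by simp
    rw [this] at h5
    linarith
  have hn2 : ‖∑ j ∈ Finset.range J, q ^ j * a j‖ ≤ 2 + J / 8 := by
    have h6 := norm_add_le (∑ j ∈ Finset.range J, q ^ j)
      ((∑ j ∈ Finset.range J, q ^ j * a j) - ∑ j ∈ Finset.range J, q ^ j)
    rw [add_sub_cancel] at h6
    linarith
  have h7 := norm_sub_norm_le (ex (-(t * M ^ 2) + M * x) * (∑ j ∈ Finset.range J, a j))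
    (-(ex (-(t * M ^ 2) - M * x) * (∑ j ∈ Finset.range J, q ^ j * a j)))
  rw [sub_neg_eq_add, norm_neg, norm_mul, norm_mul, ex_norm, ex_norm, one_mul, one_mul] at h7
  rw [le_div_iff₀ (by norm_num)]
  norm_num
  linarith

/-- the packet is large at a suitable time -/
theorem packet_large (D : ℕ) (ψ : ℝ → ℝ) {B : ℝ}
    (hψ : ∀ r, 0 ≤ r → |ψ r - r ^ 2| ≤ B) {J : ℕ} (hJ : 16 ≤ J)
    (hJ2 : (B + ((D : ℝ) / 2) ^ 2) * Real.exp (2 * |kap D|) +
      2 * |kap D| * Real.exp (2 * |kap D|) ≤ J) {x : ℝ} (h0 : π / 8 ≤ x) (h1 : x ≤ π / 4) :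
    ∃ t ∈ Ico (0 : ℝ) (2 * π), (J : ℝ) / 4 ≤
      ‖∑ j ∈ Finset.range J, ex (-(t * ψ √((2 * (8 * J ^ 2 + j : ℕ)) *
        (2 * (8 * J ^ 2 + j : ℕ) + D)))) * ((F0 D (8 * J ^ 2 + j) (π / 2 - x) : ℝ) : ℂ)‖ := by
  have hpi := Real.pi_pos
  have hpi4 := Real.pi_le_four
  have hJr : (16 : ℝ) ≤ J := by exact_mod_cast hJ
  set M : ℝ := 16 * (J : ℝ) ^ 2 + (D : ℝ) / 2 with hM
  have hM16 : 16 * (J : ℝ) ^ 2 ≤ M := by
    have : (0 : ℝ) ≤ (D : ℝ) / 2 := by positivity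
    linarith
  have hM0 : 0 < M := by positivity
  set t : ℝ := x / (2 * M) with ht
  have hx0 : 0 ≤ x := by linarith
  have ht0 : 0 ≤ t := by positivity
  have htM : t * M ≤ 1 / 2 := by
    have : t * M = x / 2 := by rw [ht]; field_simp
    rw [this]; linarith
  have hB0 : 0 ≤ B := (abs_nonneg _).trans (hψ 0 le_rfl)
  refine ⟨t, ⟨ht0, ?_⟩, ?_⟩
  · have hM1 : 1 ≤ M := by nlinarith
    have : t ≤ 1 / 2 := by nlinarith
    linarith [Real.pi_gt_three]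
  have hfr : ∀ j : ℕ, fr D (8 * J ^ 2 + j) = M + 2 * j := by
    intro j; unfold fr; rw [hM]; push_cast; ring
  have hx : x ∈ Icc 0 (π / 4) := ⟨hx0, h1⟩
  have hcos := cos_pos_of_small hx
  set v : ℂ := ∑ j ∈ Finset.range J, ex (-(t * ψ √((2 * (8 * J ^ 2 + j : ℕ)) *
        (2 * (8 * J ^ 2 + j : ℕ) + D)))) * ((Y0 D (8 * J ^ 2 + j) x : ℝ) : ℂ) with hv
  have hvu : v = ((Cw D x : ℝ) : ℂ) * ∑ j ∈ Finset.range J, ex (-(t * ψ √((2 * (8 * J ^ 2 + j : ℕ)) *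
        (2 * (8 * J ^ 2 + j : ℕ) + D)))) * ((F0 D (8 * J ^ 2 + j) (π / 2 - x) : ℝ) : ℂ) := by
    rw [hv, Finset.mul_sum]
    apply Finset.sum_congr rfl
    intro j _
    unfold Y0
    push_cast
    ring
  have hC1 : ‖((Cw D x : ℝ) : ℂ)‖ ≤ 1 := by
    rw [Complex.norm_real, Real.norm_eq_abs]
    unfold Cw
    rw [abs_of_nonneg (Real.rpow_nonneg hcos.le _)]
    exact Real.rpow_le_one hcos.le (Real.cos_le_one x) (by positivity)
  have hmod := model_sum (M := M) (J := J) hM0 h0 h1 ht (by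
    have : 4 * t * (J : ℝ) ^ 2 ≤ 4 * t * (M / 16) := by gcongr; linarith
    linarith)
  set E := Real.exp (2 * |kap D|) with hE
  have hE0 : 0 < E := Real.exp_pos _
  have hterm : ∀ j ∈ Finset.range J, ‖ex (-(t * ψ √((2 * (8 * J ^ 2 + j : ℕ)) *
        (2 * (8 * J ^ 2 + j : ℕ) + D)))) * ((Y0 D (8 * J ^ 2 + j) x : ℝ) : ℂ) -
        ex (-(t * (M + 2 * j) ^ 2)) * ((cos ((M + 2 * j) * x) : ℝ) : ℂ)‖ ≤
        ((B + ((D : ℝ) / 2) ^ 2) * E + 2 * |kap D| * E) / M := by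
    intro j _
    have hK : 1 ≤ 8 * J ^ 2 + j := by nlinarith
    have y1 := Y_bound D _ hK hx
    have y2 := Y_approx D _ hK hx
    rw [hfr j] at y2
    have hmj : M ≤ M + 2 * (j : ℝ) := by
      have : (0 : ℝ) ≤ j := by positivity
      linarith
    set A : ℝ := ψ √((2 * (8 * J ^ 2 + j : ℕ)) * (2 * (8 * J ^ 2 + j : ℕ) + D)) with hA
    have hAd : |A - (M + 2 * j) ^ 2| ≤ B + ((D : ℝ) / 2) ^ 2 := by
      have h3 := hψ (√((2 * (8 * J ^ 2 + j : ℕ)) * (2 * (8 * J ^ 2 + j : ℕ) + D))) (Real.sqrt_nonneg _)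
      rw [Real.sq_sqrt (by positivity), ← hA] at h3
      have h4 : (M + 2 * (j : ℝ)) ^ 2 = (2 * (8 * J ^ 2 + j : ℕ)) * (2 * (8 * J ^ 2 + j : ℕ) + D) +
          ((D : ℝ) / 2) ^ 2 := by
        rw [hM]; push_cast; ring
      rw [h4]
      have h5 := abs_le.mp h3
      have h6 : (0 : ℝ) ≤ ((D : ℝ) / 2) ^ 2 := by positivity
      rw [abs_le]
      constructor <;> linarith [h5.1, h5.2]
    have e : ex (-(t * A)) * ((Y0 D (8 * J ^ 2 + j) x : ℝ) : ℂ) -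
        ex (-(t * (M + 2 * j) ^ 2)) * ((cos ((M + 2 * j) * x) : ℝ) : ℂ) =
        (ex (-(t * A)) - ex (-(t * (M + 2 * j) ^ 2))) * ((Y0 D (8 * J ^ 2 + j) x : ℝ) : ℂ) +
        ex (-(t * (M + 2 * j) ^ 2)) *
          ((Y0 D (8 * J ^ 2 + j) x - cos ((M + 2 * j) * x) : ℝ) : ℂ) := by
      push_cast; ring
    rw [e]
    refine (norm_add_le _ _).trans ?_
    rw [norm_mul, norm_mul, ex_norm, one_mul, Complex.norm_real, Complex.norm_real,
      Real.norm_eq_abs, Real.norm_eq_abs]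
    have h7 : ‖ex (-(t * A)) - ex (-(t * (M + 2 * j) ^ 2))‖ ≤ t * (B + ((D : ℝ) / 2) ^ 2) := by
      refine (ex_sub _ _).trans ?_
      have : -(t * A) - -(t * (M + 2 * j) ^ 2) = -(t * (A - (M + 2 * j) ^ 2)) := by ring
      rw [this, abs_neg, abs_mul, abs_of_nonneg ht0]
      gcongr
    have h8 : t ≤ 1 / M := by rw [le_div_iff₀ hM0]; linarith
    have h9 : ‖ex (-(t * A)) - ex (-(t * (M + 2 * j) ^ 2))‖ * |Y0 D (8 * J ^ 2 + j) x| ≤
        (B + ((D : ℝ) / 2) ^ 2) * E / M := by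
      calc _ ≤ (t * (B + ((D : ℝ) / 2) ^ 2)) * E := by gcongr
        _ ≤ (1 / M * (B + ((D : ℝ) / 2) ^ 2)) * E := by gcongr
        _ = _ := by ring
    have h10 : |Y0 D (8 * J ^ 2 + j) x - cos ((M + 2 * j) * x)| ≤ 2 * |kap D| * E / M := by
      refine y2.trans ?_
      gcongr
    rw [add_div]
    linarith
  have hdiff : ‖v - ∑ j ∈ Finset.range J, ex (-(t * (M + 2 * j) ^ 2)) *
      ((cos ((M + 2 * j) * x) : ℝ) : ℂ)‖ ≤ 1 := by
    rw [hv, ← Finset.sum_sub_distrib]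
    refine (norm_sum_le _ _).trans ?_
    refine (Finset.sum_le_sum hterm).trans ?_
    rw [Finset.sum_const, Finset.card_range, nsmul_eq_mul, ← mul_div_assoc, div_le_one hM0]
    calc (J : ℝ) * ((B + ((D : ℝ) / 2) ^ 2) * E + 2 * |kap D| * E) ≤ J * J := by gcongr
      _ ≤ M := by nlinarith
  have hv1 : (J : ℝ) / 4 ≤ ‖v‖ := by
    have h11 := norm_sub_norm_le (∑ j ∈ Finset.range J, ex (-(t * (M + 2 * j) ^ 2)) *
      ((cos ((M + 2 * j) * x) : ℝ) : ℂ)) v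
    rw [← norm_neg, neg_sub] at hdiff
    linarith
  rw [hvu, norm_mul] at hv1
  refine hv1.trans ?_
  exact mul_le_of_le_one_left (norm_nonneg _) hC1

end Pool.Agent.R207.Packet
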