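import Mathlib

set_option autoImplicit false

/-! # Similarity profiles: monotone quantities and convergence -/

namespace Pool.Agent.R207.Prof

open Real Set Filter Topology MeasureTheory

/-- The system satisfied on `(0,∞)` by `G = -g`, `c`, `k = G G'`. -/
structure Sys (G G1 c k : ℝ → ℝ) : Prop where
  hG : ∀ z, 0 < z → HasDerivAt G (G1 z) z
  hc : ∀ z, 0 < z → HasDerivAt c (G z / 3) z
  hk : ∀ z, 0 < z → HasDerivAt k (c z - z / 3 * G z) z
  kk : ∀ z, 0 < z → k z = G z * G1 z

/-- first monotone quantity -/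
noncomputable def QQ (G c k : ℝ → ℝ) (z : ℝ) : ℝ :=
  c z * G z ^ 2 / 2 - z * G z ^ 3 / 9 - k z ^ 2 / 2

/-- second monotone quantity -/
noncomputable def EE (G c k : ℝ → ℝ) (z : ℝ) : ℝ :=
  k z ^ 2 / 2 + z * G z ^ 3 / 9 - c z * G z ^ 2 / 2 + 3 * c z ^ 3 / (2 * z ^ 2)

variable {G G1 c k : ℝ → ℝ}

theorem Q_hasDerivAt {z g1 : ℝ} (h1 : HasDerivAt G g1 z) (h2 : HasDerivAt c (G z / 3) z)
    (h3 : HasDerivAt k (c z - z / 3 * G z) z) (this : k z = G z * g1) :
    HasDerivAt (QQ G c k) (G z ^ 3 / 18) z := by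
  have h : HasDerivAt (QQ G c k) _ z :=
    (((h2.mul (h1.pow 2)).div_const 2).sub (((hasDerivAt_id z).mul (h1.pow 3)).div_const 9)).sub
      ((h3.pow 2).div_const 2)
  refine h.congr_deriv ?_
  simp only [Pi.pow_apply, id]
  push_cast
  rw [this]
  ring

theorem Sys.Q_deriv (S : Sys G G1 c k) {z : ℝ} (hz : 0 < z) :
    HasDerivAt (QQ G c k) (G z ^ 3 / 18) z :=
  Q_hasDerivAt (S.hG z hz) (S.hc z hz) (S.hk z hz) (S.kk z hz)

theorem Sys.E_deriv (S : Sys G G1 c k) {z : ℝ} (hz : 0 < z) :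
    HasDerivAt (EE G c k) (-((G z - 3 * c z / z) ^ 2 * (G z + 2 * (3 * c z / z))) / 18) z := by
  have h1 := S.hG z hz
  have h2 := S.hc z hz
  have h3 := S.hk z hz
  have hz2 : 2 * z ^ 2 ≠ 0 := by positivity
  have h4 : HasDerivAt (fun z : ℝ => 2 * z ^ 2) (2 * (2 * z)) z := by
    have := (hasDerivAt_pow 2 z).const_mul 2
    simpa using this
  have h : HasDerivAt (EE G c k) _ z :=
    ((((h3.pow 2).div_const 2).add (((hasDerivAt_id z).mul (h1.pow 3)).div_const 9)).sub
      ((h2.mul (h1.pow 2)).div_const 2)).add (((h2.pow 3).const_mul 3).div h4 hz2)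
  refine h.congr_deriv ?_
  have := S.kk z hz
  simp only [Pi.pow_apply, id]
  push_cast
  rw [this]
  field_simp
  ring

theorem E_eq {z : ℝ} (hz : 0 < z) : EE G c k z =
    k z ^ 2 / 2 + z / 18 * ((G z - 3 * c z / z) ^ 2 * (2 * G z + 3 * c z / z)) := by
  unfold EE
  field_simp
  ring

theorem E_Q {z : ℝ} : EE G c k z = 3 * c z ^ 3 / (2 * z ^ 2) - QQ G c k z := by
  unfold EE QQ
  ring

/-- positivity assumptions -/
structure PosSys (G G1 c k : ℝ → ℝ) : Prop extends Sys G G1 c k where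
  Gpos : ∀ z, 0 < z → 0 < G z
  cpos : ∀ z, 0 < z → 0 < c z
  Qpos : ∀ z, 0 < z → 0 < QQ G c k z

variable (P : PosSys G G1 c k)
include P

theorem PosSys.G_lt {z : ℝ} (hz : 0 < z) : G z < 9 * c z / (2 * z) := by
  have h1 := P.Qpos z hz
  have h2 := P.Gpos z hz
  unfold QQ at h1
  rw [lt_div_iff₀ (by positivity)]
  by_contra hcon
  push Not at hcon
  nlinarith [sq_nonneg (k z), mul_le_mul_of_nonneg_left hcon (sq_nonneg (G z))]

/-- the averaged amplitude -/
noncomputable def Sa (c : ℝ → ℝ) (z : ℝ) : ℝ := 3 * c z / z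

theorem PosSys.Sa_pos {z : ℝ} (hz : 0 < z) : 0 < Sa c z := by
  have := P.cpos z hz
  unfold Sa; positivity

theorem PosSys.Sa_deriv {z : ℝ} (hz : 0 < z) : HasDerivAt (Sa c) ((G z - Sa c z) / z) z := by
  have h2 := P.hc z hz
  have h : HasDerivAt (Sa c) _ z := (h2.const_mul 3).div (hasDerivAt_id z) hz.ne'
  refine h.congr_deriv ?_
  unfold Sa
  field_simp

theorem PosSys.E_anti : AntitoneOn (EE G c k) (Ioi 0) := by
  apply antitoneOn_of_deriv_nonpos (convex_Ioi 0)
  · exact fun z hz => (P.E_deriv hz).continuousAt.continuousWithinAt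
  · intro z hz
    rw [interior_Ioi] at hz
    exact (P.E_deriv hz).differentiableAt.differentiableWithinAt
  · intro z hz
    rw [interior_Ioi] at hz
    rw [(P.E_deriv hz).deriv]
    have h1 := P.Gpos z hz
    have h2 := P.cpos z hz
    have hz' : (0 : ℝ) < z := hz
    have : 0 ≤ (G z - 3 * c z / z) ^ 2 * (G z + 2 * (3 * c z / z)) := by positivity
    linarith

theorem PosSys.k_sq_le {z : ℝ} (hz : 0 < z) : k z ^ 2 ≤ 2 * EE G c k z := by
  rw [E_eq hz]
  have h1 := P.Gpos z hz
  have h2 := P.cpos z hz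
  have : 0 ≤ z / 18 * ((G z - 3 * c z / z) ^ 2 * (2 * G z + 3 * c z / z)) := by positivity
  linarith

theorem PosSys.E_nonneg {z : ℝ} (hz : 0 < z) : 0 ≤ EE G c k z := by
  have := P.k_sq_le hz
  nlinarith [sq_nonneg (k z)]

theorem PosSys.E_lt {z : ℝ} (hz : 0 < z) : EE G c k z < z * Sa c z ^ 3 / 18 := by
  have h1 := P.Qpos z hz
  have h2 := P.cpos z hz
  rw [E_Q]
  have : 3 * c z ^ 3 / (2 * z ^ 2) = z * Sa c z ^ 3 / 18 := by
    unfold Sa; field_simp; ring
  rw [← this]
  linarith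

theorem PosSys.Sa_growth {z : ℝ} (hz : 1 ≤ z) : Sa c z ≤ Sa c 1 * z := by
  have hanti : AntitoneOn (fun z => Sa c z ^ 2 / z) (Ioi 0) := by
    have hd : ∀ z, 0 < z → HasDerivAt (fun z => Sa c z ^ 2 / z)
        (Sa c z * (2 * G z - 3 * Sa c z) / z ^ 2) z := by
      intro z hz
      have h : HasDerivAt (fun z => Sa c z ^ 2 / z) _ z :=
        ((P.Sa_deriv hz).pow 2).div (hasDerivAt_id z) hz.ne'
      refine h.congr_deriv ?_
      simp only [Pi.pow_apply]
      push_cast
      field_simp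
      ring
    apply antitoneOn_of_deriv_nonpos (convex_Ioi 0)
    · exact fun z hz => (hd z hz).continuousAt.continuousWithinAt
    · intro z hz
      rw [interior_Ioi] at hz
      exact (hd z hz).differentiableAt.differentiableWithinAt
    · intro z hz
      rw [interior_Ioi] at hz
      have hz' : (0 : ℝ) < z := hz
      rw [(hd z hz).deriv]
      have h1 := P.G_lt hz
      have h2 := P.Sa_pos hz
      have h3 : 9 * c z / (2 * z) = 3 / 2 * Sa c z := by unfold Sa; field_simp; ring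
      rw [h3] at h1
      apply div_nonpos_of_nonpos_of_nonneg _ (sq_nonneg _)
      apply mul_nonpos_of_nonneg_of_nonpos h2.le
      linarith
  have h1 := hanti (mem_Ioi.mpr one_pos) (mem_Ioi.mpr (by linarith)) hz
  have hz0 : 0 < z := by linarith
  simp only [div_one] at h1
  rw [div_le_iff₀ hz0] at h1
  have h2 := P.Sa_pos hz0
  have h3 := P.Sa_pos one_pos
  apply le_of_sq_le_sq _ (by positivity)
  calc Sa c z ^ 2 ≤ Sa c 1 ^ 2 * z := h1
    _ ≤ Sa c 1 ^ 2 * z ^ 2 := by gcongr; nlinarith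
    _ = _ := by ring

omit P in
theorem PosSys.c_eq {z : ℝ} (hz : 0 < z) : c z = z * Sa c z / 3 := by
  unfold Sa; field_simp

/-- auxiliary function with integrable derivative -/
noncomputable def RR (c k : ℝ → ℝ) (z : ℝ) : ℝ := Sa c z + 3 * k z / z ^ 2

theorem PosSys.RR_deriv {z : ℝ} (hz : 0 < z) : HasDerivAt (RR c k) (-6 * k z / z ^ 3) z := by
  have h1 := P.Sa_deriv hz
  have h2 := P.hk z hz
  have hz2 : z ^ 2 ≠ 0 := by positivity
  have h : HasDerivAt (RR c k) _ z := h1.add ((h2.const_mul 3).div (hasDerivAt_pow 2 z) hz2)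
  refine h.congr_deriv ?_
  rw [PosSys.c_eq (c := c) hz]
  push_cast
  field_simp
  ring

theorem PosSys.tendsto : ∃ l : ℝ, 0 < l ∧ Tendsto G atTop (𝓝 l) := by
  obtain ⟨z1, hz1, hz1'⟩ : ∃ z1 : ℝ, 1 ≤ z1 ∧ 36 * Sa c z1 ≤ z1 ^ 3 := by
    refine ⟨max 1 (36 * Sa c 1), le_max_left _ _, ?_⟩
    set z1 := max 1 (36 * Sa c 1) with hz1
    have h1 : 1 ≤ z1 := le_max_left _ _
    have h2 : 36 * Sa c 1 ≤ z1 := le_max_right _ _
    have h3 := P.Sa_growth h1
    have h4 := P.Sa_pos one_pos
    calc 36 * Sa c z1 ≤ 36 * (Sa c 1 * z1) := by linarith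
      _ = (36 * Sa c 1) * z1 := by ring
      _ ≤ z1 * z1 := by gcongr
      _ ≤ z1 * z1 * z1 := by nlinarith [mul_pos (by linarith : 0 < z1) (by linarith : 0 < z1)]
      _ = _ := by ring
  have hz0 : 0 < z1 := by linarith
  set E1 := EE G c k z1 with hE1
  have hE1n : 0 ≤ E1 := P.E_nonneg hz0
  set B := √(2 * E1) with hB
  have hB0 : 0 ≤ B := Real.sqrt_nonneg _
  have hB2 : B ^ 2 = 2 * E1 := Real.sq_sqrt (by linarith)
  have hEle : ∀ z, z1 ≤ z → EE G c k z ≤ E1 := fun z hz =>
    P.E_anti (mem_Ioi.mpr hz0) (mem_Ioi.mpr (by linarith)) hz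
  have hkB : ∀ z, z1 ≤ z → |k z| ≤ B := by
    intro z hz
    have h1 := P.k_sq_le (z := z) (by linarith)
    have h2 := hEle z hz
    apply abs_le_of_sq_le_sq _ hB0
    rw [hB2]; linarith
  -- R converges
  have hRint : IntegrableOn (fun z : ℝ => -6 * k z / z ^ 3) (Ioi z1) := by
    have hint : IntegrableOn (fun z : ℝ => 6 * B * z ^ (-3 : ℝ)) (Ioi z1) :=
      (integrableOn_Ioi_rpow_of_lt (by norm_num) hz0).const_mul _
    refine hint.mono' ?_ ?_
    · apply ContinuousOn.aestronglyMeasurable _ measurableSet_Ioi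
      intro z hz
      have hz' : z1 < z := hz
      have hz0' : 0 < z := by linarith
      have : z ^ 3 ≠ 0 := by positivity
      exact ((continuousAt_const.mul (P.hk z hz0').continuousAt).div
        (continuousAt_id.pow 3) this).continuousWithinAt
    · filter_upwards [ae_restrict_mem measurableSet_Ioi] with z hz
      have hz' : z1 < z := hz
      have hz0' : 0 < z := by linarith
      have h1 := hkB z hz'.le
      have h2 : z ^ (-3 : ℝ) = (z ^ 3)⁻¹ := by
        rw [Real.rpow_neg hz0'.le]; norm_cast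
      rw [h2, Real.norm_eq_abs, abs_div, abs_mul, abs_of_pos (by positivity : 0 < z ^ 3),
        div_eq_mul_inv]
      norm_num
      gcongr
  have hR := tendsto_limUnder_of_hasDerivAt_of_integrableOn_Ioi
    (a := z1) (f := RR c k) (f' := fun z : ℝ => -6 * k z / z ^ 3)
    (fun z hz => P.RR_deriv (lt_trans hz0 hz)) hRint
  set l := limUnder atTop (RR c k) with hl
  have hinv : Tendsto (fun z : ℝ => (z ^ 2)⁻¹) atTop (𝓝 0) :=
    (tendsto_pow_atTop (by norm_num)).inv_tendsto_atTop
  have hk0 : Tendsto (fun z : ℝ => 3 * k z / z ^ 2) atTop (𝓝 0) := by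
    have h1 : Tendsto (fun z : ℝ => 3 * B * (z ^ 2)⁻¹) atTop (𝓝 0) := by
      simpa using hinv.const_mul (3 * B)
    refine squeeze_zero_norm' ?_ h1
    filter_upwards [eventually_ge_atTop z1] with z hz
    have hz0' : 0 < z := by linarith
    rw [Real.norm_eq_abs, abs_div, abs_mul, abs_of_pos (by positivity : 0 < z ^ 2), div_eq_mul_inv]
    have := hkB z hz
    norm_num
    gcongr
  have hS : Tendsto (Sa c) atTop (𝓝 l) := by
    have h1 := hR.sub hk0
    rw [sub_zero] at h1
    refine h1.congr fun z => ?_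
    unfold RR; ring
  -- positivity of the limit
  have hlpos : 0 < l := by
    have hmono : MonotoneOn (fun z => RR c k z - 3 * B * (z ^ 2)⁻¹) (Ici z1) := by
      have hd : ∀ z, 0 < z → HasDerivAt (fun z => RR c k z - 3 * B * (z ^ 2)⁻¹)
          (6 * (B - k z) / z ^ 3) z := by
        intro z hz
        have hz2 : z ^ 2 ≠ 0 := by positivity
        have h : HasDerivAt (fun z => RR c k z - 3 * B * (z ^ 2)⁻¹) _ z :=
          (P.RR_deriv hz).sub (((hasDerivAt_pow 2 z).inv hz2).const_mul (3 * B))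
        refine h.congr_deriv ?_
        push_cast
        field_simp
        ring
      apply monotoneOn_of_deriv_nonneg (convex_Ici z1)
      · exact fun z hz => (hd z (lt_of_lt_of_le hz0 hz)).continuousAt.continuousWithinAt
      · intro z hz
        rw [interior_Ici] at hz
        exact (hd z (lt_trans hz0 hz)).differentiableAt.differentiableWithinAt
      · intro z hz
        rw [interior_Ici] at hz
        have hz' : z1 < z := hz
        have hz0' : 0 < z := by linarith
        rw [(hd z hz0').deriv]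
        have := (abs_le.mp (hkB z hz'.le)).2
        have : 0 ≤ B - k z := by linarith
        positivity
    have hlim : Tendsto (fun z => RR c k z - 3 * B * (z ^ 2)⁻¹) atTop (𝓝 l) := by
      have := hR.sub (hinv.const_mul (3 * B))
      simpa using this
    have hge : RR c k z1 - 3 * B * (z1 ^ 2)⁻¹ ≤ l := by
      apply ge_of_tendsto hlim
      filter_upwards [eventually_ge_atTop z1] with z hz
      exact hmono (mem_Ici.mpr le_rfl) (mem_Ici.mpr hz) hz
    have hk1 := (abs_le.mp (hkB z1 le_rfl)).1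
    have hS1 := P.Sa_pos hz0
    have hE2 := P.E_lt hz0
    have hkey : 6 * B < Sa c z1 * z1 ^ 2 := by
      apply lt_of_pow_lt_pow_left₀ 2 (by positivity)
      calc (6 * B) ^ 2 = 36 * (2 * E1) := by rw [mul_pow, hB2]; norm_num
        _ < 36 * (2 * (z1 * Sa c z1 ^ 3 / 18)) := by rw [hE1]; linarith
        _ = 4 * Sa c z1 * (z1 * Sa c z1 ^ 2) := by ring
        _ ≤ z1 ^ 3 * (z1 * Sa c z1 ^ 2) := by gcongr; linarith
        _ = _ := by ring
    have h5 : 0 < RR c k z1 - 3 * B * (z1 ^ 2)⁻¹ := by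
      unfold RR
      have : Sa c z1 + 3 * k z1 / z1 ^ 2 - 3 * B * (z1 ^ 2)⁻¹ =
          (Sa c z1 * z1 ^ 2 + 3 * k z1 - 3 * B) / z1 ^ 2 := by
        field_simp
      rw [this]
      apply div_pos _ (by positivity)
      linarith
    linarith
  refine ⟨l, hlpos, ?_⟩
  -- G - S tends to zero
  have hzS : Tendsto (fun z => z * Sa c z) atTop atTop := tendsto_id.atTop_mul_pos hlpos hS
  have h18 : Tendsto (fun z => 18 * E1 / (z * Sa c z)) atTop (𝓝 0) := tendsto_const_nhds.div_atTop hzS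
  have hsq : Tendsto (fun z => (G z - Sa c z) ^ 2) atTop (𝓝 0) := by
    refine squeeze_zero' (Eventually.of_forall fun z => sq_nonneg _) ?_ h18
    filter_upwards [eventually_ge_atTop z1] with z hz
    have hz0' : 0 < z := by linarith
    have h1 := hEle z hz
    rw [E_eq hz0'] at h1
    have h2 := P.Gpos z hz0'
    have h3 := P.Sa_pos hz0'
    rw [le_div_iff₀ (by positivity)]
    change k z ^ 2 / 2 + z / 18 * ((G z - Sa c z) ^ 2 * (2 * G z + Sa c z)) ≤ E1 at h1
    have h4 : 0 ≤ z / 18 * ((G z - Sa c z) ^ 2 * (2 * G z)) := by positivity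
    nlinarith [sq_nonneg (k z)]
  have habs : Tendsto (fun z => G z - Sa c z) atTop (𝓝 0) := by
    have := hsq.sqrt
    simp only [Real.sqrt_sq_eq_abs, Real.sqrt_zero] at this
    exact (tendsto_zero_iff_abs_tendsto_zero _).mpr this
  have := habs.add hS
  simpa using this

end Pool.Agent.R207.Prof
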