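import Pool.Agent.R207.Prof1

set_option autoImplicit false

/-! # Similarity profiles: uniqueness -/

namespace Pool.Agent.R207.Prof

open Real Set Filter Topology MeasureTheory intervalIntegral

/-- The system on the whole line, with data at `0`. -/
structure Core (G G1 c k : ℝ → ℝ) : Prop where
  hG : ∀ z, HasDerivAt G (G1 z) z
  hc : ∀ z, HasDerivAt c (G z / 3) z
  hk : ∀ z, HasDerivAt k (c z - z / 3 * G z) z
  kk : ∀ z, k z = G z * G1 z
  G0 : G 0 = 0
  c0 : c 0 = G1 0 ^ 2

variable {G G1 c k : ℝ → ℝ}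

theorem Core.contG (P : Core G G1 c k) : Continuous G :=
  continuous_iff_continuousAt.mpr fun z => (P.hG z).continuousAt

theorem Core.contc (P : Core G G1 c k) : Continuous c :=
  continuous_iff_continuousAt.mpr fun z => (P.hc z).continuousAt

theorem Core.contk (P : Core G G1 c k) : Continuous k :=
  continuous_iff_continuousAt.mpr fun z => (P.hk z).continuousAt

theorem Core.k0 (P : Core G G1 c k) : k 0 = 0 := by rw [P.kk, P.G0, zero_mul]

theorem Core.toSys (P : Core G G1 c k) : Sys G G1 c k where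
  hG z _ := P.hG z
  hc z _ := P.hc z
  hk z _ := P.hk z
  kk z _ := P.kk z

theorem Core.scale (P : Core G G1 c k) {l : ℝ} (hl : 0 < l) :
    Core (fun z => (l ^ 3)⁻¹ * G (l * z)) (fun z => (l ^ 2)⁻¹ * G1 (l * z))
      (fun z => (l ^ 4)⁻¹ * c (l * z)) (fun z => (l ^ 5)⁻¹ * k (l * z)) where
  hG z := by
    have h1 : HasDerivAt (fun z => l * z) l z := by simpa using (hasDerivAt_id z).const_mul l
    have h := ((P.hG (l * z)).comp z h1).const_mul (l ^ 3)⁻¹
    refine h.congr_deriv ?_
    field_simp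
  hc z := by
    have h1 : HasDerivAt (fun z => l * z) l z := by simpa using (hasDerivAt_id z).const_mul l
    have h := ((P.hc (l * z)).comp z h1).const_mul (l ^ 4)⁻¹
    refine h.congr_deriv ?_
    field_simp
  hk z := by
    have h1 : HasDerivAt (fun z => l * z) l z := by simpa using (hasDerivAt_id z).const_mul l
    have h := ((P.hk (l * z)).comp z h1).const_mul (l ^ 5)⁻¹
    refine h.congr_deriv ?_
    field_simp
  kk z := by
    simp only [P.kk]
    field_simp
  G0 := by simp [P.G0]
  c0 := by simp [P.c0]; field_simp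

/-- The function cannot be negative anywhere on the half line. -/
theorem Core.nonneg (P : Core G G1 c k) (hlim : ∀ᶠ z in atTop, 0 < G z) {x : ℝ} (hx : 0 < x) :
    0 ≤ G x := by
  by_contra hneg
  push Not at hneg
  -- left endpoint
  obtain ⟨z0, hz0, hz0max⟩ : ∃ z0, IsGreatest {z | z ∈ Icc 0 x ∧ 0 ≤ G z} z0 := by
    apply IsCompact.exists_isGreatest
    · exact isCompact_Icc.inter_right (isClosed_le continuous_const P.contG)
    · exact ⟨0, ⟨le_rfl, hx.le⟩, P.G0.ge⟩
  obtain ⟨M, hM, hMx⟩ : ∃ M, 0 < G M ∧ x < M := (hlim.and (eventually_gt_atTop x)).exists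
  obtain ⟨z2, hz2, hz2min⟩ : ∃ z2, IsLeast {z | z ∈ Icc x M ∧ 0 ≤ G z} z2 := by
    apply IsCompact.exists_isLeast
    · exact isCompact_Icc.inter_right (isClosed_le continuous_const P.contG)
    · exact ⟨M, ⟨hMx.le, le_rfl⟩, hM.le⟩
  have h0x : z0 < x := by
    rcases hz0.1.2.lt_or_eq with h | h
    · exact h
    · rw [h] at hz0; exact absurd hz0.2 (not_le.mpr hneg)
  have hx2 : x < z2 := by
    rcases hz2.1.1.lt_or_eq with h | h
    · exact h
    · rw [← h] at hz2; exact absurd hz2.2 (not_le.mpr hneg)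
  have hneg1 : ∀ z ∈ Ioo z0 z2, G z < 0 := by
    intro z hz
    by_contra hcon
    push Not at hcon
    rcases le_total z x with h | h
    · have := hz0max (show z ∈ {z | z ∈ Icc 0 x ∧ 0 ≤ G z} from
        ⟨⟨hz0.1.1.trans hz.1.le, h⟩, hcon⟩)
      exact absurd this (not_le.mpr hz.1)
    · have := hz2min (show z ∈ {z | z ∈ Icc x M ∧ 0 ≤ G z} from
        ⟨⟨h, hz.2.le.trans hz2.1.2⟩, hcon⟩)
      exact absurd this (not_le.mpr hz.2)
  have hlt : z0 < z2 := h0x.trans hx2
  have hclos : ∀ z ∈ Icc z0 z2, G z ≤ 0 := by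
    intro z hz
    have h1 : closure (Ioo z0 z2) ⊆ {z | G z ≤ 0} :=
      closure_minimal (fun z hz => (hneg1 z hz).le) (isClosed_le P.contG continuous_const)
    rw [closure_Ioo hlt.ne] at h1
    exact h1 hz
  have hG0 : G z0 = 0 := le_antisymm (hclos z0 ⟨le_rfl, hlt.le⟩) hz0.2
  have hG2 : G z2 = 0 := le_antisymm (hclos z2 ⟨hlt.le, le_rfl⟩) hz2.2
  -- F = k k'
  set w : ℝ → ℝ := fun z => c z - z / 3 * G z with hw
  have hwd : ∀ z, HasDerivAt w (-(z / 3) * G1 z) z := by
    intro z
    have h : HasDerivAt w _ z :=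
      (P.hc z).sub (((hasDerivAt_id z).div_const 3).mul (P.hG z))
    refine h.congr_deriv ?_
    simp only [id]
    ring
  set F : ℝ → ℝ := fun z => k z * w z with hF
  have hFd : ∀ z, HasDerivAt F (w z ^ 2 - z / 3 * (G z * G1 z ^ 2)) z := by
    intro z
    have h : HasDerivAt F _ z := (P.hk z).mul (hwd z)
    refine h.congr_deriv ?_
    rw [P.kk z]
    simp only [hw]
    ring
  have hFmono : MonotoneOn F (Icc z0 z2) := by
    apply monotoneOn_of_deriv_nonneg (convex_Icc _ _)
    · exact fun z _ => (hFd z).continuousAt.continuousWithinAt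
    · exact fun z _ => (hFd z).differentiableAt.differentiableWithinAt
    · intro z hz
      rw [interior_Icc] at hz
      rw [(hFd z).deriv]
      have h1 := hneg1 z hz
      have h2 : 0 ≤ z := hz0.1.1.trans hz.1.le
      have h3 : 0 ≤ z / 3 * (-G z * G1 z ^ 2) := by
        have : 0 ≤ -G z := by linarith
        positivity
      nlinarith [sq_nonneg (w z)]
  have hk0 : k z0 = 0 := by rw [P.kk, hG0, zero_mul]
  have hk2 : k z2 = 0 := by rw [P.kk, hG2, zero_mul]
  have hF0 : ∀ z ∈ Icc z0 z2, F z = 0 := by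
    intro z hz
    have h1 := hFmono ⟨le_rfl, hlt.le⟩ hz hz.1
    have h2 := hFmono hz ⟨hlt.le, le_rfl⟩ hz.2
    simp only [hF, hk0, hk2, zero_mul] at h1 h2 ⊢
    linarith
  -- k^2 is constant
  have hk2c : ∀ z ∈ Icc z0 z2, k z ^ 2 = k z0 ^ 2 := by
    apply constant_of_derivWithin_zero
    · exact fun z _ => ((P.hk z).pow 2).differentiableAt.differentiableWithinAt
    · intro z hz
      have h1 : HasDerivWithinAt (fun x => k x ^ 2) _ (Icc z0 z2) z :=
        ((P.hk z).pow 2).hasDerivWithinAt
      rw [h1.derivWithin (uniqueDiffOn_Icc hlt z ⟨hz.1, hz.2.le⟩)]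
      have := hF0 z ⟨hz.1, hz.2.le⟩
      simp only [hF, hw] at this
      push_cast
      linear_combination 2 * this
  have hG2c : ∀ z ∈ Icc z0 z2, G z ^ 2 = G z0 ^ 2 := by
    apply constant_of_derivWithin_zero
    · exact fun z _ => ((P.hG z).pow 2).differentiableAt.differentiableWithinAt
    · intro z hz
      have h1 : HasDerivWithinAt (fun x => G x ^ 2) _ (Icc z0 z2) z :=
        ((P.hG z).pow 2).hasDerivWithinAt
      rw [h1.derivWithin (uniqueDiffOn_Icc hlt z ⟨hz.1, hz.2.le⟩)]
      have h2 := hk2c z ⟨hz.1, hz.2.le⟩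
      rw [hk0] at h2
      have h3 : k z = 0 := by simpa using h2
      rw [P.kk] at h3
      push_cast
      linear_combination 2 * h3
  have := hG2c x ⟨h0x.le, hx2.le⟩
  rw [hG0] at this
  have : G x = 0 := by simpa using this
  linarith

/-- The slope at the origin is positive. -/
theorem Core.slope_pos (P : Core G G1 c k) (hlim : ∀ᶠ z in atTop, 0 < G z) : 0 < G1 0 := by
  have hG : ∀ z, 0 < z → 0 ≤ G z := fun z hz => P.nonneg hlim hz
  have h0 : 0 ≤ G1 0 := by
    have h1 := (P.hG 0).tendsto_slope_zero_right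
    apply ge_of_tendsto h1
    filter_upwards [self_mem_nhdsWithin] with t ht
    have ht' : (0 : ℝ) < t := ht
    rw [zero_add, P.G0, sub_zero]
    have := hG t ht'
    simp only [smul_eq_mul]
    positivity
  rcases h0.lt_or_eq with h | h
  · exact h
  exfalso
  have hc0 : c 0 = 0 := by rw [P.c0, ← h]; simp
  have hcm : MonotoneOn c (Ici 0) := by
    apply monotoneOn_of_deriv_nonneg (convex_Ici 0)
    · exact P.contc.continuousOn
    · exact fun z _ => (P.hc z).differentiableAt.differentiableWithinAt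
    · intro z hz
      rw [interior_Ici] at hz
      rw [(P.hc z).deriv]
      have := hG z hz
      positivity
  have hcn : ∀ z, 0 < z → 0 ≤ c z := by
    intro z hz
    have := hcm (mem_Ici.mpr le_rfl) (mem_Ici.mpr hz.le) hz.le
    rwa [hc0] at this
  have hEanti : AntitoneOn (EE G c k) (Ioi 0) := by
    apply antitoneOn_of_deriv_nonpos (convex_Ioi 0)
    · exact fun z hz => (P.toSys.E_deriv hz).continuousAt.continuousWithinAt
    · intro z hz
      rw [interior_Ioi] at hz
      exact (P.toSys.E_deriv hz).differentiableAt.differentiableWithinAt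
    · intro z hz
      rw [interior_Ioi] at hz
      rw [(P.toSys.E_deriv hz).deriv]
      have h1 := hG z hz
      have h2 := hcn z hz
      have hz' : (0 : ℝ) < z := hz
      have : 0 ≤ (G z - 3 * c z / z) ^ 2 * (G z + 2 * (3 * c z / z)) := by positivity
      linarith
  -- E tends to 0 at 0+
  have hElim : Tendsto (EE G c k) (𝓝[>] 0) (𝓝 0) := by
    have hslope := (P.hc 0).tendsto_slope_zero_right
    simp only [zero_add, hc0, sub_zero, smul_eq_mul, P.G0, zero_div] at hslope
    have hcc : Tendsto c (𝓝[>] 0) (𝓝 0) := by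
      have := P.contc.tendsto 0
      rw [hc0] at this
      exact this.mono_left nhdsWithin_le_nhds
    have hQ : Tendsto (QQ G c k) (𝓝[>] 0) (𝓝 0) := by
      have hcont : Continuous (QQ G c k) := by
        have := P.contG
        have := P.contc
        have := P.contk
        unfold QQ
        fun_prop
      have := hcont.tendsto 0
      have hQ0 : QQ G c k 0 = 0 := by simp [QQ, P.G0, P.k0]
      rw [hQ0] at this
      exact this.mono_left nhdsWithin_le_nhds
    have h3 : Tendsto (fun z => 3 / 2 * (c z * (z⁻¹ * c z) ^ 2) - QQ G c k z) (𝓝[>] 0) (𝓝 0) := by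
      have := (((hcc.mul (hslope.pow 2)).const_mul (3 / 2)).sub hQ)
      simpa using this
    refine h3.congr' ?_
    filter_upwards [self_mem_nhdsWithin] with z hz
    have hz' : (0 : ℝ) < z := hz
    rw [E_Q]
    field_simp
  have hEle : ∀ z, 0 < z → EE G c k z ≤ 0 := by
    intro z hz
    apply ge_of_tendsto hElim
    filter_upwards [Ioo_mem_nhdsGT hz] with t ht
    exact hEanti (mem_Ioi.mpr ht.1) (mem_Ioi.mpr hz) ht.2.le
  have hkz : ∀ z, 0 < z → k z = 0 := by
    intro z hz
    have h1 := hEle z hz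
    rw [E_eq hz] at h1
    have h2 := hG z hz
    have h3 := hcn z hz
    have : 0 ≤ z / 18 * ((G z - 3 * c z / z) ^ 2 * (2 * G z + 3 * c z / z)) := by positivity
    have h4 : k z ^ 2 ≤ 0 := by linarith
    have h5 : k z ^ 2 = 0 := le_antisymm h4 (sq_nonneg _)
    simpa using h5
  obtain ⟨M, hM, hM0⟩ : ∃ M, 0 < G M ∧ 0 < M := (hlim.and (eventually_gt_atTop 0)).exists
  have hconst : ∀ z ∈ Icc 0 M, G z ^ 2 = G 0 ^ 2 := by
    apply constant_of_derivWithin_zero
    · exact fun z _ => ((P.hG z).pow 2).differentiableAt.differentiableWithinAt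
    · intro z hz
      have h1 : HasDerivWithinAt (fun x => G x ^ 2) _ (Icc 0 M) z :=
        ((P.hG z).pow 2).hasDerivWithinAt
      rw [h1.derivWithin (uniqueDiffOn_Icc hM0 z ⟨hz.1, hz.2.le⟩)]
      have h3 : k z = 0 := by
        rcases hz.1.lt_or_eq with h | h
        · exact hkz z h
        · rw [← h]; exact P.k0
      rw [P.kk] at h3
      push_cast
      linear_combination 2 * h3
  have := hconst M ⟨hM0.le, le_rfl⟩
  rw [P.G0] at this
  have : G M = 0 := by simpa using this
  linarith

/-- positivity of `c` -/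
theorem Core.c_pos (P : Core G G1 c k) (hG : ∀ z, 0 < z → 0 ≤ G z) (ha : 0 < G1 0) {z : ℝ}
    (hz : 0 ≤ z) : 0 < c z := by
  have hcm : MonotoneOn c (Ici 0) := by
    apply monotoneOn_of_deriv_nonneg (convex_Ici 0)
    · exact P.contc.continuousOn
    · exact fun z _ => (P.hc z).differentiableAt.differentiableWithinAt
    · intro z hz
      rw [interior_Ici] at hz
      rw [(P.hc z).deriv]
      have := hG z hz
      positivity
  have := hcm (mem_Ici.mpr le_rfl) (mem_Ici.mpr hz) hz
  rw [P.c0] at this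
  have h2 : 0 < G1 0 ^ 2 := by positivity
  linarith

/-- positivity of the first monotone quantity -/
theorem Core.Q_pos (P : Core G G1 c k) (hG : ∀ z, 0 < z → 0 ≤ G z) (ha : 0 < G1 0) {z : ℝ}
    (hz : 0 < z) : 0 < QQ G c k z := by
  have hd : ∀ z, HasDerivAt (QQ G c k) (G z ^ 3 / 18) z := fun z =>
    Q_hasDerivAt (P.hG z) (P.hc z) (P.hk z) (P.kk z)
  have hQ0 : QQ G c k 0 = 0 := by simp [QQ, P.G0, P.k0]
  have hQm : MonotoneOn (QQ G c k) (Ici 0) := by
    apply monotoneOn_of_deriv_nonneg (convex_Ici 0)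
    · exact fun z _ => (hd z).continuousAt.continuousWithinAt
    · exact fun z _ => (hd z).differentiableAt.differentiableWithinAt
    · intro z hz
      rw [interior_Ici] at hz
      rw [(hd z).deriv]
      have := hG z hz
      positivity
  -- G is positive near 0
  have h1 := (P.hG 0).tendsto_slope_zero_right
  have h2 : ∀ᶠ t in 𝓝[>] (0 : ℝ), 0 < G t := by
    filter_upwards [h1.eventually (lt_mem_nhds ha), self_mem_nhdsWithin] with t ht ht0
    have ht' : (0 : ℝ) < t := ht0
    rw [zero_add, P.G0, sub_zero, smul_eq_mul] at ht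
    by_contra hcon
    push Not at hcon
    have : t⁻¹ * G t ≤ 0 := mul_nonpos_of_nonneg_of_nonpos (by positivity) hcon
    linarith
  obtain ⟨t, ht, htz⟩ : ∃ t ∈ Ioo 0 z, ∀ s ∈ Ioo 0 t, 0 < G s := by
    obtain ⟨u, hu, hu2⟩ := (mem_nhdsGT_iff_exists_Ioo_subset.mp h2)
    refine ⟨min u z / 2, ⟨?_, ?_⟩, ?_⟩
    · have : (0 : ℝ) < min u z := lt_min hu hz
      linarith
    · have : min u z ≤ z := min_le_right _ _
      linarith
    · intro s hs
      apply hu2
      refine ⟨hs.1, ?_⟩
      have : min u z ≤ u := min_le_left _ _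
      have : (0 : ℝ) < min u z := lt_min hu hz
      linarith [hs.2]
  have hQt : QQ G c k 0 < QQ G c k t := by
    have hst : StrictMonoOn (QQ G c k) (Icc 0 t) := by
      apply strictMonoOn_of_deriv_pos (convex_Icc 0 t)
      · exact fun z _ => (hd z).continuousAt.continuousWithinAt
      · intro s hs
        rw [interior_Icc] at hs
        rw [(hd s).deriv]
        have := htz s hs
        positivity
    exact hst ⟨le_rfl, ht.1.le⟩ ⟨ht.1.le, le_rfl⟩ ht.1
  have := hQm (mem_Ici.mpr ht.1.le) (mem_Ici.mpr hz.le) ht.2.le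
  linarith

theorem Core.posSys (P : Core G G1 c k) (hG : ∀ z, 0 < z → 0 ≤ G z) (ha : 0 < G1 0) :
    PosSys G G1 c k where
  toSys := P.toSys
  cpos z hz := P.c_pos hG ha hz.le
  Qpos z hz := P.Q_pos hG ha hz
  Gpos z hz := by
    rcases (hG z hz).lt_or_eq with h | h
    · exact h
    · have h1 := P.Q_pos hG ha hz
      simp only [QQ, ← h] at h1
      nlinarith [sq_nonneg (k z)]

theorem Core.lower (P : Core G G1 c k) (hG : ∀ z, 0 < z → 0 < G z) (ha : 0 < G1 0) {Z : ℝ}
    (hZ : 0 < Z) : ∃ m : ℝ, 0 < m ∧ ∀ z ∈ Icc 0 Z, m * z ≤ G z := by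
  have hcont : ContinuousOn (dslope G 0) (Icc 0 Z) := by
    intro z _
    apply ContinuousAt.continuousWithinAt
    rcases eq_or_ne z 0 with h | h
    · rw [h]; exact continuousAt_dslope_same.mpr (P.hG 0).differentiableAt
    · exact (continuousAt_dslope_of_ne h).mpr P.contG.continuousAt
  obtain ⟨x, hx, hmin⟩ := isCompact_Icc.exists_isMinOn ⟨0, ⟨le_rfl, hZ.le⟩⟩ hcont
  have hval : ∀ z, 0 < z → dslope G 0 z = G z / z := by
    intro z hz
    rw [dslope_of_ne _ hz.ne', slope_def_field, P.G0, sub_zero, sub_zero]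
  refine ⟨dslope G 0 x, ?_, ?_⟩
  · rcases hx.1.lt_or_eq with h | h
    · rw [hval x h]; exact div_pos (hG x h) h
    · rw [← h, dslope_same, (P.hG 0).deriv]; exact ha
  · intro z hz
    rcases hz.1.lt_or_eq with h | h
    · have := hmin hz
      simp only [mem_ofPred_eq] at this
      rw [hval z h, le_div_iff₀ h] at this
      exact this
    · rw [← h, P.G0]; simp

/-- Two positive solutions with the same slope coincide on the half line. -/
theorem Core.unique {H H1 d l : ℝ → ℝ} (P : Core G G1 c k) (R : Core H H1 d l)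
    (hG : ∀ z, 0 < z → 0 < G z) (hH : ∀ z, 0 < z → 0 < H z) (ha : 0 < G1 0)
    (hab : G1 0 = H1 0) : ∀ z, 0 ≤ z → G z = H z := by
  intro Z hZ0
  rcases hZ0.eq_or_lt with h | hZ
  · rw [← h, P.G0, R.G0]
  obtain ⟨m, hm, hmG⟩ := P.lower hG ha hZ
  set D : ℝ → ℝ := fun z => G z - H z with hD
  have hDc : Continuous D := P.contG.sub R.contG
  set y : ℝ → ℝ := fun z => ∫ s in (0 : ℝ)..z, |D s| with hy
  have hyd : ∀ z, HasDerivAt y |D z| z := fun z =>
    intervalIntegral.integral_hasDerivAt_right (hDc.abs.intervalIntegrable _ _)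
      (hDc.abs.stronglyMeasurableAtFilter _ _) hDc.abs.continuousAt
  have hy0 : y 0 = 0 := by simp [hy]
  have hymono : MonotoneOn y (Ici 0) := by
    apply monotoneOn_of_deriv_nonneg (convex_Ici 0)
    · exact fun z _ => (hyd z).continuousAt.continuousWithinAt
    · exact fun z _ => (hyd z).differentiableAt.differentiableWithinAt
    · intro z _
      rw [(hyd z).deriv]
      exact abs_nonneg _
  have hyn : ∀ z, 0 ≤ z → 0 ≤ y z := by
    intro z hz
    have := hymono (mem_Ici.mpr le_rfl) (mem_Ici.mpr hz) hz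
    rwa [hy0] at this
  -- q
  set q : ℝ → ℝ := fun z => c z - d z with hq
  have hqd : ∀ z, HasDerivAt q (D z / 3) z := fun z =>
    ((P.hc z).sub (R.hc z)).congr_deriv (by simp only [hD]; ring)
  have hq0 : q 0 = 0 := by simp [hq, P.c0, R.c0, hab]
  have hqle : ∀ z, 0 ≤ z → |q z| ≤ y z / 3 := by
    intro z hz
    have h1 : ∫ s in (0 : ℝ)..z, D s / 3 = q z - q 0 :=
      intervalIntegral.integral_eq_sub_of_hasDerivAt (fun s _ => hqd s)
        ((hDc.div_const 3).intervalIntegrable _ _)
    rw [hq0, sub_zero] at h1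
    rw [← h1]
    calc |∫ s in (0 : ℝ)..z, D s / 3| ≤ ∫ s in (0 : ℝ)..z, |D s / 3| :=
          intervalIntegral.abs_integral_le_integral_abs hz
      _ = ∫ s in (0 : ℝ)..z, |D s| / 3 := by
          congr 1; ext s; rw [abs_div]; norm_num
      _ = _ := by rw [intervalIntegral.integral_div]
  -- p
  set p : ℝ → ℝ := fun z => k z - l z with hp
  have hpd : ∀ z, HasDerivAt p (q z - z / 3 * D z) z := fun z =>
    ((P.hk z).sub (R.hk z)).congr_deriv (by simp only [hD, hq]; ring)
  have hp0 : p 0 = 0 := by simp [hp, P.k0, R.k0]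
  have hple : ∀ z, 0 ≤ z → |p z| ≤ z * y z := by
    intro z hz
    have h1 : ∀ s ∈ Icc 0 z, HasDerivWithinAt (fun s => p s + s * q s) (2 * q s) (Icc 0 z) s := by
      intro s _
      have h : HasDerivAt (fun s => p s + s * q s) _ s :=
        (hpd s).add ((hasDerivAt_id s).mul (hqd s))
      refine (h.congr_deriv ?_).hasDerivWithinAt
      simp only [id]
      ring
    have h2 : ∀ s ∈ Ico 0 z, ‖2 * q s‖ ≤ 2 / 3 * y z := by
      intro s hs
      rw [norm_mul]
      have h3 := hqle s hs.1
      have h4 := hymono (mem_Ici.mpr hs.1) (mem_Ici.mpr hz) hs.2.le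
      simp only [Real.norm_eq_abs]
      norm_num
      linarith
    have h3 := norm_image_sub_le_of_norm_deriv_le_segment' h1 h2 z ⟨hz, le_rfl⟩
    simp only [hp0, zero_mul, zero_add, sub_zero, Real.norm_eq_abs] at h3
    have h4 := hqle z hz
    calc |p z| = |(p z + z * q z) - z * q z| := by congr 1; ring
      _ ≤ |p z + z * q z| + |z * q z| := abs_sub _ _
      _ ≤ 2 / 3 * y z * z + z * (y z / 3) := by
          rw [abs_mul, abs_of_nonneg hz]
          gcongr
      _ = _ := by ring
  -- r
  set r : ℝ → ℝ := fun z => G z ^ 2 / 2 - H z ^ 2 / 2 with hr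
  have hrd : ∀ z, HasDerivAt r (p z) z := by
    intro z
    have h : HasDerivAt r _ z := (((P.hG z).pow 2).div_const 2).sub (((R.hG z).pow 2).div_const 2)
    refine h.congr_deriv ?_
    simp only [hp, P.kk, R.kk]
    push_cast
    ring
  have hr0 : r 0 = 0 := by simp [hr, P.G0, R.G0]
  have hrle : ∀ z, 0 ≤ z → |r z| ≤ z ^ 2 * y z := by
    intro z hz
    have h2 : ∀ s ∈ Ico 0 z, ‖p s‖ ≤ z * y z := by
      intro s hs
      have h3 := hple s hs.1
      have h4 := hymono (mem_Ici.mpr hs.1) (mem_Ici.mpr hz) hs.2.le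
      have h5 := hyn s hs.1
      rw [Real.norm_eq_abs]
      calc |p s| ≤ s * y s := h3
        _ ≤ z * y z := by
          have := hs.2.le
          gcongr
    have h3 := norm_image_sub_le_of_norm_deriv_le_segment' (f := r) (f' := p)
      (fun s _ => (hrd s).hasDerivWithinAt) h2 z ⟨hz, le_rfl⟩
    simp only [hr0, sub_zero, Real.norm_eq_abs] at h3
    calc |r z| ≤ z * y z * z := h3
      _ = _ := by ring
  -- D
  have hDle : ∀ z ∈ Icc 0 Z, |D z| ≤ 2 * Z / m * y z := by
    intro z hz
    rcases hz.1.eq_or_lt with h | h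
    · rw [← h]
      simp [hD, P.G0, R.G0, hy0]
    have h1 := hmG z hz
    have h2 := hH z h
    have h3 := hG z h
    have h4 : (G z + H z) * |D z| = 2 * |r z| := by
      have : 2 * |r z| = |2 * r z| := by rw [abs_mul]; norm_num
      have h7 : (G z + H z) * |D z| = |(G z + H z) * D z| := by
        rw [abs_mul, abs_of_pos (by linarith : 0 < G z + H z)]
      rw [this, h7]
      congr 1
      simp only [hD, hr]; ring
    have h5 : m * z * |D z| ≤ 2 * (z ^ 2 * y z) := by
      calc m * z * |D z| ≤ (G z + H z) * |D z| := by gcongr; linarith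
        _ = 2 * |r z| := h4
        _ ≤ 2 * (z ^ 2 * y z) := by gcongr; exact hrle z h.le
    have h6 : m * |D z| ≤ 2 * z * y z := by
      have : z * (m * |D z|) ≤ z * (2 * z * y z) := by linarith [h5]
      exact le_of_mul_le_mul_left this h
    have h7 := hyn z h.le
    have h8 : m * |D z| ≤ 2 * Z * y z := by
      refine h6.trans ?_
      have := hz.2
      gcongr
    rw [div_mul_eq_mul_div, le_div_iff₀ hm]
    linarith
  have hgr := norm_le_gronwallBound_of_norm_deriv_right_le (f := y) (f' := fun z => |D z|)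
    (δ := 0) (K := 2 * Z / m) (ε := 0) (a := 0) (b := Z)
    (fun z _ => (hyd z).continuousAt.continuousWithinAt)
    (fun z _ => (hyd z).hasDerivWithinAt) (by simp [hy0])
    (fun z hz => by
      rw [norm_abs_eq_norm, Real.norm_eq_abs, Real.norm_eq_abs, add_zero, abs_of_nonneg (hyn z hz.1)]
      exact hDle z ⟨hz.1, hz.2.le⟩)
  have hyZ : y Z = 0 := by
    have := hgr Z ⟨hZ.le, le_rfl⟩
    rw [gronwallBound_ε0_δ0] at this
    simpa using this
  have := hDle Z ⟨hZ.le, le_rfl⟩
  rw [hyZ, mul_zero] at this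
  have h0 : D Z = 0 := by simpa using this
  simp only [hD] at h0
  linarith

/-- Two cores with positive limit one coincide on the half line. -/
theorem Core.unique_of_lim {H H1 d l : ℝ → ℝ} (P : Core G G1 c k) (R : Core H H1 d l)
    (hG : Tendsto G atTop (𝓝 1)) (hH : Tendsto H atTop (𝓝 1)) : ∀ z, 0 ≤ z → G z = H z := by
  have eG : ∀ᶠ z in atTop, 0 < G z := hG.eventually (lt_mem_nhds one_pos)
  have eH : ∀ᶠ z in atTop, 0 < H z := hH.eventually (lt_mem_nhds one_pos)
  have aG := P.slope_pos eG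
  have aH := R.slope_pos eH
  have PG := P.posSys (fun z hz => P.nonneg eG hz) aG
  have PH := R.posSys (fun z hz => R.nonneg eH hz) aH
  -- scale
  set t := √(G1 0 / H1 0) with ht
  have ht0 : 0 < t := Real.sqrt_pos.mpr (div_pos aG aH)
  have ht2 : t ^ 2 = G1 0 / H1 0 := Real.sq_sqrt (div_pos aG aH).le
  have PS := P.scale ht0
  have hslope : (t ^ 2)⁻¹ * G1 (t * 0) = H1 0 := by
    rw [mul_zero, ht2]; field_simp
  have hu := PS.unique R (fun z hz => by have := PG.Gpos (t * z) (by positivity); positivity)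
    PH.Gpos (by rw [hslope]; exact aH) hslope
  have hlim1 : Tendsto (fun z => (t ^ 3)⁻¹ * G (t * z)) atTop (𝓝 ((t ^ 3)⁻¹ * 1)) :=
    (hG.comp (tendsto_id.const_mul_atTop ht0)).const_mul _
  have hlim2 : Tendsto (fun z => (t ^ 3)⁻¹ * G (t * z)) atTop (𝓝 1) := by
    refine hH.congr' ?_
    filter_upwards [eventually_ge_atTop 0] with z hz
    exact (hu z hz).symm
  have h1 := tendsto_nhds_unique hlim1 hlim2
  have ht3 : t ^ 3 = 1 := by
    rw [mul_one] at h1
    exact inv_eq_one.mp h1
  have ht1 : t = 1 := by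
    rwa [pow_eq_one_iff_of_nonneg ht0.le (by norm_num)] at ht3
  intro z hz
  have := hu z hz
  simp only [ht1] at this
  simpa using this

end Pool.Agent.R207.Prof
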