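import Mathlib

set_option autoImplicit false

/-! # Similarity profiles: a truncated fixed point problem -/

namespace Pool.Agent.R207.Prof

open Real Set Filter Topology MeasureTheory intervalIntegral

/-- kernel -/
noncomputable def kap (s : ℝ) : ℝ := s * (1 - s) * (1 - 3 * s)

/-- exponential weight -/
noncomputable def Lam (z : ℝ) : ℝ := 2 * (z ^ 2 + z ^ 4)

/-- floor -/
noncomputable def mm (z : ℝ) : ℝ := (1 / 10) / (1 + z ^ 2)

/-- integral operator -/
noncomputable def II (f : ℝ → ℝ) (z : ℝ) : ℝ := ∫ s in (0 : ℝ)..1, kap s * f (s * |z|)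

/-- truncated operator -/
noncomputable def NN (f : ℝ → ℝ) (z : ℝ) : ℝ := √(max (1 + z ^ 2 / 3 * II f z) (mm z ^ 2))

theorem kap_cont : Continuous kap := by unfold kap; fun_prop

theorem Lam_cont : Continuous Lam := by unfold Lam; fun_prop

theorem mm_cont : Continuous mm := by
  unfold mm
  exact continuous_const.div (by fun_prop) (fun z => by positivity)

theorem mm_pos (z : ℝ) : 0 < mm z := by unfold mm; positivity

theorem kap_le {s : ℝ} (h0 : 0 ≤ s) (h1 : s ≤ 1) : |kap s| ≤ 1 / 2 := by
  unfold kap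
  rw [abs_mul, abs_of_nonneg (mul_nonneg h0 (by linarith))]
  have h2 : |1 - 3 * s| ≤ 2 := by rw [abs_le]; constructor <;> linarith
  have h3 : s * (1 - s) ≤ 1 / 4 := by nlinarith [sq_nonneg (s - 1 / 2)]
  have h4 : 0 ≤ s * (1 - s) := mul_nonneg h0 (by linarith)
  calc s * (1 - s) * |1 - 3 * s| ≤ 1 / 4 * 2 := by gcongr
    _ = 1 / 2 := by norm_num

theorem II_cont {f : ℝ → ℝ} (hf : Continuous f) : Continuous (II f) := by
  unfold II
  apply intervalIntegral.continuous_parametric_intervalIntegral_of_continuous'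
  have := kap_cont
  simp only [Function.uncurry_def]
  fun_prop

theorem NN_cont {f : ℝ → ℝ} (hf : Continuous f) : Continuous (NN f) := by
  unfold NN
  have h1 := II_cont hf
  have h2 := mm_cont
  apply Continuous.sqrt
  apply Continuous.max
  · fun_prop
  · fun_prop

theorem weight_bound (z : ℝ) :
    4 * (z ^ 2 + z ^ 4) * (∫ s in (0 : ℝ)..1, (1 / 2) * exp (Lam (s * |z|))) ≤ exp (Lam z) := by
  set X : ℝ := 2 * (z ^ 2 + z ^ 4) with hX
  have hX0 : 0 ≤ X := by positivity
  have h1 : ∫ s in (0 : ℝ)..1, (1 / 2) * exp (Lam (s * |z|)) ≤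
      ∫ s in (0 : ℝ)..1, (1 / 2) * exp (X * s) := by
    apply intervalIntegral.integral_mono_on zero_le_one
    · apply Continuous.intervalIntegrable
      have := Lam_cont
      fun_prop
    · apply Continuous.intervalIntegrable
      fun_prop
    · intro s hs
      have hs0 := hs.1
      have hs1 := hs.2
      gcongr
      unfold Lam
      rw [mul_pow, mul_pow, sq_abs, ← abs_pow, abs_of_nonneg (by positivity : 0 ≤ z ^ 4), hX]
      have h2 : s ^ 2 ≤ s := by nlinarith
      have h4 : s ^ 4 ≤ s := by nlinarith [sq_nonneg s, sq_nonneg (s ^ 2)]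
      have h5 : s ^ 2 * z ^ 2 ≤ s * z ^ 2 := by gcongr
      have h6 : s ^ 4 * z ^ 4 ≤ s * z ^ 4 := by gcongr
      nlinarith
  have h2 : 2 * X * (∫ s in (0 : ℝ)..1, (1 / 2) * exp (X * s)) = exp X - 1 := by
    rw [← intervalIntegral.integral_const_mul]
    have : ∀ s ∈ uIcc (0 : ℝ) 1, HasDerivAt (fun s => exp (X * s)) (2 * X * (1 / 2 * exp (X * s))) s := by
      intro s _
      have h : HasDerivAt (fun s => X * s) X s := by simpa using (hasDerivAt_id s).const_mul X
      refine h.exp.congr_deriv ?_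
      ring
    rw [intervalIntegral.integral_eq_sub_of_hasDerivAt this]
    · simp
    · apply Continuous.intervalIntegrable
      fun_prop
  have h3 : Lam z = X := rfl
  rw [h3]
  calc 4 * (z ^ 2 + z ^ 4) * (∫ s in (0 : ℝ)..1, (1 / 2) * exp (Lam (s * |z|)))
      = 2 * X * (∫ s in (0 : ℝ)..1, (1 / 2) * exp (Lam (s * |z|))) := by rw [hX]; ring
    _ ≤ 2 * X * (∫ s in (0 : ℝ)..1, (1 / 2) * exp (X * s)) := by gcongr
    _ = exp X - 1 := h2
    _ ≤ exp X := by linarith

theorem II_diff {f g : ℝ → ℝ} (hf : Continuous f) (hg : Continuous g) {d : ℝ} (hd : 0 ≤ d)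
    (h : ∀ u, |f u - g u| ≤ d * exp (Lam u)) (z : ℝ) :
    4 * (z ^ 2 + z ^ 4) * |II f z - II g z| ≤ d * exp (Lam z) := by
  have hk := kap_cont
  have hL := Lam_cont
  have h1 : II f z - II g z = ∫ s in (0 : ℝ)..1, kap s * (f (s * |z|) - g (s * |z|)) := by
    unfold II
    rw [← intervalIntegral.integral_sub]
    · congr 1; ext s; ring
    · apply Continuous.intervalIntegrable; fun_prop
    · apply Continuous.intervalIntegrable; fun_prop
  have h2 : |II f z - II g z| ≤ d * ∫ s in (0 : ℝ)..1, (1 / 2) * exp (Lam (s * |z|)) := by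
    rw [h1]
    calc |∫ s in (0 : ℝ)..1, kap s * (f (s * |z|) - g (s * |z|))|
        ≤ ∫ s in (0 : ℝ)..1, |kap s * (f (s * |z|) - g (s * |z|))| :=
          intervalIntegral.abs_integral_le_integral_abs zero_le_one
      _ ≤ ∫ s in (0 : ℝ)..1, d * ((1 / 2) * exp (Lam (s * |z|))) := by
          apply intervalIntegral.integral_mono_on zero_le_one
          · apply Continuous.intervalIntegrable; fun_prop
          · apply Continuous.intervalIntegrable; fun_prop
          · intro s hs
            rw [abs_mul]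
            calc |kap s| * |f (s * |z|) - g (s * |z|)| ≤ 1 / 2 * (d * exp (Lam (s * |z|))) := by
                  gcongr
                  · exact kap_le hs.1 hs.2
                  · exact h _
              _ = _ := by ring
      _ = _ := by rw [intervalIntegral.integral_const_mul]
  calc 4 * (z ^ 2 + z ^ 4) * |II f z - II g z|
      ≤ 4 * (z ^ 2 + z ^ 4) * (d * ∫ s in (0 : ℝ)..1, (1 / 2) * exp (Lam (s * |z|))) := by gcongr
    _ = d * (4 * (z ^ 2 + z ^ 4) * ∫ s in (0 : ℝ)..1, (1 / 2) * exp (Lam (s * |z|))) := by ring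
    _ ≤ d * exp (Lam z) := by gcongr; exact weight_bound z

theorem sqrt_max_diff {x y m : ℝ} (hm : 0 < m) :
    |√(max x (m ^ 2)) - √(max y (m ^ 2))| ≤ |x - y| / (2 * m) := by
  set a := max x (m ^ 2) with ha
  set b := max y (m ^ 2) with hb
  have ha0 : m ^ 2 ≤ a := le_max_right _ _
  have hb0 : m ^ 2 ≤ b := le_max_right _ _
  have h1 : m ≤ √a := Real.le_sqrt_of_sq_le ha0
  have h2 : m ≤ √b := Real.le_sqrt_of_sq_le hb0
  have hm2 : 0 < m ^ 2 := by positivity
  have h3 : |a - b| ≤ |x - y| := by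
    have := abs_max_sub_max_le_abs x y (m ^ 2)
    simpa [ha, hb] using this
  rw [le_div_iff₀ (by positivity)]
  calc |√a - √b| * (2 * m) ≤ |√a - √b| * (√a + √b) := by gcongr; linarith
    _ = |√a - √b| * |√a + √b| := by rw [abs_of_pos (by linarith : 0 < √a + √b)]
    _ = |(√a) ^ 2 - (√b) ^ 2| := by rw [← abs_mul]; congr 1; ring
    _ = |a - b| := by rw [Real.sq_sqrt (by linarith), Real.sq_sqrt (by linarith)]
    _ ≤ |x - y| := h3

theorem NN_diff {f g : ℝ → ℝ} (hf : Continuous f) (hg : Continuous g) {d : ℝ} (hd : 0 ≤ d)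
    (h : ∀ u, |f u - g u| ≤ d * exp (Lam u)) (z : ℝ) :
    |NN f z - NN g z| ≤ 5 / 12 * d * exp (Lam z) := by
  unfold NN
  refine (sqrt_max_diff (mm_pos z)).trans ?_
  have h1 := II_diff hf hg hd h z
  have h2 : |1 + z ^ 2 / 3 * II f z - (1 + z ^ 2 / 3 * II g z)| = z ^ 2 / 3 * |II f z - II g z| := by
    rw [← abs_of_nonneg (by positivity : 0 ≤ z ^ 2 / 3), ← abs_mul,
      abs_of_nonneg (by positivity : 0 ≤ z ^ 2 / 3)]
    congr 1; ring
  rw [h2]
  unfold mm
  have h3 : z ^ 2 / 3 * |II f z - II g z| / (2 * (1 / 10 / (1 + z ^ 2))) =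
      5 / 12 * (4 * (z ^ 2 + z ^ 4) * |II f z - II g z|) := by
    field_simp
    ring
  rw [h3]
  nlinarith

open BoundedContinuousFunction in
/-- The truncated problem has a solution. -/
theorem exists_fixed : ∃ f : ℝ → ℝ, Continuous f ∧ ∀ z, f z = NN f z := by
  have hL := Lam_cont
  -- the zero function
  have hNN0 : ∀ z, |NN (fun _ => 0) z| ≤ 2 := by
    intro z
    unfold NN II
    simp only [mul_zero, intervalIntegral.integral_zero, add_zero]
    rw [abs_of_nonneg (Real.sqrt_nonneg _), Real.sqrt_le_left (by norm_num)]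
    apply max_le (by norm_num)
    have : mm z ≤ 1 := by
      unfold mm
      rw [div_le_one (by positivity)]
      nlinarith [sq_nonneg z]
    have h2 := mm_pos z
    nlinarith
  have hcontL : ∀ p : BoundedContinuousFunction ℝ ℝ, Continuous fun u => exp (Lam u) * p u := by
    intro p
    have := p.continuous
    fun_prop
  have hbound : ∀ p : BoundedContinuousFunction ℝ ℝ, ∀ z,
      ‖exp (-Lam z) * NN (fun u => exp (Lam u) * p u) z‖ ≤ 2 + ‖p‖ := by
    intro p z
    have h1 := NN_diff (hcontL p) (continuous_const (y := (0 : ℝ))) (norm_nonneg p) (fun u => by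
      rw [sub_zero, abs_mul, abs_of_pos (exp_pos _), mul_comm]
      gcongr
      exact p.norm_coe_le_norm u) z
    have h2 := hNN0 z
    have h3 : |NN (fun u => exp (Lam u) * p u) z| ≤ 2 + ‖p‖ * exp (Lam z) := by
      have h4 : |NN (fun u => exp (Lam u) * p u) z| ≤
          |NN (fun u => exp (Lam u) * p u) z - NN (fun _ => 0) z| + |NN (fun _ => 0) z| := by
        have := abs_add_le (NN (fun u => exp (Lam u) * p u) z - NN (fun _ => 0) z)
          (NN (fun _ => 0) z)
        simpa using this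
      have h5 : 0 ≤ ‖p‖ * exp (Lam z) := by positivity
      nlinarith
    have h6 : 0 ≤ Lam z := by unfold Lam; positivity
    have h7 : exp (-Lam z) ≤ 1 := by rw [Real.exp_le_one_iff]; linarith
    rw [norm_mul, Real.norm_eq_abs, Real.norm_eq_abs, abs_of_pos (exp_pos _)]
    calc exp (-Lam z) * |NN (fun u => exp (Lam u) * p u) z|
        ≤ exp (-Lam z) * (2 + ‖p‖ * exp (Lam z)) := by gcongr
      _ = 2 * exp (-Lam z) + ‖p‖ * (exp (-Lam z) * exp (Lam z)) := by ring
      _ = 2 * exp (-Lam z) + ‖p‖ := by rw [← Real.exp_add, neg_add_cancel, Real.exp_zero, mul_one]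
      _ ≤ 2 * 1 + ‖p‖ := by gcongr
      _ = _ := by ring
  let Psi : BoundedContinuousFunction ℝ ℝ → BoundedContinuousFunction ℝ ℝ := fun p =>
    BoundedContinuousFunction.ofNormedAddCommGroup
      (fun z => exp (-Lam z) * NN (fun u => exp (Lam u) * p u) z)
      ((continuous_exp.comp hL.neg).mul (NN_cont (hcontL p))) (2 + ‖p‖) (hbound p)
  have hval : ∀ p z, Psi p z = exp (-Lam z) * NN (fun u => exp (Lam u) * p u) z := fun p z => rfl
  have hcontr : ContractingWith (5 / 12 : NNReal) Psi := by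
    constructor
    · rw [← NNReal.coe_lt_coe]; norm_num
    · apply LipschitzWith.of_dist_le_mul
      intro p q
      rw [BoundedContinuousFunction.dist_le (by positivity)]
      intro z
      rw [Real.dist_eq, hval, hval, ← mul_sub, abs_mul, abs_of_pos (exp_pos _)]
      have h1 := NN_diff (hcontL p) (hcontL q) (dist_nonneg (x := p) (y := q)) (fun u => by
        rw [← mul_sub, abs_mul, abs_of_pos (exp_pos _), mul_comm]
        gcongr
        rw [← Real.dist_eq]
        exact p.dist_coe_le_dist u) z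
      calc exp (-Lam z) * |NN (fun u => exp (Lam u) * p u) z - NN (fun u => exp (Lam u) * q u) z|
          ≤ exp (-Lam z) * (5 / 12 * dist p q * exp (Lam z)) := by gcongr
        _ = 5 / 12 * dist p q * (exp (-Lam z) * exp (Lam z)) := by ring
        _ = 5 / 12 * dist p q := by rw [← Real.exp_add, neg_add_cancel, Real.exp_zero, mul_one]
        _ = _ := by norm_num
  obtain ⟨p, hp⟩ : ∃ p, Psi p = p := ⟨hcontr.fixedPoint, hcontr.fixedPoint_isFixedPt⟩
  refine ⟨fun u => exp (Lam u) * p u, hcontL p, fun z => ?_⟩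
  have h1 := hval p z
  rw [hp] at h1
  calc exp (Lam z) * p z = exp (Lam z) * (exp (-Lam z) * NN (fun u => exp (Lam u) * p u) z) := by
        rw [← h1]
    _ = (exp (Lam z) * exp (-Lam z)) * NN (fun u => exp (Lam u) * p u) z := by ring
    _ = _ := by rw [← Real.exp_add, add_neg_cancel, Real.exp_zero, one_mul]

end Pool.Agent.R207.Prof
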