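import Pool.Agent.R207.Prof2
import Pool.Agent.R207.Prof3

set_option autoImplicit false

/-! # Similarity profiles: the truncation is inactive -/

namespace Pool.Agent.R207.Prof

open Real Set Filter Topology MeasureTheory intervalIntegral

/-- moments -/
noncomputable def Mo (f : ℝ → ℝ) (j : ℕ) (z : ℝ) : ℝ := ∫ u in (0 : ℝ)..z, u ^ j * f u

/-- `h` -/
noncomputable def HH (f : ℝ → ℝ) (z : ℝ) : ℝ :=
  z ^ 2 / 2 + (1 / 6) * (z ^ 2 * Mo f 1 z - 4 * z * Mo f 2 z + 3 * Mo f 3 z)

/-- `k = h'` -/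
noncomputable def KK (f : ℝ → ℝ) (z : ℝ) : ℝ := z + (1 / 3) * (z * Mo f 1 z - 2 * Mo f 2 z)

/-- `c` -/
noncomputable def CC (f : ℝ → ℝ) (z : ℝ) : ℝ := 1 + Mo f 1 z / 3

/-- `G` -/
noncomputable def GG (f : ℝ → ℝ) (z : ℝ) : ℝ := z * f z

/-- `h / (z^2/2)` -/
noncomputable def FF (f : ℝ → ℝ) (z : ℝ) : ℝ := 1 + z ^ 2 / 3 * II f z

variable {f : ℝ → ℝ}

theorem Mo_deriv (hf : Continuous f) (j : ℕ) (z : ℝ) : HasDerivAt (Mo f j) (z ^ j * f z) z := by
  have hc : Continuous fun u : ℝ => u ^ j * f u := by fun_prop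
  exact intervalIntegral.integral_hasDerivAt_right (hc.intervalIntegrable _ _)
    (hc.stronglyMeasurableAtFilter _ _) hc.continuousAt

theorem HH_deriv (hf : Continuous f) (z : ℝ) : HasDerivAt (HH f) (KK f z) z := by
  have h1 := Mo_deriv hf 1 z
  have h2 := Mo_deriv hf 2 z
  have h3 := Mo_deriv hf 3 z
  have h4 : HasDerivAt (fun z : ℝ => 4 * z) 4 z := by simpa using (hasDerivAt_id z).const_mul 4
  have h : HasDerivAt (HH f) _ z := ((hasDerivAt_pow 2 z).div_const 2).add
    ((((hasDerivAt_pow 2 z).mul h1).sub (h4.mul h2)).add (h3.const_mul 3) |>.const_mul (1 / 6))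
  refine h.congr_deriv ?_
  unfold KK
  push_cast
  ring

theorem KK_deriv (hf : Continuous f) (z : ℝ) :
    HasDerivAt (KK f) (CC f z - z / 3 * GG f z) z := by
  have h1 := Mo_deriv hf 1 z
  have h2 := Mo_deriv hf 2 z
  have h : HasDerivAt (KK f) _ z := (hasDerivAt_id z).add
    ((((hasDerivAt_id z).mul h1).sub (h2.const_mul 2)).const_mul (1 / 3))
  refine h.congr_deriv ?_
  unfold CC GG
  simp only [id]
  ring

theorem CC_deriv (hf : Continuous f) (z : ℝ) : HasDerivAt (CC f) (GG f z / 3) z := by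
  have h1 := Mo_deriv hf 1 z
  have h : HasDerivAt (CC f) _ z := (h1.div_const 3).const_add 1
  refine h.congr_deriv ?_
  unfold GG
  ring

theorem FF_cont (hf : Continuous f) : Continuous (FF f) := by
  have := II_cont hf
  unfold FF
  fun_prop

theorem HH_eq (hf : Continuous f) (heven : ∀ z, f (-z) = f z) (z : ℝ) :
    HH f z = z ^ 2 / 2 * FF f z := by
  have h1 : z ^ 4 * II f z = z ^ 2 * Mo f 1 z - 4 * z * Mo f 2 z + 3 * Mo f 3 z := by
    have h2 : II f z = ∫ s in (0 : ℝ)..1, kap s * f (s * z) := by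
      unfold II
      congr 1; ext s
      rcases abs_choice z with h | h
      · rw [h]
      · rw [h, mul_neg, heven]
    have h3 : z ^ 2 * Mo f 1 z - 4 * z * Mo f 2 z + 3 * Mo f 3 z =
        ∫ u in (0 : ℝ)..z, u * (z - u) * (z - 3 * u) * f u := by
      unfold Mo
      rw [← intervalIntegral.integral_const_mul, ← intervalIntegral.integral_const_mul,
        ← intervalIntegral.integral_const_mul, ← intervalIntegral.integral_sub,
        ← intervalIntegral.integral_add]
      · congr 1; ext u; ring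
      all_goals apply Continuous.intervalIntegrable; fun_prop
    have h4 := intervalIntegral.mul_integral_comp_mul_right (a := 0) (b := 1)
      (f := fun u => u * (z - u) * (z - 3 * u) * f u) z
    rw [zero_mul, one_mul] at h4
    rw [h2, h3, ← h4]
    have h5 : ∀ s : ℝ, s * z * (z - s * z) * (z - 3 * (s * z)) * f (s * z) =
        z ^ 3 * (kap s * f (s * z)) := by
      intro s; unfold kap; ring
    simp only [h5]
    rw [intervalIntegral.integral_const_mul]
    ring
  unfold HH FF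
  rw [← h1]
  ring

/-- fixed points of the truncated operator -/
structure Fixed (f : ℝ → ℝ) : Prop where
  cont : Continuous f
  eq : ∀ z, f z = NN f z

theorem Fixed.even (P : Fixed f) (z : ℝ) : f (-z) = f z := by
  rw [P.eq, P.eq z]
  unfold NN II mm
  rw [abs_neg, neg_sq]

theorem Fixed.sq_eq (P : Fixed f) (z : ℝ) : f z ^ 2 = max (FF f z) (mm z ^ 2) := by
  rw [P.eq z]
  unfold NN
  rw [Real.sq_sqrt]
  · rfl
  · exact le_max_of_le_right (sq_nonneg _)

theorem Fixed.mm_le (P : Fixed f) (z : ℝ) : mm z ≤ f z := by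
  rw [P.eq z]
  unfold NN
  apply Real.le_sqrt_of_sq_le
  exact le_max_right _ _

theorem Fixed.pos (P : Fixed f) (z : ℝ) : 0 < f z := (mm_pos z).trans_le (P.mm_le z)

theorem mm_le_one (z : ℝ) : mm z ≤ 1 / 10 := by
  unfold mm
  rw [div_le_iff₀ (by positivity)]
  nlinarith [sq_nonneg z]

theorem Fixed.II_le (P : Fixed f) {M : ℝ} (hM : ∀ z ∈ Icc (0 : ℝ) 1, f z ≤ M) {z : ℝ}
    (hz : z ∈ Icc (0 : ℝ) 1) : |II f z| ≤ M / 2 := by
  have hk := kap_cont
  have hf := P.cont
  unfold II
  calc |∫ s in (0 : ℝ)..1, kap s * f (s * |z|)|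
      ≤ ∫ s in (0 : ℝ)..1, |kap s * f (s * |z|)| :=
        intervalIntegral.abs_integral_le_integral_abs zero_le_one
    _ ≤ ∫ s in (0 : ℝ)..1, M / 2 := by
        apply intervalIntegral.integral_mono_on zero_le_one
        · apply Continuous.intervalIntegrable; fun_prop
        · apply Continuous.intervalIntegrable; fun_prop
        · intro s hs
          have h1 : s * |z| ∈ Icc (0 : ℝ) 1 := by
            rw [abs_of_nonneg hz.1]
            exact ⟨mul_nonneg hs.1 hz.1, mul_le_one₀ hs.2 hz.1 hz.2⟩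
          rw [abs_mul, abs_of_pos (P.pos _)]
          calc |kap s| * f (s * |z|) ≤ 1 / 2 * M := by
                gcongr
                · exact (P.pos (s * |z|)).le
                · exact kap_le hs.1 hs.2
                · exact hM _ h1
            _ = M / 2 := by ring
    _ = M / 2 := by simp

theorem Fixed.le (P : Fixed f) : ∀ z ∈ Icc (0 : ℝ) 1, f z ≤ 11 / 10 := by
  obtain ⟨x, hx, hmax⟩ := isCompact_Icc.exists_isMaxOn ⟨0, ⟨le_rfl, zero_le_one⟩⟩
    (P.cont.continuousOn (s := Icc (0 : ℝ) 1))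
  have hM : ∀ z ∈ Icc (0 : ℝ) 1, f z ≤ f x := fun z hz => hmax hz
  have h1 := P.II_le hM hx
  have h2 := P.sq_eq x
  have h3 : FF f x ≤ 1 + f x / 6 := by
    unfold FF
    have h4 := (abs_le.mp h1).2
    have h5 : x ^ 2 ≤ 1 := by nlinarith [hx.1, hx.2]
    have h6 := P.pos x
    have h7 : x ^ 2 / 3 * II f x ≤ x ^ 2 / 3 * (f x / 2) := by gcongr
    nlinarith [sq_nonneg x]
  have h4 : mm x ^ 2 ≤ 1 + f x / 6 := by
    have h5 := mm_le_one x
    have h6 := mm_pos x
    have h7 := P.pos x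
    nlinarith
  have h5 : f x ^ 2 ≤ 1 + f x / 6 := by rw [h2]; exact max_le h3 h4
  have h6 : f x ≤ 11 / 10 := by nlinarith [P.pos x]
  exact fun z hz => (hM z hz).trans h6

theorem Fixed.FF_ge (P : Fixed f) {z : ℝ} (hz : z ∈ Icc (0 : ℝ) 1) : 81 / 100 ≤ FF f z := by
  have h1 := P.II_le P.le hz
  have h2 := (abs_le.mp h1).1
  unfold FF
  have h5 : z ^ 2 ≤ 1 := by nlinarith [hz.1, hz.2]
  have h7 : z ^ 2 / 3 * (-(11 / 10 / 2)) ≤ z ^ 2 / 3 * II f z := by gcongr
  nlinarith

theorem Fixed.ge (P : Fixed f) {z : ℝ} (hz : z ∈ Icc (0 : ℝ) 1) : 9 / 10 ≤ f z := by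
  have h1 := P.FF_ge hz
  have h2 := P.sq_eq z
  have h3 : 81 / 100 ≤ f z ^ 2 := by rw [h2]; exact h1.trans (le_max_left _ _)
  have h4 := P.pos z
  nlinarith

theorem Fixed.HH_eq (P : Fixed f) (z : ℝ) : HH f z = z ^ 2 / 2 * FF f z :=
  Prof.HH_eq P.cont P.even z

/-- pointwise consequences of the inactivity of the truncation on an interval -/
theorem Fixed.GG_deriv (P : Fixed f) {a b : ℝ} (ha : 0 ≤ a)
    (h : ∀ z ∈ Ioo a b, mm z ^ 2 ≤ FF f z) {z : ℝ} (hz : z ∈ Ioo a b) :
    HasDerivAt (GG f) (KK f z / GG f z) z := by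
  have hG : ∀ x ∈ Ioo a b, GG f x = √(2 * HH f x) := by
    intro x hx
    have hx0 : 0 < x := ha.trans_lt hx.1
    rw [P.HH_eq]
    have h1 : FF f x = f x ^ 2 := by rw [P.sq_eq]; exact (max_eq_left (h x hx)).symm
    rw [h1]
    have h2 : 2 * (x ^ 2 / 2 * f x ^ 2) = (x * f x) ^ 2 := by ring
    rw [h2, Real.sqrt_sq (mul_pos hx0 (P.pos x)).le]
    rfl
  have hz0 : 0 < z := ha.trans_lt hz.1
  have hGz : 0 < GG f z := mul_pos hz0 (P.pos z)
  have h2H : 2 * HH f z ≠ 0 := by
    intro h0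
    rw [hG z hz, h0, Real.sqrt_zero] at hGz
    exact lt_irrefl _ hGz
  have h1 : HasDerivAt (fun x => √(2 * HH f x)) (2 * KK f z / (2 * √(2 * HH f z))) z :=
    ((HH_deriv P.cont z).const_mul 2).sqrt h2H
  rw [← hG z hz] at h1
  have h3 : GG f =ᶠ[𝓝 z] fun x => √(2 * HH f x) := by
    filter_upwards [Ioo_mem_nhds hz.1 hz.2] with x hx
    exact hG x hx
  refine (h1.congr_of_eventuallyEq h3).congr_deriv ?_
  field_simp

theorem Fixed.Q_deriv (P : Fixed f) {a b : ℝ} (ha : 0 ≤ a)
    (h : ∀ z ∈ Ioo a b, mm z ^ 2 ≤ FF f z) {z : ℝ} (hz : z ∈ Ioo a b) :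
    HasDerivAt (QQ (GG f) (CC f) (KK f)) (GG f z ^ 3 / 18) z := by
  have hz0 : 0 < z := ha.trans_lt hz.1
  have hGz : 0 < GG f z := mul_pos hz0 (P.pos z)
  exact Q_hasDerivAt (P.GG_deriv ha h hz) (CC_deriv P.cont z) (KK_deriv P.cont z)
    (by field_simp)

theorem Q_cont (hf : Continuous f) : Continuous (QQ (GG f) (CC f) (KK f)) := by
  have h1 : Continuous (GG f) := by unfold GG; fun_prop
  have h2 : Continuous (CC f) := continuous_iff_continuousAt.mpr fun z => (CC_deriv hf z).continuousAt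
  have h3 : Continuous (KK f) := continuous_iff_continuousAt.mpr fun z => (KK_deriv hf z).continuousAt
  unfold QQ
  fun_prop

theorem Fixed.CC_pos (P : Fixed f) {z : ℝ} (hz : 0 ≤ z) : 1 ≤ CC f z := by
  unfold CC Mo
  have : 0 ≤ ∫ u in (0 : ℝ)..z, u ^ 1 * f u := by
    apply intervalIntegral.integral_nonneg hz
    intro u hu
    have := P.pos u
    have := hu.1
    positivity
  linarith

theorem Fixed.CC_one (P : Fixed f) : CC f 1 ≤ 14 / 10 := by
  unfold CC Mo
  have hf := P.cont
  have : ∫ u in (0 : ℝ)..1, u ^ 1 * f u ≤ ∫ u in (0 : ℝ)..1, (11 / 10 : ℝ) := by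
    apply intervalIntegral.integral_mono_on zero_le_one
    · apply Continuous.intervalIntegrable; fun_prop
    · apply Continuous.intervalIntegrable; fun_prop
    · intro u hu
      have h1 := P.le u hu
      have h2 := P.pos u
      have h3 := hu.1
      have h4 := hu.2
      nlinarith
  have h2 : ∫ u in (0 : ℝ)..1, (11 / 10 : ℝ) = 11 / 10 := by simp
  rw [h2] at this
  linarith

/-- The truncation is never active. -/
theorem Fixed.inactive_pos (P : Fixed f) {z : ℝ} (hz : 0 ≤ z) : mm z ^ 2 < FF f z := by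
  by_contra hcon
  push Not at hcon
  have hsmall : ∀ x ∈ Icc (0 : ℝ) 1, mm x ^ 2 < FF f x := by
    intro x hx
    have h1 := P.FF_ge hx
    have h2 := mm_le_one x
    have h3 := mm_pos x
    nlinarith
  have hz1 : 1 < z := by
    by_contra h1
    push Not at h1
    exact absurd (hsmall z ⟨hz, h1⟩) (not_lt.mpr hcon)
  obtain ⟨t, ht, htmin⟩ : ∃ t, IsLeast {x | x ∈ Icc 1 z ∧ FF f x ≤ mm x ^ 2} t := by
    apply IsCompact.exists_isLeast
    · exact isCompact_Icc.inter_right (isClosed_le (FF_cont P.cont) (mm_cont.pow 2))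
    · exact ⟨z, ⟨hz1.le, le_rfl⟩, hcon⟩
  have ht1 : 1 < t := by
    rcases ht.1.1.lt_or_eq with h | h
    · exact h
    · rw [← h] at ht
      exact absurd (hsmall 1 ⟨zero_le_one, le_rfl⟩) (not_lt.mpr ht.2)
  have ht0 : 0 < t := by linarith
  have hact : ∀ x ∈ Ioo 0 t, mm x ^ 2 ≤ FF f x := by
    intro x hx
    rcases le_total x 1 with h | h
    · exact (hsmall x ⟨hx.1.le, h⟩).le
    · by_contra h2
      push Not at h2
      have := htmin (show x ∈ {x | x ∈ Icc 1 z ∧ FF f x ≤ mm x ^ 2} from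
        ⟨⟨h, hx.2.le.trans ht.1.2⟩, h2.le⟩)
      exact absurd this (not_le.mpr hx.2)
  have hact1 : ∀ x ∈ Ioo 0 1, mm x ^ 2 ≤ FF f x := fun x hx => hact x ⟨hx.1, hx.2.trans ht1⟩
  have hcont := Q_cont P.cont
  -- Q(1)
  have hQ1 : 1 / 100 ≤ QQ (GG f) (CC f) (KK f) 1 := by
    have hmono : MonotoneOn (fun x => QQ (GG f) (CC f) (KK f) x - 729 / 72000 * x ^ 4)
        (Icc 0 1) := by
      have hd : ∀ x ∈ Ioo (0 : ℝ) 1, HasDerivAt
          (fun x => QQ (GG f) (CC f) (KK f) x - 729 / 72000 * x ^ 4)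
          (GG f x ^ 3 / 18 - 729 / 18000 * x ^ 3) x := by
        intro x hx
        have h : HasDerivAt (fun x => QQ (GG f) (CC f) (KK f) x - 729 / 72000 * x ^ 4) _ x :=
          (P.Q_deriv le_rfl hact1 hx).sub ((hasDerivAt_pow 4 x).const_mul (729 / 72000))
        refine h.congr_deriv ?_
        push_cast
        ring
      apply monotoneOn_of_deriv_nonneg (convex_Icc 0 1)
      · fun_prop
      · intro x hx
        rw [interior_Icc] at hx
        exact (hd x hx).differentiableAt.differentiableWithinAt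
      · intro x hx
        rw [interior_Icc] at hx
        rw [(hd x hx).deriv]
        have h1 := P.ge ⟨hx.1.le, hx.2.le⟩
        have h2 : 9 / 10 * x ≤ GG f x := by
          unfold GG
          have := hx.1
          nlinarith
        have h3 : (9 / 10 * x) ^ 3 ≤ GG f x ^ 3 := by
          have := hx.1
          gcongr
        have h4 : (9 / 10 * x) ^ 3 = 729 / 1000 * x ^ 3 := by ring
        rw [h4] at h3
        linarith
    have h1 := hmono (left_mem_Icc.mpr zero_le_one) (right_mem_Icc.mpr zero_le_one) zero_le_one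
    have h0 : QQ (GG f) (CC f) (KK f) 0 = 0 := by
      simp [QQ, GG, KK, Mo]
    simp only [h0] at h1
    norm_num at h1
    linarith
  have hQm : ∀ x ∈ Icc 1 t, 1 / 100 ≤ QQ (GG f) (CC f) (KK f) x := by
    have hmono : MonotoneOn (QQ (GG f) (CC f) (KK f)) (Icc 1 t) := by
      apply monotoneOn_of_deriv_nonneg (convex_Icc 1 t)
      · exact hcont.continuousOn
      · intro x hx
        rw [interior_Icc] at hx
        exact (P.Q_deriv le_rfl hact ⟨by linarith [hx.1], hx.2⟩).differentiableAt.differentiableWithinAt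
      · intro x hx
        rw [interior_Icc] at hx
        rw [(P.Q_deriv le_rfl hact ⟨by linarith [hx.1], hx.2⟩).deriv]
        have h1 : 0 < GG f x := mul_pos (by linarith [hx.1]) (P.pos x)
        positivity
    intro x hx
    exact hQ1.trans (hmono (left_mem_Icc.mpr ht1.le) hx hx.1)
  -- c
  have hc : CC f t ≤ CC f 1 * t ^ 2 := by
    have hanti : AntitoneOn (fun x => CC f x / x ^ 2) (Icc 1 t) := by
      have hd : ∀ x, 0 < x → HasDerivAt (fun x => CC f x / x ^ 2)
          ((x * GG f x - 6 * CC f x) / (3 * x ^ 3)) x := by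
        intro x hx
        have hx2 : x ^ 2 ≠ 0 := by positivity
        have h : HasDerivAt (fun x => CC f x / x ^ 2) _ x :=
          (CC_deriv P.cont x).div (hasDerivAt_pow 2 x) hx2
        refine h.congr_deriv ?_
        push_cast
        field_simp
        ring
      apply antitoneOn_of_deriv_nonpos (convex_Icc 1 t)
      · exact fun x hx => (hd x (by linarith [hx.1])).continuousAt.continuousWithinAt
      · intro x hx
        rw [interior_Icc] at hx
        exact (hd x (by linarith [hx.1])).differentiableAt.differentiableWithinAt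
      · intro x hx
        rw [interior_Icc] at hx
        have hx0 : 0 < x := by linarith [hx.1]
        rw [(hd x hx0).deriv]
        apply div_nonpos_of_nonpos_of_nonneg _ (by positivity)
        have h1 := hQm x ⟨hx.1.le, hx.2.le⟩
        have h2 : 0 < GG f x := mul_pos hx0 (P.pos x)
        have h3 := P.CC_pos hx0.le
        unfold QQ at h1
        by_contra hcon2
        push Not at hcon2
        have h4 : 0 ≤ (x * GG f x - 6 * CC f x) * GG f x ^ 2 := by positivity
        have h5 : 0 < CC f x * GG f x ^ 2 := by positivity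
        nlinarith [sq_nonneg (KK f x)]
    have h1 := hanti (left_mem_Icc.mpr ht1.le) (right_mem_Icc.mpr ht1.le) ht1.le
    simp only [one_pow, div_one] at h1
    rwa [div_le_iff₀ (by positivity)] at h1
  -- contradiction at t
  have hQt := hQm t ⟨ht1.le, le_rfl⟩
  have hGt : 0 < GG f t := mul_pos ht0 (P.pos t)
  have hft : f t ^ 2 = mm t ^ 2 := by
    rw [P.sq_eq]; exact max_eq_right ht.2
  have h1 : 2 / 100 ≤ CC f t * GG f t ^ 2 := by
    unfold QQ at hQt
    have : 0 ≤ t * GG f t ^ 3 / 9 := by positivity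
    nlinarith [sq_nonneg (KK f t)]
  have h2 : GG f t ^ 2 = t ^ 2 * mm t ^ 2 := by
    unfold GG; rw [mul_pow, hft]
  have h3 : CC f t * GG f t ^ 2 ≤ 14 / 10 * t ^ 2 * (t ^ 2 * mm t ^ 2) := by
    rw [h2]
    have := P.CC_one
    gcongr
    exact hc.trans (by gcongr)
  have h4 : t ^ 2 * mm t ≤ 1 / 10 := by
    unfold mm
    rw [mul_div_assoc', div_le_iff₀ (by positivity)]
    linarith
  have h5 : 0 ≤ t ^ 2 * mm t := mul_nonneg (sq_nonneg _) (mm_pos t).le
  nlinarith

theorem Fixed.inactive (P : Fixed f) (z : ℝ) : mm z ^ 2 < FF f z := by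
  rcases le_total 0 z with h | h
  · exact P.inactive_pos h
  · have := P.inactive_pos (z := -z) (by linarith)
    unfold mm FF II at this ⊢
    simpa using this

theorem Fixed.sq (P : Fixed f) (z : ℝ) : f z ^ 2 = FF f z := by
  rw [P.sq_eq]; exact max_eq_left (P.inactive z).le

theorem Fixed.HH_GG (P : Fixed f) (z : ℝ) : GG f z ^ 2 = 2 * HH f z := by
  rw [P.HH_eq, ← P.sq]
  unfold GG
  ring

end Pool.Agent.R207.Prof
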