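import Pool.Agent.R207.Prof4

set_option autoImplicit false

/-! # Similarity profiles: smoothness and existence -/

namespace Pool.Agent.R207.Prof

open Real Set Filter Topology MeasureTheory intervalIntegral

theorem param_hasDerivAt {κ φ : ℝ → ℝ} (hκ : Continuous κ) (hφ : ContDiff ℝ 1 φ) (z : ℝ) :
    HasDerivAt (fun z => ∫ s in (0 : ℝ)..1, κ s * φ (s * z))
      (∫ s in (0 : ℝ)..1, (κ s * s) * deriv φ (s * z)) z := by
  have hφc : Continuous φ := hφ.continuous
  have hφ'c : Continuous (deriv φ) := hφ.continuous_deriv le_rfl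
  have hφd : ∀ x, HasDerivAt φ (deriv φ x) x := fun x =>
    (hφ.differentiable one_ne_zero x).hasDerivAt
  -- bound on a compact set
  have hK : IsCompact (Icc (0 : ℝ) 1 ×ˢ Icc (z - 1) (z + 1)) := isCompact_Icc.prod isCompact_Icc
  have hcont : Continuous fun p : ℝ × ℝ => (κ p.1 * p.1) * deriv φ (p.1 * p.2) := by fun_prop
  obtain ⟨C, hC⟩ := hK.exists_bound_of_continuousOn hcont.continuousOn
  have h := intervalIntegral.hasDerivAt_integral_of_dominated_loc_of_deriv_le
    (μ := volume) (a := (0 : ℝ)) (b := 1) (x₀ := z) (s := Icc (z - 1) (z + 1))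
    (F := fun z s => κ s * φ (s * z)) (F' := fun z s => (κ s * s) * deriv φ (s * z))
    (bound := fun _ => C)
    (Icc_mem_nhds (by linarith) (by linarith))
    (Eventually.of_forall fun x => by
      apply Continuous.aestronglyMeasurable; fun_prop)
    (by apply Continuous.intervalIntegrable; fun_prop)
    (by apply Continuous.aestronglyMeasurable; fun_prop)
    (Eventually.of_forall fun s hs x hx => by
      rw [uIoc_of_le zero_le_one] at hs
      exact hC (s, x) ⟨⟨hs.1.le, hs.2⟩, hx⟩)
    intervalIntegrable_const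
    (Eventually.of_forall fun s _ x _ => by
      have h1 : HasDerivAt (fun x => s * x) s x := by simpa using (hasDerivAt_id x).const_mul s
      have h2 := ((hφd (s * x)).comp x h1).const_mul (κ s)
      refine h2.congr_deriv ?_
      ring)
  exact h.2

theorem param_contDiff (n : ℕ) : ∀ κ φ : ℝ → ℝ, Continuous κ → ContDiff ℝ n φ →
    ContDiff ℝ n (fun z => ∫ s in (0 : ℝ)..1, κ s * φ (s * z)) := by
  induction n with
  | zero =>
    intro κ φ hκ hφ
    simp only [Nat.cast_zero, contDiff_zero] at hφ ⊢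
    apply intervalIntegral.continuous_parametric_intervalIntegral_of_continuous'
    simp only [Function.uncurry_def]
    fun_prop
  | succ n ih =>
    intro κ φ hκ hφ
    have hφ1 : ContDiff ℝ 1 φ := hφ.of_le (by norm_cast; omega)
    have hd := param_hasDerivAt hκ hφ1
    push_cast
    rw [contDiff_succ_iff_deriv]
    refine ⟨fun z => (hd z).differentiableAt, by simp, ?_⟩
    have h1 : deriv (fun z => ∫ s in (0 : ℝ)..1, κ s * φ (s * z)) =
        fun z => ∫ s in (0 : ℝ)..1, (κ s * s) * deriv φ (s * z) := by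
      ext z; exact (hd z).deriv
    rw [h1]
    apply ih (fun s => κ s * s) (deriv φ) (by fun_prop)
    push_cast at hφ
    rw [contDiff_succ_iff_deriv] at hφ
    exact hφ.2.2

variable {f : ℝ → ℝ}

/-- `w = k'` -/
noncomputable def WW (f : ℝ → ℝ) (z : ℝ) : ℝ := CC f z - z / 3 * GG f z

theorem WW_cont (hf : Continuous f) : Continuous (WW f) := by
  have h1 : Continuous (GG f) := by unfold GG; fun_prop
  have h2 : Continuous (CC f) := continuous_iff_continuousAt.mpr fun z => (CC_deriv hf z).continuousAt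
  unfold WW
  fun_prop

theorem Fixed.f_eq (P : Fixed f) (z : ℝ) : f z = √(FF f z) := by
  rw [← P.sq, Real.sqrt_sq (P.pos z).le]

theorem Fixed.FF_pos (P : Fixed f) (z : ℝ) : 0 < FF f z := by
  rw [← P.sq]; exact pow_pos (P.pos z) 2

theorem Fixed.f_deriv (P : Fixed f) {z : ℝ} (hz : z ≠ 0) :
    HasDerivAt f ((2 * KK f z * z ^ 2 - 2 * HH f z * (2 * z)) / (z ^ 2) ^ 2 / (2 * f z)) z := by
  have hz2 : z ^ 2 ≠ 0 := by positivity
  have hF : ∀ x, x ≠ 0 → f x = √(2 * HH f x / x ^ 2) := by
    intro x hx
    rw [P.HH_eq x, P.f_eq x]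
    congr 1
    field_simp
  have h1 : HasDerivAt (fun x => 2 * HH f x / x ^ 2)
      ((2 * KK f z * z ^ 2 - 2 * HH f z * (2 * z)) / (z ^ 2) ^ 2) z := by
    have h : HasDerivAt (fun x => 2 * HH f x / x ^ 2) _ z :=
      ((HH_deriv P.cont z).const_mul 2).div (hasDerivAt_pow 2 z) hz2
    refine h.congr_deriv ?_
    push_cast
    ring
  have h0 : 2 * HH f z / z ^ 2 ≠ 0 := by
    intro h0
    have h2 := hF z hz
    rw [h0, Real.sqrt_zero] at h2
    exact (P.pos z).ne' h2
  have h3 := h1.sqrt h0
  rw [← hF z hz] at h3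
  apply h3.congr_of_eventuallyEq
  filter_upwards [isOpen_ne.mem_nhds hz] with x hx
  exact hF x hx

theorem Fixed.GG_deriv' (P : Fixed f) {z : ℝ} (hz : z ≠ 0) :
    HasDerivAt (GG f) (KK f z / GG f z) z := by
  have hfz := (P.pos z).ne'
  have h : HasDerivAt (GG f) _ z := (hasDerivAt_id z).mul (P.f_deriv hz)
  refine h.congr_deriv ?_
  simp only [id]
  have h2 : 2 * HH f z = (z * f z) ^ 2 := (P.HH_GG z).symm
  rw [h2]
  unfold GG
  field_simp
  ring

theorem Fixed.KK_zero : KK f 0 = 0 := by simp [KK, Mo]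

theorem Fixed.HH_zero : HH f 0 = 0 := by simp [HH, Mo]

theorem Fixed.WW_deriv (P : Fixed f) (z : ℝ) : HasDerivAt (WW f) (-(KK f z / (3 * f z))) z := by
  have hcontK : Continuous (KK f) :=
    continuous_iff_continuousAt.mpr fun z => (KK_deriv P.cont z).continuousAt
  have hcont : Continuous fun z => -(KK f z / (3 * f z)) := by
    apply Continuous.neg
    apply hcontK.div (by have := P.cont; fun_prop)
    intro z
    have := P.pos z
    positivity
  have hne : ∀ y, y ≠ 0 → HasDerivAt (WW f) (-(KK f y / (3 * f y))) y := by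
    intro y hy
    have h : HasDerivAt (WW f) _ y := (CC_deriv P.cont y).sub
      (((hasDerivAt_id y).div_const 3).mul (P.GG_deriv' hy))
    refine h.congr_deriv ?_
    have hfy := (P.pos y).ne'
    simp only [id]
    unfold GG
    field_simp
    ring
  rcases eq_or_ne z 0 with h | h
  · rw [h]
    exact hasDerivAt_of_hasDerivAt_of_ne (g := fun z => -(KK f z / (3 * f z)))
      (fun y hy => hne y hy) (WW_cont P.cont).continuousAt hcont.continuousAt
  · exact hne z h

theorem Fixed.FF_eq (P : Fixed f) (z : ℝ) :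
    FF f z = 2 * ∫ s in (0 : ℝ)..1, (1 - s) * WW f (s * z) := by
  have hW := WW_cont P.cont
  have hK0 : KK f 0 = 0 := Fixed.KK_zero
  have hH0 : HH f 0 = 0 := Fixed.HH_zero
  rcases eq_or_ne z 0 with h | h
  · have h1 : ∫ s in (0 : ℝ)..1, (1 - s) * WW f (s * z) = 1 / 2 := by
      have hd : ∀ s ∈ uIcc (0 : ℝ) 1, HasDerivAt (fun s => s - s ^ 2 / 2) (1 - s) s := by
        intro s _
        have := (hasDerivAt_id s).sub ((hasDerivAt_pow 2 s).div_const 2)
        refine this.congr_deriv ?_
        push_cast; ring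
      have h2 : ∀ s : ℝ, (1 - s) * WW f (s * z) = 1 - s := by
        intro s
        rw [h, mul_zero]
        simp [WW, CC, Mo]
      simp only [h2]
      rw [intervalIntegral.integral_eq_sub_of_hasDerivAt hd]
      · norm_num
      · apply Continuous.intervalIntegrable; fun_prop
    rw [h1, h]
    simp [FF]
  · have hd : ∀ s ∈ uIcc (0 : ℝ) 1, HasDerivAt
        (fun s => (1 - s) * (z * KK f (s * z)) + HH f (s * z)) (z ^ 2 * ((1 - s) * WW f (s * z))) s := by
      intro s _
      have h1 : HasDerivAt (fun s => s * z) z s := by simpa using (hasDerivAt_id s).mul_const z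
      have h2 := (KK_deriv P.cont (s * z)).comp s h1
      have h3 := (HH_deriv P.cont (s * z)).comp s h1
      have h4 : HasDerivAt (fun s : ℝ => 1 - s) (-1) s := by
        simpa using (hasDerivAt_id s).const_sub 1
      have h5 : HasDerivAt (fun s => (1 - s) * (z * KK f (s * z)) + HH f (s * z)) _ s :=
        (h4.mul (h2.const_mul z)).add h3
      refine h5.congr_deriv ?_
      unfold WW
      simp only [Function.comp]
      ring
    have h1 := intervalIntegral.integral_eq_sub_of_hasDerivAt hd
      (by apply Continuous.intervalIntegrable; fun_prop)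
    rw [intervalIntegral.integral_const_mul] at h1
    simp only [sub_self, zero_mul, one_mul, zero_add, sub_zero, hK0, hH0, mul_zero, add_zero] at h1
    have h2 := P.HH_eq z
    rw [← h1] at h2
    have hz2 : z ^ 2 ≠ 0 := by positivity
    have h3 : z ^ 2 * (FF f z) = z ^ 2 * (2 * ∫ s in (0 : ℝ)..1, (1 - s) * WW f (s * z)) := by
      linear_combination (-2) * h2
    exact mul_left_cancel₀ hz2 h3

theorem Fixed.f_contDiff_of (P : Fixed f) {n : ℕ} (h : ContDiff ℝ n (WW f)) : ContDiff ℝ n f := by
  have h1 : ContDiff ℝ n (FF f) := by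
    have h2 := param_contDiff n (fun s => 1 - s) (WW f) (by fun_prop) h
    have h3 : FF f = fun z => 2 * ∫ s in (0 : ℝ)..1, (1 - s) * WW f (s * z) := by
      ext z; exact P.FF_eq z
    rw [h3]
    exact contDiff_const.mul h2
  have h2 : f = fun z => √(FF f z) := by ext z; exact P.f_eq z
  rw [h2]
  exact h1.sqrt (fun z => (P.FF_pos z).ne')

theorem Fixed.WW_contDiff (P : Fixed f) (n : ℕ) : ContDiff ℝ n (WW f) := by
  induction n with
  | zero =>
    simp only [Nat.cast_zero, contDiff_zero]
    exact WW_cont P.cont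
  | succ n ih =>
    have hK : ContDiff ℝ (n + 1 : ℕ) (KK f) := by
      push_cast
      rw [contDiff_succ_iff_deriv]
      refine ⟨fun z => (KK_deriv P.cont z).differentiableAt, by simp, ?_⟩
      have : deriv (KK f) = WW f := by ext z; exact (KK_deriv P.cont z).deriv
      rw [this]; exact ih
    have hK' : ContDiff ℝ n (KK f) := hK.of_le (by norm_cast; omega)
    have hf := P.f_contDiff_of ih
    push_cast
    rw [contDiff_succ_iff_deriv]
    refine ⟨fun z => (P.WW_deriv z).differentiableAt, by simp, ?_⟩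
    have : deriv (WW f) = fun z => -(KK f z / (3 * f z)) := by
      ext z; exact (P.WW_deriv z).deriv
    rw [this]
    apply ContDiff.neg
    apply hK'.div (contDiff_const.mul hf)
    intro z
    have := P.pos z
    positivity

open scoped ContDiff in
theorem Fixed.f_contDiff (P : Fixed f) : ContDiff ℝ ∞ f := by
  rw [contDiff_infty]
  exact fun n => P.f_contDiff_of (P.WW_contDiff n)

open scoped ContDiff in
theorem Fixed.GG_contDiff (P : Fixed f) : ContDiff ℝ ∞ (GG f) := by
  have := P.f_contDiff
  unfold GG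
  exact contDiff_id.mul this

theorem Fixed.core (P : Fixed f) : Core (GG f) (deriv (GG f)) (CC f) (KK f) where
  hG z := (P.GG_contDiff.differentiable (by simp) z).hasDerivAt
  hc z := CC_deriv P.cont z
  hk z := KK_deriv P.cont z
  kk z := by
    have h1 := (P.GG_contDiff.differentiable (by simp) z).hasDerivAt
    have h2 : HasDerivAt (fun z => GG f z ^ 2) _ z := h1.pow 2
    have h3 : HasDerivAt (fun z => 2 * HH f z) _ z := (HH_deriv P.cont z).const_mul 2
    have h4 : (fun z => GG f z ^ 2) = fun z => 2 * HH f z := by ext z; exact P.HH_GG z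
    rw [h4] at h2
    have := h2.unique h3
    push_cast at this
    linear_combination (-1 / 2) * this
  G0 := by simp [GG]
  c0 := by
    have h1 : HasDerivAt (GG f) _ 0 := (hasDerivAt_id 0).mul
      (P.f_contDiff.differentiable (by simp) 0).hasDerivAt
    rw [h1.deriv]
    have h2 := P.sq 0
    have h3 : FF f 0 = 1 := by simp [FF]
    rw [h3] at h2
    simp only [one_mul, zero_mul, add_zero, h2]
    simp [CC, Mo]

open scoped ContDiff in
/-- Existence of a core with limit one. -/
theorem exists_core : ∃ G G1 c k : ℝ → ℝ, Core G G1 c k ∧ ContDiff ℝ ∞ G ∧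
    (∀ z, G (-z) = -G z) ∧ Tendsto G atTop (𝓝 1) := by
  obtain ⟨f, hf, hfN⟩ := exists_fixed
  have P : Fixed f := ⟨hf, hfN⟩
  have hC := P.core
  have hpos : ∀ z, 0 < z → 0 < GG f z := fun z hz => mul_pos hz (P.pos z)
  have ha : 0 < deriv (GG f) 0 := by
    have h1 : HasDerivAt (GG f) _ 0 := (hasDerivAt_id 0).mul
      (P.f_contDiff.differentiable (by simp) 0).hasDerivAt
    rw [h1.deriv]
    simp only [one_mul, zero_mul, add_zero]
    exact P.pos 0
  have hPS := hC.posSys (fun z hz => (hpos z hz).le) ha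
  obtain ⟨l, hl, hlim⟩ := hPS.tendsto
  set t : ℝ := l ^ (1 / 3 : ℝ) with ht
  have ht0 : 0 < t := Real.rpow_pos_of_pos hl _
  have ht3 : t ^ 3 = l := by
    rw [ht, ← Real.rpow_natCast, ← Real.rpow_mul hl.le]
    norm_num
  refine ⟨_, _, _, _, hC.scale ht0, ?_, ?_, ?_⟩
  · have := P.GG_contDiff
    fun_prop
  · intro z
    have h1 : ∀ z, GG f (-z) = -GG f z := by
      intro z; unfold GG; rw [P.even]; ring
    rw [mul_neg, h1]; ring
  · have h1 := (hlim.comp (tendsto_id.const_mul_atTop ht0)).const_mul (t ^ 3)⁻¹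
    rw [ht3] at h1 ⊢
    rw [inv_mul_cancel₀ hl.ne'] at h1
    exact h1

end Pool.Agent.R207.Prof
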