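import Pool.Agent.R207.QC1

set_option autoImplicit false

/-! # An unbounded solution: polynomial part, logarithm, Green formula -/

namespace Pool.Agent.R207.QC

open MeasureTheory Real Set Filter Topology InnerProductSpace Laplacian
open scoped ContDiff

variable {n : ℕ}

/-! ## the polynomial -/

/-- `x_j^2 |x|^2 - |x|^4` -/
noncomputable def pp (j : Fin n) : E n → ℝ :=
  fun x => co j x * co j x * qq x + (-1) * (qq x * qq x)

theorem A2_smooth (j : Fin n) : ContDiff ℝ ∞ (fun x : E n => co j x * co j x) :=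
  (co_smooth j).mul (co_smooth j)

theorem pp_smooth (j : Fin n) : ContDiff ℝ ∞ (pp j) :=
  ((A2_smooth j).mul qq_smooth).add (contDiff_const.mul (qq_smooth.mul qq_smooth))

theorem lap_A2 (j : Fin n) : Δ (fun x : E n => co j x * co j x) = fun _ => 2 := by
  rw [lap_mul (co_smooth j) (co_smooth j)]
  ext x
  simp only [lap_co, Pd_co]
  simp

theorem lap_A2q (j : Fin n) : Δ (fun x : E n => co j x * co j x * qq x) =
    fun x => (2 * n + 8) * (co j x * co j x) + 2 * qq x := by
  rw [lap_mul (A2_smooth j) qq_smooth]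
  ext x
  rw [lap_qq, lap_A2]
  have h : ∀ i : Fin n, Pd i (fun x : E n => co j x * co j x) x * Pd i qq x =
      if j = i then 4 * (co j x * co j x) else 0 := by
    intro i
    rw [Pd_mul (co_smooth j) (co_smooth j), Pd_co, Pd_qq]
    split_ifs with h
    · rw [h]; simp; ring
    · simp
  simp only [h, Finset.sum_ite_eq, Finset.mem_univ, if_true]
  ring

theorem lap_q2 : Δ (fun x : E n => qq x * qq x) = fun x => (4 * n + 8) * qq x := by
  rw [lap_mul qq_smooth qq_smooth]
  ext x
  rw [lap_qq]
  have h : ∀ i : Fin n, Pd i (qq (n := n)) x * Pd i qq x = 4 * (co i x * co i x) := by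
    intro i
    rw [Pd_qq]; ring
  simp only [h]
  rw [← Finset.mul_sum, sum_co_sq]
  ring

theorem NL_pp (j : Fin n) : NL (pp j) =
    fun x => (-(2 * n + 8)) * (co j x * co j x) + (4 * n + 6) * qq x := by
  have h : Δ (pp j) = fun x => (2 * n + 8) * (co j x * co j x) + 2 * qq x
      + (-1) * ((4 * n + 8) * qq x) := by
    unfold pp
    rw [lap_add ((A2_smooth j).mul qq_smooth) (contDiff_const.mul (qq_smooth.mul qq_smooth)),
      lap_const_mul (qq_smooth.mul qq_smooth), lap_A2q, lap_q2]
  ext x
  change -Δ (pp j) x = _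
  rw [h]
  ring

theorem NL_NL_pp (j : Fin n) : ∃ c : ℝ, NL (NL (pp j)) = fun _ => c := by
  refine ⟨-((-(2 * n + 8)) * 2 + (4 * n + 6) * (2 * n)), ?_⟩
  rw [NL_pp]
  ext x
  change -Δ (fun x : E n => (-(2 * n + 8)) * (co j x * co j x) + (4 * n + 6) * qq x) x = _
  rw [lap_add (contDiff_const.mul (A2_smooth j)) (contDiff_const.mul qq_smooth),
    lap_const_mul (A2_smooth j), lap_const_mul qq_smooth, lap_A2, lap_qq]

theorem NL_zero : NL (fun _ : E n => (0 : ℝ)) = fun _ => 0 := by
  ext x
  change -Δ (fun _ : E n => (0 : ℝ)) x = 0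
  rw [lap_const]
  simp

theorem NL_iter_pp (j : Fin n) {m : ℕ} (hm : 3 ≤ m) : NL^[m] (pp j) = fun _ => 0 := by
  obtain ⟨c, hc⟩ := NL_NL_pp j
  induction m, hm using Nat.le_induction with
  | base =>
    change NL (NL (NL (pp j))) = _
    rw [hc]
    ext x
    change -Δ (fun _ : E n => c) x = 0
    rw [lap_const]
    simp
  | succ m hm ih => rw [Function.iterate_succ_apply', ih, NL_zero]

/-! ## the logarithm -/

/-- a cut-off near the origin -/
noncomputable def bb : ContDiffBump (0 : E n) :=
  { rIn := 1 / 2, rOut := 1, rIn_pos := by norm_num, rIn_lt_rOut := by norm_num }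

/-- smooth function equal to `log |x|` for `|x| ≥ 1` -/
noncomputable def ll : E n → ℝ := fun x => (1 - bb x) * Real.log ‖x‖

theorem bb_out {x : E n} (hx : 1 ≤ ‖x‖) : (bb (n := n)) x = 0 := by
  apply ContDiffBump.zero_of_le_dist
  change (1 : ℝ) ≤ dist x 0
  rwa [dist_zero_right]

theorem ll_out {x : E n} (hx : 1 ≤ ‖x‖) : ll x = Real.log ‖x‖ := by
  unfold ll
  rw [bb_out hx]; ring

theorem ll_smooth : ContDiff ℝ ∞ (ll (n := n)) := by
  rw [contDiff_iff_contDiffAt]
  intro x
  rcases eq_or_ne x 0 with h | h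
  · have he : ll (n := n) =ᶠ[𝓝 x] fun _ => 0 := by
      have : Metric.ball (0 : E n) (1 / 2) ∈ 𝓝 x := by
        rw [h]; exact Metric.ball_mem_nhds 0 (by norm_num)
      filter_upwards [this] with y hy
      unfold ll
      have : (bb (n := n)) y = 1 := by
        apply ContDiffBump.one_of_mem_closedBall
        exact Metric.ball_subset_closedBall hy
      rw [this]; ring
    exact contDiffAt_const.congr_of_eventuallyEq he
  · unfold ll
    apply ContDiffAt.mul
    · exact contDiffAt_const.sub (bb (n := n)).contDiffAt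
    · exact (contDiffAt_norm ℝ h).log (norm_ne_zero_iff.mpr h)

theorem ll_le (x : E n) : Real.exp (ll x) ≤ 1 + ‖x‖ := by
  rcases le_total 1 ‖x‖ with h | h
  · rw [ll_out h, Real.exp_log (by linarith)]
    linarith
  · have h1 : ll x ≤ 0 := by
      unfold ll
      apply mul_nonpos_of_nonneg_of_nonpos
      · linarith [(bb (n := n)).le_one (x := x)]
      · exact Real.log_nonpos (norm_nonneg _) h
    have := Real.exp_le_one_iff.mpr h1
    linarith [norm_nonneg x]

/-- coefficients -/
noncomputable def dc (m : ℕ) : ℕ → ℝ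
  | 0 => -(2 * m - 2)
  | k + 1 => 4 * (k + 1) * (m - (k + 1) - 1) * dc m k

theorem qq_pos {x : E n} (hx : x ≠ 0) : 0 < qq x := by
  unfold qq
  have := norm_pos_iff.mpr hx
  positivity

theorem open_out : IsOpen {x : E n | 1 < ‖x‖} := isOpen_lt continuous_const continuous_norm

theorem NL_ll (m : ℕ) (hn : n = 2 * m) (k : ℕ) :
    ∀ x : E n, 1 < ‖x‖ → NL^[k + 1] ll x = dc m k * (qq x ^ (k + 1))⁻¹ := by
  have hnR : (n : ℝ) = 2 * m := by rw [hn]; push_cast; ring
  have hne : ∀ x : E n, 1 < ‖x‖ → x ≠ 0 := by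
    intro x hx h
    rw [h, norm_zero] at hx
    linarith
  induction k with
  | zero =>
    intro x hx
    change -Δ ll x = _
    have he : ll (n := n) =ᶠ[𝓝 x] fun y => (1 / 2) * Real.log (qq y) := by
      filter_upwards [open_out.mem_nhds hx] with y hy
      have hy' : (1 : ℝ) < ‖y‖ := hy
      rw [ll_out hy'.le]
      unfold qq
      rw [Real.log_pow]
      push_cast; ring
    have h1 := (laplacian_congr_nhds he).eq_of_nhds
    rw [h1]
    have h2 := lap_radial (n := n) (G := fun s => (1 / 2) * Real.log s) (G1 := fun s => (1 / 2) * s⁻¹)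
      (G2 := fun s => (1 / 2) * (-(s ^ 2)⁻¹)) (fun s hs => (Real.hasDerivAt_log hs.ne').const_mul _)
      (fun s hs => (hasDerivAt_inv hs.ne').const_mul _)
      (fun s hs => contDiffAt_const.mul (Real.contDiffAt_log.mpr hs.ne')) (hne x hx)
    rw [h2]
    have hq := qq_pos (hne x hx)
    unfold dc
    rw [hnR]
    field_simp
    ring
  | succ k ih =>
    intro x hx
    rw [Function.iterate_succ_apply']
    change -Δ (NL^[k + 1] ll) x = _
    have he : NL^[k + 1] (ll (n := n)) =ᶠ[𝓝 x] fun y => dc m k * (qq y ^ (k + 1))⁻¹ := by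
      filter_upwards [open_out.mem_nhds hx] with y hy
      exact ih y hy
    have h1 := (laplacian_congr_nhds he).eq_of_nhds
    rw [h1]
    have h2 := lap_radial (n := n) (G := fun s => dc m k * (s ^ (k + 1))⁻¹)
      (G1 := fun s => dc m k * (-((k + 1) * (s ^ (k + 2))⁻¹)))
      (G2 := fun s => dc m k * ((k + 1) * (k + 2) * (s ^ (k + 3))⁻¹))
      (fun s hs => by
        have h := ((hasDerivAt_pow (k + 1) s).inv (pow_ne_zero _ hs.ne')).const_mul (dc m k)
        refine h.congr_deriv ?_
        push_cast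
        field_simp
        ring)
      (fun s hs => by
        have h := ((((hasDerivAt_pow (k + 2) s).inv (pow_ne_zero _ hs.ne')).const_mul
          ((k : ℝ) + 1)).neg).const_mul (dc m k)
        refine h.congr_deriv ?_
        push_cast
        field_simp
        ring)
      (fun s hs => contDiffAt_const.mul ((contDiffAt_id.pow _).inv (pow_ne_zero _ hs.ne')))
      (hne x hx)
    rw [h2]
    have hq := qq_pos (hne x hx)
    have e1 : dc m (k + 1) = 4 * (k + 1) * (m - (k + 1) - 1) * dc m k := rfl
    rw [e1, hnR]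
    field_simp
    ring

theorem dc_zero {m : ℕ} (hm : 2 ≤ m) : dc m (m - 1) = 0 := by
  obtain ⟨k, rfl⟩ : ∃ k, m = k + 2 := ⟨m - 2, by omega⟩
  have : k + 2 - 1 = k + 1 := by omega
  rw [this]
  change 4 * ((k : ℝ) + 1) * ((k + 2 : ℕ) - (k + 1) - 1) * dc (k + 2) k = 0
  push_cast
  ring

theorem NL_ll_out {m : ℕ} (hm : 2 ≤ m) (hn : n = 2 * m) {x : E n} (hx : 1 < ‖x‖) :
    NL^[m] ll x = 0 := by
  have h := NL_ll m hn (m - 1) x hx
  have e : m - 1 + 1 = m := by omega
  rw [e, dc_zero hm, zero_mul] at h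
  exact h

/-! ## Green formula -/

theorem Pd_compact {f : E n → ℝ} (hf : HasCompactSupport f) (i : Fin n) :
    HasCompactSupport (Pd i f) := by
  unfold Pd
  exact hf.fderiv_apply (𝕜 := ℝ) _

theorem green_one {f g : E n → ℝ} (hf : ContDiff ℝ ∞ f) (hg : ContDiff ℝ ∞ g)
    (hc : HasCompactSupport g) (i : Fin n) :
    ∫ x, f x * Pd i g x = -∫ x, Pd i f x * g x := by
  have h1 : Continuous f := hf.continuous
  have h2 : Continuous g := hg.continuous
  have h3 : Continuous (Pd i f) := (Pd_smooth hf i).continuous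
  have h4 : Continuous (Pd i g) := (Pd_smooth hg i).continuous
  exact integral_mul_fderiv_eq_neg_fderiv_mul_of_integrable
    ((h3.mul h2).integrable_of_hasCompactSupport hc.mul_left)
    ((h1.mul h4).integrable_of_hasCompactSupport (Pd_compact hc i).mul_left)
    ((h1.mul h2).integrable_of_hasCompactSupport hc.mul_left)
    (fun x _ => hf.differentiable (by simp) x) (fun x _ => hg.differentiable (by simp) x)

theorem NL_compact {f : E n → ℝ} (hs : ContDiff ℝ ∞ f) (hf : HasCompactSupport f) :
    HasCompactSupport (NL f) := by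
  apply HasCompactSupport.intro hf.isCompact
  intro x hx
  have h1 : f =ᶠ[𝓝 x] fun _ => 0 := notMem_tsupport_iff_eventuallyEq.mp hx
  change -Δ f x = 0
  rw [(laplacian_congr_nhds h1).eq_of_nhds, lap_const]
  simp

theorem green_NL {f g : E n → ℝ} (hf : ContDiff ℝ ∞ f) (hg : ContDiff ℝ ∞ g)
    (hc : HasCompactSupport g) : ∫ x, f x * NL g x = ∫ x, NL f x * g x := by
  have e1 : ∀ x, f x * NL g x = ∑ i, -(f x * Pd i (Pd i g) x) := by
    intro x
    change f x * -Δ g x = _
    rw [lap_eq' hg, Finset.sum_neg_distrib, ← Finset.mul_sum]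
    ring
  have e2 : ∀ x, NL f x * g x = ∑ i, -(Pd i (Pd i f) x * g x) := by
    intro x
    change -Δ f x * g x = _
    rw [lap_eq' hf, Finset.sum_neg_distrib, ← Finset.sum_mul]
    ring
  simp only [e1, e2]
  rw [integral_finset_sum, integral_finset_sum]
  · apply Finset.sum_congr rfl
    intro i _
    rw [integral_neg, integral_neg]
    congr 1
    rw [green_one hf (Pd_smooth hg i) (Pd_compact hc i) i]
    have := green_one (Pd_smooth hf i) hg hc i
    rw [this, neg_neg]
  · intro i _
    exact (((Pd_smooth (Pd_smooth hf i) i).continuous.mul hg.continuous).integrable_of_hasCompactSupport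
      hc.mul_left).neg
  · intro i _
    exact ((hf.continuous.mul (Pd_smooth (Pd_smooth hg i) i).continuous).integrable_of_hasCompactSupport
      (Pd_compact (Pd_compact hc i) i).mul_left).neg

theorem green_iter {f g : E n → ℝ} (hf : ContDiff ℝ ∞ f) (hg : ContDiff ℝ ∞ g)
    (hc : HasCompactSupport g) (k : ℕ) : ∫ x, f x * NL^[k] g x = ∫ x, NL^[k] f x * g x := by
  induction k generalizing g with
  | zero => rfl
  | succ k ih =>
    rw [Function.iterate_succ_apply, Function.iterate_succ_apply', ih (NL_smooth hg) (NL_compact hg hc),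
      green_NL (NL_iter_smooth hf k) hg hc]

end Pool.Agent.R207.QC
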