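import Pool.Agent.R207.QC2

set_option autoImplicit false

/-! # An unbounded solution: integrability of the exponential -/

namespace Pool.Agent.R207.QC

open MeasureTheory Real Set Filter Topology InnerProductSpace Laplacian
open scoped ContDiff

variable {n : ℕ}

/-- factor for the other coordinates -/
noncomputable def Wf (y : ℝ) : ℝ :=
  (1 + |y|) * (√2 * (1 + |y| ^ (-(1 / 2) : ℝ))) * Real.exp (-y ^ 4)

theorem Wf_integrable : Integrable Wf := by
  have h1 : Integrable fun y : ℝ => y ^ (-(1 / 2) : ℝ) * Real.exp (-1 * y ^ 2) :=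
    integrable_rpow_mul_exp_neg_mul_sq one_pos (by norm_num)
  have h2 := h1.comp_neg
  have h3 : Integrable fun y : ℝ => Real.exp (-1 * y ^ 2) := integrable_exp_neg_mul_sq one_pos
  have h4 := ((h3.add (h1.abs.add h2.abs)).const_mul (√2 * Real.exp 2))
  apply h4.mono'
  · apply Measurable.aestronglyMeasurable
    unfold Wf
    fun_prop
  · refine Filter.Eventually.of_forall fun y => ?_
    simp only [Pi.add_apply]
    have hW : 0 ≤ Wf y := by
      unfold Wf
      positivity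
    rw [Real.norm_of_nonneg hW]
    have e1 : |y| ^ (-(1 / 2) : ℝ) ≤ |y ^ (-(1 / 2) : ℝ)| + |(-y) ^ (-(1 / 2) : ℝ)| := by
      rcases le_total 0 y with hy | hy
      · rw [abs_of_nonneg hy]
        have := le_abs_self (y ^ (-(1 / 2) : ℝ))
        have := abs_nonneg ((-y) ^ (-(1 / 2) : ℝ))
        linarith
      · rw [abs_of_nonpos hy]
        have := le_abs_self ((-y) ^ (-(1 / 2) : ℝ))
        have := abs_nonneg (y ^ (-(1 / 2) : ℝ))
        linarith
    have e2 : (1 + |y|) * Real.exp (-y ^ 4) ≤ Real.exp 2 * Real.exp (-1 * y ^ 2) := by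
      have a1 : 1 + |y| ≤ Real.exp |y| := by
        have := Real.add_one_le_exp |y|
        linarith
      calc (1 + |y|) * Real.exp (-y ^ 4) ≤ Real.exp |y| * Real.exp (-y ^ 4) := by gcongr
        _ = Real.exp (|y| + -y ^ 4) := by rw [Real.exp_add]
        _ ≤ Real.exp (2 + -1 * y ^ 2) := by
          apply Real.exp_le_exp.mpr
          nlinarith [sq_nonneg (y ^ 2 - 1), sq_nonneg (|y| - 1 / 2), sq_abs y]
        _ = _ := by rw [Real.exp_add]
    have e3 : |y ^ (-(1 / 2) : ℝ) * Real.exp (-1 * y ^ 2)| =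
        |y ^ (-(1 / 2) : ℝ)| * Real.exp (-1 * y ^ 2) := by
      rw [abs_mul, abs_of_pos (Real.exp_pos _)]
    have e4 : |(-y) ^ (-(1 / 2) : ℝ) * Real.exp (-1 * (-y) ^ 2)| =
        |(-y) ^ (-(1 / 2) : ℝ)| * Real.exp (-1 * y ^ 2) := by
      rw [abs_mul, abs_of_pos (Real.exp_pos _), neg_sq]
    rw [e3, e4]
    have e5 : Wf y = √2 * (1 + |y| ^ (-(1 / 2) : ℝ)) * ((1 + |y|) * Real.exp (-y ^ 4)) := by
      unfold Wf
      ring
    rw [e5]
    calc √2 * (1 + |y| ^ (-(1 / 2) : ℝ)) * ((1 + |y|) * Real.exp (-y ^ 4))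
        ≤ √2 * (1 + (|y ^ (-(1 / 2) : ℝ)| + |(-y) ^ (-(1 / 2) : ℝ)|)) *
          (Real.exp 2 * Real.exp (-1 * y ^ 2)) := by
          gcongr
      _ = _ := by ring

theorem key_one (t y : ℝ) (hy : y ≠ 0) :
    Real.exp (-(t ^ 2 * y ^ 2)) ≤
      (1 + |t|) ^ (-(1 / 2) : ℝ) * (√2 * (1 + |y| ^ (-(1 / 2) : ℝ))) := by
  have hy' : 0 < |y| := abs_pos.mpr hy
  have h1t : (0 : ℝ) < 1 + |t| := by positivity
  have hs2 : √2 = (2 : ℝ) ^ (1 / 2 : ℝ) := by rw [Real.sqrt_eq_rpow]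
  have hkey : (1 : ℝ) ≤ (1 + |t|) ^ (-(1 / 2) : ℝ) * √2 ∨ 1 ≤ |t| := by
    rcases le_total 1 |t| with h | h
    · exact Or.inr h
    · left
      rw [hs2]
      have : (2 : ℝ) ^ (-(1 / 2) : ℝ) ≤ (1 + |t|) ^ (-(1 / 2) : ℝ) :=
        Real.rpow_le_rpow_of_nonpos h1t (by linarith) (by norm_num)
      calc (1 : ℝ) = (2 : ℝ) ^ (-(1 / 2) : ℝ) * (2 : ℝ) ^ (1 / 2 : ℝ) := by
            rw [← Real.rpow_add (by norm_num)]; norm_num
        _ ≤ _ := by gcongr
  have hyp : 0 ≤ |y| ^ (-(1 / 2) : ℝ) := by positivity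
  rcases hkey with h | h
  · calc Real.exp (-(t ^ 2 * y ^ 2)) ≤ 1 := Real.exp_le_one_iff.mpr (by nlinarith [mul_nonneg (sq_nonneg t) (sq_nonneg y)])
      _ ≤ (1 + |t|) ^ (-(1 / 2) : ℝ) * √2 * 1 := by linarith
      _ ≤ (1 + |t|) ^ (-(1 / 2) : ℝ) * √2 * (1 + |y| ^ (-(1 / 2) : ℝ)) := by
          gcongr
          linarith
      _ = _ := by ring
  · have ht : 0 < |t| := by linarith
    set z := |t| * |y| with hz
    have hz0 : 0 < z := by positivity
    have hz2 : t ^ 2 * y ^ 2 = z ^ 2 := by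
      rw [hz, mul_pow, sq_abs, sq_abs]
    have a1 : Real.exp (-(t ^ 2 * y ^ 2)) ≤ z ^ (-(1 / 2) : ℝ) := by
      rw [hz2]
      rcases le_total z 1 with h1 | h1
      · have : (1 : ℝ) ≤ z ^ (-(1 / 2) : ℝ) := Real.one_le_rpow_of_pos_of_le_one_of_nonpos hz0 h1 (by norm_num)
        have : Real.exp (-z ^ 2) ≤ 1 := Real.exp_le_one_iff.mpr (by nlinarith [sq_nonneg z])
        linarith
      · rw [Real.exp_neg, Real.rpow_neg hz0.le]
        apply inv_anti₀ (by positivity)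
        calc z ^ (1 / 2 : ℝ) ≤ z ^ (1 : ℝ) := Real.rpow_le_rpow_of_exponent_le h1 (by norm_num)
          _ = z := Real.rpow_one z
          _ ≤ z ^ 2 := by nlinarith
          _ ≤ Real.exp (z ^ 2) := by linarith [Real.add_one_le_exp (z ^ 2)]
    have a2 : z ^ (-(1 / 2) : ℝ) = |t| ^ (-(1 / 2) : ℝ) * |y| ^ (-(1 / 2) : ℝ) :=
      Real.mul_rpow (abs_nonneg t) (abs_nonneg y)
    have a3 : |t| ^ (-(1 / 2) : ℝ) ≤ (1 + |t|) ^ (-(1 / 2) : ℝ) * √2 := by
      have b1 : |t| ^ (-(1 / 2) : ℝ) ≤ ((1 + |t|) / 2) ^ (-(1 / 2) : ℝ) :=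
        Real.rpow_le_rpow_of_nonpos (by positivity) (by linarith) (by norm_num)
      have b2 : ((1 + |t|) / 2) ^ (-(1 / 2) : ℝ) = (1 + |t|) ^ (-(1 / 2) : ℝ) * √2 := by
        rw [Real.div_rpow h1t.le (by norm_num), hs2, Real.rpow_neg (by norm_num : (0 : ℝ) ≤ 2)]
        rw [div_inv_eq_mul]
      rw [← b2]; exact b1
    calc Real.exp (-(t ^ 2 * y ^ 2)) ≤ |t| ^ (-(1 / 2) : ℝ) * |y| ^ (-(1 / 2) : ℝ) := by
          rw [← a2]; exact a1
      _ ≤ ((1 + |t|) ^ (-(1 / 2) : ℝ) * √2) * (1 + |y| ^ (-(1 / 2) : ℝ)) := by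
          gcongr
          linarith
      _ = _ := by ring

theorem one_add_sum_le {ι : Type*} (s : Finset ι) (a : ι → ℝ) (ha : ∀ i, 0 ≤ a i) :
    1 + ∑ i ∈ s, a i ≤ ∏ i ∈ s, (1 + a i) := by
  classical
  induction s using Finset.induction_on with
  | empty => simp
  | insert i s hi ih =>
    rw [Finset.sum_insert hi, Finset.prod_insert hi]
    have h1 : 0 ≤ ∑ i ∈ s, a i := Finset.sum_nonneg fun i _ => ha i
    nlinarith [ha i, mul_nonneg (ha i) h1, mul_le_mul_of_nonneg_left ih (by linarith [ha i] : (0:ℝ) ≤ 1 + a i)]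

theorem norm_le_sum (x : E n) : ‖x‖ ≤ ∑ i, |x i| := by
  have h0 : 0 ≤ ∑ i, |x i| := Finset.sum_nonneg fun i _ => abs_nonneg _
  rw [EuclideanSpace.norm_eq]
  apply Real.sqrt_le_iff.mpr
  refine ⟨h0, ?_⟩
  have := Finset.sum_sq_le_sq_sum_of_nonneg (s := Finset.univ) (f := fun i => |x i|) (fun i _ => abs_nonneg (x i))
  simpa using this

/-- the product bound -/
noncomputable def gf (j i : Fin n) (y : ℝ) : ℝ :=
  if i = j then (1 + ‖y‖) ^ (-(3 / 2) : ℝ) else Wf y

theorem gf_integrable (j i : Fin n) : Integrable (gf j i) := by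
  by_cases h : i = j
  · have : gf j i = fun y => (1 + ‖y‖) ^ (-(3 / 2) : ℝ) := by
      ext y; unfold gf; rw [if_pos h]
    rw [this]
    exact integrable_one_add_norm (by simp; norm_num)
  · have : gf j i = Wf := by
      ext y; unfold gf; rw [if_neg h]
    rw [this]
    exact Wf_integrable

theorem pp_eq (j : Fin n) (x : E n) : pp j x = -(((x j) ^ 2 + ∑ i ∈ Finset.univ.erase j, (x i) ^ 2) *
    ∑ i ∈ Finset.univ.erase j, (x i) ^ 2) := by
  have h : qq x = (x j) ^ 2 + ∑ i ∈ Finset.univ.erase j, (x i) ^ 2 := by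
    rw [← sum_co_sq]
    rw [← Finset.add_sum_erase Finset.univ _ (Finset.mem_univ j)]
    unfold co
    congr 1
    · ring
    · apply Finset.sum_congr rfl
      intro i _
      ring
  unfold pp
  rw [h]
  unfold co
  ring

theorem main_bound (hn : 6 ≤ n) (j : Fin n) (x : E n) (hx : ∀ i, x i ≠ 0) :
    (1 + ‖x‖) * Real.exp (n * pp j x) ≤ ∏ i, gf j i (x i) := by
  have hn' : (1 : ℝ) ≤ n := by exact_mod_cast (by omega : 1 ≤ n)
  set t := x j with ht
  set s := Finset.univ.erase j with hs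
  have h1 : 1 + ‖x‖ ≤ (1 + |t|) * ∏ i ∈ s, (1 + |x i|) := by
    have a1 := norm_le_sum x
    have a2 := one_add_sum_le Finset.univ (fun i => |x i|) (fun i => abs_nonneg _)
    rw [← Finset.mul_prod_erase Finset.univ _ (Finset.mem_univ j)] at a2
    linarith
  have h2 : Real.exp (n * pp j x) ≤ ∏ i ∈ s, (Real.exp (-(t ^ 2 * (x i) ^ 2)) * Real.exp (-(x i) ^ 4)) := by
    rw [Finset.prod_mul_distrib, ← Real.exp_sum, ← Real.exp_sum, ← Real.exp_add]
    apply Real.exp_le_exp.mpr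
    rw [pp_eq]
    set S := ∑ i ∈ s, (x i) ^ 2 with hS
    have hS0 : 0 ≤ S := Finset.sum_nonneg fun i _ => sq_nonneg _
    have e1 : ∑ i ∈ s, -(t ^ 2 * (x i) ^ 2) = -(t ^ 2 * S) := by
      rw [Finset.sum_neg_distrib, hS, Finset.mul_sum]
    have e2 : ∑ i ∈ s, -(x i) ^ 4 ≥ -(S ^ 2) := by
      rw [Finset.sum_neg_distrib]
      have := Finset.sum_sq_le_sq_sum_of_nonneg (s := s) (f := fun i => (x i) ^ 2) (fun i _ => sq_nonneg (x i))
      have e3 : ∑ i ∈ s, (x i) ^ 4 = ∑ i ∈ s, ((x i) ^ 2) ^ 2 := by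
        apply Finset.sum_congr rfl
        intro i _
        ring
      rw [e3]
      linarith
    rw [e1]
    have e4 : 0 ≤ (t ^ 2 + S) * S := by positivity
    nlinarith
  have h3 : ∀ i ∈ s, Real.exp (-(t ^ 2 * (x i) ^ 2)) * Real.exp (-(x i) ^ 4) ≤
      (1 + |t|) ^ (-(1 / 2) : ℝ) * ((√2 * (1 + |x i| ^ (-(1 / 2) : ℝ))) * Real.exp (-(x i) ^ 4)) := by
    intro i _
    have := key_one t (x i) (hx i)
    calc _ ≤ ((1 + |t|) ^ (-(1 / 2) : ℝ) * (√2 * (1 + |x i| ^ (-(1 / 2) : ℝ)))) * Real.exp (-(x i) ^ 4) := by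
          gcongr
      _ = _ := by ring
  have h4 : ∏ i ∈ s, (Real.exp (-(t ^ 2 * (x i) ^ 2)) * Real.exp (-(x i) ^ 4)) ≤
      ∏ i ∈ s, (1 + |t|) ^ (-(1 / 2) : ℝ) *
        ((√2 * (1 + |x i| ^ (-(1 / 2) : ℝ))) * Real.exp (-(x i) ^ 4)) :=
    Finset.prod_le_prod (fun i _ => by positivity) h3
  have h5 : ∏ i, gf j i (x i) = (1 + |t|) ^ (-(3 / 2) : ℝ) * ∏ i ∈ s, Wf (x i) := by
    rw [← Finset.mul_prod_erase Finset.univ _ (Finset.mem_univ j)]
    congr 1
    · unfold gf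
      rw [if_pos rfl, Real.norm_eq_abs]
    · apply Finset.prod_congr rfl
      intro i hi
      unfold gf
      rw [if_neg (Finset.ne_of_mem_erase hi)]
  rw [h5]
  set a := (1 + |t|) ^ (-(1 / 2) : ℝ) with ha
  have h1t : (0 : ℝ) < 1 + |t| := by positivity
  have ha0 : 0 < a := by positivity
  have ha1 : a ≤ 1 := Real.rpow_le_one_of_one_le_of_nonpos (by linarith [abs_nonneg t]) (by norm_num)
  have hcard : s.card = n - 1 := by
    rw [hs, Finset.card_erase_of_mem (Finset.mem_univ j), Finset.card_univ, Fintype.card_fin]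
  have h6 : (1 + |t|) * a ^ s.card ≤ (1 + |t|) ^ (-(3 / 2) : ℝ) := by
    have b1 : a ^ s.card ≤ a ^ 5 := pow_le_pow_of_le_one ha0.le ha1 (by omega)
    have b2 : a ^ 5 = (1 + |t|) ^ (-(5 / 2) : ℝ) := by
      rw [ha, ← Real.rpow_natCast, ← Real.rpow_mul h1t.le]
      norm_num
    calc (1 + |t|) * a ^ s.card ≤ (1 + |t|) * a ^ 5 := by gcongr
      _ = (1 + |t|) ^ (1 : ℝ) * (1 + |t|) ^ (-(5 / 2) : ℝ) := by rw [b2, Real.rpow_one]
      _ = (1 + |t|) ^ (-(3 / 2) : ℝ) := by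
          rw [← Real.rpow_add h1t]; norm_num
  calc (1 + ‖x‖) * Real.exp (n * pp j x)
      ≤ ((1 + |t|) * ∏ i ∈ s, (1 + |x i|)) * ∏ i ∈ s, (a *
        ((√2 * (1 + |x i| ^ (-(1 / 2) : ℝ))) * Real.exp (-(x i) ^ 4))) := by
        gcongr
        exact h2.trans h4
    _ = ((1 + |t|) * a ^ s.card) * ∏ i ∈ s, Wf (x i) := by
        have e7 : ∀ i ∈ s, Wf (x i) = (1 + |x i|) *
            ((√2 * (1 + |x i| ^ (-(1 / 2) : ℝ))) * Real.exp (-(x i) ^ 4)) := by
          intro i _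
          unfold Wf
          ring
        rw [Finset.prod_congr rfl e7, Finset.prod_mul_distrib (f := fun _ => a), Finset.prod_const,
          Finset.prod_mul_distrib (f := fun i => 1 + |x i|)]
        ring
    _ ≤ _ := by
        gcongr
        apply Finset.prod_nonneg
        intro i _
        unfold Wf
        positivity

/-- the solution -/
noncomputable def uu (j : Fin n) : E n → ℝ := fun x => pp j x + (1 / (n : ℝ)) * ll x

theorem uu_smooth (j : Fin n) : ContDiff ℝ ∞ (uu j) :=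
  (pp_smooth j).add (contDiff_const.mul ll_smooth)

theorem exp_uu_integrable (hn : 6 ≤ n) (j : Fin n) :
    Integrable (fun x : E n => Real.exp (n * uu j x)) := by
  have hn' : (n : ℝ) ≠ 0 := by
    have : 0 < n := by omega
    positivity
  rw [← (PiLp.volume_preserving_toLp (Fin n)).integrable_comp_emb
    (MeasurableEquiv.toLp 2 _).measurableEmbedding]
  have h1 : Integrable (fun y : Fin n → ℝ => ∏ i, gf j i (y i)) :=
    Integrable.fintype_prod (f := fun i => gf j i) (fun i => gf_integrable j i)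
  apply h1.mono'
  · have : Continuous ((fun x : E n => Real.exp (n * uu j x)) ∘ (WithLp.toLp 2)) := by
      apply Continuous.comp
      · exact Real.continuous_exp.comp (continuous_const.mul (uu_smooth j).continuous)
      · exact PiLp.continuous_toLp 2 _
    exact this.aestronglyMeasurable
  · have h2 : ∀ᵐ y : Fin n → ℝ, ∀ i, y i ≠ 0 := by
      rw [ae_all_iff]
      intro i
      exact Measure.ae_eval_ne (fun _ => volume) i 0
    filter_upwards [h2] with y hy
    have h3 := main_bound hn j (WithLp.toLp 2 y) hy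
    simp only [Function.comp]
    rw [Real.norm_of_nonneg (Real.exp_pos _).le]
    refine le_trans ?_ h3
    have e : (n : ℝ) * uu j (WithLp.toLp 2 y) = ll (WithLp.toLp 2 y) + n * pp j (WithLp.toLp 2 y) := by
      unfold uu
      field_simp
      ring
    rw [e, Real.exp_add]
    have := ll_le (WithLp.toLp 2 y : E n)
    gcongr

end Pool.Agent.R207.QC
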