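import Pool.Agent.R497.TB.Defs
import Pool.Agent.R497.TD.PINC
import Pool.Agent.Y86.MC.NiceC

/-!
# Project TB, piece BCT2 (helper207)
-/

set_option autoImplicit false

namespace Pool.Agent.R207.TB

open MeasureTheory Filter
open Finset hiding box
open Pool.Agent.Y957.MC (IsFlow flowInv smo box bavg)
open Pool.Agent.Y86.MC (mem_box card_box sum_box card_split exists_root)
open Pool.Agent.R497.TB

/-- a separated monotone sequence has few points in a short interval -/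
theorem cnt (s : Finset ℕ) (x : ℕ → ℝ) (A T u : ℝ) (hA : 0 < A) (hT : 0 ≤ T)
    (h : ∀ n ∈ s, ∀ n' ∈ s, n ≤ n' → A * ((n' : ℝ) - n) ≤ |x n' - x n|) :
    ((s.filter fun n => x n < u ∧ u ≤ x n + T).card : ℝ) ≤ T / A + 1 := by
  set w := s.filter fun n => x n < u ∧ u ≤ x n + T with hw
  rcases w.eq_empty_or_nonempty with h0 | h0
  · rw [h0]
    simp only [Finset.card_empty, Nat.cast_zero]
    positivity
  have h1 : w ⊆ Icc (w.min' h0) (w.max' h0) := fun n hn =>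
    Finset.mem_Icc.2 ⟨Finset.min'_le _ _ hn, Finset.le_max' _ _ hn⟩
  have h2 := Finset.card_le_card h1
  rw [Nat.card_Icc] at h2
  have h3 := Finset.mem_filter.1 (Finset.min'_mem w h0)
  have h4 := Finset.mem_filter.1 (Finset.max'_mem w h0)
  have h5 : w.min' h0 ≤ w.max' h0 := Finset.min'_le _ _ (Finset.max'_mem w h0)
  have h6 : (w.card : ℝ) ≤ (w.max' h0 : ℝ) - (w.min' h0 : ℝ) + 1 := by
    have h7 : w.card + w.min' h0 ≤ w.max' h0 + 1 := by omega
    have h8 : (w.card : ℝ) + (w.min' h0 : ℝ) ≤ (w.max' h0 : ℝ) + 1 := by exact_mod_cast h7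
    linarith
  refine h6.trans ?_
  have h9 := h _ h3.1 _ h4.1 h5
  have h10 : |x (w.max' h0) - x (w.min' h0)| ≤ T := by
    rw [abs_le]
    constructor <;> linarith [h3.2.1, h3.2.2, h4.2.1, h4.2.2]
  have h11 : (w.max' h0 : ℝ) - (w.min' h0 : ℝ) ≤ T / A := by
    rw [le_div_iff₀ hA]
    linarith
  linarith

theorem sep_sum (s : Finset ℕ) (x : ℕ → ℝ) (A T V : ℝ) (F : ℝ → ℝ) (hA : 0 < A) (hT : 0 < T)
    (hF : Measurable F) (hF1 : ∀ u, 0 ≤ F u ∧ F u ≤ 1)
    (h : ∀ n ∈ s, ∀ n' ∈ s, n ≤ n' → A * ((n' : ℝ) - n) ≤ |x n' - x n|)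
    (hV : ∀ n ∈ s, |x n| + T ≤ V) (hV0 : 0 ≤ V) :
    ∑ n ∈ s, ∫ r in (0 : ℝ)..T, F (r + x n) ≤ (T / A + 1) * ∫ u in (-V)..V, F u := by
  have hint : ∀ S : Set ℝ, MeasurableSet S → IntegrableOn (S.indicator F) (Set.Ioc (-V) V) := by
    intro S hS
    refine Integrable.of_bound (hF.indicator hS).aestronglyMeasurable 1 (ae_of_all _ fun u => ?_)
    rw [Real.norm_eq_abs, abs_le]
    by_cases hu : u ∈ S
    · rw [Set.indicator_of_mem hu]
      constructor <;> linarith [(hF1 u).1, (hF1 u).2]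
    · rw [Set.indicator_of_notMem hu]
      constructor <;> norm_num
  have hintF : IntegrableOn F (Set.Ioc (-V) V) := by
    have := hint Set.univ MeasurableSet.univ
    rwa [Set.indicator_univ] at this
  have h1 : ∀ n ∈ s, ∫ r in (0 : ℝ)..T, F (r + x n) =
      ∫ u in Set.Ioc (-V) V, (Set.Ioc (x n) (x n + T)).indicator F u := by
    intro n hn
    have h2 := hV n hn
    have h3 := abs_le.1 (show |x n| ≤ V - T by linarith)
    rw [intervalIntegral.integral_comp_add_right, zero_add,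
      intervalIntegral.integral_of_le (by linarith), setIntegral_indicator measurableSet_Ioc,
      Set.inter_eq_right.2, add_comm T (x n)]
    intro u hu
    exact ⟨by linarith [hu.1, h3.1], by linarith [hu.2, h3.2]⟩
  rw [Finset.sum_congr rfl h1, ← integral_finsetSum s fun n _ => hint _ measurableSet_Ioc,
    intervalIntegral.integral_of_le (by linarith), ← integral_const_mul]
  refine setIntegral_mono (integrable_finsetSum s fun n _ => hint _ measurableSet_Ioc)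
    (hintF.const_mul _) fun u => ?_
  have h4 : ∑ n ∈ s, (Set.Ioc (x n) (x n + T)).indicator F u =
      ((s.filter fun n => x n < u ∧ u ≤ x n + T).card : ℝ) * F u := by
    rw [← nsmul_eq_mul, ← Finset.sum_const, Finset.sum_filter]
    refine Finset.sum_congr rfl fun n _ => ?_
    by_cases hu : x n < u ∧ u ≤ x n + T
    · rw [Set.indicator_of_mem (show u ∈ Set.Ioc (x n) (x n + T) from hu), if_pos hu]
    · rw [Set.indicator_of_notMem (show u ∉ Set.Ioc (x n) (x n + T) from hu), if_neg hu]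
  show ∑ n ∈ s, (Set.Ioc (x n) (x n + T)).indicator F u ≤ (T / A + 1) * F u
  rw [h4]
  exact mul_le_mul_of_nonneg_right (cnt s x A T u hA hT.le h) (hF1 u).1

theorem poly_bound (P : Polynomial ℝ) (d : ℕ) (hd : P.natDegree = d) : ∃ C : ℝ, 0 ≤ C ∧
    ∀ N n : ℕ, 1 ≤ n → n ≤ N → |P.eval (n : ℝ)| ≤ C * (N : ℝ) ^ d := by
  refine ⟨∑ i ∈ range (P.natDegree + 1), |P.coeff i|, Finset.sum_nonneg fun _ _ => abs_nonneg _, ?_⟩
  intro N n hn hN
  rw [Polynomial.eval_eq_sum_range, Finset.sum_mul]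
  refine (Finset.abs_sum_le_sum_abs _ _).trans (Finset.sum_le_sum fun i hi => ?_)
  rw [abs_mul, abs_of_nonneg (show (0 : ℝ) ≤ (n : ℝ) ^ i by positivity)]
  refine mul_le_mul_of_nonneg_left ?_ (abs_nonneg _)
  have h1 : (n : ℝ) ≤ N := by exact_mod_cast hN
  have h2 : (1 : ℝ) ≤ N := by exact_mod_cast hn.trans hN
  have h3 : i ≤ d := by rw [Finset.mem_range] at hi; omega
  calc (n : ℝ) ^ i ≤ (N : ℝ) ^ i := pow_le_pow_left₀ (Nat.cast_nonneg _) h1 _
    _ ≤ (N : ℝ) ^ d := pow_le_pow_right₀ h2 h3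

theorem sep_bound {k : ℕ} (p : Fin k → Polynomial ℝ) (d : ℕ) (hd : ∀ i, (p i).natDegree = d) :
    ∃ C : ℝ, 0 ≤ C ∧ ∀ (N : ℕ) (m : Fin k → ℕ), (∀ l, 1 ≤ m l ∧ m l ≤ N) →
      |sep p m| ≤ C * (N : ℝ) ^ d := by
  choose C hC0 hC using fun i => poly_bound (p i) d (hd i)
  refine ⟨∑ i, C i, Finset.sum_nonneg fun i _ => hC0 i, fun N m hm => ?_⟩
  unfold sep
  rw [Finset.sum_mul]
  exact (Finset.abs_sum_le_sum_abs _ _).trans
    (Finset.sum_le_sum fun i _ => hC i N (m i) (hm i).1 (hm i).2)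

theorem incr_pos (P : Polynomial ℝ) (d : ℕ) (hd0 : 0 < d) (hd : P.natDegree = d)
    (hl : 0 < P.leadingCoeff) (j : ℕ) : ∃ c : ℝ, 0 < c ∧ ∃ N₀ : ℕ, ∀ N, N₀ ≤ N → ∀ n n' : ℕ,
      cut j N < n → n ≤ n' → n' ≤ N →
      c * (N : ℝ) ^ (d - 1) * ((n' : ℝ) - n) ≤ P.eval (n' : ℝ) - P.eval (n : ℝ) := by
  obtain ⟨c, C, hc, _, hb⟩ := Pool.Agent.R497.TD.PINC784.t_PINC P (by omega) hl j
  obtain ⟨N₀, hN₀⟩ := eventually_atTop.1 hb
  refine ⟨c, hc, N₀, fun N hN n n' hn hnn' => ?_⟩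
  induction n', hnn' using Nat.le_induction with
  | base => intro _; simp
  | succ m hm ih =>
    intro hmN
    have h1 := ih (by omega)
    obtain ⟨r, hr⟩ : ∃ r, m = r + 1 := ⟨m - 1, by omega⟩
    have h2 := (hN₀ N hN r (by unfold cut at hn; omega) (by omega)).1
    rw [hd] at h2
    have h3 : ((m : ℕ) : ℝ) = (r : ℝ) + 1 := by rw [hr]; push_cast; ring
    have h4 : ((m + 1 : ℕ) : ℝ) = (r : ℝ) + 2 := by rw [hr]; push_cast; ring
    rw [h4]
    rw [h3] at h1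
    nlinarith

theorem incr (P : Polynomial ℝ) (d : ℕ) (hd0 : 0 < d) (hd : P.natDegree = d) (j : ℕ) :
    ∃ c : ℝ, 0 < c ∧ ∃ N₀ : ℕ, ∀ N, N₀ ≤ N → ∀ n n' : ℕ, cut j N < n → n ≤ n' → n' ≤ N →
      c * (N : ℝ) ^ (d - 1) * ((n' : ℝ) - n) ≤ |P.eval (n' : ℝ) - P.eval (n : ℝ)| := by
  have hP : P ≠ 0 := by
    rintro rfl
    rw [Polynomial.natDegree_zero] at hd
    omega
  rcases lt_or_gt_of_ne (Polynomial.leadingCoeff_ne_zero.2 hP) with h | h
  · obtain ⟨c, hc, N₀, hN⟩ := incr_pos (-P) d hd0 (by rw [Polynomial.natDegree_neg, hd])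
      (by rw [Polynomial.leadingCoeff_neg]; linarith) j
    refine ⟨c, hc, N₀, fun N hN0 n n' h1 h2 h3 => (hN N hN0 n n' h1 h2 h3).trans ?_⟩
    rw [Polynomial.eval_neg, Polynomial.eval_neg, abs_sub_comm]
    refine le_trans ?_ (le_abs_self _)
    linarith
  · obtain ⟨c, hc, N₀, hN⟩ := incr_pos P d hd0 hd h j
    exact ⟨c, hc, N₀, fun N hN0 n n' h1 h2 h3 => (hN N hN0 n n' h1 h2 h3).trans (le_abs_self _)⟩

theorem sep_update {k : ℕ} (p : Fin k → Polynomial ℝ) (i : Fin k) (m : Fin k → ℕ) (n n' : ℕ) :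
    sep p (Function.update m i n') - sep p (Function.update m i n) =
      (p i).eval (n' : ℝ) - (p i).eval (n : ℝ) := by
  unfold sep
  rw [← Finset.add_sum_erase _ _ (Finset.mem_univ i),
    ← Finset.add_sum_erase _ (fun l => (p l).eval ((Function.update m i n l : ℕ) : ℝ))
      (Finset.mem_univ i), Function.update_self, Function.update_self]
  have h1 : ∑ l ∈ univ.erase i, (p l).eval ((Function.update m i n' l : ℕ) : ℝ) =
      ∑ l ∈ univ.erase i, (p l).eval ((Function.update m i n l : ℕ) : ℝ) := by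
    refine Finset.sum_congr rfl fun l hl => ?_
    rw [Function.update_of_ne (Finset.ne_of_mem_erase hl),
      Function.update_of_ne (Finset.ne_of_mem_erase hl)]
  rw [h1]
  ring

/-- the main estimate: the averages of the smoothed function -/
theorem box_sum {k : ℕ} (p : Fin k → Polynomial ℝ) (i : Fin k) (M : Fin k → ℕ) (hMi : ∀ l, M l ≤ M i)
    (F : ℝ → ℝ) (a T A C : ℝ) (d c : ℕ) (hF : Measurable F) (hF1 : ∀ u, 0 ≤ F u ∧ F u ≤ 1)
    (ha1 : 1 ≤ a) (ha2 : a ≤ 2) (hT : 0 < T) (hc0 : 0 < A) (hC : 0 ≤ C)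
    (hS : ∀ m : Fin k → ℕ, (∀ l, 1 ≤ m l ∧ m l ≤ M i) → |sep p m| ≤ C * (M i : ℝ) ^ d)
    (hI : ∀ n n' : ℕ, c < n → n ≤ n' → n' ≤ M i →
      A * ((n' : ℝ) - n) ≤ |(p i).eval (n' : ℝ) - (p i).eval (n : ℝ)|) :
    ∑ m ∈ box M, (if c < m i then ∫ r in (0 : ℝ)..T, F (r + a * sep p m) else 0) ≤
      (box (Function.update M i 1)).card * ((T / A + 1) *
        ∫ u in (-(2 * C * (M i : ℝ) ^ d + T))..(2 * C * (M i : ℝ) ^ d + T), F u) := by
  rw [sum_box i M, ← nsmul_eq_mul, ← Finset.sum_const]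
  refine Finset.sum_le_sum fun m hm => ?_
  rw [mem_box] at hm
  have h1 : ∑ n ∈ Icc 1 (M i), (if c < Function.update m i n i then
      ∫ r in (0 : ℝ)..T, F (r + a * sep p (Function.update m i n)) else 0) =
      ∑ n ∈ (Icc 1 (M i)).filter (fun n => c < n),
        ∫ r in (0 : ℝ)..T, F (r + a * sep p (Function.update m i n)) := by
    rw [Finset.sum_filter]
    refine Finset.sum_congr rfl fun n _ => ?_
    rw [Function.update_self]
  rw [h1]
  refine sep_sum _ (fun n => a * sep p (Function.update m i n)) A T _ F hc0 hT hF hF1 ?_ ?_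
    (by positivity)
  · intro n hn n' hn' hnn'
    rw [Finset.mem_filter, Finset.mem_Icc] at hn hn'
    show A * ((n' : ℝ) - n) ≤ |a * sep p (Function.update m i n') - a * sep p (Function.update m i n)|
    rw [← mul_sub, abs_mul, sep_update, abs_of_nonneg (by linarith : (0 : ℝ) ≤ a)]
    have h2 := hI n n' hn.2 hnn' hn'.1.2
    have h3 := abs_nonneg ((p i).eval (n' : ℝ) - (p i).eval (n : ℝ))
    nlinarith
  · intro n hn
    rw [Finset.mem_filter, Finset.mem_Icc] at hn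
    show |a * sep p (Function.update m i n)| + T ≤ 2 * C * (M i : ℝ) ^ d + T
    rw [abs_mul, abs_of_nonneg (by linarith : (0 : ℝ) ≤ a)]
    have h2 := hS (Function.update m i n) (fun l => by
      by_cases hl : l = i
      · subst hl
        rw [Function.update_self]
        exact hn.1
      · rw [Function.update_of_ne hl]
        have h3 := hm l
        rw [Function.update_of_ne hl] at h3
        exact ⟨h3.1, h3.2.trans (hMi l)⟩)
    have h3 := abs_nonneg (sep p (Function.update m i n))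
    nlinarith

/-- approximation of a box by a grid box -/
theorem grid_approx (k q : ℕ) (hq : 0 < q) (η : ℝ) (hη0 : 0 < η) (hη1 : η ≤ 1) : ∃ T₀ : ℕ,
    ∀ T : ℕ, T₀ ≤ T → ∀ M : Fin k → ℕ, (∀ l, (T + 1) ^ q ≤ M l) → ∀ i, (∀ l, M l ≤ M i) →
    ∃ t : Fin k → ℕ, (∀ l, T ≤ t l) ∧ (∀ l, t l ≤ t i) ∧ (∀ l, gbx q t l ≤ M l) ∧
      ((∏ l, M l : ℕ) : ℝ) - ((∏ l, gbx q t l : ℕ) : ℝ) ≤ η * ((∏ l, M l : ℕ) : ℝ) := by
  set ζ : ℝ := η / ((k : ℝ) + 1) with hζ
  have hζ0 : 0 < ζ := by positivity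
  have hk0 : (0 : ℝ) ≤ k := Nat.cast_nonneg k
  have hζ1 : ζ ≤ 1 := by
    rw [hζ, div_le_one (by positivity)]
    linarith
  obtain ⟨T₂, hT₂⟩ := exists_nat_gt ((q : ℝ) / ζ)
  refine ⟨T₂, fun T hTT2 M hM i hMi => ?_⟩
  have hTq : 1 ≤ (T + 1) ^ q := Nat.one_le_pow _ _ (Nat.succ_pos _)
  have hM1 : ∀ l, 1 ≤ M l := fun l => hTq.trans (hM l)
  choose t ht1 ht2 using fun l => exists_root hq (hM1 l)
  have htT : ∀ l, T ≤ t l := by
    intro l
    have h1 : (T + 1) ^ q < (t l + 2) ^ q := lt_of_le_of_lt (hM l) (ht2 l)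
    have h2 := lt_of_pow_lt_pow_left₀ q (Nat.zero_le _) h1
    omega
  have hti : ∀ l, t l ≤ t i := by
    intro l
    have h1 : (t l + 1) ^ q < (t i + 2) ^ q := lt_of_le_of_lt ((ht1 l).trans (hMi l)) (ht2 i)
    have h2 := lt_of_pow_lt_pow_left₀ q (Nat.zero_le _) h1
    omega
  refine ⟨t, htT, hti, ht1, ?_⟩
  set M' : Fin k → ℕ := gbx q t with hM'
  have hM'M : ∀ l, M' l ≤ M l := ht1
  set P : ℝ := ((∏ l, M l : ℕ) : ℝ) with hP
  set P' : ℝ := ((∏ l, M' l : ℕ) : ℝ) with hP'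
  have hP0 : 0 < P := by
    rw [hP]
    exact_mod_cast Finset.prod_pos fun l _ => hM1 l
  have hratio : (1 - ζ) ^ k * P ≤ P' := by
    have h1 : ∀ l, (1 - ζ) * (M l : ℝ) ≤ (M' l : ℝ) := by
      intro l
      have h2 : (M l : ℝ) ≤ ((t l : ℝ) + 2) ^ q := by exact_mod_cast (ht2 l).le
      have h3 : (M' l : ℝ) = ((t l : ℝ) + 1) ^ q := by
        rw [hM']
        unfold gbx
        push_cast
        rfl
      have h4 : (1 - ζ) * ((t l : ℝ) + 2) ^ q ≤ ((t l : ℝ) + 1) ^ q := by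
        have h5 : ((t l : ℝ) + 1) ^ q = (1 + (-(1 / ((t l : ℝ) + 2)))) ^ q * ((t l : ℝ) + 2) ^ q := by
          rw [← mul_pow]
          congr 1
          field_simp
          ring
        rw [h5]
        refine mul_le_mul_of_nonneg_right ?_ (by positivity)
        have h6 : (-2 : ℝ) ≤ -(1 / ((t l : ℝ) + 2)) := by
          have h7 : 1 / ((t l : ℝ) + 2) ≤ 1 := by
            rw [div_le_one (by positivity)]
            have : (0 : ℝ) ≤ t l := Nat.cast_nonneg _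
            linarith
          linarith
        refine le_trans ?_ (one_add_mul_le_pow h6 q)
        have h8 : (q : ℝ) / ζ ≤ (t l : ℝ) + 2 := by
          have h9 : (T₂ : ℝ) ≤ t l := by exact_mod_cast hTT2.trans (htT l)
          linarith
        have h10 : (q : ℝ) * (1 / ((t l : ℝ) + 2)) ≤ ζ := by
          rw [div_le_iff₀ hζ0] at h8
          rw [mul_one_div, div_le_iff₀ (by positivity)]
          linarith
        linarith
      rw [h3]
      refine le_trans ?_ h4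
      exact mul_le_mul_of_nonneg_left h2 (by linarith)
    have h11 : ∏ l : Fin k, ((1 - ζ) * (M l : ℝ)) ≤ ∏ l, (M' l : ℝ) :=
      Finset.prod_le_prod (fun l _ => mul_nonneg (by linarith) (Nat.cast_nonneg _)) fun l _ => h1 l
    rw [Finset.prod_mul_distrib, Finset.prod_const, Finset.card_univ, Fintype.card_fin] at h11
    rw [hP, hP']
    push_cast
    exact h11
  have h1 : 1 - η ≤ (1 - ζ) ^ k := by
    have h2 : (-2 : ℝ) ≤ -ζ := by linarith
    have h3 := one_add_mul_le_pow h2 k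
    have h4 : (k : ℝ) * ζ ≤ η := by
      rw [hζ, mul_div_assoc', div_le_iff₀ (by positivity)]
      nlinarith
    calc 1 - η ≤ 1 + k * -ζ := by linarith
      _ ≤ (1 + -ζ) ^ k := h3
      _ = (1 - ζ) ^ k := by ring
  nlinarith

/-- from a large box to a smaller one -/
theorem ravg_sub {k : ℕ} (M M' : Fin k → ℕ) (h : (Fin k → ℕ) → ℝ) (η : ℝ) (hh : ∀ m, 0 ≤ h m ∧ h m ≤ 1)
    (hM' : ∀ l, 0 < M' l) (hM'M : ∀ l, M' l ≤ M l)
    (hd : ((∏ l, M l : ℕ) : ℝ) - ((∏ l, M' l : ℕ) : ℝ) ≤ η * ((∏ l, M l : ℕ) : ℝ)) :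
    ravg M h ≤ ravg M' h + η := by
  have hsub : box M' ⊆ box M := by
    intro m hm
    rw [mem_box] at hm ⊢
    exact fun l => ⟨(hm l).1, (hm l).2.trans (hM'M l)⟩
  unfold ravg
  set P : ℝ := ((∏ l, M l : ℕ) : ℝ) with hP
  set P' : ℝ := ((∏ l, M' l : ℕ) : ℝ) with hP'
  have hP'0 : 0 < P' := by
    rw [hP']
    exact_mod_cast Finset.prod_pos fun l _ => hM' l
  have hP'P : P' ≤ P := by
    rw [hP, hP']
    exact_mod_cast Finset.prod_le_prod' fun l _ => hM'M l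
  have hP0 : 0 < P := hP'0.trans_le hP'P
  have e1 : ∑ m ∈ box M, h m ≤ ∑ m ∈ box M', h m + (P - P') := by
    rw [← Finset.sum_sdiff hsub, add_comm]
    refine add_le_add le_rfl ((Finset.sum_le_sum fun m _ => (hh m).2).trans ?_)
    rw [Finset.sum_const, nsmul_eq_mul, mul_one, Finset.cast_card_sdiff hsub, card_box, card_box]
  have e2 : 0 ≤ ∑ m ∈ box M', h m := Finset.sum_nonneg fun m _ => (hh m).1
  have e3 : 1 / P ≤ 1 / P' := one_div_le_one_div_of_le hP'0 hP'P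
  calc 1 / P * ∑ m ∈ box M, h m ≤ 1 / P * (∑ m ∈ box M', h m + (P - P')) :=
        mul_le_mul_of_nonneg_left e1 (by positivity)
    _ ≤ 1 / P * (∑ m ∈ box M', h m + η * P) := by
        refine mul_le_mul_of_nonneg_left ?_ (by positivity)
        linarith
    _ = 1 / P * ∑ m ∈ box M', h m + η := by field_simp
    _ ≤ 1 / P' * ∑ m ∈ box M', h m + η := by
        have := mul_le_mul_of_nonneg_right e3 e2
        linarith

/-- the part of the box below the cutoff -/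
theorem ravg_cut {k : ℕ} (i : Fin k) (j : ℕ) (M : Fin k → ℕ) (h : (Fin k → ℕ) → ℝ) (hh : ∀ m, 0 ≤ h m ∧ h m ≤ 1)
    (hM : ∀ l, 0 < M l) :
    ravg M h ≤ 1 / ((j : ℝ) + 1) + ravg M (fun m => if cut j (M i) < m i then h m else 0) := by
  unfold ravg
  set P : ℝ := ((∏ l, M l : ℕ) : ℝ) with hP
  have hP0 : 0 < P := by
    rw [hP]
    exact_mod_cast Finset.prod_pos fun l _ => hM l
  have e1 : ∑ m ∈ box M, h m ≤ ∑ m ∈ box M, (if m i ≤ cut j (M i) then (1 : ℝ) else 0) +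
      ∑ m ∈ box M, (if cut j (M i) < m i then h m else 0) := by
    rw [← Finset.sum_add_distrib]
    refine Finset.sum_le_sum fun m _ => ?_
    by_cases hm : m i ≤ cut j (M i)
    · rw [if_pos hm, if_neg (by omega)]
      linarith [(hh m).2]
    · rw [if_neg hm, if_pos (by omega)]
      linarith
  have e2 : ∑ m ∈ box M, (if m i ≤ cut j (M i) then (1 : ℝ) else 0) ≤ 1 / ((j : ℝ) + 1) * P := by
    rw [sum_box i M]
    have h1 : ∀ m ∈ box (Function.update M i 1), (∑ n ∈ Icc 1 (M i),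
        (if Function.update m i n i ≤ cut j (M i) then (1 : ℝ) else 0)) ≤ 1 / ((j : ℝ) + 1) * (M i : ℝ) := by
      intro m _
      have h2 : ∑ n ∈ Icc 1 (M i), (if Function.update m i n i ≤ cut j (M i) then (1 : ℝ) else 0) =
          (((Icc 1 (M i)).filter fun n => n ≤ cut j (M i)).card : ℝ) := by
        rw [← Finset.sum_boole]
        refine Finset.sum_congr rfl fun n _ => ?_
        rw [Function.update_self]
      rw [h2]
      have h3 : ((Icc 1 (M i)).filter fun n => n ≤ cut j (M i)).card ≤ cut j (M i) := by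
        refine (Finset.card_le_card (t := Icc 1 (cut j (M i))) fun n hn => ?_).trans ?_
        · rw [Finset.mem_filter, Finset.mem_Icc] at hn
          exact Finset.mem_Icc.2 ⟨hn.1.1, hn.2⟩
        · rw [Nat.card_Icc]
          omega
      have h4 : ((cut j (M i) : ℕ) : ℝ) ≤ 1 / ((j : ℝ) + 1) * (M i : ℝ) :=
        Nat.floor_le (by positivity)
      exact (Nat.cast_le.2 h3).trans h4
    refine (Finset.sum_le_sum h1).trans ?_
    rw [Finset.sum_const, nsmul_eq_mul, hP, card_split i M]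
    push_cast
    rw [mul_left_comm]
  have e3 := mul_le_mul_of_nonneg_left (e1.trans (add_le_add e2 le_rfl)) (show 0 ≤ 1 / P by positivity)
  refine e3.trans (le_of_eq ?_)
  rw [mul_add]
  congr 1
  field_simp

theorem grid_bound (k d : ℕ) (p : Fin k → Polynomial ℝ) (hd0 : 0 < d) (C : ℝ) (hC0 : 0 ≤ C)
    (hC : ∀ (N : ℕ) (m : Fin k → ℕ), (∀ l, 1 ≤ m l ∧ m l ≤ N) → |sep p m| ≤ C * (N : ℝ) ^ d)
    (i : Fin k) (j : ℕ) (c : ℝ) (hc : 0 < c) (N₀ : ℕ)
    (hN₀ : ∀ N, N₀ ≤ N → ∀ n n' : ℕ, cut j N < n → n ≤ n' → n' ≤ N →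
      c * (N : ℝ) ^ (d - 1) * ((n' : ℝ) - n) ≤ |(p i).eval (n' : ℝ) - (p i).eval (n : ℝ)|)
    (F : ℝ → ℝ) (L a : ℝ) (hF : Measurable F) (hF1 : ∀ u, 0 ≤ F u ∧ F u ≤ 1) (ha1 : 1 ≤ a) (ha2 : a ≤ 2)
    (hL : Tendsto (fun V : ℝ => (1 / V) * ∫ u in (-V)..V, F u) atTop (nhds (2 * L)))
    (H : ∀ η : ℝ, 0 < η → ∃ T₁ : ℕ, ∀ t : Fin k → ℕ, T₁ ≤ t i → (∀ l, t l ≤ t i) →
      |ravg (gbx (8 * (k + 1)) t) (fun m => if cut j (gbx (8 * (k + 1)) t i) < m i then
        F (a * sep p m) - (1 / ((t i : ℝ) + 1) ^ (8 * (k + 1) * d - 2 * (k + 1))) *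
          ∫ r in (0 : ℝ)..(((t i : ℝ) + 1) ^ (8 * (k + 1) * d - 2 * (k + 1))), F (r + a * sep p m) else 0)| ≤ η)
    (η : ℝ) (hη : 0 < η) :
    ∃ T₁ : ℕ, ∀ t : Fin k → ℕ, T₁ ≤ t i → (∀ l, t l ≤ t i) →
      ravg (gbx (8 * (k + 1)) t) (fun m => F (a * sep p m)) ≤
        1 / ((j : ℝ) + 1) + 2 * η + 2 * (2 * (2 * C + 1) / c) * L := by
  obtain ⟨D, hD⟩ : ∃ D : ℝ, D = 2 * (2 * C + 1) / c := ⟨_, rfl⟩
  have hD0 : 0 < D := by rw [hD]; positivity
  rw [← hD]
  obtain ⟨T₁, hT₁⟩ := H η hη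
  have h1 : ∀ᶠ V : ℝ in atTop, (1 / V) * ∫ u in (-V)..V, F u < 2 * L + η / D :=
    hL.eventually (gt_mem_nhds (by have : 0 < η / D := by positivity
                                   linarith))
  obtain ⟨V₁, hV₁⟩ := eventually_atTop.1 h1
  obtain ⟨T₂, hT₂⟩ := exists_nat_gt V₁
  obtain ⟨T₃, hT₃⟩ := exists_nat_gt c
  refine ⟨max (max T₁ T₂) (max T₃ N₀), fun t ht htl => ?_⟩
  have ht1 : T₁ ≤ t i := ((le_max_left _ _).trans (le_max_left _ _)).trans ht
  have ht2 : T₂ ≤ t i := ((le_max_right _ _).trans (le_max_left _ _)).trans ht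
  have ht3 : T₃ ≤ t i := ((le_max_left _ _).trans (le_max_right _ _)).trans ht
  have ht4 : N₀ ≤ t i := ((le_max_right _ _).trans (le_max_right _ _)).trans ht
  have hq0 : 8 * (k + 1) ≠ 0 := by omega
  obtain ⟨X, hX⟩ : ∃ X : ℝ, X = (t i : ℝ) + 1 := ⟨_, rfl⟩
  have hti0 : (0 : ℝ) ≤ (t i : ℝ) := Nat.cast_nonneg _
  have hX1 : 1 ≤ X := by linarith
  have hH := hT₁ t ht1 htl
  rw [← hX] at hH
  obtain ⟨Tt, hTt⟩ : ∃ Tt : ℝ, Tt = X ^ (8 * (k + 1) * d - 2 * (k + 1)) := ⟨_, rfl⟩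
  rw [← hTt] at hH
  obtain ⟨M, hM⟩ : ∃ M : Fin k → ℕ, M = gbx (8 * (k + 1)) t := ⟨_, rfl⟩
  rw [← hM] at hH ⊢
  have hMN : (M i : ℝ) = X ^ (8 * (k + 1)) := by
    rw [hM, hX]
    unfold gbx
    push_cast
    rfl
  have hMpos : ∀ l, 0 < M l := fun l => by
    rw [hM]
    exact Nat.pow_pos (Nat.succ_pos _)
  have hMi : ∀ l, M l ≤ M i := fun l => by
    rw [hM]
    exact Nat.pow_le_pow_left (Nat.succ_le_succ (htl l)) _
  have hMge : t i + 1 ≤ M i := by
    rw [hM]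
    exact Nat.le_self_pow hq0 _
  have hN1 : (1 : ℝ) ≤ (M i : ℝ) := by
    have : 1 ≤ M i := by omega
    exact_mod_cast this
  have hN0 : (0 : ℝ) < (M i : ℝ) := by linarith
  have hTt0 : 0 < Tt := by rw [hTt]; positivity
  have hTtle : Tt ≤ (M i : ℝ) ^ d := by
    rw [hTt, hMN, ← pow_mul]
    exact pow_le_pow_right₀ hX1 (by omega)
  have hdd : d = d - 1 + 1 := by omega
  have hATt : c * (M i : ℝ) ^ (d - 1) ≤ Tt := by
    have e1 : 8 * (k + 1) * d - 2 * (k + 1) = 8 * (k + 1) * (d - 1) + 6 * (k + 1) := by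
      obtain ⟨e, he⟩ : ∃ e, d = e + 1 := ⟨d - 1, by omega⟩
      subst he
      rw [Nat.add_sub_cancel]
      have : 8 * (k + 1) * (e + 1) = 8 * (k + 1) * e + 8 * (k + 1) := by ring
      omega
    rw [hTt, hMN, ← pow_mul, e1, pow_add, mul_comm c]
    refine mul_le_mul_of_nonneg_left ?_ (by positivity)
    have e2 : X ≤ X ^ (6 * (k + 1)) := le_self_pow₀ hX1 (by omega)
    have e3 : (T₃ : ℝ) ≤ (t i : ℝ) := by exact_mod_cast ht3
    linarith
  obtain ⟨A, hA⟩ : ∃ A : ℝ, A = c * (M i : ℝ) ^ (d - 1) := ⟨_, rfl⟩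
  rw [← hA] at hATt
  have hA0 : 0 < A := by rw [hA]; positivity
  -- the integral over the large interval
  have hintF : ∀ u v : ℝ, IntervalIntegrable F volume u v := by
    intro u v
    refine (intervalIntegrable_const (c := (1 : ℝ))).mono_fun hF.aestronglyMeasurable
      (ae_of_all _ fun w => ?_)
    show |F w| ≤ |(1 : ℝ)|
    rw [abs_one, abs_le]
    constructor <;> linarith [(hF1 w).1, (hF1 w).2]
  have hI0 : ∫ u in (-(2 * C * (M i : ℝ) ^ d + Tt))..(2 * C * (M i : ℝ) ^ d + Tt), F u ≤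
      ∫ u in (-((2 * C + 1) * (M i : ℝ) ^ d))..((2 * C + 1) * (M i : ℝ) ^ d), F u := by
    have e1 : 2 * C * (M i : ℝ) ^ d + Tt ≤ (2 * C + 1) * (M i : ℝ) ^ d := by linarith
    have e2 : 0 ≤ 2 * C * (M i : ℝ) ^ d + Tt := by positivity
    exact intervalIntegral.integral_mono_interval (by linarith) (by linarith) e1
      (ae_of_all _ fun u => (hF1 u).1) (hintF _ _)
  have hI1 : ∫ u in (-((2 * C + 1) * (M i : ℝ) ^ d))..((2 * C + 1) * (M i : ℝ) ^ d), F u ≤
      (2 * C + 1) * (M i : ℝ) ^ d * (2 * L + η / D) := by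
    have e1 : (M i : ℝ) ≤ (M i : ℝ) ^ d := le_self_pow₀ hN1 (by omega)
    have e2 : (T₂ : ℝ) ≤ (M i : ℝ) := by
      have : T₂ ≤ M i := by omega
      exact_mod_cast this
    have e3 : V₁ ≤ (2 * C + 1) * (M i : ℝ) ^ d := by nlinarith
    have e4 := hV₁ _ e3
    have e5 : 0 < (2 * C + 1) * (M i : ℝ) ^ d := by positivity
    rw [one_div, inv_mul_lt_iff₀ e5] at e4
    exact e4.le
  -- the sum over the box
  have hbs := box_sum p i M hMi F a Tt A C d (cut j (M i)) hF hF1 ha1 ha2 hTt0 hA0 hC0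
    (fun m hm => hC (M i) m hm) (fun n n' h1 h2 h3 => by
      rw [hA]
      exact hN₀ (M i) (by omega) n n' h1 h2 h3)
  obtain ⟨S, hS⟩ : ∃ S : ℝ, S = ((box (Function.update M i 1)).card : ℝ) := ⟨_, rfl⟩
  rw [← hS] at hbs
  have hP : ((∏ l, M l : ℕ) : ℝ) = S * (M i : ℝ) := by
    rw [card_split i M, hS]
    push_cast
    rfl
  have hP0 : (0 : ℝ) < ((∏ l, M l : ℕ) : ℝ) := by
    exact_mod_cast Finset.prod_pos fun l _ => hMpos l
  have hS0 : 0 < S := by
    rw [hP] at hP0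
    exact pos_of_mul_pos_left hP0 hN0.le
  have hsm : ravg M (fun m => if cut j (M i) < m i then
      (1 / Tt) * ∫ r in (0 : ℝ)..Tt, F (r + a * sep p m) else 0) ≤ η + 2 * D * L := by
    unfold ravg
    have e1 : ∑ m ∈ box M, (if cut j (M i) < m i then
        (1 / Tt) * ∫ r in (0 : ℝ)..Tt, F (r + a * sep p m) else 0) =
        (1 / Tt) * ∑ m ∈ box M, (if cut j (M i) < m i then
          ∫ r in (0 : ℝ)..Tt, F (r + a * sep p m) else 0) := by
      rw [Finset.mul_sum]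
      refine Finset.sum_congr rfl fun m _ => ?_
      split_ifs
      · rfl
      · rw [mul_zero]
    rw [e1, hP]
    have hI := hI0.trans hI1
    have e2 : (Tt / A + 1) ≤ 2 * Tt / A := by
      have : 1 ≤ Tt / A := by rw [le_div_iff₀ hA0]; linarith
      have e3 : 2 * Tt / A = Tt / A + Tt / A := by ring
      linarith
    have hInn : 0 ≤ ∫ u in (-(2 * C * (M i : ℝ) ^ d + Tt))..(2 * C * (M i : ℝ) ^ d + Tt), F u := by
      have e2 : 0 ≤ 2 * C * (M i : ℝ) ^ d + Tt := by positivity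
      exact intervalIntegral.integral_nonneg (by linarith) fun u _ => (hF1 u).1
    have e4 : (Tt / A + 1) *
        ∫ u in (-(2 * C * (M i : ℝ) ^ d + Tt))..(2 * C * (M i : ℝ) ^ d + Tt), F u ≤
        2 * Tt / A * ((2 * C + 1) * (M i : ℝ) ^ d * (2 * L + η / D)) :=
      mul_le_mul e2 hI hInn (by positivity)
    have e5 : 1 / (S * (M i : ℝ)) * (1 / Tt * ∑ m ∈ box M, (if cut j (M i) < m i then
          ∫ r in (0 : ℝ)..Tt, F (r + a * sep p m) else 0)) ≤
        1 / (S * (M i : ℝ)) * (1 / Tt * (S * (2 * Tt / A * ((2 * C + 1) * (M i : ℝ) ^ d * (2 * L + η / D))))) := by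
      refine mul_le_mul_of_nonneg_left ?_ (by positivity)
      refine mul_le_mul_of_nonneg_left ?_ (by positivity)
      exact hbs.trans (mul_le_mul_of_nonneg_left e4 hS0.le)
    refine e5.trans (le_of_eq ?_)
    have e6 : (M i : ℝ) ^ d = (M i : ℝ) ^ (d - 1) * (M i : ℝ) := by
      rw [← pow_succ, ← hdd]
    rw [e6, hA]
    have e7 : (0 : ℝ) < (M i : ℝ) ^ (d - 1) := by positivity
    have e8 : 1 / (S * (M i : ℝ)) * (1 / Tt * (S * (2 * Tt / (c * (M i : ℝ) ^ (d - 1)) *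
        ((2 * C + 1) * ((M i : ℝ) ^ (d - 1) * (M i : ℝ)) * (2 * L + η / D))))) =
        2 * (2 * C + 1) / c * (2 * L + η / D) := by
      field_simp
    rw [e8, ← hD]
    field_simp
    ring
  have hadd : ravg M (fun m => if cut j (M i) < m i then F (a * sep p m) else 0) =
      ravg M (fun m => if cut j (M i) < m i then
        F (a * sep p m) - (1 / Tt) * ∫ r in (0 : ℝ)..Tt, F (r + a * sep p m) else 0) +
      ravg M (fun m => if cut j (M i) < m i then
        (1 / Tt) * ∫ r in (0 : ℝ)..Tt, F (r + a * sep p m) else 0) := by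
    unfold ravg
    rw [← mul_add, ← Finset.sum_add_distrib]
    congr 1
    refine Finset.sum_congr rfl fun m _ => ?_
    beta_reduce
    by_cases hm : cut j (M i) < m i
    · rw [if_pos hm, if_pos hm, if_pos hm]
      ring
    · rw [if_neg hm, if_neg hm, if_neg hm]
      ring
  have hcut := ravg_cut i j M (fun m => F (a * sep p m)) (fun m => hF1 _) hMpos
  have habs := (abs_le.1 hH).2
  rw [hadd] at hcut
  linarith

theorem main_bound (k d : ℕ) (p : Fin k → Polynomial ℝ) (hk : 0 < k) (hp : SD p d) (ε : ℝ) :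
    ∃ K : ℝ, 0 < K ∧ ∀ (F : ℝ → ℝ) (L a : ℝ), Measurable F → (∀ u, 0 ≤ F u ∧ F u ≤ 1) → 1 ≤ a → a ≤ 2 →
    Tendsto (fun V : ℝ => (1 / V) * ∫ u in (-V)..V, F u) atTop (nhds (2 * L)) →
    (∀ (i : Fin k) (j : ℕ) (η : ℝ), 0 < η → ∃ T₁ : ℕ, ∀ t : Fin k → ℕ, T₁ ≤ t i → (∀ l, t l ≤ t i) →
      |ravg (gbx (8 * (k + 1)) t) (fun m => if cut j (gbx (8 * (k + 1)) t i) < m i then
        F (a * sep p m) - (1 / ((t i : ℝ) + 1) ^ (8 * (k + 1) * d - 2 * (k + 1))) *
          ∫ r in (0 : ℝ)..(((t i : ℝ) + 1) ^ (8 * (k + 1) * d - 2 * (k + 1))), F (r + a * sep p m) else 0)| ≤ η) →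
    0 < ε → ∀ᶠ M in atTop, ravg M (fun m => F (a * sep p m)) ≤ ε + K * L := by
  rcases le_or_gt ε 0 with hε | hε
  · exact ⟨1, one_pos, fun F L a _ _ _ _ _ _ h => absurd h (by linarith)⟩
  obtain ⟨j, hj⟩ := exists_nat_one_div_lt (show (0 : ℝ) < ε / 8 by positivity)
  obtain ⟨C, hC0, hC⟩ := sep_bound p d hp.2
  choose c hc N₀ hN₀ using fun i => incr (p i) d hp.1 (hp.2 i) j
  have hsum0 : 0 ≤ ∑ i, 2 * (2 * (2 * C + 1) / c i) :=
    Finset.sum_nonneg fun i _ => by have := hc i; positivity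
  refine ⟨1 + ∑ i, 2 * (2 * (2 * C + 1) / c i), by linarith,
    fun F L a hF hF1 ha1 ha2 hL H _ => ?_⟩
  have hL0 : 0 ≤ L := by
    have h1 : (0 : ℝ) ≤ 2 * L := by
      refine ge_of_tendsto hL ?_
      filter_upwards [eventually_gt_atTop (0 : ℝ)] with V hV
      have h2 : 0 ≤ ∫ u in (-V)..V, F u :=
        intervalIntegral.integral_nonneg (by linarith) fun u _ => (hF1 u).1
      positivity
    linarith
  choose T₁ hT₁ using fun i => grid_bound k d p hp.1 C hC0 hC i j (c i) (hc i) (N₀ i) (hN₀ i) F L a hF hF1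
    ha1 ha2 hL (H i j) (ε / 8) (by positivity)
  obtain ⟨T₀, hT₀⟩ := grid_approx k (8 * (k + 1)) (by omega) (min (ε / 8) 1)
    (lt_min (by positivity) one_pos) (min_le_right _ _)
  obtain ⟨T, hT⟩ : ∃ T : ℕ, T = max T₀ (Finset.univ.sup T₁) := ⟨_, rfl⟩
  refine eventually_atTop.2 ⟨fun _ => (T + 1) ^ (8 * (k + 1)), fun M hM => ?_⟩
  have : Nonempty (Fin k) := ⟨⟨0, hk⟩⟩
  obtain ⟨i, hi⟩ := Finite.exists_max M
  obtain ⟨t, ht1, ht2, ht3, ht4⟩ := hT₀ T (by rw [hT]; exact le_max_left _ _) M (fun l => hM l) i hi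
  have hti : T₁ i ≤ t i := by
    refine le_trans ?_ (ht1 i)
    rw [hT]
    exact (Finset.le_sup (Finset.mem_univ i)).trans (le_max_right _ _)
  have h1 := hT₁ i t hti ht2
  have h2 := ravg_sub M (gbx (8 * (k + 1)) t) (fun m => F (a * sep p m)) _ (fun m => hF1 _)
    (fun l => Nat.pow_pos (Nat.succ_pos _)) ht3 ht4
  have h3 : min (ε / 8) 1 ≤ ε / 8 := min_le_left _ _
  have h4 : 2 * (2 * (2 * C + 1) / c i) ≤ ∑ i, 2 * (2 * (2 * C + 1) / c i) :=
    Finset.single_le_sum (f := fun i => 2 * (2 * (2 * C + 1) / c i))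
      (fun i _ => by have := hc i; positivity) (Finset.mem_univ i)
  have h5 : 2 * (2 * (2 * C + 1) / c i) * L ≤ (∑ i, 2 * (2 * (2 * C + 1) / c i)) * L :=
    mul_le_mul_of_nonneg_right h4 hL0
  have h6 : (1 + ∑ i, 2 * (2 * (2 * C + 1) / c i)) * L = L + (∑ i, 2 * (2 * (2 * C + 1) / c i)) * L := by
    ring
  rw [h6]
  linarith

theorem t_BCT2 : S_BCT2 := by
  intro k d p hk hp
  choose K hK hK' using main_bound k d p hk hp
  exact ⟨K, hK, fun F L a hF hF1 ha1 ha2 hL H ε hε => hK' ε F L a hF hF1 ha1 ha2 hL H hε⟩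

end Pool.Agent.R207.TB
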